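import Pool.Agent.MP_05b4bd_ag.rr.Bas
import Pool.Agent.MP_05b4bd_ag.um.Par

/-! Removal of the normalisation of the coordinates. -/

namespace Pool.Agent.MP_05b4bd_ag.RV

open MvPolynomial HC
open ES hiding Gen Ob Inf
open ES.U (TM Cr hom)
open PC3 (Fm fm d1 DF sub2 pb mapF CenK)
open UM (Shear.choice Shear.cr Shear.co_n0 Shear.co_0n Shear.hom_lin Cors.det Cors.map_pb Cors.back)
open scoped PowerSeries LaurentSeries

namespace Crs
variable {k : Type} [Field k] {a b c e : k} {d : ℕ} {f : R2 k}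

theorem shear [CharZero k] (hd : 2 ≤ d) (H : TM d f) :
    ∃ a b c e : k, a * e - b * c = 1 ∧ Gen d (lin a b c e f - C (coeff 0 f)) := by
  have h0 : hc d f ≠ 0 := fun z => by
    have h := H.ci
    rw [z, map_zero, map_zero] at h
    exact h.ne_zero (e := 0) (isHomogeneous_zero _ _ _) rfl
  obtain ⟨a, b, c, e, h, h1, h2⟩ := Shear.choice (hc_hom d f) h0
  have dl : DL (d + 1) (lin a b c e f - C (coeff 0 f)) :=
    (lin_DL H.dl).sub ((DL_C _).mono (by omega))
  have top : hc d (lin a b c e f - C (coeff 0 f)) = lin a b c e (hc d f) := by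
    rw [hc_sub, hc_lin, (DL_C _).hc_eq (by omega), sub_zero]
  obtain ⟨n, p, hp⟩ := H.cr
  refine ⟨a, b, c, e, h, ?_, dl, ⟨dl, ?_, n, _, Shear.cr h hp _⟩, trivial, ?_, ?_⟩
  · have e0 : ∀ u : R2 k, coeff 0 u = eval ![0, 0] u := fun u => by
      rw [show (![0, 0] : Fin 2 → k) = 0 by
        funext i
        fin_cases i <;> rfl, eval_zero, constantCoeff_eq]
    rw [e0, map_sub, eval_lin, eval_C, e0]
    simp
  · rw [top]
    exact H.ci.lin h
  · rwa [top, Shear.co_n0 (hc_hom d f)]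
  · rwa [top, Shear.co_0n (hc_hom d f)]

theorem sym (h : a * e - b * c = 1) {n : ℕ} (r : k) (H : SymK d n (lin a b c e f - C r)) :
    SymK d n f := by
  obtain ⟨K, _, j, ζ, s, z, hζ, hz⟩ := H
  refine ⟨K, inferInstance, j, ζ, s + j r - ζ ^ d * j r,
    ![j a * z 0 + j b * z 1, j c * z 0 + j e * z 1], hζ, lin_inj (Cors.det h j) ?_⟩
  rw [← Shear.hom_lin]
  rw [map_sub, map_lin, map_C, map_sub, algHom_C, algebraMap_eq] at hz
  rw [map_add, map_mul, lin_C, lin_C, map_sub, map_add, map_mul]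
  linear_combination hz

theorem exo (h : a * e - b * c = 1) (r : k) (H : ExoK (lin a b c e f - C r)) : ExoK f := by
  obtain ⟨K, _, j, s, t, u, v, hu, hv, hz⟩ := H
  refine ⟨K, inferInstance, j, s, t + j r, _, _, lin_DL (a := j e) (b := -j b) (c := -j c)
    (e := j a) hu, lin_DL (a := j e) (b := -j b) (c := -j c) (e := j a) hv, ?_⟩
  have := congrArg (lin (j e) (-j b) (-j c) (j a)) hz
  rw [map_sub, map_lin, map_C, map_sub, inv_lin (Cors.det h j)] at this
  simp only [map_add, map_mul, map_pow, lin_C] at this ⊢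
  linear_combination this

end Crs

theorem corsS (h1 : PortStmt) (h2 : RigStmt) (h3 : RrcStmt) : CorsStmt := by
  intro k _ _ _ d f w p hd tm hw hr hc
  obtain ⟨a, b, c, e, h, g⟩ := Crs.shear (by omega) tm
  have hC := Cors.det h (PowerSeries.C : k →+* k⟦X⟧)
  have hL := Cors.det hC (coeL k)
  have H := UM.Cors.Ce.pb hL (w := mapF (coeL k) w) hc
  rw [← Cors.map_pb] at H
  rcases h1 k d _ _ _ hd g (hw.pb (PC3.DL_lf _ _) (PC3.DL_lf _ _)) (by
    rw [Cors.map_pb, hr, PC3.pb_d1, PC3.d1_sub, PC3.d1_C, sub_zero, PC3.sub2_lf]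
    simp only [PowerSeries.constantCoeff_C]) H with H1 | ⟨o, e1, e2, e3, H1⟩
  · refine .inl fun Ω _ _ _ ψ => ?_
    have := H1 Ω ψ
    rw [Cors.map_pb, Cors.map_pb] at this
    exact Cors.back (Cors.det hL ψ) this
  rw [← e1, ← e2, ← e3] at H1
  have := h2 k d o hd H1
  rw [e1, e2, e3] at this
  rcases this with ⟨m, n, m1, n1, cp, s, r⟩ | ⟨d3, x⟩
  · refine .inr (.inl ⟨m, n, m1, n1, cp, Crs.sym h _ s, ?_⟩)
    obtain ⟨s, t, hs, ht, -, -, -, -, h2⟩ := PC3.exists_inv (PC3.DL_lf (PowerSeries.C a)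
      (PowerSeries.C b)) (PC3.DL_lf (PowerSeries.C c) (PowerSeries.C e)) (by
        rw [br, lf_x, lf_x, lf_y, lf_y]; exact Cors.det hC C)
    exact h2 w ▸ (h3 _ d m n _).2.1 s t hs ht r
  · exact .inr (.inr ⟨d3, Crs.exo h _ x⟩)

end Pool.Agent.MP_05b4bd_ag.RV
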