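import Pool.Agent.MP_05b4bd_ag.rr.Bas

/-! Row ETA: the rotation of the generic point of the curve. -/

namespace Pool.Agent.MP_05b4bd_ag.RV

open PowerSeries LaurentSeries HC
open ES hiding Gen Ob Inf
open ES.U (TM Cr hom)
open PC3 (Fm fm d1 DF sub2 pb mapF Van CenK iS)

namespace Eta

theorem exists_hom {A L : Type} [CommRing A] [Field L] (e e' : A →+* L)
    (h : ∀ u, e u = 0 ↔ e' u = 0) (hs : ∀ z, ∃ u v, z = e u / e v) :
    ∃ η : L →+* L, ∀ u, η (e u) = e' u := by
  let : Algebra (A ⧸ RingHom.ker e) L := (RingHom.kerLift e).toAlgebra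
  have : FaithfulSMul (A ⧸ RingHom.ker e) L :=
    (faithfulSMul_iff_algebraMap_injective _ _).2 (RingHom.kerLift_injective e)
  have : IsFractionRing (A ⧸ RingHom.ker e) L := IsFractionRing.of_field _ _ fun z => by
    obtain ⟨u, v, k⟩ := hs z
    exact ⟨Ideal.Quotient.mk _ u, Ideal.Quotient.mk _ v, k⟩
  have hg : Function.Injective (Ideal.Quotient.lift (RingHom.ker e) e' fun a ha => (h a).1 ha) := by
    rw [injective_iff_map_eq_zero]
    intro a ha
    obtain ⟨a, rfl⟩ := Ideal.Quotient.mk_surjective a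
    exact Ideal.Quotient.eq_zero_iff_mem.2 ((h a).2 ha)
  exact ⟨IsFractionRing.lift hg, fun u =>
    IsFractionRing.lift_algebraMap hg (Ideal.Quotient.mk _ u)⟩

variable {k L : Type} [Field k] [Field L] {κ : k →+* L} {D : L →+ L} {F : R2 k} {x y : L} {d : ℕ}

theorem ker [CharZero k] (h : Curve κ D F x y) (hF : F.IsHomogeneous d) (hd : d ≠ 0)
    (hci : CI (MvPolynomial.pderiv 0 F) (MvPolynomial.pderiv 1 F)) (u : R2 k) :
    evp κ x y u = 0 ↔ F - 1 ∣ u := by
  let : Algebra k L := κ.toAlgebra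
  let D' : Derivation k L L := Derivation.mk'
    { toFun := D
      map_add' := D.map_add
      map_smul' := fun c a => h.1.const_mul (h.2.1 c) a }
    fun a b => by
      change D (a * b) = a * D b + b * D a
      rw [h.1 a b]; ring
  exact Esc.Cv.ker (D := D') (w := ![x, y]) ⟨h.2.2.1, h.2.2.2.1, h.2.2.2.2⟩ hF hd hci

theorem evp_smul {e : ℕ} {u : R2 k} (hu : u.IsHomogeneous e) (l : L) :
    evp κ (l * x) (l * y) u = l ^ e * evp κ x y u := k4_hom κ hu l x y

theorem rot {e : ℕ} (h : Curve κ D F x y) (hF : F.IsHomogeneous (e + 2)) {ξ : k}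
    (hξ : κ ξ ^ (e + 2) = 1) :
    Curve κ ((AddMonoidHom.mulLeft (κ ξ ^ e)).comp D) F (κ ξ * x) (κ ξ * y) := by
  refine ⟨h.1.mulLeft _, fun c => ?_, ?_, ?_, ?_⟩
  · change κ ξ ^ e * D (κ c) = 0
    rw [h.2.1, mul_zero]
  · rw [evp_smul hF, hξ, h.2.2.1, one_mul]
  · change κ ξ ^ e * D (κ ξ * x) = _
    rw [evp_smul (e := e + 1) hF.pderiv, h.1.const_mul (h.2.1 ξ), h.2.2.2.1]
    ring
  · change κ ξ ^ e * D (κ ξ * y) = _
    rw [evp_smul (e := e + 1) hF.pderiv, h.1.const_mul (h.2.1 ξ), h.2.2.2.2]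
    ring

theorem exists_eta [CharZero k] {e : ℕ} (h : Curve κ D F x y) (hF : F.IsHomogeneous (e + 2))
    (hci : CI (MvPolynomial.pderiv 0 F) (MvPolynomial.pderiv 1 F)) (hg : gf κ x y = ⊤) {ξ : k}
    (hξ : κ ξ ^ (e + 2) = 1) : ∃ η : L →+* L, (∀ c, η (κ c) = κ c) ∧ η x = κ ξ * x ∧
      η y = κ ξ * y ∧ ∀ c, D (η c) = κ ξ ^ 2 * η (D c) := by
  have mem : ∀ z, z ∈ Subfield.closure (Set.range κ ∪ {x, y}) := fun z =>
    (show z ∈ gf κ x y from hg ▸ Subfield.mem_top z)
  have eC : ∀ (a b : L) c, evp κ a b (MvPolynomial.C c) = κ c := fun a b c => by simp [evp]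
  have e0 : ∀ a b : L, evp κ a b (MvPolynomial.X 0) = a := fun a b => by simp [evp]
  have e1 : ∀ a b : L, evp κ a b (MvPolynomial.X 1) = b := fun a b => by simp [evp]
  obtain ⟨η, hη⟩ := exists_hom (evp κ x y) (evp κ (κ ξ * x) (κ ξ * y))
    (fun u => by rw [ker h hF (by omega) hci, ker (rot h hF hξ) hF (by omega) hci]) fun z => by
      obtain ⟨a, ha, b, hb, rfl⟩ := Subfield.mem_closure_iff.1 (mem z)
      have le : Subring.closure (Set.range κ ∪ {x, y}) ≤ (evp κ x y).range :=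
        Subring.closure_le.2 (by
          rintro _ (⟨c, rfl⟩ | rfl | rfl)
          exacts [⟨_, eC _ _ c⟩, ⟨_, e0 _ _⟩, ⟨_, e1 _ _⟩])
      obtain ⟨u, rfl⟩ := le ha
      obtain ⟨v, rfl⟩ := le hb
      exact ⟨u, v, rfl⟩
  have h0 : ∀ c, η (κ c) = κ c := fun c => by
    have := hη (MvPolynomial.C c); rwa [eC, eC] at this
  have hx : η x = κ ξ * x := by have := hη (MvPolynomial.X 0); rwa [e0, e0] at this
  have hy : η y = κ ξ * y := by have := hη (MvPolynomial.X 1); rwa [e1, e1] at this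
  refine ⟨η, h0, hx, hy, fun c => ?_⟩
  induction mem c using Subfield.closure_induction with
  | mem z hz =>
    rcases hz with ⟨c, rfl⟩ | rfl | rfl
    · rw [h0, h.2.1, map_zero, mul_zero]
    · rw [hx, h.1.const_mul (h.2.1 ξ), h.2.2.2.1, hη, evp_smul (e := e + 1) hF.pderiv]
      linear_combination (-(κ ξ) * evp κ z y (MvPolynomial.pderiv 1 F)) * hξ
    · rw [hy, h.1.const_mul (h.2.1 ξ), h.2.2.2.2, map_neg, hη, evp_smul (e := e + 1) hF.pderiv]
      linear_combination (κ ξ * evp κ x z (MvPolynomial.pderiv 0 F)) * hξ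
  | one => rw [map_one, h.1.one, map_zero, mul_zero]
  | add a b _ _ ha hb => simp only [map_add, ha, hb, mul_add]
  | neg a _ ha => simp only [map_neg, ha, mul_neg]
  | inv a _ ha =>
    by_cases c : a = 0
    · simp [c]
    · have c' := mul_inv_cancel₀ c
      rw [h.1.inv c', h.1.inv (u := η a) (by rw [← map_mul, c', map_one]), ha]
      simp only [map_neg, map_mul, map_pow]
      ring
  | mul a b _ _ ha hb =>
    rw [map_mul, h.1, h.1, ha, hb]
    simp only [map_add, map_mul]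
    ring

theorem resC {A : Type} [CommRing A] (a r : A) : rescale a (C r) = C r := by
  ext n
  rw [coeff_rescale, coeff_C]
  split_ifs with h <;> simp [h]

theorem fixp [CharZero k] {e : ℕ} {f : R2 k} {p : L⟦X⟧} {η : L →+* L} {s : L}
    (h0 : ∀ c, η (κ c) = κ c) (hx : η x = s * x) (hy : η y = s * y) (hs : s ^ (e + 1) = 1)
    (p0 : cc p = 1) (pu : hev ((C : L →+* L⟦X⟧).comp κ) (e + 1) f (p * C x) (p * C y) X = 1) :
    rescale s (map η p) = p := by
  have : CharZero L := (RingHom.charZero_iff κ.injective).1 inferInstance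
  have h1 := congrArg ((rescale s).comp (map η)) pu
  rw [map_hev, map_one] at h1
  have e1 : ((rescale s).comp (map η)).comp ((C : L →+* L⟦X⟧).comp κ) = C.comp κ :=
    RingHom.ext fun c => by simp [resC, h0]
  have e2 : ∀ z, η z = s * z → ((rescale s).comp (map η)) (p * C z) =
      C s * (rescale s (map η p) * C z) := fun z hz => by
    simp only [RingHom.comp_apply, map_mul, map_C, resC, hz]
    ring
  have e3 : ((rescale s).comp (map η)) X = C s * X := by simp [rescale_X]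
  rw [e1, e2 x hx, e2 y hy, e3, hev_smul, ← map_pow, hs, map_one, one_mul] at h1
  obtain ⟨q, hq⟩ := exists_poly_r ((C : L →+* L⟦X⟧).comp κ) e f (C x) (C y) X
  have hq' := hq _ (RingHom.id _)
  simp only [Polynomial.map_id, RingHom.id_apply, RingHom.id_comp] at hq'
  refine (hensel_unique (K3.JX L) q ?_ (K3.mem_JX' ?_) ?_).symm
  · rw [(hq' p).2, isUnit_iff_constantCoeff, isUnit_iff_ne_zero]
    have h2 := congrArg cc pu
    have h3 := k4_euler ((cc : L⟦X⟧ →+* L).comp (C.comp κ)) e f x y 0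
    simp only [map_hev, map_mul, map_add, p0, one_mul, constantCoeff_C, constantCoeff_X,
      map_one] at h2 ⊢
    rw [h2, zero_mul, zero_add] at h3
    rw [h3, mul_one]
    exact Nat.cast_add_one_ne_zero e
  · rw [map_sub, p0, ← coeff_zero_eq_constantCoeff_apply, coeff_rescale, coeff_map,
      coeff_zero_eq_constantCoeff_apply, p0]
    simp
  · rw [(hq' _).1, (hq' _).1, pu, h1]

end Eta

theorem etaS : EtaStmt := by
  intro k L _ _ _ _ d n R ξ hξ
  obtain ⟨e, rfl⟩ : ∃ e, d = e + 2 := ⟨d - 2, by have := R.d3; omega⟩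
  have hs : R.κ ξ ^ (e + 2) = 1 := by rw [← map_pow, hξ, map_one]
  obtain ⟨η, h0, hx, hy, hD⟩ := Eta.exists_eta R.cv (hc_hom _ _) R.gen.tm.ci R.gb hs
  refine ⟨η, h0, hD, fun w => ?_⟩
  have hp := Eta.fixp (e := e + 1) h0 hx hy hs R.p0 R.pu
  let T : AA L →+* AA L := (rescale (C (R.κ ξ))).comp (mA η)
  have t0 : ∀ u : L⟦X⟧, T (map C u) = map C (rescale (R.κ ξ) (map η u)) := fun u => by
    ext1 m
    simp only [T, mA, RingHom.comp_apply, coeff_rescale, coeff_map, map_C, map_mul, map_pow]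
  have t1 : ∀ z, η z = R.κ ξ * z → T (map C (R.p * C z)) = CC (R.κ ξ) * map C (R.p * C z) :=
    fun z hz => by
      rw [t0, map_mul (map η), map_mul (rescale _), hp, map_C, Eta.resC, hz]
      simp only [CC, RingHom.comp_apply, map_mul, map_C]
      ring
  have t2 : T X = CC (R.κ ξ) * X := by simp [T, mA, CC, rescale_X]
  have t3 : T.comp ((C : L⟦X⟧ →+* AA L).comp (map R.κ)) = C.comp (map R.κ) :=
    RingHom.ext fun c => by
      have : map η (map R.κ c) = map R.κ c := by ext m; simp [h0]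
      simp only [T, mA, RingHom.comp_apply, map_C, Eta.resC, this]
  have t4 : ∀ u, T (hev (C.comp (map R.κ)) (e + 2) u R.x R.y X) =
      hev (C.comp (map R.κ)) (e + 2) u R.x R.y X := fun u => by
    rw [map_hev, t3, t2, Rd.x, Rd.y, t1 _ hx, t1 _ hy, hev_smul, ← map_pow, hs, map_one, one_mul]
  have s0 : IsUnit (CC (R.κ ξ) : AA L) :=
    (IsUnit.of_pow_eq_one hs (by omega)).map CC
  have t5 : ∀ c, T c = CC (R.κ ξ) * c → T (dX _ c) = dX _ c := fun c hc => by
    refine s0.mul_left_cancel ?_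
    have h1 : dX _ (T c) = CC (R.κ ξ) * T (dX _ c) := by
      simp only [T, mA, CC, RingHom.comp_apply, dX_rescale, dX_map]
    rw [← h1, hc]
    ext1 m
    simp only [dX, CC, RingHom.comp_apply, LinearMap.toAddMonoidHom_coe, Derivation.coeFn_coe,
      coeff_derivative, coeff_C_mul, mul_assoc]
  have t6 : ∀ c, T c = CC (R.κ ξ) * c →
      CC (R.κ ξ) * T (cw (cw R.D) c) = cw (cw R.D) c := fun c hc => by
    refine s0.mul_left_cancel ?_
    have dc : ∀ u : L⟦X⟧, ∀ r, cw R.D (C (R.κ r) * u) = C (R.κ r) * cw R.D u := fun u r =>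
      R.cv.1.coefw.const_mul (by rw [cw_C, R.cv.2.1, map_zero]) u
    ext1 m
    have h1 := congrArg (fun u => cw R.D (coeff m u)) hc
    simp only [T, mA, CC, RingHom.comp_apply, coeff_rescale, coeff_map, coeff_C_mul, ← map_pow,
      dc, cw_map hD] at h1
    have h2 : coeff m (cw (cw R.D) c) = cw R.D (coeff m c) := by simp [cw]
    simp only [T, mA, CC, RingHom.comp_apply, coeff_rescale, coeff_map, coeff_C_mul, h2, ← h1,
      map_pow]
    ring
  have tx : T R.x = CC (R.κ ξ) * R.x := t1 _ hx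
  have ty : T R.y = CC (R.κ ξ) * R.y := t1 _ hy
  constructor
  · change T (aF _ _ _ _ _ _) = _ * aF _ _ _ _ _ _
    simp only [aF, map_sub, map_mul, t4, t2, t5 _ tx, t5 _ ty, tx, ty]
    ring
  · change _ * T (bF _ _ _ _ _ _ _) = bF _ _ _ _ _ _ _
    simp only [bF, map_sub, map_mul, t4]
    linear_combination hev (C.comp (map R.κ)) (e + 2) w.1 R.x R.y X * t6 _ ty -
      hev (C.comp (map R.κ)) (e + 2) w.2 R.x R.y X * t6 _ tx

end Pool.Agent.MP_05b4bd_ag.RV
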