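import Pool.Agent.MP_05b4bd_ag.rr.Bas

/-! The fold and the invariant curve in the radial coordinate. -/

namespace Pool.Agent.MP_05b4bd_ag.RV

open PowerSeries LaurentSeries HC
open ES hiding Gen Ob Inf
open ES.U (TM Cr hom)
open PC3 (Fm fm d1 DF sub2 pb mapF Van CenK iS)

namespace F2a

section Ew
variable {L : Type} [Field L] {w : L⟦X⟧}

/-- Evaluation of the outer variable at `w`. -/
noncomputable abbrev ew (w : L⟦X⟧) : AA L →+* L⟦X⟧ := ES.ev (RingHom.id _) w

theorem ew_C (h : cc w = 0) (c : L⟦X⟧) : ew w (C c) = c :=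
  ES.ev_C (up ⊥) (mem_up_bot.2 h) c

theorem ew_X (h : cc w = 0) : ew w X = w := ES.ev_X (up ⊥) (mem_up_bot.2 h)

theorem cc_ew (h : cc w = 0) (f : AA L) : cc (ew w f) = c00 f := by
  obtain ⟨g, e⟩ := ev_sub_cc (up (⊥ : Ideal L)) (φ := RingHom.id _) (mem_up_bot.2 h) f
  have := congrArg cc e
  rwa [map_sub, map_mul, h, zero_mul, sub_eq_zero] at this

theorem ew_der (h : cc w = 0) {D : L →+ L} (hD : IsDer D) (f : AA L) :
    cw D (ew w f) = ew w (cw (cw D) f) + ew w (dX _ f) * cw D w := by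
  have := hom_chain (up (⊥ : Ideal L)) (g := ew w) (by rw [ew_X h]; exact h) hD.coefw hD.coefw
    (a := 1) (fun r => by rw [ew_C h, ew_C h, one_mul]) f
  rwa [one_mul, ew_X h] at this

theorem ew_dvd (h : cc w = 0) {f : AA L} : X - C w ∣ f ↔ ew w f = 0 :=
  factor (up ⊥) (mem_up_bot.2 h)

theorem c00_mapC (c : L⟦X⟧) : c00 (map C c : AA L) = cc c := by rw [← cc_red, red_mapC]

theorem cc_mapC {c : L⟦X⟧} (h : cc c = 0) : cc (map C c : AA L) = 0 := by
  rw [← coeff_zero_eq_constantCoeff_apply, coeff_map, coeff_zero_eq_constantCoeff_apply, h,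
    map_zero]

theorem ew_inv (h : cc w = 0) {z e : L⟦X⟧} (hz : cc z = 0) (he : sb z e = X) :
    ew (ew w (map C z)) (map C e) = w := by
  have h1 : cc (ew w (map C z)) = 0 := by rw [cc_ew h, c00_mapC, hz]
  have h2 := cc_mapC hz
  have k : (ew w).comp (sb (map C z)) = ew (ew w (map C z)) :=
    homExt (up (⊥ : Ideal L)) (fun r => by rw [RingHom.comp_apply, sb_C h2, ew_C h, ew_C h1])
      (by rw [RingHom.comp_apply, sb_X h2, ew_X h1])
      (by rw [RingHom.comp_apply, sb_X h2]; exact h1)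
  rw [← k, RingHom.comp_apply, ← map_sb hz, he, map_X, ew_X h]

/-- The invariant curve of the first integral. -/
theorem inv_curve {D : L →+ L} [CharZero L] (hD : IsDer D) {a b ρ B u : AA L} {n α β : ℕ}
    (H : Rho D a b ρ B n) (F : Fac ρ u w α β) : ew w a * cw D w + w * ew w b = 0 := by
  obtain ⟨m, rfl⟩ : ∃ m, β = m + 1 := ⟨β - 1, by have := F.b1; omega⟩
  obtain ⟨B1, hB⟩ := X_dvd_iff.2 H.cB
  have h := F.w0
  have e := H.eq
  have hY : (X - C w : AA L) ≠ 0 := fun z => by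
    have := congrArg (coeff 1) z
    simp at this
  have k : ∀ δ : AA L →+ AA L, IsDer δ → δ ρ = (X - C w) ^ m * (δ (u * X ^ α) * (X - C w) +
      ((m + 1 : ℕ) : AA L) * (u * X ^ α) * δ (X - C w)) := fun δ hδ => by
    rw [F.eq, hδ, hδ.pow, Nat.add_sub_cancel]; ring
  rw [hB, map_mul, sb_X H.c0, k _ hD.coefw.coefw, k _ isDer_dX, map_sub, map_sub, dX_X, dX_C,
    cw_X hD.coefw.one, cw_C] at e
  generalize sb ρ B1 = B2 at e
  have e2 : (X - C w) * (a * cw (cw D) (u * X ^ α) - X * b * dX _ (u * X ^ α) -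
      a * (u * X ^ α) * B2) =
      ((m + 1 : ℕ) : AA L) * (u * X ^ α) * (a * C (cw D w) + X * b) := by
    refine mul_left_cancel₀ (pow_ne_zero m hY) ?_
    rw [F.eq] at e
    linear_combination e
  have e3 := congrArg (ew w) e2
  simp only [map_mul, map_sub, map_add, ew_X h, ew_C h, sub_self, zero_mul, map_natCast,
    map_pow] at e3
  have u1 : ((m + 1 : ℕ) : L⟦X⟧) ≠ 0 := fun z => by
    have := congrArg cc z
    rw [map_natCast, map_zero] at this
    exact Nat.cast_ne_zero.2 (Nat.succ_ne_zero m) this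
  exact (mul_eq_zero.1 e3.symm).resolve_left (mul_ne_zero u1
    (mul_ne_zero (F.unit.map _).ne_zero (pow_ne_zero _ F.wn)))

end Ew

section Rad
variable {k L : Type} [Field k] [CharZero k] [Field L] {d n : ℕ} (R : Rd k d n L) {w : L⟦X⟧}

theorem zp (h : cc w = 0) : ew w (map C R.p) * ew w (map C R.z) = w := by
  rw [← map_mul, ← map_mul, mul_comm, R.pz, map_X, ew_X h]

theorem cc_p (h : cc w = 0) : cc (ew w (map C R.p)) = 1 := by rw [cc_ew h, c00_mapC, R.p0]

theorem hv (h : cc w = 0) (u : R2 k⟦X⟧) :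
    ew w (hev ((C : L⟦X⟧ →+* AA L).comp (map R.κ)) d u R.x R.y X) =
      ew w (map C R.p) ^ d * hev (map R.κ) d u (C R.xb) (C R.yb) (ew w (map C R.z)) := by
  have e : (ew w).comp ((C : L⟦X⟧ →+* AA L).comp (map R.κ)) = map R.κ :=
    RingHom.ext fun c => ew_C h _
  rw [map_hev, e, ← hev_smul, zp R h, ew_X h, Rd.x, Rd.y, map_mul, map_mul, map_mul, map_mul,
    map_C, map_C, ew_C h, ew_C h]

theorem ea (h : cc w = 0) (om : Fm k⟦X⟧) : ew w (R.a om) = ew w (map C R.p) ^ d *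
    (w * ew w (dX _ (map C R.p)) - ew w (map C R.p)) *
      aR R.κ d om R.xb R.yb (ew w (map C R.z)) := by
  have e : ∀ c : L, dX _ (map C (R.p * C c) : AA L) = dX _ (map C R.p) * C (C c) := fun c => by
    rw [map_mul, map_C, isDer_dX, dX_C, mul_zero, add_zero]
  rw [Rd.a, fa, aF, map_sub, map_mul, map_mul, hv R h, hv R h, aR, Rd.x, Rd.y, e, e]
  simp only [map_mul, map_sub, map_C, ew_C h, ew_X h]
  ring

theorem eb (h : cc w = 0) (om : Fm k⟦X⟧) : ew w (R.b om) = ew w (map C R.p) ^ d *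
    (ew w (cw (cw R.D) (map C R.p)) * aR R.κ d om R.xb R.yb (ew w (map C R.z)) +
      ew w (map C R.p) * bR R.κ R.D d om R.xb R.yb (ew w (map C R.z))) := by
  have e : ∀ c : L, cw (cw R.D) (map C (R.p * C c) : AA L) =
      cw (cw R.D) (map C R.p) * C (C c) + map C R.p * C (C (R.D c)) := fun c => by
    rw [map_mul, map_C, R.cv.1.coefw.coefw, cw_C, cw_C]
  rw [Rd.b, fb, bF, map_sub, map_mul, map_mul, hv R h, hv R h, aR, bR, Rd.x, Rd.y, e, e]
  simp only [map_mul, map_add, ew_C h]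
  ring

theorem last (h : cc w = 0) (om : Fm k⟦X⟧) (e : ew w (R.a om) * cw R.D w + w * ew w (R.b om) = 0) :
    aR R.κ d om R.xb R.yb (ew w (map C R.z)) * cw R.D (ew w (map C R.z)) =
      ew w (map C R.z) * bR R.κ R.D d om R.xb R.yb (ew w (map C R.z)) := by
  have hp : ew w (map C R.p) ≠ 0 := fun z => by simpa [z] using cc_p R h
  have e1 := ew_der h R.cv.1 (map C R.p)
  have e2 := zp R h
  have e3 := congrArg (cw R.D) e2
  rw [R.cv.1.coefw, e1] at e3
  rw [ea R h, eb R h] at e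
  refine mul_left_cancel₀ (pow_ne_zero (d + 2) hp) ?_
  generalize ew w (map C R.p) = p at *
  generalize ew w (map C R.z) = z at *
  generalize aR R.κ d om R.xb R.yb z = A at *
  generalize bR R.κ R.D d om R.xb R.yb z = B at *
  generalize ew w (cw (cw R.D) (map C R.p)) = q at *
  generalize ew w (dX _ (map C R.p)) = r at *
  generalize cw R.D z = y at *
  generalize cw R.D w = v at *
  subst e2
  linear_combination p ^ (d + 1) * A * e3 - e

end Rad

end F2a

open F2a in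
theorem f2aS (h : F2sStmt) : F2aStmt := by
  intro k L _ _ _ d n R om α β j ρ B u Ψ γ w1 vb Φ φ l0 l1 H hj c0 c1 cΨ eρ
  have : CharZero L := charZero_of_injective_ringHom R.κ.injective
  have hd : IsUnit (-(d : L⟦X⟧)) := by
    rw [isUnit_iff_constantCoeff, map_neg, map_natCast, isUnit_iff_ne_zero, neg_ne_zero]
    exact Nat.cast_ne_zero.2 (by have := R.d3; omega)
  obtain ⟨w0, u0, h0, hu0, ha⟩ := exists_w0 hd (by rw [H.ra, neg_mul])
  have h1 := H.fac.w0
  have a0 : ew w0 (R.a om) = 0 := (ew_dvd h0).1 ⟨u0, ha⟩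
  have b0 : w0 * ew w0 (R.b om) ≠ 0 := fun z => H.nd (by
    rw [ha, hu0.mul_right_dvd, ew_dvd h0, map_mul, ew_X h0, z])
  have r0 : X - C w0 ∣ dX _ ρ := by
    have := congrArg (ew w0) H.rho.eq
    simp only [map_mul, map_sub, a0, zero_mul, zero_sub, neg_eq_zero, ew_X h0] at this
    exact (ew_dvd h0).2 ((mul_eq_zero.1 this).resolve_left b0)
  have ic := inv_curve R.cv.1 H.rho H.fac
  have cz : cc R.z = 0 := by simpa [R.p0] using congrArg cc R.pz
  have z1 : IsUnit (coeff 1 R.z) := by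
    have := congrArg (coeff 1) R.pz
    rw [coeff_one_mul, cz, R.p0, coeff_one_X, mul_one, mul_zero, add_zero] at this
    exact this ▸ isUnit_one
  obtain ⟨e, ce, -, e1, e2⟩ := exists_inv cz z1
  have cE := cc_mapC ce
  have czw : ∀ w, cc w = 0 → cc (ew w (map C R.z)) = 0 := fun w hw => by
    rw [cc_ew hw, c00_mapC, cz]
  have nz : ∀ w, cc w = 0 → w ≠ 0 → ew w (map C R.z) ≠ 0 := fun w hw hn z =>
    hn (by rw [← zp R hw, z, mul_zero])
  have dv : ∀ w, cc w = 0 → X - C (ew w (map C R.z)) ∣ sb (map C e) (X - C w) := fun w hw => by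
    rw [ew_dvd (czw w hw), map_sub, sb_X cE, sb_C cE, map_sub, ew_inv hw cz e2, ew_C (czw w hw),
      sub_self]
  have cl : cc (R.l l0 l1) = 0 := by
    have : ∀ l : k⟦X⟧, cc l = 0 → cc (map R.κ l) = 0 := fun l hl => by
      rw [← coeff_zero_eq_constantCoeff_apply, coeff_map, coeff_zero_eq_constantCoeff_apply, hl,
        map_zero]
    rw [Rd.l, map_add, map_mul, map_mul, this _ c0, this _ c1, zero_mul, zero_mul, add_zero]
  obtain ⟨E1, hE1⟩ := X_dvd_iff.2 cE
  obtain ⟨E2, hE2⟩ := dv w1 h1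
  obtain ⟨Ψ1, hΨ⟩ := X_dvd_iff.2 cΨ
  have eT : sb (map C e) (sb ρ Ψ) = sb (map C e) (u * sb ρ Ψ1) * E1 ^ α * E2 ^ β * X ^ α *
      (X - C (ew w1 (map C R.z))) ^ β := by
    rw [hΨ, map_mul, sb_X H.rho.c0]
    generalize sb ρ Ψ1 = Ψ2
    rw [H.fac.eq]
    simp only [map_mul, map_pow]
    rw [hE2, sb_X cE]
    generalize sb (map C e) Ψ2 = Ψ3
    generalize sb (map C e) u = u'
    rw [hE1, mul_pow, mul_pow]
    ring
  generalize sb (map C e) (u * sb ρ Ψ1) * E1 ^ α * E2 ^ β = U at eT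
  have eM := congrArg (sb (map C e)) eρ
  rw [map_add, eT, Rd.ρ] at eM
  simp only [map_mul, map_pow, map_add, sb_C cE] at eM
  rw [← map_sb ce, e1, map_X] at eM
  have hU : IsUnit U := by
    have := congrArg red eM
    simp only [map_mul, map_pow, map_add, map_sub, red_X, red_C, cl, czw w1 h1, map_zero,
      constantCoeff_X, zero_pow (Nat.one_le_iff_ne_zero.1 hj), zero_mul, add_zero, sub_zero] at this
    have r1 : red U = 1 := mul_right_cancel₀
      (mul_ne_zero (pow_ne_zero α X_ne_zero) (pow_ne_zero β X_ne_zero)) (by linear_combination -this)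
    rw [isUnit_iff_constantCoeff, isUnit_iff_constantCoeff, ← c00_apply, ← cc_red, r1, map_one]
    exact isUnit_one
  have n0 : w0 ≠ 0 := left_ne_zero_of_mul b0
  have n01 : ew w0 (map C R.z) ≠ ew w1 (map C R.z) := fun z => by
    have : w0 = w1 := by rw [← ew_inv h0 cz e2, z, ew_inv h1 cz e2]
    subst this
    rw [a0, zero_mul, zero_add] at ic
    exact b0 ic
  obtain ⟨k1, k2⟩ := h L U (R.l l0 l1) _ _ α β j H.fac.a1 H.fac.b1 hU cl (czw w0 h0) (czw w1 h1)
    (nz w0 h0 n0) n01 ⟨sb (map C e) γ, by rw [eM]; ring⟩ (by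
      rw [← eT, dX_sb cE, dX_sb H.rho.c0, map_mul]
      exact (((dv w0 h0).trans (map_dvd _ r0)).mul_left _).mul_right _)
  refine ⟨_, _, czw w0 h0, czw w1 h1, nz w1 h1 H.fac.wn, k1, H.sum ▸ k2, ?_, last R h1 om ic⟩
  rw [ea R h0] at a0
  refine (mul_eq_zero.1 a0).resolve_left fun z => ?_
  have := congrArg cc z
  simp [h0, cc_p R h0] at this

end Pool.Agent.MP_05b4bd_ag.RV
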