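import Pool.Agent.MP_05b4bd_ag.rr.Spec4

/-! The reversible family lies in the centre variety. -/

namespace Pool.Agent.MP_05b4bd_ag.RV

open MvPolynomial HC Topology
open PC3 (Fm fm d1 DF sub2 pb mapF Van)

namespace Memr

theorem rel {A Q : Poly} (hA : A.totalDegree ≤ 1) (h0 : A ≠ 0) (z : Fin 2 → ℂ)
    (h1 : eval z A = 0) (h2 : eval z Q ≠ 0) : IsRelPrime A Q := by
  rintro g ⟨h, rfl⟩ ⟨k, rfl⟩
  have g0 : g ≠ 0 := left_ne_zero_of_mul h0
  have k0 : h ≠ 0 := right_ne_zero_of_mul h0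
  rw [totalDegree_mul_of_isDomain g0 k0] at hA
  by_cases hg : g.totalDegree = 0
  · have e := totalDegree_eq_zero_iff_eq_C.1 hg
    rw [e] at g0 ⊢
    exact (Ne.isUnit fun z => g0 (by rw [z, map_zero])).map C
  · have e := totalDegree_eq_zero_iff_eq_C.1 (show h.totalDegree = 0 by omega)
    rw [e] at h1 k0
    rw [map_mul, eval_C, mul_eq_zero] at h1
    rcases h1 with h1 | h1
    · exact absurd (by rw [map_mul, h1, zero_mul]) h2
    · exact absurd (by rw [h1, map_zero]) k0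

theorem pc_sub2 {u v p : ℂ → Poly} (hu : PC u) (hv : PC v) (hp : PC p) :
    PC fun τ => sub2 (u τ) (v τ) (p τ) := by
  obtain ⟨U, hU⟩ := hu
  obtain ⟨W, hW⟩ := hv
  obtain ⟨P, hP⟩ := hp
  exact ⟨sub2 U W P, fun τ => by rw [PC3.map_sub2, ← hU, ← hW, ← hP]⟩

theorem pf_fm {g h : ℂ → Poly} (hg : PC g) (hh : PC h) : PF fun τ => fm (g τ) (h τ) :=
  ⟨hg.mul (hh.pderiv 1), (hg.mul (hh.pderiv 0)).neg⟩

theorem pf_rr (d a b : ℕ) {u v l : ℂ → Poly} {p q : ℕ → ℂ → Poly} (hu : PC u) (hv : PC v)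
    (hl : PC l) (hp : ∀ j, PC (p j)) (hq : ∀ j, PC (q j)) :
    PF fun τ => rrF d a b (u τ) (v τ) (l τ) (fun j => p j τ) fun j => q j τ :=
  PF.sum _ fun j _ => PF.psmul (hl.pow _) ((PF.psmul ((PC.const _).mul hl)
    ((pf_fm (pc_sub2 hu hv (hp j)) hu).add (pf_fm (pc_sub2 hu hv (hq j)) hv))).sub
    (pf_fm ((PC.const _).mul ((hu.mul (pc_sub2 hu hv (hp j))).add
      (hv.mul (pc_sub2 hu hv (hq j))))) hl))

noncomputable def p0 (e j : ℕ) : Poly := if j = 0 then X 0 ^ (e + 2) + X 1 ^ (e + 2) else 0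
noncomputable def q0 (e j : ℕ) : Poly := if j = 0 then X 0 ^ (e + 1) * X 1 else 0

theorem hom0 (e n j : ℕ) : (p0 e j).IsHomogeneous (e + 3 - 1 - j * n) ∧
    (q0 e j).IsHomogeneous (e + 3 - 1 - j * n) := by
  unfold p0 q0
  split_ifs with h
  · subst h
    have e1 : e + 3 - 1 - 0 * n = e + 2 := by omega
    rw [e1]
    exact ⟨(isHomogeneous_X_pow _ _).add (isHomogeneous_X_pow _ _),
      (isHomogeneous_X_pow _ _).mul (isHomogeneous_X _ _)⟩
  · exact ⟨isHomogeneous_zero _ _ _, isHomogeneous_zero _ _ _⟩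

noncomputable def bP (e a b : ℕ) : Poly := C ((a : ℂ) + b) * (1 + X 0) * X 0 ^ (e + 1) * X 1
noncomputable def bQ (e a b : ℕ) : Poly :=
  C (b : ℂ) * X 0 ^ (e + 1) * X 1 ^ 2 -
    (C ((a : ℂ) + b) + C (a : ℂ) * X 0) * (X 0 ^ (e + 2) + X 1 ^ (e + 2))

theorem base (e a b : ℕ) :
    rrF (e + 3) a b (X 0) (X 1) (1 + X 0) (p0 e) (q0 e) = (bP e a b, bQ e a b) := by
  rw [rrF, Finset.sum_eq_single 0]
  · simp only [PC3.sub2_id, p0, q0, if_true, fm, bP, bQ, map_add, map_natCast]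
    refine Prod.ext ?_ ?_ <;> simp <;> ring
  · intro j _ hj
    simp [p0, q0, hj, fm]
  · simp

theorem base_sum (e a b : ℕ) : ∑ j ∈ Finset.range ((e + 3 - 1) / (a + b) + 1),
    (1 + X 0 : Poly) ^ (b * j) * sub2 (X 0) (X 1) (p0 e j) = X 0 ^ (e + 2) + X 1 ^ (e + 2) := by
  rw [Finset.sum_eq_single 0]
  · simp [PC3.sub2_id, p0]
  · intro j _ hj
    simp [p0, hj]
  · simp

theorem base_fol {e a b : ℕ} (ha : 1 ≤ a) (hb : 1 ≤ b)
    (hV : ((bP e a b, bQ e a b) : Form) ∈ V (e + 3)) :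
    ((bP e a b, bQ e a b) : Form) ∈ Fol (e + 3) := by
  have a0 : (a : ℂ) ≠ 0 := Nat.cast_ne_zero.2 (by omega)
  have b0 : (b : ℂ) ≠ 0 := Nat.cast_ne_zero.2 (by omega)
  have n0 : (a : ℂ) + b ≠ 0 := by exact_mod_cast (by omega : a + b ≠ 0)
  have m0 : (a : ℂ) + b + a ≠ 0 := by exact_mod_cast (by omega : a + b + a ≠ 0)
  have c0 : (C ((a : ℂ) + b) : Poly) ≠ 0 := by rwa [Ne, C_eq_zero]
  have l1 : (1 + X 0 : Poly).totalDegree ≠ 0 := fun h => by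
    simpa using pderiv_eq_zero_of_dg h.le 0
  have l0 : (1 + X 0 : Poly) ≠ 0 := fun h => l1 (by rw [h, totalDegree_zero])
  have x0 : (X 0 ^ (e + 1) : Poly) ≠ 0 := pow_ne_zero _ (X_ne_zero 0)
  constructor
  · refine (((n0.isUnit.map C).isRelPrime_left.mul_left ?_).mul_left
      (IsRelPrime.pow_left ?_)).mul_left ?_
    · refine rel (dg_add (by simp) (dg_X 0)) l0 ![-1, 0] (by simp) ?_
      simp [bQ, b0]
    · refine rel (dg_X 0) (X_ne_zero 0) ![0, 1] (by simp) ?_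
      simpa [bQ, -neg_add_rev] using n0
    · refine rel (dg_X 1) (X_ne_zero 1) ![1, 0] (by simp) ?_
      simpa [bQ, -neg_add_rev] using m0
  · refine le_antisymm (max_le hV.1 hV.2) (le_max_of_le_left ?_)
    change _ ≤ (bP e a b).totalDegree
    rw [bP, totalDegree_mul_of_isDomain (mul_ne_zero (mul_ne_zero c0 l0) x0) (X_ne_zero 1),
      totalDegree_mul_of_isDomain (mul_ne_zero c0 l0) x0, totalDegree_mul_of_isDomain c0 l0,
      totalDegree_X_pow, totalDegree_X]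
    omega

theorem hom_line {f g : Poly} {m : ℕ} (hf : f.IsHomogeneous m) (hg : g.IsHomogeneous m) (τ : ℂ) :
    (f + τ • (g - f)).IsHomogeneous m := by
  rw [smul_eq_C_mul]
  exact hf.add ((hg.sub hf).C_mul τ)

end Memr

open Memr in
theorem memrS (h1 : CenrStmt) (h2 : UnivStmt) : MemrStmt := by
  intro d a b hd ha hb ω hω
  obtain ⟨e, rfl⟩ : ∃ e, d = e + 3 := ⟨d - 3, by omega⟩
  obtain ⟨k1, -, k3, -⟩ := h2 (e + 3) a b
  obtain ⟨u, v, α, β, p, q, hu, hv, hpq, rfl⟩ := (k1 ω).1 hω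
  have a0 : (a : ℂ) ≠ 0 := Nat.cast_ne_zero.2 (by omega)
  have b0 : (b : ℂ) ≠ 0 := Nat.cast_ne_zero.2 (by omega)
  have n0 : (a : ℂ) + b ≠ 0 := by exact_mod_cast (by omega : a + b ≠ 0)
  let U : ℂ → Poly := fun τ => X 0 + τ • (u - X 0)
  let W : ℂ → Poly := fun τ => X 1 + τ • (v - X 1)
  let l : ℂ → Poly := fun τ => 1 + C (1 + τ * (α - 1)) * U τ + C (0 + τ * (β - 0)) * W τ
  let P : ℕ → ℂ → Poly := fun j τ => p0 e j + τ • (p j - p0 e j)
  let Q : ℕ → ℂ → Poly := fun j τ => q0 e j + τ • (q j - q0 e j)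
  let γ : ℂ → Form := fun τ => rrF (e + 3) a b (U τ) (W τ) (l τ) (fun j => P j τ) fun j => Q j τ
  have hU : PC U := PC.line _ _
  have hW : PC W := PC.line _ _
  have hl : PC l := ((PC.const 1).add ((PS.line _ _).toC.mul hU)).add ((PS.line _ _).toC.mul hW)
  have hP : ∀ j, PC (P j) := fun j => PC.line _ _
  have hγ : PF γ := pf_rr _ a b hU hW hl hP fun j => PC.line _ _
  have hh : ∀ τ j, (P j τ).IsHomogeneous (e + 3 - 1 - j * (a + b)) ∧
      (Q j τ).IsHomogeneous (e + 3 - 1 - j * (a + b)) := fun τ j =>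
    ⟨hom_line (hom0 e _ j).1 (hpq j).1 τ, hom_line (hom0 e _ j).2 (hpq j).2 τ⟩
  have hV : ∀ τ, γ τ ∈ V (e + 2 + 1) := fun τ => by
    have k := k3 ℂ (γ τ) (by omega) ⟨U τ, W τ, _, _, _, _,
      DL_iff.2 (dg_line (dg_X 0) (DL_iff.1 hu) τ), DL_iff.2 (dg_line (dg_X 1) (DL_iff.1 hv) τ),
      hh τ, rfl⟩
    exact ⟨DL_iff.1 k.1, DL_iff.1 k.2⟩
  have U0 : U 0 = X 0 := by simp [U]
  have W0 : W 0 = X 1 := by simp [W]
  have l0 : l 0 = 1 + X 0 := by simp [l, U0]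
  have P0 : ∀ j, P j 0 = p0 e j := fun j => by simp [P]
  have g0 : γ 0 = (bP e a b, bQ e a b) := by
    rw [← base]
    simp [γ, U0, W0, l0, P0, Q]
  have g1 : γ 1 = rrF (e + 3) a b u v (1 + C α * u + C β * v) p q := by
    simp [γ, U, W, l, P, Q]
  obtain ⟨x, hx⟩ : ∃ x : ℂ, (a : ℂ) + b + a * x = 0 := ⟨-(a + b) / a, by field_simp; ring⟩
  have x0 : x ≠ 0 := fun h => n0 (by simpa [h] using hx)
  have x1 : 1 + x ≠ 0 := fun h => b0 (by linear_combination hx - a * h)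
  have h0 : γ 0 ∈ Fol (e + 2 + 1) := by
    have k := hV 0
    rw [g0] at k ⊢
    exact base_fol ha hb k
  have s1 : eval ![x, 0] (γ 0).1 = 0 := by simp [g0, bP]
  have s2 : eval ![x, 0] (γ 0).2 = 0 := by simp [g0, bQ, hx]
  have hj : eval ![x, 0] (jac (γ 0)) ≠ 0 := by
    have : eval ![x, 0] (jac (γ 0)) = ((a : ℂ) + b) * (1 + x) * x ^ (e + 1) * (a * x ^ (e + 2)) := by
      simp [g0, jac, bP, bQ, hx, mul_comm (x ^ (e + 2))]
    rw [this]
    exact mul_ne_zero (mul_ne_zero (mul_ne_zero n0 x1) (pow_ne_zero _ x0))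
      (mul_ne_zero a0 (pow_ne_zero _ x0))
  obtain ⟨R, hR0, hR⟩ := exists_sep (e + 2 + 1) (lamFol (e + 2)) (hV 0) (inj_of_fol h0)
  have c0 : ∀ᶠ y in 𝓝 ((0 : ℂ), ![x, 0]), eval y.2 (l y.1) ≠ 0 :=
    hl.contDiff.continuous.continuousAt.eventually_ne (by simpa [l0] using x1)
  have c1 : ∀ᶠ y in 𝓝 ((0 : ℂ), ![x, 0]), eval y.2 (∑ j ∈ Finset.range ((e + 3 - 1) / (a + b) + 1),
      l y.1 ^ (b * j) * sub2 (U y.1) (W y.1) (P j y.1)) ≠ 0 :=
    (PC.sum _ fun j _ => (hl.pow _).mul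
      (pc_sub2 hU hW (hP j))).contDiff.continuous.continuousAt.eventually_ne (by
        simp only [l0, U0, W0, P0, base_sum]
        simp [x0])
  have c2 : ∀ᶠ y in 𝓝 ((0 : ℂ), ![x, 0]), eval y.2 (jac (γ y.1)) ≠ 0 :=
    hγ.jac.contDiff.continuous.continuousAt.eventually_ne hj
  have c3 := eventually_sing hγ s1 s2 hj (c0.and (c1.and c2))
  have c5 := (hγ.ev R).continuous.continuousAt.eventually_ne hR0
  rw [← g1]
  refine hγ.mem_zcl (infinite_of_nhdsNE (mem_nhdsWithin_of_mem_nhds ?_)) 1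
  filter_upwards [c3, c5] with t ⟨z, hz, e1, e2⟩ h5
  exact subset_zcl _ ⟨fol_of_inj (hV t) (hR _ (hV t) h5), z,
    h1 _ a b _ _ _ _ _ z (by omega) (by omega) (hh t) hz.1 (Or.inl hz.2.1) e1 e2 hz.2.2⟩

end Pool.Agent.MP_05b4bd_ag.RV
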