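import Pool.Agent.MP_05b4bd_ag.rr.Spec4

/-! The reversible families are irreducible. -/

namespace Pool.Agent.MP_05b4bd_ag.RV

open MvPolynomial HC
open PC3 (Fm mapF)

namespace Irrr

/-- Evaluation at the universal form. -/
noncomputable def uv {σ : Type} (U : Fm (MvPolynomial σ ℂ)) : Co →ₐ[ℂ] MvPolynomial σ ℂ :=
  aeval fun k => coeff k.2 (cond k.1 U.1 U.2)

theorem ev_uv {σ : Type} (U : Fm (MvPolynomial σ ℂ)) (x : σ → ℂ) (R : Co) :
    Pool.Agent.MP_05b4bd_ag.ev R (mapF (aeval x : MvPolynomial σ ℂ →ₐ[ℂ] ℂ) U) =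
      aeval x (uv U R) := by
  rw [uv, comp_aeval_apply, Pool.Agent.MP_05b4bd_ag.ev]
  congr 2
  funext k
  rcases k with ⟨_ | _, m⟩ <;> exact coeff_map _ _ _

end Irrr

open Irrr in
theorem irrrS (h : UnivStmt) : IrrrStmt := by
  intro d a b
  obtain ⟨h1, h2, -, -, σ, U, hU, h5⟩ := h d a b
  have m : ∀ x : σ → ℂ, mapF (aeval x : MvPolynomial σ ℂ →ₐ[ℂ] ℂ) U ∈ RR d a b := fun x =>
    (h1 _).2 (h2 _ _ _ U hU)
  have k : ∀ R, uv U R = 0 → ∀ ω ∈ RR d a b, Pool.Agent.MP_05b4bd_ag.ev R ω = 0 := fun R e ω hω => by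
    obtain ⟨x, rfl⟩ := h5 ℂ ω ((h1 ω).1 hω)
    rw [ev_uv, e, map_zero]
  refine irred_iff.2 ⟨⟨_, m 0⟩, fun R S hRS => ?_⟩
  have e : uv U R * uv U S = 0 := MvPolynomial.funext fun x => by
    have := hRS _ (m x)
    rw [ev_uv, ev_uv, ← map_mul] at this
    rw [map_zero]
    exact this
  exact (mul_eq_zero.1 e).imp (k R) (k S)

end Pool.Agent.MP_05b4bd_ag.RV
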