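import Pool.Agent.MP_05b4bd_ag.rr.Spec4

/-! The universal member of the reversible family. -/

namespace Pool.Agent.MP_05b4bd_ag.RV

open MvPolynomial HC Topology
open PC3 (Fm fm d1 DF sub2 pb mapF Van)

namespace Univ

variable {A B : Type} [CommRing A] [CommRing B]

theorem fm_df (g h : Poly) : fm g h = g • dform h :=
  Prod.ext (by simp [fm, dform]) (by simp [fm, dform])

theorem rr_iff (d a b : ℕ) (ω : Form) : ω ∈ RR d a b ↔ HR d a b ω := by
  constructor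
  · rintro ⟨α, β, u, v, l, p, q, hu, hv, rfl, hp, rfl⟩
    exact ⟨u, v, α, β, p, q, DL_iff.2 hu, DL_iff.2 hv, hp, by simp only [rrF, fm_df, sub2]⟩
  · rintro ⟨u, v, α, β, p, q, hu, hv, hp, rfl⟩
    exact ⟨α, β, u, v, _, p, q, DL_iff.1 hu, DL_iff.1 hv, rfl, hp, by simp only [rrF, fm_df, sub2]⟩

theorem mapF_sum (φ : A →+* B) (S : Finset ℕ) (F : ℕ → Fm A) :
    mapF φ (∑ j ∈ S, F j) = ∑ j ∈ S, mapF φ (F j) := by
  induction S using Finset.induction_on with
  | empty => simpa using PC3.mapF_zero φ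
  | insert a S ha ih => rw [Finset.sum_insert ha, Finset.sum_insert ha, PC3.mapF_add, ih]

theorem map_rrF (φ : A →+* B) (d a b : ℕ) (u v l : R2 A) (p q : ℕ → R2 A) :
    mapF φ (rrF d a b u v l p q) = rrF d a b (map φ u) (map φ v) (map φ l)
      (fun j => map φ (p j)) fun j => map φ (q j) := by
  rw [rrF, rrF, mapF_sum]
  refine Finset.sum_congr rfl fun j _ => ?_
  simp only [PC3.mapF_smul, PC3.mapF_sub, PC3.mapF_add, PC3.mapF_fm, PC3.map_sub2, map_pow, map_mul,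
    map_add, map_natCast]

theorem hr_map (φ : A →+* B) {d a b : ℕ} {w : Fm A} (h : HR d a b w) : HR d a b (mapF φ w) := by
  obtain ⟨u, v, α, β, p, q, hu, hv, hp, rfl⟩ := h
  refine ⟨map φ u, map φ v, φ α, φ β, fun j => map φ (p j), fun j => map φ (q j), hu.map φ,
    hv.map φ, fun j => ⟨(hp j).1.map φ, (hp j).2.map φ⟩, ?_⟩
  rw [map_rrF]
  simp only [map_add, map_mul, map_one, map_C]

theorem DL_nat (n : ℕ) : DL 1 (n : R2 A) := by
  rw [← map_natCast (C : A →+* R2 A)]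
  exact DL_C _

theorem DL_l {u v : R2 A} (hu : DL 2 u) (hv : DL 2 v) (α β : A) : DL 2 (1 + C α * u + C β * v) :=
  ((((C_1 (σ := Fin 2) (R := A)) ▸ DL_C (1 : A)).mono (by omega)).add (hu.C_mul α)).add
    (hv.C_mul β)

theorem bound {d a b j : ℕ} (hd : 1 ≤ d) (hj : j ∈ Finset.range ((d - 1) / (a + b) + 1)) :
    b * j + (d - 1 - j * (a + b) + 1) ≤ d := by
  have h1 : j * (a + b) ≤ d - 1 :=
    (Nat.mul_le_mul_right _ (Nat.lt_succ_iff.1 (Finset.mem_range.1 hj))).trans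
      (Nat.div_mul_le_self _ _)
  have h2 : b * j ≤ j * (a + b) := by nlinarith [Nat.zero_le (j * a)]
  omega

theorem DF_fm {e : ℕ} {g u : R2 A} (hg : DL e g) (hu : DL 2 u) : DF e (fm g u) :=
  ⟨DL.mul' (b := 0) hg (hu.pderiv 1), (DL.mul' (b := 0) hg (hu.pderiv 0)).neg⟩

theorem DF_smul {e m : ℕ} {g : R2 A} {w : Fm A} (hg : DL (m + 1) g) (hw : DF e w) :
    DF (m + e) (g • w) := ⟨hg.mul hw.1, hg.mul hw.2⟩

theorem DL_pow {l : R2 A} (hl : DL 2 l) (m : ℕ) : DL (m + 1) (l ^ m) := by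
  simpa using DL.pow (a := 1) hl m

theorem DF_th {e : ℕ} {u v p q : R2 A} (hu : DL 2 u) (hv : DL 2 v) (hp : p.IsHomogeneous e)
    (hq : q.IsHomogeneous e) : DF (e + 1) (fm (sub2 u v p) u + fm (sub2 u v q) v) :=
  have h1 := DF_fm (PC3.sub2_DL hu hv (DL.of_hom hp)) hu
  have h2 := DF_fm (PC3.sub2_DL hu hv (DL.of_hom hq)) hv
  ⟨h1.1.add h2.1, h1.2.add h2.2⟩

theorem hr_df {d a b : ℕ} {w : Fm A} (hd : 1 ≤ d) (h : HR d a b w) : DF (d + 1) w := by
  obtain ⟨u, v, α, β, p, q, hu, hv, hp, rfl⟩ := h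
  have hl := DL_l hu hv α β
  generalize 1 + C α * u + C β * v = l at hl
  have key : ∀ j ∈ Finset.range ((d - 1) / (a + b) + 1), DF (d + 1) (l ^ (b * j) •
      ((((a + b : ℕ) : R2 A) * l) • (fm (sub2 u v (p j)) u + fm (sub2 u v (q j)) v) -
        fm ((b : R2 A) * (u * sub2 u v (p j) + v * sub2 u v (q j))) l)) := by
    intro j hj
    have hb := bound hd hj
    have h1 := DF_smul (m := 1) (DL.mul (a := 0) (DL_nat (a + b)) hl)
      (DF_th hu hv (hp j).1 (hp j).2)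
    have h2 := DF_fm (DL.mul (a := 0) (DL_nat b)
      ((DL.mul (a := 1) hu (PC3.sub2_DL hu hv (DL.of_hom (hp j).1))).add
        (DL.mul (a := 1) hv (PC3.sub2_DL hu hv (DL.of_hom (hp j).2))))) hl
    rw [zero_add] at h2
    have h3 := DF_smul (DL_pow hl (b * j)) (w := _ - _) ⟨h1.1.sub h2.1, h1.2.sub h2.2⟩
    exact ⟨h3.1.mono (by omega), h3.2.mono (by omega)⟩
  rw [rrF]
  constructor
  · rw [Prod.fst_sum]
    exact DL.sum _ fun j hj => (key j hj).1
  · rw [Prod.snd_sum]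
    exact DL.sum _ fun j hj => (key j hj).2

/-- The derivative of a linear form parallel to `l` is divisible by `l`. -/
theorem vf_rrF {d a b : ℕ} {u v l : R2 A} {p q : ℕ → R2 A} (hd : 1 ≤ d) (hu : DL 2 u)
    (hv : DL 2 v) (hl : DL 2 l)
    (hp : ∀ j, (p j).IsHomogeneous (d - 1 - j * (a + b)) ∧
      (q j).IsHomogeneous (d - 1 - j * (a + b))) (m1 m2 : A)
    (hm : C m1 * pderiv 1 l = C m2 * pderiv 0 l) : ∃ g, DL d g ∧
      vf (rrF d a b u v l p q).1 (rrF d a b u v l p q).2 (HC.lf m1 m2) = g * l := by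
  refine ⟨∑ j ∈ Finset.range ((d - 1) / (a + b) + 1), l ^ (b * j) * (((a + b : ℕ) : R2 A) *
    (C m1 * (fm (sub2 u v (p j)) u + fm (sub2 u v (q j)) v).1 +
      C m2 * (fm (sub2 u v (p j)) u + fm (sub2 u v (q j)) v).2)), DL.sum _ fun j hj => ?_, ?_⟩
  · have h1 := DF_th hu hv (hp j).1 (hp j).2
    have hb := bound hd hj
    exact ((DL_pow hl (b * j)).mul (DL.mul (a := 0) (DL_nat (a + b))
      ((h1.1.C_mul m1).add (h1.2.C_mul m2)))).mono (by omega)
  · rw [vf_lf, rrF, Prod.fst_sum, Prod.snd_sum, Finset.mul_sum, Finset.mul_sum,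
      ← Finset.sum_add_distrib, Finset.sum_mul]
    refine Finset.sum_congr rfl fun j _ => ?_
    generalize fm (sub2 u v (p j)) u + fm (sub2 u v (q j)) v = θ
    simp only [Prod.smul_fst, Prod.smul_snd, Prod.fst_sub, Prod.snd_sub, smul_eq_mul, fm]
    linear_combination
      -(l ^ (b * j) * ((b : R2 A) * (u * sub2 u v (p j) + v * sub2 u v (q j)))) * hm

theorem hr_line {K : Type} [Field K] {d a b : ℕ} {w : Fm K} (hd : 1 ≤ d) (h : HR d a b w) :
    HasLine d w := by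
  obtain ⟨u, v, α, β, p, q, hu, hv, hp, rfl⟩ := h
  have hl := DL_l hu hv α β
  generalize 1 + C α * u + C β * v = l at hl
  have e := PC3.DL2_eq hl
  generalize coeff 0 l = c, HC.co 1 0 l = l1, HC.co 0 1 l = l2 at e
  have e0 : pderiv 0 l = C l1 := by rw [e, map_add, pderiv_C, zero_add, lf_x]
  have e1 : pderiv 1 l = C l2 := by rw [e, map_add, pderiv_C, zero_add, lf_y]
  by_cases hz : l1 ≠ 0 ∨ l2 ≠ 0
  · obtain ⟨g, hg, h⟩ := vf_rrF hd hu hv hl hp l1 l2 (by rw [e0, e1, mul_comm])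
    exact ⟨c, l1, l2, 1, g, hz, Or.inr one_ne_zero, hg, by rw [h, C_1, one_mul, ← e]⟩
  · push Not at hz
    obtain ⟨g, hg, h⟩ := vf_rrF hd hu hv hl hp 1 0 (by rw [e1, hz.2, C_0, mul_zero, zero_mul])
    refine ⟨1, 1, 0, 0, C c * g, Or.inl one_ne_zero, Or.inl one_ne_zero, hg.C_mul c, ?_⟩
    rw [h, e, hz.1, hz.2]
    simp [HC.lf, mul_comm]

/-- The binary form of degree `e` with given coefficients. -/
noncomputable def hp (e : ℕ) (x : ℕ → A) : R2 A :=
  ∑ i ∈ Finset.range (e + 1), C (x i) * (X 0 ^ (e - i) * X 1 ^ i)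

theorem hp_hom (e : ℕ) (x : ℕ → A) : (hp e x).IsHomogeneous e := by
  refine IsHomogeneous.sum _ _ _ fun i hi => IsHomogeneous.C_mul ?_ _
  have h := (isHomogeneous_X_pow (R := A) (0 : Fin 2) (e - i)).mul
    (isHomogeneous_X_pow (R := A) (1 : Fin 2) i)
  rwa [Nat.sub_add_cancel (Nat.lt_succ_iff.1 (Finset.mem_range.1 hi))] at h

theorem map_hp (φ : A →+* B) (e : ℕ) (x : ℕ → A) : map φ (hp e x) = hp e fun i => φ (x i) := by
  simp [hp]

/-- The index set of the parameters. -/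
abbrev Ix := Fin 8 ⊕ (ℕ × ℕ) ⊕ ℕ × ℕ

/-- The affine form with coefficients number `i`, `j`, `l`. -/
noncomputable def af (x : Ix → A) (i j l : Fin 8) : R2 A :=
  C (x (.inl i)) + HC.lf (x (.inl j)) (x (.inl l))

theorem af_DL (x : Ix → A) (i j l : Fin 8) : DL 2 (af x i j l) :=
  ((DL_C _).mono (by omega)).add (DL.of_hom (lf_hom _ _))

/-- The member of the family with parameters `x`. -/
noncomputable def par (d a b : ℕ) (x : Ix → A) : Fm A :=
  rrF d a b (af x 0 1 2) (af x 3 4 5)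
    (1 + C (x (.inl 6)) * af x 0 1 2 + C (x (.inl 7)) * af x 3 4 5)
    (fun j => hp (d - 1 - j * (a + b)) fun i => x (.inr (.inl (j, i))))
    fun j => hp (d - 1 - j * (a + b)) fun i => x (.inr (.inr (j, i)))

theorem hr_par (d a b : ℕ) (x : Ix → A) : HR d a b (par d a b x) :=
  ⟨_, _, _, _, _, _, af_DL x 0 1 2, af_DL x 3 4 5, fun _ => ⟨hp_hom _ _, hp_hom _ _⟩, rfl⟩

theorem map_par (φ : A →+* B) (d a b : ℕ) (x : Ix → A) :
    mapF φ (par d a b x) = par d a b fun i => φ (x i) := by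
  rw [par, par, map_rrF]
  simp only [map_add, map_mul, map_one, map_C, af, map_lf, map_hp]

theorem exists_par {d a b : ℕ} {w : Fm A} (h : HR d a b w) : ∃ x, w = par d a b x := by
  obtain ⟨u, v, α, β, p, q, hu, hv, hh, rfl⟩ := h
  obtain ⟨x, h1, h2, h3, h4, h5, h6⟩ : ∃ x : Ix → A, af x 0 1 2 = u ∧ af x 3 4 5 = v ∧
      x (.inl 6) = α ∧ x (.inl 7) = β ∧
      (fun j => hp (d - 1 - j * (a + b)) fun i => x (.inr (.inl (j, i)))) = p ∧
      (fun j => hp (d - 1 - j * (a + b)) fun i => x (.inr (.inr (j, i)))) = q :=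
    ⟨Sum.elim ![coeff 0 u, HC.co 1 0 u, HC.co 0 1 u, coeff 0 v, HC.co 1 0 v, HC.co 0 1 v, α, β]
      (Sum.elim (fun t => HC.co (d - 1 - t.1 * (a + b) - t.2) t.2 (p t.1))
        fun t => HC.co (d - 1 - t.1 * (a + b) - t.2) t.2 (q t.1)),
      (PC3.DL2_eq hu).symm, (PC3.DL2_eq hv).symm, rfl, rfl,
      funext fun j => (hom_eq_sum (hh j).1).symm, funext fun j => (hom_eq_sum (hh j).2).symm⟩
  exact ⟨x, by rw [par, h1, h2, h3, h4, h5, h6]⟩

end Univ

open Univ in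
theorem univS : UnivStmt := by
  intro d a b
  refine ⟨rr_iff d a b, fun A B _ _ φ w h => hr_map φ h, fun A _ w hd h => hr_df hd h,
    fun K _ w hd _ h => hr_line hd h, Ix, par d a b X, hr_par d a b X, fun A _ _ w h => ?_⟩
  obtain ⟨x, rfl⟩ := exists_par h
  refine ⟨x, ?_⟩
  rw [map_par]
  simp

end Pool.Agent.MP_05b4bd_ag.RV
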