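import Pool.Agent.MP_05b4bd_ag.rr.Bas
import Mathlib.RingTheory.RootsOfUnity.AlgebraicallyClosed

/-! A first integral at infinity forces the reversible case. -/

namespace Pool.Agent.MP_05b4bd_ag.RV

open PowerSeries LaurentSeries HC
open ES hiding Gen Ob Inf
open ES.U (TM Cr hom)
open PC3 (Fm fm d1 DF sub2 pb mapF Van CenK iS)

namespace Rig

theorem prim (k : Type) [Field k] [CharZero k] [IsAlgClosed k] (n : ℕ) :
    ∃ ω : k, IsPrimitiveRoot ω n := by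
  rcases Nat.eq_zero_or_pos n with rfl | hn
  · refine ⟨2, pow_zero _, fun l hl => ?_⟩
    have h : ((2 ^ l : ℕ) : k) = ((1 : ℕ) : k) := by push_cast; exact hl
    have h2 : 2 ^ l = 1 := Nat.cast_injective h
    rw [Nat.pow_eq_one] at h2
    rcases h2 with h2 | h2
    · omega
    · rw [h2]
  · have : NeZero n := ⟨hn.ne'⟩
    have : NeZero (n : k) := ⟨Nat.cast_ne_zero.2 hn.ne'⟩
    exact HasEnoughRootsOfUnity.exists_primitiveRoot k n

theorem exo {k k' : Type} [Field k] [Field k'] (j : k →+* k') {f : R2 k}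
    (h : ExoK (MvPolynomial.map j f)) : ExoK f := by
  obtain ⟨K, _, i, a, e, u, v, hu, hv, h⟩ := h
  exact ⟨K, inferInstance, i.comp j, a, e, u, v, hu, hv, by rw [← MvPolynomial.map_map, h]⟩

theorem cst {k L : Type} [Field k] [Field L] {κ : k →+* L} {D : L →+ L} {a b : AA L} {n α : ℕ}
    (h : Good κ D a b n α) : Cst κ D := by
  obtain ⟨U, _, D1, i, r, hD, hC, -⟩ := h.ex
  intro c hc
  obtain ⟨s, hs⟩ := hC (i c) (by rw [hD.2, hc, map_zero])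
  exact ⟨s, i.injective hs⟩

theorem c00_fr {L : Type} [Field L] {p : L⟦X⟧} (hp : cc p = 1) (x : L) :
    c00 (map C (p * C x) : AA L) = x := by
  have e : c00 (map C (p * C x) : AA L) = cc (C (cc (p * C x)) : L⟦X⟧) := rfl
  have e1 : ∀ y : L, cc (C y : L⟦X⟧) = y := fun y => constantCoeff_C y
  rw [e, e1, map_mul, hp, e1, one_mul]

end Rig

theorem rigS (h1 : ObsStmt) (h2 : BaserStmt) (h3 : MkiStmt) (h4 : RunStmt) (h5 : AdmStmt)
    (h6 : NrfStmt) (h7 : FrameStmt) (h8 : IndStmt) (h9 : RrcStmt) : RigStmt := by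
  intro k _ _ d o hd hN
  obtain ⟨M, hM, L, _, κ, D, x, y, hF, hI⟩ : ∃ M, 1 ≤ M ∧ ∃ (L : Type) (_ : Field L)
      (κ : k →+* L) (D : L →+ L) (x y : AA L), Frm κ D d o.f x y ∧
      ¬ NoFI D (fa κ d (MvPolynomial.map (ram k M) o.P) (MvPolynomial.map (ram k M) o.Q) x y)
        (fb κ D d (MvPolynomial.map (ram k M) o.P) (MvPolynomial.map (ram k M) o.Q) x y) := by
    by_contra hc
    exact hN fun M hM L _ κ D x y hF => by
      by_contra hn
      exact hc ⟨M, hM, L, inferInstance, κ, D, x, y, hF, hn⟩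
  obtain ⟨o1, p1, q1, f1⟩ := (h1 k d o (by omega)).2.1 M hM
  rw [← p1, ← q1] at hI
  rw [← f1] at hF
  obtain ⟨k', L', _, _, _, _, j, o2, κ', D', x', y', n, α, p2, q2, f2, hF', hG⟩ :=
    h2 k L d o1 κ D x y (by omega) hF hI
  obtain ⟨I, iκ, iD, iff, -, -, -, ia, ib⟩ := h3 k' L' d o2 κ' D' x' y' (by omega) hF'
  obtain ⟨ω, hω⟩ := Rig.prim k' n
  obtain ⟨hn, -, -, -, -, -, -, c0, -, -, -, -, -, -, hs⟩ :=
    h4 k' L' d I n α ω hd (by rw [iκ, iD, ia, ib]; exact hG) hω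
  rw [iff] at hs
  rw [f1] at f2
  rcases hs with ⟨c, hy⟩ | ⟨h3, -, he⟩
  swap
  · exact Or.inr ⟨h3, Rig.exo j (f2 ▸ he)⟩
  have hζ : IsPrimitiveRoot ω⁻¹ n := hω.inv
  obtain ⟨a1, a2, -⟩ := h5 k' d o2.f hd o2.gen.tm
  have adm : Adm d n := a1 n hn ⟨k', inferInstance, RingHom.id _, ω⁻¹, c0, c, hζ, by
    rw [MvPolynomial.map_id]; exact hy⟩
  obtain ⟨p, hp⟩ := a2 ω⁻¹ c0 c (hζ.ne_one hn) hy
  obtain ⟨o3, p3, q3, f3⟩ := (h1 k' d o2 (by omega)).1 fun i => C (p i)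
  have ep : (fun i => cc (C (p i) : k'⟦X⟧)) = p := funext fun i => constantCoeff_C (p i)
  rw [ep] at f3
  have hcv : Curve κ' D' (hc d o3.f) (c00 x') (c00 y') := by
    rw [f3, hc_tr_sub p _ (by omega) o2.gen.2.1]
    exact hF'.cv
  obtain ⟨R, rf, -, rκ, rD, rx, ry⟩ := h6 k' L' d n o3.f ω⁻¹ κ' D' (c00 x') (c00 y') hd o3.gen adm
    hζ (by rw [f3]; exact hp) hcv hF'.gb (Rig.cst hG)
  have hG' := h7 k' L' d o2 κ' D' x' y' R.x R.y (fun i => C (p i)) n α (by omega) hF'.cv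
    ((Rig.c00_fr R.p0 R.xb).trans rx) ((Rig.c00_fr R.p0 R.yb).trans ry) hG
  obtain ⟨β, hα, hβ, hs, hcop, hR⟩ := h8 k' L' d n α R o3 rf.symm (by
    rw [Rd.a, Rd.b, rκ, rD]
    rw [← p3, ← q3] at hG'
    exact hG')
  refine Or.inl ⟨α, β, hα, hβ, hcop, ⟨k', inferInstance, j, ω⁻¹, c0, c, hs ▸ hζ, f2 ▸ hy⟩, ?_⟩
  have hR2 : RRc d α β (o2.P, o2.Q) := (h9 _ d α β (o2.P, o2.Q)).2.2.1 (fun i => C (p i)) (by
    rw [p3, q3] at hR
    exact hR)
  refine (h9 _ d α β (o.P, o.Q)).2.2.2.2 _ ((map j).comp (ram k M))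
    ((map_injective j j.injective).comp (ram_inj hM)) ?_
  rw [p2, q2, p1, q1, MvPolynomial.map_map, MvPolynomial.map_map] at hR2
  exact hR2

end Pool.Agent.MP_05b4bd_ag.RV
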