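import Pool.Agent.MP_05b4bd_ag.rr.Bas

/-! Radially symmetric Morse polynomials: statements of the second layer (torsion, frames). -/

namespace Pool.Agent.MP_05b4bd_ag.RV

open PowerSeries LaurentSeries HC
open ES hiding Gen Ob Inf
open ES.U (TM Cr hom)
open PC3 (Fm fm d1 DF sub2 pb mapF Van CenK iS)

noncomputable section

/-! ### Definitions -/

section Steps
variable {k F E : Type} [Field k] [CommRing F] [CommRing E]

/-- The state of the descent at level `m`. -/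
structure St (e : R2 k →+* F) (S : Subring F) (j : F →+* E) (d' : Fin 2 → E →+ E)
    (A : Fin 2 → (R2 k)⟦X⟧) (m : ℕ) (B : Fin 2 → F⟦X⟧) (ξ : Fin 2 → E⟦X⟧) (μ : E⟦X⟧) : Prop where
  mem : ∀ i, In S (B i)
  cong : ∀ i, X ^ m ∣ map e (A i) - B i
  near : ∀ i, X ^ m ∣ ξ i - C (j (e (MvPolynomial.X i)))
  eq : ∀ i, vS d' (fun l => map j (B l)) (ξ i) = μ * evS (j.comp e) ξ (A i)

/-- One change of coordinates over the small ring. -/
structure Mv (e : R2 k →+* F) (d : Fin 2 → F →+ F) (S : Subring F) (N : Fin 2 → F) (m : ℕ) (s : F)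
    (B B' : Fin 2 → F⟦X⟧) (χ : F⟦X⟧ →+* F⟦X⟧) (ν : F⟦X⟧) : Prop where
  fx : χ X = X
  fc : ∀ c, χ (C (e (MvPolynomial.C c))) = C (e (MvPolynomial.C c))
  mem : ∀ u, In S u → In S (χ u)
  near : ∀ u, X ^ m ∣ χ u - u
  fst : ∀ l, X ^ (m + 1) ∣ χ (C (e (MvPolynomial.X l))) - C (e (MvPolynomial.X l)) +
    X ^ m * C (s * N l)
  mν : In S ν
  one : X ^ m ∣ ν - 1
  eq : ∀ u, vS d B' (χ u) = ν * χ (vS d B u)

end Steps

section Charts
variable {L : Type} [Field L]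

/-- A change of the chart at infinity: `s ↦ s + η`, `W ↦ W υ`. -/
structure Chg (D : L →+ L) (η υ : AA L) (Θ : AA L →+* AA L) : Prop where
  e0 : c00 η = 0
  u1 : c00 υ = 1
  w : Θ X = X * υ
  fix : ∀ c : L⟦X⟧, cw D c = 0 → Θ (C c) = C c
  c0 : ∀ u, c00 (Θ u) = c00 u
  ds : ∀ u, cw (cw D) (Θ u) =
    Θ (cw (cw D) u) * (1 + cw (cw D) η) + Θ (dX _ u) * (X * cw (cw D) υ)
  dw : ∀ u, dX _ (Θ u) = Θ (cw (cw D) u) * dX _ η + Θ (dX _ u) * (υ + X * dX _ υ)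
  bij : Function.Bijective Θ

/-- The change extends to every differential extension. -/
def ChgA (D : L →+ L) (η υ : AA L) (Θ : AA L →+* AA L) : Prop := Chg D η υ Θ ∧
  ∀ (U : Type) [Field U] (D1 : U →+ U) (i : L →+* U), DExt D D1 i →
    ∃ Θ', Chg D1 (mA i η) (mA i υ) Θ' ∧ ∀ u, Θ' (mA i u) = mA i (Θ u)

/-- The Taylor map of `D`. -/
def IsTay (D : L →+ L) (τ : L →+* L⟦X⟧) : Prop :=
  (∀ c, cc (τ c) = c) ∧ ∀ c, dX L (τ c) = τ (D c)

/-- The change of the chart given by `η` and `υ`. -/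
def thC (τ : L →+* L⟦X⟧) (η υ : AA L) : AA L →+* AA L :=
  ev2 ((ES.ev CC η).comp τ) (C X) (X * υ)

/-- The form `a dW + W b ds` vanishes to the first order as `W dW`. -/
def Std (a b : AA L) : Prop := c00 a = 0 ∧ co2 0 1 a ≠ 0 ∧ c00 b = 0

end Charts

end

/-! ### Statements: symmetries -/

def RedStmt : Prop := ∀ (k L : Type) [Field k] [CharZero k] [Field L] (d : ℕ) (I : Inf k d L),
  3 ≤ d → (∀ m : ℤ, m < -d → ∃ z, (cc I.Xi).coeff m = I.D z) → Low d I.f I.g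

def ExoStmt : Prop := ∀ (k : Type) [Field k] [CharZero k] [IsAlgClosed k] (F l : R2 k) (w e : k)
  (p q c : Fin 2 → k), F.IsHomogeneous 3 → l.IsHomogeneous 1 → w ^ 2 = -1 →
  (∀ i, MvPolynomial.eval p (MvPolynomial.pderiv i (F + l)) = 0) →
  (∀ i, MvPolynomial.eval q (MvPolynomial.pderiv i (F + l)) = 0) → MvPolynomial.eval p l ≠ 0 →
  MvPolynomial.eval q l = w * MvPolynomial.eval p l → ExoK (tr c (F + l + MvPolynomial.C e))

/-- The module of `f` with its periods at infinity. -/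
def PkgStmt : Prop := ∀ (k L : Type) [Field k] [CharZero k] [Field L] (κ : k →+* L) (D : L →+ L)
  (d : ℕ) (f : R2 k) (x0 y0 : L⟦X⟧), 3 ≤ d → Gen d f → Curve κ D (hc d f) (cc x0) (cc y0) →
  gf κ (cc x0) (cc y0) = ⊤ → EL κ x0 y0 f = wL L (-(d : ℤ)) →
  ∃ (n : ℕ) (p : Fin n → Fin 2 → k) (G : Type) (_ : AddCommGroup G) (_ : Module k G)
    (B : UM.BM k G n) (π : R2 k →ₗ[k] G) (m : ℕ) (e : Fin m → G) (P : G →ₗ[k] Fin m → k⸨X⸩)
    (lam : R2 k →ₗ[k] Fin m → k) (l : Fin m → L →+ k), Cr f p ∧ UM.Pres B f p π ∧ UM.TD B d P e ∧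
    UM.Per d f π P lam ∧ (∀ i c z, l i (κ c * z) = c * l i z) ∧ (∀ i z, l i (D z) = 0) ∧
    ∀ u i, P (π u) i = cwL (l i) (GLc κ d D x0 y0 u)

/-! ### Statements: torsion -/

/-- The coordinates of the plane as coordinates near infinity. -/
def CrdStmt : Prop := ∀ (k L : Type) [Field k] [CharZero k] [Field L] (κ : k →+* L) (D : L →+ L)
  (d : ℕ) (f : R2 k) (x0 y0 : L⟦X⟧), 3 ≤ d → Gen d f → Curve κ D (hc d f) (cc x0) (cc y0) →
  gf κ (cc x0) (cc y0) = ⊤ → EL κ x0 y0 f = wL L (-(d : ℤ)) →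
  ∃ (dF : Fin 2 → FF k →+ FF k) (j : FF k →+* L⸨X⸩) (d' : Fin 2 → L⸨X⸩ →+ L⸨X⸩) (ϱ : L⸨X⸩),
    D2 (eF k) dF ∧ j.comp (eF k) = EL κ x0 y0 ∧ D2 (EL κ x0 y0) d' ∧
    (∀ i u, d' i (j u) = j (dF i u)) ∧
    (∀ u, thL L u = thL L (EL κ x0 y0 (MvPolynomial.X 0)) * d' 0 u +
      thL L (EL κ x0 y0 (MvPolynomial.X 1)) * d' 1 u) ∧
    (∀ u, cwL D u = cwL D (EL κ x0 y0 (MvPolynomial.X 0)) * d' 0 u +
      cwL D (EL κ x0 y0 (MvPolynomial.X 1)) * d' 1 u) ∧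
    ϱ ≠ 0 ∧ (∀ u, cwL D u = ϱ * D0 (EL κ x0 y0) d' f u) ∧
    (∀ g, GLc κ d D x0 y0 g = ϱ * EL κ x0 y0 g) ∧
    ∀ c, cwL D c = 0 → ∀ i, d' i c = dh d c * EL κ x0 y0 (MvPolynomial.pderiv i f)

/-- A Wronskian of rational type has a rational factor. -/
def WrStmt : Prop := ∀ (k G ι : Type) [Field k] [CharZero k] [AddCommGroup G] [Module k G]
  [Fintype ι] [DecidableEq ι] (n d : ℕ) (B : UM.BM k G n) (P : G →ₗ[k] ι → k⸨X⸩) (e : ι → G)
  (g v : G) (q : Polynomial k) (c : k⸨X⸩), UM.TD B d P e → g ≠ 0 → q ≠ 0 →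
  UM.ae (UM.hW k d) q • (c • P g - UM.dK k d c • P (B.θ g)) = P v → UM.InK (UM.hW k d) c

/-- Forms of low degree have at most simple poles on a fibre. -/
def LogvStmt : Prop := ∀ (k : Type) [Field k] [CharZero k] (d : ℕ) (f g : R2 k)
  (x y lam : k⸨X⸩), 2 ≤ d → TM d f → DL (d - 1) g →
  thL k x = lam * evp (cL k) x y (MvPolynomial.pderiv 1 f) →
  thL k y = -(lam * evp (cL k) x y (MvPolynomial.pderiv 0 f)) → (thL k x ≠ 0 ∨ thL k y ≠ 0) →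
  ∀ m : ℤ, m < 0 → (lam * evp (cL k) x y g).coeff m = 0

/-- Restriction to a fibre. -/
def ResfStmt : Prop := ∀ (k : Type) [Field k] [CharZero k] [IsAlgClosed k] (d : ℕ) (f g : R2 k)
  (dF : Fin 2 → FF k →+ FF k) (c : k) (w z : FF k), 3 ≤ d → TM d f → D2 (eF k) dF → InO f c w →
  InO f c z → DL (d - 1) g → D0 (eF k) dF f w = eF k g + eF k (f - MvPolynomial.C c) * z →
  g = 0 ∧ ∃ (a : k) (z' : FF k), InO f c z' ∧
    w = eF k (MvPolynomial.C a) + eF k (f - MvPolynomial.C c) * z'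

/-- One step of the descent. -/
def OneStmt : Prop := ∀ (k F E : Type) [Field k] [CharZero k] [CommRing F] [CommRing E]
  (e : R2 k →+* F) (d : Fin 2 → F →+ F) (S : Subring F) (j : F →+* E) (d' : Fin 2 → E →+ E)
  (f a b : R2 k) (N : Fin 2 → F) (A : Fin 2 → (R2 k)⟦X⟧) (H g : (R2 k)⟦X⟧) (n m : ℕ)
  (B : Fin 2 → F⟦X⟧) (ξ : Fin 2 → E⟦X⟧) (μ : E⟦X⟧), Tf e d S j d' f a b N → 1 ≤ n → 1 ≤ m →
  (∀ i, cc (A i) = ham f i) → cc H = f → vS (pd k) A H = X ^ n * g →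
  cc g = a * MvPolynomial.pderiv 0 f + b * MvPolynomial.pderiv 1 f → St e S j d' A m B ξ μ →
  ∃ s ∈ S, j s = coeff m (evS (j.comp e) ξ (C f)) ∧
    ∃ B' ξ' μ' χ ν, St e S j d' A (m + 1) B' ξ' μ' ∧ Mv e d S N m s B B' χ ν

/-! ### Statements: frames -/

def ChgaStmt : Prop := ∀ (L : Type) [Field L] [CharZero L] (D : L →+ L) (τ : L →+* L⟦X⟧)
  (η υ : AA L), IsDer D → IsTay D τ → c00 η = 0 → c00 υ = 1 → ChgA D η υ (thC τ η υ)

/-- Every frame comes from the constant frame. -/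
def ChgbStmt : Prop := ∀ (k L : Type) [Field k] [CharZero k] [Field L] (κ : k →+* L) (D : L →+ L)
  (d : ℕ) (F : R2 k) (x y : AA L) (τ : L →+* L⟦X⟧), 1 ≤ d → F.IsHomogeneous d →
  Curve κ D F (c00 x) (c00 y) → IsTay D τ → ∃ η υ, c00 η = 0 ∧ c00 υ = 1 ∧
    thC τ η υ (CC (c00 x)) = υ * x ∧ thC τ η υ (CC (c00 y)) = υ * y

/-- Least first integrals do not depend on the chart. -/
def TrfStmt : Prop := ∀ (k L : Type) [Field k] [Field L] (κ : k →+* L) (D : L →+ L)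
  (η υ lam a b a' b' : AA L) (Θ : AA L →+* AA L) (n α : ℕ), IsDer D → ChgA D η υ Θ → IsUnit lam →
  lam * a' = Θ a * (υ + X * dX _ υ) + Θ (X * b) * dX _ η →
  lam * (X * b') = Θ a * (X * cw (cw D) υ) + Θ (X * b) * (1 + cw (cw D) η) →
  Std a b → Std a' b' → (Good κ D a b n α ↔ Good κ D a' b' n α)

end Pool.Agent.MP_05b4bd_ag.RV
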