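import Pool.Agent.MP_05b4bd_ag.rr.Bas

/-! Radially symmetric Morse polynomials: statements on the reversible components. -/

namespace Pool.Agent.MP_05b4bd_ag.RV

open MvPolynomial HC Topology
open PC3 (Fm fm d1 DF sub2 pb mapF Van)

/-- An invariant line, possibly at infinity. -/
def HasLine {K : Type} [CommRing K] (d : ℕ) (w : Fm K) : Prop := ∃ (l0 l1 l2 ε : K) (g : R2 K),
  (l1 ≠ 0 ∨ l2 ≠ 0) ∧ (l0 ≠ 0 ∨ ε ≠ 0) ∧ DL d g ∧
    vf w.1 w.2 (HC.lf l1 l2) = g * (C l0 + C ε * HC.lf l1 l2)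

/-- The universal member of the family. -/
def UnivStmt : Prop := ∀ d a b : ℕ, (∀ ω : Form, ω ∈ RR d a b ↔ HR d a b ω) ∧
  (∀ (A B : Type) [CommRing A] [CommRing B] (φ : A →+* B) (w : Fm A),
    HR d a b w → HR d a b (mapF φ w)) ∧
  (∀ (A : Type) [CommRing A] (w : Fm A), 1 ≤ d → HR d a b w → DF (d + 1) w) ∧
  (∀ (K : Type) [Field K] (w : Fm K), 1 ≤ d → 1 ≤ a → HR d a b w → HasLine d w) ∧
  ∃ (σ : Type) (U : Fm (MvPolynomial σ ℂ)), HR d a b U ∧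
    ∀ (A : Type) [CommRing A] [Algebra ℂ A] (w : Fm A), HR d a b w →
      ∃ x : σ → A, w = mapF (aeval x : MvPolynomial σ ℂ →ₐ[ℂ] A) U

/-- Invariant lines specialise. -/
def LineStmt : Prop := ∀ (K : Type) [Field K] (O : ValuationSubring K) (d : ℕ) (w : Fm O),
  HasLine d (mapF (algebraMap O K) w) → HasLine d (mapF (IsLocalRing.residue O) w)

/-- The holomorphic flow box. -/
def FlowaStmt : Prop := ∀ (P Q : Poly) (q : Fin 2 → ℂ), (eval q P ≠ 0 ∨ eval q Q ≠ 0) →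
  ∃ I ν : (Fin 2 → ℂ) → ℂ, AnalyticAt ℂ I q ∧ AnalyticAt ℂ ν q ∧ ν q ≠ 0 ∧
    ∀ᶠ z in 𝓝 q, ∀ v, fderiv ℂ I z v = ν z * (eval z P * v 1 - eval z Q * v 0)

/-- An analytic first integral at a reduced singular point gives a centre. -/
def CenaStmt : Prop := ∀ (ω : Form) (p : Fin 2 → ℂ) (H ν : (Fin 2 → ℂ) → ℂ), AnalyticAt ℂ H p →
  AnalyticAt ℂ ν p → ν p ≠ 0 →
  (∀ᶠ z in 𝓝 p, ∀ v, fderiv ℂ H z v = ν z * (eval z ω.1 * v 1 - eval z ω.2 * v 0)) →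
  eval p ω.1 = 0 → eval p ω.2 = 0 → eval p (jac ω) ≠ 0 → IsCenter ω p

/-- Singular points over regular points of the symmetric form are centres. -/
def CenrStmt : Prop := ∀ (d a b : ℕ) (u v l : Poly) (p q : ℕ → Poly) (z : Fin 2 → ℂ), 1 ≤ d →
  1 ≤ a + b →
  (∀ j, (p j).IsHomogeneous (d - 1 - j * (a + b)) ∧ (q j).IsHomogeneous (d - 1 - j * (a + b))) →
  eval z l ≠ 0 →
  (eval z (∑ j ∈ Finset.range ((d - 1) / (a + b) + 1), l ^ (b * j) * sub2 u v (p j)) ≠ 0 ∨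
    eval z (∑ j ∈ Finset.range ((d - 1) / (a + b) + 1), l ^ (b * j) * sub2 u v (q j)) ≠ 0) →
  eval z (rrF d a b u v l p q).1 = 0 → eval z (rrF d a b u v l p q).2 = 0 →
  eval z (jac (rrF d a b u v l p q)) ≠ 0 → IsCenter (rrF d a b u v l p q) z

end Pool.Agent.MP_05b4bd_ag.RV
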