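import Pool.Agent.MP_05b4bd_ag.rr.Bas

/-! Elementary facts on radial symmetries. -/

namespace Pool.Agent.MP_05b4bd_ag.RV

open MvPolynomial HC
open ES.U (TM Cr hom)
open UM.Tor4

namespace Adm

variable {k : Type} [Field k] [CharZero k] {d : ℕ} {f : R2 k}

theorem centre (ζ e : k) (c : Fin 2 → k) (h1 : ζ ≠ 1) (h : hom ζ c f = C (ζ ^ d) * f + C e) :
    ∃ p : Fin 2 → k, hom ζ 0 (tr p f - C (eval p f)) = C (ζ ^ d) * (tr p f - C (eval p f)) := by
  have h2 : 1 - ζ ≠ 0 := sub_ne_zero.2 h1.symm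
  obtain ⟨p, hp⟩ : ∃ p : Fin 2 → k, ∀ i, ζ * p i + c i = p i :=
    ⟨fun i => c i / (1 - ζ), fun i => by field_simp; ring⟩
  have h3 : ∀ x : Fin 2 → k, eval ((fun j => ζ * x j + (0 : Fin 2 → k) j) + p) f =
      ζ ^ d * eval (x + p) f + e := fun x => by
    have := congrArg (eval (x + p)) h
    rw [eval_hom, map_add, map_mul, eval_C, eval_C] at this
    rw [← this]
    congr 2
    funext j
    simp only [Pi.add_apply, Pi.zero_apply]
    linear_combination -hp j
  have h4 := h3 0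
  have h5 : ((fun j => ζ * (0 : Fin 2 → k) j + (0 : Fin 2 → k) j) + p) = p := by
    funext j; simp
  rw [h5, zero_add] at h4
  refine ⟨p, MvPolynomial.funext fun x => ?_⟩
  rw [eval_hom, map_mul, map_sub, map_sub, eval_tr, eval_tr, eval_C, eval_C, eval_C, h3]
  linear_combination -h4

theorem uniq (hd : 3 ≤ d) (H : TM d f) (ζ e : k) (c : Fin 2 → k) (h0 : ζ ≠ 0)
    (h1 : hom ζ 0 f = C (ζ ^ d) * f) (h : hom ζ c f = C (ζ ^ d) * f + C e) : c = 0 ∧ e = 0 := by
  have h2 : tr c f = f + C e := MvPolynomial.funext fun y => by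
    have a := congrArg (eval fun j => y j / ζ) h
    have b := congrArg (eval fun j => y j / ζ) h1
    have e1 : (fun j => ζ * (y j / ζ) + c j) = y + c := funext fun j => by
      rw [mul_div_cancel₀ _ h0]; rfl
    have e2 : (fun j => ζ * (y j / ζ) + (0 : Fin 2 → k) j) = y := funext fun j => by
      rw [mul_div_cancel₀ _ h0]; exact add_zero _
    rw [eval_hom, map_add, ← b, eval_hom, e1, e2, eval_C] at a
    rw [eval_tr, a, map_add, eval_C]
  obtain ⟨n, p, hp⟩ := H.cr
  obtain ⟨i, -, -⟩ := two_crit hd H hp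
  have h3 : ∀ m : ℕ, ∀ j, eval (p i + (m : k) • c) (pderiv j f) = 0 := fun m j => by
    induction m with
    | zero => simpa using hp.crit i j
    | succ m ih =>
      have a := congrArg (fun u => eval (p i + (m : k) • c) (pderiv j u)) h2
      simp only [tr_pderiv, eval_tr, map_add, pderiv_C, map_zero, add_zero, ih] at a
      rwa [Nat.cast_succ, add_smul, one_smul, ← add_assoc]
  choose l hl using fun m => UM.cr_mem hp (h3 m)
  obtain ⟨a, b, h4, h5⟩ := Finite.exists_ne_map_eq_of_infinite l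
  have h6 : c = 0 := by
    have h7 := (hl a).trans ((congrArg p h5).trans (hl b).symm)
    rw [add_right_inj, ← sub_eq_zero, ← sub_smul, smul_eq_zero, sub_eq_zero, Nat.cast_inj] at h7
    exact h7.resolve_left h4
  refine ⟨h6, ?_⟩
  rw [h6, h1, left_eq_add] at h
  exact C_eq_zero.1 h

omit [CharZero k] in
theorem der {ζ a : k} {u : R2 k} (h0 : ζ ≠ 0) (h : hom ζ 0 u = C a * u) (i : Fin 2) :
    hom ζ 0 (pderiv i u) = C (a / ζ) * pderiv i u := by
  have e := congrArg (pderiv i) h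
  rw [pderiv_hom, pderiv_C_mul] at e
  refine mul_left_cancel₀ (C_eq_zero.not.2 h0) ?_
  rw [e, ← mul_assoc, ← C_mul, mul_div_cancel₀ _ h0]

omit [CharZero k] in
theorem at_zero {ζ a : k} {u : R2 k} (h : hom ζ 0 u = C a * u) (hu : eval 0 u ≠ 0) : a = 1 := by
  have e := congrArg (eval 0) h
  have e1 : (fun j => ζ * (0 : Fin 2 → k) j + (0 : Fin 2 → k) j) = 0 := funext fun j => by simp
  rw [eval_hom, e1, map_mul, eval_C] at e
  exact (mul_eq_right₀ hu).1 e.symm

theorem adm (hd : 3 ≤ d) (H : TM d f) {n : ℕ} (hn : 2 ≤ n) {ζ : k} (hζ : IsPrimitiveRoot ζ n)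
    (h : hom ζ 0 f = C (ζ ^ d) * f) : Adm d n := by
  have h0 : ζ ≠ 0 := hζ.ne_zero (by omega)
  obtain ⟨N, p, hp⟩ := H.cr
  refine ⟨hn, or_iff_not_imp_left.2 fun h1 => ?_⟩
  have h2 : ∀ j, eval 0 (pderiv j f) = 0 := fun j => by_contra fun a => h1
    ((hζ.pow_eq_one_iff_dvd _).1 (by
      rw [pow_sub₀ _ h0 (by omega), pow_one, ← div_eq_mul_inv]; exact at_zero (der h0 h j) a))
  have h3 : n ∣ d - 2 := by_contra fun a => by
    obtain ⟨i, hi⟩ := UM.cr_mem hp h2
    have b : ∀ j l, eval 0 (pderiv l (pderiv j f)) = 0 := fun j l => by_contra fun b => a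
      ((hζ.pow_eq_one_iff_dvd _).1 (by
        rw [pow_sub₀ _ h0 (by omega), ← div_eq_mul_inv, pow_two, ← div_div]
        exact at_zero (der h0 (der h0 h j) l) b))
    refine hp.hess i ?_
    rw [← hi, br, map_sub, map_mul, map_mul, b, b, zero_mul, b, zero_mul, sub_zero]
  refine ⟨h3, Nat.not_even_iff_odd.1 fun ⟨m, hm⟩ => ?_⟩
  have h4 : ζ ^ m = -1 := (hζ.pow (by omega) (b := 2) (by omega)).eq_neg_one_of_two_right
  have h5 : ∀ (r : ℕ) (x : Fin 2 → k), eval (ζ ^ r • x) f = (ζ ^ r) ^ d * eval x f := fun r x => by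
    induction r with
    | zero => simp
    | succ r ih =>
      have e := congrArg (eval (ζ ^ r • x)) h
      have e1 : (fun j => ζ * (ζ ^ r • x) j + (0 : Fin 2 → k) j) = ζ ^ (r + 1) • x :=
        funext fun j => by simp only [Pi.smul_apply, smul_eq_mul, Pi.zero_apply]; ring
      rw [eval_hom, e1, map_mul, eval_C, ih] at e
      rw [e]; ring
  have h6 : Even d := by
    obtain ⟨q, hq⟩ := h3
    exact ⟨m * q + 1, by rw [hm] at hq; have : d = (m + m) * q + 2 := (by omega); rw [this]; ring⟩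
  have h7 : ∀ x : Fin 2 → k, eval (fun j => -1 * x j + (0 : Fin 2 → k) j) f = eval x f := fun x => by
    have e := h5 m x
    rw [h4, h6.neg_one_pow, one_mul] at e
    rw [← e]
    congr 2
    funext j
    simp
  have h8 : hom (-1) 0 f = C 1 * f := MvPolynomial.funext fun x => by
    rw [eval_hom, h7, C_1, one_mul]
  have h9 : ∀ i, p i 0 = 0 := fun i => by
    obtain ⟨l, hl⟩ := UM.cr_mem hp (q := fun j => -1 * p i j + (0 : Fin 2 → k) j) fun j => by
      rw [← eval_hom, der (by simp) h8, map_mul, hp.crit, mul_zero]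
    obtain rfl : l = i := hp.inj (by beta_reduce; rw [← hl, h7])
    have e := congrFun hl 0
    simp only [Pi.zero_apply] at e
    linear_combination (-1 / 2 : k) * e
  obtain ⟨i, l, a⟩ := two_crit hd H hp
  exact a ((h9 i).trans (h9 l).symm)

end Adm

theorem admS : AdmStmt := by
  intro k _ _ d f hd H
  refine ⟨fun n hn ⟨K, _, j, ζ, e, c, hζ, h⟩ => ?_, Adm.centre, Adm.uniq hd H⟩
  have : CharZero K := charZero_of_injective_ringHom j.injective
  obtain ⟨p, hp⟩ := Adm.centre ζ e c (hζ.ne_one (by omega)) h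
  exact Adm.adm hd (tm_tr (H.map j) (by omega) p _) hn hζ hp

end Pool.Agent.MP_05b4bd_ag.RV
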