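import Pool.Agent.MP_05b4bd_ag.rr.Spec

/-! Small facts on translations, homotheties and critical points, shared by the blocks. -/

namespace Pool.Agent.MP_05b4bd_ag.RV

open MvPolynomial HC
open ES.U (TM Cr hom)
open UM.Tor4

variable {k : Type} [Field k]

theorem hom_one (c : Fin 2 → k) (u : R2 k) : hom 1 c u = tr c u := by
  simp [hom, tr]

theorem hc_tr (c : Fin 2 → k) {d : ℕ} {f : R2 k} (h : DL (d + 1) f) : hc d (tr c f) = hc d f := by
  have e := (top_hom 1 c h).hc_eq le_rfl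
  rwa [hom_one, one_pow, C_1, one_mul, hc_sub, sub_eq_zero] at e

theorem eval_tr (c x : Fin 2 → k) (u : R2 k) : eval x (tr c u) = eval (x + c) u := by
  rw [← hom_one, eval_hom]
  simp only [one_mul]
  rfl

theorem hom_hom {e : ℕ} {u : R2 k} (hu : u.IsHomogeneous e) (ζ : k) :
    hom ζ 0 u = C (ζ ^ e) * u := by
  have h := ES.k4_hom (C : k →+* R2 k) hu (C ζ) (X 0) (X 1)
  have e1 : (![X 0, X 1] : Fin 2 → R2 k) = X := funext fun i => by fin_cases i <;> rfl
  have e2 : (![C ζ * X 0, C ζ * X 1] : Fin 2 → R2 k) =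
      fun i => C ζ * X i + C ((0 : Fin 2 → k) i) := funext fun i => by fin_cases i <;> simp
  rw [e1, e2, eval₂_eta, ← map_pow] at h
  exact h

theorem hc_homz (ζ : k) (e : ℕ) (u : R2 k) : hc e (hom ζ 0 u) = C (ζ ^ e) * hc e u := by
  obtain ⟨n, hn⟩ := exists_DL u
  conv_lhs => rw [← Esc.sum_hc hn]
  conv_rhs => rw [← Esc.sum_hc hn]
  simp only [map_sum, Finset.mul_sum]
  refine Finset.sum_congr rfl fun j _ => ?_
  rw [hom_hom (hc_hom j u)]
  change hc e (C (ζ ^ j) * hc j u) = C (ζ ^ e) * hc e (hc j u)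
  rw [hc_C_mul]
  by_cases h : e = j
  · rw [h]
  · rw [hc_ne (hc_hom j u) h, mul_zero, mul_zero]

theorem map_hom {K : Type} [Field K] (j : k →+* K) (s : k) (c : Fin 2 → k) (u : R2 k) :
    map j (hom s c u) = hom (j s) (fun i => j (c i)) (map j u) := by
  induction u using MvPolynomial.induction_on with
  | C a => rw [UM.Tor4.hom_C, map_C, UM.Tor4.hom_C]
  | add a b ha hb => simp only [map_add, ha, hb]
  | mul_X a i ha => simp only [map_mul, ha, hom_X, map_add, map_C, map_X]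

theorem cr_tr {f : R2 k} {n : ℕ} {p : Fin n → Fin 2 → k} (H : Cr f p) (c : Fin 2 → k) (r : k) :
    Cr (tr c f - C r) fun i => p i - c := by
  have ev : ∀ i u, eval (p i - c) (tr c u) = eval (p i) u := fun i u => by
    rw [eval_tr, sub_add_cancel]
  have dd : ∀ j, pderiv j (tr c f - C r) = tr c (pderiv j f) := fun j => by
    rw [map_sub, pderiv_C, sub_zero, tr_pderiv]
  refine ⟨fun i j => by rw [dd, ev, H.crit], fun i => ?_, fun i l z => H.inj ?_, fun u hu => ?_⟩
  · have h := H.hess i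
    rw [← ev] at h
    simpa only [dd, br, tr_pderiv, map_sub, map_mul] using h
  · simpa only [map_sub, ev, eval_C, sub_left_inj] using z
  · obtain ⟨a, b, h⟩ := Ideal.mem_span_pair.1
      (H.rad (tr (-c) u) fun i => by rw [← ev, tr_tr', hu])
    exact Ideal.mem_span_pair.2 ⟨tr c a, tr c b, by
      rw [dd, dd, ← map_mul, ← map_mul, ← map_add, h, tr_tr']⟩

theorem hc_tr_sub (c : Fin 2 → k) (r : k) {d : ℕ} {f : R2 k} (hd : 1 ≤ d) (h : DL (d + 1) f) :
    hc d (tr c f - C r) = hc d f := by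
  rw [hc_sub, (DL_C _).hc_eq hd, sub_zero, hc_tr c h]

theorem tm_tr {d : ℕ} {f : R2 k} (H : TM d f) (hd : 1 ≤ d) (c : Fin 2 → k) (r : k) :
    TM d (tr c f - C r) := by
  obtain ⟨n, p, hp⟩ := H.cr
  exact ⟨(tr_DL c H.dl).sub ((DL_C _).mono (by omega)), by rw [hc_tr_sub c r hd H.dl]; exact H.ci,
    n, _, cr_tr hp c r⟩

/-- There are two different critical points. -/
theorem two_crit {d n : ℕ} {f : R2 k} {p : Fin n → Fin 2 → k} (hd : 3 ≤ d) (H : TM d f)
    (hp : Cr f p) : ∃ i l, p i 0 ≠ p l 0 := by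
  by_contra hn
  push Not at hn
  obtain ⟨a, ha⟩ : ∃ a, ∀ i, p i 0 = a := by
    rcases n with _ | n
    exacts [⟨0, fun i => i.elim0⟩, ⟨p 0 0, fun i => hn i 0⟩]
  have h := jac_low (by omega) H (hp.rad (X 0 - C a) fun i => by simp [ha])
    (((DL_X 0).mono (by omega)).sub ((DL_C a).mono (by omega)))
  simpa using congrArg (pderiv 0) h

theorem Gen.tm [CharZero k] {d : ℕ} {f : R2 k} (H : Gen d f) : TM d f := H.2.2.1

theorem Gen.map [CharZero k] {d : ℕ} {f : R2 k} (H : Gen d f) {K : Type} [Field K] [CharZero K]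
    (j : k →+* K) : Gen d (map j f) :=
  ⟨by rw [coeff_map, H.1, map_zero], H.2.1.map j, H.2.2.1.map j, trivial,
    by rw [hc_map, co_map]; exact (map_ne_zero j).2 H.2.2.2.2.1,
    by rw [hc_map, co_map]; exact (map_ne_zero j).2 H.2.2.2.2.2⟩

theorem Adm.le {d n : ℕ} (h : Adm d n) (hd : 3 ≤ d) : n ≤ d - 1 := by
  rcases h.2 with h | h
  · exact Nat.le_of_dvd (by omega) h
  · have := Nat.le_of_dvd (by omega) h.1
    omega

theorem Adm.cop {d n : ℕ} (h : Adm d n) (hd : 3 ≤ d) : n.Coprime d := by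
  obtain ⟨e, rfl⟩ : ∃ e, d = e + 2 := ⟨d - 2, by omega⟩
  rcases h.2 with h | h
  · exact Nat.Coprime.coprime_dvd_left h
      (Nat.coprime_self_add_right.2 (Nat.coprime_one_right (e + 1)))
  · obtain ⟨m, hm⟩ := h.1
    rw [Nat.add_sub_cancel] at hm
    rw [hm, add_comm, Nat.coprime_add_mul_left_right]
    exact Nat.coprime_two_right.2 h.2

end Pool.Agent.MP_05b4bd_ag.RV
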