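import Pool.Agent.MP_05b4bd_ag.rr.Bas
import Pool.Agent.MP_05b4bd_ag.esc.S2b

/-! Extension of the constants so that the first integral has no new constants. -/

namespace Pool.Agent.MP_05b4bd_ag.RV

open PowerSeries LaurentSeries HC
open ES hiding Gen Ob Inf
open ES.U (TM Cr hom)
open Pool.Agent.MP_05b4bd_ag.ES.Base

namespace Baser

variable {k k' L L' : Type} [Field k] [Field k'] [Field L] [Field L']
  {κ : k →+* L} {κ' : k' →+* L'} {jk : k →+* k'} {jl : L →+* L'} {D : L →+ L} {D' : L' →+ L'}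

theorem sq (h : ∀ c, jl (κ c) = κ' (jk c)) :
    ((C : L'⟦X⟧ →+* AA L').comp (map κ')).comp (map jk) =
      (map (map jl)).comp ((C : L⟦X⟧ →+* AA L).comp (map κ)) := by
  refine RingHom.ext fun c => ?_
  simp only [RingHom.comp_apply, map_C]
  congr 1
  ext n
  simp only [coeff_map, h]

theorem fa_map (h : ∀ c, jl (κ c) = κ' (jk c)) (d : ℕ) (P Q : R2 k⟦X⟧) (x y : AA L) :
    fa κ' d (MvPolynomial.map (map jk) P) (MvPolynomial.map (map jk) Q) (mA jl x) (mA jl y) =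
      mA jl (fa κ d P Q x y) := by
  rw [fa, fa, mA, map_aF, ← sq h]
  simp only [aF, hev_map]

theorem fb_map (h : ∀ c, jl (κ c) = κ' (jk c)) (hD : ∀ c, D' (jl c) = jl (D c)) (d : ℕ)
    (P Q : R2 k⟦X⟧) (x y : AA L) :
    fb κ' D' d (MvPolynomial.map (map jk) P) (MvPolynomial.map (map jk) Q) (mA jl x) (mA jl y) =
      mA jl (fb κ D d P Q x y) := by
  have e := map_bF (d := d) ((C : L⟦X⟧ →+* AA L).comp (map κ)) (map jl) (D := cw D) (D' := cw D')
    (θ := 1) (fun c => by rw [cw_map' hD, one_mul]) P Q x y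
  rw [map_one, one_mul, ← sq h] at e
  rw [fb, fb, mA, e]
  simp only [bF, hev_map]

theorem frm_map {d : ℕ} {f : R2 k} {x y : AA L} (F : Frm κ D d f x y) (hD : DExt D D' jl)
    (h0 : ∀ c, D' (κ' c) = 0) (h : ∀ c, jl (κ c) = κ' (jk c))
    (hg : gf κ' (jl (c00 x)) (jl (c00 y)) = ⊤) :
    Frm κ' D' d (MvPolynomial.map jk f) (mA jl x) (mA jl y) := by
  obtain ⟨-, -, c1, c2, c3⟩ := F.cv
  refine ⟨⟨hD.1, h0, ?_, ?_, ?_⟩, hg, ?_⟩
  · rw [hc_map]
    exact (evp_map jl h (c00 x) (c00 y) _).trans (by rw [c1, map_one])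
  · rw [hc_map, MvPolynomial.pderiv_map]
    exact (hD.2 (c00 x)).trans (by rw [c2]; exact (evp_map jl h _ _ _).symm)
  · rw [hc_map, MvPolynomial.pderiv_map]
    exact (hD.2 (c00 y)).trans
      (by rw [c3, map_neg]; exact congrArg _ (evp_map jl h _ _ _).symm)
  · have e := congrArg (map jl) F.pu
    have s : ((C : L' →+* L'⟦X⟧).comp κ').comp jk =
        (map jl).comp ((C : L →+* L⟦X⟧).comp κ) :=
      RingHom.ext fun c => by simp only [RingHom.comp_apply, map_C, h]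
    rw [map_hev, map_one, map_X] at e
    rw [red_mA, red_mA, hev_map, s, e]

theorem hasFI_pull {a b : AA L} {m : ℕ} (hD : DExt D D' jl)
    (H : HasFI D' (mA jl a) (mA jl b) m) : HasFI D a b m := by
  obtain ⟨U, _, D1, i, r, e1, e2, e3, e4⟩ := H
  rw [mA_mA, mA_mA] at e3
  exact ⟨U, inferInstance, D1, i.comp jl, r,
    ⟨e1.1, fun c => (e1.2 (jl c)).trans (congrArg i (hD.2 c))⟩, e2, e3, e4⟩

theorem exists_hasFI {a b : AA L} (H : ¬ NoFI D a b) : ¬ a ∣ X * b ∧ ∃ m, HasFI D a b m := by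
  by_contra hc
  refine H fun nd U _ D1 i r hD hr h0 hf => hc ⟨nd, ?_⟩
  obtain ⟨n, r', rfl, h1⟩ := exists_tfac hr
  obtain ⟨ν, hν⟩ := exists_ordIs h1
  exact ⟨ν, U, inferInstance, D1, i, r', hD, S1a.cc_strip h0, S1a.fi_strip hD.1 hf, hν⟩

end Baser

open Baser in
theorem baserS (h1 : ES.DerAlgStmt) (h2 : ObsStmt) : BaserStmt := by
  classical
  intro k L _ _ _ d o κ D x y hd F H
  obtain ⟨nd, hex⟩ := exists_hasFI H
  obtain ⟨U, _, D1, i, r, hD, r0, rf, ro⟩ := Nat.find_spec hex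
  have : CharZero U := charZero_of_injective_ringHom (i.comp κ).injective
  let k' := AlgebraicClosure U
  let g : U →+* k' := algebraMap U k'
  have : CharZero k' := charZero_of_injective_ringHom g.injective
  have : CharZero k'⸨X⸩ := charZero_of_injective_ringHom (cL_inj (R := k'))
  obtain ⟨τ, t0, t1, -⟩ := exists_tayl hD.1 g
  let j : U →+* k'⸨X⸩ := (coeL k').comp τ
  have hj : ∀ c, dL k' (j c) = j (D1 c) := fun c => by
    simp only [j, RingHom.comp_apply, dL_coeL, t1]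
  let jk : k →+* k' := g.comp (i.comp κ)
  have hk : ∀ c, j (i (κ c)) = cL k' (jk c) := fun c => by
    have e : dX k' (τ (i (κ c))) = 0 := by rw [t1, hD.2, F.cv.2.1, map_zero, map_zero]
    simp only [j, jk, RingHom.comp_apply]
    rw [eq_C_of_dX e, t0, coeL_C]
  let N : Subfield k'⸨X⸩ := gf (cL k') (j (i (c00 x))) (j (i (c00 y)))
  have n0 : ∀ c, cL k' c ∈ N := fun c => Subfield.subset_closure (Or.inl ⟨c, rfl⟩)
  have n1 : ∀ c, (j.comp i) c ∈ N :=
    gf_mem F.gb (j.comp i) (fun c => by rw [RingHom.comp_apply, hk]; exact n0 _)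
      (Subfield.subset_closure (Or.inr (Or.inl rfl)))
      (Subfield.subset_closure (Or.inr (Or.inr rfl)))
  have d0 : ∀ c, dL k' (cL k' c) = 0 := fun c => by rw [dL_apply, thL_cL, mul_zero]
  have n2 : ∀ z ∈ N, dL k' z ∈ N := by
    refine (h1 k'⸨X⸩ N).2.2.2.2.2 (dL k') isDer_dL _ ?_
    have n3 : ∀ c, j (i c) ∈ N ∧ dL k' (j (i c)) ∈ N := fun c =>
      ⟨n1 c, by rw [hj, hD.2]; exact n1 _⟩
    rintro z (⟨c, rfl⟩ | rfl | rfl)
    exacts [⟨n0 c, by rw [d0]; exact N.zero_mem⟩, n3 _, n3 _]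
  let D' : N →+ N :=
    { toFun := fun z => ⟨dL k' z, n2 z z.2⟩
      map_zero' := Subtype.ext (map_zero (dL k'))
      map_add' := fun a b => Subtype.ext (map_add (dL k') a.1 b.1) }
  let κ' : k' →+* N := (cL k').codRestrict N n0
  let jl : L →+* N := (j.comp i).codRestrict N n1
  have hD' : DExt D D' jl :=
    ⟨fun a b => Subtype.ext (isDer_dL a.1 b.1),
      fun c => Subtype.ext ((hj (i c)).trans (congrArg j (hD.2 c)))⟩
  have hs : ∀ c, jl (κ c) = κ' (jk c) := fun c => Subtype.ext (hk c)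
  obtain ⟨o', e1, e2, e3⟩ := (h2 k d o hd).2.2.2 k' jk
  have ro' : OrdIs (Nat.find hex) (red (mA j r)) := by rwa [red_mA, S1a.ord_map]
  obtain ⟨α, hα⟩ := exists_ordIs (f := mA j r) fun c => ro'.1 (by rw [c, map_zero, map_zero])
  refine ⟨k', N, inferInstance, inferInstance, inferInstance, inferInstance, jk, o', κ', D',
    mA jl x, mA jl y, Nat.find hex, α, e1, e2, e3, ?_, ?_⟩
  · rw [e3]
    exact frm_map F hD' (fun c => Subtype.ext (d0 c)) hs
      (gf_top _ _ _ κ' _ _ (fun _ => rfl) rfl rfl)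
  · rw [e1, e2, fa_map hs, fb_map hs hD'.2]
    refine ⟨fun c => nd ((nd_map jl).1 c), fun m hm c => Nat.find_min hex hm (hasFI_pull hD' c),
      k'⸨X⸩, inferInstance, dL k', N.subtype, mA j r, ⟨isDer_dL, fun _ => rfl⟩,
      fun c hc => const_dL hc, S1a.cc_mA j r0, ?_, ro', hα⟩
    rw [mA_mA, mA_mA]
    exact S1a.fi_push ⟨isDer_dL, hj⟩ (fun _ => rfl) rf

end Pool.Agent.MP_05b4bd_ag.RV
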