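import Pool.Agent.MP_05b4bd_ag.rr.Spec4
import Mathlib.Analysis.Calculus.FDeriv.Analytic

/-! An analytic first integral at a reduced singular point gives a centre. -/

namespace Pool.Agent.MP_05b4bd_ag.RV

open MvPolynomial HC Topology

namespace Cena

/-- Division of an analytic function by the displacement. -/
theorem hadamard {E F : Type} [NormedAddCommGroup E] [NormedSpace ℂ E] [NormedAddCommGroup F]
    [NormedSpace ℂ F] [CompleteSpace F] {H : E → F} {p : E} (h : AnalyticAt ℂ H p) :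
    ∃ G : E → E →L[ℂ] F, AnalyticAt ℂ G p ∧ ∀ᶠ z in 𝓝 p, H z = H p + G z (z - p) := by
  obtain ⟨s, r, hs⟩ := h
  have h0 : 0 < s.shift.radius := by
    rw [FormalMultilinearSeries.radius_shift]
    exact hs.r_pos.trans_le hs.r_le
  have h1 := (s.shift.hasFPowerSeriesOnBall h0).comp_sub p
  rw [zero_add] at h1
  have h2 := h1.unshift (z := H p)
  have e : s.shift.unshift (H p) = s := by
    funext n
    rcases n with _ | n
    · ext v
      rw [hs.coeff_zero v]
      rfl
    · exact (continuousMultilinearCurryRightEquiv' ℂ n E F).symm_apply_apply (s (n + 1))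
  rw [e] at h2
  refine ⟨_, h1.analyticAt, ?_⟩
  filter_upwards [hs.eventually_hasSum_sub, h2.eventually_hasSum_sub] with z z1 z2
  exact z1.unique z2

theorem ana_app {G : (Fin 2 → ℂ) → (Fin 2 → ℂ) →L[ℂ] ℂ} {p : Fin 2 → ℂ} (h : AnalyticAt ℂ G p)
    (v : Fin 2 → ℂ) : AnalyticAt ℂ (fun z => G z v) p :=
  ((ContinuousLinearMap.apply ℂ ℂ v).analyticAt (G p)).comp h

theorem has_mul {g : (Fin 2 → ℂ) → ℂ} {z : Fin 2 → ℂ} (hg : AnalyticAt ℂ g z) (c : ℂ) (i : Fin 2) :
    HasFDerivAt (fun w => g w * (w i - c))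
      (g z • ContinuousLinearMap.proj (R := ℂ) (φ := fun _ : Fin 2 => ℂ) i +
        (z i - c) • fderiv ℂ g z) z :=
  hg.differentiableAt.hasFDerivAt.mul ((hasFDerivAt_apply i z).sub_const c)

/-- The first order expansion in two variables. -/
theorem had2 {H : (Fin 2 → ℂ) → ℂ} {p : Fin 2 → ℂ} (h : AnalyticAt ℂ H p) :
    ∃ A B : (Fin 2 → ℂ) → ℂ, AnalyticAt ℂ A p ∧ AnalyticAt ℂ B p ∧
      (∀ᶠ z in 𝓝 p, H z = H p + (A z * (z 0 - p 0) + B z * (z 1 - p 1))) ∧
      ∀ᶠ z in 𝓝 p, ∀ v, fderiv ℂ H z v = A z * v 0 + B z * v 1 +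
        (fderiv ℂ A z v * (z 0 - p 0) + fderiv ℂ B z v * (z 1 - p 1)) := by
  obtain ⟨G, hG, e⟩ := hadamard h
  have hA := ana_app hG ![1, 0]
  have hB := ana_app hG ![0, 1]
  have e1 : H =ᶠ[𝓝 p] fun z => H p + (G z ![1, 0] * (z 0 - p 0) + G z ![0, 1] * (z 1 - p 1)) := by
    filter_upwards [e] with z hz
    have e2 : z - p = (z 0 - p 0) • ![(1 : ℂ), 0] + (z 1 - p 1) • ![(0 : ℂ), 1] := by
      funext i
      fin_cases i <;> simp
    rw [hz]
    conv_lhs => rw [e2, map_add, map_smul, map_smul, smul_eq_mul, smul_eq_mul]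
    ring
  refine ⟨_, _, hA, hB, e1, ?_⟩
  filter_upwards [e1.fderiv (𝕜 := ℂ), hA.eventually_analyticAt, hB.eventually_analyticAt]
    with z hz a1 b1 v
  have d := (((has_mul a1 (p 0) 0).add (has_mul b1 (p 1) 1)).const_add (H p)).fderiv
  rw [hz]
  refine (congrArg (fun l => l v) d).trans ?_
  simp only [_root_.add_apply, _root_.smul_apply,
    ContinuousLinearMap.proj_apply, smul_eq_mul]
  ring

end Cena

open Cena in
theorem cenaS : CenaStmt := by
  intro ω p H ν hH hν h0 he h1 h2 hj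
  refine ⟨h1, h2, hj, ?_⟩
  obtain ⟨A, B, hA, hB, e1, d1⟩ := had2 hH
  obtain ⟨A0, A1, hA0, hA1, ea, da⟩ := had2 hA
  obtain ⟨B0, B1, hB0, hB1, eb, db⟩ := had2 hB
  have da' := da.self_of_nhds
  have db' := db.self_of_nhds
  simp only [sub_self, mul_zero, add_zero] at da' db'
  have z0 : ∀ v : Fin 2 → ℂ, A p * v 0 + B p * v 1 = 0 := fun v => by
    have w := d1.self_of_nhds v
    rw [he.self_of_nhds v, h1, h2] at w
    simp only [sub_self, mul_zero, add_zero, zero_mul] at w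
    exact w.symm
  have a0 : A p = 0 := by simpa using z0 ![1, 0]
  have b0 : B p = 0 := by simpa using z0 ![0, 1]
  have key : ∀ v w : Fin 2 → ℂ, (A0 p * w 0 + A1 p * w 1) * v 0 + (B0 p * w 0 + B1 p * w 1) * v 1 +
      ((A0 p * v 0 + A1 p * v 1) * w 0 + (B0 p * v 0 + B1 p * v 1) * w 1) =
      ν p * ((eval p (pderiv 0 ω.1) * w 0 + eval p (pderiv 1 ω.1) * w 1) * v 1 -
        (eval p (pderiv 0 ω.2) * w 0 + eval p (pderiv 1 ω.2) * w 1) * v 0) := fun v w => by
    have l1 := ((hA.differentiableAt.hasFDerivAt.mul_const (v 0)).add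
      (hB.differentiableAt.hasFDerivAt.mul_const (v 1))).add
      ((hasFDerivAt_mul_coord (ana_app hA.fderiv v) 0).add
        (hasFDerivAt_mul_coord (ana_app hB.fderiv v) 1))
    have l2 := hν.differentiableAt.hasFDerivAt.mul
      (((hasFDerivAt_eval ω.1 p).mul_const (v 1)).sub ((hasFDerivAt_eval ω.2 p).mul_const (v 0)))
    have l3 := l1.unique (l2.congr_of_eventuallyEq (by
      filter_upwards [he, d1] with z z1 z2
      exact (z2 v).symm.trans (z1 v)))
    have l4 := congrArg (fun l => l w) l3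
    simp only [_root_.add_apply, _root_.smul_apply,
      _root_.sub_apply, ContinuousLinearMap.proj_apply, smul_eq_mul, da', db',
      Pi.sub_apply, h1, h2] at l4
    linear_combination l4
  have k00 := key ![1, 0] ![1, 0]
  have k01 := key ![1, 0] ![0, 1]
  have k10 := key ![0, 1] ![1, 0]
  have k11 := key ![0, 1] ![0, 1]
  simp only [Matrix.cons_val_zero, Matrix.cons_val_one] at k00 k01 k10 k11
  obtain ⟨φ, hφa, hφ0, hφb, hφ⟩ := morse_lemma (a := A0) (b := fun z => A1 z + B0 z) (c := B1)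
    hA0 (hA1.add hB0) hB1 (fun z => mul_ne_zero (pow_ne_zero 2 h0) hj (by
      simp only [jac, map_sub, map_mul]
      linear_combination (-1) * z + (A1 p + B0 p) * k10 + (ν p * eval p (pderiv 0 ω.1)) * k01 -
        2 * B1 p * k00 + (ν p * eval p (pderiv 0 ω.2)) * k11))
  refine ⟨φ, hφa, hφ0, hφb, ?_⟩
  have hE : (fun w => φ w 0 ^ 2 + φ w 1 ^ 2) =ᶠ[𝓝 p] fun z => H z - H p := by
    filter_upwards [hφ, e1, ea, eb] with z z1 z2 z3 z4
    rw [z1, z2, z3, z4, a0, b0]
    ring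
  filter_upwards [hE.fderiv (𝕜 := ℂ), he] with z z1 z2
  rw [z1, fderiv_sub_const, z2]
  simp only [Matrix.cons_val_zero, Matrix.cons_val_one]
  ring

end Pool.Agent.MP_05b4bd_ag.RV
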