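import Pool.Agent.MP_05b4bd_ag.rr.Spec4
import Mathlib.Analysis.SpecialFunctions.Complex.Analytic

/-! Singular points over regular points of the symmetric form are centres. -/

namespace Pool.Agent.MP_05b4bd_ag.RV

open MvPolynomial HC Topology
open PC3 (Fm fm d1 DF sub2 pb mapF Van)

namespace Cenr

/-- A local branch of `l ^ (-b / n)`. -/
theorem exists_kap (l : Poly) (z : Fin 2 → ℂ) (hl : eval z l ≠ 0) {n : ℕ} (hn : 1 ≤ n) (b : ℕ) :
    ∃ κ : (Fin 2 → ℂ) → ℂ, AnalyticAt ℂ κ z ∧ ∀ᶠ w in 𝓝 z, eval w l ≠ 0 ∧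
      κ w ^ n * eval w l ^ b = 1 ∧ ∃ κ' : (Fin 2 → ℂ) →L[ℂ] ℂ, HasFDerivAt κ κ' w ∧ ∀ t,
        n * eval w l * κ' t =
          -(b * κ w * (eval w (pderiv 0 l) * t 0 + eval w (pderiv 1 l) * t 1)) := by
  have n0 : (n : ℂ) ≠ 0 := Nat.cast_ne_zero.2 (by omega)
  have s1 : eval z l * (eval z l)⁻¹ ∈ Complex.slitPlane := by
    rw [mul_inv_cancel₀ hl]
    exact Complex.one_mem_slitPlane
  have a1 : AnalyticAt ℂ (fun w : Fin 2 → ℂ => eval w l * (eval z l)⁻¹) z :=
    (analyticAt_eval l z).mul analyticAt_const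
  refine ⟨fun w => Complex.exp (-(b / n) * (Complex.log (eval z l) +
    Complex.log (eval w l * (eval z l)⁻¹))),
    (analyticAt_const.mul (analyticAt_const.add (a1.clog s1))).cexp, ?_⟩
  filter_upwards [a1.continuousAt.eventually (Complex.isOpen_slitPlane.mem_nhds s1)] with w hw
  have w0 := Complex.slitPlane_ne_zero hw
  have w1 := left_ne_zero_of_mul w0
  refine ⟨w1, ?_, _, ((((hasFDerivAt_eval l w).mul_const _).clog hw).const_add _
    |>.const_mul _).cexp, fun t => ?_⟩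
  · have e : eval w l = Complex.exp (Complex.log (eval z l) +
        Complex.log (eval w l * (eval z l)⁻¹)) := by
      rw [Complex.exp_add, Complex.exp_log hl, Complex.exp_log w0]
      field_simp
    generalize Complex.log (eval z l) + Complex.log (eval w l * (eval z l)⁻¹) = y at e
    rw [e, ← Complex.exp_nat_mul, ← Complex.exp_nat_mul, ← Complex.exp_add, ← Complex.exp_zero]
    congr 1
    field_simp
    ring
  · simp only [ContinuousLinearMap.smul_apply, ContinuousLinearMap.add_apply,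
      ContinuousLinearMap.proj_apply, smul_eq_mul]
    field_simp

theorem eval_sub2 (w : Fin 2 → ℂ) (u v r : Poly) :
    eval w (sub2 u v r) = eval₂ (RingHom.id ℂ) ![eval w u, eval w v] r := by
  induction r using MvPolynomial.induction_on with
  | C c => simp [sub2]
  | add r s hr hs => rw [map_add, map_add, hr, hs, eval₂_add]
  | mul_X r i hr =>
    rw [map_mul, map_mul, hr, eval₂_mul, eval₂_X]
    fin_cases i <;> simp [sub2]

theorem eval_sum {d n b : ℕ} {r : ℕ → Poly} (hr : ∀ j, (r j).IsHomogeneous (d - 1 - j * n))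
    (u v l : Poly) (w : Fin 2 → ℂ) {κ : ℂ} (hκ : κ ^ n * eval w l ^ b = 1) :
    eval (fun i => κ * eval w (![u, v] i)) (∑ j ∈ Finset.range ((d - 1) / n + 1), r j) =
      κ ^ (d - 1) * eval w (∑ j ∈ Finset.range ((d - 1) / n + 1), l ^ (b * j) * sub2 u v (r j)) := by
  have e : (fun i => κ * eval w (![u, v] i)) = ![κ * eval w u, κ * eval w v] :=
    funext fun i => by fin_cases i <;> rfl
  rw [e, map_sum, map_sum, Finset.mul_sum]
  refine Finset.sum_congr rfl fun j hj => ?_
  have h1 : j * n ≤ d - 1 :=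
    (Nat.mul_le_mul_right n (Nat.le_of_lt_succ (Finset.mem_range.1 hj))).trans
      (Nat.div_mul_le_self _ _)
  have h2 : κ ^ (d - 1) = κ ^ (d - 1 - j * n) * (κ ^ n) ^ j := by
    rw [← pow_mul, ← pow_add, mul_comm n, Nat.sub_add_cancel h1]
  have h3 := congrArg (· ^ j) hκ
  simp only [mul_pow, one_pow] at h3
  rw [← eval₂_id, ES.k4_hom _ (hr j), map_mul, map_pow, eval_sub2, h2, pow_mul]
  linear_combination -(κ ^ (d - 1 - j * n) * eval₂ (RingHom.id ℂ) ![eval w u, eval w v] (r j) * h3)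

theorem rr_eq (d a b : ℕ) (u v l : Poly) (p q : ℕ → Poly) {A B : Poly}
    (hA : A = ∑ j ∈ Finset.range ((d - 1) / (a + b) + 1), l ^ (b * j) * sub2 u v (p j))
    (hB : B = ∑ j ∈ Finset.range ((d - 1) / (a + b) + 1), l ^ (b * j) * sub2 u v (q j)) :
    (rrF d a b u v l p q).1 = (a + b : ℕ) * l * (A * pderiv 1 u + B * pderiv 1 v) -
      b * (u * A + v * B) * pderiv 1 l ∧
    (rrF d a b u v l p q).2 = -((a + b : ℕ) * l * (A * pderiv 0 u + B * pderiv 0 v) -
      b * (u * A + v * B) * pderiv 0 l) := by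
  subst hA hB
  rw [rrF, Prod.fst_sum, Prod.snd_sum]
  simp only [Finset.mul_sum, Finset.sum_mul, ← Finset.sum_add_distrib, ← Finset.sum_sub_distrib,
    ← Finset.sum_neg_distrib]
  refine ⟨Finset.sum_congr rfl fun j _ => ?_, Finset.sum_congr rfl fun j _ => ?_⟩
  · simp only [fm, Prod.smul_fst, Prod.fst_sub, Prod.fst_add, smul_eq_mul]
    ring
  · simp only [fm, Prod.smul_snd, Prod.snd_sub, Prod.snd_add, smul_eq_mul]
    ring

end Cenr

open Cenr in
theorem cenrS (h1 : FlowaStmt) (h2 : CenaStmt) : CenrStmt := by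
  intro d a b u v l p q z hd hn hom hl reg e1 e2 e3
  obtain ⟨κ, aκ, hκ⟩ := exists_kap l z hl hn b
  have n0 : ((a + b : ℕ) : ℂ) ≠ 0 := Nat.cast_ne_zero.2 (by omega)
  obtain ⟨-, k1, -⟩ := hκ.self_of_nhds
  have k0 : κ z ≠ 0 := fun c => by
    rw [c, zero_pow (by omega), zero_mul] at k1
    exact zero_ne_one k1
  have aΨ : AnalyticAt ℂ (fun w i => κ w * eval w (![u, v] i)) z :=
    analyticAt_pi_iff.2 fun i => aκ.mul (analyticAt_eval _ z)
  obtain ⟨I, ν, aI, aν, ν0, hI⟩ := h1 (∑ j ∈ Finset.range ((d - 1) / (a + b) + 1), q j)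
    (-∑ j ∈ Finset.range ((d - 1) / (a + b) + 1), p j) (fun i => κ z * eval z (![u, v] i)) (by
      rw [map_neg, eval_sum (fun j => (hom j).1) u v l z k1,
        eval_sum (fun j => (hom j).2) u v l z k1, neg_ne_zero]
      exact reg.symm.imp (mul_ne_zero (pow_ne_zero _ k0)) (mul_ne_zero (pow_ne_zero _ k0)))
  refine h2 _ z (fun w => I fun i => κ w * eval w (![u, v] i))
    (fun w => (ν fun i => κ w * eval w (![u, v] i)) * κ w ^ d / ((a + b : ℕ) * eval w l))
    (aI.comp_of_eq aΨ rfl) ((((aν.comp_of_eq aΨ rfl)).mul (aκ.pow d)).div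
      (analyticAt_const.mul (analyticAt_eval l z)) (mul_ne_zero n0 hl))
    (div_ne_zero (mul_ne_zero ν0 (pow_ne_zero _ k0)) (mul_ne_zero n0 hl)) ?_ e1 e2 e3
  filter_upwards [hκ, aΨ.continuousAt.eventually hI,
    aΨ.continuousAt.eventually aI.eventually_analyticAt] with w ⟨w0, w1, κ', dκ, w2⟩ w3 w4 t
  have dΨ := hasFDerivAt_pi.2 fun i => dκ.mul (hasFDerivAt_eval (![u, v] i) w)
  have dH := (w4.differentiableAt.hasFDerivAt.comp w dΨ).fderiv
  obtain ⟨r1, r2⟩ := rr_eq d a b u v l p q rfl rfl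
  have hp : κ w ^ d = κ w ^ (d - 1) * κ w := by rw [← pow_succ, Nat.sub_add_cancel hd]
  refine (DFunLike.congr_fun dH t).trans ?_
  rw [ContinuousLinearMap.comp_apply, w3, map_neg, eval_sum (fun j => (hom j).1) u v l w w1,
    eval_sum (fun j => (hom j).2) u v l w w1, r1, r2, hp, div_mul_eq_mul_div,
    eq_div_iff (mul_ne_zero n0 w0)]
  generalize (∑ j ∈ Finset.range ((d - 1) / (a + b) + 1), l ^ (b * j) * sub2 u v (p j)) = A
  generalize (∑ j ∈ Finset.range ((d - 1) / (a + b) + 1), l ^ (b * j) * sub2 u v (q j)) = B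
  simp only [ContinuousLinearMap.pi_apply, ContinuousLinearMap.smul_apply,
    ContinuousLinearMap.add_apply, ContinuousLinearMap.proj_apply, smul_eq_mul, map_mul, map_sub,
    map_add, map_neg, map_natCast, Matrix.cons_val_zero, Matrix.cons_val_one]
  linear_combination (ν fun i => κ w * eval w (![u, v] i)) * κ w ^ (d - 1) *
    (eval w u * eval w A + eval w v * eval w B) * w2 t

end Pool.Agent.MP_05b4bd_ag.RV
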