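import Pool.Agent.MP_05b4bd_ag.rr.Spec2

/-! Row CHGA: the Taylor change of the chart at infinity. -/

set_option autoImplicit false

namespace Pool.Agent.MP_05b4bd_ag.RV

open PowerSeries LaurentSeries HC
open ES hiding Gen Ob Inf
open ES.U (TM Cr hom)
open PC3 (Fm fm d1 DF sub2 pb mapF Van CenK iS)

namespace Chga

variable {L : Type} [Field L] {D : L →+ L} {τ : L →+* L⟦X⟧} {η υ : AA L}

theorem mem {c : AA L} : c ∈ up (up (⊥ : Ideal L)) ↔ c00 c = 0 := by
  rw [mem_up2, Ideal.mem_bot]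

theorem mX : (C X : AA L) ∈ up (up (⊥ : Ideal L)) := by simp [mem, c00_apply]

theorem mW : (X : AA L) ∈ up (up (⊥ : Ideal L)) := by simp [mem, c00_apply]

theorem mWu (υ : AA L) : X * υ ∈ up (up (⊥ : Ideal L)) := Ideal.mul_mem_right _ _ mW

theorem th_CC (r : L) : thC τ η υ (CC r) = ES.ev CC η (τ r) := ev2_CC _ mX (mWu υ) r

theorem th_CX : thC τ η υ (C X) = C X := ev2_CX _ mX (mWu υ)

theorem th_X : thC τ η υ X = X * υ := ev2_X _ (mWu υ)

theorem mT : thC τ η υ (C X) ∈ up (up (⊥ : Ideal L)) := by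
  rw [th_CX]
  exact mX

theorem mT' : thC τ η υ X ∈ up (up (⊥ : Ideal L)) := by
  rw [th_X]
  exact mWu υ

theorem tay_cw [CharZero L] (h : IsTay D τ) (c : L) : cw D (τ c) = τ (D c) := by
  refine sub_eq_zero.1 (K3.ode (fun c => cw D (τ c) - τ (D c)) (fun c => ?_) (fun n ih c => ?_) c)
  · rw [map_sub, cc_cw, h.1, h.1, sub_self]
  · rw [map_sub, dX_cw, h.2, h.2]
    exact ih (D c)

theorem tay_map {U : Type} [Field U] [CharZero U] {D1 : U →+ U} {τ' : U →+* U⟦X⟧} {i : L →+* U}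
    (h : IsTay D τ) (h' : IsTay D1 τ') (e : ∀ c, D1 (i c) = i (D c)) (c : L) :
    map i (τ c) = τ' (i c) := by
  refine sub_eq_zero.1 (K3.ode (fun c => map i (τ c) - τ' (i c)) (fun c => ?_) (fun n ih c => ?_) c)
  · rw [map_sub, K3.cc_map, h.1, h'.1, sub_self]
  · rw [map_sub, dX_map, h.2, h'.2, e]
    exact ih (D c)

theorem c00_ev (h0 : c00 η = 0) (f : L⟦X⟧) : c00 (ES.ev CC η f) = cc f := by
  obtain ⟨r, e⟩ := ev_sub_cc _ (φ := CC) (mem.2 h0) f
  rw [sub_eq_iff_eq_add.1 e, map_add, map_mul, h0, zero_mul, zero_add, CC_apply, c00_apply]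
  simp

theorem c0 (h : IsTay D τ) (h0 : c00 η = 0) (u : AA L) : c00 (thC τ η υ u) = c00 u := by
  obtain ⟨r, r', e⟩ := ev2_sub_c00 _ (φ := (ES.ev CC η).comp τ) mX (mWu υ) u
  rw [thC, e, map_add, map_add, map_mul, map_mul, mem.1 mX, mem.1 (mWu υ), RingHom.comp_apply,
    c00_ev h0, h.1]
  simp

theorem fixc [CharZero L] (h : IsTay D τ) (h0 : c00 η = 0) (c : L⟦X⟧) (hc : cw D c = 0) :
    thC τ η υ (C c) = C c := by
  have k : ∀ (n : ℕ) (c : L⟦X⟧), cw D c = 0 →
      thC τ η υ (C c) - C c ∈ up (up (⊥ : Ideal L)) ^ n := by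
    intro n
    induction n with
    | zero => simp
    | succ n ih =>
      intro c hc
      have hk : ∀ p, D (coeff p c) = 0 := fun p => by rw [← coeff_cw, hc, map_zero]
      have h1 : D (cc c) = 0 := by rw [← cc_cw, hc, map_zero]
      have h2 : τ (cc c) = C (cc c) := by
        have := eq_C_of_dX (f := τ (cc c)) (by rw [h.2, h1, map_zero])
        rwa [h.1] at this
      obtain ⟨g, hg, e⟩ : ∃ g, cw D g = 0 ∧ c = C (cc c) + X * g :=
        ⟨_, PowerSeries.ext fun p => by rw [coeff_cw, coeff_mk, hk, map_zero], K1b.split_X c⟩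
      have h3 : thC τ η υ (C (C (cc c))) = C (C (cc c)) := by
        rw [← CC_apply, th_CC, h2, ES.ev_C _ (mem.2 h0)]
      have h4 : (C c : AA L) = C (C (cc c)) + C X * C g := by rw [← map_mul, ← map_add, ← e]
      rw [h4, map_add, map_mul, h3, th_CX, add_sub_add_left_eq_sub, ← mul_sub, pow_succ']
      exact Ideal.mul_mem_mul mX (ih g hg)
  exact sub_eq_zero.1 (haus _ fun n => k n c hc)

theorem ds [CharZero L] (hD : IsDer D) (h : IsTay D τ) (h0 : c00 η = 0) (u : AA L) :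
    cw (cw D) (thC τ η υ u) = thC τ η υ (cw (cw D) u) * (1 + cw (cw D) η) +
      thC τ η υ (dX _ u) * (X * cw (cw D) υ) := by
  have hη := mem.2 h0
  have hδ := hD.coefw.coefw
  have e := hom_chain2 (up (up (⊥ : Ideal L))) (g := thC τ η υ) mT mT' hδ hD
    (a := 1 + cw (cw D) η) (fun r => ?_) u
  · rw [e, th_CX, th_X, cw_C, cw_X hD.one, hδ, cw_X hD.coefw.one, map_zero]
    ring
  · have e' := hom_chain (up (up (⊥ : Ideal L))) (g := ES.ev CC η) (by rwa [ES.ev_X _ hη]) hδ hD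
      (a := 1) (fun r => by rw [ES.ev_C _ hη, ES.ev_C _ hη, CC_apply, CC_apply, cw_C, cw_C, one_mul])
      (τ r)
    rw [th_CC, th_CC, e', tay_cw h, h.2, ES.ev_X _ hη]
    ring

theorem dw (hD : IsDer D) (h : IsTay D τ) (h0 : c00 η = 0) (u : AA L) :
    dX _ (thC τ η υ u) = thC τ η υ (cw (cw D) u) * dX _ η +
      thC τ η υ (dX _ u) * (υ + X * dX _ υ) := by
  have hη := mem.2 h0
  have hδ := isDer_dX (R := L⟦X⟧)
  have e := hom_chain2 (up (up (⊥ : Ideal L))) (g := thC τ η υ) mT mT' hδ hD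
    (a := dX _ η) (fun r => ?_) u
  · rw [e, th_CX, th_X, dX_C, hδ, dX_X]
    ring
  · have e' := hom_chain (up (up (⊥ : Ideal L))) (g := ES.ev CC η) (by rwa [ES.ev_X _ hη]) hδ hD
      (a := 0) (fun r => by rw [ES.ev_C _ hη, CC_apply, dX_C, zero_mul]) (τ r)
    rw [th_CC, th_CC, e', h.2, ES.ev_X _ hη]
    ring

theorem bij_of {S : Type} [CommRing S] (J : Ideal S) [IsAdicComplete J S] (Θ : S →+* S)
    (h1 : ∀ u, Θ u - u ∈ J) (h2 : ∀ u ∈ J, Θ u - u ∈ J ^ 2) : Function.Bijective Θ := by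
  have k : ∀ (n : ℕ), ∀ u ∈ J ^ n, Θ u - u ∈ J ^ (n + 1) := by
    intro n
    induction n with
    | zero => simpa using fun u => h1 u
    | succ n ih =>
      intro u hu
      rw [pow_succ] at hu
      refine Submodule.mul_induction_on hu (fun a ha b hb => ?_) (fun a b ha hb => ?_)
      · have e : Θ (a * b) - a * b = (Θ a - a) * Θ b + a * (Θ b - b) := by rw [map_mul]; ring
        have hb' : Θ b ∈ J := by simpa using J.add_mem (h1 b) hb
        rw [e]
        refine Ideal.add_mem _ ?_ ?_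
        · rw [pow_succ]
          exact Ideal.mul_mem_mul (ih a ha) hb'
        · rw [add_assoc, pow_add]
          exact Ideal.mul_mem_mul ha (h2 b hb)
      · have e : Θ (a + b) - (a + b) = (Θ a - a) + (Θ b - b) := by rw [map_add]; ring
        rw [e]
        exact Ideal.add_mem _ ha hb
  rw [Function.bijective_iff_existsUnique]
  intro y
  obtain ⟨x, hx, hu⟩ := fix_ideal J (fun x => x - Θ x + y) fun n a b h => by
    have e : a - Θ a + y - (b - Θ b + y) = -(Θ (a - b) - (a - b)) := by rw [map_sub]; ring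
    rw [e]
    exact neg_mem (k n _ h)
  refine ⟨x, by linear_combination -hx, fun z hz => hu z ?_⟩
  show z - Θ z + y = z
  rw [show Θ z = y from hz]
  ring

theorem bij (h : IsTay D τ) (h0 : c00 η = 0) (h1 : c00 υ = 1) :
    Function.Bijective (thC τ η υ) := by
  have k : ∀ u, thC τ η υ u - u ∈ up (up (⊥ : Ideal L)) := fun u => by
    rw [mem, map_sub, c0 h h0, sub_self]
  refine bij_of _ _ k fun u hu => ?_
  obtain ⟨r, r', e⟩ := ev2_sub_c00 _ (φ := CC) mX mW u
  rw [ev2_id, mem.1 hu, map_zero, zero_add] at e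
  have e' : thC τ η υ u - u = C X * (thC τ η υ r - r) + X * (υ * thC τ η υ r' - r') := by
    rw [e, map_add, map_mul, map_mul, th_CX, th_X]
    ring
  rw [e', pow_two]
  refine Ideal.add_mem _ (Ideal.mul_mem_mul mX (k r)) (Ideal.mul_mem_mul mW ?_)
  rw [mem, map_sub, map_mul, h1, c0 h h0, one_mul, sub_self]

theorem chg [CharZero L] (hD : IsDer D) (h : IsTay D τ) (h0 : c00 η = 0) (h1 : c00 υ = 1) :
    Chg D η υ (thC τ η υ) :=
  ⟨h0, h1, th_X, fixc h h0, c0 h h0, ds hD h h0, dw hD h h0, bij h h0 h1⟩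

theorem c00_mA {U : Type} [Field U] (i : L →+* U) (c : AA L) : c00 (mA i c) = i (c00 c) := by
  rw [c00_apply, c00_apply, mA, K3.cc_map, K3.cc_map]

theorem nat {U : Type} [Field U] {τ' : U →+* U⟦X⟧} {i : L →+* U}
    (e : ∀ c, map i (τ c) = τ' (i c)) (h0 : c00 η = 0) (u : AA L) :
    thC τ' (mA i η) (mA i υ) (mA i u) = mA i (thC τ η υ u) := by
  have hη := mem.2 h0
  have hη' : mA i η ∈ up (up (⊥ : Ideal U)) := by rw [mem, c00_mA, h0, map_zero]
  have e1 : ((thC τ' (mA i η) (mA i υ)).comp (mA i)) (C X) = C X := by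
    rw [RingHom.comp_apply, mA_CX, th_CX]
  have e2 : ((thC τ' (mA i η) (mA i υ)).comp (mA i)) X = X * mA i υ := by
    rw [RingHom.comp_apply, mA_X, th_X]
  have e3 : (mA i).comp CC = CC.comp i := RingHom.ext fun r => mA_CC i r
  have k : (thC τ' (mA i η) (mA i υ)).comp (mA i) = (mA i).comp (thC τ η υ) := by
    refine homExt2 (up (up (⊥ : Ideal U))) (fun r => ?_) ?_ ?_ (e1 ▸ mX) (e2 ▸ mWu _)
    · rw [RingHom.comp_apply, RingHom.comp_apply, mA_CC, th_CC, th_CC, ← e, ev_map _ hη',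
        hom_ev _ _ hη (mA i) hη', e3]
    · rw [e1, RingHom.comp_apply, th_CX, mA_CX]
    · rw [e2, RingHom.comp_apply, th_X, map_mul, mA_X]
  exact RingHom.congr_fun k u

end Chga

theorem chgaS : ChgaStmt := by
  intro L _ _ D τ η υ hD h h0 h1
  refine ⟨Chga.chg hD h h0 h1, fun U _ D1 i hi => ?_⟩
  have : CharZero U := charZero_of_injective_ringHom i.injective
  obtain ⟨τ', t1, t2, -⟩ := exists_tayl hi.1 (RingHom.id U)
  have h' : IsTay D1 τ' := ⟨t1, t2⟩
  refine ⟨thC τ' (mA i η) (mA i υ), Chga.chg hi.1 h' ?_ ?_,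
    Chga.nat (Chga.tay_map h h' hi.2) h0⟩
  · rw [Chga.c00_mA, h0, map_zero]
  · rw [Chga.c00_mA, h1, map_one]

end Pool.Agent.MP_05b4bd_ag.RV
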