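import Pool.Agent.MP_05b4bd_ag.rr.Spec2

/-! Every frame comes from the constant frame. -/

namespace Pool.Agent.MP_05b4bd_ag.RV

open PowerSeries LaurentSeries HC
open ES hiding Gen Ob Inf

namespace Chgb

variable {L : Type} [Field L]

theorem c00_CC' (r : L) : c00 (CC r : AA L) = r := by simp [c00_apply, CC_apply]

theorem unit_of {w : AA L} (h : c00 w ≠ 0) : IsUnit w :=
  isUnit_iff_constantCoeff.2 (isUnit_iff_constantCoeff.2 (IsUnit.mk0 _ h))

theorem coeff_tay {D : L →+ L} {τ : L →+* L⟦X⟧} (h : IsTay D τ) (c : L) :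
    coeff 1 (τ c) = D c := by
  have e := congrArg (coeff 0) (h.2 c)
  rw [coeff_dX, coeff_zero_eq_constantCoeff_apply (τ (D c))] at e
  simpa [h.1] using e

theorem c00_ev {D : L →+ L} {τ : L →+* L⟦X⟧} (h : IsTay D τ) {η : AA L}
    (hη : η ∈ up (up (⊥ : Ideal L))) (c : L) : c00 (ES.ev CC η (τ c)) = c := by
  obtain ⟨r, e⟩ := ev_sub_cc (up (up ⊥)) (φ := CC) hη (τ c)
  have h0 : c00 η = 0 := hη
  have e' := congrArg c00 e
  rwa [map_sub, map_mul, h0, zero_mul, c00_CC', h.1, sub_eq_zero] at e'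

end Chgb

open Chgb in
theorem chgbS : ChgbStmt := by
  intro k L _ _ _ κ D d F x y τ hd hF ⟨_, _, c1, c2, c3⟩ hτ
  have : CharZero L := charZero_of_injective_ringHom κ.injective
  have d0 : (d : L) ≠ 0 := Nat.cast_ne_zero.2 (by omega)
  obtain ⟨p, hp⟩ : ∃ p, p = evp κ (c00 x) (c00 y) (MvPolynomial.pderiv 0 F) := ⟨_, rfl⟩
  obtain ⟨q, hq⟩ : ∃ q, q = evp κ (c00 x) (c00 y) (MvPolynomial.pderiv 1 F) := ⟨_, rfl⟩
  have eu : c00 x * p + c00 y * q = d := by
    have e := congrArg (evp κ (c00 x) (c00 y)) (euler hF)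
    rw [map_add, map_mul, map_mul, map_mul, map_natCast, c1, ← hp, ← hq] at e
    simpa [evp] using e
  rw [← hq] at c2
  rw [← hp] at c3
  obtain ⟨η, hη, e⟩ := root (up (up (⊥ : Ideal L)))
    (f := map CC (τ (c00 x)) * C y - map CC (τ (c00 y)) * C x)
    (by
      rw [mem_up2, map_sub, map_mul, map_mul, constantCoeff_C, constantCoeff_C,
        ← coeff_zero_eq_constantCoeff_apply, ← coeff_zero_eq_constantCoeff_apply, coeff_map,
        coeff_map, coeff_zero_eq_constantCoeff_apply, coeff_zero_eq_constantCoeff_apply, hτ.1, hτ.1,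
        map_sub, map_mul, map_mul, c00_CC', c00_CC', mul_comm, sub_self]
      exact Ideal.zero_mem _)
    (unit_of (by
      rw [map_sub, coeff_mul_C, coeff_mul_C, coeff_map, coeff_map, coeff_tay hτ, coeff_tay hτ,
        map_sub, map_mul, map_mul, c00_CC', c00_CC', c2, c3]
      intro h
      exact d0 (by linear_combination h - eu)))
  rw [map_sub, map_mul, map_mul, ev_map _ hη, ev_map _ hη, ES.ev_C _ hη, ES.ev_C _ hη,
    RingHom.id_comp, RingHom.id_apply, RingHom.id_apply] at e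
  have w0 : c00 (CC p * x + CC q * y) = d := by
    rw [map_add, map_mul, map_mul, c00_CC', c00_CC']
    linear_combination eu
  obtain ⟨w, hw⟩ := (unit_of (w0 ▸ d0)).exists_left_inv
  have hC : (C X : AA L) ∈ up (up (⊥ : Ideal L)) := by simp [mem_up2, c00_apply]
  have hX : ∀ υ : AA L, X * υ ∈ up (up (⊥ : Ideal L)) := fun υ => by simp [mem_up2, c00_apply]
  refine ⟨η, w * (CC p * ES.ev CC η (τ (c00 x)) + CC q * ES.ev CC η (τ (c00 y))), hη, ?_, ?_, ?_⟩
  · have e1 := congrArg c00 hw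
    rw [map_mul, w0, map_one] at e1
    rw [map_mul, map_add, map_mul, map_mul, c00_CC', c00_CC', c00_ev hτ hη, c00_ev hτ hη]
    linear_combination e1 + c00 w * eu
  · rw [thC, ev2_CC _ hC (hX _), RingHom.comp_apply]
    linear_combination (-ES.ev CC η (τ (c00 x))) * hw + w * CC q * e
  · rw [thC, ev2_CC _ hC (hX _), RingHom.comp_apply]
    linear_combination (-ES.ev CC η (τ (c00 y))) * hw - w * CC p * e

end Pool.Agent.MP_05b4bd_ag.RV
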