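import Pool.Agent.MP_05b4bd_ag.rr.Bas

/-! Comparison of approximate first integrals. -/

namespace Pool.Agent.MP_05b4bd_ag.RV

open PowerSeries LaurentSeries HC
open ES hiding Gen Ob Inf
open ES.U (TM Cr hom)
open PC3 (Fm fm d1 DF sub2 pb mapF Van CenK iS)

namespace Cmpa

variable {k E : Type} [Field k] [CommRing E] {e : R2 k →+* E} {d : Fin 2 → E →+ E} {f : R2 k}
  {N : Fin 2 → E}

/-- The derivation transverse to the level curves. -/
def del (d : Fin 2 → E →+ E) (N : Fin 2 → E) : E →+ E :=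
  (AddMonoidHom.mulLeft (N 0)).comp (d 0) + (AddMonoidHom.mulLeft (N 1)).comp (d 1)

theorem del_apply (u : E) : del d N u = N 0 * d 0 u + N 1 * d 1 u := rfl

theorem del_der (H : D2 e d) : IsDer (del d N) :=
  ((H.der 0).mulLeft _).add ((H.der 1).mulLeft _)

theorem d_ker (h1 : N 0 * e (MvPolynomial.pderiv 0 f) + N 1 * e (MvPolynomial.pderiv 1 f) = 1)
    {c : E} (hc : D0 e d f c = 0) (i : Fin 2) :
    d i c = e (MvPolynomial.pderiv i f) * del d N c := by
  rw [D0] at hc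
  rw [del_apply]
  fin_cases i
  · change d 0 c = e (MvPolynomial.pderiv 0 f) * _
    linear_combination (-d 0 c) * h1 + N 1 * hc
  · change d 1 c = e (MvPolynomial.pderiv 1 f) * _
    linear_combination (-d 1 c) * h1 - N 0 * hc

theorem del_ker (H : D2 e d)
    (h1 : N 0 * e (MvPolynomial.pderiv 0 f) + N 1 * e (MvPolynomial.pderiv 1 f) = 1)
    {c : E} (hc : D0 e d f c = 0) : D0 e d f (del d N c) = 0 := by
  have h := H.comm c
  rw [d_ker h1 hc 1, d_ker h1 hc 0] at h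
  rw [H.der 0, H.der 1, H.ext, H.ext, HC.pderiv_comm] at h
  rw [D0]
  linear_combination h

theorem iter_ker (H : D2 e d)
    (h1 : N 0 * e (MvPolynomial.pderiv 0 f) + N 1 * e (MvPolynomial.pderiv 1 f) = 1)
    {c : E} (hc : D0 e d f c = 0) (n : ℕ) : D0 e d f ((del d N)^[n] c) = 0 := by
  induction n with
  | zero => exact hc
  | succ n ih => rw [Function.iterate_succ_apply']; exact del_ker H h1 ih

/-- Functions of `h` with coefficients in the kernel. -/
theorem exists_fun [CharZero k] (H : D2 e d)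
    (h1 : N 0 * e (MvPolynomial.pderiv 0 f) + N 1 * e (MvPolynomial.pderiv 1 f) = 1)
    {h : E⟦X⟧} (hh : cc h = e f) : ∃ G : E → E⟦X⟧, (∀ c, cc (G c) = c) ∧
      ∀ c, D0 e d f c = 0 → ∀ i, cw (d i) (G c) = G (del d N c) * cw (d i) h := by
  let _ : Algebra ℚ E := ((e.comp MvPolynomial.C).comp (algebraMap ℚ k)).toAlgebra
  obtain ⟨τ, t0, t1, t2⟩ := exists_tayl (S := E) (del_der (N := N) H) (RingHom.id E)
  have hs : cc (h - C (e f)) = 0 := by rw [map_sub, hh, constantCoeff_C, sub_self]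
  refine ⟨fun c => sb (h - C (e f)) (τ c), fun c => by rw [cc_sb hs, t0]; rfl, fun c hc i => ?_⟩
  have k1 : cw (d i) (τ c) = C (e (MvPolynomial.pderiv i f)) * τ (del d N c) := by
    ext n
    rw [coeff_cw, coeff_C_mul, t2, t2, (H.der i).const_mul ((H.der i).rat _), RingHom.id_apply,
      RingHom.id_apply, d_ker h1 (iter_ker H h1 hc n) i, ← Function.iterate_succ_apply,
      Function.iterate_succ_apply']
    ring
  rw [cw_sb hs (H.der i), k1, t1, map_mul, sb_C hs, map_sub, cw_C, H.ext]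
  ring

theorem cc_vS {B : Fin 2 → E⟦X⟧} (hB : ∀ i, cc (B i) = e (ham f i)) (S : E⟦X⟧) :
    cc (vS d B S) = D0 e d f (cc S) := by
  rw [vS, map_add, map_mul, map_mul, cc_cw, cc_cw, hB, hB, D0]
  simp only [ham, Matrix.cons_val_zero, Matrix.cons_val_one, map_neg]
  ring

theorem vS_X (B : Fin 2 → E⟦X⟧) (S : E⟦X⟧) : vS d B (X * S) = X * vS d B S := by
  have h := fun i => cw_X_pow_mul (d i) 1 S
  simp only [pow_one] at h
  rw [vS, vS, h, h]
  ring

end Cmpa

open Cmpa in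
theorem cmpaS : CmpaStmt := by
  intro k E _ _ _ e d f N B h Ξ S U p H h1 hB hp hh hV hS
  obtain ⟨G, G0, G1⟩ := exists_fun H h1 hh
  have z : ∀ (q : ℕ) (S U : E⟦X⟧), vS d B S = X ^ (q + 1) * U → D0 e d f (cc S) = 0 := by
    intro q S U hS
    rw [← cc_vS hB, hS, map_mul, cc_X_pow (by omega), zero_mul]
  have st : ∀ (q : ℕ) (Ξ S U : E⟦X⟧), vS d B h = X ^ (q + 1) * Ξ → vS d B S = X ^ (q + 1) * U →
      ∃ S1, vS d B S1 = X ^ q * (U - G (del d N (cc S)) * Ξ) := by
    intro q Ξ S U hV hS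
    obtain ⟨S1, e1⟩ : X ∣ S - G (cc S) := X_dvd_iff.2 (by rw [map_sub, G0, sub_self])
    refine ⟨S1, X_mul_cancel ?_⟩
    have g : vS d B (G (cc S)) = G (del d N (cc S)) * vS d B h := by
      rw [vS, vS, G1 _ (z q S U hS), G1 _ (z q S U hS)]
      ring
    have l : vS d B (S - G (cc S)) = vS d B S - vS d B (G (cc S)) := by
      simp only [vS, map_sub]
      ring
    rw [← vS_X, ← e1, l, g, hS, hV]
    ring
  have main : ∀ (q : ℕ) (Ξ S U : E⟦X⟧), vS d B h = X ^ (q + 1) * Ξ →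
      vS d B S = X ^ (q + 1) * U → ∃ u, D0 e d f u = cc U - del d N (cc S) * cc Ξ := by
    intro q
    induction q with
    | zero =>
      intro Ξ S U hV hS
      obtain ⟨S1, e1⟩ := st 0 Ξ S U hV hS
      refine ⟨cc S1, ?_⟩
      rw [← cc_vS hB, e1, pow_zero, one_mul, map_sub, map_mul, G0]
    | succ q ih =>
      intro Ξ S U hV hS
      obtain ⟨S1, e1⟩ := st (q + 1) Ξ S U hV hS
      obtain ⟨u, hu⟩ := ih (X * Ξ) S1 _ (by rw [hV]; ring) e1
      refine ⟨u, ?_⟩
      rw [hu, map_sub, map_mul, G0, map_mul, constantCoeff_X, zero_mul, mul_zero, sub_zero]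
  obtain ⟨q, rfl⟩ : ∃ q, p = q + 1 := ⟨p - 1, by omega⟩
  exact ⟨z q S U hS, main q Ξ S U hV hS⟩

end Pool.Agent.MP_05b4bd_ag.RV
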