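import Pool.Agent.MP_05b4bd_ag.rr.Spec5

/-! An equivalence of fields as an automorphism. -/

namespace Pool.Agent.MP_05b4bd_ag.RV

open PowerSeries LaurentSeries HC
open ES hiding Gen Ob Inf

theorem conjS (h1 : TayStmt) (h2 : TaydStmt) : ConjStmt := by
  intro k T _ _ _ e d f A B m ξ μ hD hm hE
  let _ : Algebra ℚ T := ((e.comp MvPolynomial.C).comp (algebraMap ℚ k)).toAlgebra
  obtain ⟨t1, -, t3⟩ := h1 T d hD.toCm
  obtain ⟨φ, hφ⟩ := t1 (fun i => ξ i - C (e (MvPolynomial.X i))) fun i =>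
    X_dvd_iff.1 ((dvd_pow_self X (by omega)).trans (hE.near i))
  obtain ⟨s1, s2⟩ := h2 k T e d ξ φ hD hφ
  have sC : ∀ u, hat φ (C (e u)) = evS e ξ (C u) := fun u => by rw [← s1, map_C]
  refine ⟨hat φ, hat_X φ, fun c => ?_, fun y => ?_, sC f, fun y => ?_⟩
  · rw [sC, evS, hat_C, MvPolynomial.eval₂Hom_C]
    rfl
  · have z := (t3 _ φ hφ).1 m hE.near y
    have z1 : X ^ m ∣ vS d (fun i => ξ i - C (e (MvPolynomial.X i))) y :=
      ((hE.near 0).mul_right _).add ((hE.near 1).mul_right _)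
    simpa only [sub_add_cancel] using ((pow_dvd_pow X (Nat.le_succ m)).trans z).add z1
  · rw [s2, hE.eq, hE.eq, vS, map_add, map_mul, map_mul, s1, s1]
    ring

end Pool.Agent.MP_05b4bd_ag.RV
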