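import Pool.Agent.MP_05b4bd_ag.rr.Spec3

/-! The multiplicities of the two branches are coprime. -/

namespace Pool.Agent.MP_05b4bd_ag.RV

open PowerSeries LaurentSeries HC
open ES hiding Gen Ob Inf

namespace Copr

variable {U : Type} [Field U] [CharZero U] {D : U →+ U}

omit [CharZero U] in
theorem red_br {w : U⟦X⟧} (hw : cc w = 0) (v : AA U) (α β : ℕ) :
    red (v * X ^ α * (X - C w) ^ β) = X ^ (α + β) * red v := by
  rw [map_mul, map_mul, map_pow, map_pow, map_sub, red_X, red_C, hw, map_zero, sub_zero]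
  ring

omit [CharZero U] in
theorem const {a b v : AA U} {n : ℕ} {r : AA U} (ha : red a ≠ 0) (hb : red b = 0)
    (h : FIe (cw D) a b r) (hr : red r = X ^ n * red v) : D (c00 v) = 0 := by
  have e := congrArg red h
  rw [map_mul, map_mul, hb, zero_mul] at e
  have e2 : cw D (red r) = red (cw (cw D) r) := cw_map' (fun a => (cc_cw D a).symm) r
  rw [(mul_eq_zero.1 e).resolve_left ha, hr, cw_X_pow_mul] at e2
  rw [← cc_red, ← cc_cw, (mul_eq_zero.1 e2).resolve_left (pow_ne_zero _ X_ne_zero), map_zero]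

theorem cancel (hD : IsDer D) {a b r : AA U} {c : U} {g : ℕ} (hc : c ≠ 0) (hg : g ≠ 0)
    (hr : r ≠ 0) (h0 : D c = 0) (h : FIe (cw D) a b (CC c * r ^ g)) : FIe (cw D) a b r := by
  have h1 : cw (cw D) (CC c : AA U) = 0 := by
    change cw (cw D) (C (C c)) = 0
    rw [cw_C, cw_C, h0, map_zero, map_zero]
  have h2 : dX _ (CC c : AA U) = 0 := dX_C _
  have h3 : (CC c : AA U) ≠ 0 := (map_ne_zero CC).2 hc
  have h4 : (g : AA U) ≠ 0 := by
    rw [← map_natCast (CC : U →+* AA U)]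
    exact (map_ne_zero CC).2 (Nat.cast_ne_zero.2 hg)
  unfold FIe at h ⊢
  rw [hD.coefw.coefw.const_mul h1, isDer_dX.const_mul h2, hD.coefw.coefw.pow, isDer_dX.pow] at h
  refine mul_left_cancel₀ (mul_ne_zero h3 (mul_ne_zero h4 (pow_ne_zero (g - 1) hr))) ?_
  linear_combination h

end Copr

theorem coprS (h : SolveStmt) : CoprStmt := by
  intro L _ _ D a b ρ B u w d n α β hD hd ha hb hm hR hn hα hu hw hρ
  obtain ⟨U, _, D1, i, hE, h1⟩ := h L D hD
  obtain ⟨Ψ, p1, p2, p3⟩ := h1 a b ρ B n hR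
  have : CharZero U := charZero_of_injective_ringHom i.injective
  obtain ⟨Ψ1, rfl⟩ := X_dvd_iff.2 p1
  have q1 : red Ψ1 = 1 := by
    rw [map_mul, red_X] at p2
    exact mul_left_cancel₀ X_ne_zero (p2.trans (mul_one _).symm)
  have q2 : cc (mA i ρ) = 0 := by
    change cc (map (map i) ρ) = 0
    rw [K3.cc_map, hR.c0, map_zero]
  have q3 : red (sb (mA i ρ) Ψ1) = 1 := by
    change map cc (sb (mA i ρ) Ψ1) = 1
    rw [map_sb q2]
    change sb _ (red Ψ1) = 1
    rw [q1, map_one]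
  have q4 : cc (map i w) = 0 := by rw [K3.cc_map, hw, map_zero]
  obtain ⟨v, hv, e⟩ : ∃ v : AA U, c00 v ≠ 0 ∧
      sb (mA i ρ) (X * Ψ1) = v * X ^ α * (X - C (map i w)) ^ β := by
    refine ⟨mA i u * sb (mA i ρ) Ψ1, ?_, ?_⟩
    · rw [map_mul, ← cc_red (sb _ _), q3, map_one, mul_one]
      exact ((hu.map (mA i)).map c00).ne_zero
    · rw [map_mul, sb_X q2]
      generalize sb (mA i ρ) Ψ1 = s
      have e1 : mA i (C w) = C (map i w) := map_C _ _
      rw [hρ, map_mul, map_mul, map_pow, map_pow, map_sub, mA_X, e1]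
      ring
  rw [e] at p3
  have q5 : D1 (c00 v) = 0 := Copr.const (by
      rw [red_mA, ha, map_neg, map_mul, map_X, map_natCast, neg_ne_zero]
      refine mul_ne_zero ?_ X_ne_zero
      rw [← map_natCast (C : U →+* U⟦X⟧)]
      exact (map_ne_zero C).2 (Nat.cast_ne_zero.2 (by omega)))
    (by rw [map_mul, red_mA, hb, map_zero, mul_zero]) p3 (Copr.red_br q4 v α β)
  by_contra hg
  have g0 : 0 < α.gcd β := Nat.gcd_pos_of_pos_left _ hα
  obtain ⟨α', hα'⟩ := Nat.gcd_dvd_left α β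
  obtain ⟨β', hβ'⟩ := Nat.gcd_dvd_right α β
  have hg' : α.gcd β ≠ 1 := hg
  generalize α.gcd β = g at *
  obtain ⟨y, y1, y2⟩ := nth_root (up (up (⊥ : Ideal U))) (s := CC (c00 v)⁻¹ * v) g0 (by
    have e1 : c00 (CC (c00 v)⁻¹ : AA U) = (c00 v)⁻¹ := by simp [c00, CC]
    rw [mem_up2, map_sub, map_mul, e1, inv_mul_cancel₀ hv, map_one, sub_self]
    exact Ideal.zero_mem _)
  rw [mem_up2, map_sub, map_one, Ideal.mem_bot, sub_eq_zero] at y1
  have q6 : 1 ≤ α' := Nat.pos_of_ne_zero fun k => by rw [k] at hα'; omega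
  have q7 : OrdIs (α' + β') (red (y * X ^ α' * (X - C (map i w)) ^ β')) := by
    rw [Copr.red_br q4]
    exact ordIs_X_pow_mul _ (by rw [cc_red, y1]; exact one_ne_zero)
  refine hm (α' + β') (by rw [← hn, hα', hβ']; nlinarith [show 2 ≤ g by omega])
    ⟨U, inferInstance, D1, i, _, hE, ?_, Copr.cancel hE.1 hv g0.ne' (fun k => q7.1 (by
      rw [k, map_zero, map_zero])) q5 ?_, q7⟩
  · rw [map_mul, map_mul, cc_X_pow q6, mul_zero, zero_mul]
  · have e1 : (CC (c00 v) : AA U) * CC (c00 v)⁻¹ = 1 := by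
      rw [← map_mul, mul_inv_cancel₀ hv, map_one]
    rw [mul_pow, mul_pow, y2, ← pow_mul, ← pow_mul, mul_comm α', mul_comm β', ← hα', ← hβ',
      ← mul_assoc, ← mul_assoc, ← mul_assoc, e1, one_mul]
    exact p3

end Pool.Agent.MP_05b4bd_ag.RV
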