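import Pool.Agent.MP_05b4bd_ag.rr.Spec2

/-! The coordinates of the plane as coordinates near infinity. -/

namespace Pool.Agent.MP_05b4bd_ag.RV

open PowerSeries LaurentSeries HC
open ES hiding Gen Ob Inf
open ES.U (TM Cr hom)
open PC3 (Fm fm d1 DF sub2 pb mapF Van CenK iS)

noncomputable section

namespace Crd

/-- The combination `a T + b U`. -/
def cmb {E : Type} [Field E] (T U : E →+ E) (a b : E) : E →+ E :=
  (AddMonoidHom.mulLeft a).comp T + (AddMonoidHom.mulLeft b).comp U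

theorem cmb_apply {E : Type} [Field E] (T U : E →+ E) (a b u : E) :
    cmb T U a b u = a * T u + b * U u := rfl

theorem two {E : Type} [Field E] {T U : E →+ E} (hT : IsDer T) (hU : IsDer U)
    (hc : ∀ u, T (U u) = U (T u)) (x y : E) (hJ : T x * U y - U x * T y ≠ 0) :
    ∃ δ : Fin 2 → E →+ E, Cm δ ∧ δ 0 x = 1 ∧ δ 0 y = 0 ∧ δ 1 x = 0 ∧ δ 1 y = 1 ∧
      (∀ u, T u = T x * δ 0 u + T y * δ 1 u) ∧ ∀ u, U u = U x * δ 0 u + U y * δ 1 u := by
  obtain ⟨I, hI⟩ : ∃ I, (T x * U y - U x * T y) * I = 1 := ⟨_, mul_inv_cancel₀ hJ⟩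
  have der : ∀ a b, IsDer (cmb T U a b) := fun a b => (hT.mulLeft a).add (hU.mulLeft b)
  have br : ∀ a b c e, ∃ p q, ∀ u, cmb T U a b (cmb T U c e u) - cmb T U c e (cmb T U a b u) =
      p * T u + q * U u := fun a b c e =>
    ⟨cmb T U a b c - cmb T U c e a, cmb T U a b e - cmb T U c e b, fun u => by
      simp only [cmb_apply, map_add, hT _ _, hU _ _, hc]
      ring⟩
  have e1 : cmb T U (U y * I) (-(T y * I)) x = 1 := by
    rw [cmb_apply]; linear_combination hI
  have e2 : cmb T U (U y * I) (-(T y * I)) y = 0 := by rw [cmb_apply]; ring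
  have e3 : cmb T U (-(U x * I)) (T x * I) x = 0 := by rw [cmb_apply]; ring
  have e4 : cmb T U (-(U x * I)) (T x * I) y = 1 := by
    rw [cmb_apply]; linear_combination hI
  refine ⟨![cmb T U (U y * I) (-(T y * I)), cmb T U (-(U x * I)) (T x * I)], ⟨fun i => ?_,
    fun u => ?_⟩, e1, e2, e3, e4, fun u => ?_, fun u => ?_⟩
  · fin_cases i <;> exact der _ _
  · obtain ⟨p, q, h⟩ := br (U y * I) (-(T y * I)) (-(U x * I)) (T x * I)
    have hx := h x
    have hy := h y
    rw [e1, e3, map_zero, (der _ _).one] at hx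
    rw [e2, e4, map_zero, (der _ _).one] at hy
    have hp : p = 0 := by linear_combination -p * hI - I * U y * hx + I * U x * hy
    have hq : q = 0 := by linear_combination -q * hI + I * T y * hx - I * T x * hy
    have := h u
    rw [hp, hq, zero_mul, zero_mul, add_zero, sub_eq_zero] at this
    exact this
  · change T u = T x * cmb T U _ _ u + T y * cmb T U _ _ u
    rw [cmb_apply, cmb_apply]
    linear_combination -T u * hI
  · change U u = U x * cmb T U _ _ u + U y * cmb T U _ _ u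
    rw [cmb_apply, cmb_apply]
    linear_combination -U u * hI

variable {k L : Type} [Field k] [Field L]

theorem van {E : Type} [Field E] {g : FF k →+* E} {δ : FF k →+ E} (h : IsDerOver g δ)
    (h0 : ∀ u, δ (eF k u) = 0) (z : FF k) : δ z = 0 := by
  obtain ⟨⟨u, v⟩, e⟩ := IsLocalization.surj (nonZeroDivisors (R2 k)) z
  have h1 := h z (eF k v)
  have hv : g (eF k v) ≠ 0 := (map_ne_zero g).2
    (IsFractionRing.to_map_ne_zero_of_mem_nonZeroDivisors v.2)
  rw [show z * eF k v = eF k u from e, h0, h0, mul_zero, add_zero] at h1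
  exact (mul_eq_zero.1 h1.symm).resolve_right hv

theorem exF (k : Type) [Field k] : ∃ dF : Fin 2 → FF k →+ FF k, D2 (eF k) dF := by
  choose dF h1 h2 using fun i : Fin 2 =>
    exists_der_loc (T := FF k) (nonZeroDivisors (R2 k)) (isDer_pd (R := k) i)
  have h3 : ∀ i u, dF i (eF k u) = eF k (MvPolynomial.pderiv i u) := h2
  refine ⟨dF, ⟨h1, fun u => sub_eq_zero.1 (van ((h1 0).comm (h1 1)).over (fun v => ?_) u)⟩, h3⟩
  change dF 0 (dF 1 _) - dF 1 (dF 0 _) = 0
  rw [h3, h3, h3, h3, HC.pderiv_comm, sub_self]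

theorem nz [CharZero k] {κ : k →+* L} {D : L →+ L} {d : ℕ} {f : R2 k} {x y : L} (hd : 3 ≤ d)
    (hg : Gen d f) (hc' : Curve κ D (hc d f) x y) {A : R2 k} {N : ℕ} (hA : A.IsHomogeneous N)
    (h : evp κ x y A = 0) : A = 0 := by
  obtain ⟨h1, h2, h3, h4, h5⟩ := hc'
  let _ : Algebra k L := κ.toAlgebra
  let D' : Derivation k L L := Derivation.mk'
    { toFun := D
      map_add' := D.map_add
      map_smul' := fun c a => by
        have : ∀ z : L, c • z = κ c * z := fun _ => rfl
        rw [this, h1, h2, RingHom.id_apply, this, zero_mul, zero_add] }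
    fun a b => by
      change D (a * b) = a * D b + b * D a
      rw [h1]; ring
  have hcv : Esc.Cv (hc d f) D' ![x, y] := ⟨h3, h4, h5⟩
  have hF := hc_hom d f
  have hci := hg.tm.ci
  have hF0 := Esc.ne_zero_of_ci hF hci
  obtain ⟨v, hv⟩ := (hcv.ker hF (by omega) hci (u := A)).1 h
  generalize hc d f = F at hF hF0 hv
  by_contra hA0
  have hv0 : v ≠ 0 := by
    rintro rfl
    exact hA0 (by rw [hv, mul_zero])
  obtain ⟨e, he, he0⟩ := Esc.exists_top hv0
  have e1 : A = v * F - v := by rw [hv]; ring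
  have e2 : e + d = N := by
    by_contra hne
    have := hc_ne hA hne
    rw [e1, hc_sub, hc_mul_hom _ _ hF, he.hc_eq (k := e + d) (by omega), sub_zero] at this
    exact mul_ne_zero he0 hF0 this
  have e3 : ∀ i, i < N → hc i v = 0 := fun i => by
    induction i using Nat.strong_induction_on with
    | _ i ih =>
      intro hi
      have h6 := hc_ne hA hi.ne
      rw [e1, hc_sub, sub_eq_zero] at h6
      rw [← h6]
      rcases Nat.lt_or_ge i d with h7 | h7
      · exact hc_of_mm (mm_mul (mm_zero v) (mm_hom hF)) (by omega)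
      · obtain ⟨j, rfl⟩ : ∃ j, i = j + d := ⟨i - d, by omega⟩
        rw [hc_mul_hom _ _ hF, ih j (by omega) (by omega), zero_mul]
  exact he0 (e3 e (by omega))

variable (κ : k →+* L) (x0 y0 : L⟦X⟧)

theorem E0 : EL κ x0 y0 (MvPolynomial.X 0) = coeL L x0 * wL L (-1) := by simp [EL, evp]

theorem E1 : EL κ x0 y0 (MvPolynomial.X 1) = coeL L y0 * wL L (-1) := by simp [EL, evp]

theorem chain {δ : L⸨X⸩ →+ L⸨X⸩} (h : IsDer δ) (h0 : ∀ c, δ (cL L (κ c)) = 0) (u : R2 k) :
    δ (EL κ x0 y0 u) = EL κ x0 y0 (MvPolynomial.pderiv 0 u) * δ (coeL L x0 * wL L (-1)) +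
      EL κ x0 y0 (MvPolynomial.pderiv 1 u) * δ (coeL L y0 * wL L (-1)) :=
  h.eval₂ ((cL L).comp κ) h0 _ _ u

theorem EL_eq {n : ℕ} {g : R2 k} (hg : DL (n + 1) g) : EL κ x0 y0 g =
    wL L (-(n : ℤ)) * coeL L (hev ((C : L →+* L⟦X⟧).comp κ) n g x0 y0 X) := by
  have h := hev_eq ((cL L).comp κ) n hg (coeL L x0 * wL L (-1)) (coeL L y0 * wL L (-1)) (wL L 1)
  have e : ∀ z, wL L 1 * (z * wL L (-1)) = z := fun z => by
    linear_combination z * wL_mul_neg (R := L) 1
  have e2 : (coeL L).comp ((C : L →+* L⟦X⟧).comp κ) = (cL L).comp κ :=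
    RingHom.ext fun c => coeL_C _
  rw [e, e, wL_pow, mul_one] at h
  rw [map_hev, coeL_X, e2, h, ← mul_assoc, mul_comm _ (wL L n), wL_mul_neg, one_mul]
  rfl

theorem inj [CharZero k] {D : L →+ L} {d : ℕ} {f : R2 k} (hd : 3 ≤ d) (hg : Gen d f)
    (hc' : Curve κ D (hc d f) (cc x0) (cc y0)) : Function.Injective (EL κ x0 y0) := by
  refine (injective_iff_map_eq_zero _).2 fun S h => ?_
  by_contra hS
  obtain ⟨e, he, he0⟩ := Esc.exists_top hS
  rw [EL_eq κ x0 y0 he, (isUnit_wL _).mul_right_eq_zero, map_eq_zero_iff _ coeL_inj] at h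
  have h1 := congrArg cc h
  have e2 : (cc : L⟦X⟧ →+* L).comp ((C : L →+* L⟦X⟧).comp κ) = κ :=
    RingHom.ext fun c => constantCoeff_C _
  rw [map_hev, e2, constantCoeff_X, hev_zero, map_zero] at h1
  exact he0 (nz hd hg hc' (hc_hom e S) h1)

theorem lead {D : L →+ L} {x : L⟦X⟧} (h : cwL D (coeL L x * wL L (-1)) = 0) : D (cc x) = 0 := by
  rw [mul_comm, cwL_wL_mul, cwL_coeL, (isUnit_wL _).mul_right_eq_zero,
    map_eq_zero_iff _ coeL_inj] at h
  rw [← cc_cw, h, map_zero]

end Crd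

open Crd in
theorem crdS : CrdStmt := by
  intro k L _ _ _ κ D d f x0 y0 hd hg hcv _ hf
  have hi := inj κ x0 y0 hd hg hcv
  obtain ⟨hD, hκ, hF, hx, hy⟩ := hcv
  have : CharZero L := charZero_of_injective_ringHom κ.injective
  have d0 : (d : L) ≠ 0 := Nat.cast_ne_zero.2 (by omega)
  have kD : ∀ c, cwL D (cL L (κ c)) = 0 := fun c => by rw [cwL_cL, hκ, map_zero]
  have kT : ∀ c, thL L (cL L (κ c)) = 0 := fun c => thL_cL _
  have fD := chain κ x0 y0 hD.coefL kD f
  have fT := chain κ x0 y0 isDer_thL kT f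
  rw [hf, cwL_wL hD.one] at fD
  rw [hf, thL_wL] at fT
  push_cast at fT
  have u1 := wL_mul_neg (R := L) d
  have u2 : cL L (d : L)⁻¹ * (d : L⸨X⸩) = 1 := by
    rw [← map_natCast (cL L), ← map_mul, inv_mul_cancel₀ d0, map_one]
  have u3 : wL L d * cL L (d : L)⁻¹ * (d * wL L (-(d : ℤ))) = 1 := by
    linear_combination cL L (d : L)⁻¹ * d * u1 + u2
  have ch := fun δ h h0 => chain κ x0 y0 (δ := δ) h h0
  have lx := lead (D := D) (x := x0)
  have ly := lead (D := D) (x := y0)
  have G : ∀ g, GLc κ d D x0 y0 g = EL κ x0 y0 g * (wL L d * cL L (d : L)⁻¹ *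
    (thL L (coeL L x0 * wL L (-1)) * cwL D (coeL L y0 * wL L (-1)) -
      cwL D (coeL L x0 * wL L (-1)) * thL L (coeL L y0 * wL L (-1)))) := fun g => rfl
  rw [E0, E1]
  generalize coeL L x0 * wL L (-1) = x at *
  generalize coeL L y0 * wL L (-1) = y at *
  have H : ∀ c, dh d c = -(wL L d * cL L (d : L)⁻¹ * thL L c) := fun c => rfl
  generalize wL L d * cL L (d : L)⁻¹ = s at *
  have jx : s * (thL L x * cwL D y - cwL D x * thL L y) * EL κ x0 y0 (MvPolynomial.pderiv 0 f) =
      -cwL D y := by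
    linear_combination -s * cwL D y * fT + s * thL L y * fD - cwL D y * u3
  have jy : s * (thL L x * cwL D y - cwL D x * thL L y) * EL κ x0 y0 (MvPolynomial.pderiv 1 f) =
      cwL D x := by
    linear_combination s * cwL D x * fT - s * thL L x * fD + cwL D x * u3
  have hJ : thL L x * cwL D y - cwL D x * thL L y ≠ 0 := by
    intro h
    rw [h, mul_zero, zero_mul] at jx jy
    have a0 := lx jy.symm
    have a1 := ly (neg_eq_zero.1 jx.symm)
    have h4 := congrArg (evp κ (cc x0) (cc y0)) (HC.euler (hc_hom d f))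
    rw [a0] at hx
    rw [a1, eq_comm, neg_eq_zero] at hy
    rw [map_add, map_mul, map_mul, map_mul, hF, ← hx, hy, map_natCast] at h4
    exact d0 (by linear_combination -h4)
  have hs : s ≠ 0 := fun h => by simp [h] at u3
  obtain ⟨δ, hC, a1, a2, a3, a4, hT, hU⟩ := two isDer_thL hD.coefL (thL_cwL D) x y hJ
  have c0 : ∀ u, (thL L x * cwL D y - cwL D x * thL L y) * δ 0 u =
      cwL D y * thL L u - thL L y * cwL D u := fun u => by
    linear_combination -cwL D y * hT u + thL L y * hU u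
  have c1 : ∀ u, (thL L x * cwL D y - cwL D x * thL L y) * δ 1 u =
      thL L x * cwL D u - cwL D x * thL L u := fun u => by
    linear_combination cwL D x * hT u - thL L x * hU u
  have ext : ∀ i u, δ i (EL κ x0 y0 u) = EL κ x0 y0 (MvPolynomial.pderiv i u) := by
    intro i u
    fin_cases i
    · change δ 0 _ = EL κ x0 y0 (MvPolynomial.pderiv 0 u)
      rw [ch _ (hC.der 0) fun c => mul_left_cancel₀ hJ (by rw [c0, kD, kT]; ring), a1, a2]
      ring
    · change δ 1 _ = EL κ x0 y0 (MvPolynomial.pderiv 1 u)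
      rw [ch _ (hC.der 1) fun c => mul_left_cancel₀ hJ (by rw [c1, kD, kT]; ring), a3, a4]
      ring
  obtain ⟨dF, hF2⟩ := exF k
  have hj : ∀ u, IsFractionRing.lift (K := FF k) hi (eF k u) = EL κ x0 y0 u :=
    IsFractionRing.lift_algebraMap hi
  refine ⟨dF, IsFractionRing.lift hi, δ, s * (thL L x * cwL D y - cwL D x * thL L y), hF2,
    RingHom.ext hj, ⟨hC, ext⟩, fun i u => sub_eq_zero.1 (van (((hC.der i).comp_hom
      (IsFractionRing.lift hi)).sub ((hF2.der i).hom_comp _)) (fun v => ?_) u), hT, hU, mul_ne_zero hs hJ, fun u => ?_,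
    fun g => by rw [G, mul_comm], fun c h i => mul_left_cancel₀ hJ ?_⟩
  · change δ i (IsFractionRing.lift hi _) - IsFractionRing.lift hi (dF i _) = 0
    rw [hF2.ext, hj, hj, ext, sub_self]
  · rw [D0]
    linear_combination hU u - δ 0 u * jy + δ 1 u * jx
  · rw [H]
    fin_cases i
    · change _ * δ 0 c = _ * (_ * EL κ x0 y0 (MvPolynomial.pderiv 0 f))
      rw [c0, h]
      linear_combination thL L c * jx
    · change _ * δ 1 c = _ * (_ * EL κ x0 y0 (MvPolynomial.pderiv 1 f))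
      rw [c1, h]
      linear_combination thL L c * jy

end

end Pool.Agent.MP_05b4bd_ag.RV
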