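import Pool.Agent.MP_05b4bd_ag.rr.Bas

/-! An equivalence at infinity moves `f` by an element of the Jacobian ideal. -/

namespace Pool.Agent.MP_05b4bd_ag.RV

open PowerSeries LaurentSeries HC
open ES hiding Gen Ob Inf
open ES.U (TM Cr hom)
open PC3 (Fm fm d1 DF sub2 pb mapF Van CenK iS)

namespace Cv

section Sub
variable {k E : Type} [Field k] [CommRing E]

theorem in_C {S : Subring E} {a : E} (h : a ∈ S) : In S (C a) := fun n => by
  rw [coeff_C]
  split_ifs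
  exacts [h, S.zero_mem]

theorem in_add {S : Subring E} {u v : E⟦X⟧} (hu : In S u) (hv : In S v) : In S (u + v) :=
  fun n => by
    rw [map_add]
    exact S.add_mem (hu n) (hv n)

theorem in_mul {S : Subring E} {u v : E⟦X⟧} (hu : In S u) (hv : In S v) : In S (u * v) :=
  fun n => by
    rw [coeff_mul]
    exact S.sum_mem fun p _ => S.mul_mem (hu _) (hv _)

theorem in_evS {S : Subring E} {e : R2 k →+* E} (he : ∀ u, e u ∈ S) {ξ : Fin 2 → E⟦X⟧}
    (hξ : ∀ i, In S (ξ i)) (f : R2 k) : In S (evS e ξ (C f)) := by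
  rw [evS, hat_C]
  induction f using MvPolynomial.induction_on with
  | C a =>
    rw [MvPolynomial.eval₂Hom_C]
    exact in_C (he _)
  | add a b ha hb =>
    rw [map_add]
    exact in_add ha hb
  | mul_X a i ha =>
    rw [map_mul, MvPolynomial.eval₂Hom_X']
    exact in_mul ha (hξ i)

/-- An additive map that is a combination of two others, on power series. -/
theorem cw_comb {T : E →+ E} {d : Fin 2 → E →+ E} {a b : E}
    (h : ∀ u, T u = a * d 0 u + b * d 1 u) (u : E⟦X⟧) :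
    cw T u = C a * cw (d 0) u + C b * cw (d 1) u := by
  ext n
  rw [map_add, coeff_C_mul, coeff_C_mul, coeff_cw, coeff_cw, coeff_cw, h]

theorem d0_br {e : R2 k →+* E} {d : Fin 2 → E →+ E} (h : D2 e d) (f S : R2 k) :
    D0 e d f (e S) = e (br S f) := by
  rw [D0, h.ext, h.ext, br, map_sub, map_mul, map_mul]
  ring

end Sub

theorem fx_ne {k : Type} [Field k] {d : ℕ} {f : R2 k} (hd : 3 ≤ d) (H : TM d f) :
    MvPolynomial.pderiv 0 f ≠ 0 := by
  intro h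
  obtain ⟨n, p, hp⟩ := H.cr
  obtain ⟨i, -, -⟩ := two_crit hd H hp
  apply hp.hess i
  rw [h]
  simp [br]

theorem vt_eq {L : Type} [Field L] {D : L →+ L} {vb ϰ : TT L} {x : Fin 2 → L⸨X⸩}
    {d : Fin 2 → L⸨X⸩ →+ L⸨X⸩} {B : Fin 2 → TT L}
    (h1 : ∀ u, thL L u = thL L (x 0) * d 0 u + thL L (x 1) * d 1 u)
    (h2 : ∀ u, cwL D u = cwL D (x 0) * d 0 u + cwL D (x 1) * d 1 u)
    (h3 : ∀ i, VT D vb (C (x i)) = ϰ * B i) (u : TT L) : VT D vb u = ϰ * vS d B u := by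
  have a0 := h3 0
  have a1 := h3 1
  rw [VT, cw_C, cw_C] at a0 a1
  rw [VT, vS, cw_comb h1, cw_comb h2]
  linear_combination cw (d 0) u * a0 + cw (d 1) u * a1

end Cv

open Cv in
theorem cvS (h1 : Tor1Stmt) (h2 : Tor2Stmt) (h3 : IterStmt) (h4 : PolyStmt) (h5 : PrimeStmt)
    (h6 : NeckStmt) (h7 : FoStmt) : CvStmt := by
  intro k L _ _ _ _ κ D d f x0 y0 A B m vb ϰ μ ξ hd hG hC hg hE hK hA hB hm hAB hϰ hV hξ hW
  obtain ⟨dF, S, j, d', N, hS, hj, hth, hcw, hT⟩ := h1 k L κ D d f x0 y0 hd hG hC hg hE hK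
  have tm := hG.tm
  obtain ⟨v, hv⟩ := hϰ.exists_left_inv
  have hq : Eqv (EL κ x0 y0) d' A B m ξ (v * μ) := ⟨hξ, fun i => by
    have := vt_eq (x := fun i => EL κ x0 y0 (MvPolynomial.X i))
      (B := fun l => map (EL κ x0 y0) (B l)) hth hcw hV (ξ i)
    rw [hW] at this
    rw [mul_assoc, this, ← mul_assoc, hv, one_mul]⟩
  have hA' := hA
  obtain ⟨cA, HA, gA, nA, n1A, cHA, eA, a, b, gA0, dlA, neA⟩ := hA'
  obtain ⟨cB, HB, gB, nB, n1B, cHB, eB, a', b', gB0, dlB, neB⟩ := hB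
  have T := hT a b dlA neA
  obtain ⟨ξ', μ', iξ, iμ, q', z'⟩ := h3 k (FF k) L⸨X⸩ (eF k) dF S j d' f a b N A B HA gA nA m ξ
    (v * μ) T n1A hm cA cHA eA gA0 hAB (by rw [hj]; exact hq)
  rw [hj] at z'
  have hBA : ∀ i, X ^ m ∣ B i - A i := fun i => by
    rw [← neg_sub]
    exact (hAB i).neg_right
  have loc : ∀ c, ∃ ξ'' μ'', (∀ i n, InO f c (coeff n (ξ'' i))) ∧ (∀ n, InO f c (coeff n μ'')) ∧
      Eqv (eF k) dF A B m ξ'' μ'' ∧
      coeff m (evS (eF k) ξ'' (C f)) = -coeff m (evS (eF k) ξ' (C f)) ∧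
      InO f c (-coeff m (evS (eF k) ξ' (C f))) := fun c => by
    obtain ⟨Sc, Nc, hSc, hTc⟩ := h2 k d f dF c hd tm T.two
    have Tc := hTc a' b' dlB neB
    obtain ⟨ξ'', μ'', i1, i2, q'', z''⟩ := h3 k (FF k) (FF k) (eF k) dF Sc (RingHom.id _) dF f a' b'
      Nc B A HB gB nB m ξ' μ' Tc n1B hm cB cHB eB gB0 hBA (by rw [RingHom.id_comp]; exact q')
    rw [RingHom.id_comp, RingHom.id_apply] at z''
    refine ⟨ξ'', μ'', fun i n => (hSc _).1 (i1 i n), fun n => (hSc _).1 (i2 n), q'', z'', ?_⟩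
    rw [← z'']
    exact (hSc _).1 (in_evS Tc.mem i1 f m)
  obtain ⟨S0, hS0⟩ := h4 k f (-coeff m (evS (eF k) ξ' (C f))) (fun c => h5 k d f c hd tm)
    ((hS _).1 (S.neg_mem (in_evS T.mem iξ f m))) fun c => by
      obtain ⟨_, _, -, -, -, -, h⟩ := loc c
      exact h
  have hz : coeff m (evS (EL κ x0 y0) ξ (C f)) = EL κ x0 y0 S0 := by
    rw [← hj, RingHom.comp_apply, ← hS0, map_neg, z', neg_neg, hj]
  have inj : Function.Injective (EL κ x0 y0) := by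
    rw [← hj]
    exact T.inj.comp (IsFractionRing.injective (R2 k) (FF k))
  have D2' : D2 (EL κ x0 y0) d' := hj ▸ T.two'
  refine ⟨S0, ?_, hz, inj ?_⟩
  · obtain ⟨n, p, hp⟩ := tm.cr
    refine hp.rad S0 fun i => ?_
    obtain ⟨ξ'', μ'', i1, i2, q'', z'', -⟩ := loc (MvPolynomial.eval (p i) f)
    exact h6 k d f S0 dF (p i) A B m ξ'' μ'' hd tm T.two (hp.crit i) hA hm hAB i1 i2 q''
      (z''.trans hS0)
  · rw [← d0_br D2', ← hz]
    exact h7 k L⸨X⸩ (EL κ x0 y0) d' f A B m ξ (v * μ) D2'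
      ((map_ne_zero_iff _ inj).2 (fx_ne hd tm)) hm cA hAB hq

end Pool.Agent.MP_05b4bd_ag.RV
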