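import Pool.Agent.MP_05b4bd_ag.rr.Bas
import Pool.Agent.MP_05b4bd_ag.esc.S2b

/-! A deck transformation of a linearising function commutes with the vector field. -/

namespace Pool.Agent.MP_05b4bd_ag.RV

open PowerSeries LaurentSeries HC
open ES hiding Gen Ob Inf
open ES.Deck

namespace Deckr

variable {κ : Type} [Field κ] [CharZero κ]

omit [CharZero κ] in
theorem sb_eq {ρ : AA κ} (h : cc ρ = 0) (g : AA κ) : ev2 CC (tA κ 0) ρ g = sb ρ g := by
  have m : ρ ∈ up (up (⊥ : Ideal κ)) := by simp [mem_up2, c00_apply, h]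
  have mt : (C X : AA κ) ∈ up (up (⊥ : Ideal κ)) := by simp [mem_up2, c00_apply]
  rw [tA, pow_zero, mul_one]
  refine RingHom.congr_fun (homExt2 (up (up ⊥)) (fun r => ?_) ?_ ?_ ?_ ?_) g
  · rw [ev2_CC _ mt m, CC_apply, sb_C h]
  · rw [ev2_CX _ mt m, sb_C h]
  · rw [ev2_X _ m, sb_X h]
  · rwa [ev2_CX _ mt m]
  · rwa [ev2_X _ m]

theorem fix_sb {ρ : AA κ} (h : cc ρ = 0) {σ : κ⟦X⟧} (h1 : cc σ = 0) (h2 : σ ≠ 0)
    (h3 : sb σ (red ρ) = red ρ) {Φ : AA κ →+* TT κ} (hΦ : IsOut 0 Φ (p0 σ)) (e : Φ ρ = iT ρ)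
    (g : AA κ) : Φ (sb ρ g) = iT (sb ρ g) := by
  have := charL (κ := κ)
  have c : c00 ρ = 0 := by rw [c00_apply, h, map_zero]
  have k := hΦ.agree (p0_ne h1 h2 X_ne_zero) (isOut_out 0)
    (fun z => X_ne_zero (coeL_inj (z.trans (map_zero _).symm))) c c (by rw [e, out_zero])
    (fun g => by
      show coeL κ (sb σ _) = _
      rw [sb_sb h1 ((cc_red ρ).trans c), h3]) g
  rwa [sb_eq h, out_zero] at k

omit [CharZero κ] in
theorem vt_rho {D : κ →+ κ} {a b ρ S : AA κ} {vb : TT κ} (ha : red a ≠ 0)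
    (hv : iT a * vb = iT b) (h : a * cw (cw D) ρ - X * b * dX _ ρ = a * S) :
    VT D vb (iT ρ) = iT S := by
  have ha' : iT a ≠ 0 := fun e => iT_ne ha (by rw [e, map_zero])
  refine mul_left_cancel₀ ha' ?_
  unfold VT
  rw [cw_iT, th_iT, mul_sub, ← mul_assoc, hv, ← map_mul, ← map_mul, thP_apply, ← map_mul, ← h,
    map_sub, mul_comm X b, mul_assoc]

theorem vt_sigma {D : κ →+ κ} (hD : IsDer D) {a b r S : AA κ} {vb : TT κ}
    (ha : red a ≠ 0) (hv : iT a * vb = iT b) (h : a * cw (cw D) r - X * b * dX _ r = a * S) {ν : ℕ}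
    (hν : 1 ≤ ν) (hr : OrdIs ν (red r)) {σ : κ⟦X⟧} (h1 : cc σ = 0) (h2 : σ ≠ 0)
    {Φ : AA κ →+* TT κ} (hΦ : IsOut 0 Φ (p0 σ)) (e : Φ r = iT r) (eS : Φ S = iT S) :
    Φ a * VT D vb (Φ X) = -(Φ X * Φ b) := by
  have := charL (κ := κ)
  have h0 : p0 σ X ≠ 0 := p0_ne h1 h2 X_ne_zero
  have c1 := hΦ.chain h0 hD.coefL hD (fun c => by
    rw [p0_X h1]
    show cwL D (coeL κ (sb σ c)) = coeL κ (sb σ (cw D c)) + coeL κ (sb σ (dX κ c)) * _
    rw [cwL_coeL, cwL_coeL, cw_sb h1 hD, map_add, map_mul]) r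
  have c2 := hΦ.chain h0 isDer_thL isDer_zero (fun c => by
    rw [p0_X h1, cw_zero, map_zero, zero_add]
    show thL κ (coeL κ (sb σ c)) = coeL κ (sb σ (dX κ c)) * _
    rw [thL_coeL, thL_coeL, thP_apply, thP_apply, dX_sb h1, ← map_mul]
    refine congrArg _ ?_
    ring) r
  rw [cw0, cw_zero, map_zero, mul_zero, zero_add] at c2
  rw [DA_zero] at c1 c2
  have v := vt_rho ha hv h
  rw [← e, ← eS] at v
  have hn : Φ (X * dX _ r) ≠ 0 := by
    intro z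
    have := hΦ.cc_eq h0 (X * dX _ r)
    rw [z, map_zero, map_mul, red_X] at this
    refine p0_ne h1 h2 (mul_ne_zero X_ne_zero ?_) this.symm
    show map cc (dX _ r) ≠ 0
    rw [← dX_map]
    exact dX_ne hν hr
  have f : Φ a * Φ (cw (cw D) r) - Φ b * Φ (X * dX _ r) = Φ a * Φ S := by
    rw [← map_mul, ← map_mul, ← map_mul, ← h, map_sub, mul_comm X b, mul_assoc]
  refine mul_left_cancel₀ hn ?_
  unfold VT at v ⊢
  linear_combination Φ a * Φ X * v - Φ a * c1 + Φ a * vb * c2 - Φ X * f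

theorem exists_comm {D : κ →+ κ} (hD : IsDer D) {a b : AA κ} {vb : TT κ}
    (ha : red a ≠ 0) (hv : iT a * vb = iT b) {σ : κ⟦X⟧} (h1 : cc σ = 0) (h2 : σ ≠ 0)
    (h3 : cw D σ = 0) {Φ : AA κ →+* TT κ} (hΦ : IsOut 0 Φ (p0 σ))
    (e : Φ a * VT D vb (Φ X) = -(Φ X * Φ b)) : ∃ φ : κ⸨X⸩ →+* TT κ,
      (∀ c, hat φ (iT c) = Φ c) ∧ (∀ c, cc (φ (coeL κ c)) = coeL κ (sb σ c)) ∧
      (∀ c, cwL D (cc (φ c)) = cc (φ (cwL D c))) ∧
      ∀ z, VT D vb (hat φ z) = hat φ (VT D vb z) := by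
  have := charL (κ := κ)
  have h0 : p0 σ X ≠ 0 := p0_ne h1 h2 X_ne_zero
  obtain ⟨φ, e1, e2, e3, e4⟩ := IsOut.ext h1 h2 hΦ
  obtain ⟨u, hu⟩ := (hΦ.unit h0).1.exists_right_inv
  have hX := cc_out_X h1 h2 hΦ
  refine ⟨φ, fun c => by rw [← e2, out_zero], fun c => ?_, fun c => ?_, fun z => ?_⟩
  · rw [e1, hΦ.cc_eq h0, red_mapC]
    rfl
  · have k := congrArg cc (e4 D hD c)
    rw [map_add, map_mul, map_mul, map_mul, cc_cw, cc_cw, hX, cwL_coeL, h3, map_zero, mul_zero,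
      add_zero] at k
    exact mul_left_cancel₀ (fun z => h2 (coeL_inj (z.trans (map_zero _).symm))) k
  · have k3 := hat_chain (φ := φ) isDer_thL isDer_zero isDer_thL
      (a := u * cw (thL κ) (Φ X)) (fun c => by
        have := e3 c
        rw [AddMonoidHom.zero_apply, map_zero]
        linear_combination u * this - cw (thL κ) (φ c) * hu) z
    have k4 := hat_chain (φ := φ) hD.coefL hD.coefL isDer_thL
      (a := u * cw (cwL D) (Φ X)) (fun c => by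
        have := e4 D hD c
        linear_combination u * this + (φ (cwL D c) - cw (cwL D) (φ c)) * hu) z
    rw [cw_zero, map_zero, zero_add] at k3
    have ha' : Φ a ≠ 0 := fun z => p0_ne h1 h2 ha (by rw [← hΦ.cc_eq h0, z, map_zero])
    have kv : Φ a * hat φ vb = Φ b := by
      rw [← e2, ← e2, out_zero, ← map_mul, hv]
    have ks : VT D vb (Φ X) = -(Φ X * hat φ vb) := by
      refine mul_left_cancel₀ ha' ?_
      rw [e, ← kv]
      ring
    unfold VT at ks ⊢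
    rw [k3, k4, map_sub, map_mul]
    linear_combination u * hat φ (cw (thL κ) z) * ks - hat φ vb * hat φ (cw (thL κ) z) * hu

end Deckr

theorem deckrS : DeckrStmt := by
  intro L _ _ D a b ρ B vb σ n hD ha hv hn hρ h1 h2 h3 h4
  have := charL (κ := L)
  obtain ⟨Φ, hΦ, e⟩ := exists_deck 0 (p0_ne h1 h2 X_ne_zero) (y := ρ)
    (p0_ne h1 h2 (dX_ne hn hρ.ord)) (η := iT ρ) (by
      rw [cc_iT]
      exact congrArg (coeL L) h4.symm)
  obtain ⟨φ, g1, g2, g3, g4⟩ := Deckr.exists_comm hD ha hv h1 h2 h3 hΦ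
    (Deckr.vt_sigma hD ha hv hρ.eq hn hρ.ord h1 h2 hΦ e (Deckr.fix_sb hρ.c0 h1 h2 h4 hΦ e B))
  exact ⟨Φ, φ, hΦ, e, g1, g2, g3, g4⟩

end Pool.Agent.MP_05b4bd_ag.RV
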