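import Pool.Agent.MP_05b4bd_ag.um.Defs
import Mathlib.RingTheory.RootsOfUnity.PrimitiveRoots
import Mathlib.RingTheory.MvPolynomial.Homogeneous

namespace Pool.Agent.MP_05b4bd_ag

open MvPolynomial

/-- A homothety `x ↦ ζ x + c` of order `n` multiplies `f` by `ζ ^ d` up to a constant. -/
def Rad (d n : ℕ) (f : Poly) : Prop := ∃ (ζ e : ℂ) (c : Fin 2 → ℂ), IsPrimitiveRoot ζ n ∧
  aeval (fun i => C ζ * X i + C (c i)) f = C (ζ ^ d) * f + C e

/-- Forms `∑ j, l ^ (b j) ((a + b) l (p j du + q j dv) - b (u p j + v q j) dl)` with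
`deg u, deg v ≤ 1`, `l = 1 + α u + β v` and `p j`, `q j` forms of degree `d - 1 - j (a + b)`
in `u`, `v`. -/
def RR (d a b : ℕ) : Set Form :=
  {ω | ∃ (α β : ℂ) (u v l : Poly) (p q : ℕ → Poly), u.totalDegree ≤ 1 ∧ v.totalDegree ≤ 1 ∧
    l = 1 + C α * u + C β * v ∧
    (∀ j, (p j).IsHomogeneous (d - 1 - j * (a + b)) ∧ (q j).IsHomogeneous (d - 1 - j * (a + b))) ∧
    ω = ∑ j ∈ Finset.range ((d - 1) / (a + b) + 1), l ^ (b * j) •
      ((((a + b : ℕ) : Poly) * l) • (aeval ![u, v] (p j) • dform u + aeval ![u, v] (q j) • dform v) -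
        ((b : Poly) * (u * aeval ![u, v] (p j) + v * aeval ![u, v] (q j))) • dform l)}

/-- `f = a (u ^ 3 + u v ^ 2 + v) + e` with `deg u, deg v ≤ 1`. -/
def Exo (f : Poly) : Prop := ∃ (a e : ℂ) (u v : Poly), u.totalDegree ≤ 1 ∧ v.totalDegree ≤ 1 ∧
  f = C a * (u ^ 3 + u * v ^ 2 + v) + C e

end Pool.Agent.MP_05b4bd_ag
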