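import Pool.Agent.MP_05b4bd_ag.rr.Spec3

/-! An equation over an extension field descends to the small field. -/

namespace Pool.Agent.MP_05b4bd_ag.RV

open PowerSeries LaurentSeries HC
open ES hiding Gen Ob Inf

namespace Desc

theorem cw_sb {A B : Type} [CommRing A] [CommRing B] {φ : A →+* B} {π : B →+ A}
    (h : ∀ a b, π (φ a * b) = a * π b) {s : A⟦X⟧} (hs : cc s = 0) (g : B⟦X⟧) :
    cw π (sb (map φ s) g) = sb s (cw π g) := by
  have h0 : cc (map φ s) = 0 := by
    rw [← coeff_zero_eq_constantCoeff_apply, coeff_map, coeff_zero_eq_constantCoeff_apply, hs,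
      map_zero]
  ext1 m
  rw [coeff_cw, coeff_sb h0, coeff_sb hs, map_sum]
  refine Finset.sum_congr rfl fun j _ => ?_
  rw [← map_pow, coeff_map, mul_comm, h, mul_comm, coeff_cw]

end Desc

theorem descS : DescStmt := by
  intro L U _ _ i ρ c e G h0 h
  let _ := i.toAlgebra
  obtain ⟨π, hπ⟩ := (Algebra.linearMap L U).exists_leftInverse_of_injective
    (LinearMap.ker_eq_bot.2 i.injective)
  have p : ∀ x y, π.toAddMonoidHom (i x * y) = x * π.toAddMonoidHom y := fun x y =>
    π.map_smul x y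
  have p1 : π.toAddMonoidHom 1 = 1 := by simpa using LinearMap.congr_fun hπ 1
  have q := cw_proj (φ := map i) (cw_proj p)
  have q1 : cw (cw π.toAddMonoidHom) (1 : AA U) = 1 := by
    rw [← map_one C, cw_C, ← map_one C, cw_C, p1, map_one, map_one]
  refine ⟨cw (cw π.toAddMonoidHom) G, ?_, fun k => ?_, fun ⟨G1, k⟩ => ⟨cw (cw π.toAddMonoidHom) G1, ?_⟩⟩
  · have := q c 1
    rw [mul_one, q1, mul_one] at this
    rw [← Desc.cw_sb (φ := map i) (cw_proj p) h0, ← q, ← this]
    exact congrArg _ h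
  · rw [cc_cw, k, map_zero]
  · rw [k, ← mA_CX i]
    exact q _ _

end Pool.Agent.MP_05b4bd_ag.RV
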