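import Pool.Agent.MP_05b4bd_ag.rr.Bas
import Pool.Agent.MP_05b4bd_ag.esc3.S2c

/-! The vector field at infinity is a unit multiple of the polynomial vector field. -/

namespace Pool.Agent.MP_05b4bd_ag.RV

open PowerSeries LaurentSeries HC
open ES hiding Gen Ob Inf
open ES.U (TM Cr hom)
open PC3 (Fm fm d1 DF sub2 pb mapF Van CenK iS)
open ES.Mkinf (fr iT_hev th_fr D_fr)

namespace Dict

variable {k L : Type} [Field k] [CharZero k] [Field L] {d n : ℕ} (R : Rd k d n L)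

theorem E_X0 : R.E (MvPolynomial.X 0) = coeL L (R.p * C R.xb) * wL L (-1) := by
  simp [Rd.E, EL, evp]

theorem E_X1 : R.E (MvPolynomial.X 1) = coeL L (R.p * C R.yb) * wL L (-1) := by
  simp [Rd.E, EL, evp]

theorem E_C (c : k) : R.E (MvPolynomial.C c) = cL L (R.κ c) := by
  simp [Rd.E, EL, evp]

theorem fr_x : fr R.x = C (R.E (MvPolynomial.X 0)) := by
  rw [fr, Rd.x, iT_mapC, E_X0, ← map_mul]

theorem fr_y : fr R.y = C (R.E (MvPolynomial.X 1)) := by
  rw [fr, Rd.y, iT_mapC, E_X1, ← map_mul]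

theorem E_eq (u : R2 k) : R.E u = MvPolynomial.eval₂ ((cL L).comp R.κ)
    ![R.E (MvPolynomial.X 0), R.E (MvPolynomial.X 1)] u := by
  rw [E_X0, E_X1]
  rfl

theorem ev_eq (u : R2 k⟦X⟧) :
    MvPolynomial.eval₂ (map ((cL L).comp R.κ)) ![fr R.x, fr R.y] u = map R.E (iS k u) := by
  have hc : R.E.comp MvPolynomial.C = (cL L).comp R.κ := RingHom.ext fun c => E_C R c
  induction u using MvPolynomial.induction_on with
  | C c => rw [MvPolynomial.eval₂_C, PC3.iS_C, ← hc, map_comp, RingHom.comp_apply]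
  | add p q hp hq => rw [MvPolynomial.eval₂_add, hp, hq, map_add, map_add]
  | mul_X p i hp =>
    rw [MvPolynomial.eval₂_mul, hp, MvPolynomial.eval₂_X, map_mul, map_mul, PC3.iS_X, map_C]
    congr 1
    fin_cases i
    · exact fr_x R
    · exact fr_y R

theorem chain {T : L⸨X⸩ →+ L⸨X⸩} (hT : IsDer T) (h0 : ∀ c, T (cL L (R.κ c)) = 0) (v : R2 k) :
    T (R.E v) = R.E (MvPolynomial.pderiv 0 v) * T (R.E (MvPolynomial.X 0)) +
      R.E (MvPolynomial.pderiv 1 v) * T (R.E (MvPolynomial.X 1)) := by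
  have h := hT.eval₂ ((cL L).comp R.κ) h0 (R.E (MvPolynomial.X 0)) (R.E (MvPolynomial.X 1)) v
  simpa only [← E_eq] using h

theorem chain' {T : L⸨X⸩ →+ L⸨X⸩} (hT : IsDer T) (h0 : ∀ c, T (cL L (R.κ c)) = 0)
    (u : (R2 k)⟦X⟧) :
    cw T (map R.E u) = map R.E (cw (pd k 0) u) * C (T (R.E (MvPolynomial.X 0))) +
      map R.E (cw (pd k 1) u) * C (T (R.E (MvPolynomial.X 1))) := by
  ext1 m
  rw [coeff_cw, coeff_map, map_add, coeff_mul_C, coeff_mul_C, coeff_map, coeff_map, coeff_cw,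
    coeff_cw, chain R hT h0]
  rfl

theorem lead {z : L} (h : cwL R.D (coeL L (R.p * C z) * wL L (-1)) = 0) : R.D z = 0 := by
  rw [mul_comm, cwL_wL_mul, cwL_coeL] at h
  have h1 : coeL L (cw R.D (R.p * C z)) = 0 := by
    have h2 := wL_mul_neg (R := L) 1
    linear_combination wL L 1 * h - coeL L (cw R.D (R.p * C z)) * h2
  have h3 : cw R.D (R.p * C z) = 0 := coeL_inj (by rw [h1, map_zero])
  have h4 := congrArg cc h3
  rwa [cc_cw, map_mul, R.p0, one_mul, constantCoeff_C, map_zero] at h4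

theorem jac_ne (hf : R.E R.f = wL L (-(d : ℤ))) :
    thL L (R.E (MvPolynomial.X 0)) * cwL R.D (R.E (MvPolynomial.X 1)) -
      cwL R.D (R.E (MvPolynomial.X 0)) * thL L (R.E (MvPolynomial.X 1)) ≠ 0 := by
  have : CharZero L := charZero_of_injective_ringHom R.κ.injective
  have : CharZero L⸨X⸩ := charZero_of_injective_ringHom (cL L).injective
  obtain ⟨hD, hκ, hF, hx, hy⟩ := R.cv
  intro hJ
  have h1 := chain R hD.coefL (fun c => by rw [cwL_cL, hκ, map_zero]) R.f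
  have h2 := chain R (isDer_thL (R := L)) (fun c => thL_cL _) R.f
  rw [hf, cwL_wL hD.one] at h1
  rw [hf, thL_wL] at h2
  have hd : d ≠ 0 := by have := R.d3; omega
  have hw : (((-(d : ℤ) : ℤ) : L⸨X⸩) * wL L (-(d : ℤ))) ≠ 0 := by
    refine mul_ne_zero (Int.cast_ne_zero.2 (by omega)) fun h => ?_
    have h3 := wL_mul_neg (R := L) (d : ℤ)
    rw [h, mul_zero] at h3
    exact zero_ne_one h3
  have e1 : cwL R.D (R.E (MvPolynomial.X 1)) = 0 := by
    refine (mul_eq_zero.1 ?_).resolve_right hw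
    linear_combination cwL R.D (R.E (MvPolynomial.X 1)) * h2 -
      thL L (R.E (MvPolynomial.X 1)) * h1 + R.E (MvPolynomial.pderiv 0 R.f) * hJ
  have e0 : cwL R.D (R.E (MvPolynomial.X 0)) = 0 := by
    refine (mul_eq_zero.1 ?_).resolve_right hw
    linear_combination cwL R.D (R.E (MvPolynomial.X 0)) * h2 -
      thL L (R.E (MvPolynomial.X 0)) * h1 - R.E (MvPolynomial.pderiv 1 R.f) * hJ
  rw [E_X0] at e0
  rw [E_X1] at e1
  have a0 := lead R e0
  have a1 := lead R e1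
  have h4 := ES.Mkinf.euler (hc_hom d R.f) R.κ R.xb R.yb
  rw [hF, mul_one, ← hx, a0, mul_zero, add_zero, ← neg_neg (evp _ _ _ _), ← hy, a1, neg_zero,
    mul_zero] at h4
  exact hd (Nat.cast_eq_zero.1 h4.symm)

end Dict

open Dict

theorem dictS (h : OrdStmt) : DictStmt := by
  intro k L _ _ _ d n R w vb hw ra hv
  have : CharZero L := charZero_of_injective_ringHom R.κ.injective
  obtain ⟨hD, hκ, -⟩ := R.cv
  have hJ := jac_ne R (h k L d n R).1
  have hd : (d : L) ≠ 0 := Nat.cast_ne_zero.2 (by have := R.d3; omega)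
  have ca : cc (iT (R.a w)) = -(cL L (d : L) * wL L 1) := by
    rw [cc_iT, ra, map_neg, map_mul, coeL_X, map_natCast, map_natCast]
  have ca' : cc (iT (R.a w)) * -(cL L (d : L)⁻¹ * wL L (-1)) = 1 := by
    rw [ca, neg_mul_neg, mul_mul_mul_comm, ← map_mul, mul_inv_cancel₀ hd, map_one, wL_mul_neg,
      one_mul]
  have ua : IsUnit (iT (R.a w)) :=
    PowerSeries.isUnit_iff_constantCoeff.2 (IsUnit.of_mul_eq_one _ ca')
  obtain ⟨ai, hai⟩ := ua.exists_right_inv
  have ea : iT (R.a w) = C (wL L 1) ^ (d + 1) *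
      (map R.E (iS k w.1) * C (thL L (R.E (MvPolynomial.X 1))) -
        map R.E (iS k w.2) * C (thL L (R.E (MvPolynomial.X 0)))) := by
    rw [Rd.a, fa, aF, map_sub, map_mul, map_mul, iT_hev R.κ _ hw.1, iT_hev R.κ _ hw.2, th_fr,
      th_fr, ev_eq, ev_eq, fr_x, fr_y, cw_C, cw_C]
    ring
  have eb : iT (R.b w) = C (wL L 1) ^ (d + 1) *
      (map R.E (iS k w.1) * C (cwL R.D (R.E (MvPolynomial.X 1))) -
        map R.E (iS k w.2) * C (cwL R.D (R.E (MvPolynomial.X 0)))) := by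
    rw [Rd.b, fb, bF, map_sub, map_mul, map_mul, iT_hev R.κ _ hw.1, iT_hev R.κ _ hw.2, D_fr hD,
      D_fr hD, ev_eq, ev_eq, fr_x, fr_y, cw_C, cw_C]
    ring
  have hvb : vb = ai * iT (R.b w) := by rw [← hv, ← mul_assoc, mul_comm ai, hai, one_mul]
  refine ⟨-(ai * C (wL L 1) ^ (d + 1) *
    (C (thL L (R.E (MvPolynomial.X 0))) * C (cwL R.D (R.E (MvPolynomial.X 1))) -
      C (cwL R.D (R.E (MvPolynomial.X 0))) * C (thL L (R.E (MvPolynomial.X 1))))), ?_, fun u => ?_⟩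
  · refine (((IsUnit.of_mul_eq_one_right _ hai).mul
      ((IsUnit.of_mul_eq_one _ ES.Mkinf.W_mul).pow _)).mul ?_).neg
    rw [← map_mul, ← map_mul, ← map_sub]
    exact (IsUnit.mk0 _ hJ).map _
  · rw [VT, chain' R hD.coefL (fun c => by rw [cwL_cL, hκ, map_zero]),
      chain' R (isDer_thL (R := L)) (fun c => thL_cL _), hvb, eb, vS, map_add, map_mul, map_mul]
    rw [ea] at hai
    simp only [vfS, Matrix.cons_val_zero, Matrix.cons_val_one, Matrix.cons_val_fin_one]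
    linear_combination -(map R.E (cw (pd k 0) u) * C (cwL R.D (R.E (MvPolynomial.X 0))) +
      map R.E (cw (pd k 1) u) * C (cwL R.D (R.E (MvPolynomial.X 1)))) * hai

end Pool.Agent.MP_05b4bd_ag.RV
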