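import Pool.Agent.MP_05b4bd_ag.rr.Spec5

/-! Radially symmetric Morse polynomials: the neighbourhood of a branch of `u v = 0`. -/

namespace Pool.Agent.MP_05b4bd_ag.RV

open PowerSeries LaurentSeries HC
open ES hiding Gen Ob Inf
open ES.U (TM Cr hom)

noncomputable section

namespace EnP
variable {k : Type} [Field k]

/-- The derivative along the branch. -/
def da (k : Type) [Field k] : TT k →+ TT k :=
  (AddMonoidHom.mulLeft (C (wL k (-1)))).comp (cw (thL k) + thP k⸨X⸩)

/-- The derivative across the branch. -/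
def db (k : Type) [Field k] : TT k →+ TT k :=
  (AddMonoidHom.mulLeft (C (wL k 1))).comp (dX k⸨X⸩)

theorem da_apply (y : TT k) : da k y = C (wL k (-1)) * (cw (thL k) y + X * dX _ y) := rfl

theorem db_apply (y : TT k) : db k y = C (wL k 1) * dX _ y := rfl

theorem isDer_da : IsDer (da k) := (isDer_thL.coefw.add isDer_thP).mulLeft _

theorem isDer_db : IsDer (db k) := isDer_dX.mulLeft _

theorem ww : (C (wL k 1) : TT k) * C (wL k (-1)) = 1 := by
  rw [← map_mul, wL_mul_neg, map_one]

theorem comm (y : TT k) : da k (db k y) = db k (da k y) := by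
  have e1 : cw (thL k) (C (wL k 1) : TT k) = C (wL k 1) := by
    rw [cw_C, thL_wL, Int.cast_one, one_mul]
  rw [da_apply, db_apply, db_apply, da_apply, isDer_thL.coefw, isDer_dX, isDer_dX, map_add,
    isDer_dX, dX_C, dX_C, dX_X, dX_cw, e1]
  ring

theorem db_out (c : AA k) : db k (out 1 c) = out 1 (cw (dX k) c) := by
  refine PowerSeries.ext fun n => ?_
  have e : wL k 1 * wL k (((n + 1 : ℕ) : ℤ) * -((1 : ℕ) : ℤ)) = wL k (n * -((1 : ℕ) : ℤ)) := by
    rw [← wL_add]
    congr 1
    push_cast
    ring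
  rw [db_apply, coeff_C_mul, coeff_dX, coeff_out, coeff_out, ← dX_swap, coeff_dX, map_mul,
    map_add, map_natCast, map_one, ← e]
  ring

theorem cw_thP (c : AA k) : cw (thP k) c = C X * cw (dX k) c :=
  PowerSeries.ext fun n => by rw [coeff_cw, coeff_C_mul, coeff_cw, thP_apply]

theorem out_CX1 : out 1 (C X : AA k) = C (wL k (-1)) * X := by
  rw [out_CX, Nat.cast_one]

theorem da_out (c : AA k) : da k (out 1 c) = out 1 (dX _ c) := by
  have e : DA k 1 c = X * dX _ c - C X * cw (dX k) c := by
    rw [DA, one_nsmul, AddMonoidHom.sub_apply, thP_apply, cw_thP]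
  rw [da_apply, th_out, e, map_sub, map_mul, map_mul, out_X, out_CX1, ← db_out, db_apply]
  linear_combination (out 1 (dX _ c) - C (wL k (-1)) * X * dX _ (out 1 c)) * ww (k := k)

theorem th0 (y : TT k) : out 1 (C X : AA k) * db k y = thP _ y := by
  rw [out_CX1, db_apply, thP_apply]
  linear_combination X * dX _ y * ww (k := k)

theorem th1 (y : TT k) : out 1 (X : AA k) * da k y = cw (thL k) y + thP _ y := by
  rw [out_X, da_apply, thP_apply, ← mul_assoc, ww, one_mul]

theorem coe0 (f : k⟦X⟧) : (coeL k f).coeff 0 = cc f := by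
  have h := coeff_coeL f 0
  rw [Nat.cast_zero, coeff_zero_eq_constantCoeff_apply] at h
  exact h

theorem out_pi : out 1 (C X * X : AA k) = X := by
  have h := out_tA (R := k) 1
  rwa [tA, pow_one] at h

theorem en1 : En (k := k) 1 (out 1) ![db k, da k] where
  cm := ⟨Fin.forall_fin_two.2 ⟨isDer_db, isDer_da⟩, fun u => (comm u).symm⟩
  nat := Fin.forall_fin_two.2 ⟨db_out, da_out⟩
  con := out_CC 1
  pi := out_pi
  var := out_X 1
  th0 := th0
  th1 := th1
  res y := by rw [cc_out, coe0, cc_red]

theorem en0 : En (k := k) 0 ((out 1).comp swap) ![da k, db k] where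
  cm := ⟨Fin.forall_fin_two.2 ⟨isDer_da, isDer_db⟩, comm⟩
  nat := Fin.forall_fin_two.2
    ⟨fun y => (da_out (swap y)).trans (congrArg (out 1) (dX_swap y)),
      fun y => (db_out (swap y)).trans (congrArg (out 1) (cw_dX_swap y))⟩
  con c := by rw [RingHom.comp_apply, swap_CC, out_CC]
  pi := by rw [RingHom.comp_apply, map_mul, swap_CX, swap_X, mul_comm, out_pi]
  var := by
    show out 1 (swap (C X : AA k)) = _
    rw [swap_CX, out_X]
  th0 y := by
    show out 1 (swap (X : AA k)) * db k y = _
    rw [swap_X, th0]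
  th1 y := by
    show out 1 (swap (C X : AA k)) * da k y = _
    rw [swap_CX, th1]
  res y := by rw [RingHom.comp_apply, cc_out, coe0, red_swap, c00_apply]

end EnP

end

theorem enS : EnStmt := fun _ _ =>
  Fin.forall_fin_two.2 ⟨⟨_, _, EnP.en0⟩, ⟨_, _, EnP.en1⟩⟩

end Pool.Agent.MP_05b4bd_ag.RV
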