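import Pool.Agent.MP_05b4bd_ag.rr.Spec5
import Pool.Agent.MP_05b4bd_ag.esc.IL

/-! The coordinates of the plane along a branch of the singular fibre. -/

namespace Pool.Agent.MP_05b4bd_ag.RV

open PowerSeries LaurentSeries HC
open ES hiding Gen Ob Inf
open ES.U (TM Cr hom)

namespace Enx

theorem root_mem {k L : Type} [Field k] [IsAlgClosed k] [Field L] (c : k →+* L) (y : L)
    (n : ℕ) : ∀ p : Polynomial k, p.natDegree = n → p ≠ 0 → Polynomial.eval₂ c y p = 0 →
      ∃ r, y = c r := by
  induction n with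
  | zero =>
    intro p hn hp h
    rw [Polynomial.eq_C_of_natDegree_eq_zero hn, Polynomial.eval₂_C, _root_.map_eq_zero] at h
    exact absurd (by rw [Polynomial.eq_C_of_natDegree_eq_zero hn, h, map_zero]) hp
  | succ n ih =>
    intro p hn hp h
    obtain ⟨r, hr⟩ := IsAlgClosed.exists_root p (by
      rw [Polynomial.degree_eq_natDegree hp, hn]
      exact_mod_cast Nat.succ_ne_zero n)
    obtain ⟨q, rfl⟩ := Polynomial.dvd_iff_isRoot.2 hr
    have hq : q ≠ 0 := right_ne_zero_of_mul hp
    rw [Polynomial.natDegree_mul (Polynomial.X_sub_C_ne_zero r) hq,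
      Polynomial.natDegree_X_sub_C] at hn
    rw [Polynomial.eval₂_mul, mul_eq_zero] at h
    rcases h with h | h
    · rw [Polynomial.eval₂_sub, Polynomial.eval₂_X, Polynomial.eval₂_C, sub_eq_zero] at h
      exact ⟨r, h⟩
    · exact ih q (by omega) hq h

theorem dA_vr (k : Type) [Field k] (i : Fin 2) : dA k i (vr k i) = 1 := by
  fin_cases i
  · change cw (dX k) (C X) = 1
    rw [cw_C, dX_X, map_one]
  · exact dX_X

theorem hom_aeval {k L : Type} [Field k] [CommRing L] (φ : R2 k →+* L) (c : k →+* L)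
    (h : ∀ a, φ (MvPolynomial.C a) = c a) (x : R2 k) (p : Polynomial k) :
    φ (Polynomial.aeval x p) = Polynomial.eval₂ c (φ x) p := by
  rw [Polynomial.aeval_def, Polynomial.hom_eval₂]
  congr 1
  exact RingHom.ext h

theorem unit {k : Type} [Field k] [CharZero k] [IsAlgClosed k] {f : R2 k} {p : Fin 2 → k}
    {e : R2 k →+* AA k} {d : Fin 2 → AA k →+ AA k} {i : Fin 2} {j : AA k →+* TT k}
    {dT : Fin 2 → TT k →+ TT k} (M : Mc f p e d) (E : En i j dT)
    (hp : Prime (f - MvPolynomial.C (MvPolynomial.eval p f))) (v : R2 k)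
    (hv : ¬ f - MvPolynomial.C (MvPolynomial.eval p f) ∣ v) : IsUnit (j (e v)) := by
  rw [PowerSeries.isUnit_iff_constantCoeff, isUnit_iff_ne_zero]
  intro h0
  let φ : R2 k →+* k⸨X⸩ := (cc : TT k →+* k⸨X⸩).comp (j.comp e)
  have hφ : ∀ u, φ u = cc (j (e u)) := fun _ => rfl
  have hc : ∀ a, φ (MvPolynomial.C a) = cL k a := fun a => by
    rw [hφ, M.con, E.con, constantCoeff_C]
  have : (Ideal.span {f - MvPolynomial.C (MvPolynomial.eval p f)}).IsPrime :=
    (Ideal.span_singleton_prime hp.ne_zero).2 hp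
  have key : ∀ l, cc (j (dA k i (e (MvPolynomial.X l)))) = 0 := fun l => by
    obtain ⟨q, hq, hq'⟩ := Esc.meet (Ideal.span {f - MvPolynomial.C (MvPolynomial.eval p f)})
      (Ideal.mem_span_singleton_self _) hp.ne_zero l (I := RingHom.ker φ)
      (by
        rw [Ideal.span_le, Set.singleton_subset_iff, SetLike.mem_coe, RingHom.mem_ker, hφ, M.nf,
          E.pi, constantCoeff_X])
      (g := v) h0 (by rwa [Ideal.mem_span_singleton])
    rw [RingHom.mem_ker, hom_aeval φ (cL k) hc] at hq'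
    obtain ⟨r, hr⟩ := root_mem (cL k) _ _ q rfl hq hq'
    have h := congrArg cc (E.th1 (j (e (MvPolynomial.X l))))
    rw [map_mul, map_add, cc_cw, ← hφ, hr, thL_cL, thP_apply, map_mul, constantCoeff_X, zero_mul,
      add_zero, E.var, constantCoeff_C, E.nat, mul_eq_zero] at h
    exact h.resolve_left (by simp [wL])
  have h := congrArg (fun y => cc (j y)) (M.ch1 i (vr k i))
  simp only [dA_vr, map_one, map_add, map_mul, key, zero_mul, add_zero] at h
  exact one_ne_zero h

end Enx

theorem enxS : EnxStmt := by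
  intro k _ _ _ f p e d i j dT M E hp
  refine ⟨Enx.unit M E hp, ?_⟩
  let d' : Fin 2 → TT k →+ TT k := fun l =>
    (AddMonoidHom.mulLeft (j (d l (C X)))).comp (dT 0) +
      (AddMonoidHom.mulLeft (j (d l X))).comp (dT 1)
  have ap : ∀ l y, d' l y = j (d l (C X)) * dT 0 y + j (d l X) * dT 1 y := fun _ _ => rfl
  have der : ∀ l, IsDer (d' l) := fun l =>
    ((E.cm.der 0).mulLeft _).add ((E.cm.der 1).mulLeft _)
  have nat : ∀ l y, d' l (j y) = j (d l y) := fun l y => by
    rw [ap, E.nat, E.nat, M.ch2 l y, map_add, map_mul, map_mul]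
  refine ⟨d', ⟨⟨der, fun y => ?_⟩, fun l u => ?_⟩, fun A y => ?_⟩
  · have c := E.cm.comm y
    rw [ap 1 y, ap 0 y, map_add, map_add, der 0, der 0, der 1, der 1, nat, nat, nat, nat,
      M.two.comm, M.two.comm, ap, ap, ap, ap, c]
    ring
  · rw [RingHom.comp_apply, RingHom.comp_apply, nat, M.two.ext]
  · have cwd : ∀ l, cw (d' l) y =
        C (j (d l (C X))) * cw (dT 0) y + C (j (d l X)) * cw (dT 1) y := fun l => by
      rw [cw_add, AddMonoidHom.add_apply, cw_mulLeft, cw_mulLeft]
    have mm : ∀ u : (R2 k)⟦X⟧, map (j.comp e) u = map j (map e u) := fun u => by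
      rw [map_comp, RingHom.comp_apply]
    have v0 : vr k 0 = C X := rfl
    have v1 : vr k 1 = X := rfl
    simp only [vS, fA, cwd, mm, cw_C, map_add, map_mul, map_C, v0, v1]
    ring

end Pool.Agent.MP_05b4bd_ag.RV
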