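import Pool.Agent.MP_05b4bd_ag.rr.Bas

/-! Evaluation of series with polynomial coefficients. -/

namespace Pool.Agent.MP_05b4bd_ag.RV

open PowerSeries LaurentSeries HC
open ES hiding Gen Ob Inf
open ES.U (TM Cr hom)
open PC3 (Fm fm d1 DF sub2 pb mapF Van CenK iS)

namespace Evs

theorem key {R S : Type} [CommRing R] [CommRing S] (G : R⟦X⟧ → S⟦X⟧) (n : ℕ)
    (h1 : ∀ r a, G (C r + X * a) = G (C r) + X * G a) (h2 : ∀ r, X ^ n ∣ G (C r)) (u : R⟦X⟧) :
    X ^ n ∣ G u := by
  have k : ∀ m : ℕ, ∃ v, X ^ n ∣ G u - X ^ m * G v := fun m => by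
    induction m with
    | zero => exact ⟨u, by simp⟩
    | succ m ih =>
      obtain ⟨v, hv⟩ := ih
      obtain ⟨g, hg⟩ := eq_C_add_X_mul v
      refine ⟨g, ?_⟩
      have e : G u - X ^ (m + 1) * G g = G u - X ^ m * G v + X ^ m * G (C (cc v)) := by
        conv_rhs => rw [hg, h1, ← hg]
        ring
      rw [e]
      exact hv.add ((h2 _).mul_left _)
  obtain ⟨v, hv⟩ := k n
  exact (dvd_sub_left (dvd_mul_right _ _)).1 hv

theorem key0 {R S : Type} [CommRing R] [CommRing S] (G G' : R⟦X⟧ → S⟦X⟧)
    (h1 : ∀ r a, G (C r + X * a) = G (C r) + X * G a)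
    (h1' : ∀ r a, G' (C r + X * a) = G' (C r) + X * G' a) (h2 : ∀ r, G (C r) = G' (C r))
    (u : R⟦X⟧) : G u = G' u := by
  refine sub_eq_zero.1 (PowerSeries.ext fun n => X_pow_dvd_iff.1
    (key (fun u => G u - G' u) (n + 1) (fun r a => ?_) (fun r => ?_) u) n n.lt_succ_self)
  · rw [h1, h1']
    ring
  · rw [h2, sub_self]
    exact dvd_zero _

variable {k E : Type} [Field k] [CommRing E] (e : R2 k →+* E) (ξ : Fin 2 → E⟦X⟧)

theorem ev_X : evS e ξ X = X := hat_X _

theorem ev_c (c : k) : evS e ξ (C (MvPolynomial.C c)) = C (e (MvPolynomial.C c)) :=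
  (hat_C _ _).trans (MvPolynomial.eval₂Hom_C _ _ _)

theorem ev_x (i : Fin 2) : evS e ξ (C (MvPolynomial.X i)) = ξ i :=
  (hat_C _ _).trans (MvPolynomial.eval₂Hom_X' _ _ _)

theorem cwX (i : Fin 2) (a : (R2 k)⟦X⟧) : cw (pd k i) (X * a) = X * cw (pd k i) a := by
  simpa using cw_X_pow_mul (pd k i) 1 a

theorem pd_c (i : Fin 2) (c : k) : pd k i (MvPolynomial.C c) = 0 := MvPolynomial.pderiv_C

theorem pd_x (i l : Fin 2) (u : R2 k) : pd k i (u * MvPolynomial.X l) =
    pd k i u * MvPolynomial.X l + if l = i then u else 0 := by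
  change MvPolynomial.pderiv i _ = MvPolynomial.pderiv i _ * _ + _
  rw [MvPolynomial.pderiv_mul, MvPolynomial.pderiv_X]
  split_ifs with h <;> simp [h]

end Evs

open Evs

theorem evsS : EvsStmt := by
  intro k E _ _ e ξ
  refine ⟨key0 _ _ (fun r a => ?_) (fun r a => ?_) fun u => ?_,
    fun ξ' n h => key _ n (fun r a => ?_) fun u => ?_,
    fun m hm h => key _ (m + 1) (fun r a => ?_) fun u => ?_,
    fun V hV h0 hc => key0 _ _ (fun r a => ?_) (fun r a => ?_) fun u => ?_,
    fun E' _ e' g hX hc => key0 _ _ (fun r a => ?_) (fun r a => ?_) fun u => ?_⟩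
  · rw [map_add, map_mul, Evs.ev_X]
  · rw [map_add, map_mul, map_X]
  · induction u using MvPolynomial.induction_on with
    | C c => rw [ev_c, map_C]
    | add p q hp hq => simp only [map_add, hp, hq]
    | mul_X p i hp => rw [map_mul, map_mul, map_mul, hp, ev_x, map_C, map_C]
  · simp only [map_add, map_mul, Evs.ev_X]
    ring
  · induction u using MvPolynomial.induction_on with
    | C c => simp [ev_c]
    | add p q hp hq =>
      have := hp.add hq
      simp only [map_add]
      rwa [add_sub_add_comm]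
    | mul_X p i hp =>
      have := (hp.mul_right (ξ i)).add ((h i).mul_left (evS e ξ' (C p)))
      simp only [map_mul, ev_x]
      exact this.trans (dvd_of_eq (by ring))
  · simp only [map_add, map_mul, Evs.ev_X, map_X, cwX]
    ring
  · simp only [cw_C, map_C]
    induction u using MvPolynomial.induction_on with
    | C c => simp [ev_c, pd_c]
    | add p q hp hq =>
      simp only [map_add]
      exact (hp.add hq).trans (dvd_of_eq (by ring))
    | mul_X p i hp =>
      have h1 := mul_dvd_mul (((h 0).mul_left (C (e (pd k 0 p)))).add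
        ((h 1).mul_left (C (e (pd k 1 p))))) (h i)
      rw [← pow_add] at h1
      have := (hp.mul_right (ξ i)).add ((pow_dvd_pow _ (by omega)).trans h1)
      simp only [map_mul, map_add, ev_x, pd_x]
      refine this.trans (dvd_of_eq ?_)
      fin_cases i <;> simp <;> ring
  · simp only [map_add, map_mul, Evs.ev_X, hV X, h0]
    ring
  · simp only [map_add, map_mul, Evs.ev_X, cwX]
    ring
  · simp only [cw_C]
    induction u using MvPolynomial.induction_on with
    | C c => simp [ev_c, pd_c, hc]
    | add p q hp hq =>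
      simp only [map_add, hp, hq]
      ring
    | mul_X p i hp =>
      simp only [map_mul, map_add, ev_x, pd_x]
      rw [hV, hp]
      fin_cases i <;> simp <;> ring
  · simp only [map_add, map_mul, Evs.ev_X, hX]
  · simp only [map_add, map_mul, Evs.ev_X]
  · induction u using MvPolynomial.induction_on with
    | C c => rw [ev_c, ev_c, hc]
    | add p q hp hq => simp only [map_add, hp, hq]
    | mul_X p i hp => simp only [map_mul, hp, ev_x]

end Pool.Agent.MP_05b4bd_ag.RV
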