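import Pool.Agent.MP_05b4bd_ag.rr.Spec2

/-! A cubic with two critical points in quadrature has the exotic normal form. -/

namespace Pool.Agent.MP_05b4bd_ag.RV

open MvPolynomial HC

namespace Exo

theorem key {A : Type} [CommRing A] (a0 a1 a2 a3 b0 b1 p0 p1 q0 q1 w ν m s t x y : A)
    (hw : w ^ 2 + 1 = 0) (hν : 12 * ν ^ 4 + 1 = 0)
    (h1 : 3 * a0 * p0 ^ 2 + 2 * a1 * p0 * p1 + a2 * p1 ^ 2 + b0 = 0)
    (h2 : a1 * p0 ^ 2 + 2 * a2 * p0 * p1 + 3 * a3 * p1 ^ 2 + b1 = 0)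
    (h3 : 3 * a0 * q0 ^ 2 + 2 * a1 * q0 * q1 + a2 * q1 ^ 2 + b0 = 0)
    (h4 : a1 * q0 ^ 2 + 2 * a2 * q0 * q1 + 3 * a3 * q1 ^ 2 + b1 = 0)
    (hm : b0 * p0 + b1 * p1 = -(3 * m)) (hq : b0 * q0 + b1 * q1 = -(3 * m * w))
    (fp : a0 * p0 ^ 3 + a1 * p0 ^ 2 * p1 + a2 * p0 * p1 ^ 2 + a3 * p1 ^ 3 = m)
    (fq : a0 * q0 ^ 3 + a1 * q0 ^ 2 * q1 + a2 * q0 * q1 ^ 2 + a3 * q1 ^ 3 = m * w)
    (hx : x = s * p0 + t * q0) (hy : y = s * p1 + t * q1) :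
    a0 * x ^ 3 + a1 * (x ^ 2 * y) + a2 * (x * y ^ 2) + a3 * y ^ 3 + (b0 * x + b1 * y) =
      6 * m * ν * ((ν * (s - w * t)) ^ 3 + ν * (s - w * t) * (6 * ν ^ 3 * (s + w * t)) ^ 2 +
        6 * ν ^ 3 * (s + w * t)) := by
  have e1 : a0 * x ^ 3 + a1 * (x ^ 2 * y) + a2 * (x * y ^ 2) + a3 * y ^ 3 + (b0 * x + b1 * y) =
      m * (s ^ 3 + 3 * w * s ^ 2 * t + 3 * s * t ^ 2 + w * t ^ 3) - 3 * m * (s + w * t) := by
    rw [hx, hy]
    linear_combination s ^ 3 * fp + s ^ 2 * t * (q0 * h1 + q1 * h2 - hq) +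
      s * t ^ 2 * (p0 * h3 + p1 * h4 - hm) + t ^ 3 * fq + s * hm + t * hq
  rw [e1]
  linear_combination m * (s ^ 3 + 3 * w * s ^ 2 * t + 3 * s * t ^ 2 + w * t ^ 3 -
    18 * ν ^ 4 * (s - w * t) * (s + w * t) ^ 2 - 3 * (s + w * t)) * hν -
    6 * m * ν ^ 4 * (6 * s * t ^ 2 + 2 * w * t ^ 3) * hw

variable {k : Type} [Field k]

theorem hom3 {u : R2 k} (hu : u.IsHomogeneous 3) : ∃ a0 a1 a2 a3 : k,
    u = C a0 * X 0 ^ 3 + C a1 * (X 0 ^ 2 * X 1) + C a2 * (X 0 * X 1 ^ 2) + C a3 * X 1 ^ 3 := by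
  have h := hom_eq_sum hu
  simp only [Finset.sum_range_succ, Finset.sum_range_zero, zero_add, Nat.sub_zero, pow_zero,
    mul_one, pow_one, Nat.sub_self, one_mul, Nat.add_one_sub_one, Nat.reduceSub] at h
  exact ⟨_, _, _, _, h⟩

theorem hom1 {u : R2 k} (hu : u.IsHomogeneous 1) : ∃ a b : k, u = C a * X 0 + C b * X 1 := by
  have h := hom_eq_sum hu
  simp only [Finset.sum_range_succ, Finset.sum_range_zero, zero_add, Nat.sub_zero, pow_zero,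
    mul_one, pow_one, Nat.sub_self, one_mul] at h
  exact ⟨_, _, h⟩

theorem dl_lin (a b : k) : DL 2 (C a * X 0 + C b * X 1 : R2 k) :=
  ((DL_X 0).C_mul a).add ((DL_X 1).C_mul b)

end Exo

theorem exoS : ExoStmt := by
  intro k _ _ _ F l w e p q c hF hl hw hp hq h0 h1
  obtain ⟨a0, a1, a2, a3, rfl⟩ := Exo.hom3 hF
  obtain ⟨b0, b1, rfl⟩ := Exo.hom1 hl
  have g0 : ∀ z : Fin 2 → k, eval z (pderiv 0 (C a0 * X 0 ^ 3 + C a1 * (X 0 ^ 2 * X 1) +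
      C a2 * (X 0 * X 1 ^ 2) + C a3 * X 1 ^ 3 + (C b0 * X 0 + C b1 * X 1) : R2 k)) =
      3 * a0 * z 0 ^ 2 + 2 * a1 * z 0 * z 1 + a2 * z 1 ^ 2 + b0 := fun z => by
    simp [pderiv_X]; ring
  have g1 : ∀ z : Fin 2 → k, eval z (pderiv 1 (C a0 * X 0 ^ 3 + C a1 * (X 0 ^ 2 * X 1) +
      C a2 * (X 0 * X 1 ^ 2) + C a3 * X 1 ^ 3 + (C b0 * X 0 + C b1 * X 1) : R2 k)) =
      a1 * z 0 ^ 2 + 2 * a2 * z 0 * z 1 + 3 * a3 * z 1 ^ 2 + b1 := fun z => by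
    simp [pderiv_X]; ring
  have p1 := (g0 p).symm.trans (hp 0)
  have p2 := (g1 p).symm.trans (hp 1)
  have q1 := (g0 q).symm.trans (hq 0)
  have q2 := (g1 q).symm.trans (hq 1)
  simp only [map_add, map_mul, eval_C, eval_X] at h0 h1
  have hD : p 0 * q 1 - p 1 * q 0 ≠ 0 := fun hD => by
    have e0 : q 0 = w * p 0 := mul_left_cancel₀ h0 (by linear_combination p 0 * h1 - b1 * hD)
    have e1 : q 1 = w * p 1 := mul_left_cancel₀ h0 (by linear_combination p 1 * h1 + b0 * hD)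
    rw [e0, e1] at q1 q2
    have z0 : b0 = 0 := by
      linear_combination (1 / 2) * p1 + (1 / 2) * q1 -
        (1 / 2) * (3 * a0 * p 0 ^ 2 + 2 * a1 * p 0 * p 1 + a2 * p 1 ^ 2) * hw
    have z1 : b1 = 0 := by
      linear_combination (1 / 2) * p2 + (1 / 2) * q2 -
        (1 / 2) * (a1 * p 0 ^ 2 + 2 * a2 * p 0 * p 1 + 3 * a3 * p 1 ^ 2) * hw
    exact h0 (by rw [z0, z1]; ring)
  obtain ⟨ν, hν⟩ := IsAlgClosed.exists_pow_nat_eq (-1 / 12 : k) (n := 4) (by norm_num)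
  obtain ⟨m, hm⟩ : ∃ m : k, b0 * p 0 + b1 * p 1 = -(3 * m) :=
    ⟨-(b0 * p 0 + b1 * p 1) / 3, by ring⟩
  obtain ⟨δ, hδ⟩ : ∃ δ : k, δ * (p 0 * q 1 - p 1 * q 0) = 1 := ⟨_, inv_mul_cancel₀ hD⟩
  have k1 := congrArg (C : k →+* R2 k) hδ
  have k2 := congrArg (C : k →+* R2 k) (show w ^ 2 + 1 = 0 by linear_combination hw)
  have k3 := congrArg (C : k →+* R2 k) (show 12 * ν ^ 4 + 1 = 0 by linear_combination 12 * hν)
  have k4 := congrArg (C : k →+* R2 k) p1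
  have k5 := congrArg (C : k →+* R2 k) p2
  have k6 := congrArg (C : k →+* R2 k) q1
  have k7 := congrArg (C : k →+* R2 k) q2
  have k8 := congrArg (C : k →+* R2 k) hm
  have k9 := congrArg (C : k →+* R2 k)
    (show b0 * q 0 + b1 * q 1 = -(3 * m * w) by linear_combination h1 + w * hm)
  have ka := congrArg (C : k →+* R2 k) (show a0 * p 0 ^ 3 + a1 * p 0 ^ 2 * p 1 +
    a2 * p 0 * p 1 ^ 2 + a3 * p 1 ^ 3 = m by
      linear_combination (1 / 3) * (p 0 * p1 + p 1 * p2 - hm))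
  have kb := congrArg (C : k →+* R2 k) (show a0 * q 0 ^ 3 + a1 * q 0 ^ 2 * q 1 +
    a2 * q 0 * q 1 ^ 2 + a3 * q 1 ^ 3 = m * w by
      linear_combination (1 / 3) * (q 0 * q1 + q 1 * q2 - h1 - w * hm))
  simp only [map_add, map_mul, map_sub, map_neg, map_pow, map_one, map_zero, map_ofNat]
    at k1 k2 k3 k4 k5 k6 k7 k8 k9 ka kb
  have E := Exo.key _ _ _ _ _ _ _ _ _ _ _ _ _ (C δ * (C (q 1) * X 0 - C (q 0) * X 1))
    (C δ * (C (p 0) * X 1 - C (p 1) * X 0)) (X 0) (X 1) k2 k3 k4 k5 k6 k7 k8 k9 ka kb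
    (by linear_combination -X 0 * k1) (by linear_combination -X 1 * k1)
  obtain ⟨u, hu⟩ : ∃ u : R2 k,
      u = C (ν * δ * (q 1 + w * p 1)) * X 0 + C (-(ν * δ * (q 0 + w * p 0))) * X 1 := ⟨_, rfl⟩
  obtain ⟨v, hv⟩ : ∃ v : R2 k, v = C (6 * ν ^ 3 * δ * (q 1 - w * p 1)) * X 0 +
      C (-(6 * ν ^ 3 * δ * (q 0 - w * p 0))) * X 1 := ⟨_, rfl⟩
  have du : DL 2 u := hu ▸ Exo.dl_lin _ _
  have dv : DL 2 v := hv ▸ Exo.dl_lin _ _
  simp only [map_add, map_mul, map_sub, map_neg, map_pow, map_ofNat] at hu hv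
  have eu : C ν * (C δ * (C (q 1) * X 0 - C (q 0) * X 1) -
      C w * (C δ * (C (p 0) * X 1 - C (p 1) * X 0))) = u := by rw [hu]; ring
  have ev : 6 * C ν ^ 3 * (C δ * (C (q 1) * X 0 - C (q 0) * X 1) +
      C w * (C δ * (C (p 0) * X 1 - C (p 1) * X 0))) = v := by rw [hv]; ring
  rw [eu, ev, show (6 * C m * C ν : R2 k) = C (6 * m * ν) by
    simp only [map_mul, map_ofNat]] at E
  have tc : ∀ x : k, tr c (C x) = C x := fun x => aeval_C _ x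
  refine ⟨k, inferInstance, RingHom.id k, 6 * m * ν, e, tr c u, tr c v, tr_DL c du, tr_DL c dv, ?_⟩
  rw [map_id, E]
  generalize 6 * m * ν = a
  simp only [map_add, map_mul, map_pow, tc]

end Pool.Agent.MP_05b4bd_ag.RV
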