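import Pool.Agent.MP_05b4bd_ag.rr.Bas

/-! Functions that a deck transformation fixes up to a given order. -/

namespace Pool.Agent.MP_05b4bd_ag.RV

open PowerSeries LaurentSeries HC
open ES hiding Gen Ob Inf

namespace F1

variable {L : Type} [Field L] {ω : L} {n : ℕ}

theorem fix (hn : 1 ≤ n) (hω : IsPrimitiveRoot ω n) {g : L⟦X⟧} (h : sb (C ω * X) g = g) :
    ∃ g1, g = ram L n g1 := by
  refine ⟨PowerSeries.mk fun j => coeff (n * j) g, PowerSeries.ext fun m => ?_⟩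
  rw [coeff_ram hn]
  split_ifs with k
  · rw [coeff_mk, Nat.mul_div_cancel' k]
  · have e := congrArg (coeff m) h
    rw [← rescale_eq_sb, coeff_rescale] at e
    exact by_contra fun z => k ((hω.pow_eq_one_iff_dvd m).1 (mul_left_eq_self₀.1 e |>.resolve_right z))

theorem quo (hn : 1 ≤ n) (hω : IsPrimitiveRoot ω n) {r g : L⟦X⟧} (hr : sb (C ω * X) r = r)
    (o : OrdIs n r) (r0 : cc r = 0) (hg : sb (C ω * X) g = g) : ∃ g', g = sb r g' := by
  obtain ⟨r1, rfl⟩ := fix hn hω hr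
  obtain ⟨g1, rfl⟩ := fix hn hω hg
  rw [cc_ram hn] at r0
  have o1 := o.1
  rw [coeff_ram hn, if_pos dvd_rfl, Nat.div_self hn] at o1
  obtain ⟨e, e1, -, -, e2⟩ := exists_inv r0 o1.isUnit
  exact ⟨sb e g1, by rw [ram, ← sb_sb (cc_X_pow hn) r0, sb_sb r0 e1, e2, sb_id]⟩

end F1

open F1 in
theorem f1S : F1Stmt := by
  intro L _ _ ω n i ρ ρ' Φ hn hω h hρ o c0 c1 hd
  have := K3.charL (κ := L)
  have s0 : cc (C ω * X : L⟦X⟧) = 0 := by simp
  have h0 := K3.ne0 s0 (mul_ne_zero ((map_ne_zero C).2 (hω.ne_zero (by omega))) X_ne_zero)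
  have q0 : c00 ρ = 0 := by rw [c00_apply, c0, map_zero]
  have q1 : cc (red ρ) = 0 := (cc_red ρ).trans q0
  have r0 : sb (C ω * X) (red ρ) = red ρ := coeL_inj ((h.cc_eq h0 ρ).symm.trans (hρ ▸ cc_iT ρ))
  have mt : tA L 0 ∈ up (up (⊥ : Ideal L)) := by
    rw [mem_up2, Ideal.mem_bot, c00_apply, tA]
    simp
  have e0 : ES.ev CC (tA L 0) = (C : L⟦X⟧ →+* AA L) := homExt (up (up ⊥)) (ES.ev_C _ mt)
    (by rw [ES.ev_X _ mt, tA, pow_zero, mul_one]) (by rwa [ES.ev_X _ mt])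
  have ag : ∀ Ψ, Φ (sb ρ Ψ) = iT (sb ρ Ψ) := fun Ψ => by
    have := h.agree h0 (isOut_out 0) ((map_ne_zero_iff _ coeL_inj).2 X_ne_zero) q0 q0
      (by rw [out_zero, hρ]) (fun g => by rw [RingHom.comp_apply, sb_sb s0 q1, r0]) Ψ
    rwa [out_zero, ev2, e0] at this
  have t0 : Φ (C X) = X := by simpa using h.2
  have co : ∀ (i : ℕ) (Ψ γ : AA L), ρ' = sb ρ Ψ + C X ^ i * γ →
      coeff i (Φ ρ' - iT ρ') = coeL L (sb (C ω * X) (red γ) - red γ) := fun i Ψ γ e => by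
    have : Φ ρ' - iT ρ' = X ^ i * (Φ γ - iT γ) := by
      simp only [e, map_add, map_mul, map_pow, ag, t0, iT_CX]
      ring
    rw [this, coeff_X_pow_mul', if_pos le_rfl, Nat.sub_self, coeff_zero_eq_constantCoeff_apply,
      map_sub, map_sub, h.cc_eq h0, cc_iT, RingHom.comp_apply]
  have one : ∃ Ψ γ : AA L, cc Ψ = 0 ∧ ρ' = sb ρ Ψ + C X ^ i * γ := by
    induction i with
    | zero => exact ⟨0, ρ', map_zero _, by simp⟩
    | succ i ih =>
      obtain ⟨Ψ, γ, a, e⟩ := ih ((pow_dvd_pow X i.le_succ).trans hd)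
      have g0 : cc γ = 0 := by
        have := congrArg cc e
        rw [c1, map_add, cc_sb c0, a, zero_add, map_mul, map_pow, constantCoeff_C] at this
        exact (mul_eq_zero.1 this.symm).resolve_left (pow_ne_zero _ X_ne_zero)
      have k := (co i Ψ γ e).symm.trans (X_pow_dvd_iff.1 hd i i.lt_succ_self)
      obtain ⟨g, hg⟩ := quo hn hω r0 o q1 (sub_eq_zero.1 ((map_eq_zero_iff _ coeL_inj).1 k))
      have g1 : cc g = 0 := by rw [← cc_sb q1, ← hg, cc_red, c00_apply, g0, map_zero]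
      obtain ⟨γ', e'⟩ : C X ∣ γ - sb ρ (map C g) := red_eq_zero.1 (by
        rw [map_sub, hg, sub_eq_zero]
        exact ((map_sb c0 cc _).trans (congrArg _ (red_mapC g))).symm)
      refine ⟨Ψ + C X ^ i * map C g, γ', ?_, ?_⟩
      · rw [map_add, map_mul, a, zero_add, ← coeff_zero_eq_constantCoeff_apply (map C g), coeff_map,
          coeff_zero_eq_constantCoeff_apply, g1, map_zero, mul_zero]
      · rw [map_add, map_mul, map_pow, sb_C c0, e, eq_add_of_sub_eq e']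
        ring
  refine ⟨one, fun m hm => ?_⟩
  obtain ⟨Ψ, γ, -, e⟩ := one
  rw [co i Ψ γ e]
  rcases hm.eq_or_lt with rfl | hm
  · refine (coeff_coeL _ 0).trans ?_
    rw [coeff_zero_eq_constantCoeff_apply, map_sub, cc_sb s0, sub_self]
  · exact coeff_coeL_neg _ hm

end Pool.Agent.MP_05b4bd_ag.RV
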