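import Pool.Agent.MP_05b4bd_ag.rr.Bas

/-! Leading terms of the radial equations at the fold and on the invariant curve. -/

namespace Pool.Agent.MP_05b4bd_ag.RV

open PowerSeries LaurentSeries HC
open ES hiding Gen Ob Inf
open ES.U (TM Cr hom)
open PC3 (Fm fm d1 DF sub2 pb mapF Van CenK iS)

namespace F2b

section Hev
variable {R S : Type} [CommRing R] [CommRing S] (φ : R →+* S) (x y z : S)

theorem hev_hom {e : ℕ} {g : R2 R} (hg : g.IsHomogeneous e) (c : ℕ) :
    hev φ (e + c) g x y z = z ^ c * MvPolynomial.eval₂ φ ![x, y] g := by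
  unfold hev
  rw [Finset.sum_eq_single e]
  · rw [hc_self hg, Nat.add_sub_cancel_left, mul_comm]
  · intro i _ hi
    rw [hc_ne hg hi, MvPolynomial.eval₂_zero, zero_mul]
  · intro h
    exact absurd (Finset.mem_range.2 (by omega)) h

theorem hev_lin {l : R2 R} (hl : l.IsHomogeneous 1) (d : ℕ) (u : R2 R) :
    hev φ (d + 1) (u * l) x y z = hev φ d u x y z * MvPolynomial.eval₂ φ ![x, y] l := by
  unfold hev
  rw [Finset.sum_range_succ', Finset.sum_mul,
    hc_of_mm (Ideal.mul_mem_left _ u (mm_hom hl)) zero_lt_one, MvPolynomial.eval₂_zero, zero_mul,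
    add_zero]
  refine Finset.sum_congr rfl fun i _ => ?_
  rw [hc_mul_hom i u hl, MvPolynomial.eval₂_mul, Nat.add_sub_add_right]
  ring

theorem hev_pow {l g : R2 R} {e : ℕ} (hl : l.IsHomogeneous 1) (hg : g.IsHomogeneous e)
    (c m : ℕ) : hev φ (e + c + m) ((1 + l) ^ m * g) x y z =
      (z + MvPolynomial.eval₂ φ ![x, y] l) ^ m * (z ^ c * MvPolynomial.eval₂ φ ![x, y] g) := by
  induction m with
  | zero => rw [pow_zero, pow_zero, one_mul, one_mul, add_zero, hev_hom φ x y z hg]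
  | succ m ih =>
    have h1 : DL (1 + 1) (1 + l) := by
      refine DL.add ?_ (DL.of_hom hl)
      rw [← MvPolynomial.C_1]
      exact (DL_C _).mono (by omega)
    have h2 : DL (e + c + m + 1) ((1 + l) ^ m * g) :=
      ((h1.pow m).mul (DL.of_hom hg)).mono (by omega)
    have e1 : (1 + l) ^ (m + 1) * g = (1 + l) ^ m * g + (1 + l) ^ m * g * l := by ring
    rw [e1, hev_add, ← add_assoc, hev_succ φ _ h2, hev_lin φ x y z hl, ih]
    ring

theorem hev_sum {ι : Type} (s : Finset ι) (d : ℕ) (g : ι → R2 R) :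
    hev φ d (∑ i ∈ s, g i) x y z = ∑ i ∈ s, hev φ d (g i) x y z := by
  classical
  induction s using Finset.induction_on with
  | empty =>
    have h := hev_C_mul φ (d := d) 0 0 x y z
    rw [mul_zero, map_zero, zero_mul] at h
    rw [Finset.sum_empty, Finset.sum_empty, h]
  | insert a s ha ih => rw [Finset.sum_insert ha, Finset.sum_insert ha, hev_add, ih]

/-- The symmetric form, summed along the model function. -/
noncomputable def G (d a b : ℕ) (lb : S) (s : Fm R) (p q : S) : S :=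
  ∑ i ∈ Finset.range ((d - 1) / (a + b) + 1), (z ^ a * (z + lb) ^ b) ^ i *
    (MvPolynomial.eval₂ φ ![x, y] (hc (d - 1 - i * (a + b)) s.1) * q -
      MvPolynomial.eval₂ φ ![x, y] (hc (d - 1 - i * (a + b)) s.2) * p)

theorem hev_mdl {d : ℕ} (hd : 1 ≤ d) (a b : ℕ) (l0 l1 : R) (s : Fm R) (p q : S) :
    hev φ d (mdl d a b (1 + HC.lf l0 l1) s).1 x y z * q -
      hev φ d (mdl d a b (1 + HC.lf l0 l1) s).2 x y z * p =
    ((a + b : ℕ) : S) * (z + (φ l0 * x + φ l1 * y)) *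
        G φ x y z d a b (φ l0 * x + φ l1 * y) s p q -
      b * G φ x y z d a b (φ l0 * x + φ l1 * y) s x y * (φ l0 * p + φ l1 * q) := by
  unfold mdl G
  rw [Prod.fst_sum, Prod.snd_sum, hev_sum, hev_sum]
  simp only [Finset.sum_mul, Finset.mul_sum, ← Finset.sum_sub_distrib]
  refine Finset.sum_congr rfl fun i hi => ?_
  have hi' : i * (a + b) ≤ d - 1 :=
    (Nat.mul_le_mul_right _ (Nat.lt_succ_iff.1 (Finset.mem_range.1 hi))).trans
      (Nat.div_mul_le_self _ _)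
  obtain ⟨e, he⟩ : ∃ e, e = d - 1 - i * (a + b) := ⟨_, rfl⟩
  rw [← he]
  have d1' : d = e + a * i + (b * i + 1) := by
    rw [mul_add, mul_comm i a, mul_comm i b] at hi' he; omega
  have d2' : d = e + 1 + a * i + b * i := by omega
  have hl := lf_hom l0 l1
  have el : MvPolynomial.eval₂ φ ![x, y] (HC.lf l0 l1) = φ l0 * x + φ l1 * y := by
    simp [HC.lf]
  have hE : (cE (wpt e s)).IsHomogeneous (e + 1) := by
    rw [add_comm]
    exact ((MvPolynomial.isHomogeneous_X _ 1).mul (hc_hom e _)).sub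
      ((MvPolynomial.isHomogeneous_X _ 0).mul (hc_hom e _))
  have eE : MvPolynomial.eval₂ φ ![x, y] (cE (wpt e s)) =
      MvPolynomial.eval₂ φ ![x, y] (hc e s.1) * y - MvPolynomial.eval₂ φ ![x, y] (hc e s.2) * x := by
    simp only [cE, wpt, MvPolynomial.eval₂_sub, MvPolynomial.eval₂_mul, MvPolynomial.eval₂_X,
      Matrix.cons_val_zero, Matrix.cons_val_one]
    ring
  have k1 := fun u => hev_pow φ x y z hl (hc_hom e u) (a * i) (b * i + 1)
  have k2 := hev_pow φ x y z hl hE (a * i) (b * i)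
  rw [← d1', el] at k1
  rw [← d2', el, eE] at k2
  have c1 : ((1 + HC.lf l0 l1) ^ (b * i) • ((((a + b : ℕ) : R2 R) * (1 + HC.lf l0 l1)) • wpt e s -
      fm ((b : R2 R) * cE (wpt e s)) (1 + HC.lf l0 l1))).1 =
      MvPolynomial.C ((a + b : ℕ) : R) * ((1 + HC.lf l0 l1) ^ (b * i + 1) * hc e s.1) +
      MvPolynomial.C (-(b * l1)) * ((1 + HC.lf l0 l1) ^ (b * i) * cE (wpt e s)) := by
    simp only [Prod.smul_fst, Prod.fst_sub, smul_eq_mul, fm, map_add, MvPolynomial.pderiv_one,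
      lf_y, map_natCast, map_neg, map_mul]
    change _ * (_ * hc e s.1 - _) = _
    ring
  have c2 : ((1 + HC.lf l0 l1) ^ (b * i) • ((((a + b : ℕ) : R2 R) * (1 + HC.lf l0 l1)) • wpt e s -
      fm ((b : R2 R) * cE (wpt e s)) (1 + HC.lf l0 l1))).2 =
      MvPolynomial.C ((a + b : ℕ) : R) * ((1 + HC.lf l0 l1) ^ (b * i + 1) * hc e s.2) +
      MvPolynomial.C (b * l0) * ((1 + HC.lf l0 l1) ^ (b * i) * cE (wpt e s)) := by
    simp only [Prod.smul_snd, Prod.snd_sub, smul_eq_mul, fm, map_add, MvPolynomial.pderiv_one,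
      lf_x, map_natCast, map_mul]
    change _ * (_ * hc e s.2 - _) = _
    ring
  rw [c1, c2]
  simp only [hev_add, hev_C_mul, k1, k2]
  simp only [map_natCast, map_neg, map_mul]
  rw [mul_pow, ← pow_mul, ← pow_mul]
  ring

end Hev

section Red
variable {k L : Type} [Field k] [Field L] (κ : k →+* L) (x y : L)

theorem cc_ev (u : R2 k⟦X⟧) :
    cc (MvPolynomial.eval₂ (map κ) ![C x, C y] u) = evp κ x y (MvPolynomial.map cc u) := by
  induction u using MvPolynomial.induction_on with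
  | C a => simp [evp, K3.cc_map]
  | add a b ha hb => simp only [MvPolynomial.eval₂_add, map_add, ha, hb]
  | mul_X a i ha =>
    simp only [MvPolynomial.eval₂_mul, map_mul, ha, MvPolynomial.eval₂_X, MvPolynomial.map_X]
    fin_cases i <;> simp [evp]

theorem cc_hev (d : ℕ) (u : R2 k⟦X⟧) {z : L⟦X⟧} (hz : cc z = 0) :
    cc (hev (map κ) d u (C x) (C y) z) = evp κ x y (hc d (MvPolynomial.map cc u)) := by
  unfold hev
  rw [Finset.sum_range_succ, map_add, map_sum, Finset.sum_eq_zero, zero_add, Nat.sub_self, pow_zero,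
    mul_one, cc_ev, hc_map]
  intro i hi
  rw [map_mul, map_pow, hz, zero_pow (by have := Finset.mem_range.1 hi; omega), mul_zero]

theorem cc_G (d : ℕ) {a : ℕ} (ha : 1 ≤ a) (b : ℕ) (lb : L⟦X⟧) (s : Fm k⟦X⟧) (p q : L) {z : L⟦X⟧}
    (hz : cc z = 0) : cc (G (map κ) (C x) (C y) z d a b lb s (C p) (C q)) =
      evp κ x y (hc (d - 1) (MvPolynomial.map cc s.1)) * q -
        evp κ x y (hc (d - 1) (MvPolynomial.map cc s.2)) * p := by
  unfold G
  rw [Finset.sum_range_succ', map_add, map_sum, Finset.sum_eq_zero, zero_add, pow_zero, one_mul,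
    zero_mul, Nat.sub_zero, map_sub, map_mul, map_mul, cc_ev, cc_ev, hc_map, hc_map,
    constantCoeff_C, constantCoeff_C]
  intro i _
  rw [map_mul, map_pow, map_mul, map_pow, hz, zero_pow (by omega), zero_mul,
    zero_pow (by omega), zero_mul]

end Red

/-- The computation with leading terms. -/
theorem core {L : Type} [Field L] [CharZero L] {D : L →+ L} (hD : IsDer D) {a b d j : ℕ}
    (ha : 1 ≤ a) {lb z0 z1 S0 S1 T1 r0 r1 t1 : L⟦X⟧} {A s : L} (hz : z1 ≠ 0)
    (h1 : X ^ j ∣ z1 + lb) (h2 : X ^ (j + 1) ∣ ((a + b : ℕ) : L⟦X⟧) * z0 - (a : L⟦X⟧) * z1)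
    (e0 : ((a + b : ℕ) : L⟦X⟧) * (z0 + lb) * S0 - (b : L⟦X⟧) * S0 * lb + X ^ j * r0 = 0)
    (e1 : (((a + b : ℕ) : L⟦X⟧) * (z1 + lb) * S1 - (b : L⟦X⟧) * S1 * lb + X ^ j * r1) *
      cw D z1 =
      z1 * (((a + b : ℕ) : L⟦X⟧) * (z1 + lb) * T1 - (b : L⟦X⟧) * S1 * cw D lb + X ^ j * t1))
    (s0 : cc S0 = s) (s1 : cc S1 = s) (hs : D s = 0) (hT : cc T1 = 0)
    (a0 : cc r0 = (d + 1 : ℕ) * A) (a1 : cc r1 = (d + 1 : ℕ) * A) (b1 : cc t1 = D A) :
    D A = 0 := by
  obtain ⟨ε, hε⟩ := h1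
  obtain ⟨q, hq⟩ := h2
  obtain ⟨u, hu, hc⟩ : ∃ u, z1 = X ^ z1.order.toNat * u ∧ cc u ≠ 0 :=
    ⟨divXPowOrder z1, (X_pow_order_mul_divXPowOrder (f := z1)).symm, by
      rwa [Ne, constantCoeff_divXPowOrder_eq_zero_iff]⟩
  generalize z1.order.toNat = ν at hu
  have hX : ∀ m : ℕ, (X : L⟦X⟧) ^ m ≠ 0 := fun m => pow_ne_zero m X_ne_zero
  have dz : cw D z1 = X ^ ν * cw D u := by rw [hu, cw_X_pow_mul]
  have dl : cw D lb = X ^ j * cw D ε - X ^ ν * cw D u := by
    rw [← dz, ← cw_X_pow_mul, ← hε, map_add, add_sub_cancel_left]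
  have el : lb = X ^ j * ε - X ^ ν * u := by rw [← hε, ← hu, add_sub_cancel_left]
  have f0 : (X * q + (a : L⟦X⟧) * ε) * S0 + r0 = 0 := by
    refine mul_left_cancel₀ (hX j) ?_
    push_cast at e0 hq
    linear_combination e0 - S0 * hq - a * S0 * hε
  have f1 : S1 * (a * ε * cw D u + b * u * cw D ε) - (a + b) * u * ε * T1 + r1 * cw D u -
      u * t1 = 0 := by
    refine mul_left_cancel₀ (hX j) (mul_left_cancel₀ (hX ν) ?_)
    rw [dz, dl, el, hu] at e1
    push_cast at e1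
    linear_combination e1
  have g0 := congrArg cc f0
  have g1 := congrArg cc f1
  simp only [map_add, map_sub, map_mul, map_natCast, constantCoeff_X, cc_cw, s0, s1, hT, a0, a1, b1,
    map_zero, zero_mul, zero_add, mul_zero, sub_zero] at g0 g1
  have g2 := congrArg D g0
  rw [map_add, map_zero, hD, hs, mul_zero, add_zero, hD.const_mul (hD.natCast _),
    hD.const_mul (hD.natCast _)] at g2
  have g3 : s * b * D (cc ε) = D A := by
    refine mul_left_cancel₀ hc ?_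
    linear_combination g1 - D (cc u) * g0
  have hn : ((a + b * (d + 1) : ℕ) : L) ≠ 0 := Nat.cast_ne_zero.2 (by omega)
  refine mul_left_cancel₀ hn ?_
  push_cast at g2 ⊢
  linear_combination b * g2 - a * g3

/-- A form of degree `d + 1` commuting with `F` vanishes. -/
theorem ker {k : Type} [Field k] [CharZero k] {d : ℕ} {F A : R2 k} (hd : 2 ≤ d)
    (hF : F.IsHomogeneous d) (hci : CI (MvPolynomial.pderiv 0 F) (MvPolynomial.pderiv 1 F))
    (h0 : F ≠ 0) (hA : A.IsHomogeneous (d + 1)) (h : br A F = 0) : A = 0 := by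
  obtain ⟨m, hm⟩ := Esc.tf hF hci hA (by omega) (by rw [h]; exact dvd_zero _)
  have e : A = F * hc 1 m := by
    rw [← hc_self hA, hm, add_comm, mul_comm, hc_mul_hom 1 m hF, mul_comm]
  rw [e, Esc.br_F_mul] at h
  obtain ⟨g, hg⟩ := Esc.tf hF hci (hc_hom 1 m) one_ne_zero
    (by rw [(mul_eq_zero.1 h).resolve_left h0]; exact dvd_zero _)
  rw [e, ← hc_self (hc_hom 1 m), hg, hc_of_mm (Ideal.mul_mem_right g _ (mm_hom hF)) (by omega),
    mul_zero]

end F2b

open F2b in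
theorem f2bS (h : OrdStmt) : F2bStmt := by
  intro k L _ _ _ d n R w s r α β j l0 l1 z0 z1 A ha hn M hA hr c0 c1 hz h1 h2 e0 e1
  subst hn
  have : CharZero L := (R.κ.charZero_iff R.κ.injective).1 inferInstance
  obtain ⟨hD, hκ, hF, hx, hy⟩ := R.cv
  obtain ⟨e, rfl⟩ : ∃ e, d = e + 1 := ⟨d - 1, by have := R.d3; omega⟩
  have d3 := R.d3
  have eu : ∀ {N : ℕ} {u : R2 k}, u.IsHomogeneous N →
      evp R.κ R.xb R.yb (MvPolynomial.pderiv 1 u) * R.yb -
        evp R.κ R.xb R.yb (-MvPolynomial.pderiv 0 u) * R.xb = N * evp R.κ R.xb R.yb u := by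
    intro N u hu
    have e := congrArg (evp R.κ R.xb R.yb) (euler hu)
    simp only [map_add, map_mul, map_natCast] at e
    rw [← e, map_neg]
    simp only [evp, MvPolynomial.coe_eval₂Hom, MvPolynomial.eval₂_X, Matrix.cons_val_zero,
      Matrix.cons_val_one]
    ring
  have w1 : ∀ z p q : L⟦X⟧, hev (map R.κ) (e + 1) w.1 (C R.xb) (C R.yb) z * q -
      hev (map R.κ) (e + 1) w.2 (C R.xb) (C R.yb) z * p =
      ((α + β : ℕ) : L⟦X⟧) * (z + R.l l0 l1) *
        G (map R.κ) (C R.xb) (C R.yb) z (e + 1) α β (R.l l0 l1) s p q -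
      (β : L⟦X⟧) * G (map R.κ) (C R.xb) (C R.yb) z (e + 1) α β (R.l l0 l1) s (C R.xb) (C R.yb) *
        (map R.κ l0 * p + map R.κ l1 * q) +
      X ^ j * (hev (map R.κ) (e + 1) r.1 (C R.xb) (C R.yb) z * q -
        hev (map R.κ) (e + 1) r.2 (C R.xb) (C R.yb) z * p) := by
    intro z p q
    unfold Rd.l
    rw [← hev_mdl _ _ _ _ (by omega), M.eq]
    simp only [Prod.fst_add, Prod.snd_add, Prod.smul_fst, Prod.smul_snd, smul_eq_mul, hev_add,
      hev_C_mul]
    rw [map_pow, map_X]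
    ring
  have dl : map R.κ l0 * C (R.D R.xb) + map R.κ l1 * C (R.D R.yb) = cw R.D (R.l l0 l1) := by
    have z : ∀ c, cw R.D (map R.κ c) = 0 := fun c => by
      ext m
      simp [cw, hκ]
    unfold Rd.l
    rw [map_add, hD.coefw.const_mul (z _), hD.coefw.const_mul (z _), cw_C, cw_C]
  have n0 : ((α + β : ℕ) : L) ≠ 0 := Nat.cast_ne_zero.2 (by omega)
  have r1 : hc (e + 1) (MvPolynomial.map cc r.1) = MvPolynomial.pderiv 1 A := congrArg Prod.fst hr
  have r2 : hc (e + 1) (MvPolynomial.map cc r.2) = -MvPolynomial.pderiv 0 A := congrArg Prod.snd hr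
  have s1 : ((α + β : ℕ) : L) * evp R.κ R.xb R.yb (hc (e + 1 - 1) (MvPolynomial.map cc s.1)) =
      evp R.κ R.xb R.yb (MvPolynomial.pderiv 1 (hc (e + 1) R.f)) := by
    have e1 : ((α + β : ℕ) : R2 k) * MvPolynomial.map cc s.1 = MvPolynomial.pderiv 1 R.f :=
      congrArg Prod.fst M.red
    rw [← hc_pderiv, ← e1, ← map_natCast MvPolynomial.C, hc_C_mul, map_mul, map_natCast,
      map_natCast, Nat.add_sub_cancel]
  have s2 : ((α + β : ℕ) : L) * evp R.κ R.xb R.yb (hc (e + 1 - 1) (MvPolynomial.map cc s.2)) =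
      evp R.κ R.xb R.yb (-MvPolynomial.pderiv 0 (hc (e + 1) R.f)) := by
    have e1 : ((α + β : ℕ) : R2 k) * MvPolynomial.map cc s.2 = -MvPolynomial.pderiv 0 R.f :=
      congrArg Prod.snd M.red
    rw [← hc_pderiv, ← hc_neg, ← e1, ← map_natCast MvPolynomial.C, hc_C_mul, map_mul, map_natCast,
      map_natCast, Nat.add_sub_cancel]
  unfold aR at e0 e1
  unfold bR at e1
  rw [w1] at e0 e1
  rw [w1, dl] at e1
  have ca : ∀ z : L⟦X⟧, cc z = 0 → cc (hev (map R.κ) (e + 1) r.1 (C R.xb) (C R.yb) z * C R.yb -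
      hev (map R.κ) (e + 1) r.2 (C R.xb) (C R.yb) z * C R.xb) =
      (e + 1 + 1 : ℕ) * evp R.κ R.xb R.yb A := fun z hz => by
    rw [map_sub, map_mul, map_mul, cc_hev _ _ _ _ _ hz, cc_hev _ _ _ _ _ hz, r1, r2,
      constantCoeff_C, constantCoeff_C, eu hA]
  have dA : R.D (evp R.κ R.xb R.yb A) = evp R.κ R.xb R.yb (MvPolynomial.pderiv 0 A) * R.D R.xb +
      evp R.κ R.xb R.yb (MvPolynomial.pderiv 1 A) * R.D R.yb := hD.eval₂ R.κ hκ _ _ A
  have key : R.D (evp R.κ R.xb R.yb A) = 0 := by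
    refine core hD ha hz h1 h2 e0 e1 (cc_G _ _ _ _ ha _ _ _ _ _ c0) (cc_G _ _ _ _ ha _ _ _ _ _ c1)
      ?_ ?_ (ca _ c0) (ca _ c1) ?_
    · refine mul_left_cancel₀ n0 ?_
      rw [← hD.const_mul (hD.natCast _), mul_sub, ← mul_assoc, ← mul_assoc, s1, s2,
        eu (hc_hom _ _), hF, mul_one, hD.natCast, mul_zero]
    · refine mul_left_cancel₀ n0 ?_
      rw [cc_G _ _ _ _ ha _ _ _ _ _ c1, mul_sub, ← mul_assoc, ← mul_assoc, s1, s2, hx, hy, map_neg]
      ring
    · rw [map_sub, map_mul, map_mul, cc_hev _ _ _ _ _ c1, cc_hev _ _ _ _ _ c1, r1, r2,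
        constantCoeff_C, constantCoeff_C, dA, map_neg]
      ring
  refine ker (by omega) (hc_hom _ _) R.gen.tm.ci (fun h0 => ?_) hA
    ((h k L _ _ R).2.2.2 _ _ (Esc.br_hom (hc_hom _ _) hA) ?_)
  · rw [h0, map_zero] at hF
    exact zero_ne_one hF
  · rw [← key, dA, hx, hy, br, map_sub, map_mul, map_mul]
    ring

end Pool.Agent.MP_05b4bd_ag.RV
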