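import Pool.Agent.MP_05b4bd_ag.rr.Bas

/-! The position of the fold and of the invariant curve modulo a power of the parameter. -/

namespace Pool.Agent.MP_05b4bd_ag.RV

open PowerSeries LaurentSeries HC
open ES hiding Gen Ob Inf

namespace F2s

theorem cancel {S : Type} [CommRing S] {t : S} {j n : ℕ} {f : S⟦X⟧} (h : C t ^ j ∣ X ^ n * f) :
    C t ^ j ∣ f := by
  rw [C_pow_dvd_iff] at h ⊢
  intro i
  have := h (i + n)
  rwa [coeff_X_pow_mul] at this

theorem coef {S : Type} [CommRing S] (m : S) (b : ℕ) :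
    coeff b ((X + C m : S⟦X⟧) ^ (b + 1)) = m * (b + 1 : ℕ) := by
  have e : (X + C m : S⟦X⟧) ^ (b + 1) =
      (((Polynomial.X + Polynomial.C m) ^ (b + 1) : Polynomial S) : S⟦X⟧) := by
    rw [Polynomial.coe_pow, Polynomial.coe_add, Polynomial.coe_X, Polynomial.coe_C]
  rw [e, Polynomial.coeff_coe, Polynomial.coeff_X_add_C_pow, Nat.add_sub_cancel_left, pow_one,
    Nat.choose_succ_self_right]

end F2s

theorem f2sS : F2sStmt := by
  intro L _ _ u l z0 z1 α β j hα hβ hu hl h0 h1 n0 n1 hd hf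
  obtain ⟨a, rfl⟩ := Nat.exists_eq_add_of_le' hα
  obtain ⟨b, rfl⟩ := Nat.exists_eq_add_of_le' hβ
  have m0 := K3.mem_JX' h0
  have m1 := K3.mem_JX' h1
  rw [mul_comm u, mul_assoc, ← mul_sub] at hd
  have h2 := map_dvd (sb (X + C z1)) (F2s.cancel hd)
  rw [map_pow, sh_C _ m1, map_sub, map_mul, map_pow, map_pow, map_add, map_sub, sh_X _ m1,
    sh_C _ m1, sh_C _ m1, add_sub_cancel_right, add_assoc, ← map_add] at h2
  have h3 : X ^ j ∣ z1 + l := by
    have h4 := (C_pow_dvd_iff _ _ _).1 h2 b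
    rw [map_sub, F2s.coef, X_pow_dvd_iff.1 (dvd_mul_left _ _) b (Nat.lt_succ_self b),
      sub_zero] at h4
    refine (IsUnit.dvd_mul_right ?_).1 h4
    rw [← map_natCast (C : L →+* L⟦X⟧)]
    exact (IsUnit.mk0 _ (Nat.cast_ne_zero.2 (Nat.succ_ne_zero b))).map _
  refine ⟨h3, ?_⟩
  have h5 : (C X ^ j : AA L) ∣ (X + C (z1 + l)) ^ (b + 1) - X ^ (b + 1) := by
    refine dvd_trans ?_ (sub_dvd_pow_sub_pow _ _ _)
    rw [add_sub_cancel_left, ← map_pow]
    exact map_dvd _ h3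
  have h6 : (C X ^ j : AA L) ∣ sb (X + C z1) u - 1 := by
    refine F2s.cancel (n := b + 1) ?_
    have := dvd_sub h5 h2
    convert this using 1
    ring
  have h7 := map_dvd (sb (X + C (-z1))) h6
  rw [map_pow, sh_C _ ((K3.JX L).neg_mem m1), map_sub, map_one, sh_sh _ ((K3.JX L).neg_mem m1) m1,
    neg_add_cancel, K1b.sh_zero (K3.JX L)] at h7
  have h8 := map_dvd (ES.ev (RingHom.id L⟦X⟧) z0) (isDer_dX.dvd (dX_C _) h7)
  rw [map_pow, ES.ev_C _ m0, RingHom.id_apply, map_sub, isDer_dX.one, sub_zero] at h8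
  have h9 := (factor _ m0).1 hf
  rw [isDer_dX, isDer_dX, isDer_dX.pow, isDer_dX.pow, map_sub, dX_X, dX_C] at h9
  simp only [map_add, map_mul, map_pow, map_sub, map_natCast, map_one, map_zero, ES.ev_X _ m0,
    ES.ev_C _ m0, RingHom.id_apply, Nat.add_sub_cancel] at h9
  have h10 : ES.ev (RingHom.id L⟦X⟧) z0 u *
      (((a + 1 + (b + 1) : ℕ) : L⟦X⟧) * z0 - ((a + 1 : ℕ) : L⟦X⟧) * z1) =
      -(ES.ev (RingHom.id L⟦X⟧) z0 (dX _ u) * z0 * (z0 - z1)) := by
    refine mul_left_cancel₀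
      (mul_ne_zero (pow_ne_zero a n0) (pow_ne_zero b (sub_ne_zero.2 n1))) ?_
    push_cast at h9 ⊢
    linear_combination h9
  refine (IsUnit.dvd_mul_left (hu.map (ES.ev (RingHom.id L⟦X⟧) z0))).1 ?_
  rw [h10, dvd_neg, pow_succ]
  exact Dvd.dvd.mul_right (mul_dvd_mul h8 (X_dvd_iff.2 h0)) _

end Pool.Agent.MP_05b4bd_ag.RV
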