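import Pool.Agent.MP_05b4bd_ag.rr.Spec3
import Mathlib.Algebra.Squarefree.Basic
import Mathlib.RingTheory.UniqueFactorizationDomain.Multiplicity

/-! A function with one fold has two branches. -/

namespace Pool.Agent.MP_05b4bd_ag.RV

open PowerSeries LaurentSeries HC
open ES hiding Gen Ob Inf

namespace Fac

/-- The multiplicity of a prime drops by one under a derivation. -/
theorem pow_dvd {A : Type} [CommRing A] [IsDomain A] {D : A →+ A} (hD : IsDer D)
    (hn : ∀ n : ℕ, IsUnit ((n + 1 : ℕ) : A)) {p y : A} (hp : Prime p) (h0 : ¬ p ∣ D p)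
    (hy : p ∣ y) (k : ℕ) (h : p ^ k ∣ D y) : p ^ (k + 1) ∣ y := by
  induction k with
  | zero => simpa using hy
  | succ k ih =>
    obtain ⟨g, rfl⟩ := ih ((pow_dvd_pow p k.le_succ).trans h)
    rw [hD, hD.pow, Nat.add_sub_cancel, dvd_add_left (dvd_mul_right _ _)] at h
    have e : p ^ k * p ∣ p ^ k * (((k + 1 : ℕ) : A) * (D p * g)) := by
      rw [← pow_succ]
      exact h.trans (dvd_of_eq (by ring))
    rw [mul_dvd_mul_iff_left (pow_ne_zero k hp.ne_zero), (hn k).dvd_mul_left] at e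
    rw [pow_succ p (k + 1)]
    exact mul_dvd_mul_left _ ((hp.dvd_or_dvd e).resolve_left h0)

theorem mul_dvd {A : Type} [CommRing A] [IsDomain A] [UniqueFactorizationMonoid A] {D : A →+ A}
    (hD : IsDer D) (hn : ∀ n : ℕ, IsUnit ((n + 1 : ℕ) : A)) {y μ s : A} {e : ℕ} (h0 : y ≠ 0)
    (hp : ∀ p, Prime p → p ∣ y → ¬ p ∣ D p) (h1 : μ ∣ D y) (h2 : μ ∣ y ^ e) (hs : Squarefree s)
    (h3 : s ∣ y) : μ * s ∣ y := by
  have hμ : μ ≠ 0 := ne_zero_of_dvd_ne_zero (pow_ne_zero e h0) h2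
  refine (UniqueFactorizationMonoid.dvd_iff_emultiplicity_le (mul_ne_zero hμ hs.ne_zero)).2
    fun p pp => emultiplicity_le_emultiplicity_iff.2 fun k hk => ?_
  rcases k with _ | k
  · simp
  by_cases h : p ∣ s
  · obtain ⟨s', rfl⟩ := h
    have hy : p ∣ y := (dvd_mul_right p s').trans h3
    have h' : ¬ p ∣ s' := fun z => pp.not_isUnit (hs p (mul_dvd_mul_left p z))
    rw [pow_succ', mul_left_comm, mul_dvd_mul_iff_left pp.ne_zero] at hk
    exact pow_dvd hD hn pp (hp p pp hy) hy k ((pp.pow_dvd_of_dvd_mul_right k h' hk).trans h1)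
  · have h' := pp.pow_dvd_of_dvd_mul_right _ h hk
    have hy : p ∣ y := pp.dvd_of_dvd_pow (((dvd_pow_self p k.succ_ne_zero).trans h').trans h2)
    exact (pow_dvd_pow p (Nat.le_succ _)).trans (pow_dvd hD hn pp (hp p pp hy) hy _ (h'.trans h1))

theorem ord_eq {R : Type} [CommRing R] {n m : ℕ} {f : R⟦X⟧} (h : OrdIs n f) (h' : OrdIs m f) :
    n = m :=
  le_antisymm (not_lt.1 fun z => h'.1 (h.2 m z)) (not_lt.1 fun z => h.1 (h'.2 n z))

variable {L : Type} [Field L]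

theorem unit_iff {s : AA L} : IsUnit s ↔ c00 s ≠ 0 := by
  rw [isUnit_iff_constantCoeff, isUnit_iff_constantCoeff, isUnit_iff_ne_zero, c00_apply]

theorem red_dX (s : AA L) : red (dX _ s) = dX _ (red s) := (dX_map _ s).symm

theorem prime_sub {w : L⟦X⟧} (hw : cc w = 0) : Prime (X - C w : AA L) := by
  have e : red (X - C w : AA L) = X := by rw [map_sub, red_X, red_C, hw, map_zero, sub_zero]
  have u : ∀ s : AA L, IsUnit (red s) → IsUnit s := fun s h => unit_iff.2 (by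
    rw [← cc_red]
    exact (h.map cc).ne_zero)
  refine UniqueFactorizationMonoid.irreducible_iff_prime.1 ⟨fun h => ?_, fun f g h => ?_⟩
  · exact X_prime.not_isUnit (e ▸ h.map red)
  · rw [h, map_mul] at e
    exact (X_prime.irreducible.isUnit_or_isUnit e.symm).imp (u f) (u g)

variable [CharZero L]

theorem unit_nat (n : ℕ) : IsUnit ((n + 1 : ℕ) : AA L) := unit_iff.2 (by
  rw [map_natCast]
  exact Nat.cast_ne_zero.2 n.succ_ne_zero)

theorem not_dvd {p : AA L} (hp : ¬ IsUnit p) (h0 : red p ≠ 0) : ¬ p ∣ dX _ p := by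
  intro h
  obtain ⟨m, hm⟩ := exists_ordIs h0
  rcases m with _ | m
  · exact hp (unit_iff.2 (by rw [← cc_red, ← coeff_zero_eq_constantCoeff_apply]; exact hm.1))
  have h1 := (X_pow_dvd_iff.2 hm.2).trans (map_dvd red h)
  have h2 := X_pow_dvd_iff.1 h1 m m.lt_succ_self
  rw [red_dX, coeff_dX] at h2
  exact mul_ne_zero hm.1 (Nat.cast_add_one_ne_zero m) h2

theorem not_pow {a μ u : AA L} {m : ℕ} (ha : OrdIs 1 (red a)) (hc : cc a ≠ 0) (hu : IsUnit u) :
    dX _ (u * X ^ (m + 1)) ≠ a * μ := by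
  intro h
  have hv : IsUnit (((m + 1 : ℕ) : AA L) * u + X * dX _ u) := unit_iff.2 (by
    rw [map_add, map_mul c00 X, c00_apply X, constantCoeff_X, map_zero, zero_mul, add_zero]
    exact unit_iff.1 ((unit_nat m).mul hu))
  rw [isDer_dX, isDer_dX.pow, dX_X, Nat.add_sub_cancel] at h
  have h1 : a ∣ X ^ m := hv.dvd_mul_right.1 ⟨μ, by rw [← h]; ring⟩
  obtain ⟨i, -, hi⟩ := (dvd_prime_pow X_prime m).1 h1
  rcases i with _ | i
  · refine unit_iff.1 (isUnit_of_dvd_one (by simpa using hi.dvd)) ?_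
    rw [← cc_red, ← coeff_zero_eq_constantCoeff_apply]
    exact ha.2 0 one_pos
  · exact hc (X_dvd_iff.1 ((dvd_pow_self X i.succ_ne_zero).trans hi.symm.dvd))

end Fac

theorem facS : FacStmt := by
  intro L _ _ ρ a μ n α e hc hn hα ha ca hd hμ
  have r0 : red ρ ≠ 0 := fun z => hn.1 (by rw [z, map_zero])
  have h0 : ρ ≠ 0 := fun z => r0 (by rw [z, map_zero])
  have hX : X ∣ ρ := X_dvd_iff.2 hc
  obtain ⟨m, rfl⟩ : ∃ m, n = m + 1 := Nat.exists_eq_succ_of_ne_zero fun z => hn.1 (by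
    rw [z, coeff_zero_eq_constantCoeff_apply, cc_red, c00_apply, hc, map_zero])
  obtain ⟨s, N, hs, s1, s2⟩ := exists_squarefree_dvd_pow_of_ne_zero h0
  have hp : ∀ p : AA L, Prime p → p ∣ ρ → ¬ p ∣ dX _ p := fun p pp h =>
    Fac.not_dvd pp.not_isUnit (ne_zero_of_dvd_ne_zero r0 (map_dvd red h))
  have k1 : μ ∣ dX _ ρ := Dvd.intro_left a hd.symm
  obtain ⟨g, hg⟩ := Fac.mul_dvd (D := dX _) isDer_dX Fac.unit_nat h0 hp k1 hμ hs s1
  obtain ⟨s, rfl⟩ := X_prime.dvd_of_dvd_pow (hX.trans s2)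
  have h2 : ¬ X ^ 2 ∣ red s := fun h => by
    have e1 : red a * red ρ = dX _ (red ρ) * X * red s * red g := by
      rw [← Fac.red_dX, hd, ← red_X, ← map_mul, ← map_mul, ← map_mul, ← map_mul]
      exact congrArg red (by linear_combination a * hg)
    have e2 : X ^ (m + 1 + 2) ∣ red a * red ρ := by
      rw [e1, pow_add, pow_succ]
      exact (mul_dvd_mul (mul_dvd_mul (K3.dvd_dX (X_pow_dvd_iff.2 hn.2)) dvd_rfl) h).mul_right _
    exact (ha.mul hn).1.1 (X_pow_dvd_iff.1 e2 _ (by omega))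
  obtain ⟨w, hw, hsw⟩ : ∃ w : L⟦X⟧, cc w = 0 ∧ s ∣ X - C w := by
    by_cases h : c00 s = 0
    · obtain ⟨c, hc⟩ := X_dvd_iff.2 ((cc_red s).trans h)
      have hu : IsUnit c := isUnit_iff_constantCoeff.2 (IsUnit.mk0 _ fun z => h2 (by
        rw [hc, pow_two]
        exact mul_dvd_mul_left _ (X_dvd_iff.2 z)))
      obtain ⟨w, u, p1, p2, p3⟩ := exists_w0 hu (hc.trans (mul_comm _ _))
      exact ⟨w, p1, by rw [p3, p2.mul_right_dvd]⟩
    · exact ⟨0, map_zero _, (Fac.unit_iff.2 h).dvd⟩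
  have h3 : ρ ∣ X ^ N * (X - C w) ^ N := by
    rw [← mul_pow]
    exact s2.trans (pow_dvd_pow_of_dvd (mul_dvd_mul_left _ hsw) N)
  obtain ⟨y, z, hy, hz, e1⟩ := exists_dvd_and_dvd_of_dvd_mul h3
  obtain ⟨i, -, hi⟩ := (dvd_prime_pow X_prime N).1 hy
  obtain ⟨j, -, hj⟩ := (dvd_prime_pow (Fac.prime_sub hw) N).1 hz
  obtain ⟨u, hu⟩ := hi.symm
  obtain ⟨v, hv⟩ := hj.symm
  obtain ⟨c, hU, e2⟩ : ∃ c, IsUnit c ∧ ρ = c * X ^ i * (X - C w) ^ j :=
    ⟨_, u.isUnit.mul v.isUnit, by rw [e1, ← hu, ← hv]; ring⟩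
  have hij : i + j = m + 1 := by
    refine Fac.ord_eq ?_ hn
    have e3 : red ρ = X ^ (i + j) * red c := by
      rw [e2, map_mul, map_mul, map_pow, map_pow, map_sub, red_X, red_C, hw, map_zero, sub_zero]
      ring
    rw [e3]
    exact ordIs_X_pow_mul _ (by rw [cc_red]; exact Fac.unit_iff.1 hU)
  have np : ρ ≠ c * X ^ (m + 1) := fun z => Fac.not_pow ha ca hU (z ▸ hd)
  have w0 : w ≠ 0 := fun z => np (by rw [e2, z, map_zero, sub_zero, ← hij]; ring)
  have j0 : j ≠ 0 := fun z => np (by rw [e2, ← hij, z, pow_zero, mul_one, add_zero])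
  have ei : i = α := by
    refine Fac.ord_eq ?_ hα
    rw [e2, mul_comm _ (X ^ i), mul_assoc]
    refine ordIs_X_pow_mul _ ?_
    rw [map_mul, map_pow, map_sub, constantCoeff_X, constantCoeff_C, zero_sub]
    exact mul_ne_zero (hU.map cc).ne_zero (pow_ne_zero _ (neg_ne_zero.2 w0))
  have a0 : α ≠ 0 := fun z => hα.1 (by rw [z, coeff_zero_eq_constantCoeff_apply, hc])
  exact ⟨j, c, w, ei ▸ hij, by omega, by omega, hU, hw, w0, ei ▸ e2⟩

end Pool.Agent.MP_05b4bd_ag.RV
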