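import Pool.Agent.MP_05b4bd_ag.rr.Bas

/-! The formal flow of a derivation of a power series ring for a time without constant term. -/

namespace Pool.Agent.MP_05b4bd_ag.RV

open PowerSeries LaurentSeries HC
open ES hiding Gen Ob Inf

theorem flowS : FlowStmt := by
  intro E _ _ V T hV hT
  obtain ⟨τ, t0, td, tc⟩ := exists_tayl (S := E⟦X⟧) hV (RingHom.id _)
  have m : T ∈ K3.JX E := K3.mem_JX hT
  have m0 : (0 : E⟦X⟧) ∈ K3.JX E := Ideal.zero_mem _
  have hc : ∀ u, cw V (τ u) = τ (V u) := fun u => by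
    ext1 n
    rw [coeff_cw, tc, tc, hV.const_mul (hV.rat _), RingHom.id_apply, RingHom.id_apply,
      ← Function.iterate_succ_apply' V, Function.iterate_succ_apply]
  refine ⟨(ES.ev (RingHom.id _) T).comp τ, fun u => ?_, fun u => ?_, fun u hu => ?_⟩
  · have k := hom_chain (K3.JX E) (g := ES.ev (RingHom.id _) T) (by rw [ES.ev_X _ m]; exact m) hV hV
      (a := 1) (fun r => by rw [ES.ev_C _ m, ES.ev_C _ m, one_mul]; rfl) (τ u)
    rw [RingHom.comp_apply, RingHom.comp_apply, k, hc, td, ES.ev_X _ m]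
    ring
  · obtain ⟨r, e⟩ := ev_taylor (K3.JX E) (φ := RingHom.id _) m m0 (τ u)
    rw [ev_zero, ev_zero, td, t0, t0, sub_zero] at e
    refine ⟨r, ?_⟩
    rw [RingHom.comp_apply, e]
    simp only [RingHom.id_apply]
    ring
  · have k : τ u = C (cc (τ u)) := eq_C_of_dX (by rw [td, hu, map_zero])
    rw [RingHom.comp_apply, k, ES.ev_C _ m, t0]
    rfl

end Pool.Agent.MP_05b4bd_ag.RV
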