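import Pool.Agent.MP_05b4bd_ag.rr.Spec4
import Mathlib.Analysis.Calculus.ImplicitContDiff
import Mathlib.MeasureTheory.Integral.IntervalIntegral.FundThmCalculus
import Mathlib.Topology.ContinuousMap.Compact
import Mathlib.Topology.UnitInterval

/-! Analytic first integrals: division, centres from first integrals, the flow box. -/

namespace Pool.Agent.MP_05b4bd_ag.RV.Flowa

open MvPolynomial Topology Filter
open scoped ContDiff

abbrev C2 := Fin 2 → ℂ

theorem hadamard {E F : Type} [NormedAddCommGroup E] [NormedSpace ℂ E] [NormedAddCommGroup F]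
    [NormedSpace ℂ F] [CompleteSpace F] {f : E → F} {x : E} (hf : AnalyticAt ℂ f x) :
    ∃ A : E → E →L[ℂ] F, AnalyticAt ℂ A x ∧ ∀ᶠ y in 𝓝 x, f y = f x + A y (y - x) := by
  obtain ⟨q, r, hq⟩ := hf
  have h0 : 0 < q.shift.radius := by
    rw [FormalMultilinearSeries.radius_shift]
    exact hq.radius_pos
  have h1 := (q.shift.hasFPowerSeriesOnBall h0).comp_sub x
  rw [zero_add] at h1
  have h2 := h1.unshift (z := f x)
  have e : q.shift.unshift (f x) = q := by
    ext1 n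
    cases n with
    | zero =>
      ext v
      exact (hq.coeff_zero v).symm
    | succ n =>
      exact LinearIsometryEquiv.symm_apply_apply (continuousMultilinearCurryRightEquiv' ℂ n E F) _
  rw [e] at h2
  refine ⟨_, h1.analyticAt, ?_⟩
  filter_upwards [hq.eventually_hasSum_sub, h2.eventually_hasSum_sub] with y a b
  exact a.unique b

theorem an_co (p : C2) (i : Fin 2) : AnalyticAt ℂ (fun z : C2 => z i - p i) p :=
  ((ContinuousLinearMap.proj (R := ℂ) (φ := fun _ : Fin 2 => ℂ) i).analyticAt p).sub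
    analyticAt_const

theorem dec (A : C2 →L[ℂ] ℂ) (v : C2) : A v = A ![1, 0] * v 0 + A ![0, 1] * v 1 := by
  have : v = v 0 • ![1, 0] + v 1 • ![0, 1] := by
    ext i
    fin_cases i <;> simp
  conv_lhs => rw [this]
  rw [map_add, map_smul, map_smul, smul_eq_mul, smul_eq_mul]
  ring

theorem an_app {E : Type} [NormedAddCommGroup E] [NormedSpace ℂ E] {A : E → C2 →L[ℂ] ℂ} {p : E}
    (h : AnalyticAt ℂ A p) (v : C2) : AnalyticAt ℂ (fun z => A z v) p :=
  ((ContinuousLinearMap.apply ℂ ℂ v).analyticAt _).comp h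

theorem had {J : C2 → ℂ} {p : C2} (h : AnalyticAt ℂ J p) : ∃ a b : C2 → ℂ, AnalyticAt ℂ a p ∧
    AnalyticAt ℂ b p ∧ ∀ᶠ z in 𝓝 p, J z = J p + (a z * (z 0 - p 0) + b z * (z 1 - p 1)) := by
  obtain ⟨A, h1, h2⟩ := hadamard h
  refine ⟨_, _, an_app h1 ![1, 0], an_app h1 ![0, 1], h2.mono fun z hz => ?_⟩
  rw [hz, dec]
  rfl

theorem lin_der {a b : C2 → ℂ} {p : C2} (ha : AnalyticAt ℂ a p) (hb : AnalyticAt ℂ b p) (v : C2) :
    fderiv ℂ (fun z => a z * (z 0 - p 0) + b z * (z 1 - p 1)) p v = a p * v 0 + b p * v 1 := by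
  have h : fderiv ℂ (fun z => a z * (z 0 - p 0) + b z * (z 1 - p 1)) p = _ :=
    ((hasFDerivAt_mul_coord ha 0).add (hasFDerivAt_mul_coord hb 1)).fderiv
  rw [h]
  simp

theorem lin_unique {a b a' b' : C2 → ℂ} {p : C2} (ha : AnalyticAt ℂ a p) (hb : AnalyticAt ℂ b p)
    (ha' : AnalyticAt ℂ a' p) (hb' : AnalyticAt ℂ b' p)
    (h : ∀ᶠ z in 𝓝 p, a z * (z 0 - p 0) + b z * (z 1 - p 1) =
      a' z * (z 0 - p 0) + b' z * (z 1 - p 1)) : a p = a' p ∧ b p = b' p := by
  have e := fun v => (lin_der ha hb v).symm.trans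
    ((congrArg (fun l => l v) (EventuallyEq.fderiv_eq (𝕜 := ℂ) h)).trans (lin_der ha' hb' v))
  exact ⟨by simpa using e ![1, 0], by simpa using e ![0, 1]⟩

/-- A reduced singular point of a form with an analytic integrating factor is a centre. -/
theorem cen_of_int {w : Form} {p : C2} {J ν : C2 → ℂ} (hJ : AnalyticAt ℂ J p)
    (hν : AnalyticAt ℂ ν p) (h0 : ν p ≠ 0)
    (hd : ∀ᶠ z in 𝓝 p, ∀ v, fderiv ℂ J z v = ν z * (eval z w.1 * v 1 - eval z w.2 * v 0))
    (h1 : eval p w.1 = 0) (h2 : eval p w.2 = 0) (hj : eval p (jac w) ≠ 0) : IsCenter w p := by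
  refine ⟨h1, h2, hj, ?_⟩
  obtain ⟨a, b, ha, hb, e⟩ := had hJ
  have z0 : a p = 0 ∧ b p = 0 := by
    have e1 : ∀ᶠ z in 𝓝 p, a z * (z 0 - p 0) + b z * (z 1 - p 1) = J z - J p :=
      e.mono fun z hz => by rw [hz, add_sub_cancel_left]
    have e2 := fun v => (lin_der ha hb v).symm.trans
      (congrArg (fun l => l v) (EventuallyEq.fderiv_eq (𝕜 := ℂ) e1))
    simp only [fderiv_sub_const, hd.self_of_nhds, h1, h2] at e2
    exact ⟨by simpa using e2 ![1, 0], by simpa using e2 ![0, 1]⟩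
  obtain ⟨a0, a1, ha0, ha1, ea⟩ := had ha
  obtain ⟨b0, c, hb0, hc, eb⟩ := had hb
  obtain ⟨m, hm0⟩ : ∃ m : C2 → ℂ, m = fun z => a1 z + b0 z := ⟨_, rfl⟩
  have hm : AnalyticAt ℂ m p := hm0 ▸ ha1.add hb0
  have eJ : J =ᶠ[𝓝 p] fun z => J p + (a0 z * (z 0 - p 0) ^ 2 + m z * (z 0 - p 0) * (z 1 - p 1) +
      c z * (z 1 - p 1) ^ 2) := by
    filter_upwards [e, ea, eb] with z e ea eb
    rw [e, ea, eb, z0.1, z0.2, hm0]
    ring
  have dJ : ∀ᶠ z in 𝓝 p, ∀ v, fderiv ℂ J z v =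
      (fderiv ℂ a0 z v * (z 0 - p 0) + fderiv ℂ m z v * (z 1 - p 1) + 2 * a0 z * v 0 + m z * v 1) *
        (z 0 - p 0) + (fderiv ℂ c z v * (z 1 - p 1) + m z * v 0 + 2 * c z * v 1) * (z 1 - p 1) := by
    filter_upwards [eJ.fderiv (𝕜 := ℂ), ha0.eventually_analyticAt, hm.eventually_analyticAt,
      hc.eventually_analyticAt] with z hz k1 k2 k3 v
    have x0 := (hasFDerivAt_apply (𝕜 := ℂ) 0 z).sub_const (p 0)
    have x1 := (hasFDerivAt_apply (𝕜 := ℂ) 1 z).sub_const (p 1)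
    have t := ((((k1.differentiableAt.hasFDerivAt.mul (x0.pow 2)).add
      ((k2.differentiableAt.hasFDerivAt.mul x0).mul x1)).add
      (k3.differentiableAt.hasFDerivAt.mul (x1.pow 2))).const_add (J p)).fderiv
    rw [hz]
    refine (congrArg (fun l => l v) t).trans ?_
    simp
    ring
  obtain ⟨P0, P1, eP, hP0, hP1⟩ := taylor1' w.1 p
  obtain ⟨Q0, Q1, eQ, hQ0, hQ1⟩ := taylor1' w.2 p
  rw [h1, map_zero, zero_add] at eP
  rw [h2, map_zero, zero_add] at eQ
  have A := analyticAt_eval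
  have key : ∀ v : C2, 2 * a0 p * v 0 + m p * v 1 = ν p * (eval p P0 * v 1 - eval p Q0 * v 0) ∧
      m p * v 0 + 2 * c p * v 1 = ν p * (eval p P1 * v 1 - eval p Q1 * v 0) := fun v => by
    have := lin_unique (p := p)
      (a := fun z => fderiv ℂ a0 z v * (z 0 - p 0) + fderiv ℂ m z v * (z 1 - p 1) +
        2 * a0 z * v 0 + m z * v 1)
      (b := fun z => fderiv ℂ c z v * (z 1 - p 1) + m z * v 0 + 2 * c z * v 1)
      (a' := fun z => ν z * (eval z P0 * v 1 - eval z Q0 * v 0))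
      (b' := fun z => ν z * (eval z P1 * v 1 - eval z Q1 * v 0))
      (((((an_app ha0.fderiv v).mul (an_co p 0)).add ((an_app hm.fderiv v).mul (an_co p 1))).add
        ((analyticAt_const.mul ha0).mul analyticAt_const)).add (hm.mul analyticAt_const))
      ((((an_app hc.fderiv v).mul (an_co p 1)).add (hm.mul analyticAt_const)).add
        ((analyticAt_const.mul hc).mul analyticAt_const))
      (hν.mul (((A _ _).mul analyticAt_const).sub ((A _ _).mul analyticAt_const)))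
      (hν.mul (((A _ _).mul analyticAt_const).sub ((A _ _).mul analyticAt_const)))
      (by
        filter_upwards [dJ, hd] with z k1 k2
        rw [← k1, k2]
        conv_lhs => rw [eP, eQ]
        simp only [map_add, map_mul, map_sub, eval_X, eval_C]
        ring)
    simpa using this
  have k0 := key ![1, 0]
  have k1 := key ![0, 1]
  simp only [Matrix.cons_val_zero, Matrix.cons_val_one] at k0 k1
  obtain ⟨φ, hφ, φ0, φb, eφ⟩ := morse_lemma ha0 hm hc (by
    intro h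
    refine mul_ne_zero (pow_ne_zero 2 h0) hj ?_
    simp only [jac, map_sub, map_mul, ← hP0, ← hP1, ← hQ0, ← hQ1]
    linear_combination -h + m p * k0.2 - ν p * eval p Q1 * k1.1 - 2 * c p * k0.1 +
      ν p * eval p Q0 * k1.2)
  refine ⟨φ, hφ, φ0, φb, ?_⟩
  have hH : (fun z => φ z 0 ^ 2 + φ z 1 ^ 2) =ᶠ[𝓝 p] fun z => J z - J p := by
    filter_upwards [eφ, eJ] with z k1 k2
    rw [k1, k2, add_sub_cancel_left]
  filter_upwards [hH.fderiv (𝕜 := ℂ), hd] with z k1 k2
  rw [k1, fderiv_sub_const, k2]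
  simp [mul_comm]

/-! ### The flow of a polynomial field -/

abbrev EE := C(unitInterval, ℂ)

noncomputable def ex (f : EE) (s : ℝ) : ℂ := f (Set.projIcc 0 1 zero_le_one s)

theorem ex_cont (f : EE) : Continuous (ex f) := f.continuous.comp continuous_projIcc

theorem ex_mem (f : EE) {s : ℝ} (h : s ∈ unitInterval) : ex f s = f ⟨s, h⟩ := by
  rw [ex, Set.projIcc_of_mem _ h]

/-- Integration from zero. -/
noncomputable def KK : EE →L[ℂ] EE := LinearMap.mkContinuous
  { toFun := fun f => ⟨fun τ => ∫ s in (0 : ℝ)..τ, ex f s,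
      (intervalIntegral.continuous_primitive (fun a b => (ex_cont f).intervalIntegrable a b) 0).comp
        continuous_subtype_val⟩
    map_add' := fun f g => ContinuousMap.ext fun τ =>
      intervalIntegral.integral_add ((ex_cont f).intervalIntegrable _ _)
        ((ex_cont g).intervalIntegrable _ _)
    map_smul' := fun c f => ContinuousMap.ext fun τ =>
      intervalIntegral.integral_smul c (ex f) } 1 fun f => by
    rw [one_mul]
    refine (ContinuousMap.norm_le _ (norm_nonneg f)).2 fun τ => ?_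
    refine (intervalIntegral.norm_integral_le_of_norm_le_const (C := ‖f‖)
      fun s _ => f.norm_coe_le_norm _).trans ?_
    rw [sub_zero, abs_of_nonneg τ.2.1]
    exact mul_le_of_le_one_right (norm_nonneg f) τ.2.2

theorem KK_apply (f : EE) (τ : unitInterval) : KK f τ = ∫ s in (0 : ℝ)..τ, ex f s := rfl

/-- Contraction of the time. -/
noncomputable def res (t : unitInterval) (f : EE) : EE :=
  ⟨fun τ => f (t * τ), f.continuous.comp
    ((continuous_const.mul continuous_subtype_val).subtype_mk _)⟩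

theorem KK_res (t : unitInterval) (f : EE) (τ : unitInterval) :
    ((t : ℝ) : ℂ) * KK (res t f) τ = KK f (t * τ) := by
  have h := intervalIntegral.smul_integral_comp_mul_left (a := 0) (b := (τ : ℝ)) (ex f) (t : ℝ)
  rw [mul_zero, Complex.real_smul] at h
  rw [KK_apply, KK_apply, Set.Icc.coe_mul, ← h]
  congr 1
  refine intervalIntegral.integral_congr fun s hs => ?_
  rw [Set.uIcc_of_le τ.2.1] at hs
  have h1 : s ∈ unitInterval := ⟨hs.1, hs.2.trans τ.2.2⟩
  rw [ex_mem _ h1, ex_mem _ (unitInterval.mul_mem t.2 h1)]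
  rfl

theorem aeval_apply (y : Fin 2 → EE) (P : Poly) (τ : unitInterval) :
    aeval y P τ = eval (fun i => y i τ) P := by
  induction P using MvPolynomial.induction_on with
  | C a => simp
  | add p q hp hq => simp [hp, hq]
  | mul_X p i hp => simp [hp]

/-- The integral equation. -/
noncomputable def GG (P : Fin 2 → Poly) (w : (ℂ × C2) × (Fin 2 → EE)) : Fin 2 → EE :=
  fun i => w.2 i - w.1.2 i • (1 : EE) - w.1.1 • KK (aeval w.2 (P i))

theorem GG_an (P : Fin 2 → Poly) (u : (ℂ × C2) × (Fin 2 → EE)) : AnalyticAt ℂ (GG P) u := by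
  have h : ∀ i, AnalyticAt ℂ (fun w : (ℂ × C2) × (Fin 2 → EE) => w.2 i) u :=
    analyticAt_pi_iff.1 analyticAt_snd
  have h0 : AnalyticAt ℂ (fun w : (ℂ × C2) × (Fin 2 → EE) => w.1.1) u :=
    analyticAt_fst.comp analyticAt_fst
  have h1 : ∀ i, AnalyticAt ℂ (fun w : (ℂ × C2) × (Fin 2 → EE) => w.1.2 i) u :=
    analyticAt_pi_iff.1 (analyticAt_snd.comp analyticAt_fst)
  refine analyticAt_pi_iff.2 fun i => ?_
  have h2 : AnalyticAt ℂ (fun w : (ℂ × C2) × (Fin 2 → EE) => (aeval w.2 (P i) : EE)) u :=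
    AnalyticAt.aeval_mvPolynomial (f := fun w : (ℂ × C2) × (Fin 2 → EE) => w.2) h (P i)
  have h3 : AnalyticAt ℂ (fun w : (ℂ × C2) × (Fin 2 → EE) => KK (aeval w.2 (P i))) u :=
    AnalyticAt.comp (g := KK) (KK.analyticAt _) h2
  have h4 : AnalyticAt ℂ (fun w : (ℂ × C2) × (Fin 2 → EE) => w.1.2 i • (1 : EE)) u :=
    (h1 i).fun_smul analyticAt_const
  exact ((h i).fun_sub h4).fun_sub (h0.fun_smul h3)

theorem GG_res {P : Fin 2 → Poly} {x : ℂ × C2} {y : Fin 2 → EE} (h : GG P (x, y) = 0)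
    (t : unitInterval) : GG P ((((t : ℝ) : ℂ) * x.1, x.2), fun i => res t (y i)) = 0 := by
  ext i τ
  have e : aeval (fun i => res t (y i)) (P i) = res t (aeval y (P i)) :=
    ContinuousMap.ext fun τ => (aeval_apply _ _ _).trans (aeval_apply y (P i) (t * τ)).symm
  have h1 : y i (t * τ) - x.2 i * 1 - x.1 * KK (aeval y (P i)) (t * τ) = 0 :=
    congrArg (fun z : Fin 2 → EE => z i (t * τ)) h
  change y i (t * τ) - x.2 i * 1 - (t : ℝ) * x.1 * KK (aeval (fun i => res t (y i)) (P i)) τ = 0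
  rw [e, ← h1, ← KK_res]
  ring

/-- The local flow in complex time. -/
theorem flow (P : Fin 2 → Poly) (q : C2) : ∃ φ : ℂ × C2 → C2, AnalyticAt ℂ φ (0, q) ∧
    (∀ᶠ z in 𝓝 q, φ (0, z) = z) ∧
    ∀ᶠ x in 𝓝 ((0 : ℂ), q), fderiv ℂ φ x (1, 0) = fun i => eval (φ x) (P i) := by
  obtain ⟨u, hu⟩ : ∃ u : (ℂ × C2) × (Fin 2 → EE), u = ((0, q), fun i => q i • 1) := ⟨_, rfl⟩
  have u1 : u.1 = (0, q) := by rw [hu]
  have G0 : GG P u = 0 := by
    ext i τ
    simp [GG, hu]
  have cd : ContDiffAt ℂ ω (GG P) u := (GG_an P u).contDiffAt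
  have inv : (fderiv ℂ (GG P) u ∘L .inr ℂ (ℂ × C2) (Fin 2 → EE)).IsInvertible := by
    have d1 : HasFDerivAt (GG P ∘ fun y => (u.1, y)) _ u.2 :=
      (GG_an P u).differentiableAt.hasFDerivAt.comp u.2 (hasFDerivAt_prodMk_right u.1 u.2)
    have d2 : HasFDerivAt (GG P ∘ fun y => (u.1, y)) (ContinuousLinearMap.id ℂ _) u.2 := by
      have : (GG P ∘ fun y => (u.1, y)) = fun y => y - u.2 := by
        ext y i τ
        simp [GG, hu]
      rw [this]
      exact (hasFDerivAt_id _).sub_const _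
    rw [d1.unique d2]
    exact ⟨ContinuousLinearEquiv.refl ℂ _, rfl⟩
  have w0 : (ω : ℕ∞ω) ≠ 0 := by simp
  have aY := (cd.contDiffAt_implicitFunction w0 inv).analyticAt
  have Y0 := cd.implicitFunction_apply_self w0 inv
  have h1 := cd.eventually_apply_implicitFunction w0 inv
  have h2 := cd.eventually_apply_eq_iff_implicitFunction w0 inv
  generalize cd.implicitFunction w0 inv = Y at aY Y0 h1 h2
  rw [G0] at h1 h2
  rw [u1] at aY Y0 h1
  have aφ : AnalyticAt ℂ (fun x i => Y x i 1) (0, q) := analyticAt_pi_iff.2 fun i =>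
    AnalyticAt.comp (g := (ContinuousMap.evalCLM ℂ (1 : unitInterval) : EE →L[ℂ] ℂ))
      (ContinuousLinearMap.analyticAt _ _) (analyticAt_pi_iff.1 aY i)
  have val : ∀ x, GG P (x, Y x) = 0 → ∀ i τ,
      Y x i τ = x.2 i + x.1 * KK (aeval (Y x) (P i)) τ := fun x hx i τ => by
    have : Y x i τ - x.2 i * 1 - x.1 * KK (aeval (Y x) (P i)) τ = 0 :=
      congrArg (fun z : Fin 2 → EE => z i τ) hx
    linear_combination this
  refine ⟨_, aφ, ?_, ?_⟩
  · have c : Tendsto (fun z : C2 => ((0 : ℂ), z)) (𝓝 q) (𝓝 (0, q)) :=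
      (continuous_const.prodMk continuous_id).tendsto q
    filter_upwards [c.eventually h1] with z hz
    ext i
    simpa using val _ hz i 1
  obtain ⟨ε, ε0, hε⟩ := Metric.eventually_nhds_iff.1 h2
  have h3 : ∀ᶠ x in 𝓝 ((0 : ℂ), q), dist (Y x) u.2 < ε := by
    rw [← Y0]
    exact Metric.tendsto_nhds.1 aY.continuousAt ε ε0
  have h4 : ∀ᶠ x in 𝓝 ((0 : ℂ), q),
      x.1 • (fderiv ℂ (fun x i => Y x i 1) x (1, 0) - fun i => eval (fun l => Y x l 1) (P i)) = 0 := by
    filter_upwards [h1, h3, Metric.ball_mem_nhds _ ε0, aφ.eventually_analyticAt] with x k1 k3 k4 k5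
    have sc : ∀ t : unitInterval, Y (((t : ℝ) : ℂ) * x.1, x.2) = fun i => res t (Y x i) := by
      intro t
      refine (hε (y := ((((t : ℝ) : ℂ) * x.1, x.2), fun i => res t (Y x i))) ?_).1 (GG_res k1 t)
      rw [Metric.mem_ball, Prod.dist_eq, max_lt_iff] at k4
      rw [Prod.dist_eq, Prod.dist_eq, u1]
      refine max_lt (max_lt (lt_of_le_of_lt ?_ k4.1) k4.2) (lt_of_le_of_lt ?_ k3)
      · simp only [dist_zero_right, norm_mul, Complex.norm_real, Real.norm_eq_abs]
        rw [abs_of_nonneg t.2.1]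
        exact mul_le_of_le_one_left (norm_nonneg _) t.2.2
      · refine (dist_pi_le_iff dist_nonneg).2 fun i => le_trans ?_ (dist_le_pi_dist _ _ i)
        refine (ContinuousMap.dist_le dist_nonneg).2 fun τ => ?_
        rw [hu]
        exact ContinuousMap.dist_apply_le_dist (f := Y x i) (g := q i • 1) (t * τ)
    have d0 : HasDerivAt (fun t : ℝ => ((t : ℂ) * x.1, x.2)) (x.1, 0) 1 := by
      refine HasDerivAt.prodMk ?_ (hasDerivAt_const _ _)
      simpa using (Complex.ofRealCLM.hasDerivAt (x := 1)).mul_const x.1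
    have d1 := HasFDerivAt.comp_hasDerivAt_of_eq (1 : ℝ)
      (k5.differentiableAt.hasFDerivAt.restrictScalars ℝ) d0 (by simp)
    have d2 : HasDerivAt (fun (t : ℝ) (i : Fin 2) =>
        x.2 i + x.1 * ∫ s in (0 : ℝ)..t, ex (aeval (Y x) (P i)) s)
        (fun i => x.1 * ex (aeval (Y x) (P i)) 1) 1 := hasDerivAt_pi.2 fun i =>
      ((((ex_cont _).integral_hasStrictDerivAt 0 1).hasDerivAt).const_mul x.1).const_add _
    have d3 := (uniqueDiffOn_Icc (zero_lt_one' ℝ) 1 ⟨zero_le_one, le_rfl⟩).eq_deriv _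
      d1.hasDerivWithinAt (d2.hasDerivWithinAt.congr (fun t ht => by
        ext i
        change Y ((t : ℂ) * x.1, x.2) i 1 = _
        rw [sc ⟨t, ht⟩]
        change Y x i (⟨t, ht⟩ * 1) = _
        rw [mul_one, val x k1]
        rfl) (by
        ext i
        change Y (((1 : ℝ) : ℂ) * x.1, x.2) i 1 = _
        rw [Complex.ofReal_one, one_mul, val x k1]
        rfl))
    rw [smul_sub, ← map_smul, sub_eq_zero]
    have : x.1 • ((1 : ℂ), (0 : C2)) = (x.1, 0) := by simp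
    rw [this]
    refine d3.trans (funext fun i => ?_)
    rw [ex_mem _ unitInterval.one_mem, aeval_apply]
    rfl
  have aD : AnalyticAt ℂ (fun x => fderiv ℂ (fun x i => Y x i 1) x (1, 0) -
      fun i => eval (fun l => Y x l 1) (P i)) (0, q) :=
    (((ContinuousLinearMap.apply ℂ C2 ((1 : ℂ), (0 : C2))).analyticAt _).comp aφ.fderiv).sub
      (analyticAt_pi_iff.2 fun i => (analyticAt_eval (P i) _).comp aφ)
  filter_upwards [h4.eventually_nhds, aD.eventually_analyticAt] with x k1 k2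
  rw [← sub_eq_zero]
  by_cases hx : x.1 = 0
  · have c : Tendsto (fun s : ℂ => (s, x.2)) (𝓝[≠] 0) (𝓝 x) := by
      refine Tendsto.mono_left ?_ nhdsWithin_le_nhds
      rw [← hx]
      exact (continuous_id.prodMk continuous_const).tendsto x.1
    refine tendsto_nhds_unique (k2.continuousAt.tendsto.comp c) (tendsto_const_nhds.congr' ?_)
    filter_upwards [c.eventually k1, self_mem_nhdsWithin] with s a b
    exact ((smul_eq_zero.1 a).resolve_left b).symm
  · exact (smul_eq_zero.1 k1.self_of_nhds).resolve_left hx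

/-- A polynomial form has an analytic integrating factor near a regular point. -/
theorem box (s : Form) (q : C2) (h : eval q s.1 ≠ 0 ∨ eval q s.2 ≠ 0) : ∃ I μ : C2 → ℂ,
    AnalyticAt ℂ I q ∧ AnalyticAt ℂ μ q ∧ μ q ≠ 0 ∧
    ∀ᶠ z in 𝓝 q, ∀ v, fderiv ℂ I z v = μ z * (eval z s.1 * v 1 - eval z s.2 * v 0) := by
  obtain ⟨c0, c1, hc⟩ : ∃ c0 c1 : ℂ, c0 * eval q s.1 + c1 * eval q s.2 ≠ 0 := by
    rcases h with h | h
    exacts [⟨1, 0, by simpa using h⟩, ⟨0, 1, by simpa using h⟩]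
  obtain ⟨φ, aφ, φ0, dφ⟩ := flow ![s.1, s.2] q
  obtain ⟨e, he⟩ : ∃ e : C2, e = ![-c1, c0] := ⟨_, rfl⟩
  let T : C2 →L[ℂ] ℂ × C2 := (ContinuousLinearMap.proj 0).prod
    ((ContinuousLinearMap.proj (R := ℂ) (φ := fun _ : Fin 2 => ℂ) 1).smulRight e)
  have dψ : ∀ w, HasFDerivAt (fun w => ((0 : ℂ), q) + T w) T w := fun w =>
    T.hasFDerivAt.const_add _
  have ψ0 : ((0 : ℂ), q) + T 0 = (0, q) := by rw [map_zero, add_zero]
  have cψ : Tendsto (fun w => ((0 : ℂ), q) + T w) (𝓝 0) (𝓝 (0, q)) := by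
    have := (dψ 0).continuousAt.tendsto
    rwa [ψ0] at this
  obtain ⟨Φ, hΦ⟩ : ∃ Φ : C2 → C2, Φ = φ ∘ fun w => ((0 : ℂ), q) + T w := ⟨_, rfl⟩
  have aΦ : AnalyticAt ℂ Φ 0 := by
    rw [hΦ]
    exact AnalyticAt.comp (by rw [ψ0]; exact aφ) (analyticAt_const.add (T.analyticAt 0))
  have Φ0 : Φ 0 = q := by
    rw [hΦ, Function.comp_apply, ψ0]
    exact φ0.self_of_nhds
  have d0 : ∀ᶠ w in 𝓝 (0 : C2), fderiv ℂ Φ w ![1, 0] = ![eval (Φ w) s.1, eval (Φ w) s.2] := by
    filter_upwards [cψ.eventually dφ, cψ.eventually aφ.eventually_analyticAt] with w k1 k2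
    have : T ![1, 0] = (1, 0) := by simp [T]
    rw [hΦ, (k2.differentiableAt.hasFDerivAt.comp w (dψ w)).fderiv, ContinuousLinearMap.comp_apply,
      this, k1]
    ext i
    fin_cases i <;> rfl
  have d1 : fderiv ℂ Φ 0 ![0, 1] = e := by
    have k1 : HasFDerivAt (φ ∘ fun z => ((0 : ℂ), z)) _ q :=
      aφ.differentiableAt.hasFDerivAt.comp q (hasFDerivAt_prodMk_right (0 : ℂ) q)
    have k2 := k1.unique ((hasFDerivAt_id q).congr_of_eventuallyEq φ0)
    have k3 : HasFDerivAt φ (fderiv ℂ φ (0, q)) (((0 : ℂ), q) + T 0) := by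
      rw [ψ0]
      exact aφ.differentiableAt.hasFDerivAt
    have : T ![0, 1] = (0, e) := by simp [T]
    rw [hΦ, (k3.comp 0 (dψ 0)).fderiv, ContinuousLinearMap.comp_apply, this]
    exact congrArg (fun l => l e) k2
  have inj : Function.Injective (fderiv ℂ Φ 0).toLinearMap := by
    rw [injective_iff_map_eq_zero]
    intro v hv
    have e1 : v = v 0 • ![1, 0] + v 1 • ![0, 1] := by
      ext i
      fin_cases i <;> simp
    change fderiv ℂ Φ 0 v = 0 at hv
    rw [e1, map_add, map_smul, map_smul, d0.self_of_nhds, d1, Φ0, he] at hv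
    have a0 : v 0 * eval q s.1 + v 1 * -c1 = 0 := congrFun hv 0
    have a1 : v 0 * eval q s.2 + v 1 * c0 = 0 := congrFun hv 1
    have b0 : v 0 = 0 := (mul_eq_zero.1 (by linear_combination c0 * a0 + c1 * a1)).resolve_right hc
    have b1 : v 1 = 0 := (mul_eq_zero.1 (by
      rw [b0] at a0 a1
      linear_combination eval q s.1 * a1 - eval q s.2 * a0)).resolve_right hc
    rw [e1, b0, b1]
    simp
  let L : C2 ≃L[ℂ] C2 := (LinearEquiv.ofInjectiveEndo _ inj).toContinuousLinearEquiv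
  have hL : HasFDerivAt Φ (L : C2 →L[ℂ] C2) 0 := aΦ.differentiableAt.hasFDerivAt
  have cd : ContDiffAt ℂ ω Φ 0 := aΦ.contDiffAt
  have w0 : (ω : ℕ∞ω) ≠ 0 := by simp
  have aΘ := (cd.to_localInverse hL w0).analyticAt
  have Θ0 := cd.localInverse_apply_image hL w0
  have li : ∀ᶠ w in 𝓝 (0 : C2), cd.localInverse hL w0 (Φ w) = w :=
    (cd.hasStrictFDerivAt' hL w0).eventually_left_inverse
  have ri : ∀ᶠ z in 𝓝 (Φ 0), Φ (cd.localInverse hL w0 z) = z :=
    (cd.hasStrictFDerivAt' hL w0).eventually_right_inverse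
  generalize cd.localInverse hL w0 = Θ at aΘ Θ0 li ri
  rw [Φ0] at aΘ Θ0 ri
  have cΘ : Tendsto Θ (𝓝 q) (𝓝 0) := Θ0 ▸ aΘ.continuousAt.tendsto
  have aI : AnalyticAt ℂ (fun z => Θ z 1) q := analyticAt_pi_iff.1 aΘ 1
  have ch : ∀ᶠ z in 𝓝 q, ∀ v, fderiv ℂ (fun z => Θ z 1) z (fderiv ℂ Φ (Θ z) v) = v 1 := by
    filter_upwards [ri, aI.eventually_analyticAt, cΘ.eventually li.eventually_nhds,
      cΘ.eventually aΦ.eventually_analyticAt] with z k1 k2 k3 k4 v
    have k5 : HasFDerivAt (fun z => Θ z 1) (fderiv ℂ (fun z => Θ z 1) z) (Φ (Θ z)) := by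
      rw [k1]
      exact k2.differentiableAt.hasFDerivAt
    have k6 := (k5.comp _ k4.differentiableAt.hasFDerivAt).unique
      ((hasFDerivAt_apply (𝕜 := ℂ) 1 (Θ z)).congr_of_eventuallyEq
        (k3.mono fun w hw => congrFun hw 1))
    exact congrArg (fun l => l v) k6
  have aN : AnalyticAt ℂ (fun z => c0 * eval z s.1 + c1 * eval z s.2) q :=
    (analyticAt_const.mul (analyticAt_eval _ _)).add (analyticAt_const.mul (analyticAt_eval _ _))
  refine ⟨fun z => Θ z 1,
    fun z => fderiv ℂ (fun z => Θ z 1) z e / (c0 * eval z s.1 + c1 * eval z s.2), aI,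
    (an_app aI.fderiv e).div aN hc, div_ne_zero ?_ hc, ?_⟩
  · have := ch.self_of_nhds ![0, 1]
    rw [Θ0, d1] at this
    rw [this]
    exact one_ne_zero
  filter_upwards [ch, ri, cΘ.eventually d0, aN.continuousAt.eventually_ne hc] with z k1 k2 k3 k4 v
  have k5 := k1 ![1, 0]
  rw [k3, k2, dec] at k5
  rw [dec _ v, dec _ e, he, div_mul_eq_mul_div, eq_div_iff k4]
  simp only [Matrix.cons_val_zero, Matrix.cons_val_one] at k5 ⊢
  linear_combination (c0 * v 0 + c1 * v 1) * k5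

end Pool.Agent.MP_05b4bd_ag.RV.Flowa

namespace Pool.Agent.MP_05b4bd_ag.RV

theorem flowaS : FlowaStmt := fun P Q q h => Flowa.box (P, Q) q h

theorem Flowa.cena : CenaStmt := fun _ _ _ _ => Flowa.cen_of_int

end Pool.Agent.MP_05b4bd_ag.RV
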