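import Pool.Agent.MP_05b4bd_ag.rr.Bas

/-! The equation of the first order. -/

namespace Pool.Agent.MP_05b4bd_ag.RV

open PowerSeries LaurentSeries HC
open ES hiding Gen Ob Inf
open ES.U (TM Cr hom)
open PC3 (Fm fm d1 DF sub2 pb mapF Van CenK iS)

namespace Fo

variable {k E : Type} [Field k] [Field E]

theorem cc_map (e : R2 k →+* E) (u : (R2 k)⟦X⟧) : cc (map e u) = e (cc u) := by
  rw [← coeff_zero_eq_constantCoeff_apply, coeff_map, coeff_zero_eq_constantCoeff_apply]

theorem coeff_pow_mul {R : Type} [CommRing R] (m : ℕ) (u : R⟦X⟧) :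
    coeff m (X ^ m * u) = cc u := by
  have := coeff_X_pow_mul u m 0
  rw [zero_add] at this
  rw [this, coeff_zero_eq_constantCoeff_apply]

/-- The field applied to a displaced coordinate. -/
theorem vS_eq {e : R2 k →+* E} {d : Fin 2 → E →+ E} (hd : D2 e d) (B : Fin 2 → E⟦X⟧) (m : ℕ)
    (i : Fin 2) (η : E⟦X⟧) :
    vS d B (C (e (MvPolynomial.X i)) + X ^ m * η) = B i + X ^ m * vS d B η := by
  unfold vS
  rw [map_add, map_add, cw_C, cw_C, cw_X_pow_mul, cw_X_pow_mul, hd.ext, hd.ext]
  fin_cases i <;> simp <;> ring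

end Fo

open Fo in
theorem foS (h : EvsStmt) : FoStmt := by
  intro k E _ _ e d f A B m ξ μ hd hf hm hA hAB hE
  choose η hη using hE.near
  choose G hG using hAB
  have hξ : ∀ i, ξ i = C (e (MvPolynomial.X i)) + X ^ m * η i := fun i => by
    rw [← hη i]; ring
  have hB : ∀ i, B i = A i - X ^ m * G i := fun i => by rw [← hG i]; ring
  have h3 := (h k E e ξ).2.2.1 m hm hE.near
  choose r hr using h3
  have hX : cc ((X : E⟦X⟧) ^ m) = 0 := cc_X_pow hm
  have hX' : cc ((X : (R2 k)⟦X⟧) ^ m) = 0 := cc_X_pow hm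
  have hev : ∀ u, evS e ξ u = map e u + X ^ m * (map e (cw (pd k 0) u) * η 0 +
      map e (cw (pd k 1) u) * η 1 + X * r u) := fun u => by
    have := hr u
    rw [hη 0, hη 1] at this
    linear_combination this
  have heq : ∀ i, map e (A i) - X ^ m * map e (G i) +
      X ^ m * vS d (fun j => map e (B j)) (η i) = μ * (map e (A i) + X ^ m *
        (map e (cw (pd k 0) (A i)) * η 0 + map e (cw (pd k 1) (A i)) * η 1 + X * r (A i))) := by
    intro i
    have := hE.eq i
    rw [hev, hξ i, vS_eq hd] at this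
    rw [← this, hB i, map_sub, map_mul, map_pow, map_X]
  have hu : IsUnit (map e (A 1)) := by
    rw [isUnit_iff_constantCoeff, isUnit_iff_ne_zero]
    change cc (map e (A 1)) ≠ 0
    rw [cc_map, hA]
    simpa [ham] using hf
  have hμ : X ^ m ∣ μ - 1 := by
    rw [← hu.dvd_mul_right]
    refine ⟨-map e (G 1) + vS d (fun j => map e (B j)) (η 1) - μ *
      (map e (cw (pd k 0) (A 1)) * η 0 + map e (cw (pd k 1) (A 1)) * η 1 + X * r (A 1)), ?_⟩
    linear_combination -heq 1
  obtain ⟨ν, hν⟩ := hμ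
  have hμ0 : cc μ = 1 := by
    have := congrArg cc hν
    rw [map_sub, map_one, map_mul, hX, zero_mul] at this
    linear_combination this
  have hBc : ∀ i, cc (B i) = ham f i := fun i => by
    rw [hB i, map_sub, map_mul, hX', zero_mul, sub_zero, hA]
  have hD : ∀ i, D0 e d f (cc (η i)) = e (cc (G i)) + cc ν * e (ham f i) +
      (e (MvPolynomial.pderiv 0 (ham f i)) * cc (η 0) +
        e (MvPolynomial.pderiv 1 (ham f i)) * cc (η 1)) := by
    intro i
    have h1 : -map e (G i) + vS d (fun j => map e (B j)) (η i) = ν * map e (A i) + μ *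
        (map e (cw (pd k 0) (A i)) * η 0 + map e (cw (pd k 1) (A i)) * η 1 + X * r (A i)) := by
      apply mul_left_cancel₀ (pow_ne_zero m (X_ne_zero (R := E)))
      linear_combination heq i + map e (A i) * hν
    have h2 := congrArg cc h1
    simp only [vS, map_add, map_neg, map_mul, cc_map, cc_cw, hBc, hA, hμ0, pd_apply,
      constantCoeff_X, zero_mul, add_zero, one_mul] at h2
    unfold D0
    have a0 : ham f 0 = MvPolynomial.pderiv 1 f := rfl
    have a1 : ham f 1 = -MvPolynomial.pderiv 0 f := rfl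
    rw [a0, a1, map_neg] at h2
    linear_combination h2
  have hc : coeff m (evS e ξ (C f)) = e (MvPolynomial.pderiv 0 f) * cc (η 0) +
      e (MvPolynomial.pderiv 1 f) * cc (η 1) := by
    rw [hev, map_add, coeff_pow_mul, map_C, coeff_C, if_neg (by omega)]
    simp only [map_add, map_mul, cc_map, cc_cw, pd_apply, constantCoeff_X, constantCoeff_C,
      zero_mul, add_zero, zero_add]
  have g0 := hD 0
  have g1 := hD 1
  have a0 : ham f 0 = MvPolynomial.pderiv 1 f := rfl
  have a1 : ham f 1 = -MvPolynomial.pderiv 0 f := rfl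
  rw [a0] at g0
  rw [a1] at g1
  rw [hc, hG 0, hG 1, coeff_pow_mul, coeff_pow_mul]
  unfold D0 at g0 g1 ⊢
  simp only [map_add, map_mul, map_neg, hd.der 0 _ _, hd.der 1 _ _, hd.ext,
    HC.pderiv_comm] at g0 g1 ⊢
  linear_combination e (MvPolynomial.pderiv 0 f) * g0 + e (MvPolynomial.pderiv 1 f) * g1

end Pool.Agent.MP_05b4bd_ag.RV
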