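import Pool.Agent.MP_05b4bd_ag.rr.Spec2

/-! Least first integrals do not depend on the frame and on the origin. -/

namespace Pool.Agent.MP_05b4bd_ag.RV

open PowerSeries LaurentSeries HC
open ES hiding Gen Ob Inf
open ES.U (TM Cr hom)
open PC3 (Fm fm d1 DF sub2 pb mapF Van CenK iS)

namespace FrameR

theorem ev_tr {R S : Type} [CommRing R] [CommRing S] (ψ : R →+* S) (c : Fin 2 → R) (a b : S)
    (u : R2 R) : MvPolynomial.eval₂ ψ ![a, b] (tr c u) =
      MvPolynomial.eval₂ ψ ![a + ψ (c 0), b + ψ (c 1)] u := by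
  induction u using MvPolynomial.induction_on with
  | C r => simp [tr]
  | add p q hp hq => simp only [map_add, MvPolynomial.eval₂_add, hp, hq]
  | mul_X p i hp =>
    rw [map_mul, MvPolynomial.eval₂_mul, MvPolynomial.eval₂_mul, hp]
    fin_cases i <;> simp [tr]

theorem hev_tr {R S : Type} [CommRing R] [CommRing S] [IsDomain S] (φ : R →+* S) (d : ℕ)
    (c : Fin 2 → R) {u : R2 R} (hu : DL (d + 1) u) (x y : S) {w : S} (hw : w ≠ 0) :
    hev φ d (tr c u) x y w = hev φ d u (x + φ (c 0) * w) (y + φ (c 1) * w) w := by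
  apply IsFractionRing.injective S (FractionRing S)
  have h0 : algebraMap S (FractionRing S) w ≠ 0 :=
    (map_ne_zero_iff _ (IsFractionRing.injective S (FractionRing S))).2 hw
  simp only [map_hev, map_add, map_mul]
  generalize algebraMap S (FractionRing S) = g at h0 ⊢
  have e : ∀ a : S, g a = g w * (g a / g w) := fun a => by field_simp
  have e' : ∀ (a : S) (r : R), g a + g (φ r) * g w = g w * (g a / g w + g.comp φ r) := fun a r => by
    rw [RingHom.comp_apply]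
    field_simp
  rw [e', e', hev_eq _ _ hu, ← ev_tr, ← hev_eq _ _ (tr_DL c hu), ← e, ← e]

variable {k L : Type} [Field k] [Field L] (κ : k →+* L) {D : L →+ L}

theorem cw_κ (hκ : ∀ c, D (κ c) = 0) (r : k⟦X⟧) : cw D (map κ r) = 0 := by
  ext n
  rw [coeff_cw, coeff_map, hκ, map_zero]

theorem red_hev {e : ℕ} {P : R2 k⟦X⟧} (h : DL (e + 1) (MvPolynomial.map cc P)) (x y : AA L) :
    ∃ g, red (hev ((C : L⟦X⟧ →+* AA L).comp (map κ)) (e + 1) P x y X) = X * g ∧
      cc g = evp κ (c00 x) (c00 y) (hc e (MvPolynomial.map cc P)) := by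
  have e1 : (red : AA L →+* L⟦X⟧).comp ((C : L⟦X⟧ →+* AA L).comp (map κ)) =
      ((C : L →+* L⟦X⟧).comp κ).comp cc := RingHom.ext fun c => by
    simp only [RingHom.comp_apply, red_C]
    rfl
  have e2 : (cc : L⟦X⟧ →+* L).comp ((C : L →+* L⟦X⟧).comp κ) = κ := RingHom.ext fun c => by simp
  refine ⟨_, by rw [map_hev, e1, ← hev_map, red_X, hev_succ _ _ h], ?_⟩
  rw [map_hev, constantCoeff_X, hev_zero, e2, cc_red, cc_red]
  rfl

variable {κ} [CharZero k] {e : ℕ} (o : Ob k (e + 1))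

theorem std {x y : AA L} (h : Curve κ D (hc (e + 1) o.f) (c00 x) (c00 y)) :
    Std (fa κ (e + 1) o.P o.Q x y) (fb κ D (e + 1) o.P o.Q x y) := by
  have : CharZero L := charZero_of_injective_ringHom κ.injective
  obtain ⟨p, p1, p2⟩ := red_hev κ (e := e) (P := o.P) (o.rP ▸ o.gen.2.1.pderiv 1) x y
  obtain ⟨q, q1, q2⟩ := red_hev κ (e := e) (P := o.Q) (o.rQ ▸ (o.gen.2.1.pderiv 0).neg) x y
  rw [o.rP, hc_pderiv] at p2
  rw [o.rQ, hc_neg, hc_pderiv, map_neg] at q2
  have ea : red (fa κ (e + 1) o.P o.Q x y) =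
      X * (p * red (X * dX _ y - y) - q * red (X * dX _ x - x)) := by
    rw [fa, aF, map_sub, map_mul, map_mul, p1, q1]
    ring
  have eu := congrArg (evp κ (c00 x) (c00 y)) (euler (hc_hom (e + 1) o.f))
  have ex : evp κ (c00 x) (c00 y) (MvPolynomial.X 0) = c00 x := by simp [evp]
  have ey : evp κ (c00 x) (c00 y) (MvPolynomial.X 1) = c00 y := by simp [evp]
  rw [map_add, map_mul, map_mul, map_mul, map_natCast, h.2.2.1, ex, ey] at eu
  refine ⟨by rw [← cc_red, ea]; simp, fun z => ?_, ?_⟩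
  · rw [co2, coeff_zero_eq_constantCoeff_apply, ← coeff_red, ea, coeff_succ_X_mul,
      coeff_zero_eq_constantCoeff_apply] at z
    simp only [map_sub, map_mul, red_X, constantCoeff_X, cc_red, p2, q2] at z
    exact (Nat.cast_ne_zero (R := L)).2 e.succ_ne_zero (by linear_combination -z - eu)
  · rw [← cc_red, fb, bF, map_sub, map_mul, map_mul, p1, q1]
    simp

theorem chg (h1 : ChgaStmt) (h2 : ChgbStmt) (h3 : TrfStmt) {x y : AA L} (n α : ℕ)
    (h : Curve κ D (hc (e + 1) o.f) (c00 x) (c00 y)) :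
    Good κ D (fa κ (e + 1) o.P o.Q (CC (c00 x)) (CC (c00 y)))
      (fb κ D (e + 1) o.P o.Q (CC (c00 x)) (CC (c00 y))) n α ↔
    Good κ D (fa κ (e + 1) o.P o.Q x y) (fb κ D (e + 1) o.P o.Q x y) n α := by
  have : CharZero L := charZero_of_injective_ringHom κ.injective
  obtain ⟨τ, t1, t2, -⟩ := exists_tayl h.1 (RingHom.id L)
  obtain ⟨η, υ, e0, u1, hx, hy⟩ := h2 k L κ D (e + 1) _ x y τ (by omega) (hc_hom _ _) h ⟨t1, t2⟩
  have hA := h1 L D τ η υ h.1 ⟨t1, t2⟩ e0 u1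
  generalize thC τ η υ = Θ at hx hy hA
  have hΘ := hA.1
  have c0 : ∀ r : L, c00 (CC r : AA L) = r := fun r => by simp [c00, CC]
  have d0 : ∀ r : L, dX _ (CC r : AA L) = 0 := fun r => dX_C _
  have e1 : Θ.comp ((C : L⟦X⟧ →+* AA L).comp (map κ)) = (C : L⟦X⟧ →+* AA L).comp (map κ) :=
    RingHom.ext fun c => hΘ.fix _ (cw_κ κ h.2.1 c)
  have e2 : ∀ P, Θ (hev ((C : L⟦X⟧ →+* AA L).comp (map κ)) (e + 1) P (CC (c00 x)) (CC (c00 y)) X) =
      υ ^ (e + 1) * hev ((C : L⟦X⟧ →+* AA L).comp (map κ)) (e + 1) P x y X := fun P => by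
    rw [map_hev, e1, hx, hy, hΘ.w, mul_comm X, hev_smul]
  have sx := hΘ.ds (CC (c00 x))
  have sy := hΘ.ds (CC (c00 y))
  have wx := hΘ.dw (CC (c00 x))
  have wy := hΘ.dw (CC (c00 y))
  rw [hx, d0, map_zero, h.1.coefw.coefw] at sx
  rw [hy, d0, map_zero, h.1.coefw.coefw] at sy
  rw [hx, d0, map_zero, isDer_dX] at wx
  rw [hy, d0, map_zero, isDer_dX] at wy
  have hu : IsUnit υ := isUnit_iff_constantCoeff.2 (isUnit_iff_constantCoeff.2 (by
    rw [← c00_apply, u1]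
    exact isUnit_one))
  refine h3 k L κ D η υ (υ ^ (e + 3)) _ _ _ _ Θ n α h.1 hA (hu.pow _) ?_ ?_
    (std o (by rwa [c0, c0])) (std o h)
  all_goals simp only [fa, fb, aF, bF, d0, map_sub, map_mul, map_zero, e2, hx, hy, hΘ.w]
  all_goals generalize hev ((C : L⟦X⟧ →+* AA L).comp (map κ)) (e + 1) o.P x y X = p
  all_goals generalize hev ((C : L⟦X⟧ →+* AA L).comp (map κ)) (e + 1) o.Q x y X = q
  · linear_combination υ ^ (e + 2) * X * (p * wy - q * wx)
  · linear_combination υ ^ (e + 2) * X * (p * sy - q * sx)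

end FrameR

open FrameR

theorem frameS (h1 : ChgaStmt) (h2 : ChgbStmt) (h3 : TrfStmt) : FrameStmt := by
  intro k L _ _ _ d o κ D x y x' y' c n α hd h hx hy hG
  obtain ⟨e, rfl⟩ : ∃ e, d = e + 1 := ⟨d - 1, by omega⟩
  have c0 : ∀ (z : AA L) (r : L⟦X⟧), c00 (z + C r * X) = c00 z := fun z r => by simp [c00]
  have dw : ∀ (z : AA L) (r : L⟦X⟧), X * dX _ (z + C r * X) - (z + C r * X) = X * dX _ z - z :=
    fun z r => by
      rw [map_add, isDer_dX, dX_C, dX_X]
      ring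
  have ds : ∀ (z : AA L) (r : k⟦X⟧), cw (cw D) (z + C (map κ r) * X) = cw (cw D) z := fun z r => by
    rw [map_add, h.1.coefw.coefw, cw_C, cw_κ κ h.2.1, cw_X h.1.coefw.one]
    simp
  have := (chg o h1 h2 h3 (x := x' + C (map κ (c 0)) * X) (y := y' + C (map κ (c 1)) * X) n α
    (by rwa [c0, c0, hx, hy])).1 (by
      rw [c0, c0, hx, hy]
      exact (chg o h1 h2 h3 n α h).2 hG)
  rw [fa, fb, aF, bF, dw, dw, ds, ds] at this
  rw [fa, fb, aF, bF, hev_tr _ _ c o.dP _ _ X_ne_zero, hev_tr _ _ c o.dQ _ _ X_ne_zero]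
  exact this

end Pool.Agent.MP_05b4bd_ag.RV
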