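import Pool.Agent.MP_05b4bd_ag.rr.Spec5

/-! The homological equations of the operator `u d/du - v d/dv`. -/

namespace Pool.Agent.MP_05b4bd_ag.RV

open PowerSeries LaurentSeries HC
open ES hiding Gen Ob Inf
open ES.U (TM Cr hom)

namespace Hom
variable {k : Type} [Field k]

theorem co2_mk (F : ℕ → ℕ → k) (i j : ℕ) :
    co2 i j (PowerSeries.mk fun j => PowerSeries.mk fun i => F i j : AA k) = F i j := by
  simp [co2]

theorem co2_mul_CX (i j : ℕ) (c : AA k) :
    co2 i j (c * C X) = if 1 ≤ i then co2 (i - 1) j c else 0 := by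
  rw [co2, coeff_mul_C]
  cases i with
  | zero => simp
  | succ i => simp [co2, coeff_succ_mul_X]

theorem co2_mul_X (i j : ℕ) (c : AA k) :
    co2 i j (c * X) = if 1 ≤ j then co2 i (j - 1) c else 0 := by
  rw [co2]
  cases j with
  | zero => simp
  | succ j => simp [co2, coeff_succ_mul_X]

theorem co2_Lh (i j : ℕ) (y : AA k) : co2 i j (Lh y) = ((i : k) - j) * co2 i j y := by
  rw [Lh, co2_sub, mul_comm (C X), mul_comm X, co2_mul_CX, co2_mul_X, co2_cw_dX, co2_dX]
  cases i <;> cases j <;> simp <;> ring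

theorem mem_uv : (C X * X : AA k) ∈ up (up (⊥ : Ideal k)) := by
  simp [mem_up2, c00_apply]

theorem dg_C (r : k) : dg k (C r) = CC r := ES.ev_C _ mem_uv r

theorem dg_X : dg k X = C X * X := ES.ev_X _ mem_uv

theorem co2_dg (i j : ℕ) (l : k⟦X⟧) : co2 i j (dg k l) = if i = j then coeff i l else 0 := by
  obtain ⟨g, hg⟩ := exists_trunc l (i + 1)
  have h0 : co2 i j ((C X * X) ^ (i + 1) * dg k g) = 0 := by
    refine (CX_pow_dvd_iff (i + 1) _).1 ?_ i j (Nat.lt_succ_self i)
    rw [mul_pow, mul_assoc]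
    exact dvd_mul_right _ _
  conv_lhs => rw [hg]
  simp only [map_add, map_mul, map_sum, map_pow, dg_C, dg_X, co2_add, co2_sum, h0, add_zero]
  simp only [mul_pow, ← mul_assoc, co2_mono]
  rw [Finset.sum_eq_single i]
  · by_cases h : i = j <;> simp [h, eq_comm]
  · intro b _ hb
    simp [hb.symm]
  · simp

theorem co2_dg_CX (i j : ℕ) (l : k⟦X⟧) :
    co2 i j (dg k l * C X) = if i = j + 1 then coeff j l else 0 := by
  rw [co2_mul_CX, co2_dg]
  cases i with
  | zero => simp
  | succ i => by_cases h : i = j <;> simp [h]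

theorem co2_dg_X (i j : ℕ) (l : k⟦X⟧) :
    co2 i j (dg k l * X) = if j = i + 1 then coeff i l else 0 := by
  rw [co2_mul_X, co2_dg]
  cases j with
  | zero => simp
  | succ j => by_cases h : i = j <;> simp [h, eq_comm]

end Hom

open Hom in
theorem homS : HomStmt := by
  intro k _ _
  refine ⟨fun g => ⟨?_, fun h => ?_⟩, fun a => ?_, fun b => ?_⟩
  · rintro ⟨y, rfl⟩ n
    rw [co2_Lh, sub_self, zero_mul]
  · refine ⟨PowerSeries.mk fun j => PowerSeries.mk fun i => co2 i j g / ((i : k) - j), co2_ext fun i j => ?_⟩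
    rw [co2_Lh, co2_mk fun i j => co2 i j g / ((i : k) - j)]
    by_cases e : i = j
    · rw [e, h, sub_self, zero_mul]
    · exact mul_div_cancel₀ _ (sub_ne_zero.2 fun h' => e (Nat.cast_injective h'))
  · refine ⟨PowerSeries.mk fun j => PowerSeries.mk fun i => co2 i j a / ((i : k) - j - 1), PowerSeries.mk fun j => -co2 (j + 1) j a,
      co2_ext fun i j => ?_⟩
    rw [co2_sub, co2_sub, co2_Lh, co2_dg_CX, co2_mk fun i j => co2 i j a / ((i : k) - j - 1),
      coeff_mk, ← sub_one_mul]
    by_cases e : i = j + 1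
    · subst e
      simp
    · rw [if_neg e, sub_zero]
      refine mul_div_cancel₀ _ fun h' => e (Nat.cast_injective (R := k) ?_)
      push_cast
      linear_combination h'
  · refine ⟨PowerSeries.mk fun j => PowerSeries.mk fun i => co2 i j b / ((i : k) - j + 1), PowerSeries.mk fun i => co2 i (i + 1) b,
      co2_ext fun i j => ?_⟩
    rw [co2_add, co2_add, co2_Lh, co2_dg_X, co2_mk fun i j => co2 i j b / ((i : k) - j + 1),
      coeff_mk, ← add_one_mul]
    by_cases e : j = i + 1
    · subst e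
      simp
    · rw [if_neg e, add_zero]
      refine mul_div_cancel₀ _ fun h' => e (Nat.cast_injective (R := k) ?_)
      push_cast
      linear_combination -h'

end Pool.Agent.MP_05b4bd_ag.RV
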