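import Pool.Agent.MP_05b4bd_ag.rr.Spec3

/-! An invariant ideal on the quotient is a power of the coordinate. -/

namespace Pool.Agent.MP_05b4bd_ag.RV

open PowerSeries LaurentSeries HC
open ES hiding Gen Ob Inf

namespace Idl

section Lead
variable {R S : Type} [CommRing R] [CommRing S] {n : ℕ} {f s : R⟦X⟧}

theorem lead_mul (h : X ^ n ∣ f) (g : R⟦X⟧) : coeff n (g * f) = cc g * coeff n f := by
  obtain ⟨u, rfl⟩ := h
  rw [mul_left_comm, coeff_X_pow_mul_self, coeff_X_pow_mul_self, map_mul]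

theorem lead_sb (hs : cc s = 0) (h : X ^ n ∣ f) :
    coeff n (sb s f) = coeff 1 s ^ n * coeff n f := by
  obtain ⟨u, rfl⟩ := h
  obtain ⟨v, rfl⟩ := X_dvd_iff.2 hs
  rw [map_mul, map_pow, sb_X hs, mul_pow, mul_assoc, coeff_X_pow_mul_self, coeff_X_pow_mul_self,
    map_mul, map_pow, cc_sb hs, coeff_succ_X_mul, coeff_zero_eq_constantCoeff_apply]

theorem dvd_map (η : R →+* S) (h : X ^ n ∣ f) : X ^ n ∣ map η f := by
  simpa only [map_pow, map_X] using map_dvd (map η) h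

theorem dvd_th (h : X ^ n ∣ f) : X ^ n ∣ thP R f :=
  X_pow_dvd_iff.2 fun j hj => by rw [coeff_thP, X_pow_dvd_iff.1 h j hj, mul_zero]

/-- The shift of the coefficients. -/
noncomputable def sh (m : ℕ) : R⟦X⟧ →+ R⟦X⟧ where
  toFun f := PowerSeries.mk fun i => coeff (i + m) f
  map_zero' := by ext; simp
  map_add' f g := by ext; simp

theorem coeff_sh (m i : ℕ) (f : R⟦X⟧) : coeff i (sh m f) = coeff (i + m) f :=
  coeff_mk i fun i => coeff (i + m) f

theorem sh_X (m : ℕ) (f : R⟦X⟧) : sh m (X ^ m * f) = f := by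
  ext i
  rw [coeff_sh, coeff_X_pow_mul]

theorem sh_C (m : ℕ) (c : R) (f : R⟦X⟧) : sh m (C c * f) = C c * sh m f := by
  ext i
  rw [coeff_sh, coeff_C_mul, coeff_C_mul, coeff_sh]

end Lead

variable {L : Type} [Field L] {μ ρ : AA L} {m : ℕ}

/-- Division with remainder. -/
theorem wdiv (h : OrdIs m (red μ)) (G : AA L) : ∃ q, ∀ i, m ≤ i → coeff i (G - μ * q) = 0 := by
  obtain ⟨μ1, h1⟩ := eq_red_add μ
  obtain ⟨u, hu, hc⟩ := h.fac
  obtain ⟨v, hv⟩ := (isUnit_iff_constantCoeff.2 (Ne.isUnit (hc ▸ h.1 : cc u ≠ 0))).exists_right_inv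
  obtain ⟨q, hq, -⟩ := fix_dvd (C X : AA L) (fun q => map C v * sh m (G - C X * (μ1 * q)))
    fun n x y ⟨s, hs⟩ => ⟨-(map C v * sh m (μ1 * s)), by
      have : G - C X * (μ1 * x) - (G - C X * (μ1 * y)) = -(C (X ^ (n + 1)) * (μ1 * s)) := by
        rw [map_pow]
        linear_combination -(C X * μ1 * hs)
      rw [← mul_sub, ← map_sub, this, map_neg, sh_C, map_pow]
      ring⟩
  have e : sh m (G - μ * q) = 0 := by
    have : G - μ * q = G - C X * (μ1 * q) - X ^ m * (map C u * q) := by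
      rw [h1, hu, map_mul, map_pow, map_X]
      ring
    have k := congrArg (map (C : L →+* L⟦X⟧)) hv
    rw [map_mul, map_one] at k
    rw [this, map_sub, sh_X]
    linear_combination map C u * hq - sh m (G - C X * (μ1 * q)) * k
  refine ⟨q, fun i hi => ?_⟩
  rw [← Nat.sub_add_cancel hi, ← coeff_sh, e, map_zero]

theorem sat (h : red μ ≠ 0) (n : ℕ) {g : AA L} (e : μ ∣ C X ^ n * g) : μ ∣ g := by
  induction n with
  | zero => simpa using e
  | succ n ih =>
    obtain ⟨w, hw⟩ := e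
    have k := congrArg red hw
    rw [pow_succ', mul_assoc, map_mul, red_C, constantCoeff_X, map_zero, zero_mul, map_mul] at k
    obtain ⟨w', rfl⟩ := red_eq_zero.1 ((mul_eq_zero.1 k.symm).resolve_left h)
    have t : (C X : AA L) ≠ 0 := fun z => X_ne_zero (C_injective (z.trans (map_zero C).symm))
    exact ih ⟨w', mul_left_cancel₀ t (by linear_combination hw)⟩

theorem low (hρ : cc ρ = 0) (hμ : red μ ≠ 0) {r : AA L} (h0 : r ≠ 0) (h : μ ∣ sb ρ r) {n : ℕ}
    (hn : ∀ i, n ≤ i → coeff i r = 0) : ∃ e < n, ∃ P, μ ∣ sb ρ P ∧ OrdIs e (red P) := by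
  obtain ⟨j, P, rfl, hP⟩ := exists_tfac h0
  obtain ⟨e, he⟩ := exists_ordIs hP
  rw [map_mul, map_pow, sb_C hρ] at h
  refine ⟨e, lt_of_not_ge fun c => he.1 ?_, P, sat hμ j h, he⟩
  have := hn e c
  rw [← map_pow, coeff_C_mul] at this
  rw [coeff_red, (mul_eq_zero.1 this).resolve_left (pow_ne_zero _ X_ne_zero), map_zero]

theorem dep (hρ : cc ρ = 0) (h : OrdIs m (red μ)) :
    ∃ e < m + 1, ∃ P, μ ∣ sb ρ P ∧ OrdIs e (red P) := by
  choose q hq using wdiv h
  obtain ⟨g, hg, j0, hj⟩ := Fintype.not_linearIndependent_iff.1 fun c : LinearIndependent L⟦X⟧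
      fun (j : Fin (m + 1)) (i : Fin m) => coeff (i : ℕ) (ρ ^ (j : ℕ) - μ * q (ρ ^ (j : ℕ))) => by
    simpa using c.fintype_card_le_finrank
  have e : ∑ j : Fin (m + 1), C (g j) * (ρ ^ (j : ℕ) - μ * q (ρ ^ (j : ℕ))) = 0 := by
    refine PowerSeries.ext fun i => ?_
    simp only [map_sum, coeff_C_mul, map_zero]
    rcases lt_or_ge i m with c | c
    · simpa only [Finset.sum_apply, Pi.smul_apply, smul_eq_mul, Pi.zero_apply] using
        congrFun hg ⟨i, c⟩
    · exact Finset.sum_eq_zero fun j _ => by rw [hq _ i c, mul_zero]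
  refine low hρ (fun z => h.1 (by rw [z, map_zero]))
    (r := ∑ j : Fin (m + 1), C (g j) * X ^ (j : ℕ)) (fun z => hj ?_)
    ⟨∑ j : Fin (m + 1), C (g j) * q (ρ ^ (j : ℕ)), ?_⟩ fun i hi => ?_
  · simpa [coeff_C_mul, coeff_X_pow, Fin.val_inj] using congrArg (coeff (j0 : ℕ)) z
  · simp only [map_sum, map_mul, map_pow, sb_C hρ, sb_X hρ]
    rw [← sub_eq_zero, ← e, Finset.mul_sum, ← Finset.sum_sub_distrib]
    exact Finset.sum_congr rfl fun j _ => by ring
  · simp only [map_sum, coeff_C_mul, coeff_X_pow]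
    exact Finset.sum_eq_zero fun j _ => by rw [if_neg (by omega), mul_zero]

/-- The ideal has one generator. -/
theorem gen (hρ : cc ρ = 0) (h : OrdIs m (red μ)) : ∃ e ≤ m, ∃ P, μ ∣ sb ρ P ∧ OrdIs e (red P) ∧
    ∀ G, μ ∣ sb ρ G → P ∣ G := by
  classical
  obtain ⟨e, he, H⟩ := dep hρ h
  have ex : ∃ e, ∃ P, μ ∣ sb ρ P ∧ OrdIs e (red P) := ⟨e, H⟩
  obtain ⟨P, p1, p2⟩ := Nat.find_spec ex
  refine ⟨_, (Nat.find_min' ex H).trans (by omega), P, p1, p2, fun G hG => ?_⟩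
  obtain ⟨q, hq⟩ := wdiv p2 G
  refine ⟨q, sub_eq_zero.1 (by_contra fun c => ?_)⟩
  obtain ⟨e', h1, h2⟩ := low hρ (fun z => h.1 (by rw [z, map_zero])) c
    (by rw [map_sub, map_mul]; exact dvd_sub hG (p1.mul_right _)) hq
  exact Nat.find_min ex h1 h2

end Idl

open Idl in
theorem idealS : IdealStmt := by
  intro L _ _ D η ρ μ B Ψ m hD hρ hμ tB cB cΨ p0 p1 hη h1 h2
  obtain ⟨e, em, P, hP, oP, gP⟩ := gen hρ hμ
  obtain ⟨e0, o0⟩ := exists_ordIs (f := P) fun z => oP.1 (by rw [z, map_zero, map_zero])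
  obtain ⟨j, oj⟩ := exists_ordIs o0.1
  have d1 := X_pow_dvd_iff.2 oP.2
  have d2 := X_pow_dvd_iff.2 o0.2
  have d3 := X_pow_dvd_iff.2 oj.2
  obtain ⟨Q, hQ⟩ := gP _ (h1 P hP)
  obtain ⟨v, hv⟩ := gP _ (h2 P hP)
  rw [mul_comm P] at hQ hv
  obtain ⟨B1, rfl⟩ := X_dvd_iff.2 cB
  have rB := red_eq_zero.2 tB
  have b1 : cc (cc B1) = 0 := by
    have := congrArg (coeff 1) rB
    rwa [coeff_red, coeff_succ_X_mul, coeff_zero_eq_constantCoeff_apply, map_zero] at this
  have pe : co2 0 1 Ψ = cc (coeff 1 Ψ) := coeff_zero_eq_constantCoeff_apply _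
  have a1 : D (coeff e (red P)) = c00 Q * coeff e (red P) := by
    have := congrArg (fun c => coeff e (red c)) hQ
    simp only [map_add, map_mul red _ (dX _ P), rB, zero_mul, add_zero] at this
    rwa [map_mul, lead_mul d1, cc_red, coeff_red, coeff_cw, cc_cw, ← coeff_red] at this
  have a2 : D (coeff j (coeff e0 P)) = c00 Q * coeff j (coeff e0 P) := by
    have := congrArg (fun c => coeff j (coeff e0 c)) hQ
    simp only [map_add] at this
    rwa [mul_comm X, mul_assoc, ← thP_apply, lead_mul d2, lead_mul (dvd_th d2), coeff_thP,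
      ← mul_assoc, lead_mul d3, lead_mul d3, map_mul, b1, zero_mul, zero_mul, add_zero, coeff_cw,
      coeff_cw] at this
  have a3 : co2 0 1 Ψ ^ e * η (coeff e (red P)) = c00 v * coeff e (red P) := by
    have := congrArg (fun c => coeff e (red c)) hv
    simp only [map_mul] at this
    rwa [lead_mul d1, cc_red, red, map_sb cΨ, ← red, red_mA,
      lead_sb (by rw [cc_red, c00_apply, cΨ, map_zero]) (dvd_map η d1), coeff_map, coeff_red Ψ,
      ← pe] at this
  have a4 : co2 0 1 Ψ ^ e0 * η (coeff j (coeff e0 P)) = c00 v * coeff j (coeff e0 P) := by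
    have := congrArg (fun c => coeff j (coeff e0 c)) hv
    rwa [lead_mul d2, lead_mul d3, mA, lead_sb cΨ (dvd_map _ d2), coeff_map,
      lead_mul (dvd_map η d3), coeff_map, map_pow, ← pe] at this
  have n1 := oP.1
  have n2 := oj.1
  generalize coeff j (coeff e0 P) = c at a2 a4 n2
  obtain ⟨y, rfl⟩ : ∃ y, c = coeff e (red P) * y := ⟨c / _, (mul_div_cancel₀ _ n1).symm⟩
  have y0 : D y = 0 := by
    rw [hD, a1] at a2
    exact (mul_eq_zero.1 (by linear_combination a2)).resolve_left n1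
  rw [map_mul, hη y y0] at a4
  have le : e0 ≤ e := le_of_not_gt fun c => n1 (by rw [coeff_red, o0.2 e c, map_zero])
  obtain ⟨s, rfl⟩ := Nat.exists_eq_add_of_le le
  have s1 : co2 0 1 Ψ ^ s = 1 := by
    refine mul_left_cancel₀ (mul_ne_zero (mul_ne_zero (pow_ne_zero e0 p0)
      ((map_ne_zero η).2 n1)) (right_ne_zero_of_mul n2)) ?_
    linear_combination y * a3 - a4
  obtain rfl : s = 0 := by_contra fun c => p1 s (by omega) (by omega) s1
  obtain ⟨u, hu, hc⟩ := o0.fac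
  have uu : IsUnit u := by
    rw [isUnit_iff_constantCoeff, isUnit_iff_constantCoeff, isUnit_iff_ne_zero]
    rw [coeff_red, add_zero, ← hc] at n1
    exact n1
  rw [hu, map_mul, map_pow, sb_X hρ] at hP
  exact ⟨e0, (uu.map _).dvd_mul_right.1 hP⟩

end Pool.Agent.MP_05b4bd_ag.RV
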