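import Pool.Agent.MP_05b4bd_ag.rr.Bas

/-! Row IND: the induction on the order of contact with the reversible family. -/

set_option autoImplicit false

namespace Pool.Agent.MP_05b4bd_ag.RV

open PowerSeries LaurentSeries HC
open ES hiding Gen Ob Inf
open ES.U (TM Cr hom)
open PC3 (Fm fm d1 DF sub2 pb mapF Van CenK iS)

namespace Ind

theorem tr_zero {A : Type} [CommRing A] (u : R2 A) : tr 0 u = u := by
  have : tr (0 : Fin 2 → A) = AlgHom.id A _ := MvPolynomial.algHom_ext fun i => by simp [tr]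
  rw [this, AlgHom.id_apply]

theorem tr_add {A : Type} [CommRing A] (c c' : Fin 2 → A) (u : R2 A) :
    tr c' (tr c u) = tr (c + c') u := by
  have : (tr c').comp (tr c) = tr (c + c') :=
    MvPolynomial.algHom_ext fun i => by simp [tr, add_comm, add_left_comm]
  rw [← this, AlgHom.comp_apply]

theorem cg {A : Type} [CommRing A] {c : Fin 2 → A⟦X⟧} {u m r : R2 A⟦X⟧} {N : ℕ}
    (h : tr c u = m + MvPolynomial.C (X ^ (N + 1)) * r) :
    MvPolynomial.C (X ^ N) ∣ MvPolynomial.map (RingHom.id _) u - tr (-c) m := by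
  refine ⟨MvPolynomial.C X * tr (-c) r, ?_⟩
  rw [MvPolynomial.map_id, ← tr_tr c u, h, map_add, add_sub_cancel_left, ← mul_assoc, ← map_mul,
    ← pow_succ, map_mul, tr, MvPolynomial.aeval_C, MvPolynomial.algebraMap_eq]

variable {k L : Type} [Field k] [CharZero k] [Field L] {d n α β : ℕ}

theorem red_eq (o : Ob k d) : mapF cc (o.P, o.Q) = d1 o.f := Prod.ext o.rP o.rQ

theorem curve (R : Rd k d n L) : Curve R.κ R.D (hc d R.f) (c00 R.x) (c00 R.y) := by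
  have e : ∀ a : L, c00 (map C (R.p * C a) : AA L) = a := fun a => by
    have h0 : cc (map C (R.p * C a) : AA L) = C (cc (R.p * C a)) := by
      rw [← coeff_zero_eq_constantCoeff_apply, coeff_map, coeff_zero_eq_constantCoeff_apply]
    rw [c00, RingHom.comp_apply, h0, constantCoeff_C, map_mul, R.p0, constantCoeff_C, one_mul]
  rw [Rd.x, Rd.y, e, e]
  exact R.cv

/-- The state of the induction. -/
def St (R : Rd k d n L) (α β j : ℕ) (o : Ob k d) : Prop := o.f = R.f ∧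
  Good R.κ R.D (R.a (o.P, o.Q)) (R.b (o.P, o.Q)) n α ∧
  ∃ l0 l1 s r, Md d α β R.f j (o.P, o.Q) l0 l1 s r

theorem step [IsAlgClosed k] (h1 : PkStmt) (h2 : ObsStmt) (h3 : FrameStmt) (h4 : KeyStmt)
    (h5 : Wd1Stmt) (h6 : Wd2Stmt) (h8 : Mdl1Stmt) (h9 : Mdl2Stmt) (ha : F2aStmt) (hb : F2bStmt)
    (R : Rd k d n L) (hn : α + β = n) {j : ℕ} {o : Ob k d} (H : St R α β j o) :
    ∃ (c : Fin 2 → k⟦X⟧) (o' : Ob k d), o'.P = tr c o.P ∧ o'.Q = tr c o.Q ∧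
      St R α β (j + 1) o' := by
  obtain ⟨e, g, l0, l1, s, r, m⟩ := H
  obtain ⟨mel, β', ρ, B, u, w1, vb, Φ, φ, pk⟩ := h1 k L d n α R o e g
  obtain rfl : β' = β := by have := pk.sum; omega
  have d3 := R.d3
  have n2 := R.adm.1
  have nd := R.adm.le d3
  have hw : DF (d + 1) (o.P, o.Q) := ⟨o.dP, o.dQ⟩
  obtain ⟨S, -, -, q⟩ := (h4 k L d n R _ s r α β' j ρ B u w1 vb Φ φ l0 l1 pk m hw mel).1
  obtain ⟨m0, m1, A, a1, a2⟩ := h5 k d R.f S R.ζ _ d3 R.gen.tm (R.prim.ne_zero (by omega))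
    (R.prim.ne_one (by omega)) ⟨m.deg.1.map _, m.deg.2.map _⟩ q
  obtain ⟨l0', l1', r', A', m', a3, a4⟩ :=
    h8 k d α β' j R.f _ s r l0 l1 m0 m1 A (by omega) (by omega) m a1 a2
  obtain ⟨⟨S', s1, s2, s3⟩, Ψ, γ, p1, p2⟩ :=
    h4 k L d n R _ s r' α β' j ρ B u w1 vb Φ φ l0' l1' pk m' hw mel
  obtain ⟨z0, z1, y1, y2, y3, y4, y5, y6, y7⟩ :=
    ha k L d n R _ α β' j ρ B u Ψ γ w1 vb Φ φ l0' l1' pk m'.j1 m'.c0 m'.c1 p1 p2
  obtain rfl := hb k L d n R _ s r' α β' j l0' l1' z0 z1 A' pk.fac.a1 hn m' a3 a4 y1 y2 y3 y4 y5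
    y6 y7
  have lo : DF d (mapF cc r') :=
    ⟨(m'.deg.1.map _).pred ((congrArg Prod.fst a4).trans (map_zero _)),
      (m'.deg.2.map _).pred ((congrArg Prod.snd a4).trans (neg_eq_zero.2 (map_zero _)))⟩
  obtain ⟨c0, c1, s0, t⟩ := h6 k d α β' R.f S' R.ζ _ d3 R.gen.tm (hn ▸ R.prim) (hn ▸ R.adm) R.sym
    lo s1 (s2.mono (by omega)) s3
  obtain ⟨c, s', r'', c2, m''⟩ :=
    h9 k d α β' j R.f _ s r' l0' l1' c0 c1 s0 (by omega) m' hw (e ▸ red_eq o) t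
  obtain ⟨o', b1, b2, b3⟩ := (h2 k d o (by omega)).1 c
  refine ⟨c, o', b1, b2, ?_, ?_, l0', l1', s', r'', ?_⟩
  · rw [b3, show (fun i => cc (c i)) = 0 from funext c2, tr_zero, MvPolynomial.eval_zero,
      MvPolynomial.constantCoeff_eq, o.gen.1, map_zero, sub_zero, e]
  · rw [b1, b2]
    exact h3 k L d o R.κ R.D R.x R.y R.x R.y c n α (by omega) (e ▸ curve R) rfl rfl g
  · rw [b1, b2]
    exact m''

end Ind

open Ind in
theorem indS (h1 : PkStmt) (h2 : ObsStmt) (h3 : FrameStmt) (h4 : KeyStmt) (h5 : Wd1Stmt)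
    (h6 : Wd2Stmt) (h7 : Mdl0Stmt) (h8 : Mdl1Stmt) (h9 : Mdl2Stmt) (ha : F2aStmt) (hb : F2bStmt)
    (hc : RrcStmt) : IndStmt := by
  intro k L _ _ _ _ d n α R o e g
  obtain ⟨-, β, ρ, B, u, w1, vb, Φ, φ, pk⟩ := h1 k L d n α R o e g
  have d3 := R.d3
  have a1 := pk.fac.a1
  have key : ∀ j, ∃ (c : Fin 2 → k⟦X⟧) (o' : Ob k d), o'.P = tr c o.P ∧ o'.Q = tr c o.Q ∧
      St R α β (j + 1) o' := fun j => by
    induction j with
    | zero =>
      exact ⟨0, o, (tr_zero _).symm, (tr_zero _).symm, e, g, 0, 0,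
        h7.2 k d α β R.f R.ζ _ (by omega) (by omega) R.gen.2.1 (pk.sum ▸ R.prim) R.sym
          ⟨o.dP, o.dQ⟩ (e ▸ red_eq o)⟩
    | succ j ih =>
      obtain ⟨c, o', b1, b2, H⟩ := ih
      obtain ⟨c', o'', b3, b4, H'⟩ := step h1 h2 h3 h4 h5 h6 h8 h9 ha hb R pk.sum H
      exact ⟨c + c', o'', by rw [b3, b1, tr_add], by rw [b4, b2, tr_add], H'⟩
  refine ⟨β, a1, pk.fac.b1, pk.sum, pk.fac.cop, k, inferInstance, RingHom.id _,
    Function.injective_id, fun N => ?_⟩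
  obtain ⟨c, o', b1, b2, -, -, l0, l1, s, r, m⟩ := key N
  refine ⟨trF (-c) (mdl d α β (1 + HC.lf l0 l1) s), (hc _ d α β _).2.2.2.1 c ?_,
    cg (b1 ▸ congrArg Prod.fst m.eq), cg (b2 ▸ congrArg Prod.snd m.eq)⟩
  rw [show trF c (trF (-c) (mdl d α β (1 + HC.lf l0 l1) s)) = mdl d α β (1 + HC.lf l0 l1) s from
    Prod.ext (tr_tr' _ _) (tr_tr' _ _)]
  exact (h7.1 _ d α β l0 l1 s (by omega)).1

end Pool.Agent.MP_05b4bd_ag.RV
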