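import Pool.Agent.MP_05b4bd_ag.rr.Spec2

/-! A deck transformation at infinity comes from a symmetry of the polynomial. -/

namespace Pool.Agent.MP_05b4bd_ag.RV

open PowerSeries LaurentSeries HC
open ES hiding Gen Ob Inf
open ES.U (TM Cr hom)
open PC3 (Fm fm d1 DF sub2 pb mapF Van CenK iS)

theorem invrS (h1 : PkgStmt) (h2 : RedStmt) (h3 : UM.CbStmt) (h4 : UM.PhiStmt) (h5 : UM.UniStmt)
    (h6 : UM.ActStmt) (h7 : UM.DegStmt) (h8 : Tor3rStmt) (h9 : Tor4rStmt) : InvrStmt := by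
  intro k L _ _ _ _ d I σ φ η d3 lo s0 z0 s2 p1 p3
  have hT : TM d I.f := I.gen.tm
  obtain ⟨n, p, G, _, _, B, π, m, eb, P, lam, l, hCr, hP, hTD, hPer, hlin, hl, hPc⟩ :=
    h1 k L I.κ I.D d I.f I.x0 I.y0 d3 I.gen I.cv I.gb I.fr
  obtain ⟨a, b, ha', dg, g0⟩ := h2 k L d I d3 lo
  have hg : π I.g = B.θ (π (MvPolynomial.pderiv 0 a + MvPolynomial.pderiv 1 b)) := by
    rw [ha', hP.th]
  generalize MvPolynomial.pderiv 0 a + MvPolynomial.pderiv 1 b = g1 at dg g0 hg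
  obtain ⟨q1, q2⟩ := h3 k G d n B I.f p π g1 d3 hT hCr hP dg g0
  obtain ⟨ψ, f1, f2, f3, f4⟩ := h4 k σ s0 z0
  obtain ⟨f5, f6⟩ := f4 L I.κ φ p1
  have hX : ∀ i, P (π I.g) i = cwL (l i) (cc I.Xi) := fun i => by rw [hPc, ← I.rX]
  have hS : UM.Sy B d P ψ (π g1) :=
    { fc := f1
      chain := f2 d (by omega)
      inv := fun i => by
        have h0 : cwL (l i) (cwL I.D η) = 0 := by
          ext j
          exact hl i _
        rw [p3, map_sub, ← mapL_wL I.κ, f5, UM.Inv.dh_mapL, UM.Inv.cwL_lin _ _ (hlin i),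
          f6 _ (hlin i), sub_eq_zero] at h0
        rw [← hg, hX, h0]
      g0 := q1
      cb := q2
      low := fun i j hj => by
        obtain ⟨z, hz⟩ := lo j hj
        rw [← hg, hX]
        exact (congrArg (l i) hz).trans (hl i z) }
  obtain ⟨w, c0, w0, hw⟩ := h5 k G (Fin m) n d B P _ ψ (π g1) hTD hS
  obtain ⟨S, S1, S2, S3⟩ := h6 k G (Fin m) n d B P _ ψ (π g1) w c0 hTD hS w0 hw
  have hwz : w = (coeff 1 σ)⁻¹ ^ d := by
    have h := f3 (UM.hW k d) (-(d : ℤ)) fun j hj => by rw [coeff_wL, if_neg hj.ne]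
    rw [hw, HahnSeries.coeff_add, coeff_cL_mul, coeff_wL, if_pos rfl, coeff_cL,
      if_neg (by omega), zpow_neg, zpow_natCast, ← inv_pow, mul_one, mul_one, add_zero] at h
    exact h
  have hAct : UM.Act B d I.f π (coeff 1 σ) c0 S :=
    { z0 := z0
      z1 := s2
      th := hwz ▸ S1
      mul := hwz ▸ S2
      deg := h7 k G d n B I.f p π S w c0 (by omega) hT hP w0 S1 S2
      lead := fun j u v hu hv e o => (hPer.ker _).1 (by
        rw [map_sub, MvPolynomial.C_mul', map_smul, ← hPer.lead j u hu, ← hPer.lead j v hv, ← e,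
          sub_eq_zero]
        funext i
        exact (S3 _ i _ o).symm.trans (f3 _ _ fun t ht => congrFun (hPer.low j u t hu ht) i)) }
  refine ⟨c0, ?_, ?_⟩
  · rw [← mapL_wL I.κ, f5, hw, map_add, map_mul, mapL_cL, mapL_cL, hwz]
  · by_cases h : d = 3
    · subst h
      exact (h8 k G n B I.f p π _ c0 S hT hCr hP hAct).imp_right fun h => ⟨rfl, h⟩
    · exact Or.inl (h9 k G d n B I.f p π _ c0 S (by omega) hT hCr hP hAct)

end Pool.Agent.MP_05b4bd_ag.RV
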