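import Pool.Agent.MP_05b4bd_ag.rr.Bas

/-! Row KER0: polynomials of low degree that commute with `f`. -/

namespace Pool.Agent.MP_05b4bd_ag.RV

open MvPolynomial HC
open ES.U (TM Cr hom)

namespace Ker0

variable {k : Type} [Field k] [CharZero k] {d : ℕ} {f : R2 k}

theorem low (H : TM d f) {m : ℕ} {η : R2 k} (hη : η.IsHomogeneous m) (h0 : m ≠ 0) (h1 : m < d)
    (h : br η (hc d f) = 0) : η = 0 :=
  Esc.not_dvd_of_lt (hc_hom d f) hη h1
    (Esc.tf (hc_hom d f) H.ci hη h0 (by rw [h]; exact dvd_zero _))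

theorem top (H : TM d f) {m : ℕ} {η : R2 k} (hη : η.IsHomogeneous m) (h0 : m ≠ 0) (h1 : m < 2 * d)
    (h : br η (hc d f) = 0) : ∃ c : k, DL (m + 1) (C c * f) ∧ η = hc m (C c * f) := by
  have hF := hc_hom d f
  have z : η = 0 → ∃ c : k, DL (m + 1) (C c * f) ∧ η = hc m (C c * f) := fun q =>
    ⟨0, by rw [C_0, zero_mul]; exact DL.zero _, by rw [C_0, zero_mul, q]; exact (map_zero _).symm⟩
  by_cases hlt : m < d
  · exact z (low H hη h0 hlt h)
  obtain ⟨s, rfl⟩ : ∃ s, m = s + d := ⟨m - d, by omega⟩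
  obtain ⟨w, hw⟩ := Esc.tf hF H.ci hη h0 (by rw [h]; exact dvd_zero _)
  have e1 : η = hc d f * hc s w := by
    rw [← hc_self hη, hw, mul_comm, hc_mul_hom _ _ hF, mul_comm]
  by_cases hs : s = 0
  · subst hs
    refine ⟨coeff 0 w, by rw [zero_add]; exact H.dl.C_mul _, ?_⟩
    rw [zero_add, hc_C_mul, e1, mul_comm]
    exact congrArg (· * hc d f) (homogeneousComponent_zero w)
  · have e2 : br (hc s w) (hc d f) = 0 := by
      rw [e1, Esc.br_F_mul] at h
      exact (mul_eq_zero.1 h).resolve_left (Esc.ne_zero_of_ci hF H.ci)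
    exact z (by rw [e1, low H (hc_hom s w) hs (by omega) e2, mul_zero])

theorem main (H : TM d f) (hd : 1 ≤ d) (m : ℕ) : m ≤ 2 * d → ∀ S : R2 k, DL m S → br S f = 0 →
    ∃ a b : k, S = C a + C b * f := by
  induction m with
  | zero => exact fun _ S hS _ => ⟨0, 0, by simp [hS.eq_zero]⟩
  | succ m ih =>
    intro hm S hS h
    cases m with
    | zero =>
      exact ⟨coeff 0 S, 0, by
        simpa using totalDegree_eq_zero_iff_eq_C.1 (Nat.le_zero.1 (DL_iff.1 hS))⟩
    | succ s =>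
      obtain ⟨e, rfl⟩ : ∃ e, d = e + 1 := ⟨d - 1, by omega⟩
      have h1 := hc_br_top hS H.dl
      rw [h, show hc (e + s) (0 : R2 k) = 0 from map_zero _] at h1
      obtain ⟨c, c1, c2⟩ := top H (hc_hom (s + 1) S) (by omega) (by omega) h1.symm
      obtain ⟨a, b, q⟩ := ih (by omega) (S - C c * f)
        ((hS.sub c1).pred (by rw [hc_sub, ← c2, sub_self]))
        (by rw [Esc.br_sub, h, Esc.br_mul, Esc.br_C, Esc.br_self]; ring)
      exact ⟨a, b + c, by rw [C_add]; linear_combination q⟩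

end Ker0

theorem ker0S : Ker0Stmt := by
  intro k _ _ d f S hd H hS h
  obtain ⟨a, b, q⟩ := Ker0.main H (by omega) _ le_rfl S hS h
  refine ⟨⟨a, b, q⟩, fun hJ => ?_⟩
  obtain ⟨n, p, hp⟩ := H.cr
  obtain ⟨i, l, hil⟩ := two_crit hd H hp
  obtain ⟨u, v, huv⟩ := Ideal.mem_span_pair.1 hJ
  have e : ∀ j, a + b * eval (p j) f = 0 := fun j => by
    have := congrArg (eval (p j)) (huv.trans q)
    simpa [hp.crit] using this.symm
  have ne : eval (p i) f ≠ eval (p l) f := fun z => hil (by rw [hp.inj z])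
  have b0 : b = 0 := by
    have : b * (eval (p i) f - eval (p l) f) = 0 := by linear_combination e i - e l
    exact (mul_eq_zero.1 this).resolve_right (sub_ne_zero.2 ne)
  have a0 : a = 0 := by simpa [b0] using e i
  simp [q, a0, b0]

end Pool.Agent.MP_05b4bd_ag.RV
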