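import Pool.Agent.MP_05b4bd_ag.rr.Bas

/-! The deck transformation agrees with the symmetry of the model up to order `j`. -/

namespace Pool.Agent.MP_05b4bd_ag.RV

open PowerSeries LaurentSeries HC
open ES hiding Gen Ob Inf
open ES.U (TM Cr hom)
open PC3 (Fm fm d1 DF sub2 pb mapF Van CenK iS)

namespace Key

variable {k L : Type} [Field k] [Field L]

/-- There are no terms below `m`. -/
def Lo (m : ℤ) (c : L⸨X⸩) : Prop := ∀ i < m, c.coeff i = 0

theorem lo_of (m : ℤ) (g : L⟦X⟧) : Lo m (wL L m * coeL L g) := fun i hi => by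
  rw [coeff_wL_mul, coeff_coeL_neg _ (by omega)]

theorem Lo.mul {a b : ℤ} {u v : L⸨X⸩} (hu : Lo a u) (hv : Lo b v) : Lo (a + b) (u * v) := by
  obtain ⟨g, rfl⟩ := exists_wL_mul_of_low hu
  obtain ⟨h, rfl⟩ := exists_wL_mul_of_low hv
  rw [mul_mul_mul_comm, ← wL_add, ← map_mul]
  exact lo_of _ _

theorem lo_theta [CharZero L] {n : ℕ} (hn : 1 ≤ n) {z p : L⟦X⟧} (h : z * p = X) {t : L⸨X⸩}
    (ht : ∀ m ≤ 0, (-(n * coeL L z ^ n * t)).coeff m = 0) : Lo (1 + -(n : ℤ)) t := by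
  have h1 : Lo 1 (-((n : L⸨X⸩) * coeL L z ^ n * t)) := fun i hi => ht i (by omega)
  have h2 := h1.mul (lo_of (-(n : ℤ)) (C (-(n : L)⁻¹) * p ^ n))
  have e1 : coeL L z ^ n * coeL L p ^ n * wL L (-(n : ℤ)) = 1 := by
    rw [← mul_pow, ← map_mul, h, ← map_pow, coeL_X_pow, wL_mul_neg]
  have e2 : (n : L⸨X⸩) * cL L (n : L)⁻¹ = 1 := by
    rw [← map_natCast (cL L), ← map_mul, mul_inv_cancel₀ (Nat.cast_ne_zero.2 (by omega)), map_one]
  have e : -((n : L⸨X⸩) * coeL L z ^ n * t) *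
      (wL L (-(n : ℤ)) * coeL L (C (-(n : L)⁻¹) * p ^ n)) = t := by
    rw [map_mul, map_pow, coeL_C, map_neg]
    linear_combination ((n : L⸨X⸩) * cL L (n : L)⁻¹ * t) * e1 + t * e2
  rwa [e] at h2

/-- The radial derivative. -/
noncomputable def eu (f : R2 k) : R2 k :=
  MvPolynomial.X 0 * MvPolynomial.pderiv 0 f + MvPolynomial.X 1 * MvPolynomial.pderiv 1 f

theorem eu_ne [CharZero k] {d : ℕ} {f : R2 k} (hd : 1 ≤ d) (H : TM d f) : eu f ≠ 0 := fun h => by
  have h1 := Esc.euler_DL H.dl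
  rw [eu] at h
  rw [h, zero_sub] at h1
  have h2 : DL d (MvPolynomial.C (d : k) * f) := by simpa using h1.neg
  exact Esc.ne_zero_of_ci (hc_hom d f) H.ci
    ((DL.of_C_mul (Nat.cast_ne_zero.2 (by omega)) h2).hc_eq le_rfl)

theorem eu_DL {d : ℕ} {f : R2 k} (H : DL (d + 1) f) : DL (d + 1) (eu f) :=
  (((DL_X 0).mul (H.pderiv 0)).add ((DL_X 1).mul (H.pderiv 1))).mono (by omega)

theorem vS_X (B : Fin 2 → (R2 k)⟦X⟧) (i : Fin 2) :
    vS (pd k) B (C (MvPolynomial.X i)) = B i := by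
  fin_cases i <;> simp [vS, cw_C, pd]

theorem coeff_of {R : Type} [CommRing R] {j : ℕ} {u : R⟦X⟧} {c : R}
    (h : X ^ (j + 1) ∣ u - X ^ j * C c) : coeff j u = c := by
  have := X_pow_dvd_iff.1 h j (Nat.lt_succ_self j)
  rwa [map_sub, coeff_mul_C, coeff_X_pow_self, one_mul, sub_eq_zero] at this

/-- The first displacement of `f` under a homothety. -/
theorem coeff_ev (h8 : EvsStmt) {E : Type} [CommRing E] (e : R2 k →+* E) {θ : E⟦X⟧} {i : ℕ}
    (hi : 1 ≤ i) (h : X ^ i ∣ θ - 1) (f : R2 k) :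
    coeff i (evS e (fun l => θ * C (e (MvPolynomial.X l))) (C f)) = coeff i θ * e (eu f) := by
  have h1 := (h8 k E e fun l => θ * C (e (MvPolynomial.X l))).2.2.1 i hi
    (fun l => by rw [← sub_one_mul]; exact h.mul_right _) (C f)
  have h2 := X_pow_dvd_iff.1 h1 i (Nat.lt_succ_self i)
  have h0 : i ≠ 0 := by omega
  simp only [cw_C, map_C, map_sub, map_add, coeff_C_mul, coeff_mul_C, coeff_C, if_neg h0] at h2
  simp only [eu, map_add, map_mul]
  simp only [pd, LinearMap.toAddMonoidHom_coe, Derivation.coeFn_coe] at h2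
  linear_combination h2

end Key

open Key in
theorem keyS (h1 : SymStmt) (h2 : DictStmt) (h3 : ThetaStmt) (h4 : F1Stmt) (h5 : CvStmt)
    (h6 : OrdStmt) (h7 : Ker0Stmt) (h8 : EvsStmt) : KeyStmt := by
  intro k L _ _ _ _ d n R w s r α β j ρ B u w1 vb Φ φ l0 l1 hP hM hD hMel
  have : CharZero L := charZero_of_injective_ringHom R.κ.injective
  have : CharZero L⸨X⸩ := charZero_of_injective_ringHom (cL_inj (R := L))
  have d3 := R.d3
  have n2 := R.adm.1
  have nd := R.adm.le d3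
  have hs := hP.sum
  obtain ⟨K, μ, Y, cK, eK, mY, hY, hV⟩ := h1 k d α β j R.f R.ζ w s r l0 l1 (by omega) (by omega)
    (by rw [hs]; exact R.prim.pow_eq_one) R.sym hM hMel
  obtain ⟨ϰ, uϰ, hϰ⟩ := h2 k L d n R w vb hD hP.ra hP.hv
  obtain ⟨θ, c1, hξ, hθ⟩ := h3 k L d n R α β vb ρ Φ φ l0 l1 K hs hP.dk hM.c0 hM.c1 cK (hs ▸ eK)
  obtain ⟨o1, o2, o3, -⟩ := h6 k L d n R
  have cst : ∀ c : k, ((hat φ).comp (map R.E)) (C (RingHom.id _ (MvPolynomial.C c))) =
      C (R.E (MvPolynomial.C c)) := fun c => by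
    have e : R.E (MvPolynomial.C c) = cL L (R.κ c) := by simp [Rd.E, EL, evp]
    rw [RingHom.comp_apply, RingHom.id_apply, map_C, e, ← iT_CC, hP.dk.ext, hP.dk.out.map_CC,
      RingHom.comp_apply, sb_C (by simp), coeL_C, iT_CC]
  have hid : ∀ ξ : Fin 2 → (R2 k)⟦X⟧, ∀ v, hat φ (map R.E (evS (RingHom.id _) ξ v)) =
      evS R.E (fun i => hat φ (map R.E (ξ i))) v := fun ξ =>
    (h8 k _ (RingHom.id _) ξ).2.2.2.2 _ R.E ((hat φ).comp (map R.E))
      (by rw [RingHom.comp_apply, map_X, hat_X]) cst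
  have hvt : ∀ i, VT R.D vb (θ * C (R.E (MvPolynomial.X i))) = (hat φ ϰ * hat φ (map R.E μ)) *
      evS R.E (fun l => θ * C (R.E (MvPolynomial.X l))) (Y i) := fun i => by
    rw [← hξ i, hP.dk.vt, hϰ, hV, map_mul, map_mul, map_mul, hid, mul_assoc]
    simp only [hξ]
  have z0 : cc R.z = 0 := by
    have := congrArg cc R.pz
    rwa [map_mul, R.p0, mul_one, constantCoeff_X] at this
  have r0 : cc (R.ρ α β l0 l1) = 0 := by
    have : cc (map (C : L →+* L⟦X⟧) R.z) = 0 := by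
      rw [← coeff_zero_eq_constantCoeff_apply, coeff_map, coeff_zero_eq_constantCoeff_apply, z0,
        map_zero]
    rw [Rd.ρ, map_mul, map_pow, this, zero_pow (Nat.one_le_iff_ne_zero.1 hP.fac.a1), zero_mul]
  have f1 := fun i => h4 L (R.κ R.ζ⁻¹) n i ρ (R.ρ α β l0 l1) Φ (by omega)
    (R.prim.inv.map_of_injective R.κ.injective) hP.dk.out hP.dk.fix hP.rho.ord hP.rho.c0 r0
  have dv : ∀ i ≤ j, ∀ l, X ^ i ∣ Y l - vfS w l := fun i hi l => by
    have := dvd_add ((pow_dvd_pow X (by omega : i ≤ j + 1)).trans (hY l))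
      ((pow_dvd_pow X hi).mul_right
        (C (![(dif d R.ζ (mapF cc r)).1, (dif d R.ζ (mapF cc r)).2] l)))
    rwa [sub_add_cancel] at this
  have step : ∀ i, 1 ≤ i → i ≤ j → X ^ i ∣ θ - 1 → ∃ S ∈ Jac R.f, DL (d + n) S ∧
      R.E S = coeff i θ * R.E (eu R.f) ∧ br S R.f =
        coeff i (Y 0 - vfS w 0) * MvPolynomial.pderiv 0 R.f +
          coeff i (Y 1 - vfS w 1) * MvPolynomial.pderiv 1 R.f := fun i i1 ij hi => by
    obtain ⟨S, s1, s2, s3⟩ := h5 k L R.κ R.D d R.f (R.p * C R.xb) (R.p * C R.yb) Y (vfS w) i vb ϰ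
      _ (fun l => θ * C (R.E (MvPolynomial.X l))) d3 R.gen (by simpa [R.p0] using R.cv)
      (by simpa [R.p0] using R.gb) o1 R.cst mY hMel i1 (dv i ij) uϰ
      (fun l => by
        have := hϰ (C (MvPolynomial.X l))
        rwa [map_C, vS_X] at this)
      (fun l => by
        change X ^ i ∣ θ * C (R.E _) - C (R.E _)
        rw [← sub_one_mul]
        exact hi.mul_right _) hvt
    have e : R.E S = coeff i θ * R.E (eu R.f) := s2.symm.trans (coeff_ev h8 R.E i1 hi R.f)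
    refine ⟨S, s1, ?_, e, s3⟩
    obtain ⟨t1, t2⟩ := hθ i i1 hi
    have t3 := (f1 i t1).2
    rw [t2] at t3
    have t4 := (lo_theta (by omega) R.pz t3).mul ((o3 _ d).2 (eu_DL R.gen.2.1))
    rw [← e] at t4
    have := (o3 S (d + n - 1)).1 fun m hm => t4 m (by omega)
    rwa [show d + n - 1 + 1 = d + n by omega] at this
  have ind : ∀ i, 1 ≤ i → i ≤ j → X ^ i ∣ θ - 1 := fun i i1 => by
    induction i, i1 using Nat.le_induction with
    | base => exact fun _ => by rw [pow_one, X_dvd_iff, map_sub, c1, map_one, sub_self]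
    | succ i i1 ih =>
      intro ij
      have hi := ih (by omega)
      obtain ⟨S, s1, s2, s3, s4⟩ := step i i1 (by omega) hi
      rw [X_pow_dvd_iff.1 (dv _ ij 0) i (Nat.lt_succ_self i),
        X_pow_dvd_iff.1 (dv _ ij 1) i (Nat.lt_succ_self i), zero_mul, zero_mul, add_zero] at s4
      rw [(h7 k d R.f S d3 R.gen.tm (s2.mono (by omega)) s4).2 s1, map_zero] at s3
      have t0 : coeff i θ = 0 := (mul_eq_zero.1 s3.symm).resolve_right
        ((map_ne_zero_iff _ o2).2 (eu_ne (by omega) R.gen.tm))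
      refine X_pow_dvd_iff.2 fun m hm => ?_
      rcases (Nat.lt_succ_iff.1 hm).lt_or_eq with h | rfl
      · exact X_pow_dvd_iff.1 hi m h
      · rw [map_sub, t0, coeff_one, if_neg (by omega), sub_zero]
  have hj := ind j hM.j1 le_rfl
  obtain ⟨S, s1, s2, -, s4⟩ := step j hM.j1 le_rfl hj
  refine ⟨⟨S, s1, s2, ?_⟩, (f1 j (hθ j hM.j1 hj).1).1⟩
  rw [s4, coeff_of (hY 0), coeff_of (hY 1)]
  rfl

end Pool.Agent.MP_05b4bd_ag.RV
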