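import Pool.Agent.MP_05b4bd_ag.rr.Spec4

/-! Invariant lines specialise along a valuation ring. -/

namespace Pool.Agent.MP_05b4bd_ag.RV

open MvPolynomial HC Topology
open PC3 (Fm fm d1 DF sub2 pb mapF Van)

namespace Line

variable {K : Type} [Field K] (O : ValuationSubring K)

theorem inj : Function.Injective (algebraMap O K) := Subtype.val_injective

/-- Scaling of a non-zero pair. -/
theorem pair {a b : K} (h : a ≠ 0 ∨ b ≠ 0) : ∃ (t : K) (a' b' : O), t ≠ 0 ∧
    a = t * algebraMap O K a' ∧ b = t * algebraMap O K b' ∧ (a' = 1 ∨ b' = 1) := by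
  have key : ∀ a b : K, a ≠ 0 → b / a ∈ O → ∃ b' : O, b = a * algebraMap O K b' :=
    fun a b ha hb => ⟨⟨b / a, hb⟩, (mul_div_cancel₀ b ha).symm⟩
  by_cases ha : a = 0
  · exact ⟨b, 0, 1, h.resolve_left (not_not.2 ha), by simp [ha], by simp, Or.inr rfl⟩
  by_cases hb : b = 0
  · exact ⟨a, 1, 0, ha, by simp, by simp [hb], Or.inl rfl⟩
  rcases O.mem_or_inv_mem (b / a) with h1 | h1
  · obtain ⟨b', e⟩ := key a b ha h1
    exact ⟨a, 1, b', ha, by simp, e, Or.inl rfl⟩
  · obtain ⟨a', e⟩ := key b a hb (by rwa [inv_div] at h1)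
    exact ⟨b, a', 1, hb, e, by simp, Or.inr rfl⟩

/-- Scaling of a polynomial. -/
theorem scal {d : ℕ} {g : R2 K} (hg : DL d g) : ∃ (s : K) (g' : R2 O), DL d g' ∧
    g = C s * map (algebraMap O K) g' ∧ (s = 0 ∨ map (IsLocalRing.residue O) g' ≠ 0) := by
  by_cases h0 : g = 0
  · exact ⟨0, 0, DL.zero d, by simp [h0], Or.inl rfl⟩
  obtain ⟨m, hm, hmax⟩ := g.support.exists_max_image (fun m => O.valuation (coeff m g))
    (support_nonempty.2 h0)
  have hs : coeff m g ≠ 0 := mem_support_iff.1 hm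
  obtain ⟨g', hg'⟩ : C (coeff m g)⁻¹ * g ∈ Set.range (map (σ := Fin 2) (algebraMap O K)) := by
    refine mem_range_map_iff_coeffs_subset.2 fun c hc => ?_
    obtain ⟨i, hi, rfl⟩ := mem_coeffs_iff.1 hc
    have hi' : i ∈ g.support := mem_support_iff.2 fun z =>
      mem_support_iff.1 hi (by rw [coeff_C_mul, z, mul_zero])
    refine ⟨⟨coeff i (C (coeff m g)⁻¹ * g), (O.valuation_le_one_iff _).1 ?_⟩, rfl⟩
    rw [coeff_C_mul, map_mul, map_inv₀]
    exact (inv_mul_le_one₀ (zero_lt_iff.2 ((map_ne_zero _).2 hs))).2 (hmax i hi')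
  have hc : ∀ i, algebraMap O K (coeff i g') = (coeff m g)⁻¹ * coeff i g := fun i => by
    rw [← coeff_map, hg', coeff_C_mul]
  refine ⟨coeff m g, g', fun i hi => inj O ?_, ?_, Or.inr fun z => ?_⟩
  · rw [hc, hg i hi, mul_zero, map_zero]
  · rw [hg', ← mul_assoc, ← map_mul, mul_inv_cancel₀ hs, map_one, one_mul]
  · have h1 : coeff m g' = 1 := inj O (by rw [hc, inv_mul_cancel₀ hs, map_one])
    have := congrArg (coeff m) z
    rw [coeff_map, h1, map_one, coeff_zero] at this
    exact one_ne_zero this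

theorem aff_ne {F : Type} [Field F] {a b c e : F} (h1 : a ≠ 0 ∨ b ≠ 0) (h2 : c ≠ 0 ∨ e ≠ 0) :
    (C c + C e * HC.lf a b : R2 F) ≠ 0 := fun z => by
  have e0 := congrArg (pderiv 0) z
  have e1 := congrArg (pderiv 1) z
  simp only [map_add, pderiv_C, pderiv_C_mul, lf_x, lf_y, zero_add, map_zero, ← map_mul,
    C_eq_zero, mul_eq_zero] at e0 e1
  have he : e = 0 := by
    by_contra he
    exact h1.elim (fun h => h (e0.resolve_left he)) fun h => h (e1.resolve_left he)
  rw [he, map_zero, zero_mul, add_zero, C_eq_zero] at z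
  exact h2.elim (fun h => h z) fun h => h he

theorem one_or {a b : O} (h : a = 1 ∨ b = 1) :
    IsLocalRing.residue O a ≠ 0 ∨ IsLocalRing.residue O b ≠ 0 :=
  h.imp (fun e => by rw [e, map_one]; exact one_ne_zero)
    fun e => by rw [e, map_one]; exact one_ne_zero

end Line

theorem lineS : LineStmt := by
  rintro K _ O d w ⟨l0, l1, l2, ε, g, h1, h2, hg, E⟩
  obtain ⟨t, m1, m2, ht, rfl, rfl, hm⟩ := Line.pair O h1
  obtain ⟨u, c, e, hu, rfl, he, hn⟩ := Line.pair O (a := l0) (b := ε * t)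
    (h2.imp_right fun h => mul_ne_zero h ht)
  obtain ⟨s, g', hg', hs, hs'⟩ := Line.scal O (hg.C_mul (t⁻¹ * u))
  have hl : HC.lf (t * algebraMap O K m1) (t * algebraMap O K m2)
      = C t * map (algebraMap O K) (HC.lf m1 m2) := by
    rw [map_lf]; simp only [HC.lf, map_mul]; ring
  have E1 : map (algebraMap O K) (vf w.1 w.2 (HC.lf m1 m2))
      = C s * map (algebraMap O K) (g' * (C c + C e * HC.lf m1 m2)) := by
    have ht' : (C t : R2 K) * C t⁻¹ = 1 := by rw [← map_mul, mul_inv_cancel₀ ht, map_one]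
    have he' : (C ε : R2 K) * C t = C u * C (algebraMap O K e) := by
      rw [← map_mul, he, map_mul]
    rw [hl, vf_C_mul] at E
    rw [map_vf, map_mul, ← mul_assoc, ← hs, map_add, map_mul _ (C e), map_C, map_C]
    simp only [mapF, map_mul] at E ⊢
    linear_combination C t⁻¹ * E - vf (map (algebraMap O K) w.1) (map (algebraMap O K) w.2)
      (map (algebraMap O K) (HC.lf m1 m2)) * ht'
      + C t⁻¹ * g * map (algebraMap O K) (HC.lf m1 m2) * he'
  by_cases hO : s ∈ O
  · have E2 : vf w.1 w.2 (HC.lf m1 m2) = C ⟨s, hO⟩ * g' * (C c + C e * HC.lf m1 m2) :=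
      map_injective _ (Line.inj O) (by rw [E1, mul_assoc, map_mul _ (C _), map_C]; rfl)
    refine ⟨_, _, _, _, map (IsLocalRing.residue O) (C ⟨s, hO⟩ * g'), Line.one_or O hm,
      Line.one_or O hn, (hg'.C_mul _).map _, ?_⟩
    have := congrArg (map (IsLocalRing.residue O)) E2
    rwa [map_vf, map_mul, map_add, map_mul _ (C e), map_C, map_C, map_lf] at this
  · exfalso
    have s0 : s ≠ 0 := fun z => hO (z ▸ O.zero_mem)
    have hi := (O.mem_or_inv_mem s).resolve_left hO
    have E2 : C ⟨s⁻¹, hi⟩ * vf w.1 w.2 (HC.lf m1 m2) = g' * (C c + C e * HC.lf m1 m2) :=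
      map_injective _ (Line.inj O) (by
        rw [map_mul, map_C, E1, ← mul_assoc, ← map_mul]
        exact (congrArg (fun x => C x * _) (inv_mul_cancel₀ s0)).trans (by rw [map_one, one_mul]))
    have hr : IsLocalRing.residue O ⟨s⁻¹, hi⟩ = 0 :=
      (IsLocalRing.residue_eq_zero_iff _).2 (O.coe_mem_nonunits_iff.1
        (O.inv_mem_nonunits_iff.2 (Or.inr hO)))
    have := congrArg (map (IsLocalRing.residue O)) E2
    rw [map_mul, map_C, hr, map_zero, zero_mul, map_mul, map_add, map_mul, map_C, map_C,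
      map_lf] at this
    exact mul_ne_zero (hs'.resolve_left s0)
      (Line.aff_ne (Line.one_or O hm) (Line.one_or O hn)) this.symm

end Pool.Agent.MP_05b4bd_ag.RV
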