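import Pool.Agent.MP_05b4bd_ag.rr.Spec2
import Pool.Agent.MP_05b4bd_ag.esc.Wrap2

/-! An exact logarithmic form on a fibre is zero. -/

namespace Pool.Agent.MP_05b4bd_ag.RV

open HC IntermediateField WithZero
open ES hiding Gen Ob Inf
open ES.U (TM Cr hom)
open MvPolynomial (aeval pderiv)

attribute [-instance] HahnSeries.powerSeriesAlgebra

namespace Logk

variable {k K : Type} [Field k] [Field K]

/-- A point where the gradient vanishes is rational. -/
theorem crit {κ : k →+* K} {d : ℕ} {f : R2 k} (hf : TM d f) {x y : K}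
    (h0 : evp κ x y (pderiv 0 f) = 0) (h1 : evp κ x y (pderiv 1 f) = 0) (i : Fin 2) :
    ∃ a, κ a = evp κ x y (MvPolynomial.X i) := by
  obtain ⟨n, p, hp⟩ := hf.cr
  obtain ⟨a, b, e⟩ := Ideal.mem_span_pair.1
    (hp.rad (∏ j, (MvPolynomial.X i - MvPolynomial.C (p j i))) fun j => by
      rw [map_prod]
      exact Finset.prod_eq_zero (Finset.mem_univ j) (by simp))
  have := congrArg (evp κ x y) e
  rw [map_add, map_mul, map_mul, h0, h1, mul_zero, mul_zero, add_zero, map_prod] at this
  obtain ⟨j, -, hj⟩ := Finset.prod_eq_zero_iff.1 this.symm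
  rw [map_sub, sub_eq_zero] at hj
  exact ⟨p j i, by rw [hj]; simp [evp]⟩

variable [Algebra k K]

theorem chain (δ : Derivation k K K) (x y : K) (u : R2 k) :
    δ (aeval ![x, y] u) = aeval ![x, y] (pderiv 0 u) * δ x + aeval ![x, y] (pderiv 1 u) * δ y :=
  (W1.isDer_der δ).eval₂ (algebraMap k K) δ.map_algebraMap x y u

theorem kill {x y : K} (hg : gf (algebraMap k K) x y = ⊤) (δ : Derivation k K K) (hx : δ x = 0)
    (hy : δ y = 0) (z : K) : δ z = 0 := by
  have le : gf (algebraMap k K) x y ≤ (Esc.derKer δ).toSubfield := by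
    refine Subfield.closure_le.2 ?_
    rintro z (⟨r, rfl⟩ | rfl | rfl)
    exacts [δ.map_algebraMap r, hx, hy]
  exact le (hg ▸ Subfield.mem_top z)

theorem alg [CharZero k] {t : K} (h : ∀ δ : Derivation k K K, δ t = 0 → ∀ z, δ z = 0) (z : K) :
    IsAlgebraic k⟮t⟯ z :=
  Esc.isAlgebraic_of_der z fun δ =>
    h (δ.restrictScalars k) (δ.map_algebraMap (AdjoinSimple.gen k t)) z

/-- Constants of a function field in one variable. -/
theorem const [CharZero k] [IsAlgClosed k] (D : Derivation k K K) {t u : K}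
    (halg : ∀ z : K, IsAlgebraic k⟮t⟯ z) (ht : D t ≠ 0) (hu : D u = 0) :
    ∃ a, u = algebraMap k K a := by
  have ha : IsAlgebraic k u := Esc.isAlgebraic_of_der u fun δ => by
    by_contra hne
    exact ht (Esc.der_eq_zero_of_adjoin D (s := {u}) (fun y hy => by rw [hy]; exact hu)
      (Esc.isAlgebraic_exchange halg δ hne t))
  obtain ⟨a, e⟩ := minpoly.mem_range_of_degree_eq_one k u
    (IsAlgClosed.degree_eq_one_of_irreducible k (minpoly.irreducible ha.isIntegral))
  exact ⟨a, e.symm⟩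

theorem th_eq (z : LaurentSeries k) : thL k z = Esc.thetaL k z := rfl

/-- A function whose differential has low degree has no pole. -/
theorem main (h : LogvStmt) [CharZero k] [IsAlgClosed k] (D : Derivation k K K) {d : ℕ}
    {f g : R2 k} {x y t u : K} (hd : 2 ≤ d) (hf : TM d f) (hg : DL (d - 1) g)
    (halg : ∀ z : K, IsAlgebraic k⟮t⟯ z) (hx : D x = aeval ![x, y] (pderiv 1 f))
    (hy : D y = -aeval ![x, y] (pderiv 0 f)) (hne : D x ≠ 0 ∨ D y ≠ 0)
    (hu : D u = aeval ![x, y] g) : D u = 0 := by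
  by_contra hu0
  have halg' := Esc.isAlgebraic_exchange halg D hu0
  have htr : Transcendental k u := fun ha =>
    hu0 (Esc.der_eq_zero_of_isAlgebraic D D.map_algebraMap ha)
  have : FiniteDimensional k⟮u⟯ (adjoin k⟮u⟯ ({x, y} : Set K)) :=
    finiteDimensional_adjoin fun z _ => (halg' z).isIntegral
  obtain ⟨φ, hφ⟩ := Esc.exists_pole (L := adjoin k⟮u⟯ ({x, y} : Set K))
    (RatFunc.algEquivOfTranscendental u htr)
  have hX : RatFunc.algEquivOfTranscendental u htr RatFunc.X = AdjoinSimple.gen k u :=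
    Subtype.ext (RatFunc.algEquivOfTranscendental_X u htr)
  rw [hX] at hφ
  let τ : adjoin k⟮u⟯ ({x, y} : Set K) →ₐ[k] K :=
    (adjoin k⟮u⟯ ({x, y} : Set K)).val.restrictScalars k
  let a : adjoin k⟮u⟯ ({x, y} : Set K) := ⟨x, subset_adjoin _ _ (Or.inl rfl)⟩
  let b : adjoin k⟮u⟯ ({x, y} : Set K) := ⟨y, subset_adjoin _ _ (Or.inr rfl)⟩
  have e1 : ∀ p : R2 k, τ (aeval ![a, b] p) = aeval ![x, y] p := fun p => by
    rw [← AlgHom.comp_apply, MvPolynomial.comp_aeval]
    congr 2
    funext i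
    fin_cases i <;> rfl
  have e2 : ∀ p : R2 k, φ (aeval ![a, b] p) = evp (cL k) (φ a) (φ b) p := fun p => by
    rw [← AlgHom.comp_apply, MvPolynomial.comp_aeval]
    change MvPolynomial.eval₂Hom (cL k) _ p = MvPolynomial.eval₂Hom (cL k) _ p
    congr 2
    funext i
    fin_cases i <;> rfl
  obtain ⟨lam, key⟩ := Esc.exists_key (AdjoinSimple.gen k u) (Esc.adjoin_gen_eq_top u) D τ φ
    (aeval ![a, b] g) (by rw [e1]; exact hu) fun h0 => hu0 (by rw [hu, ← e1, h0, map_zero])
  have k0 := key (algebraMap k⟮u⟯ _ (AdjoinSimple.gen k u)) (aeval ![a, b] g)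
    (by rw [e1]; exact hu)
  have k1 := key a (aeval ![a, b] (pderiv 1 f)) (by rw [e1]; exact hx)
  have k2 := key b (-aeval ![a, b] (pderiv 0 f)) (by rw [map_neg, e1]; exact hy)
  apply hφ
  rw [LaurentSeries.valuation_le_iff_coeff_lt_log_eq_zero _ one_ne_zero, k0]
  intro m hm
  rw [log_one, neg_zero] at hm
  by_cases hl : lam = 0
  · rw [hl, zero_mul, HahnSeries.coeff_zero]
  rw [e2]
  refine h k d f g (φ a) (φ b) lam hd hf hg (by rw [th_eq, k1, e2])
    (by rw [th_eq, k2, map_neg, e2, mul_neg]) ?_ m hm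
  rw [th_eq, th_eq, k1, k2]
  refine hne.imp (fun c => mul_ne_zero hl ((map_ne_zero φ).2 fun z => c ?_))
    (fun c => mul_ne_zero hl ((map_ne_zero φ).2 fun z => c ?_))
  · rw [hx, ← e1, z, map_zero]
  · rw [hy, ← e1, ← map_neg, z, map_zero]

end Logk

open Logk in
theorem logkS (h : LogvStmt) : LogkStmt := by
  intro k K _ _ _ _ κ D d f g c x y u hd hf hD hκ hg hc hx hy hl hu
  by_cases h0 : D x = 0 ∧ D y = 0
  · have cr := crit hf (x := x) (y := y) (neg_eq_zero.1 (hy ▸ h0.2)) (hx ▸ h0.1)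
    have le : gf κ x y ≤ κ.fieldRange := by
      refine Subfield.closure_le.2 ?_
      rintro z (⟨r, rfl⟩ | rfl | rfl)
      · exact ⟨r, rfl⟩
      · simpa [evp] using cr 0
      · simpa [evp] using cr 1
    obtain ⟨a, e⟩ := le (hg ▸ Subfield.mem_top u)
    exact ⟨a, e.symm⟩
  rw [not_and_or] at h0
  let _ : Algebra k K := κ.toAlgebra
  let D' : Derivation k K K := Derivation.mk'
    { toFun := D
      map_add' := D.map_add
      map_smul' := fun a b => hD.const_mul (hκ a) b }
    (fun a b => by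
      change D (a * b) = a * D b + b * D a
      rw [hD]
      ring)
  have rel : ∀ δ : Derivation k K K, -D y * δ x + D x * δ y = 0 := fun δ => by
    have e := chain δ x y f
    have e' : δ (aeval ![x, y] f) = 0 := by
      rw [show aeval ![x, y] f = algebraMap k K c from hc]
      exact δ.map_algebraMap c
    rw [hx, hy, neg_neg]
    exact e.symm.trans e'
  obtain ⟨t, ht, halg⟩ : ∃ t, D' t ≠ 0 ∧ ∀ z : K, IsAlgebraic k⟮t⟯ z := by
    rcases h0 with h0 | h0
    · refine ⟨x, h0, alg fun δ e => kill hg δ e ?_⟩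
      have := rel δ
      rw [e, mul_zero, zero_add] at this
      exact (mul_eq_zero.1 this).resolve_left h0
    · refine ⟨y, h0, alg fun δ e => kill hg δ ?_ e⟩
      have := rel δ
      rw [e, mul_zero, add_zero] at this
      exact (mul_eq_zero.1 this).resolve_left (neg_ne_zero.2 h0)
  exact const D' halg ht (main h D' (by omega) hf hl halg hx hy h0 hu)

end Pool.Agent.MP_05b4bd_ag.RV
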