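import Mathlib.RingTheory.LaurentSeries
import Pool.Agent.MP_05b4bd_ag.rr.Spec2

/-! Forms of low degree have at most simple poles on a fibre. -/

namespace Pool.Agent.MP_05b4bd_ag.RV

open MvPolynomial HC
open ES.U (TM)

namespace Logv

variable {k K Γ : Type} [Field k] [Field K] [LinearOrderedCommGroupWithZero Γ] {v : Valuation K Γ}
  {κ : k →+* K} (hv : ∀ c, v (κ c) ≤ 1) {w : Fin 2 → K} {lam : K} {f : R2 k}

include hv

theorem le {γ β : Γ} (hw : ∀ i, v (w i) ≤ γ) (p : R2 k) (hp : ∀ m ∈ p.support, γ ^ m.degree ≤ β) :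
    v (eval₂ κ w p) ≤ β := by
  rw [eval₂_eq']
  refine v.map_sum_le fun m hm => le_trans ?_ (hp m hm)
  rw [map_mul, Fin.prod_univ_two, map_mul, map_pow, map_pow, deg2, pow_add]
  exact (mul_le_mul' (hv _) (mul_le_mul' (pow_le_pow_left₀ zero_le (hw 0) _)
    (pow_le_pow_left₀ zero_le (hw 1) _))).trans_eq (one_mul _)

theorem le_dl {γ : Γ} (h1 : 1 ≤ γ) (hw : ∀ i, v (w i) ≤ γ) {n : ℕ} {p : R2 k} (hp : DL (n + 1) p) :
    v (eval₂ κ w p) ≤ γ ^ n :=
  le hv hw p fun m hm => pow_le_pow_right₀ h1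
    (Nat.le_of_lt_succ (not_le.1 fun h => mem_support_iff.1 hm (hp m h)))

theorem jac (hw : ∀ i, v (w i) ≤ 1) {a b u : R2 k} (hu : u ∈ Ideal.span {a, b}) {s : K} {β : Γ}
    (ha : v (s * eval₂ κ w a) ≤ β) (hb : v (s * eval₂ κ w b) ≤ β) : v (s * eval₂ κ w u) ≤ β := by
  obtain ⟨p, q, rfl⟩ := Ideal.mem_span_pair.1 hu
  have h : ∀ p a : R2 k, v (s * eval₂ κ w a) ≤ β → v (s * eval₂ κ w (p * a)) ≤ β := fun p a h => by
    rw [eval₂_mul, mul_left_comm, map_mul]
    exact (mul_le_mul' (le hv hw p fun _ _ => (one_pow _).le) h).trans_eq (one_mul _)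
  rw [eval₂_add, mul_add]
  exact v.map_add_le (h p a ha) (h q b hb)

theorem far {e : ℕ} (H : TM (e + 2) f) {i : Fin 2} (hi : ∀ j, v (w j) ≤ v (w i))
    (h1 : 1 < v (w i)) (h : ∀ j, v (lam * eval₂ κ w (pderiv j f)) ≤ v (w i)) :
    v lam * v (w i) ^ e ≤ 1 := by
  have p0 := zero_lt_one.trans h1
  have w0 : w i ≠ 0 := v.ne_zero_iff.1 p0.ne'
  let u : Fin 2 → K := fun j => w j / w i
  have e1 : ∀ j, v (lam * w i ^ (e + 1) * eval₂ κ u (pderiv j (hc (e + 2) f))) ≤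
      max (v (w i)) (v lam * v (w i) ^ e) := fun j => by
    have a := ES.k4_hom κ (hc_hom (e + 1) (pderiv j f)) (w i) (u 0) (u 1)
    have b : ![w i * u 0, w i * u 1] = w := funext fun l => by
      fin_cases l <;> exact mul_div_cancel₀ _ w0
    have c : ![u 0, u 1] = u := funext fun l => by fin_cases l <;> rfl
    rw [b, c] at a
    rw [← hc_pderiv, mul_assoc, ← a, ← sub_sub_cancel (pderiv j f) (hc _ _), eval₂_sub, mul_sub]
    refine (v.map_sub _ _).trans (max_le_max (h j) ?_)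
    rw [map_mul]
    exact mul_le_mul' le_rfl (le_dl hv h1.le hi (H.dl.pderiv j).sub_hc)
  obtain ⟨M, m⟩ := H.ci
  have m' : ∀ j, X j ^ M ∈ Ideal.span {pderiv 0 (hc (e + 2) f), pderiv 1 (hc (e + 2) f)} :=
    Fin.forall_fin_two.2 m
  have e2 := jac hv (w := u) (fun j => by rw [map_div₀]; exact div_le_one_of_le₀ (hi j) zero_le)
    (m' i) (e1 0) (e1 1)
  rw [eval₂_pow, eval₂_X, show u i = 1 from div_self w0, one_pow, mul_one, map_mul, map_pow,
    pow_succ, ← mul_assoc] at e2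
  by_contra hn
  have hn := not_le.1 hn
  exact e2.not_gt (max_lt (lt_mul_of_one_lt_left p0 hn)
    (lt_mul_of_one_lt_right (zero_lt_one.trans hn) h1))

theorem near {d : ℕ} (H : TM d f) (hw : ∀ i, v (w i) ≤ 1) {c : Fin 2 → k}
    (hc : ∀ i, v (w i - κ (c i)) < 1) {i : Fin 2} (h0 : w i - κ (c i) ≠ 0)
    (h : ∀ j, v (lam * eval₂ κ w (pderiv j f)) ≤ v (w i - κ (c i))) : v lam ≤ 1 := by
  obtain ⟨n, p, hp⟩ := H.cr
  have k : ∀ j, ∃ s : R2 k, v (eval₂ κ w s) = 1 ∧ (p j = c ∨ eval (p j) s = 0) := fun j => by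
    by_cases e : c = p j
    · exact ⟨1, by simp, .inl e.symm⟩
    obtain ⟨l, e⟩ := Function.ne_iff.1 e
    have e := sub_ne_zero.2 e
    have e1 : v (κ (c l - p j l)) = 1 := (hv _).antisymm (by
      have := hv (c l - p j l)⁻¹
      rwa [map_inv₀, map_inv₀, inv_le_one₀ (v.pos_iff.2 ((map_ne_zero κ).2 e))] at this)
    refine ⟨X l - C (p j l), ?_, .inr (by simp)⟩
    rw [eval₂_sub, eval₂_X, eval₂_C, ← sub_add_sub_cancel _ (κ (c l)), ← κ.map_sub,
      v.map_add_eq_of_lt_right (e1 ▸ hc l), e1]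
  choose s s1 s2 using k
  have e := jac hv hw (hp.rad ((∏ j, s j) * (X i - C (c i))) fun j => by
    rw [map_mul, map_prod]
    rcases s2 j with e | e
    · simp [e]
    · rw [Finset.prod_eq_zero (Finset.mem_univ j) e, zero_mul]) (h 0) (h 1)
  rw [eval₂_mul, eval₂_prod, map_mul, map_mul, map_prod, Finset.prod_eq_one fun j _ => s1 j,
    one_mul, eval₂_sub, eval₂_X, eval₂_C] at e
  exact (mul_le_iff_le_one_left (zero_lt_iff.2 (v.ne_zero_iff.2 h0))).1 e

end Logv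

open Logv ES WithZero LaurentSeries in
theorem logvS : LogvStmt := by
  intro k _ _ d f g x y lam hd H hg hx hy hn
  obtain ⟨e, rfl⟩ : ∃ e, d = e + 2 := ⟨d - 2, by omega⟩
  let v : Valuation k⸨X⸩ ℤᵐ⁰ := Valued.v
  have one : ∀ u, v u ≤ 1 ↔ ∀ m < 0, u.coeff m = 0 := fun u => by
    simpa using valuation_le_iff_coeff_lt_eq_zero k (D := 0) (f := u)
  have hv : ∀ c, v (cL k c) ≤ 1 := fun c => (one _).2 fun m hm => by rw [coeff_cL, if_neg hm.ne]
  have th : ∀ u c, v (thL k u) ≤ v (u - cL k c) := fun u c => by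
    rw [← sub_zero (thL k u), ← thL_cL c, ← map_sub]
    generalize u - cL k c = z
    by_cases hz : z = 0
    · simp [hz]
    have h : v z ≠ 0 := v.ne_zero_iff.2 hz
    refine (valuation_le_iff_coeff_lt_log_eq_zero _ h).2 fun n hn => ?_
    rw [coeff_thL, (valuation_le_iff_coeff_lt_log_eq_zero _ h).1 le_rfl n hn, mul_zero]
  let w : Fin 2 → k⸨X⸩ := ![x, y]
  have h : ∀ (c : Fin 2 → k), ∃ i, (∀ j, v (w j - cL k (c j)) ≤ v (w i - cL k (c i))) ∧
      ∀ j, v (lam * eval₂ (cL k) w (pderiv j f)) ≤ v (w i - cL k (c i)) := fun c => by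
    obtain ⟨i, hi⟩ := Finite.exists_max fun j => v (w j - cL k (c j))
    refine ⟨i, hi, Fin.forall_fin_two.2 ⟨le_trans ?_ (hi 1), le_trans ?_ (hi 0)⟩⟩
    · exact ((v.map_neg _).symm.trans (congrArg v hy.symm)).trans_le (th y _)
    · exact (congrArg v hx.symm).trans_le (th x _)
  refine (one _).1 ((map_mul v _ _).trans_le ?_)
  obtain ⟨i, h1, h2⟩ := h 0
  simp only [Pi.zero_apply, map_zero, sub_zero] at h1 h2
  rcases lt_or_ge 1 (v (w i)) with a | a
  · exact (mul_le_mul' le_rfl (le_dl hv a.le h1 hg)).trans (far hv H h1 a h2)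
  have hw : ∀ j, v (w j) ≤ 1 := fun j => (h1 j).trans a
  have hc : ∀ j, v (w j - cL k ((w j).coeff 0)) < 1 := fun j =>
    ((valuation_le_iff_coeff_lt_eq_zero k (D := 1)).2 fun m hm => by
      rw [HahnSeries.coeff_sub, coeff_cL]
      split_ifs with z
      · rw [z, sub_self]
      · rw [(one _).1 (hw j) m (by omega), sub_zero]).trans_lt (by
        rw [← exp_zero, exp_lt_exp]; norm_num)
  obtain ⟨l, h3, h4⟩ := h fun j => (w j).coeff 0
  refine (mul_le_mul' (near hv H hw hc (fun z => ?_) h4) (le_dl hv le_rfl hw hg)).trans (by simp)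
  simp only [z, map_zero] at h3
  exact hn.elim (fun a => a (v.zero_iff.1 (le_zero_iff.1 ((th x _).trans (h3 0)))))
    fun a => a (v.zero_iff.1 (le_zero_iff.1 ((th y _).trans (h3 1))))

end Pool.Agent.MP_05b4bd_ag.RV
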