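import Pool.Agent.MP_05b4bd_ag.rr.Spec2
import Pool.Agent.MP_05b4bd_ag.esc.S2b

/-! A least first integral bounds the pole order of the second term. -/

namespace Pool.Agent.MP_05b4bd_ag.RV

open PowerSeries LaurentSeries HC
open ES hiding Gen Ob Inf
open ES.U (TM Cr hom)

namespace Lowr
open ES.S1a (fi_push cc_strip fi_strip cc_mA ord_map mul_mem)

variable {k L U : Type} [Field k] [CharZero k] [Field L] [Field U] {d : ℕ}

theorem red_ne (I : Inf k d L) (hd : 1 ≤ d) : red I.a ≠ 0 := by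
  have := charZero_of_injective_ringHom I.κ.injective
  rw [I.ra]
  intro h
  have h1 := congrArg (coeff 1) h
  rw [← map_natCast C, map_neg, coeff_C_mul, coeff_one_X, map_zero] at h1
  have : (d : L) ≠ 0 := Nat.cast_ne_zero.2 (by omega)
  simp [this] at h1

theorem cc_vb (I : Inf k d L) (hd : 1 ≤ d) : cc I.vb = 0 := by
  have h := congrArg cc I.hv
  rw [map_mul, cc_iT, cc_iT, I.rb, map_zero] at h
  exact (mul_eq_zero.1 h).resolve_left fun c =>
    red_ne I hd (coeL_inj (c.trans (map_zero _).symm))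

theorem vt_zero (I : Inf k d L) (hd : 1 ≤ d) {D : U →+ U} {i : L →+* U} {r : AA U}
    (h : FIe (cw D) (mA i I.a) (X * mA i I.b) r) : VT D (mT i I.vb) (iT r) = 0 := by
  have h0 : iT (mA i I.a) ≠ 0 := fun c => red_ne I hd (by
    rw [mA_inj i.injective ((iT_inj (c.trans (map_zero _).symm)).trans (map_zero _).symm), map_zero])
  have h1 : iT (mA i I.a) * mT i I.vb = iT (mA i I.b) := by
    rw [← mT_iT, ← map_mul, I.hv, mT_iT]
  have h2 := congrArg iT h
  refine mul_left_cancel₀ h0 ?_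
  rw [VT, cw_iT, th_iT, thP_apply, mul_sub, ← mul_assoc, h1]
  simp only [map_mul] at h2 ⊢
  linear_combination h2

/-- The low coefficients of the second term are rational. -/
theorem low_rat (hA : AmalgStmt) (I : Inf k d L) {D : U →+ U} {i : L →+* U} {r : AA U}
    (hext : DExt I.D D i) (h0 : cc r = 0) (hfi : FIe (cw D) (mA i I.a) (X * mA i I.b) r) {ν : ℕ}
    (ih : ∀ m < ν, ∀ (U : Type) [Field U] (D : U →+ U) (i : L →+* U) (r : AA U), DExt I.D D i →
      cc r = 0 → FIe (cw D) (mA i I.a) (X * mA i I.b) r → ¬ OrdIs m (red r))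
    {S0 : TT L} {S' : TT U} (hS : iT r = mT i S0 + X ^ I.n * S') (j : ℤ) (hj : j < ν) :
    ∃ e, (cc S').coeff j = i e := by
  have := charZero_of_injective_ringHom I.κ.injective
  by_contra c
  push Not at c
  obtain ⟨Ω, _, D', τ, σ, h1, h5⟩ := hA L U I.D D i hext Unit (fun _ => (cc S').coeff j)
    fun _ => c
  obtain ⟨h2, h3, h4⟩ := h5 ()
  have e0 : ∀ ρ : U →+* Ω, mT ρ (mT i S0) = mT (ρ.comp i) S0 := fun ρ => by
    ext n l
    simp only [coeff_mT, coeff_mapL, RingHom.comp_apply]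
  have eX : ∀ ρ : U →+* Ω, mT ρ X = X := fun ρ => map_X _
  have e1 : iT (mA (σ ()) r - mA τ r) = X ^ I.n * (mT (σ ()) S' - mT τ S') := by
    rw [map_sub, ← mT_iT, ← mT_iT, hS]
    simp only [map_add, map_mul, map_pow, e0, eX]
    rw [show (σ ()).comp i = τ.comp i from RingHom.ext h3]
    ring
  obtain ⟨r', hr'⟩ := (X_pow_dvd_iT _ _).1 ⟨_, e1⟩
  have e2 : iT r' = mT (σ ()) S' - mT τ S' := by
    rw [hr', map_mul, map_pow, iT_CX] at e1
    exact mul_left_cancel₀ (pow_ne_zero _ X_ne_zero) e1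
  have e3 : (coeL Ω (red r')).coeff j ≠ 0 := by
    rw [← cc_iT, e2, map_sub, ← coeff_zero_eq_constantCoeff_apply,
      ← coeff_zero_eq_constantCoeff_apply, coeff_mT, coeff_mT, HahnSeries.coeff_sub, coeff_mapL,
      coeff_mapL, coeff_zero_eq_constantCoeff_apply]
    exact sub_ne_zero.2 h4
  obtain ⟨n, rfl⟩ : ∃ n : ℕ, j = n :=
    ⟨j.toNat, by
      have : ¬ j < 0 := fun c => e3 (coeff_coeL_neg _ c)
      omega⟩
  rw [coeff_coeL] at e3
  obtain ⟨m, hm⟩ := exists_ordIs (f := red r') fun c => e3 (by rw [c, map_zero])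
  have e4 : m ≤ n := not_lt.1 fun c => e3 (hm.2 n c)
  have f1 := fi_push (i' := τ.comp i) h2 h3 hfi
  have f2 := fi_push (i' := τ.comp i) h1 (fun _ => rfl) hfi
  refine ih m (by omega) Ω D' (τ.comp i) r' ⟨h1.1, fun c => ?_⟩
    (cc_strip (n := I.n) ?_) (fi_strip h1.1 (n := I.n) ?_) hm
  · rw [RingHom.comp_apply, h1.2, hext.2, RingHom.comp_apply]
  · rw [← hr', map_sub, cc_mA _ h0, cc_mA _ h0, sub_zero]
  · rw [← hr']
    unfold FIe at f1 f2 ⊢
    rw [map_sub, map_sub, mul_sub, mul_sub, f2]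
    exact congrArg (· - _) f1

/-- The order bound. -/
theorem order_bound (I : Inf k d L) (hd : 1 ≤ d) {D : U →+ U} {i : L →+* U} (hext : DExt I.D D i)
    {r0 : k⟦X⟧} {ν : ℕ} (hν : 1 ≤ ν) (ho : OrdIs ν r0) {η : U⸨X⸩}
    (h1 : ∀ j : ℤ, j < ν → ∃ e, η.coeff j = i e)
    (h2 : cwL D η = 0 - dh d (coeL U (map (i.comp I.κ) r0)) * mapL i (cc I.Xi)) (m : ℤ)
    (hm : m < -d) : ∃ z, (cc I.Xi).coeff m = I.D z := by
  have := charZero_of_injective_ringHom (i.comp I.κ).injective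
  have h3 : OrdIs ν (thP k r0) := ⟨by
    rw [coeff_thP]
    exact mul_ne_zero (Nat.cast_ne_zero.2 (by omega)) ho.1, fun j hj => by
    rw [coeff_thP, ho.2 j hj, mul_zero]⟩
  obtain ⟨u, hu, hu0⟩ := h3.fac
  obtain ⟨v, hv⟩ : ∃ v, v * u = 1 :=
    (isUnit_iff_constantCoeff.2 (Ne.isUnit (hu0 ▸ h3.1))).exists_left_inv
  have h4 : coeL U (map (i.comp I.κ) (C (d : k) * v)) * cwL D η =
      wL U (d + ν) * mapL i (cc I.Xi) := by
    have a1 : cL U (d : U) * cL U (d : U)⁻¹ = 1 := by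
      rw [← map_mul, mul_inv_cancel₀ (Nat.cast_ne_zero.2 (by omega)), map_one]
    have a2 : coeL U (map (i.comp I.κ) v) * coeL U (map (i.comp I.κ) u) = 1 := by
      rw [← map_mul, ← map_mul, hv, map_one, map_one]
    rw [h2, dh, thL_coeL, thP_map, hu, wL_add, ← coeL_X_pow ν]
    simp only [map_mul, map_C, coeL_C, map_natCast (i.comp I.κ), map_pow, map_X]
    linear_combination (wL U d * coeL U X ^ ν * mapL i (cc I.Xi) *
      (coeL U (map (i.comp I.κ) v) * coeL U (map (i.comp I.κ) u))) * a1 +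
      (wL U d * coeL U X ^ ν * mapL i (cc I.Xi)) * a2
  have h5 := mul_mem (i.comp I.κ) (i.toAddMonoidHom.comp I.D).range (by
    rintro c _ ⟨z, rfl⟩
    exact ⟨I.κ c * z, by simp [I.cv.1.const_mul (I.cv.2.1 c)]⟩) (C (d : k) * v) (cwL D η)
    (m + (d + ν)) fun j hj => by
      obtain ⟨e, he⟩ := h1 j (by omega)
      exact ⟨e, by rw [coeff_cwL, he, hext.2]; rfl⟩
  rw [h4, coeff_wL_mul, add_sub_cancel_right, coeff_mapL] at h5
  obtain ⟨z, hz⟩ := h5
  exact ⟨z, i.injective hz.symm⟩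

end Lowr

theorem lowrS (h1 : ES.CmpStmt) (h2 : ES.AmalgStmt) (h3 : RedStmt) : LowrStmt := by
  intro k L _ _ _ d I ν α hd hG
  have := charZero_of_injective_ringHom I.κ.injective
  obtain ⟨U, _, D, i, r, hext, hc, h0, hfi, ho, -⟩ := hG.ex
  have key : ∀ m : ℤ, m < -d → ∃ z, (cc I.Xi).coeff m = I.D z := by
    have hν : 1 ≤ ν := Nat.pos_of_ne_zero fun c => ho.1 (by
      rw [c, coeff_zero_eq_constantCoeff_apply, cc_red, c00_apply, h0, map_zero])
    obtain ⟨S0, S', e1, e2, e3⟩ := h1 L U I.D D i d I.n I.vb I.h I.Xi (iT r) 0 (by omega) I.n1 hext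
      (fun c e => (hc c e).elim fun z hz => ⟨I.κ z, hz⟩) (Lowr.cc_vb I (by omega)) I.rh I.hV
      (by rw [Lowr.vt_zero I (by omega) hfi, mul_zero])
    rw [cc_iT] at e2 e3
    obtain ⟨r0, hr0⟩ := exists_map_of_coeff (φ := i.comp I.κ) (f := red r) fun n => hc _ (by
      rw [← coeff_coeL, ← coeff_cwL, e2]
      rfl)
    rw [hr0] at ho e3
    exact Lowr.order_bound I (by omega) hext hν (ES.S1a.ord_map.1 ho)
      (Lowr.low_rat h2 I hext h0 hfi
        (fun m hm V _ D' i' r' a1 a2 a3 a4 => hG.min m hm ⟨V, _, D', i', r', a1, a2, a3, a4⟩) e1)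
      (by rw [e3, map_zero])
  exact ⟨key, h3 k L d I hd key⟩

end Pool.Agent.MP_05b4bd_ag.RV
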