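import Pool.Agent.MP_05b4bd_ag.rr.Bas

/-! The model lies in the family, and the first step of the induction. -/

namespace Pool.Agent.MP_05b4bd_ag.RV

open MvPolynomial HC
open ES.U (TM Cr hom)
open PC3 (Fm fm d1 DF sub2 pb mapF Van CenK iS)
open scoped PowerSeries

namespace Mdl0

section Ring
variable {A : Type} [CommRing A]

theorem DL_nat (n : ℕ) : DL 1 (n : R2 A) := by
  rw [← map_natCast (C : A →+* R2 A)]
  exact DL_C _

theorem hr (d a b : ℕ) (l0 l1 : A) (s : Fm A) : HR d a b (mdl d a b (1 + HC.lf l0 l1) s) := by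
  refine ⟨X 0, X 1, l0, l1, fun j => -hc (d - 1 - j * (a + b)) s.2,
    fun j => hc (d - 1 - j * (a + b)) s.1, DL_X 0, DL_X 1,
    fun j => ⟨(hc_hom _ _).neg, hc_hom _ _⟩, ?_⟩
  rw [mdl, rrF, add_assoc]
  refine Finset.sum_congr rfl fun j _ => ?_
  simp only [PC3.sub2_id]
  have e1 : fm (-hc (d - 1 - j * (a + b)) s.2) (X 0) + fm (hc (d - 1 - j * (a + b)) s.1) (X 1) =
      wpt (d - 1 - j * (a + b)) s := by
    refine Prod.ext ?_ ?_ <;> simp [fm, wpt]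
  have e2 : X 0 * -hc (d - 1 - j * (a + b)) s.2 + X 1 * hc (d - 1 - j * (a + b)) s.1 =
      cE (wpt (d - 1 - j * (a + b)) s) := by
    simp only [cE, wpt]
    ring
  rw [e1, e2]
  rfl

theorem term {l g c : R2 A} {e m : ℕ} (n b : ℕ) (i : Fin 2) (hl : DL 2 l) (hg : DL (e + 1) g)
    (hc : DL (e + 2) c) :
    DL (m + (e + 2)) (l ^ m * ((n : R2 A) * l * g - (b : R2 A) * c * pderiv i l)) ∧
    DL (m + (e + 2)) (l ^ m * ((n : R2 A) * l * g - -((b : R2 A) * c * pderiv i l))) := by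
  have h1 : DL (m + 1) (l ^ m) := by simpa using DL.pow (a := 1) hl m
  have h2 : DL (e + 2) ((n : R2 A) * l * g) :=
    (DL.mul (a := 1) ((DL.mul (a := 0) (DL_nat n) hl).mono (by omega)) hg).mono (by omega)
  have h3 : DL (e + 2) ((b : R2 A) * c * pderiv i l) :=
    (DL.mul' (b := 0) (DL.mul (a := 0) (DL_nat b) hc) (hl.pderiv i)).mono (by omega)
  exact ⟨h1.mul (h2.sub h3), h1.mul (h2.sub h3.neg)⟩

theorem df {d : ℕ} (hd : 1 ≤ d) (a b : ℕ) (l0 l1 : A) (s : Fm A) :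
    DF (d + 1) (mdl d a b (1 + HC.lf l0 l1) s) := by
  have hl : DL 2 (1 + HC.lf l0 l1 : R2 A) :=
    (((C_1 (σ := Fin 2) (R := A)) ▸ DL_C (1 : A)).mono (by omega)).add (DL.of_hom (lf_hom l0 l1))
  have hb : ∀ j ∈ Finset.range ((d - 1) / (a + b) + 1),
      b * j + (d - 1 - j * (a + b) + 2) ≤ d + 1 := fun j hj => by
    have h1 : j * (a + b) ≤ d - 1 :=
      (Nat.mul_le_mul_right _ (Nat.lt_succ_iff.1 (Finset.mem_range.1 hj))).trans
        (Nat.div_mul_le_self _ _)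
    have h2 : b * j ≤ j * (a + b) := by nlinarith [Nat.zero_le (j * a)]
    omega
  have hc : ∀ e, DL (e + 2) (cE (wpt e s)) := fun e =>
    ((DL.mul (a := 1) (DL_X 1) (DL.of_hom (hc_hom e s.1))).mono (by omega)).sub
      ((DL.mul (a := 1) (DL_X 0) (DL.of_hom (hc_hom e s.2))).mono (by omega))
  rw [mdl]
  constructor
  · rw [Prod.fst_sum]
    exact DL.sum _ fun j hj =>
      (term (a + b) b 1 hl (DL.of_hom (hc_hom _ s.1)) (hc _)).1.mono (hb j hj)
  · rw [Prod.snd_sum]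
    exact DL.sum _ fun j hj =>
      (term (a + b) b 0 hl (DL.of_hom (hc_hom _ s.2)) (hc _)).2.mono (hb j hj)

theorem mdl_one (d a b : ℕ) (s : Fm A) : mdl d a b 1 s =
    (∑ j ∈ Finset.range ((d - 1) / (a + b) + 1),
      hc (d - 1 - j * (a + b)) (C ((a + b : ℕ) : A) * s.1),
    ∑ j ∈ Finset.range ((d - 1) / (a + b) + 1),
      hc (d - 1 - j * (a + b)) (C ((a + b : ℕ) : A) * s.2)) := by
  rw [mdl]
  refine Prod.ext ?_ ?_
  · rw [Prod.fst_sum]
    refine Finset.sum_congr rfl fun j _ => ?_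
    rw [hc_C_mul, map_natCast]
    simp [fm, wpt]
  · rw [Prod.snd_sum]
    refine Finset.sum_congr rfl fun j _ => ?_
    rw [hc_C_mul, map_natCast]
    simp [fm, wpt]

theorem sum_sym {d n : ℕ} (hn : 1 ≤ n) {g : R2 A} (hg : DL d g)
    (h : ∀ e, e + 1 ≤ d → hc e g ≠ 0 → n ∣ d - (e + 1)) :
    ∑ j ∈ Finset.range ((d - 1) / n + 1), hc (d - 1 - j * n) g = g := by
  ext m
  rw [coeff_sum]
  simp only [coeff_hc]
  by_cases h0 : coeff m g = 0
  · simp [h0]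
  have h1 : m.degree + 1 ≤ d := by
    by_contra hc
    exact h0 (hg m (by omega))
  obtain ⟨j, hj⟩ := h m.degree h1 fun z => h0 (by
    have := congrArg (coeff m) z
    rwa [coeff_hc, if_pos rfl] at this)
  rw [mul_comm] at hj
  rw [Finset.sum_eq_single j, if_pos (by omega)]
  · intro i hi hij
    have h2 : i * n ≤ d - 1 :=
      (Nat.mul_le_mul_right _ (Nat.lt_succ_iff.1 (Finset.mem_range.1 hi))).trans
        (Nat.div_mul_le_self _ _)
    refine if_neg fun z => hij (Nat.eq_of_mul_eq_mul_right hn ?_)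
    omega
  · intro hj'
    refine (hj' (Finset.mem_range.2 (Nat.lt_succ_iff.2 ((Nat.le_div_iff_mul_le hn).2 ?_)))).elim
    omega

end Ring

variable {k : Type} [Field k]

theorem sym_d {d n : ℕ} {f : R2 k} {ζ : k} (hn : 1 ≤ n) (hf : DL (d + 1) f)
    (hζ : IsPrimitiveRoot ζ n) (hs : hom ζ 0 f = C (ζ ^ d) * f) (i : Fin 2) :
    ∑ j ∈ Finset.range ((d - 1) / n + 1), hc (d - 1 - j * n) (pderiv i f) = pderiv i f := by
  refine sum_sym hn (hf.pderiv i) fun e he h0 => ?_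
  have z : ζ ≠ 0 := hζ.ne_zero (by omega)
  have h1 : hc (e + 1) f ≠ 0 := fun h => h0 (by rw [hc_pderiv, h, map_zero])
  have h2 := hc_homz ζ (e + 1) f
  rw [hs, hc_C_mul] at h2
  have h3 : ζ ^ d = ζ ^ (e + 1) := C_injective (Fin 2) k (mul_right_cancel₀ h1 h2)
  refine hζ.dvd_of_pow_eq_one _ (mul_right_cancel₀ (pow_ne_zero (e + 1) z) ?_)
  rw [← pow_add, Nat.sub_add_cancel he, one_mul, h3]

theorem cc_C (u : R2 k) : map ES.cc (map (PowerSeries.C : k →+* k⟦X⟧) u) = u := by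
  rw [map_map]
  have : (ES.cc : k⟦X⟧ →+* k).comp PowerSeries.C = RingHom.id k := RingHom.ext fun c => by simp
  rw [this, map_id]

theorem ker_dvd {u : R2 k⟦X⟧} (h : map ES.cc u = 0) : ∃ v, u = C PowerSeries.X * v :=
  (C_dvd_iff_dvd_coeff _ _).2 fun m => PowerSeries.X_dvd_iff.2 (by
    have := congrArg (coeff m) h
    rwa [coeff_map] at this)

end Mdl0

open Mdl0 in
theorem mdl0S : Mdl0Stmt := by
  refine ⟨fun A _ d a b l0 l1 s hd => ⟨hr d a b l0 l1 s, df hd a b l0 l1 s⟩, ?_⟩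
  intro k _ _ d a b f ζ w hd hn hf hζ hs hw hr
  have n0 : ((a + b : ℕ) : k) ≠ 0 := Nat.cast_ne_zero.2 (by omega)
  have hu : ∀ u : R2 k, C ((a + b : ℕ) : k) * (C ((a + b : ℕ) : k)⁻¹ * u) = u := fun u => by
    rw [← mul_assoc, ← map_mul, mul_inv_cancel₀ n0, C_1, one_mul]
  have hv : ∀ u : R2 k, map ES.cc (C ((a + b : ℕ) : k⟦X⟧) *
      map PowerSeries.C (C ((a + b : ℕ) : k)⁻¹ * u)) = u := fun u => by
    rw [map_mul, map_C, map_natCast, cc_C, hu]
  obtain ⟨s, hs0⟩ : ∃ s : Fm k⟦X⟧, s = (map PowerSeries.C (C ((a + b : ℕ) : k)⁻¹ * pderiv 1 f),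
      map PowerSeries.C (C ((a + b : ℕ) : k)⁻¹ * -pderiv 0 f)) := ⟨_, rfl⟩
  have l1 : (1 + HC.lf 0 0 : R2 k⟦X⟧) = 1 := by simp [HC.lf]
  have m1 : map ES.cc (mdl d a b (1 + HC.lf 0 0) s).1 = pderiv 1 f := by
    rw [l1, mdl_one, hs0]
    simp only [map_sum, ← hc_map, hv]
    exact sym_d hn hf hζ hs 1
  have m2 : map ES.cc (mdl d a b (1 + HC.lf 0 0) s).2 = -pderiv 0 f := by
    rw [l1, mdl_one, hs0]
    simp only [map_sum, ← hc_map, hv, hc_neg, Finset.sum_neg_distrib]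
    rw [sym_d hn hf hζ hs 0]
  have r1 : map ES.cc w.1 = pderiv 1 f := congrArg Prod.fst hr
  have r2 : map ES.cc w.2 = -pderiv 0 f := congrArg Prod.snd hr
  obtain ⟨v1, e1⟩ := ker_dvd (u := w.1 - (mdl d a b (1 + HC.lf 0 0) s).1)
    (by rw [map_sub, r1, m1, sub_self])
  obtain ⟨v2, e2⟩ := ker_dvd (u := w.2 - (mdl d a b (1 + HC.lf 0 0) s).2)
    (by rw [map_sub, r2, m2, sub_self])
  have hm := df hd a b (0 : k⟦X⟧) 0 s
  refine ⟨s, (v1, v2), le_rfl, map_zero _, map_zero _, ?_,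
    ⟨DL.of_C_mul PowerSeries.X_ne_zero (e1 ▸ hw.1.sub hm.1),
      DL.of_C_mul PowerSeries.X_ne_zero (e2 ▸ hw.2.sub hm.2)⟩, Prod.ext ?_ ?_⟩
  · rw [hs0, ← map_natCast (C : k →+* R2 k)]
    refine Prod.ext ?_ ?_
    · change C ((a + b : ℕ) : k) * map ES.cc (map PowerSeries.C _) = pderiv 1 f
      rw [cc_C, hu]
    · change C ((a + b : ℕ) : k) * map ES.cc (map PowerSeries.C _) = -pderiv 0 f
      rw [cc_C, hu]
  · change w.1 = _ + C (PowerSeries.X ^ 1) * v1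
    rw [pow_one, ← e1, add_sub_cancel]
  · change w.2 = _ + C (PowerSeries.X ^ 1) * v2
    rw [pow_one, ← e2, add_sub_cancel]

end Pool.Agent.MP_05b4bd_ag.RV
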