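import Pool.Agent.MP_05b4bd_ag.rr.Spec4
import Pool.Agent.MP_05b4bd_ag.rr.Mdl0

/-! From minimal primes to the components through `df`. -/

namespace Pool.Agent.MP_05b4bd_ag.RV

open MvPolynomial HC
open ES.U (TM Cr hom)
open PC3 (Fm fm d1 DF mapF)

/-- A symmetric polynomial lies in the reversible family. -/
theorem memD (h1 : AdmStmt) (h2 : UnivStmt) (h3 : RrcStmt) {d a b : ℕ} {f : Poly} (hd : 3 ≤ d)
    (t : TM d f) (ha : 1 ≤ a) (hb : 1 ≤ b) (h : Rad d (a + b) f) : dform f ∈ RR d a b := by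
  obtain ⟨ζ, e, c, hζ, he⟩ := h
  obtain ⟨p, hp⟩ := (h1 ℂ d f hd t).2.1 ζ e c (hζ.ne_one (by omega)) he
  have dl := (tm_tr t (by omega) p (eval p f)).dl
  refine ((h2 d a b).1 _).2 ((h3 ℂ d a b _).2.2.2.1 p ?_)
  have n0 : ((a + b : ℕ) : ℂ) ≠ 0 := Nat.cast_ne_zero.2 (by omega)
  have hu : ∀ u : R2 ℂ, C ((a + b : ℕ) : ℂ) * (C ((a + b : ℕ) : ℂ)⁻¹ * u) = u := fun u => by
    rw [← mul_assoc, ← map_mul, mul_inv_cancel₀ n0, C_1, one_mul]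
  have l1 : (1 + HC.lf 0 0 : R2 ℂ) = 1 := by simp [HC.lf]
  have := Mdl0.hr d a b (0 : ℂ) 0 (C ((a + b : ℕ) : ℂ)⁻¹ * pderiv 1 (tr p f - C (eval p f)),
    C ((a + b : ℕ) : ℂ)⁻¹ * -pderiv 0 (tr p f - C (eval p f)))
  rw [l1, Mdl0.mdl_one] at this
  simp only [hu, hc_neg, Finset.sum_neg_distrib] at this
  rw [Mdl0.sym_d (by omega) dl hζ hp, Mdl0.sym_d (by omega) dl hζ hp] at this
  simpa only [trF, dform, map_sub, pderiv_C, sub_zero, tr_pderiv, map_neg] using this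

theorem mainR (h : MinqStmt) (hW : UM.MemStmt) (hne : UM.SepStmt) (m1 : MemrStmt) (m2 : IrrrStmt)
    (s1 : Sep1Stmt) (s2 : Sep2Stmt) (s3 : Sep3Stmt) (ad : AdmStmt) (sy : SymdStmt) {d : ℕ}
    (hd : 3 ≤ d) {f : Poly} (t : TM d f) (hE : d = 3 → ¬ Exo f) {Z : Set Form}
    (hZ : dform f ∈ Z) : IsComponent (M d) Z ↔ ∃ W ∈ Wr d f, Z = zcl W := by
  have key : ∀ Y, Y ⊆ M d ∧ Irred Y → dform f ∈ Y → ∃ W ∈ Wr d f, Y ⊆ zcl W := fun Y hY hm => by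
    obtain ⟨q, hq, k1⟩ := ES.Top.exists_min hY.1 hY.2
    exact (h d f hd t hE q hq fun R hR => k1 R hR _ hm).imp
      fun W k => ⟨k.1, fun ω hω => mem_zcl.2 fun R hR => k1 R (k.2 R hR) ω hω⟩
  have p : ∀ W ∈ Wr d f, zcl W ⊆ M d ∧ Irred (zcl W) := by
    rintro W (k | ⟨a, b, ha, hb, -, -, rfl⟩)
    · exact ⟨zcl_subset (hW d hd W k).1, (hW d hd W k).2.zcl⟩
    · exact ⟨zcl_subset (m1 d a b hd ha hb), (m2 d a b).zcl⟩
  have sp : ∀ W ∈ Wr d f, ∀ W' ∈ Wr d f, W ⊆ zcl W' → W = W' := by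
    rintro W (k | ⟨a, b, ha, hb, cp, r, rfl⟩) W' (k' | ⟨a', b', ha', hb', cp', r', rfl⟩) hs
    · exact hne d hd W k W' k' hs
    · obtain ⟨⟨n1, n2, n3, n4⟩, -⟩ := s2 d a' b' hd ha' hb'
      rcases k with rfl | rfl | rfl | rfl | ⟨n, h1, -, rfl⟩
      exacts [(n1 hs).elim, (n2 hs).elim, (n3 hs).elim, (n4 hs).elim,
        (s3 d a' b' n hd ha' hb' h1 hs).elim]
    · exact (s1 d a b hd ((ad ℂ d f hd t).1 _ (by omega)
        (((sy d f hd t).1 _ (by omega)).2 r)) W' k' hs).elim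
    · have e := (s2 d a' b' hd ha' hb').2 a b ha hb hs
      have e1 : a = a' := Nat.dvd_antisymm (cp.dvd_of_dvd_mul_right ⟨b', by rw [e]⟩)
        (cp'.dvd_of_dvd_mul_right ⟨b, e.symm ▸ rfl⟩)
      subst e1
      rw [Nat.eq_of_mul_eq_mul_left ha e]
  constructor
  · intro hY
    exact (key Z hY.1 hZ).imp fun W k => ⟨k.1, k.2.antisymm (hY.2 (p W k.1) k.2)⟩
  · rintro ⟨W, k, rfl⟩
    refine ⟨p W k, fun Y hY hle => ?_⟩
    obtain ⟨W', k', hs⟩ := key Y hY (hle hZ)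
    rwa [sp W k W' k' (((subset_zcl _).trans hle).trans hs)]

end Pool.Agent.MP_05b4bd_ag.RV
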