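import Pool.Agent.MP_05b4bd_ag.rr.Spec5

/-! The formal Morse lemma. -/

set_option autoImplicit false

namespace Pool.Agent.MP_05b4bd_ag.RV

open PowerSeries LaurentSeries HC
open ES hiding Gen Ob Inf

namespace McR

variable {k : Type} [Field k]

theorem mem {c : AA k} : c ∈ up (up (⊥ : Ideal k)) ↔ c00 c = 0 := by
  rw [mem_up2, Ideal.mem_bot]

theorem cU : c00 (C X : AA k) = 0 := by simp [c00_apply]

theorem cV : c00 (X : AA k) = 0 := by simp [c00_apply]

theorem cC (r : k) : c00 (CC r : AA k) = r := by simp [c00_apply, CC_apply]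

theorem unit {c : AA k} (h : c00 c ≠ 0) : IsUnit c := by
  rw [isUnit_iff_constantCoeff, isUnit_iff_constantCoeff]
  exact Ne.isUnit h

theorem split (c : AA k) : ∃ r r', c = CC (c00 c) + C X * r + X * r' := by
  obtain ⟨r, r', e⟩ := ev2_sub_c00 _ (φ := CC) (mem.2 cU) (mem.2 cV) c
  exact ⟨r, r', by rwa [ev2_id] at e⟩

theorem der (i : Fin 2) : IsDer (dA k i) := by
  fin_cases i
  exacts [isDer_dX.coefw, isDer_dX]

theorem dC (i : Fin 2) (r : k) : dA k i (CC r) = 0 := by
  fin_cases i
  · show cw (dX k) _ = 0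
    rw [CC_apply, cw_C, dX_C, map_zero]
  · exact dX_C _

theorem d0U : dA k 0 (C X) = 1 := by
  show cw (dX k) _ = 1
  rw [cw_C, dX_X, map_one]

theorem d0V : dA k 0 X = 0 := cw_X isDer_dX.one

theorem d1U : dA k 1 (C X) = 0 := dX_C _

theorem d1V : dA k 1 X = 1 := dX_X

theorem lin (r r' : AA k) :
    c00 (dA k 0 (C X * r + X * r')) = c00 r ∧ c00 (dA k 1 (C X * r + X * r')) = c00 r' := by
  constructor <;> rw [map_add, der, der] <;> simp [d0U, d0V, d1U, d1V, cU, cV]

/-- A local substitution. -/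
structure Loc (g : AA k →+* AA k) (a b c d : AA k) : Prop where
  con : ∀ r, g (CC r) = CC r
  u : g (C X) = C X * a + X * b
  v : g X = C X * c + X * d

variable {g : AA k →+* AA k} {a b c d : AA k}

theorem Loc.c0 (h : Loc g a b c d) (y : AA k) : c00 (g y) = c00 y := by
  obtain ⟨r, r', e⟩ := split y
  rw [e]
  simp [h.con, h.u, h.v, cU, cV]

theorem loc (a b c d : AA k) :
    Loc (ev2 CC (C X * a + X * b) (C X * c + X * d)) a b c d := by
  have h : ∀ a b : AA k, C X * a + X * b ∈ up (up (⊥ : Ideal k)) := fun a b => by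
    simp [mem, cU, cV]
  exact ⟨ev2_CC _ (h a b) (h c d), ev2_CX _ (h a b) (h c d), ev2_X _ (h c d)⟩

theorem Loc.comp {g' : AA k →+* AA k} {a' b' c' d' : AA k} (h : Loc g a b c d)
    (h' : Loc g' a' b' c' d') : Loc (g.comp g') (a * g a' + c * g b') (b * g a' + d * g b')
      (a * g c' + c * g d') (b * g c' + d * g d') := by
  refine ⟨fun r => by rw [RingHom.comp_apply, h'.con, h.con], ?_, ?_⟩
  · rw [RingHom.comp_apply, h'.u, map_add, map_mul, map_mul, h.u, h.v]
    ring
  · rw [RingHom.comp_apply, h'.v, map_add, map_mul, map_mul, h.u, h.v]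
    ring

theorem bij_of {S : Type} [CommRing S] (J : Ideal S) [IsAdicComplete J S] (Θ : S →+* S)
    (h1 : ∀ u, Θ u - u ∈ J) (h2 : ∀ u ∈ J, Θ u - u ∈ J ^ 2) : Function.Bijective Θ := by
  have k : ∀ (n : ℕ), ∀ u ∈ J ^ n, Θ u - u ∈ J ^ (n + 1) := by
    intro n
    induction n with
    | zero => simpa using fun u => h1 u
    | succ n ih =>
      intro u hu
      rw [pow_succ] at hu
      refine Submodule.mul_induction_on hu (fun a ha b hb => ?_) (fun a b ha hb => ?_)
      · have e : Θ (a * b) - a * b = (Θ a - a) * Θ b + a * (Θ b - b) := by rw [map_mul]; ring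
        have hb' : Θ b ∈ J := by simpa using J.add_mem (h1 b) hb
        rw [e]
        refine Ideal.add_mem _ ?_ ?_
        · rw [pow_succ]
          exact Ideal.mul_mem_mul (ih a ha) hb'
        · rw [add_assoc, pow_add]
          exact Ideal.mul_mem_mul ha (h2 b hb)
      · have e : Θ (a + b) - (a + b) = (Θ a - a) + (Θ b - b) := by rw [map_add]; ring
        rw [e]
        exact Ideal.add_mem _ ha hb
  rw [Function.bijective_iff_existsUnique]
  intro y
  obtain ⟨x, hx, hu⟩ := fix_ideal J (fun x => x - Θ x + y) fun n a b h => by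
    have e : a - Θ a + y - (b - Θ b + y) = -(Θ (a - b) - (a - b)) := by rw [map_sub]; ring
    rw [e]
    exact neg_mem (k n _ h)
  refine ⟨x, by linear_combination -hx, fun z hz => hu z ?_⟩
  show z - Θ z + y = z
  rw [show Θ z = y from hz]
  ring

theorem Loc.bij1 (h : Loc g a b c d) (ha : c00 a = 1) (hb : c00 b = 0) (hc : c00 c = 0)
    (hd : c00 d = 1) : Function.Bijective g := by
  refine bij_of (up (up ⊥)) g (fun y => by rw [mem, map_sub, h.c0, sub_self]) fun y hy => ?_
  obtain ⟨r, r', e⟩ := split y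
  rw [mem.1 hy, map_zero, zero_add] at e
  have e' : g y - y = C X * (a * g r + c * g r' - r) + X * (b * g r + d * g r' - r') := by
    rw [e, map_add, map_mul, map_mul, h.u, h.v]
    ring
  rw [e', pow_two]
  refine Ideal.add_mem _ (Ideal.mul_mem_mul (mem.2 cU) ?_) (Ideal.mul_mem_mul (mem.2 cV) ?_) <;>
    simp [mem, h.c0, ha, hb, hc, hd]

theorem Loc.bij (h : Loc g a b c d) (hd : c00 a * c00 d - c00 b * c00 c ≠ 0) :
    Function.Bijective g := by
  obtain ⟨w, hw⟩ : ∃ w, w * (c00 a * c00 d - c00 b * c00 c) = 1 := ⟨_, inv_mul_cancel₀ hd⟩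
  have l := loc (CC (w * c00 d) : AA k) (CC (-(w * c00 b))) (CC (-(w * c00 c))) (CC (w * c00 a))
  have h1 := (h.comp l).bij1
  have h2 := (l.comp h).bij1
  simp only [map_add c00, map_mul c00, h.c0, l.c0, cC] at h1 h2
  exact ⟨Function.Injective.of_comp (h2 (by linear_combination hw) (by ring) (by ring)
      (by linear_combination hw)).1,
    Function.Surjective.of_comp (h1 (by linear_combination hw) (by ring) (by ring)
      (by linear_combination hw)).2⟩

/-- A nondegenerate critical point splits into two transversal branches. -/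
theorem fact [CharZero k] [IsAlgClosed k] {h : AA k} (h0 : c00 h = 0)
    (h1 : ∀ i, c00 (dA k i h) = 0)
    (h2 : c00 (dA k 0 (dA k 0 h)) * c00 (dA k 1 (dA k 1 h)) -
      c00 (dA k 1 (dA k 0 h)) * c00 (dA k 0 (dA k 1 h)) ≠ 0) :
    ∃ a b c d : AA k, h = (C X * a + X * b) * (C X * c + X * d) ∧
      c00 a * c00 d - c00 b * c00 c ≠ 0 := by
  obtain ⟨r, r', e⟩ := split h
  rw [h0, map_zero, zero_add] at e
  obtain ⟨α, β1, e1⟩ := split r
  obtain ⟨β2, γ, e2⟩ := split r'
  rw [← (lin r r').1, ← e, h1, map_zero, zero_add] at e1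
  rw [← (lin r r').2, ← e, h1, map_zero, zero_add] at e2
  obtain ⟨β, hβ⟩ : ∃ β, β = β1 + β2 := ⟨_, rfl⟩
  have e3 : h = C X * (C X * α) + C X * (X * β) + X * (X * γ) := by
    rw [e, e1, e2, hβ]
    ring
  have f0 : dA k 0 h = C X * (α + α + C X * dA k 0 α + X * dA k 0 β) + X * (β + X * dA k 0 γ) := by
    simp only [e3, map_add, der 0 (C X), der 0 X, d0U, d0V]
    ring
  have f1 : dA k 1 h = C X * (β + C X * dA k 1 α) + X * (γ + γ + C X * dA k 1 β + X * dA k 1 γ) := by
    simp only [e3, map_add, der 1 (C X), der 1 X, d1U, d1V]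
    ring
  rw [f0, f1, (lin _ _).1, (lin _ _).2, (lin _ _).1, (lin _ _).2] at h2
  simp only [map_add c00, map_mul c00, cU, cV, zero_mul, add_zero] at h2
  obtain ⟨s, hs⟩ := IsAlgClosed.exists_eq_mul_self (c00 β * c00 β - 4 * (c00 α * c00 γ))
  have s0 : s ≠ 0 := fun e => h2 (by rw [e] at hs; linear_combination -hs)
  obtain ⟨s, s0, hs, s1⟩ : ∃ s, s ≠ 0 ∧ c00 β * c00 β - 4 * (c00 α * c00 γ) = s * s ∧
      (c00 β + s) / 2 ≠ 0 := by
    by_cases t : (c00 β + s) / 2 = 0
    · exact ⟨-s, neg_ne_zero.2 s0, by rw [hs]; ring, fun e => s0 (by linear_combination t - e)⟩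
    · exact ⟨s, s0, hs, t⟩
  obtain ⟨P, p1, p2⟩ := hensel (up (up ⊥))
    (Polynomial.X * Polynomial.X - Polynomial.C β * Polynomial.X + Polynomial.C (α * γ))
    (a := (CC ((c00 β + s) / 2) : AA k))
    (by
      simp only [mem, Polynomial.eval_add, Polynomial.eval_sub, Polynomial.eval_mul,
        Polynomial.eval_X, Polynomial.eval_C, map_add c00, map_sub c00, map_mul c00, cC]
      linear_combination (-1 / 4) * hs)
    (unit (by
      simp only [Polynomial.derivative_add, Polynomial.derivative_sub, Polynomial.derivative_C,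
        Polynomial.derivative_mul, Polynomial.derivative_X,
        Polynomial.eval_add, Polynomial.eval_sub, Polynomial.eval_mul,
        Polynomial.eval_X, Polynomial.eval_C, Polynomial.eval_zero, Polynomial.eval_one,
        map_add c00, map_sub c00, map_mul c00, cC, map_one, map_zero]
      exact fun e => s0 (by linear_combination e)))
  rw [mem, map_sub, cC, sub_eq_zero] at p1
  simp only [Polynomial.eval_add, Polynomial.eval_sub, Polynomial.eval_mul, Polynomial.eval_X,
    Polynomial.eval_C] at p2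
  obtain ⟨Q, hQ⟩ := (unit (p1 ▸ s1)).exists_right_inv
  have q0 := congrArg c00 hQ
  rw [map_mul, map_one, p1] at q0
  refine ⟨1, γ * Q, α, P, ?_, fun t => s0 ?_⟩
  · rw [e3]
    linear_combination (-(C X * X * Q)) * p2 + (C X * X * (P - β) - X * X * γ) * hQ
  · rw [map_one, map_mul, p1] at t
    linear_combination t - c00 Q / 4 * hs + (c00 β - s) / 2 * q0

end McR

open McR in
theorem mcS : McStmt := by
  intro k _ _ _ f p h1 h2
  obtain ⟨e, he⟩ : ∃ e : R2 k →+* AA k,
      e = MvPolynomial.eval₂Hom CC ![CC (p 0) + C X, CC (p 1) + X] := ⟨_, rfl⟩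
  have eC : ∀ r, e (MvPolynomial.C r) = CC r := fun r => by simp [he]
  have e0 : e (MvPolynomial.X 0) = CC (p 0) + C X := by simp [he]
  have e1 : e (MvPolynomial.X 1) = CC (p 1) + X := by simp [he]
  have ev : ∀ y, c00 (e y) = MvPolynomial.eval p y := fun y =>
    RingHom.congr_fun (MvPolynomial.ringHom_ext (f := c00.comp e) (g := MvPolynomial.eval p)
      (fun r => by simp [eC, cC]) fun i => by fin_cases i <;> simp [e0, e1, cC, cU, cV]) y
  have ed : ∀ i y, dA k i (e y) = e (MvPolynomial.pderiv i y) := fun i y => by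
    have := (der i).eval₂ CC (dC i) (CC (p 0) + C X) (CC (p 1) + X) y
    rw [map_add, map_add, dC, dC, zero_add, zero_add] at this
    rw [he, MvPolynomial.coe_eval₂Hom, this]
    fin_cases i <;> simp [d0U, d0V, d1U, d1V]
  have ef : ∀ i, dA k i (e (f - MvPolynomial.C (MvPolynomial.eval p f))) =
      e (MvPolynomial.pderiv i f) := fun i => by rw [ed, map_sub, MvPolynomial.pderiv_C, sub_zero]
  obtain ⟨a, b, c, d, hf, hd⟩ := fact (h := e (f - MvPolynomial.C (MvPolynomial.eval p f)))
    (by simp [ev]) (fun i => by rw [ef, ev, h1])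
    (by
      rw [ef, ef]
      simpa only [ed, ev, br, map_sub, map_mul] using h2)
  have l := loc a b c d
  obtain ⟨G, hG⟩ : ∃ G : AA k ≃+* AA k, ∀ y, G y = ev2 CC (C X * a + X * b) (C X * c + X * d) y :=
    ⟨RingEquiv.ofBijective _ (l.bij hd), fun _ => rfl⟩
  have gC : ∀ r, G (CC r) = CC r := fun r => by rw [hG, l.con]
  have sC : ∀ r, G.symm (CC r) = CC r := fun r => by rw [RingEquiv.symm_apply_eq, gC]
  have s0 : ∀ y, c00 (G.symm y) = c00 y := fun y => by
    rw [← l.c0, ← hG, RingEquiv.apply_symm_apply]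
  obtain ⟨D, hD⟩ : ∃ D : Fin 2 → AA k →+ AA k, ∀ i y, D i y = G.symm (dA k i (G y)) :=
    ⟨fun i => (G.symm.toAddMonoidHom.comp (dA k i)).comp G.toAddMonoidHom, fun _ _ => rfl⟩
  have dD : ∀ i, IsDer (D i) := fun i x y => by
    simp only [hD, map_mul, der i (G x), map_add, RingEquiv.symm_apply_apply]
  refine ⟨G.symm.toRingHom.comp e, D, ⟨⟨dD, fun y => ?_⟩, fun i y => ?_⟩, fun r => ?_, fun y => ?_,
    ?_, fun i y => ?_, fun i y => ?_, unit ?_⟩
  · simp only [hD, RingEquiv.apply_symm_apply]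
    exact congrArg G.symm (dX_cw _ _).symm
  · simp [hD, ed]
  · simp [eC, sC]
  · exact (s0 _).trans (ev y)
  · show G.symm _ = _
    rw [RingEquiv.symm_apply_eq, map_mul G, hG, hG, l.u, l.v, hf]
  · have := hom_chain2' (up (up ⊥)) (g := G.symm.toRingHom) (mem.2 ((s0 _).trans cU))
      (mem.2 ((s0 _).trans cV)) (der i) (fun r => (congrArg _ (sC r)).trans (dC i r)) (G y)
    simp only [RingEquiv.toRingHom_eq_coe, RingHom.coe_coe, RingEquiv.symm_apply_apply] at this
    simp only [RingEquiv.toRingHom_eq_coe, RingHom.comp_apply, RingHom.coe_coe, e0, e1, map_add, sC,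
      dC, zero_add, hD]
    rw [this, mul_comm, mul_comm (G.symm _)]
    rfl
  · have := hom_chain2' (up (up ⊥)) (g := RingHom.id (AA k)) (mem.2 cU) (mem.2 cV) (dD i)
      (fun r => by rw [RingHom.id_apply, hD, gC, dC, map_zero]) y
    simp only [RingHom.id_apply] at this
    rw [this, mul_comm, mul_comm (dX _ y)]
    rfl
  · simp only [jM, hD, map_sub, map_mul, s0, hG, l.u, l.v, (McR.lin _ _).1, (McR.lin _ _).2]
    exact hd

end Pool.Agent.MP_05b4bd_ag.RV
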