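import Pool.Agent.MP_05b4bd_ag.rr.Bas

/-! Change of the line in the model family. -/

namespace Pool.Agent.MP_05b4bd_ag.RV

open MvPolynomial HC
open PC3 (Fm fm d1 DF mapF)
open scoped PowerSeries

namespace Mdl1

theorem pow_add' {A B : Type} [CommRing A] [CommRing B] (φ : A →+* B) (l T μ : A) (hl : φ l = 1)
    (hT : φ T = 0) (m : ℕ) : ∃ q, (l + T * μ) ^ m = l ^ m + T * q ∧ φ q = m * φ μ := by
  induction m with
  | zero => exact ⟨0, by simp, by simp⟩
  | succ m ih =>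
    obtain ⟨q, h1, h2⟩ := ih
    refine ⟨q * l + l ^ m * μ + T * q * μ, by rw [pow_succ, h1]; ring, ?_⟩
    simp only [map_add, map_mul, map_pow, hl, hT, h2]
    push_cast
    ring

variable {k : Type} [Field k]

theorem DL_cancel {n j : ℕ} {u : R2 k⟦X⟧} (h : DL n (C (PowerSeries.X ^ j) * u)) : DL n u := by
  intro m hm
  have h1 := h m hm
  rw [coeff_C_mul] at h1
  exact (mul_eq_zero.1 h1).resolve_left (pow_ne_zero _ PowerSeries.X_ne_zero)

/-- the first variation of one term -/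
noncomputable def vr {A : Type} [CommRing A] (n b : ℕ) (q p l' μ : R2 A) (σ : Fm A) : Fm A :=
  q • (((n : R2 A) * l') • σ - fm ((b : R2 A) * cE σ) l') +
    p • (((n : R2 A) * μ) • σ - fm ((b : R2 A) * cE σ) μ)

theorem term {A : Type} [CommRing A] (n b m : ℕ) (c : A) (q l μ : R2 A) (σ : Fm A)
    (h : (l + C c * μ) ^ m = l ^ m + C c * q) :
    (l + C c * μ) ^ m • (((n : R2 A) * (l + C c * μ)) • σ - fm ((b : R2 A) * cE σ) (l + C c * μ)) =
      l ^ m • (((n : R2 A) * l) • σ - fm ((b : R2 A) * cE σ) l) +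
        (C c : R2 A) • vr n b q (l ^ m) (l + C c * μ) μ σ := by
  rw [h]
  refine Prod.ext ?_ ?_ <;>
    simp only [vr, fm, Prod.smul_fst, Prod.smul_snd, Prod.fst_add, Prod.snd_add, Prod.fst_sub,
      Prod.snd_sub, smul_eq_mul, map_add, pderiv_C_mul] <;> ring

theorem map_vr {A B : Type} [CommRing A] [CommRing B] (φ : A →+* B) (n b : ℕ) (q p l' μ : R2 A)
    (σ : Fm A) : mapF φ (vr n b q p l' μ σ) =
      vr n b (map φ q) (map φ p) (map φ l') (map φ μ) (mapF φ σ) := by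
  refine Prod.ext ?_ ?_ <;>
    simp only [vr, fm, mapF, cE, Prod.smul_fst, Prod.smul_snd, Prod.fst_add, Prod.snd_add,
      Prod.fst_sub, Prod.snd_sub, smul_eq_mul, map_add, map_mul, map_sub, map_neg, map_natCast,
      map_X, pderiv_map]

theorem vr_one (n b m : ℕ) (μ : R2 k) (σ : Fm k) : vr n b ((m : R2 k) * μ) 1 1 μ σ =
    ((((m + 1) * n : ℕ) : R2 k) * (μ * σ.1) - b * (cE σ * pderiv 1 μ),
      (((m + 1) * n : ℕ) : R2 k) * (μ * σ.2) + b * (cE σ * pderiv 0 μ)) := by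
  refine Prod.ext ?_ ?_ <;>
    simp only [vr, fm, Prod.smul_fst, Prod.smul_snd, Prod.fst_add, Prod.snd_add, Prod.fst_sub,
      Prod.snd_sub, smul_eq_mul, pderiv_one] <;> push_cast <;> ring

theorem nat_hom (n : ℕ) {e : ℕ} {u : R2 k} (h : u.IsHomogeneous e) :
    ((n : R2 k) * u).IsHomogeneous e := by
  rw [← map_natCast (C : k →+* R2 k)]
  exact h.C_mul _

theorem vr_hom (n b m e : ℕ) (m0 m1 : k) (s : Fm k) :
    (vr n b ((m : R2 k) * HC.lf m0 m1) 1 1 (HC.lf m0 m1) (wpt e s)).1.IsHomogeneous (e + 1) ∧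
      (vr n b ((m : R2 k) * HC.lf m0 m1) 1 1 (HC.lf m0 m1) (wpt e s)).2.IsHomogeneous (e + 1) := by
  have h1 : (cE (wpt e s)).IsHomogeneous (e + 1) := by
    rw [add_comm]
    exact ((isHomogeneous_X k 1).mul (hc_hom e _)).sub ((isHomogeneous_X k 0).mul (hc_hom e _))
  have h2 : ∀ u : R2 k, (HC.lf m0 m1 * hc e u).IsHomogeneous (e + 1) := fun u => by
    rw [add_comm]
    exact (lf_hom m0 m1).mul (hc_hom e u)
  have h3 : ∀ c : k, (cE (wpt e s) * C c).IsHomogeneous (e + 1) := fun c => by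
    rw [mul_comm]
    exact h1.C_mul c
  rw [vr_one, lf_x, lf_y]
  exact ⟨(nat_hom _ (h2 _)).sub (nat_hom _ (h3 _)), (nat_hom _ (h2 _)).add (nat_hom _ (h3 _))⟩

theorem wpt_sum (e : ℕ) {ι : Type} (t : Finset ι) (g : ι → Fm k) :
    wpt e (∑ i ∈ t, g i) = ∑ i ∈ t, wpt e (g i) := by
  refine Prod.ext ?_ ?_ <;> simp only [wpt, Prod.fst_sum, Prod.snd_sum, map_sum]

theorem mapF_sum {A B : Type} [CommRing A] [CommRing B] (φ : A →+* B) {ι : Type} (t : Finset ι)
    (g : ι → Fm A) : mapF φ (∑ i ∈ t, g i) = ∑ i ∈ t, mapF φ (g i) := by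
  refine Prod.ext ?_ ?_ <;> simp only [mapF, Prod.fst_sum, Prod.snd_sum, map_sum]

end Mdl1

open Mdl1 in
theorem mdl1S (h : Mdl0Stmt) : Mdl1Stmt := by
  intro k _ _ d a b j f w s r l0 l1 m0 m1 A hd hn M hA hr
  obtain ⟨e, rfl⟩ : ∃ e, d = e + 1 := ⟨d - 1, by omega⟩
  have hn0 : ((a + b : ℕ) : k) ≠ 0 := Nat.cast_ne_zero.2 (by omega)
  set g : k := (b : k) * ((e + 1 : ℕ) : k) / ((a + b : ℕ) : k) with hg
  have hg1 : 1 + g ≠ 0 := by
    have : 1 + g = ((a + b + b * (e + 1) : ℕ) : k) / ((a + b : ℕ) : k) := by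
      rw [hg, eq_div_iff hn0, add_mul, div_mul_cancel₀ _ hn0]
      push_cast
      ring
    rw [this]
    exact div_ne_zero (Nat.cast_ne_zero.2 (by omega)) hn0
  set μ0 : k := m0 / (1 + g) with hμ0
  set μ1 : k := m1 / (1 + g) with hμ1
  set μ : R2 k⟦X⟧ := HC.lf (PowerSeries.C μ0) (PowerSeries.C μ1) with hμ
  set l : R2 k⟦X⟧ := 1 + HC.lf l0 l1 with hl
  have hX : ES.cc (PowerSeries.X ^ j : k⟦X⟧) = 0 := by
    rw [map_pow, PowerSeries.constantCoeff_X, zero_pow (by have := M.j1; omega)]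
  have hT : map (ES.cc (R := k)) (C (PowerSeries.X ^ j) : R2 k⟦X⟧) = 0 := by rw [map_C, hX, C_0]
  have hl1 : map ES.cc l = 1 := by
    simp only [hl, HC.lf, map_add, map_mul, map_C, map_one, M.c0, M.c1, C_0, zero_mul, add_zero]
  have hμ' : map ES.cc μ = HC.lf μ0 μ1 := by
    simp only [hμ, HC.lf, map_add, map_mul, map_C, map_X, PowerSeries.constantCoeff_C]
  have hl' : 1 + HC.lf (l0 + PowerSeries.X ^ j * PowerSeries.C μ0)
      (l1 + PowerSeries.X ^ j * PowerSeries.C μ1) = l + C (PowerSeries.X ^ j) * μ := by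
    simp only [hl, hμ, HC.lf, map_add, map_mul]
    ring
  choose q hq using pow_add' (map (σ := Fin 2) (ES.cc (R := k))) l (C (PowerSeries.X ^ j)) μ hl1 hT
  set dl : Fm k⟦X⟧ := ∑ i ∈ Finset.range ((e + 1 - 1) / (a + b) + 1),
    vr (a + b) b (q (b * i)) (l ^ (b * i)) (l + C (PowerSeries.X ^ j) * μ) μ
      (wpt (e + 1 - 1 - i * (a + b)) s) with hdl
  have key : mdl (e + 1) a b (l + C (PowerSeries.X ^ j) * μ) s =
      mdl (e + 1) a b l s + (C (PowerSeries.X ^ j) : R2 k⟦X⟧) • dl := by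
    rw [mdl, mdl, hdl, Finset.smul_sum, ← Finset.sum_add_distrib]
    exact Finset.sum_congr rfl fun i _ => term _ _ _ _ _ _ _ _ (hq _).1
  have hD : DF (e + 1 + 1) dl := by
    have h1 := (h.1 _ (e + 1) a b l0 l1 s hd).2
    have h2 := (h.1 _ (e + 1) a b (l0 + PowerSeries.X ^ j * PowerSeries.C μ0)
      (l1 + PowerSeries.X ^ j * PowerSeries.C μ1) s hd).2
    rw [hl', key] at h2
    rw [← hl] at h1
    refine ⟨DL_cancel (j := j) ?_, DL_cancel (j := j) ?_⟩
    · simpa only [Prod.fst_add, Prod.smul_fst, smul_eq_mul, add_sub_cancel_left] using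
        h2.1.sub h1.1
    · simpa only [Prod.snd_add, Prod.smul_snd, smul_eq_mul, add_sub_cancel_left] using
        h2.2.sub h1.2
  have hw : ∀ i, mapF ES.cc (wpt i s) = wpt i (mapF ES.cc s) := fun i => by
    simp only [wpt, mapF, hc_map]
  have s1 : ((a + b : ℕ) : R2 k) * hc e (mapF ES.cc s).1 = pderiv 1 (hc (e + 1) f) := by
    have := congrArg (fun z => hc e z.1) M.red
    simp only [Prod.smul_fst, smul_eq_mul, d1] at this
    rw [← hc_pderiv, ← this, ← map_natCast (C : k →+* R2 k), hc_C_mul]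
  have s2 : ((a + b : ℕ) : R2 k) * hc e (mapF ES.cc s).2 = -pderiv 0 (hc (e + 1) f) := by
    have := congrArg (fun z => hc e z.2) M.red
    simp only [Prod.smul_snd, smul_eq_mul, d1, hc_neg] at this
    rw [← hc_pderiv, ← this, ← map_natCast (C : k →+* R2 k), hc_C_mul]
  have s3 : (b : R2 k) * cE (wpt e (mapF ES.cc s)) = C g * hc (e + 1) f := by
    have hC : ((a + b : ℕ) : R2 k) ≠ 0 := Nat.cast_ne_zero.2 (by omega)
    have hG : ((a + b : ℕ) : R2 k) * C g = (b : R2 k) * ((e + 1 : ℕ) : R2 k) := by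
      rw [← map_natCast (C : k →+* R2 k), ← map_mul, hg, mul_div_cancel₀ _ hn0, map_mul,
        map_natCast, map_natCast]
    refine mul_left_cancel₀ hC ?_
    have eu := euler (hc_hom (e + 1) f)
    simp only [cE, wpt]
    linear_combination (b : R2 k) * X 1 * s1 - (b : R2 k) * X 0 * s2 + (b : R2 k) * eu -
      hc (e + 1) f * hG
  have hl2 : map ES.cc (l + C (PowerSeries.X ^ j) * μ) = 1 := by
    rw [map_add _ l, map_mul, hl1, hT, zero_mul, add_zero]
  have top : wpt (e + 1) (mapF ES.cc dl) =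
      vr (a + b) b (((0 : ℕ) : R2 k) * HC.lf μ0 μ1) 1 1 (HC.lf μ0 μ1) (wpt e (mapF ES.cc s)) := by
    rw [hdl, mapF_sum, wpt_sum, Finset.sum_eq_single 0]
    · rw [map_vr, (hq _).2, map_pow, hl2, hl1, hμ', hw]
      simp only [one_pow, zero_mul, mul_zero, Nat.add_sub_cancel, Nat.sub_zero]
      obtain ⟨v1, v2⟩ := vr_hom (a + b) b 0 e μ0 μ1 (mapF ES.cc s)
      exact Prod.ext (hc_self v1) (hc_self v2)
    · intro i hi h0
      rw [map_vr, (hq _).2, map_pow, hl2, hl1, hμ', hw, one_pow]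
      obtain ⟨v1, v2⟩ := vr_hom (a + b) b (b * i) (e + 1 - 1 - i * (a + b)) μ0 μ1 (mapF ES.cc s)
      have h1 : i * (a + b) ≤ e + 1 - 1 :=
        (Nat.le_div_iff_mul_le (by omega)).1 (Nat.lt_succ_iff.1 (Finset.mem_range.1 hi))
      have h2 : 1 ≤ i * (a + b) := Nat.mul_pos (by omega) (by omega)
      exact Prod.ext (hc_ne v1 (by omega)) (hc_ne v2 (by omega))
    · intro h0
      exact absurd (Finset.mem_range.2 (Nat.succ_pos _)) h0
  have e0 : (C m0 : R2 k) = (1 + C g) * C μ0 := by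
    rw [← C_1, ← map_add, ← map_mul, hμ0, mul_div_cancel₀ _ hg1]
  have e1 : (C m1 : R2 k) = (1 + C g) * C μ1 := by
    rw [← C_1, ← map_add, ← map_mul, hμ1, mul_div_cancel₀ _ hg1]
  refine ⟨l0 + PowerSeries.X ^ j * PowerSeries.C μ0, l1 + PowerSeries.X ^ j * PowerSeries.C μ1,
    r - dl, A + C g * (HC.lf μ0 μ1 * hc (e + 1) f), ⟨M.j1, ?_, ?_, M.red,
      ⟨M.deg.1.sub hD.1, M.deg.2.sub hD.2⟩, ?_⟩, ?_, ?_⟩
  · rw [map_add, map_mul, hX, M.c0, zero_mul, add_zero]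
  · rw [map_add, map_mul, hX, M.c1, zero_mul, add_zero]
  · rw [hl', key, M.eq, smul_sub, ← hl]
    abel
  · refine hA.add (IsHomogeneous.C_mul ?_ _)
    rw [add_comm (e + 1) 1]
    exact (lf_hom _ _).mul (hc_hom _ _)
  · have sp : wpt (e + 1) (mapF ES.cc (r - dl)) =
        wpt (e + 1) (mapF ES.cc r) - wpt (e + 1) (mapF ES.cc dl) := by
      refine Prod.ext ?_ ?_ <;> simp only [wpt, mapF, Prod.fst_sub, Prod.snd_sub, map_sub]
    rw [sp, hr, top, vr_one]
    refine Prod.ext ?_ ?_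
    · simp only [fm, d1, Prod.fst_add, Prod.fst_sub, map_add, pderiv_C, pderiv_mul, lf_y,
        zero_add, one_mul]
      simp only [HC.lf, e0, e1, wpt] at s3 ⊢
      linear_combination (-(C μ0 * X 0 + C μ1 * X 1)) * s1 + C μ1 * s3
    · simp only [fm, d1, Prod.snd_add, Prod.snd_sub, map_add, pderiv_C, pderiv_mul, lf_x,
        zero_add, one_mul]
      simp only [HC.lf, e0, e1, wpt] at s3 ⊢
      linear_combination (-(C μ0 * X 0 + C μ1 * X 1)) * s2 - C μ0 * s3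

end Pool.Agent.MP_05b4bd_ag.RV
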