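import Pool.Agent.MP_05b4bd_ag.rr.Bas

/-! Change of the centre and of the symmetric form of the model. -/

namespace Pool.Agent.MP_05b4bd_ag.RV

open MvPolynomial HC
open ES hiding Gen Ob Inf
open PC3 (Fm fm d1 DF mapF)
open scoped PowerSeries

namespace Mdl2

section
variable {A B : Type} [CommRing A] [CommRing B]

/-- The derivative in the direction `e`. -/
noncomputable def dr (e : Fin 2 → A) (u : R2 A) : R2 A :=
  C (e 0) * pderiv 0 u + C (e 1) * pderiv 1 u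

theorem tr_exp (t : A) (e : Fin 2 → A) (u : R2 A) :
    ∃ q, tr (fun i => t * e i) u = u + C t * dr e u + C t * (C t * q) := by
  induction u using MvPolynomial.induction_on with
  | C r => exact ⟨0, by simp [tr, dr]⟩
  | add p q hp hq =>
    obtain ⟨a, ha⟩ := hp
    obtain ⟨b, hb⟩ := hq
    exact ⟨a + b, by rw [map_add, ha, hb]; simp only [dr, map_add]; ring⟩
  | mul_X p i hp =>
    obtain ⟨a, ha⟩ := hp
    have hx : tr (fun i => t * e i) (X i : R2 A) = X i + C t * C (e i) := by simp [tr]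
    have hd : dr e (p * X i) = dr e p * X i + p * C (e i) := by
      fin_cases i <;> simp [dr] <;> ring
    exact ⟨a * X i + dr e p * C (e i) + a * (C t * C (e i)), by rw [map_mul, ha, hx, hd]; ring⟩

theorem wpt_lin (n : ℕ) (t : A) (u v : Fm A) :
    wpt n (u + (C t : R2 A) • v) = wpt n u + (C t : R2 A) • wpt n v :=
  Prod.ext (by simp [wpt, hc_add]) (by simp [wpt, hc_add])

theorem mdl_lin (d a b : ℕ) (l : R2 A) (t : A) (u v : Fm A) :
    mdl d a b l (u + (C t : R2 A) • v) = mdl d a b l u + (C t : R2 A) • mdl d a b l v := by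
  simp only [mdl, Finset.smul_sum, ← Finset.sum_add_distrib]
  refine Finset.sum_congr rfl fun j _ => ?_
  rw [wpt_lin]
  generalize wpt (d - 1 - j * (a + b)) u = x
  generalize wpt (d - 1 - j * (a + b)) v = y
  refine Prod.ext ?_ ?_ <;> simp [fm, cE] <;> ring

theorem map_mdl (φ : A →+* B) (d a b : ℕ) (l : R2 A) (u : Fm A) :
    mapF φ (mdl d a b l u) = mdl d a b (map φ l) (mapF φ u) := by
  have hs : ∀ (s : Finset ℕ) (g : ℕ → Fm A), mapF φ (∑ j ∈ s, g j) = ∑ j ∈ s, mapF φ (g j) :=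
    fun s g => Prod.ext (by simp [mapF, Prod.fst_sum]) (by simp [mapF, Prod.snd_sum])
  rw [mdl, mdl, hs]
  refine Finset.sum_congr rfl fun j _ => ?_
  rw [PC3.mapF_smul, PC3.mapF_sub, PC3.mapF_smul, PC3.mapF_fm]
  simp [mapF, wpt, cE, hc_map]

theorem map_dr (φ : A →+* B) (e : Fin 2 → A) (u : R2 A) :
    map φ (dr e u) = dr (fun i => φ (e i)) (map φ u) := by
  simp [dr, pderiv_map]

theorem DL_cancel [IsDomain A] {t : A} (ht : t ≠ 0) {n : ℕ} {u : R2 A} (h : DL n (C t * u)) :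
    DL n u := fun m hm => by
  have := h m hm
  rw [coeff_C_mul] at this
  exact (mul_eq_zero.1 this).resolve_left ht

end

end Mdl2

open Mdl2 in
theorem mdl2S (h : Mdl0Stmt) : Mdl2Stmt := by
  intro k _ _ d a b j f w s r l0 l1 c0 c1 s0 hd M hw hf hr
  set t : k⟦X⟧ := PowerSeries.X ^ j with ht
  have t0 : cc t = 0 := cc_X_pow M.j1
  have T0 : map (cc : k⟦X⟧ →+* k) (C t : R2 k⟦X⟧) = 0 := by rw [map_C, t0, C_0]
  let e : Fin 2 → k⟦X⟧ := ![-PowerSeries.C c0, -PowerSeries.C c1]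
  let s1 : Fm k⟦X⟧ := mapF PowerSeries.C s0
  have hs1 : mapF cc s1 = s0 := Prod.ext (PC3.map_lift _) (PC3.map_lift _)
  obtain ⟨q1, h1⟩ := tr_exp t e w.1
  obtain ⟨q2, h2⟩ := tr_exp t e w.2
  let Z : Fm k⟦X⟧ := r + (dr e w.1, dr e w.2) + (C t : R2 k⟦X⟧) • (q1, q2) -
    mdl d a b (1 + HC.lf l0 l1) s1
  have hZ : mapF cc Z = 0 := by
    have w1 : map cc w.1 = pderiv 1 f := congrArg Prod.fst hf
    have w2 : map cc w.2 = -pderiv 0 f := congrArg Prod.snd hf
    have hl : map (cc : k⟦X⟧ →+* k) (1 + HC.lf l0 l1) = 1 := by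
      rw [map_add, map_one, map_lf, M.c0, M.c1]
      simp [HC.lf]
    have hg : mapF cc (dr e w.1, dr e w.2) =
        -d1 (C c0 * pderiv 0 f + C c1 * pderiv 1 f) := by
      refine Prod.ext ?_ ?_
      · change map cc (dr e w.1) = _
        rw [map_dr, w1]
        simp [dr, e, d1, HC.pderiv_comm]
        ring
      · change map cc (dr e w.2) = _
        rw [map_dr, w2]
        simp [dr, e, d1, HC.pderiv_comm]
    rw [PC3.mapF_sub, PC3.mapF_add, PC3.mapF_add, PC3.mapF_smul, T0, zero_smul, map_mdl, hl, hs1,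
      hr, hg]
    abel
  obtain ⟨r1, e1⟩ := PC3.ker_dvd (congrArg Prod.fst hZ : map cc Z.1 = 0)
  obtain ⟨r2, e2⟩ := PC3.ker_dvd (congrArg Prod.snd hZ : map cc Z.2 = 0)
  have eZ : Z = (C PowerSeries.X : R2 k⟦X⟧) • (r1, r2) := Prod.ext e1 e2
  have etr : trF (fun i => t * e i) w =
      w + (C t : R2 k⟦X⟧) • ((dr e w.1, dr e w.2) + (C t : R2 k⟦X⟧) • (q1, q2)) :=
    Prod.ext (by simp only [trF, h1]; simp; ring) (by simp only [trF, h2]; simp; ring)
  have key : trF (fun i => t * e i) w =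
      mdl d a b (1 + HC.lf l0 l1) (s + (C t : R2 k⟦X⟧) • s1) +
        (C (PowerSeries.X ^ (j + 1)) : R2 k⟦X⟧) • (r1, r2) := by
    rw [pow_succ, C_mul, mul_smul, ← eZ, mdl_lin, etr]
    conv_lhs => rw [show w + (C t : R2 k⟦X⟧) • ((dr e w.1, dr e w.2) +
      (C t : R2 k⟦X⟧) • (q1, q2)) = mdl d a b (1 + HC.lf l0 l1) s + (C t : R2 k⟦X⟧) • r +
      (C t : R2 k⟦X⟧) • ((dr e w.1, dr e w.2) + (C t : R2 k⟦X⟧) • (q1, q2)) from
      congrArg (· + _) M.eq]
    simp only [Z, smul_add, smul_sub]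
    abel
  refine ⟨fun i => t * e i, s + (C t : R2 k⟦X⟧) • s1, (r1, r2),
    fun i => by rw [map_mul, t0, zero_mul], by omega, M.c0, M.c1, ?_, ?_, key⟩
  · rw [PC3.mapF_add, PC3.mapF_smul, T0, zero_smul, add_zero, M.red]
  · have hD : DF (d + 1) ((C (PowerSeries.X ^ (j + 1)) : R2 k⟦X⟧) • (r1, r2)) := by
      rw [← sub_eq_iff_eq_add'.2 key]
      exact PC3.DF.sub ⟨tr_DL _ hw.1, tr_DL _ hw.2⟩ (h.1 _ d a b l0 l1 _ hd).2
    have hx : (PowerSeries.X ^ (j + 1) : k⟦X⟧) ≠ 0 := pow_ne_zero _ PowerSeries.X_ne_zero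
    exact ⟨DL_cancel hx hD.1, DL_cancel hx hD.2⟩

end Pool.Agent.MP_05b4bd_ag.RV
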