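import Pool.Agent.MP_05b4bd_ag.rr.Bas
import Pool.Agent.MP_05b4bd_ag.esc3.S2c

/-! The data at infinity attached to a deformation and a frame. -/

namespace Pool.Agent.MP_05b4bd_ag.RV

open PowerSeries LaurentSeries HC
open ES hiding Gen Ob Inf
open ES.U (TM Cr hom)
open PC3 (Fm fm d1 DF sub2 pb mapF Van CenK iS)

namespace Mki
open Pool.Agent.MP_05b4bd_ag.ES.Mkinf hiding core

variable {k L : Type} [Field k] [CharZero k] [Field L]

theorem core (e : ℕ) (o : Ob k (e + 1)) (κ : k →+* L) (D : L →+ L) (x y : AA L)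
    (hc0 : Curve κ D (hc (e + 1) o.f) (c00 x) (c00 y)) (hg : gf κ (c00 x) (c00 y) = ⊤)
    (h : hev ((C : L →+* L⟦X⟧).comp κ) (e + 1) o.f (red x) (red y) X = 1) :
    ∃ I : Inf k (e + 1) L, I.κ = κ ∧ I.D = D ∧ I.f = o.f ∧ I.g = MvPolynomial.map cc o.gt ∧
      I.x0 = red x ∧ I.y0 = red y ∧
      I.a = aF ((C : L⟦X⟧ →+* AA L).comp (map κ)) (e + 1) o.P o.Q x y ∧
      I.b = bF ((C : L⟦X⟧ →+* AA L).comp (map κ)) (e + 1) o.P o.Q (cw D) x y := by
  have : CharZero L := charZero_of_injective_ringHom κ.injective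
  have hD := hc0.1
  have hκ := hc0.2.1
  set a := aF ((C : L⟦X⟧ →+* AA L).comp (map κ)) (e + 1) o.P o.Q x y with ha
  set b := bF ((C : L⟦X⟧ →+* AA L).comp (map κ)) (e + 1) o.P o.Q (cw D) x y with hb
  have ra : red a = -(((e + 1 : ℕ) : L⟦X⟧) * X) := by
    rw [ha, red, map_aF]
    exact aF_red (P := o.P) (Q := o.Q) (f := o.f) (x := red x) (y := red y) _ (cc (R := k)) _
      (red_comp κ)
      (fun r => by rw [RingHom.comp_apply, dX_C]) e o.gen.2.1 o.rP o.rQ h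
  have rb : red b = 0 := by
    have := map_bF (e + 1) ((C : L⟦X⟧ →+* AA L).comp (map κ)) (cc : L⟦X⟧ →+* L) (D := cw D)
      (D' := D) (θ := 1) (fun c => by rw [cc_cw, one_mul]) o.P o.Q x y
    rw [map_one, one_mul] at this
    rw [hb, red, this]
    exact bF_red (P := o.P) (Q := o.Q) (f := o.f) (x := red x) (y := red y) _ (cc (R := k)) _
      (red_comp κ) hD
      (fun r => by rw [RingHom.comp_apply, cw_C, hκ, map_zero]) e o.gen.2.1 o.rP o.rQ h
  have fr0 : EL κ (red x) (red y) o.f = wL L (-((e + 1 : ℕ) : ℤ)) := by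
    have h1 := congrArg (coeL L) h
    have hx : ∀ z : L⟦X⟧, coeL L z = wL L 1 * (coeL L z * wL L (-1)) := fun z => by
      rw [mul_left_comm, wL_mul_neg, mul_one]
    have h2 : (coeL L).comp ((C : L →+* L⟦X⟧).comp κ) = (cL L).comp κ :=
      RingHom.ext fun c => coeL_C _
    rw [map_hev, h2, coeL_X, hx (red x), hx (red y), hev_eq _ _ o.gen.2.1, map_one, wL_pow,
      mul_one] at h1
    have h3 := wL_mul_neg (R := L) ((e + 1 : ℕ) : ℤ)
    change MvPolynomial.eval₂ _ _ _ = _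
    linear_combination (wL L (-((e + 1 : ℕ) : ℤ))) * h1 - (MvPolynomial.eval₂ ((cL L).comp κ)
      ![coeL L (red x) * wL L (-1), coeL L (red y) * wL L (-1)] o.f) * h3
  have hd : ((e + 1 : ℕ) : L) ≠ 0 := Nat.cast_ne_zero.2 (Nat.succ_ne_zero e)
  have ca : cc (iT a) = -(cL L ((e + 1 : ℕ) : L) * wL L 1) := by
    rw [cc_iT, ra, map_neg, map_mul, coeL_X, map_natCast, map_natCast]
  have ca' : cc (iT a) * -(cL L ((e + 1 : ℕ) : L)⁻¹ * wL L (-1)) = 1 := by
    rw [ca, neg_mul_neg, mul_mul_mul_comm, ← map_mul, mul_inv_cancel₀ hd, map_one, wL_mul_neg,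
      one_mul]
  have ua : IsUnit (iT a) :=
    PowerSeries.isUnit_iff_constantCoeff.2 (IsUnit.of_mul_eq_one _ ca')
  obtain ⟨ai, hai⟩ := ua.exists_right_inv
  have cai : cc ai = -(cL L ((e + 1 : ℕ) : L)⁻¹ * wL L (-1)) := by
    have h1 := congrArg cc hai
    rw [map_mul, map_one] at h1
    linear_combination (-cc ai) * ca' + -(cL L ((e + 1 : ℕ) : L)⁻¹ * wL L (-1)) * h1
  set φ : k⟦X⟧ →+* TT L := map ((cL L).comp κ) with hφ
  set E : R2 k⟦X⟧ →+* TT L := MvPolynomial.eval₂Hom φ ![fr x, fr y] with hE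
  have hEa : ∀ u, E u = MvPolynomial.eval₂ φ ![fr x, fr y] u := fun u => rfl
  set W : TT L := C (wL L 1) with hW
  have ea : iT a = W ^ (e + 1 + 1) *
      (E o.P * cw (thL L) (fr y) - E o.Q * cw (thL L) (fr x)) := by
    rw [ha, aF, map_sub, map_mul, map_mul, iT_hev κ _ o.dP, iT_hev κ _ o.dQ, th_fr, th_fr, hEa, hEa]
    ring
  have eb : iT b = W ^ (e + 1 + 1) *
      (E o.P * cw (cwL D) (fr y) - E o.Q * cw (cwL D) (fr x)) := by
    rw [hb, bF, map_sub, map_mul, map_mul, iT_hev κ _ o.dP, iT_hev κ _ o.dQ, D_fr hD, D_fr hD, hEa,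
      hEa]
    ring
  have k1 : ∀ r, cw (cwL D) (φ r) = 0 := fun r => by
    ext1 n
    rw [coeff_cw, hφ, coeff_map, RingHom.comp_apply, cwL_cL, hκ, map_zero, map_zero]
  have k2 : ∀ r, cw (thL L) (φ r) = 0 := fun r => by
    ext1 n
    rw [coeff_cw, hφ, coeff_map, RingHom.comp_apply, thL_cL, map_zero]
  have d1 := hD.coefL.coefw.eval₂ φ k1 (fr x) (fr y) o.H
  have d2 := (isDer_thL (R := L)).coefw.eval₂ φ k2 (fr x) (fr y) o.H
  have d3 := congrArg E o.eq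
  rw [vf, map_add, map_mul, map_mul, map_mul, hE, MvPolynomial.eval₂Hom_C, ← hE, map_pow, hφ,
    map_X] at d3
  simp only [← hEa] at d1 d2
  set j : TT L := cw (thL L) (fr x) * cw (cwL D) (fr y) - cw (cwL D) (fr x) * cw (thL L) (fr y)
    with hj
  have hV : VT D (ai * iT b) (E o.H) = X ^ o.n * -(j * E o.gt * W ^ (e + 1 + 1) * ai) := by
    rw [VT, d1, d2]
    have h1 : (1 : TT L) = ai * (W ^ (e + 1 + 1) *
      (E o.P * cw (thL L) (fr y) - E o.Q * cw (thL L) (fr x))) := by rw [← ea, mul_comm, hai]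
    rw [eb, hj]
    linear_combination (E (MvPolynomial.pderiv 0 o.H) * cw (cwL D) (fr x) +
      E (MvPolynomial.pderiv 1 o.H) * cw (cwL D) (fr y)) * h1 -
      (cw (thL L) (fr x) * cw (cwL D) (fr y) - cw (cwL D) (fr x) * cw (thL L) (fr y)) *
        W ^ (e + 1 + 1) * ai * d3
  have rX : cc (-(j * E o.gt * W ^ (e + 1 + 1) * ai)) =
      GLc κ (e + 1) D (red x) (red y) (MvPolynomial.map cc o.gt) := by
    have h1 : cc W ^ (e + 1 + 1) * wL L (-1) = wL L ((e + 1 : ℕ) : ℤ) := by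
      rw [hW, constantCoeff_C, wL_pow, ← wL_add]
      congr 1
      push_cast
      ring
    rw [map_neg, map_mul, map_mul, map_mul, cai, hEa, hφ, cc_E, hj, map_sub, map_mul, map_mul,
      cc_cw, cc_cw, cc_cw, cc_cw, cc_fr, cc_fr, map_pow, GLc, ← h1]
    change _ = MvPolynomial.eval₂ _ _ _ * _
    ring
  refine ⟨⟨κ, D, o.f, MvPolynomial.map cc o.gt, red x, red y, a, b, ai * iT b, E o.H,
    -(j * E o.gt * W ^ (e + 1 + 1) * ai), o.n, o.gen, o.ng, o.jac, ?_, ?_, fr0, ra, rb, ?_, o.n1,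
    ?_, hV, rX⟩, rfl, rfl, rfl, rfl, rfl, rfl, rfl, rfl⟩
  · rwa [cc_red, cc_red]
  · rwa [cc_red, cc_red]
  · rw [← mul_assoc, hai, one_mul]
  · rw [hEa, hφ, cc_E, o.rH]
    exact fr0

end Mki

theorem mkiS : MkiStmt := by
  intro k L _ _ _ d o κ D x y hd hF
  obtain ⟨e, rfl⟩ : ∃ e, d = e + 1 := ⟨d - 1, by omega⟩
  exact Mki.core e o κ D x y hF.cv hF.gb hF.pu

end Pool.Agent.MP_05b4bd_ag.RV
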