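import Pool.Agent.MP_05b4bd_ag.rr.Spec5

/-! The displacement vanishes at the critical points: assembly. -/

namespace Pool.Agent.MP_05b4bd_ag.RV

open PowerSeries LaurentSeries HC
open ES hiding Gen Ob Inf

namespace Neck

theorem vS_dvd {E : Type} [CommRing E] (d : Fin 2 → E →+ E) {A B : Fin 2 → E⟦X⟧} {t : E⟦X⟧}
    (h : ∀ i, t ∣ A i - B i) (y : E⟦X⟧) : t ∣ vS d A y - vS d B y := by
  convert ((h 0).mul_right (cw (d 0) y)).add ((h 1).mul_right (cw (d 1) y)) using 1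
  simp only [vS]
  ring

theorem start {k : Type} [Field k] {f : R2 k} {p : Fin 2 → k} {e : R2 k →+* AA k}
    {d : Fin 2 → AA k →+ AA k} (M : Mc f p e d) {A : Fin 2 → (R2 k)⟦X⟧}
    (hA : ∀ i, constantCoeff (A i) = ham f i) : Nfa 1 (fA e d A) 0 (C (jM d)) 0 := by
  have fi : ∀ i, e (MvPolynomial.pderiv i f) = d i (C X) * X + C X * d i X := fun i => by
    rw [← M.two.der i, ← M.nf, M.two.ext, map_sub, MvPolynomial.pderiv_C, sub_zero]
  have cX : cw (dX k) X = 0 := cw_X isDer_dX.one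
  have cm : ∀ i, constantCoeff (map e (A i)) = e (ham f i) := fun i => congrArg e (hA i)
  refine ⟨fun _ => map_zero _, M.unit.map C, map_zero _, ?_, ?_⟩ <;> rw [pow_one, X_dvd_iff] <;>
    simp [vS, fA, cw_C, dA, vr, dX_C, dX_X, cX, cm, ham, fi, jM] <;> ring

end Neck

open Neck in
theorem neckS (h1 : McStmt) (h2 : NfStmt) (h3 : NzzStmt) (h4 : EnStmt) (h5 : EnxStmt)
    (h6 : TrpStmt) (h7 : ConjStmt) (h8 : RelStmt) (h9 : ResnStmt) (ha : PrimeStmt)
    (_hb : EvsStmt) : NeckStmt := by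
  intro k _ _ _ d f S dF p A B m ξ μ hd tm hF hp mel hm hAB hξ hμ hE hS
  obtain ⟨n, q, hq⟩ := tm.cr
  obtain ⟨e, dd, M⟩ := h1 k f p hp (by
    obtain ⟨i, rfl⟩ := UM.cr_mem hq hp
    exact hq.hess i)
  obtain ⟨δ, lam, z, NA, -⟩ := h2 k 0 _ _ _ _ (start M mel.1)
  obtain ⟨m, rfl⟩ := Nat.exists_eq_add_of_le' hm
  have dv : ∀ y, X ^ (m + 1) ∣ vS (dA k) (fA e dd B) y - vS (dA k) (fA e dd A) y :=
    vS_dvd _ fun i => vS_dvd _ (fun l => by
      simpa using _root_.map_dvd (PowerSeries.map e) (dvd_sub_comm.1 (hAB l))) _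
  obtain ⟨δ', lam', z', NB, hδ⟩ := h2 k m (fA e dd B) δ lam z
    ⟨NA.d0, NA.unit, NA.z0, NA.ea ▸ dv _, NA.eb ▸ dv _⟩
  rw [← M.val]
  refine h9 k _ _ z z' hm NA.z0 NB.z0 (h3 k d f p e dd A δ lam z hd tm M mel NA) fun i => ?_
  obtain ⟨j, dT, N⟩ := h4 k i
  have pr := ha k d f (MvPolynomial.eval p f) hd tm
  obtain ⟨hu, d', D', hv⟩ := h5 k f p e dd i j dT M N pr
  obtain ⟨ξ', μ', E', hS'⟩ := h6 k _ (j.comp e) d' dF f S _ A B _ ξ μ D' hF pr hu hξ hμ hm hE hS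
  obtain ⟨ψ, p1, p2, p3, p4, p5⟩ := h7 k _ (j.comp e) d' f A B _ ξ' μ' D' hm E'
  refine h8 k i j dT _ _ δ δ' lam lam' z z' (e S) _ ψ μ' N hm NA NB hδ p1
    (fun c => by simpa only [RingHom.comp_apply, M.con, N.con] using p2 c) p3 ?_
    fun y => by rw [← hv, ← hv, p5]
  obtain ⟨w, hw⟩ := p3 (C (j.comp e f))
  have e1 : ψ (C X) - C X = X ^ (m + 1) * w := by
    have e0 : (X : TT k) =
        j.comp e f - j.comp e (MvPolynomial.C (MvPolynomial.eval p f)) := by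
      rw [← map_sub, RingHom.comp_apply, M.nf, N.pi]
    rw [← hw, e0, map_sub, map_sub, p2]
    ring
  have e2 : constantCoeff w = j (e S) := by
    have := congrArg (coeff (0 + (m + 1))) hw
    rw [coeff_X_pow_mul, map_sub, p4, zero_add, hS', coeff_succ_C, sub_zero] at this
    rw [← coeff_zero_eq_constantCoeff_apply, ← this, RingHom.comp_apply]
  rw [e1, ← mul_sub, pow_succ _ (m + 1)]
  exact mul_dvd_mul_left _ (X_dvd_iff.2 (by rw [map_sub, e2, constantCoeff_C, sub_self]))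

end Pool.Agent.MP_05b4bd_ag.RV
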