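import Pool.Agent.MP_05b4bd_ag.rr.Spec5

/-! The normal form near a critical point. -/

namespace Pool.Agent.MP_05b4bd_ag.RV

open PowerSeries LaurentSeries HC
open ES hiding Gen Ob Inf
open ES.U (TM Cr hom)

namespace Nfm
variable {k : Type} [Field k]

theorem vadd (A : Fin 2 → (AA k)⟦X⟧) (u v : (AA k)⟦X⟧) :
    vS (dA k) A (u + v) = vS (dA k) A u + vS (dA k) A v := by
  simp only [vS, map_add]; ring

theorem vpow (A : Fin 2 → (AA k)⟦X⟧) (m : ℕ) (u : (AA k)⟦X⟧) :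
    vS (dA k) A (X ^ m * u) = X ^ m * vS (dA k) A u := by
  simp only [vS, cw_X_pow_mul]; ring

theorem ccv (A : Fin 2 → (AA k)⟦X⟧) (u : (AA k)⟦X⟧) : cc (vS (dA k) A u) =
    cc (A 0) * cw (dX k) (cc u) + cc (A 1) * dX k⟦X⟧ (cc u) := by
  simp only [vS, map_add, map_mul, cc_cw]; rfl

theorem mp {δ : Fin 2 → (AA k)⟦X⟧} (h : ∀ i, cc (δ i) = 0) :
    (C (C X) + δ 0) * (C X + δ 1) ∈ up (up (up (⊥ : Ideal k))) := by
  refine Ideal.mem_comap.2 (mem_up2.2 ?_)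
  rw [map_mul, map_add, map_add, h, h]
  simp [c00_apply]

theorem mt : (X : (AA k)⟦X⟧) ∈ up (up (up (⊥ : Ideal k))) := by
  refine Ideal.mem_comap.2 (mem_up2.2 ?_)
  simp

theorem zX {δ : Fin 2 → (AA k)⟦X⟧} : zv δ X = X := ev2_X _ mt

theorem zC {δ : Fin 2 → (AA k)⟦X⟧} (h : ∀ i, cc (δ i) = 0) (ζ : k⟦X⟧) :
    cc (zv δ (C ζ)) = dg k ζ := by
  have e : cc ((C (C X) + δ 0) * (C X + δ 1)) = (C X * X : AA k) := by
    rw [map_mul, map_add, map_add, h, h]; simp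
  have m : cc ((C (C X) + δ 0) * (C X + δ 1)) ∈ up (up (⊥ : Ideal k)) := mp h
  rw [zv, ev2_C _ mt, hom_ev _ (up (up (⊥ : Ideal k))) (mp h) cc m, e, dg]
  congr 2

theorem zsub {δ δ' : Fin 2 → (AA k)⟦X⟧} (h : ∀ i, cc (δ i) = 0) (h' : ∀ i, cc (δ' i) = 0) {m : ℕ}
    (hd : ∀ i, X ^ m ∣ δ' i - δ i) (y : AA k) : X ^ m ∣ zv δ' y - zv δ y := by
  obtain ⟨r, r', e⟩ := ev2_sub _ (φ := (C : AA k →+* (AA k)⟦X⟧).comp CC) (mp h') (mp h) mt mt y
  rw [zv, zv, e, sub_self, zero_mul, add_zero]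
  obtain ⟨a, ha⟩ := hd 0
  obtain ⟨b, hb⟩ := hd 1
  refine Dvd.dvd.mul_right ⟨a * (C X + δ' 1) + (C (C X) + δ 0) * b, ?_⟩ _
  linear_combination (C X + δ' 1) * ha + (C (C X) + δ 0) * hb

theorem zsub' {δ δ' : Fin 2 → (AA k)⟦X⟧} (h : ∀ i, cc (δ i) = 0) (h' : ∀ i, cc (δ' i) = 0) {m : ℕ}
    (hd : ∀ i, X ^ m ∣ δ' i - δ i) {z : AA k} (hz : cc z = 0) :
    X ^ (m + 1) ∣ zv δ' z - zv δ z := by
  obtain ⟨y, rfl⟩ := X_dvd_iff.2 hz
  rw [map_mul, map_mul, zX, zX, ← mul_sub, pow_succ']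
  exact mul_dvd_mul_left _ (zsub h h' hd y)

theorem ccz (δ : Fin 2 → (AA k)⟦X⟧) {z : AA k} (hz : cc z = 0) : cc (zv δ z) = 0 := by
  obtain ⟨y, rfl⟩ := X_dvd_iff.2 hz
  rw [map_mul, zX, map_mul, constantCoeff_X, zero_mul]

theorem ccd {R : Type} [CommRing R] {m : ℕ} {a b : R⟦X⟧} (h : X ^ (m + 1) ∣ a - b) :
    cc a = cc b := by
  have := X_dvd_iff.1 ((dvd_pow_self X m.succ_ne_zero).trans h)
  rwa [map_sub, sub_eq_zero] at this

variable {A δ δ' : Fin 2 → (AA k)⟦X⟧} {lam lam' : (AA k)⟦X⟧} {z z' : AA k} {m n : ℕ}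

theorem mono (h : Nfa n A δ lam z) (hm : m ≤ n) : Nfa m A δ lam z :=
  ⟨h.d0, h.unit, h.z0, (pow_dvd_pow _ hm).trans h.ea, (pow_dvd_pow _ hm).trans h.eb⟩

theorem cong (h : Nfa (m + 1) A δ lam z) (hd : ∀ i, X ^ (m + 1) ∣ δ' i - δ i)
    (hl : X ^ (m + 1) ∣ lam' - lam) (hz : X ^ (m + 1) ∣ z' - z) : Nfa (m + 1) A δ' lam' z' := by
  have d0 : ∀ i, cc (δ' i) = 0 := fun i => (ccd (hd i)).trans (h.d0 i)
  have w1 : X ^ (m + 1) ∣ zv δ' z' - zv δ' z := by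
    have := map_dvd (zv δ') hz
    rwa [map_pow, zX, map_sub] at this
  obtain ⟨w, hw⟩ := dvd_add w1 (zsub h.d0 d0 hd z)
  obtain ⟨a, ha⟩ := hd 0
  obtain ⟨b, hb⟩ := hd 1
  obtain ⟨l, hl'⟩ := hl
  obtain ⟨E0, e0⟩ := h.ea
  obtain ⟨E1, e1⟩ := h.eb
  have a1 : δ' 0 = δ 0 + X ^ (m + 1) * a := by linear_combination ha
  have b1 : δ' 1 = δ 1 + X ^ (m + 1) * b := by linear_combination hb
  have l1 : lam' = lam + X ^ (m + 1) * l := by linear_combination hl'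
  have w2 : zv δ' z' = zv δ z + X ^ (m + 1) * w := by linear_combination hw
  refine ⟨d0, ?_, (ccd hz).trans h.z0, ⟨E0 + vS (dA k) A a - lam * a - l * (C (C X) + δ' 0), ?_⟩,
    ⟨E1 + vS (dA k) A b - lam * (C X + δ 1) * w - (lam * b + l * (C X + δ' 1)) * (zv δ' z' - 1),
      ?_⟩⟩
  · rw [isUnit_iff_constantCoeff] at *
    have := ccd (m := m) ⟨l, hl'⟩
    exact this ▸ isUnit_iff_constantCoeff.1 h.unit
  · rw [a1, ← add_assoc, vadd, vpow, l1]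
    linear_combination e0
  · rw [w2, b1, ← add_assoc, vadd, vpow, l1]
    linear_combination e1

theorem dvd_succ {T B : (AA k)⟦X⟧} (e : T = X ^ (m + 1) * B) (hB : cc B = 0) :
    X ^ (m + 1 + 1) ∣ T := by
  rw [e, pow_succ _ (m + 1)]
  exact mul_dvd_mul_left _ (X_dvd_iff.2 hB)

theorem step [CharZero k] (H : HomStmt) (h : Nfa (m + 1) A δ lam z) : ∃ δ' lam' z',
    Nfa (m + 1 + 1) A δ' lam' z' ∧ (∀ i, X ^ (m + 1) ∣ δ' i - δ i) ∧
      X ^ (m + 1) ∣ lam' - lam ∧ X ^ (m + 1) ∣ z' - z := by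
  obtain ⟨j, hj⟩ := (isUnit_iff_constantCoeff.1 h.unit).exists_right_inv
  have c0 : cc (A 0) = cc lam * C X := by
    have := ccd h.ea
    rw [ccv, map_mul, map_add, h.d0, add_zero, constantCoeff_C, cw_C, dX_X, dX_C] at this
    simpa using this
  have c1 : cc (A 1) = -(cc lam * X) := by
    have := ccd h.eb
    rw [ccv, map_mul, map_mul, map_add, h.d0, add_zero, constantCoeff_C, cw_X (isDer_dX.one), dX_X,
      map_sub, ccz _ h.z0] at this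
    simpa using this
  have cv : ∀ ε : AA k, cc (vS (dA k) A (C ε)) = cc lam * Lh ε := fun ε => by
    rw [ccv, c0, c1, constantCoeff_C, Lh]; ring
  obtain ⟨E0, e0⟩ := h.ea
  obtain ⟨E1, e1⟩ := h.eb
  obtain ⟨ε0, l0, q0⟩ := (H k).2.1 (-(j * cc E0))
  obtain ⟨ε1, l1, q1⟩ := (H k).2.2 (-(j * cc E1))
  let δ' : Fin 2 → (AA k)⟦X⟧ := ![δ 0 + X ^ (m + 1) * C ε0, δ 1 + X ^ (m + 1) * C ε1]
  have a1 : δ' 0 = δ 0 + X ^ (m + 1) * C ε0 := rfl
  have b1 : δ' 1 = δ 1 + X ^ (m + 1) * C ε1 := rfl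
  have hd : ∀ i, X ^ (m + 1) ∣ δ' i - δ i :=
    Fin.forall_fin_two.2 ⟨⟨C ε0, by linear_combination a1⟩, ⟨C ε1, by linear_combination b1⟩⟩
  have hl : X ^ (m + 1) ∣ (lam + X ^ (m + 1) * C (cc lam * dg k l0)) - lam :=
    ⟨_, add_sub_cancel_left _ _⟩
  have hz : X ^ (m + 1) ∣ (z + X ^ (m + 1) * C (l0 - l1)) - z := ⟨_, add_sub_cancel_left _ _⟩
  have g := cong h hd hl hz
  refine ⟨δ', _, _, ⟨g.d0, g.unit, g.z0, ?_, ?_⟩, hd, hl, hz⟩
  · refine dvd_succ (B := E0 + vS (dA k) A (C ε0) - lam * C ε0 -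
      C (cc lam * dg k l0) * (C (C X) + δ' 0)) ?_ ?_
    · rw [a1, ← add_assoc, vadd, vpow]
      linear_combination e0
    · simp only [map_sub, map_add, map_mul, cv, g.d0, constantCoeff_C]
      linear_combination cc lam * q0 - cc E0 * hj
  · obtain ⟨r, hr⟩ := zsub' h.d0 g.d0 hd h.z0
    have w2 : zv δ' (z + X ^ (m + 1) * C (l0 - l1)) =
        zv δ z + X ^ (m + 1) * (zv δ' (C (l0 - l1)) + X * r) := by
      rw [map_add, map_mul, map_pow, zX]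
      linear_combination hr
    refine dvd_succ (B := E1 + vS (dA k) A (C ε1) -
      lam * (C X + δ 1) * (zv δ' (C (l0 - l1)) + X * r) -
      (lam * C ε1 + C (cc lam * dg k l0) * (C X + δ' 1)) *
        (zv δ' (z + X ^ (m + 1) * C (l0 - l1)) - 1)) ?_ ?_
    · rw [w2, b1, ← add_assoc, vadd, vpow]
      linear_combination e1
    · have s1 := ccz δ' g.z0
      have s2 := zC g.d0 (l0 - l1)
      rw [map_sub (dg k)] at s2
      generalize zv δ' (z + X ^ (m + 1) * C (l0 - l1)) = a at s1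
      generalize zv δ' (C (l0 - l1)) = b at s2
      simp only [map_sub, map_add, map_mul, cv, g.d0, h.d0, s1, s2, constantCoeff_C,
        constantCoeff_X, map_one]
      linear_combination cc lam * q1 - cc E1 * hj

end Nfm

theorem nfS (h : HomStmt) : NfStmt := by
  intro k _ _ n A δ lam z h0
  have st : ∀ (m : ℕ) (x : (Fin 2 → (AA k)⟦X⟧) × (AA k)⟦X⟧ × AA k),
      Nfa (m + 1) A x.1 x.2.1 x.2.2 → ∃ y : (Fin 2 → (AA k)⟦X⟧) × (AA k)⟦X⟧ × AA k,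
      Nfa (m + 1 + 1) A y.1 y.2.1 y.2.2 ∧ (∀ i, X ^ (m + 1) ∣ y.1 i - x.1 i) ∧
      X ^ (m + 1) ∣ y.2.1 - x.2.1 ∧ X ^ (m + 1) ∣ y.2.2 - x.2.2 := fun m x hx => by
    obtain ⟨a, b, c, e⟩ := Nfm.step h hx
    exact ⟨(a, b, c), e⟩
  choose! F hF using st
  let f : ℕ → (Fin 2 → (AA k)⟦X⟧) × (AA k)⟦X⟧ × AA k :=
    fun i => Nat.rec (δ, lam, z) (fun i y => F (n + i) y) i
  have f1 : ∀ i, Nfa (n + i + 1) A (f i).1 (f i).2.1 (f i).2.2 := fun i => by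
    induction i with
    | zero => exact h0
    | succ i ih => exact (hF _ _ ih).1
  have f2 := fun i => (hF (n + i) (f i) (f1 i)).2
  have le : ∀ i, i ≤ n + i + 1 := fun i => by omega
  have l1 : ∀ j, ∃ l, ∀ i, X ^ i ∣ l - (f i).1 j := fun j =>
    lim_dvd X (f := fun i => (f i).1 j) fun i => (pow_dvd_pow _ (le i)).trans ((f2 i).1 j)
  choose δ' hδ using l1
  obtain ⟨lam', hl⟩ := lim_dvd X (f := fun i => (f i).2.1)
    fun i => (pow_dvd_pow _ (le i)).trans (f2 i).2.1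
  obtain ⟨z', hz⟩ := lim_dvd X (f := fun i => (f i).2.2)
    fun i => (pow_dvd_pow _ (le i)).trans (f2 i).2.2
  have g : ∀ i, Nfa (i + 1) A δ' lam' z' := fun i =>
    Nfm.cong (Nfm.mono (f1 (i + 1)) (by omega)) (fun j => hδ j (i + 1)) (hl (i + 1)) (hz (i + 1))
  refine ⟨δ', lam', z', ⟨(g 0).d0, (g 0).unit, (g 0).z0, sub_eq_zero.1 (haus_dvd X fun i => ?_),
    sub_eq_zero.1 (haus_dvd X fun i => ?_)⟩, fun j => ?_⟩
  · exact (pow_dvd_pow _ i.le_succ).trans (g i).ea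
  · exact (pow_dvd_pow _ i.le_succ).trans (g i).eb
  · have t : ∀ i, X ^ (n + 1) ∣ (f i).1 j - δ j := fun i => by
      induction i with
      | zero => exact (sub_self (δ j)).symm ▸ dvd_zero _
      | succ i ih =>
        have := dvd_add ((pow_dvd_pow _ (show n + 1 ≤ n + i + 1 by omega)).trans ((f2 i).1 j)) ih
        rwa [sub_add_sub_cancel] at this
    have := dvd_add (hδ j (n + 1)) (t (n + 1))
    rwa [sub_add_sub_cancel] at this

end Pool.Agent.MP_05b4bd_ag.RV
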