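import Pool.Agent.MP_05b4bd_ag.rr.Spec3
import Mathlib.RingTheory.Polynomial.GaussLemma
import Mathlib.FieldTheory.Minpoly.Field

/-! The norm of a generator over the subfield fixed by a family of embeddings. -/

namespace Pool.Agent.MP_05b4bd_ag.RV

open Polynomial

namespace NormS

/-- A divisor of a product of different linear factors is determined by its roots. -/
theorem eq_prod {Ω ι : Type} [Field Ω] [Fintype ι] {a : ι → Ω} (ha : Function.Injective a)
    {p : Polynomial Ω} (hp : p.Monic) (hd : p ∣ ∏ i, (X - C (a i))) (Γ : Finset ι)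
    (h : ∀ i, i ∈ Γ ↔ p.IsRoot (a i)) : p = ∏ i ∈ Γ, (X - C (a i)) := by
  classical
  refine eq_of_monic_of_associated hp (monic_prod_of_monic _ _ fun i _ => monic_X_sub_C _)
    (associated_of_dvd_dvd ?_ ?_)
  · rw [← Finset.prod_mul_prod_compl Γ] at hd
    refine IsCoprime.dvd_of_dvd_mul_right (IsCoprime.prod_right fun i hi => ?_) hd
    exact ((irreducible_X_sub_C (a i)).coprime_iff_not_dvd.2 fun hh =>
      Finset.mem_compl.1 hi ((h i).2 (dvd_iff_isRoot.1 hh))).symm
  · exact Finset.prod_dvd_of_coprime (fun i _ j _ hij => pairwise_coprime_X_sub_C ha hij)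
      fun i hi => dvd_iff_isRoot.2 ((h i).1 hi)

end NormS

theorem normS : NormStmt := by
  intro B A Ω ι _ _ _ _ _ _ _ g w φ i0 T Γ hgen hg hinj hw hΓ
  classical
  let K := FractionRing A
  let L := FractionRing Ω
  have iA : Function.Injective (algebraMap A K) := IsFractionRing.injective A K
  have iΩ : Function.Injective (algebraMap Ω L) := IsFractionRing.injective Ω L
  have hi : ∀ i, Function.Injective ((algebraMap Ω L).comp (φ i)) := fun i => iΩ.comp (hinj i)
  let ψ : ι → K →+* L := fun i => IsFractionRing.lift (hi i)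
  have hψ : ∀ i c, ψ i (algebraMap A K c) = algebraMap Ω L (φ i c) := fun i c =>
    IsFractionRing.lift_algebraMap _ _
  let E : Subfield K := ⨅ i : Γ, (ψ i).eqLocusField (ψ i0)
  have hE : ∀ x, x ∈ E ↔ ∀ i ∈ Γ, ψ i x = ψ i0 x := fun x =>
    Subfield.mem_iInf.trans ⟨fun h i hi => h ⟨i, hi⟩, fun h i => h i.1 i.2⟩
  let gE : B →+* E := ((algebraMap A K).comp g).codRestrict E fun b =>
    (hE _).2 fun i _ => by rw [RingHom.comp_apply, hψ, hψ, hg]
  let ψ0 : E →+* L := (ψ i0).comp E.subtype
  have ev1 : ∀ F : B[X], aeval (algebraMap A K w) (F.map gE) = algebraMap A K (F.eval₂ g w) :=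
    fun F => by rw [aeval_def, eval₂_map, hom_eval₂]; rfl
  have ev2 : ∀ i (F : B[X]), ((F.map gE).map ψ0).eval (algebraMap Ω L (φ i w)) =
      algebraMap Ω L (φ i (F.eval₂ g w)) := fun i F => by
    rw [map_map, eval_map, hom_eval₂, hom_eval₂]
    congr 1
    ext b
    change ψ i0 (algebraMap A K (g b)) = algebraMap Ω L (φ i (g b))
    rw [hψ, hg i]
  have ev3 : ∀ G : Fin (Fintype.card ι) → B,
      (∑ j, C (G j) * X ^ (j : ℕ)).eval₂ g w = ∑ j, g (G j) * w ^ (j : ℕ) := fun G => by
    simp only [eval₂_finsetSum, eval₂_mul, eval₂_C, eval₂_X_pow]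
  have ha : Function.Injective fun i => algebraMap Ω L (φ i w) := iΩ.comp hw
  obtain ⟨G, hG⟩ := hgen (w ^ Fintype.card ι)
  obtain ⟨P, hP⟩ : ∃ P : B[X], P = X ^ Fintype.card ι - ∑ j, C (G j) * X ^ (j : ℕ) := ⟨_, rfl⟩
  have : Nontrivial B := g.domain_nontrivial
  have mP : P.Monic := by rw [hP]; exact monic_X_pow_sub (degree_sum_fin_lt G)
  have dP : P.natDegree = Fintype.card ι := by
    rw [hP]
    refine natDegree_eq_of_degree_eq_some ?_
    rw [degree_sub_eq_left_of_degree_lt (by rw [degree_X_pow]; exact degree_sum_fin_lt G),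
      degree_X_pow]
  have zP : P.eval₂ g w = 0 := by rw [hP, eval₂_sub, eval₂_X_pow, ev3, ← hG, sub_self]
  have zP' : aeval (algebraMap A K w) (P.map gE) = 0 := by rw [ev1, zP, map_zero]
  have int : IsIntegral E (algebraMap A K w) := ⟨P.map gE, mP.map _, zP'⟩
  have fP : (P.map gE).map ψ0 = ∏ i, (X - C (algebraMap Ω L (φ i w))) := by
    refine eq_of_monic_of_dvd_of_natDegree_le (monic_prod_of_monic _ _ fun i _ => monic_X_sub_C _)
      ((mP.map _).map _) (Finset.prod_dvd_of_coprime
        (fun i _ j _ hij => pairwise_coprime_X_sub_C ha hij) fun i _ => dvd_iff_isRoot.2 ?_) ?_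
    · rw [IsRoot, ev2, zP, map_zero, map_zero]
    · rw [natDegree_finsetProd_X_sub_C_eq_card, (mP.map _).natDegree_map, mP.natDegree_map, dP]
      rfl
  have dv := minpoly.dvd E _ zP'
  have mp := minpoly.monic int
  have fp : (minpoly E (algebraMap A K w)).map ψ0 = ∏ i ∈ Γ, (X - C (algebraMap Ω L (φ i w))) := by
    refine NormS.eq_prod ha (mp.map _) (fP ▸ map_dvd ψ0 dv) Γ fun i => ⟨fun hi => ?_, fun hi => ?_⟩
    · have h := congrArg (ψ i) (minpoly.aeval E (algebraMap A K w))
      rw [aeval_def, hom_eval₂, map_zero, hψ] at h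
      rw [IsRoot, eval_map, ← h]
      congr 1
      ext x
      exact ((hE x).1 x.2 i hi).symm
    · refine (hΓ i).2 fun c hc => iΩ ?_
      obtain ⟨G', hG'⟩ := hgen c
      have cE : algebraMap A K c ∈ E := (hE _).2 fun l hl => by rw [hψ, hψ, (hΓ l).1 hl c hc]
      have d1 := minpoly.dvd E (algebraMap A K w)
        (p := (∑ j, C (G' j) * X ^ (j : ℕ)).map gE - C ⟨_, cE⟩) (by
          rw [map_sub, ev1, ev3, ← hG', aeval_C]
          exact sub_self _)
      have d2 := hi.dvd (map_dvd ψ0 d1)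
      rw [IsRoot, Polynomial.map_sub, eval_sub, ev2, ev3, ← hG', map_C, eval_C, sub_eq_zero] at d2
      exact d2.trans (hψ i0 c)
  have dK : (minpoly E (algebraMap A K w)).map E.subtype ∣ (P.map g).map (algebraMap A K) := by
    have := map_dvd E.subtype dv
    rwa [map_map, show E.subtype.comp gE = (algebraMap A K).comp g from rfl, ← map_map] at this
  obtain ⟨p, hp⟩ := IsIntegrallyClosed.eq_map_mul_C_of_dvd K (mP.map g) dK
  rw [(mp.map _).leadingCoeff, C_1, mul_one] at hp
  have zp : p.eval w = 0 := iA (by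
    rw [← eval₂_at_apply, ← eval_map, hp, eval_map, map_zero]
    exact minpoly.aeval E (algebraMap A K w))
  have e0 : w * -(p.divX.eval w) = p.coeff 0 := by
    have := congrArg (eval w) (X_mul_divX_add p)
    rw [eval_add, eval_mul, eval_X, eval_C, zp] at this
    linear_combination -this
  have e1 : algebraMap A K (p.coeff 0) = ((minpoly E (algebraMap A K w)).coeff 0 : E) := by
    rw [← coeff_map, hp, coeff_map]
    rfl
  have e2 : φ i0 (p.coeff 0) = (-1) ^ Γ.card * ∏ i ∈ Γ, φ i w := iΩ (by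
    have := congrArg (eval 0) fp
    rw [← coeff_zero_eq_eval_zero, coeff_map, eval_prod] at this
    simp only [eval_sub, eval_X, eval_C, zero_sub] at this
    rw [← hψ, e1, map_mul, map_pow, map_neg, map_one, map_prod, ← Finset.prod_neg]
    exact this)
  have e3 : w * ((-1) ^ Γ.card * -(p.divX.eval w)) = (-1) ^ Γ.card * p.coeff 0 := by
    rw [← e0]
    ring
  refine ⟨(-1) ^ Γ.card * -(p.divX.eval w), ?_, fun i hi => ?_⟩
  · rw [e3, map_mul, e2, map_pow, map_neg, map_one, ← mul_assoc, ← mul_pow]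
    simp
  · have e4 : φ i (p.coeff 0) = φ i0 (p.coeff 0) := iΩ (by
      rw [← hψ, ← hψ, e1]
      exact (hE _).1 ((minpoly E (algebraMap A K w)).coeff 0).2 i hi)
    simp only [e3, map_mul, map_pow, map_neg, map_one, e4]

end Pool.Agent.MP_05b4bd_ag.RV
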