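import Pool.Agent.MP_05b4bd_ag.rr.Spec3
import Pool.Agent.MP_05b4bd_ag.esc.S2b

/-! All deck transformations of a least first integral fix all first integrals. -/

namespace Pool.Agent.MP_05b4bd_ag.RV

open PowerSeries LaurentSeries HC
open ES hiding Gen Ob Inf
open ES.Deck

namespace Npr

variable {U : Type} [Field U]

theorem cc_red0 {r : AA U} (h : cc r = 0) : cc (red r) = 0 := by
  rw [cc_red, c00_apply, h, map_zero]

theorem ord1 {σ : U⟦X⟧} (h0 : cc σ = 0) (h1 : coeff 1 σ ≠ 0) : OrdIs 1 σ :=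
  ⟨h1, fun j hj => by
    obtain rfl : j = 0 := by omega
    rwa [coeff_zero_eq_constantCoeff_apply]⟩

theorem ord_prod {ι : Type} (σ : ι → U⟦X⟧) (h : ∀ i, OrdIs 1 (σ i)) (s : Finset ι) :
    OrdIs s.card (∏ i ∈ s, σ i) := by
  classical
  induction s using Finset.induction_on with
  | empty => exact ⟨by simp, fun j hj => absurd hj (Nat.not_lt_zero j)⟩
  | insert a s ha ih =>
    rw [Finset.prod_insert ha, Finset.card_insert_of_notMem ha, mul_comm]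
    exact (ih.mul (h a)).1

theorem der_prod {R ι : Type} [CommRing R] {D : R →+ R} (hD : IsDer D) (σ : ι → R)
    (h : ∀ i, D (σ i) = 0) (s : Finset ι) : D (∏ i ∈ s, σ i) = 0 := by
  classical
  induction s using Finset.induction_on with
  | empty => exact hD.one
  | insert a s ha ih => rw [Finset.prod_insert ha, hD, h, ih, zero_mul, mul_zero, add_zero]

theorem sb_red [CharZero U] {σ : U⟦X⟧} (h0 : cc σ = 0) (h1 : σ ≠ 0) {Φ : AA U →+* TT U}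
    (hΦ : IsOut 0 Φ (p0 σ)) {c : AA U} (e : Φ c = iT c) : sb σ (red c) = red c := by
  have := charL (κ := U)
  have k := hΦ.cc_eq (p0_ne h0 h1 X_ne_zero) c
  rw [e, cc_iT] at k
  exact (coeL_inj k).symm

theorem red_der {D : U →+ U} {a b r : AA U} (ha : red a ≠ 0) (hb : red b = 0)
    (h : FIe (cw D) a (X * b) r) : cw D (red r) = 0 := by
  have e := congrArg red h
  rw [map_mul, map_mul, map_mul, hb, mul_zero, zero_mul] at e
  have e1 : cw D (red r) = red (cw (cw D) r) :=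
    cw_map' (φ := (cc : U⟦X⟧ →+* U)) (D := cw D) (D' := D) (fun u => (cc_cw D u).symm) r
  rw [e1]
  exact (mul_eq_zero.1 e).resolve_left ha

theorem sig_der [CharZero U] {D : U →+ U} (hD : IsDer D) {σ f : U⟦X⟧} {n : ℕ} (hn : 1 ≤ n)
    (h0 : cc σ = 0) (h1 : σ ≠ 0) (hf : OrdIs n f) (e : sb σ f = f) (hd : cw D f = 0) :
    cw D σ = 0 := by
  have k := cw_sb h0 hD f
  rw [e, hd, map_zero, zero_add] at k
  refine (mul_eq_zero.1 k.symm).resolve_left fun z => dX_ne hn hf (sb_inj h0 h1 ?_)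
  rw [z, map_zero]

/-- A quotient coordinate of order `m` gives a first integral of order `m`. -/
theorem hasFI [CharZero U] (h7 : SolveStmt) {D : U →+ U} (hD : IsDer D) {a b ρ B : AA U} {m : ℕ}
    (h : Rho D a b ρ B m) : HasFI D a b m := by
  obtain ⟨V, _, D1, i, hE, hS⟩ := h7 U D hD
  obtain ⟨Ψ, p0, p1, p2⟩ := hS a b ρ B m h
  have c1 : cc (mA i ρ) = 0 := by
    rw [mA, ← coeff_zero_eq_constantCoeff_apply, coeff_map, coeff_zero_eq_constantCoeff_apply,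
      h.c0, map_zero]
  have e : red (sb (mA i ρ) Ψ) = sb (red (mA i ρ)) (red Ψ) := map_sb c1 cc Ψ
  refine ⟨V, inferInstance, D1, i, _, hE, by rw [cc_sb c1, p0], p2, ?_⟩
  rw [e, p1, sb_X (cc_red0 c1), red_mA]
  exact ord_map i h.ord

/-- Two functions of the same order, one a series in the other, differ by a unit. -/
theorem unit_of {r ρ G : AA U} {n : ℕ} (c0 : cc r = 0) (c1 : cc ρ = 0) (hr : OrdIs n (red r))
    (hρ : OrdIs n (red ρ)) (e : r = sb ρ G) : ∃ u, IsUnit u ∧ ρ = u * r := by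
  have g0 : cc G = 0 := by rw [← cc_sb c1, ← e, c0]
  obtain ⟨G1, rfl⟩ := X_dvd_iff.2 g0
  rw [map_mul, sb_X c1] at e
  obtain ⟨w, hw, -⟩ := hρ.fac
  have k : cc (red (sb ρ G1)) ≠ 0 := by
    intro z
    refine hr.1 ?_
    rw [e, map_mul, hw, mul_assoc]
    have k1 := coeff_X_pow_mul (w * red (sb ρ G1)) n 0
    rw [zero_add] at k1
    rw [k1, coeff_zero_eq_constantCoeff_apply, map_mul]
    exact mul_eq_zero_of_right _ z
  have hu : IsUnit (sb ρ G1) := by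
    rw [isUnit_iff_constantCoeff, isUnit_iff_constantCoeff]
    rw [cc_red, c00_apply] at k
    exact k.isUnit
  obtain ⟨u, hu1⟩ := hu.exists_left_inv
  refine ⟨u, IsUnit.of_mul_eq_one _ hu1, ?_⟩
  rw [e, mul_comm ρ, ← mul_assoc, hu1, one_mul]

/-- A non-trivial deck transformation fixes all first integrals. -/
theorem nontriv [CharZero U] (h1 : ES.EvenStmt) (h2 : ES.DiscStmt) {D : U →+ U} (hD : IsDer D)
    {a b r : AA U} {d n : ℕ} {ω : U} (hd : 1 ≤ d) (ha : red a = -((d : U⟦X⟧) * X))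
    (nd : ¬ a ∣ X * b) (hr : FIe (cw D) a (X * b) r) (hn : 1 ≤ n) (ho : OrdIs n (red r))
    (hω : IsPrimitiveRoot ω n) {σ : Fin n → U⟦X⟧} {Φ : Fin n → AA U →+* TT U} {i0 : Fin n}
    (dk : Dks r σ Φ i0) (hσ : ∀ i, coeff 1 (σ i) = ω ^ (i : ℕ)) :
    ∃ j : Fin n, (j : ℕ) ≠ 0 ∧ ∀ c, FIe (cw D) a (X * b) c → Φ j c = iT c := by
  have := charL (κ := U)
  have : NeZero n := ⟨by omega⟩
  have sn : ∀ i, σ i ≠ 0 := fun i z => dk.s1 i (by rw [z, map_zero])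
  obtain ⟨S, _, _, ψ1, ψ2, hR, hne, hfi⟩ := h1 U D a (X * b) (-(d : U⟦X⟧)) hD (by
      rw [← map_natCast (C : U →+* U⟦X⟧)]
      exact ((IsUnit.mk0 _ (Nat.cast_ne_zero.2 (by omega))).map C).neg)
    (by rw [ha, neg_mul]) nd
  have f1 := hfi r hr
  obtain ⟨Ψ, σ0, t1, t2, t3, t4, t5, t6⟩ := h2 U S n ω r ψ1 ψ2 hn hω ho hR.1
    (hR.2.2 _ (by rw [c00_apply, dk.c0, map_zero]) f1) (fun e => hne (by rw [e]))
  obtain ⟨j, hj, ej⟩ := hω.eq_pow_of_pow_eq_one t3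
  have e0 : σ0 = σ ⟨j, hj⟩ := by
    refine sig_unique hn ho t2 (dk.s0 _) (fun e => ?_) (by rw [hσ, ← ej]) ?_
    · rw [e, zero_pow (by omega)] at t3
      exact zero_ne_one t3
    · rw [t5, sb_red (dk.s0 _) (sn _) (dk.out _) (dk.fix _)]
  have e1 : Ψ = Φ ⟨j, hj⟩ :=
    (e0 ▸ t1).deck_unique (dk.out _) (p0_ne (dk.s0 _) (sn _) X_ne_zero)
      (p0_ne (dk.s0 _) (sn _) (dX_ne hn ho)) (by rw [(t6 _).2 f1, dk.fix])
  refine ⟨⟨j, hj⟩, fun z => t4 ?_, fun c hc => by rw [← e1]; exact (t6 c).2 (hfi c hc)⟩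
  rw [← ej, show j = 0 from z, pow_zero]

end Npr

open Npr in
theorem nprS (h1 : ES.EvenStmt) (h2 : ES.DiscStmt) (h3 : DeckrStmt) (h4 : VandStmt)
    (h5 : NormStmt) (h6 : QuoStmt) (h7 : SolveStmt) : NprStmt := by
  classical
  intro U _ _ D a b r d n ω hD hd ha hb nd hmin c0 hr ho hω
  have := charL (κ := U)
  have hn : 0 < n := by
    refine Nat.pos_of_ne_zero ?_
    rintro rfl
    exact ho.1 (by rw [coeff_zero_eq_constantCoeff_apply]; exact cc_red0 c0)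
  obtain ⟨σ, Φ, dk, hσ⟩ := (h4 U r).1 n hn ω hω c0 ho
  have sn : ∀ i, σ i ≠ 0 := fun i z => dk.s1 i (by rw [z, map_zero])
  have an : red a ≠ 0 := by rw [ha]; exact red_ne hd
  obtain ⟨w, hw⟩ := (isUnit_iff_constantCoeff.2 (iT_ne an).isUnit).exists_right_inv
  have hv : iT a * (w * iT b) = iT b := by rw [← mul_assoc, hw, one_mul]
  have sr : ∀ i, sb (σ i) (red r) = red r := fun i =>
    sb_red (dk.s0 i) (sn i) (dk.out i) (dk.fix i)
  have sd : ∀ i, cw D (σ i) = 0 := fun i =>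
    sig_der hD hn (dk.s0 i) (sn i) ho (sr i) (red_der an hb hr)
  have r0 : Rho D a b r 0 n := ⟨c0, ho, dvd_zero _, map_zero _, by
    rw [map_zero, mul_zero]; exact sub_eq_zero.2 hr⟩
  have hφ : ∀ i, ∃ φ : U⸨X⸩ →+* TT U, (∀ c, hat φ (iT c) = Φ i c) ∧
      ∀ z, VT D (w * iT b) (hat φ z) = hat φ (VT D (w * iT b) z) := fun i => by
    obtain ⟨Ψ, φ, k⟩ := h3 U D a b r 0 _ (σ i) n hD an hv hn r0 (dk.s0 i) (sn i) (sd i) (sr i)
    have e : Ψ = Φ i := k.out.deck_unique (dk.out i) (p0_ne (dk.s0 i) (sn i) X_ne_zero)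
      (p0_ne (dk.s0 i) (sn i) (dX_ne hn ho)) (by rw [k.fix, dk.fix])
    exact ⟨φ, e ▸ k.ext, k.vt⟩
  obtain ⟨j, j0, hj⟩ := nontriv h1 h2 hD hd ha nd hr hn ho hω dk hσ
  obtain ⟨v1, v2, v3, v4, v5, v6, -⟩ := (h4 U r).2 (Fin n) σ Φ _ dk
  obtain ⟨Γ, hΓ⟩ : ∃ Γ : Finset (Fin n), ∀ i, i ∈ Γ ↔
      ∀ c ∈ {c | FIe (cw D) a (X * b) c}, Φ i c = Φ ⟨0, hn⟩ c :=
    ⟨Finset.univ.filter fun i => ∀ c ∈ {c | FIe (cw D) a (X * b) c}, Φ i c = Φ ⟨0, hn⟩ c,
      fun i => by rw [Finset.mem_filter]; exact and_iff_right (Finset.mem_univ i)⟩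
  obtain ⟨q, q1, q2⟩ := h5 (AA U) (AA U) (TT U) (Fin n) (sb r) X Φ ⟨0, hn⟩ _ Γ v1
    (fun i G => by rw [v2, v2]) v3 v4 hΓ
  rw [dk.id] at q1 q2
  have m0 : (⟨0, hn⟩ : Fin n) ∈ Γ := (hΓ _).2 fun _ _ => rfl
  have mj : j ∈ Γ := (hΓ _).2 fun c hc => by rw [hj c hc, dk.id]
  have ρ0 : cc (X * q) = 0 := by rw [map_mul, constantCoeff_X, zero_mul]
  have ρr : red (X * q) = ∏ i ∈ Γ, σ i := coeL_inj (by
    rw [← cc_iT, q1, map_prod, map_prod]
    exact Finset.prod_congr rfl fun i _ => v5 i)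
  have ρo : OrdIs Γ.card (red (X * q)) := by
    rw [ρr]
    exact ord_prod σ (fun i => ord1 (dk.s0 i) (dk.s1 i)) Γ
  have two : 2 ≤ Γ.card := Finset.one_lt_card.2 ⟨j, mj, _, m0, fun z => j0 (by rw [z])⟩
  obtain ⟨B, hB⟩ := h6 U Γ D a b (X * q) _ d (fun i => σ i) (fun i => Φ i) ⟨_, m0⟩ hD hd ha hb nd hv
    ⟨ρ0, by rwa [Fintype.card_coe], fun i => dk.s0 i, fun i => dk.s1 i,
      fun i l z => Subtype.ext (dk.inj z), fun i => dk.out i, fun i => q2 i i.2, dk.id⟩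
    (by rwa [Fintype.card_coe]) (by rw [ρr]; exact der_prod hD.coefw σ sd Γ) fun i => hφ i
  rw [Fintype.card_coe] at hB
  have cn : Γ.card = n := le_antisymm (by simpa using Γ.card_le_univ)
    (not_lt.1 fun z => hmin _ z (hasFI h7 hD hB))
  have gu : Γ = Finset.univ := Finset.eq_univ_of_card Γ (by rw [cn, Fintype.card_fin])
  have ma : ∀ i, i ∈ Γ := fun i => gu ▸ Finset.mem_univ i
  rw [cn] at hB ρo two
  have dk' : Dks (X * q) σ Φ ⟨0, hn⟩ := ⟨ρ0, by rwa [Fintype.card_fin], dk.s0, dk.s1, dk.inj,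
    dk.out, fun i => q2 i (ma i), dk.id⟩
  obtain ⟨G, hG⟩ := ((h4 U _).2 (Fin n) σ Φ _ dk').2.2.2.2.2.1 r dk.fix
  obtain ⟨u, u1, u2⟩ := unit_of c0 ρ0 ho ρo hG
  exact ⟨two, fun r' h => v6 r' fun i => by rw [(hΓ i).1 (ma i) r' h, dk.id],
    σ, Φ, _, X * q, u, B, dk, hσ, by rw [q1, gu], u1, u2, hB⟩

end Pool.Agent.MP_05b4bd_ag.RV
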