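import Pool.Agent.MP_05b4bd_ag.rr.Bas

/-! The normalised radial frame of a symmetric polynomial. -/

namespace Pool.Agent.MP_05b4bd_ag.RV

open PowerSeries LaurentSeries HC
open ES hiding Gen Ob Inf
open ES.U (TM Cr hom)
open PC3 (Fm fm d1 DF sub2 pb mapF Van CenK iS)

namespace Nrf

variable {k L : Type} [Field k] [Field L]

/-- The homogenised polynomial along a ray, as a polynomial in the scaling factor. -/
noncomputable def q (c : ℕ → L) (d : ℕ) : Polynomial L⟦X⟧ :=
  ∑ e ∈ Finset.range (d + 1), Polynomial.monomial e (C (c e) * X ^ (d - e)) - 1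

theorem q_eval (c : ℕ → L) (d : ℕ) (p : L⟦X⟧) :
    (q c d).eval p = ∑ e ∈ Finset.range (d + 1), C (c e) * X ^ (d - e) * p ^ e - 1 := by
  simp only [q, Polynomial.eval_sub, Polynomial.eval_one, Polynomial.eval_finsetSum,
    Polynomial.eval_monomial]

theorem top (g : ℕ → L) (d : ℕ) :
    ∑ e ∈ Finset.range (d + 1), g e * (0 : L) ^ (d - e) = g d := by
  rw [Finset.sum_range_succ, Nat.sub_self, pow_zero, mul_one, Finset.sum_eq_zero, zero_add]
  intro e he
  rw [zero_pow (by have := Finset.mem_range.1 he; omega), mul_zero]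

theorem cc_eval (c : ℕ → L) (d : ℕ) {p : L⟦X⟧} (hp : cc p = 1) :
    cc ((q c d).eval p) = c d - 1 := by
  rw [q_eval, map_sub, map_one, map_sum, ← top c d]
  simp only [map_mul, map_pow, constantCoeff_C, constantCoeff_X, hp, one_pow, mul_one]

theorem cc_der (c : ℕ → L) (d : ℕ) {p : L⟦X⟧} (hp : cc p = 1) :
    cc ((q c d).derivative.eval p) = c d * d := by
  rw [← top (fun e => c e * e) d]
  simp only [q, Polynomial.derivative_sub, Polynomial.derivative_one, sub_zero,
    Polynomial.derivative_sum, Polynomial.derivative_monomial, Polynomial.eval_finsetSum,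
    Polynomial.eval_monomial, map_sum, map_mul, map_pow, constantCoeff_C, constantCoeff_X, hp,
    one_pow, mul_one, map_natCast]
  exact Finset.sum_congr rfl fun e _ => by ring

theorem q_hev (κ : k →+* L) (d : ℕ) (f : R2 k) (x y : L) (p : L⟦X⟧) :
    (q (fun e => evp κ x y (hc e f)) d).eval p =
      hev ((C : L →+* L⟦X⟧).comp κ) d f (p * C x) (p * C y) X - 1 := by
  rw [q_eval, hev]
  refine congrArg (· - 1) (Finset.sum_congr rfl fun e _ => ?_)
  rw [k4_hom _ (hc_hom e f), ← k4_map]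
  change _ = p ^ e * C (evp κ x y (hc e f)) * _
  ring

theorem resc_C (a b : L) : rescale a (C b) = C b := by
  ext j
  rw [coeff_rescale, coeff_C]
  split_ifs with h
  · rw [h, pow_zero, one_mul]
  · rw [mul_zero]

theorem q_rot (c : ℕ → L) (d : ℕ) (a : L) (h : ∀ e ≤ d, c e * a ^ (d - e) = c e) (p : L⟦X⟧) :
    rescale a ((q c d).eval p) = (q c d).eval (rescale a p) := by
  rw [q_eval, q_eval, map_sub, map_one, map_sum]
  refine congrArg (· - 1) (Finset.sum_congr rfl fun e he => ?_)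
  rw [map_mul, map_mul, map_pow, map_pow, resc_C, rescale_X, mul_pow, ← map_pow, ← mul_assoc,
    ← map_mul, h e (Nat.le_of_lt_succ (Finset.mem_range.1 he))]

theorem fix {d e : ℕ} {f : R2 k} {ζ : k} (hz : ζ ≠ 0) (he : e ≤ d)
    (hs : hom ζ 0 f = MvPolynomial.C (ζ ^ d) * f) :
    hc e f * MvPolynomial.C (ζ ^ (d - e)) = hc e f := by
  have h := hc_homz ζ e f
  rw [hs, hc_C_mul] at h
  obtain ⟨m, rfl⟩ := Nat.exists_eq_add_of_le he
  rw [Nat.add_sub_cancel_left]
  have hn : (MvPolynomial.C (ζ ^ e) : R2 k) ≠ 0 := by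
    rw [Ne, MvPolynomial.C_eq_zero]
    exact pow_ne_zero _ hz
  refine mul_left_cancel₀ hn ?_
  rw [← h, pow_add, map_mul]
  ring

end Nrf

open Nrf

theorem nrfS : NrfStmt := by
  intro k L _ _ _ d n f ζ κ D x y d3 gen adm prim sym cv gb cst
  have : CharZero L := (RingHom.charZero_iff κ.injective).1 inferInstance
  have hd : evp κ x y (hc d f) = 1 := cv.2.2.1
  have hz : ζ ≠ 0 := prim.ne_zero (by have := adm.1; omega)
  have un : ∀ p : L⟦X⟧, cc p = 1 →
      IsUnit ((q (fun e => evp κ x y (hc e f)) d).derivative.eval p) := fun p hp => by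
    refine isUnit_iff_constantCoeff.2 (IsUnit.mk0 _ ?_)
    have := cc_der (fun e => evp κ x y (hc e f)) d hp
    rw [hd, one_mul] at this
    exact this ▸ Nat.cast_ne_zero.2 (by omega)
  obtain ⟨p, p0, hp⟩ := hensel (up (⊥ : Ideal L)) (q (fun e => evp κ x y (hc e f)) d) (a := 1)
    (by rw [mem_up_bot, cc_eval _ _ (map_one _), hd, sub_self]) (un 1 (map_one _))
  rw [mem_up_bot, map_sub, map_one, sub_eq_zero] at p0
  obtain ⟨v, hv⟩ := (isUnit_iff_constantCoeff.2 (p0 ▸ isUnit_one : IsUnit (cc p))).exists_left_inv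
  have rot : rescale (κ ζ) p = p := by
    refine (hensel_unique (up (⊥ : Ideal L)) (q (fun e => evp κ x y (hc e f)) d) (un p p0) ?_
      ?_).symm
    · rw [mem_up_bot, map_sub, sub_eq_zero, ← coeff_zero_eq_constantCoeff_apply, coeff_rescale,
        pow_zero, one_mul, coeff_zero_eq_constantCoeff_apply]
    · rw [← q_rot _ _ _ fun e he => ?_, hp, map_zero]
      have h := congrArg (evp κ x y) (fix hz he sym)
      rw [map_mul] at h
      rw [← map_pow]
      refine Eq.trans ?_ h
      congr 1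
      exact (MvPolynomial.eval₂Hom_C _ _ _).symm
  rw [q_hev, sub_eq_zero] at hp
  exact ⟨⟨f, ζ, κ, D, x, y, p, X * v, d3, gen, adm, prim, sym, cv, gb, cst, p0, hp,
    by rw [mul_assoc, hv, mul_one], rot⟩, rfl, rfl, rfl, rfl, rfl, rfl⟩

end Pool.Agent.MP_05b4bd_ag.RV
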