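import Pool.Agent.MP_05b4bd_ag.rr.Spec5

/-! The normal form near a critical point has no first integral. -/

namespace Pool.Agent.MP_05b4bd_ag.RV

open PowerSeries LaurentSeries HC
open ES hiding Gen Ob Inf
open ES.U (TM Cr hom)

namespace Nzz

variable {k : Type} [Field k]

theorem a00 : dA k 0 (C X) = 1 := by
  change cw (dX k) (C X) = 1
  rw [cw_C, dX_X, map_one]

theorem a01 : dA k 0 X = 0 := cw_X isDer_dX.one

theorem a10 : dA k 1 (C X) = 0 := dX_C _

theorem a11 : dA k 1 X = 1 := dX_X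

theorem der (i : Fin 2) : IsDer (dA k i) := by
  fin_cases i
  exacts [isDer_dX.coefw, isDer_dX]

theorem con (i : Fin 2) (c : k) : dA k i (CC c) = 0 := by
  fin_cases i
  · change cw (dX k) (C (C c)) = 0
    rw [cw_C, dX_C, map_zero]
  · exact dX_C _

theorem two0 : D2 (MvPolynomial.eval₂Hom CC (vr k)) (dA k) := by
  refine ⟨⟨der, fun u => (dX_cw _ u).symm⟩, fun i u => ?_⟩
  have h := (der i).eval₂ CC (con i) (C X) X u
  change dA k i (MvPolynomial.eval₂ CC ![C X, X] u) =
    MvPolynomial.eval₂ CC ![C X, X] (MvPolynomial.pderiv i u)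
  rw [h]
  fin_cases i
  · change _ * dA k 0 _ + _ * dA k 0 _ = MvPolynomial.eval₂ _ _ (MvPolynomial.pderiv 0 u)
    rw [a00, a01, mul_one, mul_zero, add_zero]
  · change _ * dA k 1 _ + _ * dA k 1 _ = MvPolynomial.eval₂ _ _ (MvPolynomial.pderiv 1 u)
    rw [a10, a11, mul_one, mul_zero, zero_add]

/-- The field in the chart. -/
theorem chart {f : R2 k} {p : Fin 2 → k} {e : R2 k →+* AA k} {d : Fin 2 → AA k →+ AA k}
    (M : Mc f p e d) (A : Fin 2 → (R2 k)⟦X⟧) (y : (AA k)⟦X⟧) :
    vS (dA k) (fA e d A) y = vS d (fun l => map e (A l)) y := by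
  have h : ∀ i, cw (d i) y = C (d i (C X)) * cw (dA k 0) y + C (d i X) * cw (dA k 1) y :=
    fun i => by
      refine PowerSeries.ext fun n => ?_
      rw [map_add, coeff_C_mul, coeff_C_mul, coeff_cw, coeff_cw, coeff_cw, ← M.ch2]
  simp only [vS, fA, vr, cw_C, h, Matrix.cons_val_zero, Matrix.cons_val_one]
  ring

end Nzz

open Nzz in
theorem nzzS (h1 : PerStmt) (h2 : TayStmt) (h3 : TaydStmt) : NzzStmt := by
  intro k _ _ d f p e dd A δ lam z hd hf M ⟨cA, H, g, n, _, _, hH, hg⟩ N hz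
  let _ : Algebra ℚ (AA k) := ((CC : k →+* AA k).comp (algebraMap ℚ k)).toAlgebra
  obtain ⟨p1, p2⟩ := h1 k d f (cc g) p e dd hd hf M hg
  obtain ⟨t1, -, t3⟩ := h2 (AA k) (dA k) two0.toCm
  obtain ⟨φ, hφ⟩ := t1 δ N.d0
  obtain ⟨inj, sur⟩ := (t3 δ φ hφ).2.2.2.2.1
  obtain ⟨s1, s2⟩ := h3 k (AA k) (MvPolynomial.eval₂Hom CC (vr k)) (dA k)
    (fun i => C (vr k i) + δ i) φ two0 (by
      simpa only [MvPolynomial.eval₂Hom_X', add_sub_cancel_left] using hφ)
  have sx : ∀ i, hat φ (C (vr k i)) = C (vr k i) + δ i := fun i => by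
    have h := s1 (C (MvPolynomial.X i))
    rwa [map_C, evS, hat_C _ (MvPolynomial.X i), MvPolynomial.eval₂Hom_X',
      MvPolynomial.eval₂Hom_X'] at h
  have x0 : hat φ (C (C X)) = C (C X) + δ 0 := sx 0
  have x1 : hat φ (C X) = C X + δ 1 := sx 1
  have ea := N.ea
  have eb := N.eb
  rw [hz, map_zero] at eb
  have key : ∀ y, vS (dA k) (fA e dd A) (hat φ y) =
      lam * hat φ (C (C X) * cw (dA k 0) y - C X * cw (dA k 1) y) := fun y => by
    rw [s2, map_sub, map_mul, map_mul, x0, x1]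
    change _ * vS _ _ (C (C X) + δ 0) + _ * vS _ _ (C X + δ 1) = _
    rw [ea, eb]
    ring
  have cl : cc lam = jM dd := by
    have h := congrArg cc ea
    rw [chart M, vS, map_add, map_mul, map_mul, map_mul, cc_cw, cc_cw, map_add, N.d0, add_zero,
      constantCoeff_C, K3.cc_map, K3.cc_map, cA, cA] at h
    have h' := p1 (C X)
    have h0 : (C X : AA k) ≠ 0 := fun h => X_ne_zero (R := k) (C_injective (h.trans (map_zero _).symm))
    have hL : Lh (C X : AA k) = C X := by
      change C X * dA k 0 _ - X * dA k 1 _ = _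
      rw [a00, a10, mul_one, mul_zero, sub_zero]
    refine mul_right_cancel₀ h0 ?_
    rw [← h, ← hL, ← h', hL]
    simp only [ham, D0, Matrix.cons_val_zero, Matrix.cons_val_one, map_neg]
    ring
  obtain ⟨y, hy⟩ := sur (map e H)
  obtain ⟨l, hl⟩ := N.unit.exists_right_inv
  obtain ⟨w, hw⟩ := sur (l * map e g)
  have e1 : vS dd (fun l => map e (A l)) (map e H) = X ^ n * map e g := by
    have nat : ∀ i u, dd i (e u) = e (pd k i u) := M.two.ext
    have h := congrArg (map e) hH
    rw [map_mul, map_pow, map_X] at h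
    rw [← h]
    simp only [vS, map_add, map_mul, cw_map' (nat _)]
  have e2 : C (C X) * cw (dA k 0) y - C X * cw (dA k 1) y = X ^ n * w := inj (by
    have h := key y
    rw [hy, chart M, e1] at h
    rw [map_mul, map_pow, hat_X, hw]
    linear_combination (-l) * h - hat φ (C (C X) * cw (dA k 0) y - C X * cw (dA k 1) y) * hl)
  have e3 : Lh (coeff n y) = cc w := by
    have h := congrArg (coeff n) e2
    have h' := coeff_X_pow_mul w n 0
    rw [zero_add, coeff_zero_eq_constantCoeff] at h'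
    rw [h', map_sub, coeff_C_mul, coeff_C_mul, coeff_cw, coeff_cw] at h
    exact h
  have e4 := congrArg cc hw
  have e5 := congrArg cc hl
  rw [cc_hat, hφ.red, map_mul, K3.cc_map] at e4
  rw [map_mul, map_one, cl] at e5
  refine p2 (coeff n y) ?_
  rw [p1, e3, e4, ← mul_assoc, e5, one_mul]

end Pool.Agent.MP_05b4bd_ag.RV
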