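import Pool.Agent.MP_05b4bd_ag.rr.Bas
import Pool.Agent.MP_05b4bd_ag.esc.S2b

/-! Transport of deformations along translations, ramifications and field extensions. -/

namespace Pool.Agent.MP_05b4bd_ag.RV

open PowerSeries LaurentSeries HC
open ES hiding Gen Ob Inf
open ES.U (TM Cr hom)
open PC3 (Fm fm d1 DF sub2 pb mapF Van CenK iS)

namespace Obs

variable {k : Type} [Field k]

theorem tr_C {A : Type} [CommRing A] (p : Fin 2 → A) (r : A) :
    tr p (MvPolynomial.C r) = MvPolynomial.C r := by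
  simp [tr]

theorem tr_vf' {A : Type} [CommRing A] (q : Fin 2 → A) (P Q u : R2 A) :
    tr q (vf P Q u) = vf (tr q P) (tr q Q) (tr q u) := by
  simp only [vf, map_add, map_mul, tr_pderiv]

theorem vf_sub_C {A : Type} [CommRing A] (P Q u : R2 A) (r : A) :
    vf P Q (u - MvPolynomial.C r) = vf P Q u := by
  simp only [vf, map_sub, MvPolynomial.pderiv_C, sub_zero]

theorem coeff0 (u : R2 k) : MvPolynomial.coeff 0 u = MvPolynomial.eval 0 u := by
  rw [MvPolynomial.eval_zero]; rfl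

theorem gen_tr [CharZero k] {d : ℕ} {f : R2 k} (H : Gen d f) (hd : 1 ≤ d) (c : Fin 2 → k) :
    Gen d (tr c f - MvPolynomial.C (MvPolynomial.eval c f)) := by
  refine ⟨?_, (tr_DL c H.2.1).sub ((DL_C _).mono (by omega)), tm_tr H.tm hd c _, trivial, ?_, ?_⟩
  · rw [coeff0, map_sub, eval_tr, zero_add, MvPolynomial.eval_C, sub_self]
  · rw [hc_tr_sub c _ hd H.2.1]; exact H.2.2.2.2.1
  · rw [hc_tr_sub c _ hd H.2.1]; exact H.2.2.2.2.2

theorem cw_iS (i : Fin 2) (u : R2 k⟦X⟧) :
    cw (pd k i) (iS k u) = iS k (MvPolynomial.pderiv i u) := by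
  induction u using MvPolynomial.induction_on with
  | C r =>
    rw [PC3.iS_C, MvPolynomial.pderiv_C, map_zero]
    ext1 n
    rw [coeff_cw, coeff_map, map_zero]
    exact MvPolynomial.pderiv_C
  | add p q hp hq => simp only [map_add, hp, hq]
  | mul_X p j hp =>
    rw [map_mul, (isDer_pd i).coefw, hp, PC3.iS_X, cw_C, MvPolynomial.pderiv_mul, map_add,
      map_mul, map_mul, PC3.iS_X]
    have e : iS k (MvPolynomial.pderiv i (MvPolynomial.X j)) =
        C (pd k i (MvPolynomial.X j)) := by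
      change _ = C (MvPolynomial.pderiv i (MvPolynomial.X j : R2 k))
      by_cases h : j = i
      · subst h
        rw [MvPolynomial.pderiv_X_self, MvPolynomial.pderiv_X_self, map_one, map_one]
      · rw [MvPolynomial.pderiv_X_of_ne h, MvPolynomial.pderiv_X_of_ne h, map_zero, map_zero]
    rw [e]

theorem cc_ram' {M : ℕ} (hM : 1 ≤ M) (u : R2 k⟦X⟧) :
    MvPolynomial.map cc (MvPolynomial.map (ram k M) u) = MvPolynomial.map cc u := by
  rw [MvPolynomial.map_map]
  exact congrArg (fun φ => MvPolynomial.map φ u) (RingHom.ext fun r => cc_ram hM r)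

theorem cc_map' {k' : Type} [Field k'] (j : k →+* k') (u : R2 k⟦X⟧) :
    MvPolynomial.map cc (MvPolynomial.map (map j) u) =
      MvPolynomial.map j (MvPolynomial.map cc u) := by
  rw [MvPolynomial.map_map, MvPolynomial.map_map]
  exact congrArg (fun φ => MvPolynomial.map φ u) (RingHom.ext fun r => rfl)

end Obs

open Obs in
theorem obsS : ObsStmt := by
  intro k _ _ d o hd
  refine ⟨fun c => ?_, fun M hM => ?_, fun hl => ?_, fun k' _ _ j => ?_⟩
  · have pl := Esc.pderiv_loc o.f (fun i => cc (c i))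
    rw [Esc.loc] at pl
    refine ⟨⟨tr c o.P, tr c o.Q,
      tr c o.H - MvPolynomial.C (C (MvPolynomial.eval (fun i => cc (c i)) o.f)), tr c o.gt,
      tr (fun i => cc (c i)) o.f - MvPolynomial.C (MvPolynomial.eval (fun i => cc (c i)) o.f),
      o.n, gen_tr o.gen (by omega) _, tr_DL c o.dP, tr_DL c o.dQ, ?_, ?_, ?_, o.n1, ?_, ?_, ?_⟩,
      rfl, rfl, rfl⟩
    · rw [map_tr, o.rP, pl]
    · rw [map_tr, o.rQ, pl, map_neg]
    · rw [map_sub, map_tr, o.rH, MvPolynomial.map_C]
      simp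
    · rw [vf_sub_C, ← tr_vf', o.eq, map_mul, tr_C]
    · intro u hu
      apply o.ng (tr (-fun i => cc (c i)) u)
      have e := Esc.tr_br (fun i => cc (c i)) (tr (-fun i => cc (c i)) u) o.f
      rw [tr_tr', Esc.loc, ← hu, map_tr] at e
      have e2 := congrArg (tr (-fun i => cc (c i))) e
      rw [tr_tr, tr_tr] at e2
      exact e2.symm
    · obtain ⟨a, b, e⟩ := Ideal.mem_span_pair.1 o.jac
      exact Ideal.mem_span_pair.2 ⟨tr (fun i => cc (c i)) a, tr (fun i => cc (c i)) b, by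
        rw [pl, pl, map_tr, ← e, map_add, map_mul, map_mul]⟩
  · refine ⟨⟨MvPolynomial.map (ram k M) o.P, MvPolynomial.map (ram k M) o.Q,
      MvPolynomial.map (ram k M) o.H, MvPolynomial.map (ram k M) o.gt, o.f, M * o.n, o.gen,
      o.dP.map _, o.dQ.map _, ?_, ?_, ?_, Nat.mul_pos hM o.n1, ?_, ?_, ?_⟩, rfl, rfl, rfl⟩
    · rw [cc_ram' hM, o.rP]
    · rw [cc_ram' hM, o.rQ]
    · rw [cc_ram' hM, o.rH]
    · rw [← map_vf, o.eq, map_mul, MvPolynomial.map_C, map_pow, ram_X hM, pow_mul]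
    · rw [cc_ram' hM]; exact o.ng
    · rw [cc_ram' hM]; exact o.jac
  · refine ⟨fun i => ?_, iS k o.H, iS k o.gt, o.n, o.n1, ?_, ?_, ?_⟩
    · fin_cases i
      · change cc (iS k o.P) = MvPolynomial.pderiv 1 o.f
        rw [PC3.cc_iS, o.rP]
      · change cc (iS k o.Q) = -MvPolynomial.pderiv 0 o.f
        rw [PC3.cc_iS, o.rQ]
    · rw [PC3.cc_iS, o.rH]
    · change iS k o.P * cw (pd k 0) (iS k o.H) + iS k o.Q * cw (pd k 1) (iS k o.H) = _
      rw [cw_iS, cw_iS, ← map_mul, ← map_mul, ← map_add]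
      change iS k (vf o.P o.Q o.H) = _
      rw [o.eq, map_mul, map_pow, map_pow, PC3.iS_t]
    · rw [PC3.cc_iS]; exact hl
  · refine ⟨⟨MvPolynomial.map (map j) o.P, MvPolynomial.map (map j) o.Q,
      MvPolynomial.map (map j) o.H, MvPolynomial.map (map j) o.gt, MvPolynomial.map j o.f, o.n,
      o.gen.map j, o.dP.map _, o.dQ.map _, ?_, ?_, ?_, o.n1, ?_, ?_, ?_⟩, rfl, rfl, rfl⟩
    · rw [cc_map', o.rP, MvPolynomial.pderiv_map]
    · rw [cc_map', o.rQ, map_neg, MvPolynomial.pderiv_map]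
    · rw [cc_map', o.rH]
    · rw [← map_vf, o.eq, map_mul, MvPolynomial.map_C, map_pow, map_X]
    · intro u hu
      rw [cc_map'] at hu
      obtain ⟨v, hv⟩ := Base.br_desc j hu
      exact o.ng v hv
    · rw [cc_map']; exact Base.jac_map j o.jac

end Pool.Agent.MP_05b4bd_ag.RV
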