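import Pool.Agent.MP_05b4bd_ag.rr.Bas

/-! The first displacement of the Hamiltonian lies in the small ring. -/

namespace Pool.Agent.MP_05b4bd_ag.RV

open PowerSeries LaurentSeries HC
open ES hiding Gen Ob Inf
open ES.U (TM Cr hom)
open PC3 (Fm fm d1 DF sub2 pb mapF Van CenK iS)

namespace Step

variable {E F : Type} [CommRing E] [CommRing F]

theorem in_add {S : Subring F} {u v : F⟦X⟧} (hu : In S u) (hv : In S v) : In S (u + v) :=
  fun n => by rw [map_add]; exact S.add_mem (hu n) (hv n)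

theorem in_sub {S : Subring F} {u v : F⟦X⟧} (hu : In S u) (hv : In S v) : In S (u - v) :=
  fun n => by rw [map_sub]; exact S.sub_mem (hu n) (hv n)

theorem in_mul {S : Subring F} {u v : F⟦X⟧} (hu : In S u) (hv : In S v) : In S (u * v) :=
  fun n => by
    rw [coeff_mul]
    exact S.sum_mem fun p _ => S.mul_mem (hu _) (hv _)

theorem in_C {S : Subring F} {v : F} (hv : v ∈ S) : In S (C v) := fun n => by
  rw [coeff_C]
  split_ifs
  exacts [hv, S.zero_mem]

theorem in_pow {S : Subring F} (i : ℕ) : In S ((X : F⟦X⟧) ^ i) := fun n => by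
  rw [coeff_X_pow]
  split_ifs
  exacts [S.one_mem, S.zero_mem]

theorem in_div {S : Subring F} {m : ℕ} {u : F⟦X⟧} (h : In S (X ^ m * u)) : In S u := fun n => by
  have := h (n + m)
  rwa [coeff_X_pow_mul] at this

theorem in_cc {S : Subring F} {u : F⟦X⟧} (h : In S u) : cc u ∈ S := by
  have := h 0
  rwa [coeff_zero_eq_constantCoeff] at this

theorem in_vS {S : Subring F} {d : Fin 2 → F →+ F} (st : ∀ i, ∀ u ∈ S, d i u ∈ S)
    {A : Fin 2 → F⟦X⟧} (hA : ∀ i, In S (A i)) {u : F⟦X⟧} (hu : In S u) : In S (vS d A u) := by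
  have h : ∀ i, In S (cw (d i) u) := fun i n => by
    change coeff n (PowerSeries.mk fun n => d i (coeff n u)) ∈ S
    rw [coeff_mk]
    exact st i _ (hu n)
  exact in_add (in_mul (hA 0) (h 0)) (in_mul (hA 1) (h 1))

theorem map_vS {d : Fin 2 → F →+ F} {d' : Fin 2 → E →+ E} {j : F →+* E}
    (nat : ∀ i u, d' i (j u) = j (d i u)) (A : Fin 2 → F⟦X⟧) (u : F⟦X⟧) :
    vS d' (fun l => map j (A l)) (map j u) = map j (vS d A u) := by
  simp only [vS, map_add, map_mul, cw_map' (nat _)]

theorem vS_add (d : Fin 2 → E →+ E) (A : Fin 2 → E⟦X⟧) (u v : E⟦X⟧) :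
    vS d A (u + v) = vS d A u + vS d A v := by
  simp only [vS, map_add]; ring

theorem vS_sub (d : Fin 2 → E →+ E) (A : Fin 2 → E⟦X⟧) (u v : E⟦X⟧) :
    vS d A (u - v) = vS d A u - vS d A v := by
  simp only [vS, map_sub]; ring

theorem vS_pow (d : Fin 2 → E →+ E) (A : Fin 2 → E⟦X⟧) (m : ℕ) (u : E⟦X⟧) :
    vS d A (X ^ m * u) = X ^ m * vS d A u := by
  simp only [vS, cw_X_pow_mul]; ring

theorem cc_vS (d : Fin 2 → E →+ E) (A : Fin 2 → E⟦X⟧) (u : E⟦X⟧) :
    cc (vS d A u) = cc (A 0) * d 0 (cc u) + cc (A 1) * d 1 (cc u) := by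
  simp only [vS, map_add, map_mul, cc_cw]

theorem cancel {m : ℕ} {u v : E⟦X⟧} (h : X ^ m * u = X ^ m * v) : u = v := by
  ext n
  have := congrArg (coeff (n + m)) h
  rwa [coeff_X_pow_mul, coeff_X_pow_mul] at this

/-- The algebraic identity behind the last step. -/
theorem alg {p q : E →+ E} (hp : IsDer p) (hq : IsDer q) (x y M N a b s t r ν : E)
    (one : M * x + N * y = 1) (cm : q x = p y)
    (hν : ν = -(r + N * (s * p y + t * q y - (y * p s - x * q s)) -
      M * (s * p (-x) + t * q (-x) - (y * p t - x * q t)))) :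
    (s * x + t * y) * (p a + q b) -
      (ν * (a * x + b * y) + (s * p (a * x + b * y) + t * q (a * x + b * y))) =
    r * (a * x + b * y) - (a * N - b * M) * (y * p (s * x + t * y) - x * q (s * x + t * y)) +
      (y * p ((s * x + t * y) * (a * N - b * M) - (s * N - t * M) * (a * x + b * y)) -
        x * q ((s * x + t * y) * (a * N - b * M) - (s * N - t * M) * (a * x + b * y))) := by
  have p1 := congrArg p one
  have q1 := congrArg q one
  rw [hp.one, map_add, hp, hp] at p1
  rw [hq.one, map_add, hq, hq] at q1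
  have e0 : (a * x + b * y) * M = a - y * (a * N - b * M) := by linear_combination a * one
  have e1 : (a * x + b * y) * N = b + x * (a * N - b * M) := by linear_combination b * one
  have p2 := congrArg p e0
  have q2 := congrArg q e1
  have pk : p (s * N - t * M) = p s * N + s * p N - (p t * M + t * p M) := by
    rw [map_sub, hp, hp]
  have qk : q (s * N - t * M) = q s * N + s * q N - (q t * M + t * q M) := by
    rw [map_sub, hq, hq]
  generalize a * x + b * y = g at *
  generalize a * N - b * M = w at *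
  rw [hp, map_sub, hp] at p2
  rw [hq, map_add, hq] at q2
  rw [map_neg, map_neg] at hν
  have hz : ν = -r + (y * p (s * N - t * M) - x * q (s * N - t * M)) +
      (s * x + t * y) * (p M + q N) := by
    rw [hν, pk, qk]
    linear_combination (-s) * p1 - t * q1
  rw [map_sub p, map_sub q, hp (s * x + t * y) w, hq (s * x + t * y) w, hp (s * N - t * M) g,
    hq (s * N - t * M) g, hz]
  linear_combination (s * p g + t * q g) * one - (s * x + t * y) * (p2 + q2) -
    (s * x + t * y) * w * cm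

/-- The multiplier is `1` up to order `m`. -/
theorem mult {m : ℕ} (hm : 1 ≤ m) {μ A0 A1 B0 B1 Y0 Y1 Z0 Z1 V0 V1 : E⟦X⟧} {M N : E}
    (one : N * cc A0 - M * cc A1 = 1) (h0 : A0 - B0 = X ^ m * Y0) (h1 : A1 - B1 = X ^ m * Y1)
    (e0 : B0 + X ^ m * V0 = μ * (A0 + X ^ m * Z0)) (e1 : B1 + X ^ m * V1 = μ * (A1 + X ^ m * Z1)) :
    ∃ ν, μ = 1 + X ^ m * ν ∧
      cc ν = -((cc Y0 * N - cc Y1 * M) + N * (cc Z0 - cc V0) - M * (cc Z1 - cc V1)) := by
  have hW : cc (C N * (A0 + X ^ m * Z0) - C M * (A1 + X ^ m * Z1)) = 1 := by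
    simp only [map_sub, map_add, map_mul, cc_X_pow hm, constantCoeff_C]
    linear_combination one
  obtain ⟨w, hw⟩ := (isUnit_iff_constantCoeff.2 (by
    change IsUnit (cc _)
    rw [hW]
    exact isUnit_one) : IsUnit (C N * (A0 + X ^ m * Z0) - C M * (A1 + X ^ m * Z1))).exists_right_inv
  have hc : cc w = 1 := by
    have := congrArg cc hw
    rwa [map_mul, hW, one_mul, map_one] at this
  refine ⟨-((C N * (Y0 + Z0 - V0) - C M * (Y1 + Z1 - V1)) * w), ?_, ?_⟩
  · linear_combination (1 - μ) * hw - w * C N * h0 + w * C M * h1 - w * C N * e0 + w * C M * e1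
  · simp only [map_neg, map_sub, map_add, map_mul, hc, constantCoeff_C]
    ring

end Step

open Step in
theorem stepS (h1 : TayStmt) (h2 : TaydStmt) (h3 : CmpaStmt) : StepStmt := by
  intro k F E _ _ _ _ e d S j d' f a b N A B H g n m δ φ μ T iA iB iH _ hn hm cA cH hAH cg hAB
    hT hδ hE
  let _ : Algebra ℚ E := (((j.comp e).comp MvPolynomial.C).comp (algebraMap ℚ k)).toAlgebra
  choose ε hε using hδ
  choose Y hY using hAB
  have iY : ∀ i, In S (Y i) := fun i => in_div (m := m) (by rw [← hY]; exact in_sub (iA i) (iB i))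
  have cB : ∀ i, cc (B i) = e (ham f i) := fun i => by
    have := congrArg cc (hY i)
    rw [map_sub, map_mul, cc_X_pow hm, zero_mul, sub_eq_zero, cA] at this
    exact this.symm
  have cB' : ∀ i, cc (map j (B i)) = (j.comp e) (ham f i) := fun i => by
    rw [K3.cc_map, cB]; rfl
  have one' : j (N 0) * (j.comp e) (MvPolynomial.pderiv 0 f) +
      j (N 1) * (j.comp e) (MvPolynomial.pderiv 1 f) = 1 := by
    have := congrArg j T.one
    rwa [map_add, map_mul, map_mul, map_one] at this
  have cV : ∀ u, cc (vS d' (fun l => map j (B l)) u) = D0 (j.comp e) d' f (cc u) := fun u => by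
    rw [cc_vS, cB', cB']
    simp only [ham, D0, Matrix.cons_val_zero, Matrix.cons_val_one, map_neg]
    ring
  -- expansion of the displacement
  have hZ : ∀ u, ∃ Z, hat φ u = u + X ^ m * Z ∧
      cc Z = cc (ε 0) * d' 0 (cc u) + cc (ε 1) * d' 1 (cc u) := fun u => by
    obtain ⟨w, hw⟩ := (((h1 E d' T.two'.toCm).2.2 δ φ hT).1 m (fun i => ⟨ε i, hε i⟩) u)
    refine ⟨vS d' ε u + X * w, ?_, ?_⟩
    · simp only [vS, hε] at hw ⊢
      linear_combination hw
    · rw [map_add, map_mul, constantCoeff_X, zero_mul, add_zero, cc_vS]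
  have hch : ∀ u, vS d' (fun l => map j (B l)) (hat φ u) =
      μ * hat φ (vS d' (fun l => map j (A l)) u) := fun u => by
    have hT' : Tay d' (fun i => (C (j (e (MvPolynomial.X i))) + δ i) -
        C ((j.comp e) (MvPolynomial.X i))) φ := by
      simpa only [RingHom.comp_apply, add_sub_cancel_left] using hT
    rw [(h2 k E (j.comp e) d' _ φ T.two' hT').2, hE, hE]
    simp only [vS, map_add, map_mul]
    ring
  have hx : ∀ i, vS d' (fun l => map j (B l)) (C (j (e (MvPolynomial.X i)))) = map j (B i) :=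
    fun i => by
      have h := fun l => T.two'.ext l (MvPolynomial.X i)
      simp only [RingHom.comp_apply] at h
      simp only [vS, cw_C, h]
      fin_cases i <;> simp
  obtain ⟨Z0, a0, z0⟩ := hZ (map j (A 0))
  obtain ⟨Z1, a1, z1⟩ := hZ (map j (A 1))
  obtain ⟨Z, aH, zH⟩ := hZ (map j H)
  obtain ⟨Zg, ag, zg⟩ := hZ (map j g)
  have hY' : ∀ i, map j (A i) - map j (B i) = X ^ m * map j (Y i) := fun i => by
    rw [← map_sub, hY, map_mul, map_pow, map_X]
  have hE' : ∀ i, map j (B i) + X ^ m * vS d' (fun l => map j (B l)) (ε i) =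
      μ * hat φ (map j (A i)) := fun i => by rw [← hE, vS_add, hx, hε, vS_pow]
  obtain ⟨ν, hμ, hν⟩ := mult (μ := μ) (M := j (N 0)) (N := j (N 1)) hm (by
    rw [K3.cc_map, K3.cc_map, cA, cA]
    simp only [ham, Matrix.cons_val_zero, Matrix.cons_val_one, map_neg]
    simp only [RingHom.comp_apply] at one'
    linear_combination one') (hY' 0) (hY' 1) (by rw [hE', a0]) (by rw [hE', a1])
  have vH : vS d' (fun l => map j (B l)) (hat φ (map j H)) = X ^ n * (μ * hat φ (map j g)) := by
    rw [hch, map_vS T.nat, hAH, map_mul, map_pow, map_X, map_mul, map_pow, hat_X]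
    ring
  have cHh : cc (hat φ (map j H)) = (j.comp e) f := by
    rw [aH, map_add, map_mul, cc_X_pow hm, zero_mul, add_zero, K3.cc_map, cH]; rfl
  obtain ⟨R, hR⟩ : ∃ R, R = ν * map j g + Zg + X ^ m * ν * Zg := ⟨_, rfl⟩
  have vZ : vS d' (fun l => map j (B l)) Z = map j (vS d Y H) + X ^ n * R := by
    refine cancel (m := m) ?_
    have e1 := map_vS T.nat A H
    have e2 := map_vS T.nat Y H
    rw [hAH, map_mul, map_pow, map_X] at e1
    rw [aH, vS_add, vS_pow, ag, hμ] at vH
    rw [← e2, hR]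
    simp only [vS] at vH e1 ⊢
    linear_combination vH - e1 + cw (d' 0) (map j H) * hY' 0 + cw (d' 1) (map j H) * hY' 1
  have ind : ∀ i, i ≤ n → ∃ W G, In S W ∧ In S G ∧ vS d' (fun l => map j (B l)) (Z - map j W) =
      X ^ i * (map j G + X ^ (n - i) * R) := fun i => by
    induction i with
    | zero =>
      exact fun _ => ⟨0, vS d Y H, fun _ => by rw [map_zero]; exact S.zero_mem,
        in_vS T.st iY iH, by rw [map_zero, sub_zero, vZ, pow_zero, one_mul, Nat.sub_zero]⟩
    | succ i ih =>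
      intro hi
      obtain ⟨W, G, iW, iG, hW⟩ := ih (by omega)
      have cU : cc (map j G + X ^ (n - i) * R) = j (cc G) := by
        rw [map_add, map_mul, cc_X_pow (by omega), zero_mul, add_zero, K3.cc_map]
      obtain ⟨u, hu⟩ : ∃ u, j (cc G) = D0 (j.comp e) d' f u := by
        rcases Nat.eq_zero_or_pos i with rfl | hi0
        · exact ⟨_, by rw [← cU, ← cV, hW, pow_zero, one_mul]⟩
        · obtain ⟨-, u, hu⟩ := h3 k E (j.comp e) d' f (fun l => j (N l)) _ _
            (X ^ (n - i) * (μ * hat φ (map j g))) _ _ i T.two' one' cB' hi0 cHh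
            (by rw [vH, ← mul_assoc (X ^ i), ← pow_add, Nat.add_sub_cancel' (by omega)]) hW
          rw [cU, map_mul, cc_X_pow (by omega), zero_mul, mul_zero, sub_zero] at hu
          exact ⟨u, hu.symm⟩
      obtain ⟨v, hv, hG⟩ := T.i1 _ (in_cc iG) u hu
      obtain ⟨G', hG'⟩ : X ∣ G - vS d B (C v) := X_dvd_iff.2 (by
        change cc _ = 0
        rw [map_sub, hG, cc_vS, cB, cB, constantCoeff_C]
        simp only [ham, D0, Matrix.cons_val_zero, Matrix.cons_val_one, map_neg]
        ring)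
      refine ⟨W + X ^ i * C v, G', in_add iW (in_mul (in_pow i) (in_C hv)),
        in_div (m := 1) (by rw [pow_one, ← hG']; exact in_sub iG (in_vS T.st iB (in_C hv))), ?_⟩
      have e1 := congrArg (map j) hG'
      rw [map_sub, map_mul, map_X, ← map_vS T.nat] at e1
      rw [map_add, ← sub_sub, vS_sub, hW, map_mul, map_pow, map_X, vS_pow,
        show n - i = n - (i + 1) + 1 by omega]
      linear_combination X ^ i * e1
  obtain ⟨W, G, iW, iG, hW⟩ := ind n le_rfl
  obtain ⟨hc, u, hu⟩ := h3 k E (j.comp e) d' f (fun l => j (N l)) _ _ _ _ _ n T.two' one' cB' hn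
    cHh vH hW
  have cg' : cc (map j g) = j (e a) * j (e (MvPolynomial.pderiv 0 f)) +
      j (e b) * j (e (MvPolynomial.pderiv 1 f)) := by
    simp only [K3.cc_map, cg, map_add, map_mul]
  have ex : ∀ l u, d' l (j (e u)) = j (e (MvPolynomial.pderiv l u)) := T.two'.ext
  have cZ : cc Z = cc (ε 0) * j (e (MvPolynomial.pderiv 0 f)) +
      cc (ε 1) * j (e (MvPolynomial.pderiv 1 f)) := by rw [zH, K3.cc_map, cH, ex, ex]
  have dZ : D0 (j.comp e) d' f (cc Z) = j (cc (vS d Y H)) := by
    rw [← cV, vZ, map_add, map_mul, cc_X_pow hn, zero_mul, add_zero, K3.cc_map]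
  have key := alg (T.two'.der 0) (T.two'.der 1) (j (e (MvPolynomial.pderiv 0 f)))
    (j (e (MvPolynomial.pderiv 1 f))) (j (N 0)) (j (N 1)) (j (e a)) (j (e b)) (cc (ε 0))
    (cc (ε 1)) (j (cc (Y 0) * N 1 - cc (Y 1) * N 0)) (cc ν) one'
    (by rw [← ex, ← ex, T.two'.comm]) (by
      rw [hν, z0, z1, cV, cV]
      simp only [K3.cc_map, cA, ham, D0, Matrix.cons_val_zero, Matrix.cons_val_one, map_neg,
        map_sub, map_mul, RingHom.comp_apply])
  have cX : cc (μ * hat φ (map j g)) = cc (map j g) := by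
    rw [hμ, ag]
    simp only [map_add, map_mul, map_one, cc_X_pow hm]
    ring
  have cR : cc R = cc ν * cc (map j g) + cc Zg := by
    rw [hR]
    simp only [map_add, map_mul, cc_X_pow hm]
    ring
  obtain ⟨r, hr, hcr⟩ := T.i2 (cc (Z - map j W)) (u + (cc Z * (j (e a) * j (N 1) -
    j (e b) * j (N 0)) - (cc (ε 0) * j (N 1) - cc (ε 1) * j (N 0)) * cc (map j g)))
    ((cc (Y 0) * N 1 - cc (Y 1) * N 0) *
      e (a * MvPolynomial.pderiv 0 f + b * MvPolynomial.pderiv 1 f) -
      (e a * N 1 - e b * N 0) * cc (vS d Y H) - cc G -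
      cc W * e (MvPolynomial.pderiv 0 a + MvPolynomial.pderiv 1 b))
    (S.sub_mem (S.sub_mem (S.sub_mem (S.mul_mem (S.sub_mem (S.mul_mem (in_cc (iY 0)) (T.mN 1))
      (S.mul_mem (in_cc (iY 1)) (T.mN 0))) (T.mem _)) (S.mul_mem (S.sub_mem
      (S.mul_mem (T.mem a) (T.mN 1)) (S.mul_mem (T.mem b) (T.mN 0))) (in_cc (in_vS T.st iY iH))))
      (in_cc iG)) (S.mul_mem (in_cc iW) (T.mem _))) hc (by
      rw [Nat.sub_self, pow_zero, one_mul, map_add cc, cX, cR, zg, K3.cc_map j G] at hu
      rw [← cZ, ← cg', ex, ex] at key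
      have e1 : j (e (a * MvPolynomial.pderiv 0 f + b * MvPolynomial.pderiv 1 f)) =
          cc (map j g) := by rw [K3.cc_map, cg]
      have e2 : cc (Z - map j W) = cc Z - j (cc W) := by rw [map_sub, K3.cc_map]
      simp only [D0, RingHom.comp_apply] at hu dZ ⊢
      rw [map_add (d' 0) u, map_add (d' 1) u, map_sub j, map_sub j, map_sub j, map_mul j,
        map_mul j (e a * N 1 - e b * N 0), map_mul j (cc W), e1, ← dZ, map_sub j (e a * N 1),
        map_mul j (e a), map_mul j (e b), map_add e, map_add j]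
      nth_rewrite 1 [e2]
      linear_combination key - hu)
  refine ⟨r + cc W, S.add_mem hr (in_cc iW), ?_⟩
  have e3 : ∀ i, coeff m (δ i) = cc (ε i) := fun i => by
    have := coeff_X_pow_mul (ε i) m 0
    rwa [zero_add, ← hε, coeff_zero_eq_constantCoeff] at this
  rw [e3, e3, ← cZ, map_add, ← hcr, map_sub, K3.cc_map, sub_add_cancel]

end Pool.Agent.MP_05b4bd_ag.RV
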