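import Pool.Agent.MP_05b4bd_ag.rr.Spec2
import Pool.Agent.MP_05b4bd_ag.rr.Step

/-! One step of the descent from the large ring to the small ring. -/

namespace Pool.Agent.MP_05b4bd_ag.RV

open PowerSeries LaurentSeries HC
open ES hiding Gen Ob Inf
open ES.U (TM Cr hom)
open PC3 (Fm fm d1 DF sub2 pb mapF Van CenK iS)

namespace OneS

open Step

variable {k E F : Type} [Field k] [CommRing E] [CommRing F]

/-- The vector field as an additive map. -/
noncomputable def vA (d : Fin 2 → E →+ E) (B : Fin 2 → E⟦X⟧) : E⟦X⟧ →+ E⟦X⟧ :=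
  (AddMonoidHom.mulLeft (B 0)).comp (cw (d 0)) + (AddMonoidHom.mulLeft (B 1)).comp (cw (d 1))

theorem vA_apply (d : Fin 2 → E →+ E) (B : Fin 2 → E⟦X⟧) (u : E⟦X⟧) : vA d B u = vS d B u := rfl

theorem vA_der {d : Fin 2 → E →+ E} (h : Cm d) (B : Fin 2 → E⟦X⟧) : IsDer (vA d B) :=
  ((h.der 0).coefw.mulLeft _).add ((h.der 1).coefw.mulLeft _)

theorem cw_x {e : R2 k →+* E} {d : Fin 2 → E →+ E} (h : D2 e d) (i l : Fin 2) :
    cw (d l) (C (e (MvPolynomial.X i))) = if i = l then 1 else 0 := by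
  rw [cw_C, h.ext, MvPolynomial.pderiv_X, Pi.single_apply]
  split_ifs <;> simp

theorem vS_x {e : R2 k →+* E} {d : Fin 2 → E →+ E} (h : D2 e d) (B : Fin 2 → E⟦X⟧) (i : Fin 2) :
    vS d B (C (e (MvPolynomial.X i))) = B i := by
  simp only [vS, cw_x h]
  fin_cases i <;> simp

theorem vS_c {e : R2 k →+* E} {d : Fin 2 → E →+ E} (h : D2 e d) (B : Fin 2 → E⟦X⟧) (c : k) :
    vS d B (C (e (MvPolynomial.C c))) = 0 := by
  simp only [vS, cw_C, h.ext, MvPolynomial.pderiv_C, map_zero, mul_zero, add_zero]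

theorem vS_X {d : Fin 2 → E →+ E} (h : Cm d) (B : Fin 2 → E⟦X⟧) : vS d B X = 0 := by
  simp only [vS, cw_X (h.der _).one, mul_zero, add_zero]

theorem vS_dvd (d : Fin 2 → E →+ E) (B : Fin 2 → E⟦X⟧) {n : ℕ} {u : E⟦X⟧} (h : X ^ n ∣ u) :
    X ^ n ∣ vS d B u := by
  obtain ⟨v, rfl⟩ := h
  rw [vS_pow]
  exact dvd_mul_right _ _

theorem in_cw {S : Subring F} {d : F →+ F} (st : ∀ u ∈ S, d u ∈ S) {u : F⟦X⟧} (hu : In S u) :
    In S (cw d u) := fun n => by
  rw [coeff_cw]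
  exact st _ (hu n)

theorem in_map {S : Subring F} {e : R2 k →+* F} (h : ∀ u, e u ∈ S) (u : (R2 k)⟦X⟧) :
    In S (map e u) := fun n => by
  rw [coeff_map]
  exact h _

theorem dvd_map {j : F →+* E} (hj : Function.Injective j) {n : ℕ} {u : F⟦X⟧}
    (h : X ^ n ∣ map j u) : X ^ n ∣ u :=
  X_pow_dvd_iff.2 fun m hm => hj (by
    have := X_pow_dvd_iff.1 h m hm
    rwa [coeff_map, ← map_zero j] at this)

theorem dvd_succ {m : ℕ} {u : E⟦X⟧} (h : cc u = 0) : X ^ (m + 1) ∣ X ^ m * u := by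
  rw [pow_succ]
  exact mul_dvd_mul_left _ (X_dvd_iff.2 h)

theorem co_pow (m : ℕ) (u : E⟦X⟧) : coeff m (X ^ m * u) = cc u := by
  have := coeff_X_pow_mul u m 0
  rwa [zero_add, coeff_zero_eq_constantCoeff] at this

/-- The determinant of the Jacobian matrix. -/
noncomputable def det (d : Fin 2 → E →+ E) (ξ : Fin 2 → E⟦X⟧) : E⟦X⟧ :=
  cw (d 0) (ξ 0) * cw (d 1) (ξ 1) - cw (d 1) (ξ 0) * cw (d 0) (ξ 1)

/-- The adjugate of the Jacobian matrix, applied to a vector. -/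
noncomputable def adj (d : Fin 2 → E →+ E) (ξ Y : Fin 2 → E⟦X⟧) : Fin 2 → E⟦X⟧ :=
  ![cw (d 1) (ξ 1) * Y 0 - cw (d 1) (ξ 0) * Y 1, cw (d 0) (ξ 0) * Y 1 - cw (d 0) (ξ 1) * Y 0]

theorem vS_adj (d : Fin 2 → E →+ E) (ξ Y : Fin 2 → E⟦X⟧) (i : Fin 2) :
    vS d (adj d ξ Y) (ξ i) = det d ξ * Y i := by
  fin_cases i <;> simp [vS, adj, det] <;> ring

theorem map_det {d : Fin 2 → F →+ F} {d' : Fin 2 → E →+ E} {j : F →+* E}
    (nat : ∀ i u, d' i (j u) = j (d i u)) (ξ : Fin 2 → F⟦X⟧) :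
    map j (det d ξ) = det d' fun i => map j (ξ i) := by
  simp only [det, map_sub, map_mul, cw_map' (nat _)]

theorem map_adj {d : Fin 2 → F →+ F} {d' : Fin 2 → E →+ E} {j : F →+* E}
    (nat : ∀ i u, d' i (j u) = j (d i u)) (ξ Y : Fin 2 → F⟦X⟧) :
    (fun l => map j (adj d ξ Y l)) = adj d' (fun i => map j (ξ i)) fun i => map j (Y i) := by
  funext l
  fin_cases l <;> simp [adj, cw_map' (nat _)]

theorem in_det {S : Subring F} {d : Fin 2 → F →+ F} (st : ∀ i, ∀ u ∈ S, d i u ∈ S)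
    {ξ : Fin 2 → F⟦X⟧} (h : ∀ i, In S (ξ i)) : In S (det d ξ) :=
  in_sub (in_mul (in_cw (st 0) (h 0)) (in_cw (st 1) (h 1)))
    (in_mul (in_cw (st 1) (h 0)) (in_cw (st 0) (h 1)))

theorem in_adj {S : Subring F} {d : Fin 2 → F →+ F} (st : ∀ i, ∀ u ∈ S, d i u ∈ S)
    {ξ Y : Fin 2 → F⟦X⟧} (h : ∀ i, In S (ξ i)) (hY : ∀ i, In S (Y i)) (l : Fin 2) :
    In S (adj d ξ Y l) := by
  fin_cases l
  · exact in_sub (in_mul (in_cw (st 1) (h 1)) (hY 0)) (in_mul (in_cw (st 1) (h 0)) (hY 1))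
  · exact in_sub (in_mul (in_cw (st 0) (h 0)) (hY 1)) (in_mul (in_cw (st 0) (h 1)) (hY 0))

theorem near_det {e : R2 k →+* E} {d : Fin 2 → E →+ E} (h : D2 e d) (m : ℕ) (σ : Fin 2 → E⟦X⟧) :
    X ^ m ∣ det d (fun i => C (e (MvPolynomial.X i)) - X ^ m * σ i) - 1 := by
  refine ⟨X ^ m * (cw (d 0) (σ 0) * cw (d 1) (σ 1) - cw (d 1) (σ 0) * cw (d 0) (σ 1)) -
    cw (d 0) (σ 0) - cw (d 1) (σ 1), ?_⟩
  simp only [det, map_sub, cw_X_pow_mul, cw_x h]
  simp
  ring

theorem near_adj {e : R2 k →+* E} {d : Fin 2 → E →+ E} (h : D2 e d) (m : ℕ)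
    (σ Y : Fin 2 → E⟦X⟧) (l : Fin 2) :
    X ^ m ∣ adj d (fun i => C (e (MvPolynomial.X i)) - X ^ m * σ i) Y l - Y l := by
  fin_cases l
  · refine ⟨cw (d 1) (σ 0) * Y 1 - cw (d 1) (σ 1) * Y 0, ?_⟩
    simp only [adj, map_sub, cw_X_pow_mul, cw_x h]
    simp
    ring
  · refine ⟨cw (d 0) (σ 1) * Y 0 - cw (d 0) (σ 0) * Y 1, ?_⟩
    simp only [adj, map_sub, cw_X_pow_mul, cw_x h]
    simp
    ring

/-- The change of coordinates `x ↦ x - t ^ m σ`. -/
theorem move [CharZero k] (h1 : TayStmt) (h2 : TaydStmt) {e : R2 k →+* E} {d : Fin 2 → E →+ E}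
    (h : D2 e d) {m : ℕ} {σ : Fin 2 → E⟦X⟧} {ψ : E →+* E⟦X⟧}
    (hT : Tay d (fun i => -(X ^ m * σ i)) ψ) :
    (∀ c, hat ψ (C (e (MvPolynomial.C c))) = C (e (MvPolynomial.C c))) ∧
    (∀ l, hat ψ (C (e (MvPolynomial.X l))) = C (e (MvPolynomial.X l)) - X ^ m * σ l) ∧
    (∀ u, X ^ (m + 1) ∣ hat ψ u - u + X ^ m * vS d σ u) ∧
    ∀ B u, vS d (adj d (fun i => C (e (MvPolynomial.X i)) - X ^ m * σ i) fun i => hat ψ (B i))
      (hat ψ u) = det d (fun i => C (e (MvPolynomial.X i)) - X ^ m * σ i) * hat ψ (vS d B u) := by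
  let _ : Algebra ℚ E := ((e.comp MvPolynomial.C).comp (algebraMap ℚ k)).toAlgebra
  have hT' : Tay d (fun i => (C (e (MvPolynomial.X i)) - X ^ m * σ i) -
      C (e (MvPolynomial.X i))) ψ := by
    simpa only [sub_sub_cancel_left] using hT
  obtain ⟨a1, a2⟩ := h2 k E e d _ ψ h hT'
  refine ⟨fun c => ?_, fun l => ?_, fun u => ?_, fun B u => ?_⟩
  · have := a1 (C (MvPolynomial.C c))
    rw [map_C] at this
    exact this.trans ((hat_C _ _).trans (MvPolynomial.eval₂Hom_C _ _ _))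
  · have := a1 (C (MvPolynomial.X l))
    rw [map_C] at this
    exact this.trans ((hat_C _ _).trans (MvPolynomial.eval₂Hom_X' _ _ _))
  · refine (((h1 E d h.toCm).2.2 _ ψ hT).1 m (fun i => (dvd_mul_right _ _).neg_right) u).trans
      (dvd_of_eq ?_)
    simp only [vS]
    ring
  · rw [a2, vS_adj, vS_adj]
    simp only [vS, map_add, map_mul]
    ring

end OneS

open Step OneS in
theorem oneS (h1 : TayStmt) (h2 : TaydStmt) (h3 : StepStmt) (h4 : FlowStmt) (h5 : EvsStmt) :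
    OneStmt := by
  intro k F E _ _ _ _ e d S j d' f a b N A H g n m B ξ μ T hn hm cA cH hAH cg hS
  let _ : Algebra ℚ E := (((j.comp e).comp MvPolynomial.C).comp (algebraMap ℚ k)).toAlgebra
  let _ : Algebra ℚ F := ((e.comp MvPolynomial.C).comp (algebraMap ℚ k)).toAlgebra
  choose ε hε using hS.near
  have mm : ∀ u, map j (map e u) = map (j.comp e) u := fun u => by
    rw [map_comp]; rfl
  have cA' : ∀ i, cc (map e (A i)) = e (ham f i) := fun i => by rw [K3.cc_map, cA]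
  have one' : j (N 0) * j (e (MvPolynomial.pderiv 0 f)) +
      j (N 1) * j (e (MvPolynomial.pderiv 1 f)) = 1 := by
    have := congrArg j T.one
    rwa [map_add, map_mul, map_mul, map_one] at this
  -- the first displacement
  obtain ⟨φ, hφ⟩ := (h1 E d' T.two'.toCm).1 (fun i => ξ i - C ((j.comp e) (MvPolynomial.X i)))
    fun i => by rw [RingHom.comp_apply, hε, map_mul, cc_X_pow hm, zero_mul]
  obtain ⟨s, hs, hsj⟩ := h3 k F E e d S j d' f a b N (fun i => map e (A i)) B (map e H) (map e g)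
    n m _ φ μ T (fun i => in_map T.mem _) hS.mem (in_map T.mem _) (in_map T.mem _) hn hm cA'
    (by rw [K3.cc_map, cH])
    (by rw [map_vS (d := pd k) (d' := d) (j := e) T.two.ext, hAH, map_mul, map_pow, map_X])
    (by rw [K3.cc_map, cg]) hS.cong hφ (fun i => ⟨ε i, hε i⟩)
    (fun i => by
      rw [RingHom.comp_apply, add_sub_cancel, hS.eq, mm, (h2 k E (j.comp e) d' ξ φ T.two' hφ).1])
  simp only [RingHom.comp_apply, hε, co_pow] at hsj
  refine ⟨s, hs, ?_, ?_⟩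
  · have h := X_pow_dvd_iff.1 ((h5 k E (j.comp e) ξ).2.2.1 m hm hS.near (C f)) m m.lt_succ_self
    simp only [RingHom.comp_apply, hε, cw_C, map_C, map_sub, map_add, coeff_C_mul, co_pow,
      coeff_C, if_neg (show m ≠ 0 by omega)] at h
    change _ - _ - (j (e (MvPolynomial.pderiv 0 f)) * _ + j (e (MvPolynomial.pderiv 1 f)) * _) = 0
      at h
    linear_combination -hsj - h
  -- the flow along the field
  obtain ⟨κ, hκ⟩ : ∃ κ, κ = cc (ε 0) * j (N 1) - cc (ε 1) * j (N 0) := ⟨_, rfl⟩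
  obtain ⟨Φ, p1, p2, p3⟩ := h4 E (vA d' fun l => map j (B l)) (-(X ^ m * C κ))
    (vA_der T.two'.toCm _) (((dvd_pow_self X (by omega)).mul_right _).neg_right)
  simp only [vA_apply] at p1 p2 p3
  have eΦ := (h5 k E (j.comp e) ξ).2.2.2.2 E (j.comp e) Φ (p3 _ (vS_X T.two'.toCm _))
    fun c => p3 _ (vS_c T.two' _ c)
  have cB : ∀ i, cc (B i) = e (ham f i) := fun i => by
    obtain ⟨Y, hY⟩ := hS.cong i
    have := congrArg cc hY
    rw [map_sub, map_mul, cc_X_pow hm, zero_mul, sub_eq_zero, cA'] at this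
    exact this.symm
  have n1 : ∀ i, X ^ (m + 1) ∣
      Φ (ξ i) - C (j (e (MvPolynomial.X i))) - X ^ m * C (j (s * N i)) := fun i => by
    have q1 : X ^ (m + 1) ∣ (-(X ^ m * C κ) : E⟦X⟧) ^ 2 := by
      rw [neg_sq, mul_pow, ← pow_mul]
      exact (pow_dvd_pow _ (by omega)).mul_right _
    have q2 : ξ i = C ((j.comp e) (MvPolynomial.X i)) + X ^ m * ε i := by
      rw [← hε, RingHom.comp_apply, add_sub_cancel]
    have q3 : cc (vS d' (fun l => map j (B l)) (ξ i)) = j (e (ham f i)) := by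
      rw [q2, vS_add, vS_pow, vS_x T.two', map_add, map_mul, cc_X_pow hm, zero_mul, add_zero,
        K3.cc_map, cB]
    have q4 : cc (ε i - C κ * vS d' (fun l => map j (B l)) (ξ i) - C (j (s * N i))) = 0 := by
      rw [map_sub, map_sub, map_mul, q3, constantCoeff_C, constantCoeff_C, map_mul, ← hsj, hκ]
      fin_cases i
      · simp only [ham, Fin.zero_eta, Matrix.cons_val_zero]
        linear_combination (-cc (ε 0)) * one'
      · simp only [ham, Fin.mk_one, Matrix.cons_val_one, Matrix.cons_val_zero, map_neg]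
        linear_combination (-cc (ε 1)) * one'
    refine ((q1.trans (p2 (ξ i))).add (dvd_succ (m := m) q4)).trans (dvd_of_eq ?_)
    linear_combination -hε i
  -- the change of coordinates over the small ring
  obtain ⟨ψ, hψ⟩ := (h1 F d T.two.toCm).1 (fun i => -(X ^ m * C (s * N i)))
    fun i => by rw [map_neg, map_mul, cc_X_pow hm, zero_mul, neg_zero]
  obtain ⟨ψ', hψ'⟩ := (h1 E d' T.two'.toCm).1 (fun i => -(X ^ m * C (j (s * N i))))
    fun i => by rw [map_neg, map_mul, cc_X_pow hm, zero_mul, neg_zero]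
  obtain ⟨-, -, -, t4, -, t6⟩ := (h1 F d T.two.toCm).2.2 _ ψ hψ
  have iσ : ∀ i, In S (X ^ m * C (s * N i)) := fun i =>
    in_mul (in_pow m) (in_C (S.mul_mem hs (T.mN i)))
  have i0 : In S (0 : F⟦X⟧) := fun _ => by rw [map_zero]; exact S.zero_mem
  have iχ := t4 S (fun q => T.mem _) T.st fun i => by
    rw [← zero_sub]; exact in_sub i0 (iσ i)
  have nχ := t6 E d' j ψ' T.nat (by
    simpa only [map_neg, map_mul (map j), map_pow, map_X, map_C] using hψ')
  obtain ⟨a1, a2, a3, a4⟩ := move h1 h2 T.two hψ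
  obtain ⟨b1, -, b3, b4⟩ := move h1 h2 T.two' hψ'
  have nr : ∀ u, X ^ m ∣ hat ψ u - u := fun u =>
    (dvd_add_left (dvd_mul_right _ _)).1 ((pow_dvd_pow _ m.le_succ).trans (a3 u))
  obtain ⟨ζ, hζ⟩ : ∃ ζ : Fin 2 → F⟦X⟧,
    ζ = fun i => C (e (MvPolynomial.X i)) - X ^ m * C (s * N i) := ⟨_, rfl⟩
  have iζ : ∀ i, In S (ζ i) := fun i => by rw [hζ]; exact in_sub (in_C (T.mem _)) (iσ i)
  have mζ : (fun i => C ((j.comp e) (MvPolynomial.X i)) - X ^ m * C (j (s * N i))) =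
      fun i => map j (ζ i) := by
    funext i
    rw [hζ, map_sub, map_mul (map j), map_pow, map_X, map_C, map_C, RingHom.comp_apply]
  obtain ⟨B2, hB2⟩ : ∃ B2, B2 = adj d ζ fun i => hat ψ (B i) := ⟨_, rfl⟩
  have iB2 : ∀ l, In S (B2 l) := fun l => by
    rw [hB2]; exact in_adj T.st iζ (fun i => iχ _ (hS.mem i)) l
  have c4 : ∀ u, vS d B2 (hat ψ u) = det d ζ * hat ψ (vS d B u) := fun u => by
    rw [hB2, hζ]; exact a4 B u
  have d4 : ∀ u, vS d' (fun l => map j (B2 l)) (hat ψ' u) =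
      map j (det d ζ) * hat ψ' (vS d' (fun l => map j (B l)) u) := fun u => by
    have := b4 (fun l => map j (B l)) u
    rw [mζ] at this
    simp only [nχ] at this
    rw [hB2, map_adj T.nat, map_det T.nat]
    exact this
  have eχ := (h5 k E (j.comp e) fun i => Φ (ξ i)).2.2.2.2 E (j.comp e) (hat ψ') (hat_X _) b1
  obtain ⟨μ2, hμ2⟩ : ∃ μ2, μ2 = map j (det d ζ) *
    hat ψ' ((1 + vS d' (fun l => map j (B l)) (-(X ^ m * C κ))) * Φ μ) := ⟨_, rfl⟩
  have e2 : ∀ i, vS d' (fun l => map j (B2 l)) (hat ψ' (Φ (ξ i))) =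
      μ2 * evS (j.comp e) (fun i => hat ψ' (Φ (ξ i))) (A i) := fun i => by
    rw [d4, p1, hS.eq, map_mul Φ, eΦ, ← mul_assoc _ (Φ μ), map_mul (hat ψ'), eχ, hμ2, mul_assoc]
  have n2 : ∀ i, X ^ (m + 1) ∣ hat ψ' (Φ (ξ i)) - C (j (e (MvPolynomial.X i))) := fun i => by
    obtain ⟨w, hw⟩ := n1 i
    have q1 : Φ (ξ i) = C ((j.comp e) (MvPolynomial.X i)) + X ^ m * (C (j (s * N i)) + X * w) := by
      rw [RingHom.comp_apply]
      linear_combination hw
    have q2 : cc (C (j (s * N i)) - vS d' (fun l => C (j (s * N l))) (Φ (ξ i))) = 0 := by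
      rw [q1, vS_add, vS_pow, vS_x T.two', map_sub, map_add, map_mul cc, cc_X_pow hm, zero_mul,
        add_zero, sub_self]
    refine (((b3 (Φ (ξ i))).add (n1 i)).add (dvd_succ (m := m) q2)).trans (dvd_of_eq ?_)
    ring
  -- the multiplier
  have yB : ∀ l, X ^ m ∣ map e (A l) - B2 l := fun l => by
    have q := near_adj T.two m (fun i => C (s * N i)) (fun i => hat ψ (B i)) l
    rw [← hζ, ← hB2] at q
    exact (((hS.cong l).sub (nr (B l))).sub q).trans (dvd_of_eq (by ring))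
  choose Y hY using yB
  have iY : ∀ i, In S (Y i) := fun i =>
    in_div (m := m) (by rw [← hY]; exact in_sub (in_map T.mem _) (iB2 i))
  have hY' : ∀ i, map j (map e (A i)) - map j (B2 i) = X ^ m * map j (Y i) := fun i => by
    rw [← map_sub, hY, map_mul, map_pow, map_X]
  have e3 : ∀ i, ∃ V Z, map j (B2 i) + X ^ m * (X * V) =
      μ2 * (map j (map e (A i)) + X ^ m * (X * Z)) := fun i => by
    obtain ⟨V, hV⟩ := vS_dvd d' (fun l => map j (B2 l)) (n2 i)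
    obtain ⟨Z, hZ⟩ := (h5 k E (j.comp e) _).2.1 (fun i => C ((j.comp e) (MvPolynomial.X i)))
      (m + 1) n2 (A i)
    rw [(h5 k E (j.comp e) ξ).1, ← mm] at hZ
    have q := vS_x T.two' (fun l => map j (B2 l)) i
    rw [RingHom.comp_apply] at q
    rw [vS_sub, e2, q] at hV
    exact ⟨V, Z, by linear_combination μ2 * hZ - hV⟩
  choose V Z hVZ using e3
  obtain ⟨ν, hμ, hν⟩ := mult (μ := μ2) (M := j (N 0)) (N := j (N 1)) hm (by
    rw [K3.cc_map, K3.cc_map j, cA', cA']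
    simp only [ham, Matrix.cons_val_zero, Matrix.cons_val_one, map_neg]
    linear_combination one') (hY' 0) (hY' 1) (hVZ 0) (hVZ 1)
  obtain ⟨r, hr⟩ : ∃ r, r = cc (Y 0) * N 1 - cc (Y 1) * N 0 := ⟨_, rfl⟩
  have rS : r ∈ S := by
    rw [hr]
    exact S.sub_mem (S.mul_mem (in_cc (iY 0)) (T.mN 1)) (S.mul_mem (in_cc (iY 1)) (T.mN 0))
  have cν : cc (ν + C (j r)) = 0 := by
    rw [map_add, hν, hr]
    simp only [map_mul, map_sub, constantCoeff_X, constantCoeff_C, K3.cc_map]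
    ring
  have iu : In S (1 + X ^ m * C r) := by
    refine in_add ?_ (in_mul (in_pow m) (in_C rS))
    rw [← pow_zero X]
    exact in_pow 0
  have mu : map j (1 + X ^ m * C r) = 1 + X ^ m * C (j r) := by
    rw [map_add, map_one, map_mul, map_pow, map_X, map_C]
  refine ⟨fun l => (1 + X ^ m * C r) * B2 l, fun i => hat ψ' (Φ (ξ i)),
    (1 + X ^ m * C (j r)) * μ2, hat ψ, (1 + X ^ m * C r) * det d ζ,
    ⟨fun i => in_mul iu (iB2 i), fun i => dvd_map T.inj ?_, n2, fun i => ?_⟩,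
    ⟨hat_X _, a1, iχ, nr, fun l => ?_, in_mul iu (in_det T.st iζ), ?_, fun u => ?_⟩⟩
  · obtain ⟨w, hw⟩ := X_dvd_iff.2 cν
    obtain ⟨m', rfl⟩ : ∃ m', m = m' + 1 := ⟨m - 1, by omega⟩
    refine ⟨(1 + X ^ (m' + 1) * C (j r)) * (V i - μ2 * Z i) -
      (w + X ^ m' * C (j r) * ν) * map j (map e (A i)), ?_⟩
    rw [map_sub, map_mul, mu]
    linear_combination (-(1 + X ^ (m' + 1) * C (j r))) * hVZ i -
      (1 + X ^ (m' + 1) * C (j r)) * map j (map e (A i)) * hμ -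
      X ^ (m' + 1) * map j (map e (A i)) * hw
  · rw [mul_assoc, ← e2]
    simp only [vS, map_mul (map j) (1 + X ^ m * C r), mu]
    ring
  · rw [a2]
    exact ⟨0, by ring⟩
  · have q := near_det T.two m fun i => C (s * N i)
    rw [← hζ] at q
    exact (q.add ((dvd_mul_right _ (C r)).mul_right (det d ζ))).trans (dvd_of_eq (by ring))
  · rw [mul_assoc, ← c4]
    simp only [vS]
    ring

end Pool.Agent.MP_05b4bd_ag.RV
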