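import Pool.Agent.MP_05b4bd_ag.rr.Bas
import Pool.Agent.MP_05b4bd_ag.esc.IL

/-! The radial frame: order of pole equals degree. -/

namespace Pool.Agent.MP_05b4bd_ag.RV

open PowerSeries LaurentSeries HC
open ES hiding Gen Ob Inf
open ES.U (TM Cr hom)
open PC3 (Fm fm d1 DF sub2 pb mapF Van CenK iS)

noncomputable section

namespace Ord

variable {k L : Type} [Field k] [CharZero k] [Field L] {d n : ℕ} (R : Rd k d n L)

theorem val : R.E R.f = wL L (-(d : ℤ)) := by
  have h1 := congrArg (coeL L) R.pu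
  have hx : ∀ z : L⟦X⟧, coeL L z = wL L 1 * (coeL L z * wL L (-1)) := fun z => by
    rw [mul_left_comm, wL_mul_neg, mul_one]
  have h2 : (coeL L).comp ((C : L →+* L⟦X⟧).comp R.κ) = (cL L).comp R.κ :=
    RingHom.ext fun c => coeL_C _
  rw [map_hev, h2, coeL_X, hx (R.p * C R.xb), hx (R.p * C R.yb), hev_eq _ _ R.gen.2.1, map_one,
    wL_pow, mul_one] at h1
  have h3 := wL_mul_neg (R := L) (d : ℤ)
  change MvPolynomial.eval₂ _ _ _ = _
  linear_combination (wL L (-(d : ℤ))) * h1 - (MvPolynomial.eval₂ ((cL L).comp R.κ)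
    ![coeL L (R.p * C R.xb) * wL L (-1), coeL L (R.p * C R.yb) * wL L (-1)] R.f) * h3

theorem nz {A : R2 k} {N : ℕ} (hA : A.IsHomogeneous N) (h : evp R.κ R.xb R.yb A = 0) : A = 0 := by
  obtain ⟨h1, h2, h3, h4, h5⟩ := R.cv
  let _ : Algebra k L := R.κ.toAlgebra
  let D' : Derivation k L L := Derivation.mk'
    { toFun := R.D
      map_add' := R.D.map_add
      map_smul' := fun c a => by
        have : ∀ z : L, c • z = R.κ c * z := fun _ => rfl
        rw [this, h1, h2, RingHom.id_apply, this, zero_mul, zero_add] }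
    fun a b => by
      change R.D (a * b) = a * R.D b + b * R.D a
      rw [h1]; ring
  have hcv : Esc.Cv (hc d R.f) D' ![R.xb, R.yb] := ⟨h3, h4, h5⟩
  have hd := R.d3
  have hF := hc_hom d R.f
  have hci := R.gen.tm.ci
  have hF0 := Esc.ne_zero_of_ci hF hci
  obtain ⟨v, hv⟩ := (hcv.ker hF (by omega) hci (u := A)).1 h
  generalize hc d R.f = F at hF hF0 hv
  by_contra hA0
  have hv0 : v ≠ 0 := by
    rintro rfl
    exact hA0 (by rw [hv, mul_zero])
  obtain ⟨e, he, he0⟩ := Esc.exists_top hv0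
  have e1 : A = v * F - v := by rw [hv]; ring
  have e2 : e + d = N := by
    by_contra hne
    have := hc_ne hA hne
    rw [e1, hc_sub, hc_mul_hom _ _ hF, he.hc_eq (k := e + d) (by omega), sub_zero] at this
    exact mul_ne_zero he0 hF0 this
  have e3 : ∀ i, i < N → hc i v = 0 := fun i => by
    induction i using Nat.strong_induction_on with
    | _ i ih =>
      intro hi
      have h6 := hc_ne hA hi.ne
      rw [e1, hc_sub, sub_eq_zero] at h6
      rw [← h6]
      rcases Nat.lt_or_ge i d with h7 | h7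
      · exact hc_of_mm (mm_mul (mm_zero v) (mm_hom hF)) (by omega)
      · obtain ⟨j, rfl⟩ : ∃ j, i = j + d := ⟨i - d, by omega⟩
        rw [hc_mul_hom _ _ hF, ih j (by omega) (by omega), zero_mul]
  exact he0 (e3 e (by omega))

theorem homE {u : R2 k} {e : ℕ} (hu : u.IsHomogeneous e) :
    R.E u = wL L (-(e : ℤ)) * coeL L (R.p ^ e * C (evp R.κ R.xb R.yb u)) := by
  have h1 : ∀ c : L, coeL L (R.p * C c) * wL L (-1) = (wL L (-1) * coeL L R.p) * cL L c :=
    fun c => by rw [map_mul, coeL_C]; ring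
  have h2 : cL L (evp R.κ R.xb R.yb u) =
      MvPolynomial.eval₂ ((cL L).comp R.κ) ![cL L R.xb, cL L R.yb] u := by
    change cL L (MvPolynomial.eval₂ _ _ _) = _
    rw [MvPolynomial.eval₂_comp_left]
    congr 1
    funext i
    fin_cases i <;> rfl
  change MvPolynomial.eval₂ _ _ _ = _
  rw [h1, h1, k4_hom _ hu, map_mul, coeL_C, h2, mul_pow, wL_pow, map_pow, mul_neg_one, mul_assoc]

theorem low {S : R2 k} {N : ℕ} (hS : DL N S) {m : ℤ} (hm : m ≤ -N) : (R.E S).coeff m = 0 := by
  rw [← Esc.sum_hc hS, map_sum, HahnSeries.coeff_sum]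
  refine Finset.sum_eq_zero fun i hi => ?_
  have := Finset.mem_range.1 hi
  rw [homE R (hc_hom i S), coeff_wL_mul, coeff_coeL_neg _ (by omega)]

theorem top {S : R2 k} {e : ℕ} (hS : DL (e + 1) S) :
    (R.E S).coeff (-(e : ℤ)) = evp R.κ R.xb R.yb (hc e S) := by
  have h1 : S = (S - hc e S) + hc e S := by ring
  have h2 : cc (R.p ^ e * C (evp R.κ R.xb R.yb (hc e S))) = evp R.κ R.xb R.yb (hc e S) := by
    rw [map_mul, map_pow, R.p0, one_pow, one_mul]
    exact constantCoeff_C _
  nth_rw 1 [h1]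
  rw [map_add, HahnSeries.coeff_add, low R hS.sub_hc le_rfl, zero_add, homE R (hc_hom e S),
    coeff_wL_mul, sub_self, ← h2]
  exact (coeff_coeL _ 0).trans (by rw [coeff_zero_eq_constantCoeff, h2]; exact h2)

theorem key {S : R2 k} (hS : S ≠ 0) : ∃ e : ℕ, DL (e + 1) S ∧ (R.E S).coeff (-(e : ℤ)) ≠ 0 := by
  obtain ⟨e, he, he0⟩ := Esc.exists_top hS
  exact ⟨e, he, by rw [top R he]; exact fun h => he0 (nz R (hc_hom e S) h)⟩

end Ord

theorem ordS : OrdStmt := by
  intro k L _ _ _ d n R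
  refine ⟨Ord.val R, (injective_iff_map_eq_zero _).2 fun S h => ?_, fun S N => ⟨fun h => ?_,
    fun h m hm => Ord.low R h (by push_cast; omega)⟩, fun A N hA h => Ord.nz R hA h⟩
  · by_contra hS
    obtain ⟨e, _, he⟩ := Ord.key R hS
    exact he (by rw [h]; rfl)
  · by_cases hS : S = 0
    · rw [hS]; exact DL.zero _
    · obtain ⟨e, he, he0⟩ := Ord.key R hS
      refine he.mono ?_
      by_contra h1
      exact he0 (h _ (by omega))

end

end Pool.Agent.MP_05b4bd_ag.RV
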