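import Pool.Agent.MP_05b4bd_ag.rr.Spec3

/-! The coordinate on the quotient at infinity has two branches. -/

namespace Pool.Agent.MP_05b4bd_ag.RV

open PowerSeries LaurentSeries HC
open ES hiding Gen Ob Inf

namespace P0b

/-- An invariant divisor does not contain a prime that is not invariant. -/
theorem not_dvd {R : Type} [CommRing R] [IsDomain R] [WfDvdMonoid R] {V : R →+ R} (hV : IsDer V)
    {a μ l : R} (ha : Prime a) (hμ : μ ≠ 0) (hj : ∀ j : ℕ, IsUnit ((j + 1 : ℕ) : R))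
    (e : V μ = μ * l) (hn : ¬ a ∣ V a) : ¬ a ∣ μ := by
  obtain ⟨j, m, hm, rfl⟩ := WfDvdMonoid.max_power_factor hμ ha.irreducible
  rcases j with _ | j
  · simpa using hm
  intro _
  rw [hV, hV.pow, Nat.add_sub_cancel] at e
  have e1 : a ^ j * (((j + 1 : ℕ) : R) * (V a * m)) = a ^ j * (a * (m * l - V m)) := by
    linear_combination e
  have e2 : a ∣ ((j + 1 : ℕ) : R) * (V a * m) :=
    ⟨_, mul_left_cancel₀ (pow_ne_zero j ha.ne_zero) e1⟩
  exact (ha.dvd_or_dvd ((hj j).dvd_mul_left.1 e2)).elim hn hm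

theorem dvd_cancel {R : Type} [CommRing R] [IsDomain R] {a μ y : R} (ha : Prime a)
    (hn : ¬ a ∣ μ) (h : μ ∣ a * y) : μ ∣ y := by
  obtain ⟨z, hz⟩ := h
  obtain ⟨z', rfl⟩ := (ha.dvd_or_dvd ⟨y, hz.symm⟩).resolve_left hn
  exact ⟨z', mul_left_cancel₀ ha.ne_zero (by rw [hz]; ring)⟩

variable {L : Type} [Field L]

theorem prime_a {a : AA L} {c : L⟦X⟧} (hc : IsUnit c) (h : red a = c * X) : Prime a := by
  obtain ⟨w, u, hw, hu, rfl⟩ := exists_w0 hc h
  have hw' : w ∈ up (⊥ : Ideal L) := mem_up_bot.2 hw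
  have f := fun g : AA L => factor (up (⊥ : Ideal L)) hw' (f := g)
  have hp : Prime (X - C w : AA L) := by
    refine ⟨fun z => ?_, fun z => ?_, fun g g' z => ?_⟩
    · have z1 := congrArg red z
      rw [map_sub, red_X, red_C, hw, map_zero, sub_zero, map_zero] at z1
      exact X_ne_zero z1
    · have z1 := (f 1).1 z.dvd
      rw [map_one] at z1
      exact one_ne_zero z1
    · rw [f, map_mul, mul_eq_zero] at z
      exact z.imp (f g).2 (f g').2
  exact (associated_mul_unit_right _ _ hu).prime hp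

theorem ord_unique {R : Type} [CommRing R] {m n : ℕ} {f : R⟦X⟧} (h : OrdIs m f) (h' : OrdIs n f) :
    m = n := by
  rcases lt_trichotomy m n with z | z | z
  exacts [(h.1 (h'.2 m z)).elim, z, (h'.1 (h.2 n z)).elim]

theorem coeff_top {R : Type} [CommRing R] {n : ℕ} {s g : R⟦X⟧} (h : OrdIs n s) (hs : cc s = 0)
    (hg : cc g = 0) : coeff n (sb s g) = coeff n s * coeff 1 g := by
  obtain ⟨g', rfl⟩ := X_dvd_iff.2 hg
  obtain ⟨u, hu, hu'⟩ := h.fac
  rw [map_mul, sb_X hs, ← hu', coeff_succ_X_mul, coeff_zero_eq_constantCoeff_apply,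
    ← cc_sb hs g']
  generalize sb s g' = y
  rw [hu, mul_assoc, coeff_X_pow_mul_self, map_mul]

/-- The symmetry of the chart. -/
noncomputable def T (η : L →+* L) (x : L) : AA L →+* AA L := (rescale (C x)).comp (mA η)

variable (η : L →+* L) (x : L)

theorem T_apply (u : AA L) : T η x u = rescale (C x) (mA η u) := rfl

theorem coeff_T (u : AA L) (j : ℕ) : coeff j (T η x u) = C (x ^ j) * map η (coeff j u) := by
  rw [T_apply, coeff_rescale, mA, coeff_map, map_pow]

theorem T_X : T η x X = CC x * X := by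
  rw [T_apply, mA_X, rescale_X, CC_apply]

theorem dX_T (u : AA L) : dX _ (T η x u) = CC x * T η x (dX _ u) := by
  rw [T_apply, dX_rescale, mA, dX_map]
  rfl

theorem cc_T (u : AA L) : cc (T η x u) = map η (cc u) := by
  rw [← coeff_zero_eq_constantCoeff_apply, coeff_T, pow_zero, map_one, one_mul,
    coeff_zero_eq_constantCoeff_apply]

theorem red_T (u : AA L) (j : ℕ) : coeff j (red (T η x u)) = x ^ j * η (coeff j (red u)) := by
  rw [coeff_red, coeff_T, map_mul, constantCoeff_C, coeff_red,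
    ← coeff_zero_eq_constantCoeff_apply, coeff_map, coeff_zero_eq_constantCoeff_apply]

theorem T_sb {ρ : AA L} (h : cc ρ = 0) (G : AA L) :
    T η x (sb ρ G) = sb (T η x ρ) (mA η G) := by
  have h1 : cc (map (map η) ρ : AA L) = 0 := by
    rw [← coeff_zero_eq_constantCoeff_apply, coeff_map, coeff_zero_eq_constantCoeff_apply, h,
      map_zero]
  rw [T_apply, T_apply, mA, map_sb h, rescale_eq_sb, rescale_eq_sb, sb_sb (by simp) h1]

theorem cw_T {D : L →+ L} (hD : IsDer D) (hx : D x = 0) (h : ∀ c, D (η c) = x ^ 2 * η (D c))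
    (u : AA L) : cw (cw D) (T η x u) = CC x ^ 2 * T η x (cw (cw D) u) := by
  refine PowerSeries.ext fun j => ?_
  have hj : cw D (C (x ^ j)) = 0 := by rw [cw_C, hD.pow, hx, mul_zero, map_zero]
  rw [coeff_cw, coeff_T, hD.coefw.const_mul hj, cw_map h, CC_apply, ← map_pow, ← map_pow,
    coeff_C_mul, coeff_T, coeff_cw, map_pow, map_pow]
  ring

end P0b

open P0b in
theorem p0bS (h1 : UnirStmt) (h2 : IdealStmt) (h3 : FacStmt) (h4 : CoprStmt) : P0bStmt := by
  intro k L _ _ _ _ κ D a b ρ B d n α η ξ hD hd ha hb hG hR hα hξ hκ hη Ta Tb hn hnd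
  have _ : CharZero L := (RingHom.charZero_iff κ.injective).1 inferInstance
  have _ := ufdA L
  have dL : (d : L) ≠ 0 := Nat.cast_ne_zero.2 (by omega)
  have uN : ∀ j : ℕ, j ≠ 0 → IsUnit (j : L⟦X⟧) := fun j hj => by
    rw [← map_natCast (C : L →+* L⟦X⟧)]
    exact (IsUnit.mk0 _ (Nat.cast_ne_zero.2 hj)).map _
  have ud : IsUnit (-(d : L⟦X⟧)) := (uN d (by omega)).neg
  have ha' : red a = -(d : L⟦X⟧) * X := by rw [ha, neg_mul]
  have pa : Prime a := prime_a ud ha'
  have oa : OrdIs 1 (red a) := by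
    have := ordIs_X_pow_mul 1 (u := -(d : L⟦X⟧)) (by simpa using (by omega : d ≠ 0))
    rwa [pow_one, mul_comm, ← ha'] at this
  have ca : cc a ≠ 0 := fun z => by
    obtain ⟨a', e⟩ := X_dvd_iff.2 z
    have e1 : red a' = -(d : L⟦X⟧) := by
      rw [e, map_mul, red_X, mul_comm] at ha'
      exact mul_right_cancel₀ X_ne_zero ha'
    have ua : IsUnit a' := by
      rw [isUnit_iff_constantCoeff, isUnit_iff_constantCoeff, ← c00_apply, ← cc_red, e1]
      exact ud.map _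
    exact hG.nd (by rw [e]; exact mul_dvd_mul_left _ ua.dvd)
  have uda : IsUnit (dX _ a) := by
    rw [isUnit_iff_constantCoeff, isUnit_iff_constantCoeff, ← c00_apply, ← cc_red, red, ← dX_map,
      K1b.cc_dX]
    exact IsUnit.mk0 _ oa.1
  obtain ⟨μ, hμ⟩ : a ∣ dX _ ρ := (pa.dvd_or_dvd (a := X * b)
    ⟨cw (cw D) ρ - sb ρ B, by linear_combination -hR.eq⟩).resolve_left hG.nd
  have hDρ : cw (cw D) ρ = sb ρ B + X * b * μ := mul_left_cancel₀ pa.ne_zero (by
    linear_combination hR.eq + X * b * hμ)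
  have c0 := hR.c0
  have r0 : cc (red ρ) = 0 := by rw [cc_red, c00_apply, c0, map_zero]
  obtain ⟨n', rfl⟩ : ∃ n', n = n' + 1 := by
    rcases n with _ | n
    · exact (hR.ord.1 (by rw [coeff_zero_eq_constantCoeff_apply, r0])).elim
    · exact ⟨n, rfl⟩
  have od : OrdIs n' (red a * red μ) := by
    rw [← map_mul, ← hμ, red, ← dX_map]
    refine ⟨?_, fun j hj => ?_⟩
    · rw [coeff_dX]
      exact mul_ne_zero hR.ord.1 (Nat.cast_add_one_ne_zero n')
    · rw [coeff_dX]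
      exact mul_eq_zero_of_left (hR.ord.2 _ (by omega)) _
  have rμ : red μ ≠ 0 := fun z => od.1 (by rw [z, mul_zero, map_zero])
  obtain ⟨m, hm⟩ := exists_ordIs rμ
  have hmn : 1 + m = n' := ord_unique (oa.mul hm).1 od
  have μ0 : μ ≠ 0 := fun z => rμ (by rw [z, map_zero])
  -- the vector field
  obtain ⟨V, hV, Vu⟩ : ∃ V : AA L →+ AA L, IsDer V ∧
      ∀ u, V u = a * cw (cw D) u - X * b * dX _ u :=
    ⟨_, (hD.coefw.coefw.mulLeft a).sub (isDer_dX.mulLeft (X * b)), fun _ => rfl⟩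
  have Vμ : V μ = μ * (dX _ (X * b) - cw (cw D) a + a * sb ρ (dX _ B)) := by
    have e := dX_cw (cw D) ρ
    rw [hDρ, hμ, hD.coefw.coefw, map_add, dX_sb c0, hμ, isDer_dX (X * b)] at e
    rw [Vu]
    linear_combination -e
  have nμ : ¬ a ∣ μ := by
    refine not_dvd hV pa μ0 (fun j => ?_) Vμ fun z => ?_
    · rw [← map_natCast (C : L⟦X⟧ →+* AA L)]
      exact (uN _ (by omega)).map _
    · rw [Vu] at z
      have z1 : a ∣ X * b * dX _ a := by
        simpa only [sub_sub_cancel] using dvd_sub (dvd_mul_right a (cw (cw D) a)) z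
      exact hG.nd (uda.dvd_mul_right.1 z1)
  have i1 : ∀ G, μ ∣ sb ρ G → μ ∣ sb ρ (cw (cw D) G + B * dX _ G) := fun G ⟨H, hH⟩ => by
    refine dvd_cancel pa nμ ⟨(dX _ (X * b) - cw (cw D) a + a * sb ρ (dX _ B)) * H + V H, ?_⟩
    have e := congrArg V hH
    rw [hV, Vμ, Vu, cw_sb c0 hD.coefw, dX_sb c0] at e
    rw [map_add, map_mul]
    linear_combination e - sb ρ (dX _ G) * hR.eq
  -- the symmetry
  have hx : IsPrimitiveRoot (κ ξ) d := hξ.map_of_injective κ.injective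
  generalize κ ξ = x at hη Ta Tb hx
  have x0 : x ≠ 0 := hx.ne_zero (by omega)
  have Dx : D x = 0 := by
    have e := hD.pow x d
    rw [hx.pow_eq_one, hD.one] at e
    exact (mul_eq_zero.1 e.symm).resolve_left (mul_ne_zero dL (pow_ne_zero _ x0))
  have ux : IsUnit (CC x : AA L) := (IsUnit.mk0 x x0).map _
  rw [← T_apply] at Ta Tb
  have cst : ∀ c, D c = 0 → η c = c := fun c hc => by
    obtain ⟨U, _, D1, i, r, e1, e2, -⟩ := hG.ex
    obtain ⟨s, hs⟩ := e2 (i c) (by rw [e1.2, hc, map_zero])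
    rw [i.injective hs, hκ]
  have cT : cc (T η x ρ) = 0 := by rw [cc_T, c0, map_zero]
  have RT : Rho D a b (T η x ρ) (CC x ^ 2 * mA η B) (n' + 1) := by
    refine ⟨cT, ⟨?_, fun j hj => ?_⟩, ?_, ?_, ?_⟩
    · rw [red_T]
      exact mul_ne_zero (pow_ne_zero _ x0) ((map_ne_zero η).2 hR.ord.1)
    · rw [red_T, hR.ord.2 j hj, map_zero, mul_zero]
    · refine Dvd.dvd.mul_left ?_ _
      rw [← mA_CX η]
      exact map_dvd _ hR.tB
    · rw [map_mul, mA, ← coeff_zero_eq_constantCoeff_apply (map _ B), coeff_map,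
        coeff_zero_eq_constantCoeff_apply, hR.cB, map_zero, mul_zero]
    · have e := congrArg (T η x) hR.eq
      rw [map_sub, map_mul, map_mul, map_mul, map_mul, Ta, T_X, T_sb η x c0] at e
      rw [cw_T η x hD Dx hη, dX_T, map_mul, map_pow, CC_apply, sb_C cT, ← CC_apply]
      linear_combination CC x * e + X * CC x * T η x (dX _ ρ) * Tb
  obtain ⟨Ψ, cΨ, hΨ⟩ := h1 k L κ D a b ρ B _ _ d _ α hD hd ha hb hG hR RT
  have Tμ : μ ∣ T η x μ := by
    have e := dX_T η x ρ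
    rw [hΨ, dX_sb c0, hμ, map_mul, Ta] at e
    refine (ux.mul ux).dvd_mul_left.1 ⟨sb ρ (dX _ Ψ), mul_left_cancel₀ pa.ne_zero ?_⟩
    linear_combination -e
  have i2 : ∀ G, μ ∣ sb ρ G → μ ∣ sb ρ (sb Ψ (mA η G)) := fun G hG' => by
    rw [sb_sb c0 cΨ, ← hΨ, ← T_sb η x c0]
    exact Tμ.trans (map_dvd _ hG')
  have top : co2 0 1 Ψ = x ^ (n' + 1) := by
    have e := red_T η x ρ (n' + 1)
    have rΨ : cc (red Ψ) = 0 := by rw [cc_red, c00_apply, cΨ, map_zero]
    have dr : D (coeff (n' + 1) (red ρ)) = 0 := by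
      have z := congrArg red hDρ
      rw [map_add, map_mul, map_mul, hb, mul_zero, zero_mul, add_zero, red, map_sb c0, ← red,
        red_eq_zero.2 hR.tB, map_zero] at z
      have z1 := congrArg (coeff (n' + 1)) z
      rwa [coeff_red, coeff_cw, cc_cw, ← coeff_red, map_zero] at z1
    rw [cst _ dr, hΨ, red, map_sb c0, ← red, coeff_top hR.ord r0 rΨ, mul_comm] at e
    rw [← mul_right_cancel₀ hR.ord.1 e, coeff_red, co2, coeff_zero_eq_constantCoeff_apply]
  have px := hx.pow_of_coprime _ hn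
  obtain ⟨e, he⟩ := h2 L D η ρ μ B Ψ m hD c0 hm hR.tB hR.cB cΨ (top ▸ pow_ne_zero _ x0)
    (fun e e1 e2 => top ▸ px.pow_ne_one_of_pos_of_lt (by omega) (by omega)) cst i1 i2
  obtain ⟨β, u, w, s1, s2, s3, s4, s5, s6, s7⟩ := h3 L ρ a μ _ α e c0 hR.ord hα oa ca hμ he
  exact ⟨β, u, w, s1, s2, s3,
    h4 L D a b ρ B u w d _ α β hD hd ha hb hG.min hR s1 s2 s4 s5 s7, s4, s5, s6, s7⟩

end Pool.Agent.MP_05b4bd_ag.RV
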