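import Pool.Agent.MP_05b4bd_ag.rr.Spec5

/-! A function of low type is not a bracket in a Morse chart. -/

namespace Pool.Agent.MP_05b4bd_ag.RV

open PowerSeries LaurentSeries HC
open ES hiding Gen Ob Inf
open ES.U (TM Cr hom)

namespace Per

variable {k : Type} [Field k]

theorem co_v (i j : ℕ) (c : AA k) : co2 i (j + 1) (X * c) = co2 i j c := by
  rw [co2, co2, coeff_succ_X_mul]

theorem co_v0 (i : ℕ) (c : AA k) : co2 i 0 (X * c) = 0 := by
  rw [co2, coeff_zero_X_mul, map_zero]

theorem co_u (i j : ℕ) (c : AA k) : co2 (i + 1) j (C X * c) = co2 i j c := by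
  rw [co2, co2, coeff_C_mul, coeff_succ_X_mul]

theorem co_u0 (j : ℕ) (c : AA k) : co2 0 j (C X * c) = 0 := by
  rw [co2, coeff_C_mul, coeff_zero_X_mul]

theorem co_c (i j : ℕ) (r : k) (c : AA k) : co2 i j (CC r * c) = r * co2 i j c := by
  rw [co2, co2, CC, RingHom.comp_apply, coeff_C_mul, coeff_C_mul]

theorem co00 (c : AA k) : co2 0 0 c = c00 c := by
  rw [co2, c00_apply, coeff_zero_eq_constantCoeff_apply, coeff_zero_eq_constantCoeff_apply]

/-- The diagonal coefficients of `al v + be u` and of the divergence. -/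
theorem diag [CharZero k] (al be : AA k) :
    (∀ n, co2 n n (X * al + C X * be) = 0) ↔
      ∀ n, co2 n n (cw (dX k) al + dX k⟦X⟧ be) = 0 := by
  have key : ∀ n, co2 n n (cw (dX k) al + dX k⟦X⟧ be) =
      co2 (n + 1) (n + 1) (X * al + C X * be) * (n + 1) := fun n => by
    rw [co2_add, co2_add, co2_cw_dX, co2_dX, co_v, co_u]
    ring
  refine ⟨fun h n => by rw [key, h, zero_mul], fun h n => ?_⟩
  cases n with
  | zero => rw [co2_add, co_v0, co_u0, add_zero]
  | succ n =>
    exact (mul_eq_zero.1 ((key n).symm.trans (h n))).resolve_right (Nat.cast_add_one_ne_zero n)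

variable {f : R2 k} {p : Fin 2 → k} {e : R2 k →+* AA k} {d : Fin 2 → AA k →+ AA k}

theorem ef (M : Mc f p e d) (i : Fin 2) :
    e (MvPolynomial.pderiv i f) = d i (C X) * X + C X * d i X := by
  rw [← M.two.der i, ← M.nf, M.two.ext, map_sub, MvPolynomial.pderiv_C, sub_zero]

theorem hamE (M : Mc f p e d) (y : AA k) : D0 e d f y = jM d * Lh y := by
  rw [D0, ef M, ef M, M.ch2 0 y, M.ch2 1 y]
  simp only [jM, Lh, dA, Matrix.cons_val_zero, Matrix.cons_val_one]
  ring

end Per

open Per in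
theorem perS (h1 : HomStmt) (h2 : UM.IrrStmt) : PerStmt := by
  intro k _ _ d f g p e dd hd hf M ⟨a0, b0, hg, hl, hne⟩
  refine ⟨hamE M, fun y0 hy => hne ?_⟩
  have c1 := M.ch1
  have c2 := M.ch2
  simp only [Fin.forall_fin_two, dA, Matrix.cons_val_zero, Matrix.cons_val_one] at c1 c2
  have du : IsDer (cw (dX k)) := isDer_dX.coefw
  have dv : IsDer (dX k⟦X⟧) := isDer_dX
  have ex := M.two.ext
  set x := e (MvPolynomial.X 0)
  set y := e (MvPolynomial.X 1)
  set J : AA k := cw (dX k) x * dX k⟦X⟧ y - dX k⟦X⟧ x * cw (dX k) y with hJ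
  have hj : jM dd * J = 1 := by
    have x0 : dd 0 x = 1 := by rw [ex]; simp
    have x1 : dd 1 x = 0 := by rw [ex]; simp
    have y0 : dd 0 y = 0 := by rw [ex]; simp
    have y1 : dd 1 y = 1 := by rw [ex]; simp
    rw [c2.1] at x0 y0
    rw [c2.2] at x1 y1
    rw [jM, hJ]
    linear_combination (dd 1 (C X) * cw (dX k) y + dd 1 X * dX k⟦X⟧ y) * x0 + y1 -
      (dd 0 (C X) * cw (dX k) y + dd 0 X * dX k⟦X⟧ y) * x1
  have lh : ∀ z n, co2 n n (J * D0 e dd f z) = 0 := fun z =>
    ((h1 k).1 _).1 ⟨z, by rw [hamE M]; linear_combination -Lh z * hj⟩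
  let N : Submodule k (R2 k) :=
    { carrier := {w | ∀ n, co2 n n (J * e w) = 0}
      add_mem' := fun {a b} ha hb n => by
        rw [map_add, mul_add, co2_add, ha n, hb n, add_zero]
      zero_mem' := fun n => by rw [map_zero, mul_zero, co2_zero]
      smul_mem' := fun c w hw n => by
        rw [MvPolynomial.smul_eq_C_mul, map_mul, M.con, mul_left_comm, co_c, hw n, mul_zero] }
  have mem : ∀ w, w ∈ N ↔ ∀ n, co2 n n (J * e w) = 0 := fun _ => Iff.rfl
  have nf : e f = C X * X + CC (MvPolynomial.eval p f) := by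
    rw [← M.nf, map_sub, M.con, sub_add_cancel]
  have fu : cw (dX k) (e f) = X := by
    rw [nf, map_add, du, CC, RingHom.comp_apply, cw_C, cw_C, dX_X, dX_C, cw_X isDer_dX.one]
    simp
  have fv : dX k⟦X⟧ (e f) = C X := by
    rw [nf, map_add, dv, CC, RingHom.comp_apply, dX_C, dX_C, dX_X]
    simp
  have iff : ∀ a b : R2 k, a * MvPolynomial.pderiv 0 f + b * MvPolynomial.pderiv 1 f ∈ N ↔
      MvPolynomial.pderiv 0 a + MvPolynomial.pderiv 1 b ∈ N := fun a b => by
    have e1 : J * e (a * MvPolynomial.pderiv 0 f + b * MvPolynomial.pderiv 1 f) =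
        X * (e a * dX k⟦X⟧ y - e b * dX k⟦X⟧ x) +
          C X * (e b * cw (dX k) x - e a * cw (dX k) y) := by
      have u1 := c1.1 (e f)
      have u2 := c1.2 (e f)
      rw [fu, ex, ex] at u1
      rw [fv, ex, ex] at u2
      rw [map_add, map_mul, map_mul, hJ]
      linear_combination -(e a * dX k⟦X⟧ y - e b * dX k⟦X⟧ x) * u1 -
        (e b * cw (dX k) x - e a * cw (dX k) y) * u2
    have e2 : J * e (MvPolynomial.pderiv 0 a + MvPolynomial.pderiv 1 b) =
        cw (dX k) (e a * dX k⟦X⟧ y - e b * dX k⟦X⟧ x) +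
          dX k⟦X⟧ (e b * cw (dX k) x - e a * cw (dX k) y) := by
      rw [map_sub, map_sub, du, du, dv, dv, dX_cw, dX_cw, c1.1 (e a), c1.1 (e b), c1.2 (e a),
        c1.2 (e b), map_add, ← ex, ← ex, hJ]
      ring
    rw [mem, mem, e1, e2, diag]
  have n1 : ∀ v, br v f ∈ N := fun v n => by
    have : e (br v f) = D0 e dd f (e v) := by
      simp only [D0, ex, br, map_sub, map_mul]
      ring
    rw [this, lh]
  have n2 : ∀ u ∈ N, f * u ∈ N := fun u hu n => by
    have : J * e (f * u) = C X * (X * (J * e u)) + CC (MvPolynomial.eval p f) * (J * e u) := by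
      rw [map_mul, nf]; ring
    rw [this, co2_add, co_c, hu n, mul_zero, add_zero]
    cases n with
    | zero => exact co_u0 _ _
    | succ n => rw [co_u, co_v, hu n]
  rcases (h2 k d f (by omega) hf).2 N n1 n2 iff with h | h
  · obtain ⟨v, hv⟩ := h _ ((iff a0 b0).1 (hg ▸ fun n => hy ▸ lh y0 n))
    refine UM.Tor4.jac_low (by omega) hf ?_ hl
    exact Ideal.mem_span_pair.2 ⟨-MvPolynomial.pderiv 1 v, MvPolynomial.pderiv 0 v, by
      rw [hv, br]; ring⟩
  · have h0 := (mem 1).1 (h ▸ Submodule.mem_top) 0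
    have := congrArg c00 hj
    rw [map_one, mul_one, Per.co00] at h0
    rw [map_mul, h0, mul_zero, map_one] at this
    exact absurd this zero_ne_one

end Pool.Agent.MP_05b4bd_ag.RV
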