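import Pool.Agent.MP_05b4bd_ag.rr.Bas
import Mathlib.RingTheory.RootsOfUnity.AlgebraicallyClosed

/-! The data of a first integral in the normalised radial frame. -/

namespace Pool.Agent.MP_05b4bd_ag.RV

open PowerSeries LaurentSeries HC
open ES hiding Gen Ob Inf
open ES.U (TM Cr hom)
open PC3 (Fm fm d1 DF sub2 pb mapF Van CenK iS)

namespace Pk

variable {k L : Type} [Field k] [Field L]

theorem c00_mapC (c : L⟦X⟧) : c00 (map (C : L →+* L⟦X⟧) c) = cc c := by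
  change cc (cc (map (C : L →+* L⟦X⟧) c)) = cc c
  rw [cc, cc, ← coeff_zero_eq_constantCoeff_apply (map _ c), coeff_map, constantCoeff_C,
    coeff_zero_eq_constantCoeff_apply]

theorem frm [CharZero k] {d n : ℕ} (R : Rd k d n L) : Frm R.κ R.D d R.f R.x R.y := by
  have ex : c00 R.x = R.xb := by
    rw [Rd.x, c00_mapC, map_mul, R.p0, one_mul]
    exact constantCoeff_C _
  have ey : c00 R.y = R.yb := by
    rw [Rd.y, c00_mapC, map_mul, R.p0, one_mul]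
    exact constantCoeff_C _
  refine ⟨by rw [ex, ey]; exact R.cv, by rw [ex, ey]; exact R.gb, ?_⟩
  rw [Rd.x, Rd.y, red_mapC, red_mapC]
  exact R.pu

theorem not_exotic [CharZero k] {n : ℕ} {ω : k} (hω : IsPrimitiveRoot ω n) (h : ω ^ 2 = -1)
    (ha : Adm 3 n) : False := by
  have h2 : ¬ n ∣ 2 := fun hn => by
    have e := (hω.pow_eq_one_iff_dvd 2).2 hn
    rw [h] at e
    norm_num at e
  rcases ha.2 with e | e
  · exact h2 e
  · exact h2 (e.1.trans (by norm_num))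

theorem ord_pow (d : ℕ) : OrdIs d ((X : L⟦X⟧) ^ d) :=
  ⟨by simp [coeff_X_pow], fun j hj => by simp [coeff_X_pow, hj.ne]⟩

theorem sig [CharZero L] {d : ℕ} (hd : 1 ≤ d) {σ : L⟦X⟧} {z : L} {φ : L⸨X⸩ →+* TT L}
    (hz : z ≠ 0) (h0 : cc σ = 0) (h1 : coeff 1 σ = z⁻¹)
    (hr : ∀ c, cc (φ (coeL L c)) = coeL L (sb σ c))
    (hw : cc (φ (wL L (-(d : ℤ)))) = cL L (z ^ d) * wL L (-(d : ℤ))) : σ = C z⁻¹ * X := by
  have h0' : cc (C z⁻¹ * X : L⟦X⟧) = 0 := by simp [cc]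
  have e1 : wL L (d : ℤ) * wL L (-(d : ℤ)) = 1 := wL_mul_neg _
  have e2 : cc (φ (coeL L (X ^ d))) * cc (φ (wL L (-(d : ℤ)))) = 1 := by
    rw [← map_mul, ← map_mul, coeL_X_pow, e1, map_one, map_one]
  rw [hr, hw, map_pow, sb_X h0] at e2
  have e3 : coeL L (σ ^ d * C (z ^ d)) = coeL L (X ^ d) := by
    rw [map_mul, coeL_C, coeL_X_pow]
    calc coeL L (σ ^ d) * cL L (z ^ d)
        = coeL L (σ ^ d) * cL L (z ^ d) * (wL L (d : ℤ) * wL L (-(d : ℤ))) := by rw [e1, mul_one]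
      _ = wL L (d : ℤ) * (coeL L (σ ^ d) * (cL L (z ^ d) * wL L (-(d : ℤ)))) := by ring
      _ = wL L (d : ℤ) := by rw [e2, mul_one]
  have e4 := coeL_inj e3
  refine sig_unique hd (ord_pow d) h0 h0' (by rw [h1]; exact inv_ne_zero hz) (by simp [h1]) ?_
  rw [map_pow, map_pow, sb_X h0, sb_X h0', mul_pow, ← e4, mul_comm (σ ^ d), ← mul_assoc,
    ← map_pow, ← map_mul, ← mul_pow, inv_mul_cancel₀ hz, one_pow, map_one, one_mul]

end Pk

theorem pkS (h1 : MkiStmt) (h2 : RunStmt) (h3 : AdmStmt) (h4 : P0bStmt) (h5 : EtaStmt)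
    (h6 : ObsStmt) : PkStmt := by
  intro k L _ _ _ _ d n α R o hf hG
  have hd := R.d3
  have : CharZero L := charZero_of_injective_ringHom R.κ.injective
  obtain ⟨I, eκ, eD, ef, eg, -, -, ea, eb⟩ :=
    h1 k L d o R.κ R.D R.x R.y (by omega) (by rw [hf]; exact Pk.frm R)
  have ea' : I.a = R.a (o.P, o.Q) := ea
  have eb' : I.b = R.b (o.P, o.Q) := eb
  obtain ⟨hn, hlow, ρ, B, σ, Φ, φ, c0, hρ, hα, s0, s1, hdk, hw, halt⟩ :=
    h2 k L d I n α R.ζ⁻¹ hd (by rw [eκ, eD, ea', eb']; exact hG) R.prim.inv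
  have hζ : R.ζ ≠ 0 := R.prim.ne_zero (by omega)
  have hc0 : c0 = 0 := by
    rcases halt with ⟨c, hc⟩ | ⟨e3, e, -⟩
    · rw [inv_inv, ef, hf] at hc
      exact ((h3 k d R.f hd R.gen.tm).2.2 R.ζ c0 c hζ R.sym hc).2
    · subst e3
      exact (Pk.not_exotic R.prim.inv e R.adm).elim
  rw [hc0, map_zero, map_zero, add_zero, inv_inv, eκ, map_pow] at hw
  rw [eκ, eD] at hdk
  rw [eD, ea', eb'] at hρ
  have hσ : map R.κ σ = C (R.κ R.ζ⁻¹) * X := by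
    rw [map_inv₀]
    refine Pk.sig (d := d) (by omega) ((map_ne_zero R.κ).2 hζ) ?_ ?_ hdk.red hw
    · rw [cc, ← coeff_zero_eq_constantCoeff_apply, coeff_map, coeff_zero_eq_constantCoeff_apply]
      exact (congrArg R.κ s0).trans (map_zero _)
    · rw [coeff_map, s1, map_inv₀]
  rw [hσ] at hdk
  have ra := I.ra
  have rb := I.rb
  have hv := I.hv
  rw [ea'] at ra
  rw [eb'] at rb
  rw [ea', eb'] at hv
  have : NeZero d := ⟨by omega⟩
  obtain ⟨ξ, hξ⟩ := HasEnoughRootsOfUnity.exists_primitiveRoot k d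
  obtain ⟨η, t1, t2, t3⟩ := h5 k L d n R ξ hξ.pow_eq_one
  obtain ⟨β, u, w, hs, hfac⟩ := h4 k L R.κ R.D _ _ ρ B d n α η ξ R.cv.1 (by omega) ra rb hG hρ hα
    hξ t1 t2 (t3 _).1 (t3 _).2 (R.adm.cop hd) ((R.adm.le hd).trans (by omega))
  refine ⟨?_, β, ρ, B, u, w, I.vb, Φ, φ, hs, hG.nd, ra, rb, hρ, hfac, hv, hdk⟩
  rw [← hf]
  rw [ef, eg] at hlow
  exact (h6 k d o (by omega)).2.2.1 hlow

end Pool.Agent.MP_05b4bd_ag.RV
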