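import Pool.Agent.MP_05b4bd_ag.rr.Spec2

/-! The module of a Morse polynomial with its periods at infinity. -/

namespace Pool.Agent.MP_05b4bd_ag.RV

open PowerSeries LaurentSeries HC
open ES hiding Gen Ob Inf
open ES.U (TM Cr hom)

theorem pkgS (h1 : ES.GlcStmt) (h2 : ES.EvbStmt) (h3 : UM.GmStmt) (h4 : UM.IrrStmt)
    (h5 : UM.BasStmt) (h6 : UM.PmaStmt) (h7 : UM.PmbStmt) : PkgStmt := by
  intro k L _ _ _ κ D d f x0 y0 d3 gen cv gb fr
  let : Algebra k L := κ.toAlgebra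
  have hκ : algebraMap k L = κ := rfl
  have hT : TM d f := gen.tm
  have hev := h2 k L κ D d _ _ _ (by omega) (hc_hom d f) hT.ci gen.2.2.2.2.1 gen.2.2.2.2.2 cv gb
  obtain ⟨-, c, e, BB, hc', he', hB, hG⟩ := h1 k L D d f x0 y0 (by omega) cv fr
  rw [hκ] at hc' he'
  have hev' : ∀ r, e r ∈ BB → Bt (HC.hc d f) r := fun r hr => by
    obtain ⟨z, hz⟩ := (hB _).1 hr
    exact hev r z (by rw [← he', hz])
  obtain ⟨n, p, hCr⟩ := hT.cr
  obtain ⟨G, _, _, B, π, hP⟩ := h3 k d n f p (by omega) hT hCr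
  have irr := (h4 k d f (by omega) hT).1 G n B p π hP
  obtain ⟨m, eb, δ, hBas⟩ := h5 k d (HC.hc d f) (by omega) (hc_hom d f) hT.ci
  obtain ⟨P, lam, l, hPer, hlam, hl, hPc, hPh, hPθ⟩ :=
    h6 k G L (Fin m) d n B f p π c e BB eb δ (by omega) hT hP hG hev' hBas
  refine ⟨n, p, G, _, _, B, π, m, _, P, lam, fun i => (l i).toAddMonoidHom, hCr, hP,
    h7 k G (Fin m) d n B f p π eb δ P lam d3 hT hP hBas hPer hlam irr hPh hPθ, hPer,
    fun i c z => (l i).map_smul c z, fun i z => hl i _ ((hB _).2 ⟨_, rfl⟩), fun u i => ?_⟩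
  ext j
  rw [hPc, hc']
  rfl

end Pool.Agent.MP_05b4bd_ag.RV
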