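import Pool.Agent.MP_05b4bd_ag.rr.Bas

/-! A fraction with denominator in `k[f]` that is regular along every fibre is a polynomial. -/

namespace Pool.Agent.MP_05b4bd_ag.RV

namespace Poly

theorem key {k R F : Type} [Field k] [IsAlgClosed k] [CommRing R] [Algebra k R] [Field F]
    {e : R →+* F} (he : Function.Injective e) {f : R} {z : F}
    (hp : ∀ c, Prime (f - algebraMap k R c))
    (ho : ∀ c, ∃ u v : R, ¬ f - algebraMap k R c ∣ v ∧ e v * z = e u) (n : ℕ) :
    ∀ (q : Polynomial k) (u : R), q.natDegree = n → q ≠ 0 → e (Polynomial.aeval f q) * z = e u →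
      ∃ u, z = e u := by
  induction n with
  | zero =>
    intro q u hn hq h
    obtain ⟨c, rfl⟩ := Polynomial.natDegree_eq_zero.1 hn
    have hc : c ≠ 0 := fun g => hq (by rw [g, map_zero])
    refine ⟨algebraMap k R c⁻¹ * u, ?_⟩
    rw [map_mul, ← h, Polynomial.aeval_C, ← mul_assoc, ← map_mul, ← map_mul, inv_mul_cancel₀ hc,
      map_one, map_one, one_mul]
  | succ n ih =>
    intro q u hn hq h
    obtain ⟨c, hc⟩ := IsAlgClosed.exists_root q
      (Polynomial.natDegree_pos_iff_degree_pos.1 (by omega)).ne'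
    obtain ⟨p, rfl⟩ := Polynomial.dvd_iff_isRoot.2 hc
    have p0 : p ≠ 0 := right_ne_zero_of_mul hq
    rw [Polynomial.natDegree_mul (Polynomial.X_sub_C_ne_zero c) p0,
      Polynomial.natDegree_X_sub_C] at hn
    rw [map_mul, map_sub, Polynomial.aeval_X, Polynomial.aeval_C] at h
    obtain ⟨u', v, h1, h2⟩ := ho c
    have h3 : v * u = (f - algebraMap k R c) * (Polynomial.aeval f p * u') := he (by
      rw [map_mul, ← h, ← mul_assoc, mul_comm (e v), mul_assoc, h2, ← map_mul, mul_assoc])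
    obtain ⟨w, rfl⟩ := ((hp c).dvd_or_dvd ⟨_, h3⟩).resolve_left h1
    rw [map_mul, map_mul, mul_assoc] at h
    exact ih p w (by omega) p0
      (mul_left_cancel₀ ((map_ne_zero_iff e he).2 (hp c).ne_zero) h)

end Poly

theorem polyS : PolyStmt := fun k _ _ _ _ hp ⟨q, u, hq, h⟩ ho =>
  Poly.key (IsFractionRing.injective (HC.R2 k) (FF k)) hp ho _ q u rfl hq h

end Pool.Agent.MP_05b4bd_ag.RV
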