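import Pool.Agent.MP_05b4bd_ag.rr.V0
import Pool.Agent.MP_05b4bd_ag.esc3.PassA

/-! Blocks of the chain for a Morse polynomial transversal to infinity. -/

section
namespace Pool.Agent.MP_05b4bd_ag.ES.V

open PowerSeries LaurentSeries HC

namespace Base
open Pool.Agent.MP_05b4bd_ag.ES.Base

variable {k k' L L' : Type} [Field k] [Field k'] [Field L] [Field L']

/-- Transport of the data at infinity along a map of differential function fields. -/
theorem push [CharZero k] [CharZero k'] {d : ℕ} (I : Inf k d L) (jk : k →+* k') (jl : L →+* L')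
    (κ' : k' →+* L') (D' : L' →+ L') (hD : DExt I.D D' jl) (h0 : ∀ c, D' (κ' c) = 0)
    (h : ∀ c, jl (I.κ c) = κ' (jk c)) (hg : gf κ' (jl (cc I.x0)) (jl (cc I.y0)) = ⊤)
    (hG : Gen d (MvPolynomial.map jk I.f)) :
    ∃ I' : Inf k' d L', I'.κ = κ' ∧ I'.D = D' ∧ I'.a = mA jl I.a ∧ I'.b = mA jl I.b := by
  obtain ⟨-, -, c1, c2, c3⟩ := I.cv
  refine ⟨⟨κ', D', MvPolynomial.map jk I.f, MvPolynomial.map jk I.g, map jl I.x0, map jl I.y0,
    mA jl I.a, mA jl I.b, mT jl I.vb, mT jl I.h, mT jl I.Xi, I.n, hG, fun u hu => ?_,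
    jac_map jk I.jac, ⟨hD.1, h0, ?_, ?_, ?_⟩, hg, ?_, ?_, ?_, ?_, I.n1, ?_, ?_, ?_, ?_⟩,
    rfl, rfl, rfl, rfl⟩
  · obtain ⟨v, hv⟩ := br_desc jk hu
    exact I.ng v hv
  · rw [hc_map]
    exact (evp_map jl h (cc I.x0) (cc I.y0) _).trans (by rw [c1, map_one])
  · rw [hc_map, MvPolynomial.pderiv_map]
    exact (hD.2 (cc I.x0)).trans (by rw [c2]; exact (evp_map jl h _ _ _).symm)
  · rw [hc_map, MvPolynomial.pderiv_map]
    exact (hD.2 (cc I.y0)).trans
      (by rw [c3, map_neg]; exact congrArg _ (evp_map jl h _ _ _).symm)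
  · rw [EL_map jl h, I.fr, mapL_wL]
  · rw [red_mA, I.ra, map_neg, map_mul, map_natCast, map_X]
  · rw [red_mA, I.rb, map_zero]
  · rw [← mT_iT, ← mT_iT, ← map_mul, I.hv]
  · rw [cc_mT, I.rh, mapL_wL]
  · rw [VT_map hD.2, I.hV, map_mul, map_pow, mT, map_X]
  · rw [cc_mT, I.rX, GLc_map jl h hD.2]
  · intro nd U _ D1 i r hi r0 rc hr
    refine I.nfi (fun e => nd ?_) U D1 (i.comp jl) r ⟨hi.1, fun c => ?_⟩ r0 rc ?_
    · have := map_dvd (mA jl) e
      rwa [map_mul, mA_X] at this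
    · rw [RingHom.comp_apply, hi.2, hD.2, RingHom.comp_apply]
    · rwa [mA_mA, mA_mA] at hr

end Base

open Pool.Agent.MP_05b4bd_ag.ES.Base hiding push
open Pool.Agent.MP_05b4bd_ag.ES.V.Base

theorem baseS (h1 : GenTopStmt) (h2 : DerAlgStmt) : BaseStmt := by
  intro k L U _ _ _ _ d I D1 i hd hD
  have : CharZero U := charZero_of_injective_ringHom (i.comp I.κ).injective
  let k' := AlgebraicClosure U
  let g : U →+* k' := algebraMap U k'
  have : CharZero k' := charZero_of_injective_ringHom g.injective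
  have : CharZero k'⸨X⸩ := charZero_of_injective_ringHom (cL_inj (R := k'))
  obtain ⟨τ, t0, t1, -⟩ := exists_tayl hD.1 g
  let j : U →+* k'⸨X⸩ := (coeL k').comp τ
  have hj : ∀ c, dL k' (j c) = j (D1 c) := fun c => by
    simp only [j, RingHom.comp_apply, dL_coeL, t1]
  let jk : k →+* k' := g.comp (i.comp I.κ)
  have hk : ∀ c, j (i (I.κ c)) = cL k' (jk c) := fun c => by
    have e : dX k' (τ (i (I.κ c))) = 0 := by rw [t1, hD.2, I.cv.2.1, map_zero, map_zero]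
    simp only [j, jk, RingHom.comp_apply]
    rw [eq_C_of_dX e, t0, coeL_C]
  let N : Subfield k'⸨X⸩ := gf (cL k') (j (i (cc I.x0))) (j (i (cc I.y0)))
  have n0 : ∀ c, cL k' c ∈ N := fun c => Subfield.subset_closure (Or.inl ⟨c, rfl⟩)
  have n1 : ∀ c, (j.comp i) c ∈ N :=
    gf_mem I.gb (j.comp i) (fun c => by rw [RingHom.comp_apply, hk]; exact n0 _)
      (Subfield.subset_closure (Or.inr (Or.inl rfl)))
      (Subfield.subset_closure (Or.inr (Or.inr rfl)))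
  have d0 : ∀ c, dL k' (cL k' c) = 0 := fun c => by rw [dL_apply, thL_cL, mul_zero]
  have n2 : ∀ z ∈ N, dL k' z ∈ N := by
    refine (h2 k'⸨X⸩ N).2.2.2.2.2 (dL k') isDer_dL _ ?_
    have n3 : ∀ c, j (i c) ∈ N ∧ dL k' (j (i c)) ∈ N := fun c =>
      ⟨n1 c, by rw [hj, hD.2]; exact n1 _⟩
    rintro z (⟨c, rfl⟩ | rfl | rfl)
    exacts [⟨n0 c, by rw [d0]; exact N.zero_mem⟩, n3 _, n3 _]
  let D' : N →+ N :=
    { toFun := fun z => ⟨dL k' z, n2 z z.2⟩
      map_zero' := Subtype.ext (map_zero (dL k'))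
      map_add' := fun a b => Subtype.ext (map_add (dL k') a.1 b.1) }
  let κ' : k' →+* N := (cL k').codRestrict N n0
  let jl : L →+* N := (j.comp i).codRestrict N n1
  have hD' : DExt I.D D' jl :=
    ⟨fun a b => Subtype.ext (isDer_dL a.1 b.1),
      fun c => Subtype.ext ((hj (i c)).trans (congrArg j (hD.2 c)))⟩
  obtain ⟨I', e1, e2, e3, e4⟩ := push I jk jl κ' D' hD' (fun c => Subtype.ext (d0 c))
    (fun c => Subtype.ext (hk c)) (gf_top _ _ _ κ' _ _ (fun _ => rfl) rfl rfl)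
    ((h1 k d I.f hd I.gen).2.2.2.2 k' jk)
  refine ⟨k', N, k'⸨X⸩, inferInstance, inferInstance, inferInstance, inferInstance, inferInstance,
    I', dL k', N.subtype, jl, j, ?_, ?_, ⟨isDer_dL, hj⟩, fun _ => rfl, e3, e4, fun c hc => ?_⟩
  · rw [e2]
    exact ⟨isDer_dL, fun _ => rfl⟩
  · rw [e2]
    exact hD'
  · rw [e1]
    exact const_dL hc

end Pool.Agent.MP_05b4bd_ag.ES.V
end

section
namespace Pool.Agent.MP_05b4bd_ag.ES.V

open PowerSeries LaurentSeries HC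

namespace Bnum
open Pool.Agent.MP_05b4bd_ag.ES.Bnum

variable {k : Type} [Field k]

/-- The orders before ramification. -/
theorem base (hq : PeqStmt) [CharZero k] {d : ℕ} (o : PD k d) (hd : 1 ≤ d) {t : k⟦X⟧}
    (hz : t * o.Us ∣ o.zs) (hb : ∀ i, 1 ≤ i → t ∣ co2 i 0 o.b) (he : ∀ i, 2 ≤ i → t ∣ co2 i 0 o.e) :
    t * o.Us ∣ co2 0 0 o.b ∧ t * o.Us ∣ co2 1 0 o.e ∧ t * o.Us ^ 2 ∣ co2 0 0 o.e := by
  obtain ⟨r1, r2, r3, r4, b1, e2, h1, h2, h3, h4, h5⟩ := hq k d o hd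
  have k1 : C t ∣ b1 := (C_dvd_iff _ _).2 fun i => by
    have := hb (i + 1) (by omega)
    rwa [co2_cc, h1, map_add, coeff_succ_X_mul, coeff_C, if_neg (by omega), zero_add] at this
  have k2 : C t ∣ e2 := (C_dvd_iff _ _).2 fun i => by
    have := he (i + 2) (by omega)
    rwa [co2_cc, h2, map_add, map_add, coeff_X_pow_mul, coeff_C, if_neg (by omega), zero_add,
      coeff_C_mul, coeff_X, if_neg (by omega), mul_zero, zero_add] at this
  have k3 : C t ∣ 2 * e2 + X * dX _ e2 := by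
    obtain ⟨g, rfl⟩ := k2
    rw [isDer_dX.const_mul (dX_C t)]
    exact ⟨2 * g + X * dX _ g, by ring⟩
  obtain ⟨a1, l1⟩ := ev_dvd o.U0 k1
  obtain ⟨a2, l2⟩ := ev_dvd o.U0 k2
  obtain ⟨a3, l3⟩ := ev_dvd o.U0 k3
  obtain ⟨w, hw⟩ := hz
  obtain ⟨n, rfl⟩ := Nat.exists_eq_add_of_le' hd
  rw [l1, hw] at h3
  rw [l3, hw] at h4
  rw [l2, hw] at h5
  refine ⟨⟨w * (1 + X * r1) - a1, by linear_combination h3⟩,
    ⟨-(w * (((n + 1 : ℕ) : k⟦X⟧) + 1 + X * r2)) - a3, by linear_combination h4⟩,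
    ⟨w * (r3 + X * (t * o.Us * w) ^ n * (t * w) * r4) +
      (w * (((n + 1 : ℕ) : k⟦X⟧) + 1 + X * r2) + a3) - a2, by linear_combination h5 - o.Us * h4⟩⟩

end Bnum

open Pool.Agent.MP_05b4bd_ag.ES.Bnum hiding base in
open Pool.Agent.MP_05b4bd_ag.ES.V.Bnum in
theorem bnumS (hr : PramStmt) (hq : PeqStmt) : BnumStmt := by
  intro k _ _ d o hd hγ
  have hM : 1 ≤ d + 1 := by omega
  obtain ⟨e, e1, ⟨eb, ee⟩, en⟩ := last
    (P := fun e => (∀ i, 1 ≤ i → X ^ e ∣ co2 i 0 o.b) ∧ ∀ i, 2 ≤ i → X ^ e ∣ co2 i 0 o.e) (a := 1)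
    ⟨fun i _ => t_dvd o.tb i, fun i _ => t_dvd o.te i⟩ (fun h => o.zn (by
      rcases hγ with ⟨i, hi, h'⟩ | ⟨i, hi, h'⟩
      · rwa [zero_of id (fun _ => le_rfl) fun n hn => (h n hn).1 i hi, zero_mul, zero_dvd_iff] at h'
      · rwa [zero_of id (fun _ => le_rfl) fun n hn => (h n hn).2 i hi, zero_mul,
          zero_dvd_iff] at h'))
  have hz : X ^ e * o.Us ∣ o.zs := by
    rcases hγ with ⟨i, hi, h'⟩ | ⟨i, hi, h'⟩
    · exact (mul_dvd_mul_right (eb i hi) _).trans h'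
    · exact (mul_dvd_mul_right (ee i hi) _).trans h'
  have hU : o.Us ≠ 0 := fun h => o.zn (by rwa [h, mul_zero, zero_dvd_iff] at hz)
  obtain ⟨ω, v, hv, hω⟩ := unit_fac hU
  have ω1 : 1 ≤ ω := by
    rcases Nat.eq_zero_or_pos ω with rfl | h
    · have := o.U0
      rw [hω, pow_zero, one_mul] at this
      exact absurd this (isUnit_iff_constantCoeff.1 hv).ne_zero
    · exact h
  obtain ⟨g1, g2, g3⟩ := base hq o (by omega) hz eb ee
  have x1 : (X : k⟦X⟧) ^ (e + ω) ∣ X ^ e * o.Us := ⟨v, by rw [hω]; ring⟩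
  have x2 : (X : k⟦X⟧) ^ (e + 2 * ω) ∣ X ^ e * o.Us ^ 2 := ⟨v ^ 2, by rw [hω]; ring⟩
  obtain ⟨o', pb, pe, pU, pz⟩ := hr k d (d + 1) o hM
  have cb : ∀ i, co2 i 0 o'.b = ram k (d + 1) (co2 i 0 o.b) := fun i => by rw [pb, co2_mA]
  have ce : ∀ i, co2 i 0 o'.e = ram k (d + 1) (co2 i 0 o.e) := fun i => by rw [pe, co2_mA]
  have e2 : 1 ≤ (d + 1) * e := Nat.mul_pos hM e1
  have ω2 : 1 ≤ (d + 1) * ω := Nat.mul_pos hM ω1
  have fU : o'.Us = X ^ ((d + 1) * ω) * ram k (d + 1) v := by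
    rw [pU, hω, map_mul, map_pow, ram_X hM, ← pow_mul]
  have fz : X ^ ((d + 1) * e + (d + 1) * ω) ∣ o'.zs := by
    rw [pz, ← mul_add]
    exact ram_dvd hM (x1.trans hz)
  have fb : ∀ i, 1 ≤ i → X ^ ((d + 1) * e) ∣ co2 i 0 o'.b := fun i hi => by
    rw [cb]
    exact ram_dvd hM (eb i hi)
  have fe : ∀ i, 2 ≤ i → X ^ ((d + 1) * e) ∣ co2 i 0 o'.e := fun i hi => by
    rw [ce]
    exact ram_dvd hM (ee i hi)
  have fn : ¬ ((∀ i, 1 ≤ i → X ^ ((d + 1) * e + 1) ∣ co2 i 0 o'.b) ∧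
      ∀ i, 2 ≤ i → X ^ ((d + 1) * e + 1) ∣ co2 i 0 o'.e) := fun h =>
    en ⟨fun i hi => dvd_of_ram hM (cb i ▸ h.1 i hi), fun i hi => dvd_of_ram hM (ce i ▸ h.2 i hi)⟩
  by_cases h0 : co2 0 0 o'.b = 0 ∧ co2 1 0 o'.e = 0 ∧ co2 0 0 o'.e = 0
  · refine ⟨o', 0, 1, _, _, _, by omega, le_rfl, e2, ω2, by omega, hv.map _, fU, fz, ?_, ?_, ?_,
      fun _ => h0, by omega, fb, fe, fn⟩
    · rw [h0.1]; exact dvd_zero _
    · rw [h0.2.1]; exact dvd_zero _
    · rw [h0.2.2]; exact dvd_zero _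
  · have y1 : (d + 1) * e + 2 * ω ≤ (d + 1) * (e + ω) := by nlinarith
    obtain ⟨N, N1, ⟨n1, n2, n3⟩, nn⟩ := last
      (P := fun N => X ^ ((d + 1) * e + N) ∣ co2 0 0 o'.b ∧ X ^ ((d + 1) * e + N) ∣ co2 1 0 o'.e ∧
        X ^ ((d + 1) * e + (d + 1) * N) ∣ co2 0 0 o'.e) (a := 2 * ω)
      ⟨by rw [cb]; exact (pow_dvd_pow _ y1).trans (ram_dvd hM (x1.trans g1)),
        by rw [ce]; exact (pow_dvd_pow _ y1).trans (ram_dvd hM (x1.trans g2)),
        by rw [ce, ← mul_add]; exact ram_dvd hM (x2.trans g3)⟩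
      (fun h => h0 ⟨zero_of (fun n => (d + 1) * e + n) (fun n => by omega) fun n hn => (h n hn).1,
        zero_of (fun n => (d + 1) * e + n) (fun n => by omega) fun n hn => (h n hn).2.1,
        zero_of (fun n => (d + 1) * e + (d + 1) * n) (fun n => by nlinarith)
          fun n hn => (h n hn).2.2⟩)
    refine ⟨o', 1, N, _, _, _, le_rfl, by omega, e2, ω2, fun _ => by nlinarith, hv.map _, fU, fz,
      n1, n2, n3, by omega, fun _ h => nn ⟨h.1, h.2.1, ?_⟩, fb, fe, fn⟩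
    have h3 := h.2.2
    rw [ce, ← mul_add] at h3 ⊢
    exact ram_dvd hM (dvd_of_ram hM h3)

end Pool.Agent.MP_05b4bd_ag.ES.V
end

section
namespace Pool.Agent.MP_05b4bd_ag.ES.V

open PowerSeries LaurentSeries HC

open Pool.Agent.MP_05b4bd_ag.ES.Base hiding push in
open Pool.Agent.MP_05b4bd_ag.ES.V.Base in
theorem s1S3 (h1 : DichStmt) (h2 : BaseStmt) (h3 : S1bStmt3) (h4 : S1aStmt3) : S1Stmt3 := by
  intro k U _ _ _ d κ D x y a b J hd ⟨hD, L, _, I, ι, θ, hθ, hι, _, _, _, ea, eb⟩ nd H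
  have : CharZero L := charZero_of_injective_ringHom I.κ.injective
  have nd' : ¬ I.a ∣ X * I.b := fun h => nd (by
    rw [ea, eb, mul_left_comm]
    exact ((nd_map ι).2 h).mul_left _)
  let D1 : U →+ U := (AddMonoidHom.mulLeft θ⁻¹).comp D
  have hD1 : DExt I.D D1 ι := ⟨hD.mulLeft _, fun c => by
    change θ⁻¹ * D (ι c) = _
    rw [hι, inv_mul_cancel_left₀ hθ]⟩
  have H1 : IIF (cw D1) (mA ι I.a) (X * mA ι I.b) J := by
    have e := H.push (D' := cw D1) (η := RingHom.id _) (θ := C θ⁻¹) Function.injective_id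
      (fun c => cw_mulLeft _ _ c)
    simp only [map_id, id_eq] at e
    rwa [ea, eb, ← CC_apply, mul_left_comm, ← mul_assoc (CC θ⁻¹), ← map_mul,
      inv_mul_cancel₀ hθ, map_one, one_mul] at e
  have hu : IsUnit (-(d : L⟦X⟧)) := by
    rw [← map_natCast (C (R := L))]
    exact ((Nat.cast_ne_zero.2 (by omega : d ≠ 0)).isUnit.map _).neg
  obtain ⟨U1, _, D2, i, J1, hD2, ⟨a1, a2, a3⟩ | ⟨ν, a1, a2, a3⟩⟩ :=
    h1 L I.D I.a I.b _ hu (by rw [I.ra, neg_mul]) nd' U D1 ι J hD1 H1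
  · exact h4 k L U1 d I D2 i J1 hd nd' hD2 a1 a2 a3
  obtain ⟨k', L', U', _, _, _, _, _, I', D3, i', jl, j, b1, b2, b3, b4, b5, b6, b7⟩ :=
    h2 k L U1 d I D2 i (by omega) hD2
  have e : i'.comp jl = j.comp i := RingHom.ext b4
  refine h3 k' L' U' d I' D3 i' (mA j J1) ν hd (by rw [b5, b6, nd_map]; exact nd') b1 b7 ?_
    ⟨fun h => a2.1 (map_injective j j.injective ?_), fun m hm => ?_⟩ ?_
  · rw [b5, b6, mA_mA, mA_mA, e, ← mA_mA, ← mA_mA]
    exact IIF_mA b3.2 a1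
  · rw [map_zero, ← h, mA, coeff_map]
  · rw [mA, coeff_map, a2.2 m hm, map_zero]
  · intro U4 _ D4 i4 J4 c1 c2
    rw [b5, b6, mA_mA, mA_mA] at c2
    exact a3 U4 D4 (i4.comp jl) J4
      ⟨c1.1, fun c => by rw [RingHom.comp_apply, c1.2, b2.2, RingHom.comp_apply]⟩ c2

namespace EscS
open Pool.Agent.MP_05b4bd_ag.ES.EscS

theorem noPD3 (h3 : AfinStmt3) (h4 : BmkStmt) (h5 : BfinStmt3) {k : Type} [Field k] [CharZero k]
    [IsAlgClosed k] {d : ℕ} (hd : 3 ≤ d) (o : PD k d) : False := by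
  by_cases c : (∃ i, 1 ≤ i ∧ co2 i 0 o.b * o.Us ∣ o.zs) ∨ ∃ i, 2 ≤ i ∧ co2 i 0 o.e * o.Us ∣ o.zs
  · obtain ⟨ε, N, e, a, b, a0, b0, y, n, ps, qs, W, h⟩ := h4 k d o (by omega) c
    exact h5 k d ε N e a b a0 b0 y n ps qs W hd h
  · exact h3 k d o hd
      (fun i hi => (dvd_or _ _).resolve_left fun h => c (Or.inl ⟨i, hi, h⟩))
      fun i hi => (dvd_or _ _).resolve_left fun h => c (Or.inr ⟨i, hi, h⟩)

end EscS

theorem escS3 (h1 : Case8Stmt3) (h2 : PmkStmt3) (h3 : AfinStmt3) (h4 : BmkStmt) (h5 : BfinStmt3) :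
    EscStmt3 := by
  intro k _ _ _ d hd o p hp
  have key : ∀ (n : ℕ) (x y : k⟦X⟧),
      p = ![wL k (-(n : ℤ)) * coeL k x, wL k (-(n : ℤ)) * coeL k y] → ∀ i, ∃ c, p i = coeL k c := by
    intro n
    induction n with
    | zero =>
      intro x y h
      rw [h, Fin.forall_fin_two, Nat.cast_zero, neg_zero, wL_zero, one_mul, one_mul]
      exact ⟨⟨x, rfl⟩, y, rfl⟩
    | succ n ih =>
      intro x y h
      by_cases c : cc x ≠ 0 ∨ cc y ≠ 0
      · rw [h] at hp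
        obtain ⟨o'⟩ := h2 k d hd o (n + 1) x y (by omega) c hp
          (h1 k d hd o (n + 1) x y (by omega) hp)
        exact (EscS.noPD3 h3 h4 h5 hd o').elim
      · obtain ⟨x', rfl⟩ := X_dvd_iff.2 (by_contra fun e : cc x ≠ 0 => c (Or.inl e))
        obtain ⟨y', rfl⟩ := X_dvd_iff.2 (by_contra fun e : cc y ≠ 0 => c (Or.inr e))
        rw [EscS.strip, EscS.strip] at h
        exact ih x' y' h
  obtain ⟨n, x, hx⟩ := exists_wL_mul (p 0)
  obtain ⟨m, y, hy⟩ := exists_wL_mul (p 1)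
  refine key (n + m) (X ^ m * x) (X ^ n * y) ?_
  rw [← EscS.raise, add_comm n m, ← EscS.raise, ← hx, ← hy]
  funext i
  fin_cases i <;> rfl

theorem killS3 (hS : S1Stmt3) : KillStmt3 := by
  intro k U _ _ _ d κ D δ x y a b Wt lam G0 G1 hd hO hL h0 hδ hc ha hb hJ
  obtain ⟨l', hl⟩ := hL.u.exists_right_inv
  have e3 : Wt * cw (cw δ) Wt - cw (cw δ) (C G0) - Wt * cw (cw δ) (C G1) =
      lam * (l' * (Wt * cw (cw δ) Wt - C (cw δ G0) - Wt * C (cw δ G1))) := by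
    rw [← mul_assoc, hl, one_mul, cw_C, cw_C]
  have key := Kill.int isDer_dX hO.1.coefw.coefw hδ.coefw.coefw (fun s => dX_cw _ s)
    (fun s => dX_cw _ s) (fun s => cw_comm (fun s => cw_comm hc s) s) (dX_C G0) (dX_C G1)
    (by rw [cw_C, cw_C, cw_C, cw_C, ← map_mul, ← map_mul, hJ]) hL.ea
    (by rw [cw_C, cw_C]; exact hL.eb) e3
  rw [(hL.u.pow 2).mul_right_eq_zero, ha, hδ.coefw.coefw, hb, cw_X hδ.coefw.one] at key
  have hI : l' * (Wt * cw (cw δ) Wt - C (cw δ G0) - Wt * C (cw δ G1)) = 0 := by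
    by_contra hne
    exact hS k U d κ D x y a b _ hd hO (hL.nd h0) ⟨hne, by linear_combination -key⟩
  rw [hI, mul_zero, cw_C, cw_C] at e3
  have k0 : cw δ G0 = 0 :=
    hL.const ⟨cw (cw δ) Wt - C (cw δ G1), by linear_combination -e3⟩
  have k1 : cw δ G1 = 0 := by
    rw [k0, zero_mul] at hJ
    exact (mul_eq_zero.1 hJ.symm).resolve_right h0
  refine ⟨k0, k1, ?_⟩
  rw [k0, k1, map_zero, mul_zero, sub_zero, sub_zero] at e3
  refine (mul_eq_zero.1 e3).resolve_left fun h => ?_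
  have := hL.unit
  rw [h, map_zero] at this
  exact not_isUnit_zero this

theorem s1aS3 : S1aStmt3 := fun _ _ U _ _ _ _ _ I D1 i r _ nd hi r0 rc hr =>
  I.nfi nd U D1 i r hi r0 rc hr

namespace S2b
open Pool.Agent.MP_05b4bd_ag.ES.S2b

theorem kill3 (hK : KillStmt3) (hC : CommuteStmt) {k L U : Type} [Field k] [CharZero k] [Field L]
    [Field U] [CharZero U] {d : ℕ} (I : Inf k d L) {D : U →+ U} {ι : L →+* U} {Wt lam : AA U}
    {g0 g1 : (Polynomial k)⟦X⟧} {φ : (Polynomial k)⟦X⟧ →+* U⟦X⟧} (hd : 3 ≤ d) (hD : DExt I.D D ι)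
    (hL : LD X (cw D) (mA ι I.a) (mA ι I.b) Wt lam (φ g0) (φ g1)) (h0 : cw D (φ g0) ≠ 0)
    (hc : ∀ r, φ (C (Polynomial.C r)) = C (ι (I.κ r))) (hu : IsUnit (φ (C Polynomial.X)))
    (hq : φ (C Polynomial.X) * φ X = X) {δ : U →+ U} (hδ : IsDer δ) (hι : ∀ c, δ (ι c) = 0) :
    (∀ n, δ (coeff n (φ (C Polynomial.X))) = 0) ∧ ∀ i j, δ (co2 i j Wt) = 0 := by
  obtain ⟨Ω, _, D', δ', j, hj, hδ', hcm, hb, hf⟩ := hC U D δ hD.1 hδ
  have hz : ∀ c, δ' (j (ι c)) = 0 := fun c => hf _ fun n => by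
    have : ∀ n c, D^[n] (ι c) = ι (I.D^[n] c) := fun n => by
      induction n with
      | zero => intro c; rfl
      | succ n ih => intro c; rw [Function.iterate_succ_apply, Function.iterate_succ_apply, hD.2, ih]
    rw [this, hι]
  have hO : Obs k d ((j.comp ι).comp I.κ) D' (j (ι (cc I.x0))) (j (ι (cc I.y0)))
      (mA j (mA ι I.a)) (mA j (mA ι I.b)) :=
    ⟨hj.1, L, inferInstance, I, j.comp ι, 1, one_ne_zero, fun c => by
      rw [RingHom.comp_apply, hj.2, hD.2, one_mul, RingHom.comp_apply], fun _ => rfl, rfl, rfl,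
      mA_mA _ _ _, by rw [map_one, one_mul, mA_mA]⟩
  have hL' := hL.push' (map j) (t' := X) (D' := cw D') (by rw [map_X]) (cw_map' hj.2)
  let ψ : (Polynomial k)⟦X⟧ →+* Ω⟦X⟧ := (map j).comp φ
  have c0 : ∀ r, ψ (C (Polynomial.C r)) = C (((j.comp ι).comp I.κ) r) := fun r => by
    simp only [ψ, RingHom.comp_apply, hc, map_C]
  have cu : IsUnit (ψ (C Polynomial.X)) := hu.map (map j)
  have cq : ψ (C Polynomial.X) * ψ X = X := by
    simp only [ψ, RingHom.comp_apply, ← map_mul (map j), hq, map_X]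
  have k1 := chain c0 cu cq hj.1 fun r => by
    simp only [RingHom.comp_apply, hj.2, hD.2, I.cv.2.1, map_zero]
  have k2 := chain c0 cu cq hδ' fun r => hz _
  have n0 : cw D' (ψ g0) ≠ 0 := by
    simp only [ψ, RingHom.comp_apply, cw_map' hj.2]
    exact fun h => h0 (map_injective j j.injective (by rw [h, map_zero]))
  have za : ∀ c : AA L, cw (cw δ') (mA j (mA ι c)) = 0 := fun c =>
    co2_ext fun a b => by rw [co2_cw_cw, co2_mA, co2_mA, hz, co2_zero]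
  have hJ : cw δ' (ψ g0) * cw D' (ψ g1) = cw δ' (ψ g1) * cw D' (ψ g0) := by
    refine (cu.pow 2).mul_left_cancel ?_
    have a0 := k1 g0
    have a1 := k1 g1
    have b0 := k2 g0
    have b1 := k2 g1
    calc _ = (ψ (C Polynomial.X) * cw δ' (ψ g0)) * (ψ (C Polynomial.X) * cw D' (ψ g1)) := by ring
      _ = (ψ (C Polynomial.X) * cw δ' (ψ g1)) * (ψ (C Polynomial.X) * cw D' (ψ g0)) := by
        rw [a0, a1, b0, b1]; ring
      _ = _ := by ring
  obtain ⟨r0, -, r2⟩ := hK k Ω d _ D' δ' _ _ _ _ _ _ (ψ g0) (ψ g1) hd hO hL' n0 hδ' hcm (za _)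
    (za _) hJ
  refine ⟨fun n => hb _ ?_, fun a b => hb _ ?_⟩
  · have b0 := k2 g0
    rw [r0, mul_zero] at b0
    have : cw δ' (ψ (C Polynomial.X)) = 0 := by
      refine (mul_eq_zero.1 b0.symm).resolve_right fun h => n0 ?_
      have a0 := k1 g0
      rw [h, mul_zero] at a0
      exact (cu.mul_right_eq_zero).1 a0
    have := congrArg (coeff n) this
    rwa [coeff_cw, map_zero, RingHom.comp_apply, coeff_map] at this
  · have := congrArg (co2 a b) r2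
    rwa [co2_cw_cw, co2_zero, ← mA, co2_mA] at this

end S2b

open Pool.Agent.MP_05b4bd_ag.ES.S2b hiding kill3 in
open Pool.Agent.MP_05b4bd_ag.ES.V.S2b in
theorem s2bS3 (hK : KillStmt3) (hC : CommuteStmt) (hA : DerAlgStmt) (hS : S2cStmt3) : S2bStmt3 := by
  intro k U _ _ _ _ d κ D x y a b Wt lam g0 g1 Φ hd hO hL h0 p0 p1 t0 t1 hk hu hq
  obtain ⟨hD, L, _, I, ι, θ, hθ, hι, hκ, -, -, rfl, rfl⟩ := hO
  have : CharZero U := (RingHom.charZero_iff κ.injective).1 inferInstance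
  obtain ⟨g0, rfl, s0⟩ := lift p0 t0
  obtain ⟨g1, rfl, s1⟩ := lift p1 t1
  let φ : (Polynomial k)⟦X⟧ →+* U⟦X⟧ := Φ.comp (map Polynomial.coeToPowerSeries.ringHom)
  have fX : φ (C Polynomial.X) = Φ (C X) := by
    simp only [φ, RingHom.comp_apply, map_C, Polynomial.coeToPowerSeries.ringHom_apply,
      Polynomial.coe_X]
  have fq : φ X = Φ X := by simp only [φ, RingHom.comp_apply, map_X]
  have fc : ∀ r, φ (C (Polynomial.C r)) = C (ι (I.κ r)) := fun r => by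
    simp only [φ, RingHom.comp_apply, map_C, Polynomial.coeToPowerSeries.ringHom_apply,
      Polynomial.coe_C, hκ]
    exact hk r
  let D1 : U →+ U := (AddMonoidHom.mulLeft θ⁻¹).comp D
  have hD1 : DExt I.D D1 ι := ⟨hD.mulLeft _, fun c => by
    simp only [D1, AddMonoidHom.comp_apply, AddMonoidHom.coe_mulLeft, hι]
    rw [inv_mul_cancel_left₀ hθ]⟩
  have hL1 : LD X (cw D1) (mA ι I.a) (mA ι I.b) Wt lam (φ g0) (φ g1) := by
    have := hL.push (RingHom.id _) (t' := X) (θ := C θ⁻¹) (D' := cw D1) dvd_rfl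
      fun c => cw_mulLeft _ _ c
    simp only [map_id, id_eq, RingHom.id_apply] at this
    rwa [← mul_assoc, CC_apply, ← map_mul, ← map_mul, inv_mul_cancel₀ hθ, map_one, map_one,
      one_mul] at this
  have h1 : cw D1 (φ g0) ≠ 0 := by
    rw [cw_mulLeft]
    exact mul_ne_zero (fun h => inv_ne_zero hθ (C_injective (h.trans (map_zero C).symm))) h0
  rw [← fX] at hu hq ⊢
  rw [← fq] at hq
  obtain ⟨E, _, D2, i, τ, hi, hτ, hc, halg, hres⟩ := restr hA hD1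
  obtain ⟨p, hp⟩ := exists_map_of_coeff (φ := τ) (f := φ (C Polynomial.X)) fun n =>
    hres _ fun δ hδ hz => (kill3 hK hC I hd hD1 hL1 h1 fc hu hq hδ hz).1 n
  obtain ⟨W, rfl⟩ := exists_mA (τ := τ) (c := Wt) fun a b =>
    hres _ fun δ hδ hz => (kill3 hK hC I hd hD1 hL1 h1 fc hu hq hδ hz).2 a b
  have pu : IsUnit p := by
    rw [isUnit_iff_constantCoeff] at hu ⊢
    rw [hp, K3.cc_map] at hu
    exact isUnit_iff_ne_zero.2 fun h => hu.ne_zero (by rw [h, map_zero])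
  obtain ⟨v, hv⟩ := pu.exists_right_inv
  have mv : v * X ∈ Ideal.span {(X : E⟦X⟧)} := Ideal.mem_span_singleton.2 (dvd_mul_left _ _)
  let ψ : (Polynomial k)⟦X⟧ →+* E⟦X⟧ :=
    ev (Polynomial.eval₂RingHom ((C : E →+* E⟦X⟧).comp (i.comp I.κ)) p) (v * X)
  have sc : ∀ r, ψ (C (Polynomial.C r)) = C (i (I.κ r)) := fun r => by
    simp only [ψ, ev_C _ mv, Polynomial.coe_eval₂RingHom, Polynomial.eval₂_C, RingHom.comp_apply]
  have sp : ψ (C Polynomial.X) = p := by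
    simp only [ψ, ev_C _ mv, Polynomial.coe_eval₂RingHom, Polynomial.eval₂_X]
  have sq : ψ X = v * X := ev_X _ mv
  have hψ : (map τ).comp ψ = φ := by
    refine homExt (Ideal.span {(X : U⟦X⟧)}) (fun r => ?_) ?_ ?_
    · have : (((map τ).comp ψ).comp C) = φ.comp C := by
        refine Polynomial.ringHom_ext (fun r => ?_) ?_
        · simp only [RingHom.comp_apply, sc, fc, map_C, hc]
        · simp only [RingHom.comp_apply, sp, hp]
      exact RingHom.congr_fun this r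
    · refine hu.mul_left_cancel ?_
      rw [hq, hp, RingHom.comp_apply, sq, ← map_mul, ← mul_assoc, hv, one_mul, map_X]
    · rw [RingHom.comp_apply, sq, map_mul, map_X]
      exact Ideal.mem_span_singleton.2 (dvd_mul_left _ _)
  have hψ' : ∀ c, φ c = map τ (ψ c) := fun c => (RingHom.congr_fun hψ c).symm
  have rW : red W = X := by
    apply map_injective τ τ.injective
    have := red_eq_zero.2 hL1.w
    rw [map_sub, red_X, red_mA, sub_eq_zero] at this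
    rw [this, map_X]
  have hv' : iT (mA ι I.a) * mT ι I.vb = iT (mA ι I.b) := by
    rw [← mT_iT, ← mT_iT, ← map_mul, I.hv]
  have key := hS k L E d I D2 i (iT W) p g0 g1 ψ hd hi halg (by rw [cc_iT, rW, coeL_X]) pu sc sp
    (by rw [sq, ← mul_assoc, hv, one_mul]) s0 s1 (by
      apply mT_inj τ.injective
      have := eqT hL1 hv'
      rw [hψ', hψ' g1, cw_map' hτ.2, cw_map' hτ.2] at this
      rw [map_mul, map_add, map_mul, mT_VT hτ.2, mT_mT, mT_iT, mT_cL, mT_cL,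
        show τ.comp i = ι from RingHom.ext hc]
      exact this)
  have e : D1 (cc (φ (C Polynomial.X))) = 0 := by rw [hp, K3.cc_map, hτ.2, key, map_zero]
  exact (mul_eq_zero.1 e).resolve_left (inv_ne_zero hθ)

end Pool.Agent.MP_05b4bd_ag.ES.V
end

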