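import Pool.Agent.MP_05b4bd_ag.rr.V0
import Pool.Agent.MP_05b4bd_ag.esc3.S2c

/-! Blocks of the chain for a Morse polynomial transversal to infinity. -/

section
namespace Pool.Agent.MP_05b4bd_ag.ES.V

open PowerSeries LaurentSeries HC

namespace Ext
open Pool.Agent.MP_05b4bd_ag.ES.Ext

section Ring
variable {R : Type} [CommRing R]

end Ring

variable {k : Type} [Field k]

theorem eqs [CharZero k] (hq : PeqStmt) {d : ℕ} (o : PD k d) (hd : 1 ≤ d)
    (h1 : ∀ i, 1 ≤ i → X * o.zs ∣ co2 i 0 o.b * o.Us)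
    (h2 : ∀ i, 2 ≤ i → X * o.zs ∣ co2 i 0 o.e * o.Us) {w : k⟦X⟧} (wU : w ∣ o.Us) (wz : w ∣ o.zs) :
    ∃ s1 s2 s3, co2 0 0 o.b = o.zs * (1 + X * s1) ∧
      co2 1 0 o.e = -(o.zs * ((d : k⟦X⟧) + 1 + X * s2)) ∧ co2 0 0 o.e = o.zs * w * s3 := by
  obtain ⟨r1, r2, r3, r4, b1, e2, eb, ee, q1, q2, q3⟩ := hq k d o hd
  have d1 : C (X * o.zs) ∣ b1 * C o.Us := (C_dvd_iff _ _).2 fun i => by
    have := h1 (i + 1) (by omega)
    rw [co2_cc, eb, map_add, coeff_C, if_neg (by omega), zero_add, coeff_succ_X_mul] at this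
    rwa [coeff_mul_C]
  have d2 : C (X * o.zs) ∣ e2 * C o.Us := (C_dvd_iff _ _).2 fun i => by
    have := h2 (i + 2) (by omega)
    rw [co2_cc, ee, map_add, map_add, coeff_C, if_neg (by omega), zero_add, coeff_C_mul, coeff_X,
      if_neg (by omega), mul_zero, zero_add, coeff_X_pow_mul] at this
    rwa [coeff_mul_C]
  have d3 : C (X * o.zs) ∣ (2 * e2 + X * dX _ e2) * C o.Us := by
    obtain ⟨g, hg⟩ := d2
    have := congrArg (dX _) hg
    rw [mul_comm e2, isDer_dX.const_mul (dX_C _), isDer_dX.const_mul (dX_C _)] at this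
    exact ⟨2 * g + X * dX _ g, by linear_combination 2 * hg + X * this⟩
  obtain ⟨g1, g1e⟩ := dvd_ev o.U0 d1
  obtain ⟨g2, g2e⟩ := dvd_ev o.U0 d2
  obtain ⟨g3, g3e⟩ := dvd_ev o.U0 d3
  obtain ⟨V, hV⟩ := wU
  obtain ⟨z, hz⟩ := wz.trans (dvd_pow_self o.zs (show d ≠ 0 by omega))
  have q2' : co2 1 0 o.e = -(o.zs * ((d : k⟦X⟧) + 1 + X * (r2 + g3))) := by
    linear_combination q2 - g3e
  refine ⟨r1 - g1, r2 + g3, V * r3 + X * z * r4 + ((d : k⟦X⟧) + 1 + X * (r2 + g3)) * V - V * X * g2,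
    by linear_combination q1 - g1e, q2', ?_⟩
  linear_combination q3 - o.Us * q2' - o.Us * g2e + o.zs * X * r4 * hz +
    (o.zs * r3 + o.zs * ((d : k⟦X⟧) + 1 + X * (r2 + g3)) - X * o.zs * g2) * hV

theorem core [CharZero k] (hq : PeqStmt) {d R : ℕ} (o : PD k d) (hd : 2 ≤ d) (hR : 1 ≤ R)
    (h1 : ∀ i, 1 ≤ i → X * o.zs ∣ co2 i 0 o.b * o.Us)
    (h2 : ∀ i, 2 ≤ i → X * o.zs ∣ co2 i 0 o.e * o.Us)
    (g1 : ∀ i, 1 ≤ i → X * o.zs ∣ X ^ (R * d) * co2 i 0 o.b)
    (g2 : ∀ i, 2 ≤ i → X * o.zs ∣ X ^ (R * d) * co2 i 0 o.e)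
    (wU : X ^ (R * d + d) ∣ o.Us) (wz : X ^ (R * d + d) ∣ o.zs) :
    ∃ (b e : AA k⟦X⟧) (β V : k⟦X⟧), AD d b e β V ∧
    CC (X ^ R) * b = rescale (C (X ^ R)) (map (rescale (X ^ (R * d))) o.b) ∧
    CC (X ^ (R * (d + 1))) * e = rescale (C (X ^ R)) (map (rescale (X ^ (R * d))) o.e) ∧
    co2 1 0 o.e ≠ 0 ∧ X ^ (R + 2) ∣ co2 0 0 o.b ∧ X ^ (R + 2) ∣ co2 1 0 o.e ∧
    X ^ ((d + 1) * (R + 1) + 1) ∣ co2 0 0 o.e := by
  obtain ⟨s1, s2, s3, q1, q2, q3⟩ := eqs hq o (by omega) h1 h2 wU wz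
  have hRd : 2 * R ≤ R * d := by nlinarith
  have z2 : (X : k⟦X⟧) ^ (R + 2) ∣ o.zs := (pow_dvd_pow _ (by omega)).trans wz
  have f1 : (X : k⟦X⟧) ^ (R + 2) ∣ co2 0 0 o.b := q1 ▸ z2.mul_right _
  have f2 : (X : k⟦X⟧) ^ (R + 2) ∣ co2 1 0 o.e := q2 ▸ (z2.mul_right _).neg_right
  have f3 : (X : k⟦X⟧) ^ ((d + 1) * (R + 1) + 1) ∣ co2 0 0 o.e := by
    rw [q3]
    refine Dvd.dvd.mul_right ((pow_dvd_pow _ ?_).trans
      (pow_add (X : k⟦X⟧) (R * d + d) (R * d + d) ▸ mul_dvd_mul_right wz _)) _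
    nlinarith
  have tb := (CC_dvd_iff _ _).1 o.tb
  have te := (CC_dvd_iff _ _).1 o.te
  have cs : ∀ i j (c : AA k⟦X⟧), co2 i j (sc (X ^ R) (X ^ (R * d)) c) =
      X ^ (R * j + R * d * i) * co2 i j c := fun i j c => by
    rw [co2_sc]
    ring
  have big : ∀ {n m : ℕ} {c : k⟦X⟧}, n ≤ m → X ∣ c → X ^ (n + 1) ∣ X ^ m * c := fun h hc => by
    rw [pow_succ]
    exact mul_dvd_mul (pow_dvd_pow _ h) hc
  obtain ⟨b, hb⟩ : CC (X ^ (R + 1)) ∣ sc (X ^ R) (X ^ (R * d)) o.b :=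
    (CC_dvd_iff _ _).2 fun i j => by
      rw [cs]
      rcases Nat.eq_zero_or_pos j with rfl | hj
      · rcases Nat.eq_zero_or_pos i with rfl | hi
        · exact ((pow_dvd_pow _ (by omega)).trans f1).mul_left _
        · exact big (by nlinarith) (tb _ _)
      · exact big (by nlinarith) (tb _ _)
  obtain ⟨e, he⟩ : CC (X ^ (R * (d + 1) + 1)) ∣ sc (X ^ R) (X ^ (R * d)) o.e :=
    (CC_dvd_iff _ _).2 fun i j => by
      rw [cs]
      rcases Nat.lt_or_ge i 2 with hi | hi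
      · rcases Nat.eq_zero_or_pos j with rfl | hj
        · interval_cases i
          · exact ((pow_dvd_pow _ (by nlinarith)).trans f3).mul_left _
          · rw [show R * (d + 1) + 1 = (R * 0 + R * d * 1) + (R + 1) by ring, pow_add]
            exact mul_dvd_mul_left _ ((pow_dvd_pow _ (by omega)).trans f2)
        · interval_cases i
          · rcases Nat.lt_or_ge d j with h | h
            · exact big (by nlinarith) (te _ _)
            · rw [o.ne j hj h, mul_zero]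
              exact dvd_zero _
          · exact big (by nlinarith) (te _ _)
      · exact big (by nlinarith) (te _ _)
  have hb' : CC (X ^ R) * (CC X * b) = sc (X ^ R) (X ^ (R * d)) o.b := by
    rw [hb, pow_succ, map_mul, mul_assoc]
  have he' : CC (X ^ (R * (d + 1))) * (CC X * e) = sc (X ^ R) (X ^ (R * d)) o.e := by
    rw [he, pow_succ, map_mul, mul_assoc]
  obtain ⟨β1, hβ⟩ : (X : k⟦X⟧) ^ (R + 1) ∣ o.zs := (pow_dvd_pow _ (by omega)).trans wz
  obtain ⟨V1, hV⟩ : (X : k⟦X⟧) ^ (R * d + 1) ∣ o.Us := (pow_dvd_pow _ (by omega)).trans wU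
  have ez : o.zs = X ^ R * (X * β1) := by rw [hβ]; ring
  have eU : o.Us = (X ^ R) ^ d * (X * V1) := by rw [hV, ← pow_mul]; ring
  have xn : ∀ n : ℕ, (X : k⟦X⟧) ^ n ≠ 0 := fun n => pow_ne_zero _ X_ne_zero
  have cb : ∀ i, X ^ R * co2 i 0 (CC X * b) = X ^ (R * d * i) * co2 i 0 o.b := fun i => by
    rw [← co2_CC_mul, hb', cs, mul_zero, zero_add]
  have ce : ∀ i, X ^ (R * (d + 1)) * co2 i 0 (CC X * e) = X ^ (R * d * i) * co2 i 0 o.e :=
    fun i => by rw [← co2_CC_mul, he', cs, mul_zero, zero_add]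
  refine ⟨CC X * b, CC X * e, X * β1, X * V1, ⟨by simp, fun c => o.zn (by rw [ez, c, mul_zero]),
    by simp, dvd_mul_right _ _, dvd_mul_right _ _, (C_dvd_iff _ _).2 fun i => ?_,
    (C_dvd_iff _ _).2 fun i => ?_, ?_⟩, hb', he', ?_, f1, f2, f3⟩
  · rw [map_sub, ← co2_cc, ← mul_dvd_mul_iff_left (xn R), mul_sub, cb, ← mul_assoc, ← ez, coeff_C]
    split_ifs with h
    · subst h
      exact ⟨s1, by rw [q1, ← ez]; ring⟩
    · obtain ⟨i, rfl⟩ := Nat.exists_eq_succ_of_ne_zero h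
      rw [mul_zero, sub_zero, mul_comm, Nat.mul_succ, pow_add, mul_assoc]
      exact (g1 _ (by omega)).mul_left _
  · have ez' : X ^ (R * (d + 1)) * (X * β1) = X ^ (R * d) * o.zs := by rw [ez]; ring
    rw [map_add, ← co2_cc, ← mul_dvd_mul_iff_left (xn (R * (d + 1))), mul_add (X ^ _), ce, ← mul_assoc, ez',
      coeff_C_mul, coeff_X]
    split_ifs with h
    · subst h
      refine ⟨-s2, ?_⟩
      rw [q2]
      linear_combination ((d : k⟦X⟧) + 1) * ez'
    · rw [mul_zero, mul_zero, add_zero]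
      rcases Nat.eq_zero_or_pos i with rfl | hi
      · obtain ⟨d', rfl⟩ : ∃ d', d = d' + 1 := ⟨d - 1, by omega⟩
        exact ⟨X ^ d' * s3, by rw [q3]; ring⟩
      · obtain ⟨i, rfl⟩ : ∃ i', i = i' + 2 := ⟨i - 2, by omega⟩
        obtain ⟨g, hg⟩ := g2 (i + 2) (by omega)
        exact ⟨X ^ (R * d * i) * g, by linear_combination X ^ (R * d * i) * X ^ (R * d) * hg⟩
  · refine cen_sc (r := X ^ R) (xn R) (by simp) (by simp)
      (b' := o.b) (e' := o.e) (by rw [← pow_mul]; exact hb') (by rw [← pow_mul, ← pow_mul]; exact he')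
      ?_
    rw [← ez, ← eU]
    exact o.cen
  · rw [q2, neg_ne_zero]
    refine mul_ne_zero o.zn fun c => ?_
    have := congrArg cc c
    simp only [map_add, map_mul, map_natCast, map_one, constantCoeff_X, zero_mul, add_zero,
      map_zero] at this
    exact Nat.cast_add_one_ne_zero d this

end Ext

open Pool.Agent.MP_05b4bd_ag.ES.Ext hiding core eqs
open Pool.Agent.MP_05b4bd_ag.ES.V.Ext

theorem amkS (hp : PramStmt) (hq : PeqStmt) : AmkStmt := by
  intro k _ _ d o hd h1 h2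
  have hM : 1 ≤ 2 * d := by omega
  obtain ⟨o', eb, ee, eU, ez⟩ := hp k d (2 * d) o hM
  obtain ⟨w, wU, wz, w0, hw⟩ : ∃ w, w ∣ o.Us ∧ w ∣ o.zs ∧ cc w = 0 ∧ (w = o.zs ∨ w = o.Us) := by
    rcases dvd_or o.Us o.zs with h | h
    · exact ⟨_, dvd_rfl, h, o.U0, Or.inr rfl⟩
    · exact ⟨_, dvd_of_mul_left_dvd h, dvd_rfl, o.z0, Or.inl rfl⟩
  obtain ⟨n, u, hu, e⟩ := unit_fac (f := w) fun c => o.zn (zero_dvd_iff.1 (c ▸ wz))
  have hn : 1 ≤ n := by
    rcases Nat.eq_zero_or_pos n with rfl | h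
    · rw [e, pow_zero, one_mul] at w0
      exact absurd w0 (isUnit_iff_constantCoeff.1 hu).ne_zero
    · exact h
  obtain ⟨R, hR⟩ : ∃ R, 2 * n = R + 1 := ⟨2 * n - 1, by omega⟩
  have ew : ram k (2 * d) w = X ^ (R * d + d) * ram k (2 * d) u := by
    rw [e, map_mul, map_pow, ram_X hM, ← pow_mul, show 2 * d * n = 2 * n * d by ring, hR, add_mul,
      one_mul]
  have hu' := hu.map (ram k (2 * d))
  have key : ∀ c, X ∣ c → X * o.zs ∣ c * o.Us → X * o'.zs ∣ ram k (2 * d) c * o'.Us ∧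
      X * o'.zs ∣ X ^ (R * d) * ram k (2 * d) c := fun c hc h => by
    have a1 := map_dvd (ram k (2 * d)) hc
    have a2 := map_dvd (ram k (2 * d)) h
    rw [ram_X hM] at a1
    rw [map_mul, map_mul, ram_X hM, ← ez, ← eU] at a2
    refine ⟨(mul_dvd_mul_right (dvd_pow_self _ (by omega)) _).trans a2, ?_⟩
    have a3 : X ^ (2 * d) * o'.zs ∣ ram k (2 * d) c * X ^ (R * d + d) := by
      rcases hw with rfl | rfl
      · rw [ez, ew, ← mul_assoc, hu'.mul_right_dvd]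
        exact mul_dvd_mul_right a1 _
      · rwa [eU, ew, ← mul_assoc, hu'.dvd_mul_right] at a2
    rw [show ram k (2 * d) c * X ^ (R * d + d) = X ^ d * (X ^ (R * d) * ram k (2 * d) c) by ring,
      two_mul, pow_add, mul_assoc, mul_dvd_mul_iff_left (pow_ne_zero _ X_ne_zero)] at a3
    rw [two_mul]
    exact (mul_dvd_mul_right (dvd_pow_self _ (by omega)) _).trans a3
  have tb := (CC_dvd_iff _ _).1 o.tb
  have te := (CC_dvd_iff _ _).1 o.te
  have xw : X ^ (R * d + d) ∣ ram k (2 * d) w := ⟨_, ew⟩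
  obtain ⟨b, e, β, V, h⟩ := core (R := R) hq o' hd (by omega)
    (fun i hi => by rw [eb, co2_mA]; exact (key _ (tb _ _) (h1 i hi)).1)
    (fun i hi => by rw [ee, co2_mA]; exact (key _ (te _ _) (h2 i hi)).1)
    (fun i hi => by rw [eb, co2_mA]; exact (key _ (tb _ _) (h1 i hi)).2)
    (fun i hi => by rw [ee, co2_mA]; exact (key _ (te _ _) (h2 i hi)).2)
    (eU ▸ xw.trans (map_dvd _ wU)) (ez ▸ xw.trans (map_dvd _ wz))
  exact ⟨o', R, b, e, β, V, by omega, h⟩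

end Pool.Agent.MP_05b4bd_ag.ES.V
end

section
namespace Pool.Agent.MP_05b4bd_ag.ES.V

open PowerSeries LaurentSeries HC

namespace Mkinf
open Pool.Agent.MP_05b4bd_ag.ES.Mkinf

section Gen
variable {R S A : Type} [CommRing R] [CommRing S] [CommRing A]

end Gen

section Core
variable {k L : Type} [Field k] [CharZero k] [Field L]

theorem core (e : ℕ) (o : Ob k (e + 1)) (κ : k →+* L) (D : L →+ L) (x y : AA L)
    (hc0 : Curve κ D (hc (e + 1) o.f) (c00 x) (c00 y)) (hg : gf κ (c00 x) (c00 y) = ⊤)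
    (h : hev ((C : L →+* L⟦X⟧).comp κ) (e + 1) o.f (red x) (red y) X = 1) :
    ∃ I : Inf k (e + 1) L, I.κ = κ ∧ I.D = D ∧ I.x0 = red x ∧ I.y0 = red y ∧
      I.a = aF ((C : L⟦X⟧ →+* AA L).comp (map κ)) (e + 1) o.P o.Q x y ∧
      I.b = bF ((C : L⟦X⟧ →+* AA L).comp (map κ)) (e + 1) o.P o.Q (cw D) x y := by
  have : CharZero L := charZero_of_injective_ringHom κ.injective
  have hD := hc0.1
  have hκ := hc0.2.1
  set a := aF ((C : L⟦X⟧ →+* AA L).comp (map κ)) (e + 1) o.P o.Q x y with ha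
  set b := bF ((C : L⟦X⟧ →+* AA L).comp (map κ)) (e + 1) o.P o.Q (cw D) x y with hb
  have ra : red a = -(((e + 1 : ℕ) : L⟦X⟧) * X) := by
    rw [ha, red, map_aF]
    exact aF_red (P := o.P) (Q := o.Q) (f := o.f) (x := red x) (y := red y) _ (cc (R := k)) _
      (red_comp κ)
      (fun r => by rw [RingHom.comp_apply, dX_C]) e o.gen.2.1 o.rP o.rQ h
  have rb : red b = 0 := by
    have := map_bF (e + 1) ((C : L⟦X⟧ →+* AA L).comp (map κ)) (cc : L⟦X⟧ →+* L) (D := cw D)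
      (D' := D) (θ := 1) (fun c => by rw [cc_cw, one_mul]) o.P o.Q x y
    rw [map_one, one_mul] at this
    rw [hb, red, this]
    exact bF_red (P := o.P) (Q := o.Q) (f := o.f) (x := red x) (y := red y) _ (cc (R := k)) _
      (red_comp κ) hD
      (fun r => by rw [RingHom.comp_apply, cw_C, hκ, map_zero]) e o.gen.2.1 o.rP o.rQ h
  have fr0 : EL κ (red x) (red y) o.f = wL L (-((e + 1 : ℕ) : ℤ)) := by
    have h1 := congrArg (coeL L) h
    have hx : ∀ z : L⟦X⟧, coeL L z = wL L 1 * (coeL L z * wL L (-1)) := fun z => by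
      rw [mul_left_comm, wL_mul_neg, mul_one]
    have h2 : (coeL L).comp ((C : L →+* L⟦X⟧).comp κ) = (cL L).comp κ :=
      RingHom.ext fun c => coeL_C _
    rw [map_hev, h2, coeL_X, hx (red x), hx (red y), hev_eq _ _ o.gen.2.1, map_one, wL_pow,
      mul_one] at h1
    have h3 := wL_mul_neg (R := L) ((e + 1 : ℕ) : ℤ)
    change MvPolynomial.eval₂ _ _ _ = _
    linear_combination (wL L (-((e + 1 : ℕ) : ℤ))) * h1 - (MvPolynomial.eval₂ ((cL L).comp κ)
      ![coeL L (red x) * wL L (-1), coeL L (red y) * wL L (-1)] o.f) * h3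
  have hd : ((e + 1 : ℕ) : L) ≠ 0 := Nat.cast_ne_zero.2 (Nat.succ_ne_zero e)
  have ca : cc (iT a) = -(cL L ((e + 1 : ℕ) : L) * wL L 1) := by
    rw [cc_iT, ra, map_neg, map_mul, coeL_X, map_natCast, map_natCast]
  have ca' : cc (iT a) * -(cL L ((e + 1 : ℕ) : L)⁻¹ * wL L (-1)) = 1 := by
    rw [ca, neg_mul_neg, mul_mul_mul_comm, ← map_mul, mul_inv_cancel₀ hd, map_one, wL_mul_neg,
      one_mul]
  have ua : IsUnit (iT a) :=
    PowerSeries.isUnit_iff_constantCoeff.2 (IsUnit.of_mul_eq_one _ ca')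
  obtain ⟨ai, hai⟩ := ua.exists_right_inv
  have cai : cc ai = -(cL L ((e + 1 : ℕ) : L)⁻¹ * wL L (-1)) := by
    have h1 := congrArg cc hai
    rw [map_mul, map_one] at h1
    linear_combination (-cc ai) * ca' + -(cL L ((e + 1 : ℕ) : L)⁻¹ * wL L (-1)) * h1
  set φ : k⟦X⟧ →+* TT L := map ((cL L).comp κ) with hφ
  set E : R2 k⟦X⟧ →+* TT L := MvPolynomial.eval₂Hom φ ![fr x, fr y] with hE
  have hEa : ∀ u, E u = MvPolynomial.eval₂ φ ![fr x, fr y] u := fun u => rfl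
  set W : TT L := C (wL L 1) with hW
  have ea : iT a = W ^ (e + 1 + 1) *
      (E o.P * cw (thL L) (fr y) - E o.Q * cw (thL L) (fr x)) := by
    rw [ha, aF, map_sub, map_mul, map_mul, iT_hev κ _ o.dP, iT_hev κ _ o.dQ, th_fr, th_fr, hEa, hEa]
    ring
  have eb : iT b = W ^ (e + 1 + 1) *
      (E o.P * cw (cwL D) (fr y) - E o.Q * cw (cwL D) (fr x)) := by
    rw [hb, bF, map_sub, map_mul, map_mul, iT_hev κ _ o.dP, iT_hev κ _ o.dQ, D_fr hD, D_fr hD, hEa,
      hEa]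
    ring
  have k1 : ∀ r, cw (cwL D) (φ r) = 0 := fun r => by
    ext1 n
    rw [coeff_cw, hφ, coeff_map, RingHom.comp_apply, cwL_cL, hκ, map_zero, map_zero]
  have k2 : ∀ r, cw (thL L) (φ r) = 0 := fun r => by
    ext1 n
    rw [coeff_cw, hφ, coeff_map, RingHom.comp_apply, thL_cL, map_zero]
  have d1 := hD.coefL.coefw.eval₂ φ k1 (fr x) (fr y) o.H
  have d2 := (isDer_thL (R := L)).coefw.eval₂ φ k2 (fr x) (fr y) o.H
  have d3 := congrArg E o.eq
  rw [vf, map_add, map_mul, map_mul, map_mul, hE, MvPolynomial.eval₂Hom_C, ← hE, map_pow, hφ,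
    map_X] at d3
  simp only [← hEa] at d1 d2
  set j : TT L := cw (thL L) (fr x) * cw (cwL D) (fr y) - cw (cwL D) (fr x) * cw (thL L) (fr y)
    with hj
  have hV : VT D (ai * iT b) (E o.H) = X ^ o.n * -(j * E o.gt * W ^ (e + 1 + 1) * ai) := by
    rw [VT, d1, d2]
    have h1 : (1 : TT L) = ai * (W ^ (e + 1 + 1) *
      (E o.P * cw (thL L) (fr y) - E o.Q * cw (thL L) (fr x))) := by rw [← ea, mul_comm, hai]
    rw [eb, hj]
    linear_combination (E (MvPolynomial.pderiv 0 o.H) * cw (cwL D) (fr x) +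
      E (MvPolynomial.pderiv 1 o.H) * cw (cwL D) (fr y)) * h1 -
      (cw (thL L) (fr x) * cw (cwL D) (fr y) - cw (cwL D) (fr x) * cw (thL L) (fr y)) *
        W ^ (e + 1 + 1) * ai * d3
  have rX : cc (-(j * E o.gt * W ^ (e + 1 + 1) * ai)) =
      GLc κ (e + 1) D (red x) (red y) (MvPolynomial.map cc o.gt) := by
    have h1 : cc W ^ (e + 1 + 1) * wL L (-1) = wL L ((e + 1 : ℕ) : ℤ) := by
      rw [hW, constantCoeff_C, wL_pow, ← wL_add]
      congr 1
      push_cast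
      ring
    rw [map_neg, map_mul, map_mul, map_mul, cai, hEa, hφ, cc_E, hj, map_sub, map_mul, map_mul,
      cc_cw, cc_cw, cc_cw, cc_cw, cc_fr, cc_fr, map_pow, GLc, ← h1]
    change _ = MvPolynomial.eval₂ _ _ _ * _
    ring
  refine ⟨⟨κ, D, o.f, MvPolynomial.map cc o.gt, red x, red y, a, b, ai * iT b, E o.H,
    -(j * E o.gt * W ^ (e + 1 + 1) * ai), o.n, o.gen, o.ng, o.jac, ?_, ?_, fr0, ra, rb, ?_, o.n1,
    ?_, hV, rX, ?_⟩, rfl, rfl, rfl, rfl, rfl, rfl⟩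
  · rwa [cc_red, cc_red]
  · rwa [cc_red, cc_red]
  · rw [← mul_assoc, hai, one_mul]
  · rw [hEa, hφ, cc_E, o.rH]
    exact fr0
  · have e1 : ram k 1 = RingHom.id _ := RingHom.ext fun r => by rw [ram, pow_one, sb_id]; rfl
    have := o.nf 1 le_rfl L κ D x y ⟨hc0, hg, h⟩
    rwa [e1, MvPolynomial.map_id, MvPolynomial.map_id] at this

end Core

section Fld
variable {k L : Type} [Field k] [Field L]

end Fld

end Mkinf

open Pool.Agent.MP_05b4bd_ag.ES.Mkinf hiding core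
open Pool.Agent.MP_05b4bd_ag.ES.V.Mkinf

theorem mkinfS (hA : DerAlgStmt) : MkinfStmt := by
  intro k _ _ d o U _ κ D x y hd hD hκ hco h hne
  have : CharZero U := charZero_of_injective_ringHom κ.injective
  obtain ⟨e, rfl⟩ : ∃ e, d = e + 1 := ⟨d - 1, by omega⟩
  set x0 := c00 x with hx0
  set y0 := c00 y with hy0
  have hF : evp κ x0 y0 (hc (e + 1) o.f) = 1 := by
    have h1 := congrArg cc h
    rw [map_hev, constantCoeff_X, hev_zero, map_one, cc_red, cc_red] at h1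
    have h2 : (cc : U⟦X⟧ →+* U).comp ((C : U →+* U⟦X⟧).comp κ) = κ :=
      RingHom.ext fun c => constantCoeff_C _
    rwa [h2] at h1
  have hd0 : ((e + 1 : ℕ) : U) ≠ 0 := Nat.cast_ne_zero.2 (Nat.succ_ne_zero e)
  have h1 := euler (hc_hom (e + 1) o.f) κ x0 y0
  have h2 := hD.eval₂ κ hκ x0 y0 (hc (e + 1) o.f)
  change D (evp κ x0 y0 _) = evp κ x0 y0 _ * _ + evp κ x0 y0 _ * _ at h2
  rw [hF, mul_one] at h1
  rw [hF, hD.one] at h2
  set θ : U := (y0 * D x0 - x0 * D y0) / ((e + 1 : ℕ) : U) with hθ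
  have θ0 : θ ≠ 0 := div_ne_zero hne hd0
  have hθ' : θ * ((e + 1 : ℕ) : U) = y0 * D x0 - x0 * D y0 := div_mul_cancel₀ _ hd0
  have ex : θ⁻¹ * D x0 = evp κ x0 y0 (MvPolynomial.pderiv 1 (hc (e + 1) o.f)) := by
    rw [inv_mul_eq_iff_eq_mul₀ θ0]
    refine mul_right_cancel₀ hd0 ?_
    linear_combination (-D x0) * h1 - x0 * h2 -
      evp κ x0 y0 (MvPolynomial.pderiv 1 (hc (e + 1) o.f)) * hθ'
  have ey : θ⁻¹ * D y0 = -evp κ x0 y0 (MvPolynomial.pderiv 0 (hc (e + 1) o.f)) := by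
    rw [inv_mul_eq_iff_eq_mul₀ θ0]
    refine mul_right_cancel₀ hd0 ?_
    linear_combination (-D y0) * h1 - y0 * h2 +
      evp κ x0 y0 (MvPolynomial.pderiv 0 (hc (e + 1) o.f)) * hθ'
  have hκm : ∀ c, κ c ∈ gf κ x0 y0 := fun c => Subfield.subset_closure (Or.inl ⟨c, rfl⟩)
  have hst : ∀ z ∈ gf κ x0 y0, θ⁻¹ * D z ∈ gf κ x0 y0 := by
    refine (hA U (gf κ x0 y0)).2.2.2.2.2 _ (hD.mulLeft θ⁻¹) _ fun m hm =>
      ⟨Subfield.subset_closure hm, ?_⟩
    change θ⁻¹ * D m ∈ _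
    rcases hm with ⟨c, rfl⟩ | rfl | rfl
    · rw [hκ, mul_zero]; exact zero_mem _
    · rw [ex]; exact evp_mem _ _ _ _
    · rw [ey]; exact neg_mem (evp_mem _ _ _ _)
  let L := gf κ x0 y0
  let ι : L →+* U := L.subtype
  let κ' : k →+* L := κ.codRestrict L hκm
  let D' : L →+ L :=
    { toFun := fun z => ⟨θ⁻¹ * D z, hst z z.2⟩
      map_zero' := Subtype.ext (by simp)
      map_add' := fun a b => Subtype.ext (by simp [mul_add]) }
  have hD' : ∀ c, ι (D' c) = θ⁻¹ * D (ι c) := fun c => rfl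
  have hDD : ∀ c, D (ι c) = θ * ι (D' c) := fun c => by
    rw [hD', ← mul_assoc, mul_inv_cancel₀ θ0, one_mul]
  have hικ : ι.comp κ' = κ := rfl
  obtain ⟨x', ex'⟩ := exists_mA (τ := ι) (c := x) fun i j => ⟨⟨_, (hco i j).1⟩, rfl⟩
  obtain ⟨y', ey'⟩ := exists_mA (τ := ι) (c := y) fun i j => ⟨⟨_, (hco i j).2⟩, rfl⟩
  have cx : ι (c00 x') = x0 := by rw [hx0, ex', c00_mA]
  have cy : ι (c00 y') = y0 := by rw [hy0, ey', c00_mA]
  have cv : Curve κ' D' (hc (e + 1) o.f) (c00 x') (c00 y') := by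
    refine ⟨fun a b => ι.injective ?_, fun c => ι.injective ?_, ι.injective ?_, ι.injective ?_,
      ι.injective ?_⟩
    · rw [hD', map_add, map_mul ι, map_mul ι, map_mul ι, hD', hD', hD]; ring
    · rw [hD', map_zero]
      exact (congrArg (θ⁻¹ * ·) (hκ c)).trans (mul_zero _)
    · rw [evp_hom, hικ, cx, cy, hF, map_one]
    · rw [hD', evp_hom, hικ, cx, cy, ex]
    · rw [hD', map_neg, evp_hom, hικ, cx, cy, ey]
  have hg : gf κ' (c00 x') (c00 y') = ⊤ :=
    gf_top κ' ι _ _ fun c => by rw [hικ, cx, cy]; exact c.2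
  have inj : Function.Injective (map ι : L⟦X⟧ →+* U⟦X⟧) := map_injective ι ι.injective
  have hh : hev ((C : L →+* L⟦X⟧).comp κ') (e + 1) o.f (red x') (red y') X = 1 := by
    refine inj ?_
    have h3 : (map ι).comp ((C : L →+* L⟦X⟧).comp κ') = (C : U →+* U⟦X⟧).comp κ :=
      RingHom.ext fun c => by simp only [RingHom.comp_apply, map_C]; rfl
    rw [map_hev, h3, ← red_mA, ← red_mA, ← ex', ← ey', map_X, h, map_one]
  obtain ⟨I, i1, i2, i3, i4, i5, i6⟩ := core e o κ' D' x' y' cv hg hh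
  have h4 : (map (map ι)).comp ((C : L⟦X⟧ →+* AA L).comp (map κ')) =
      (C : U⟦X⟧ →+* AA U).comp (map κ) := by
    refine RingHom.ext fun c => ?_
    rw [RingHom.comp_apply, RingHom.comp_apply, map_C, ← hικ, map_comp]
    rfl
  refine ⟨hD, L, inferInstance, I, ι, θ, θ0, ?_, ?_, ?_, ?_, ?_, ?_⟩
  · rw [i2]; exact hDD
  · rw [i1]; exact fun c => rfl
  · rw [i3, cc_red, cx]
  · rw [i4, cc_red, cy]
  · rw [i5, mA, map_aF, h4, ex', ey']; rfl
  · rw [i6, mA, CC_apply, map_bF _ _ _ (cw_map hDD), h4, ex', ey']; rfl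

theorem obsS : ObsStmt := by
  rintro k _ _ d U _ κ D x y a b ⟨-, L, _, I, ι, θ, θ0, h1, h2, h3, h4, rfl, rfl⟩
  refine ⟨?_, ?_, fun c => ?_, fun U' _ D' j θ' θ0' hD' hj =>
    ⟨hD', L, inferInstance, I, j.comp ι, θ' * j θ, mul_ne_zero θ0' ((_root_.map_ne_zero j).2 θ0),
      fun c => ?_, fun c => ?_, ?_, ?_, mA_mA _ _ _, ?_⟩⟩
  · rw [red_mA, I.ra, map_neg, map_mul, map_natCast, map_X]
  · rw [map_mul, red_mA, I.rb, map_zero, mul_zero]
  · rw [← h2, h1, I.cv.2.1, map_zero, mul_zero]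
  · rw [RingHom.comp_apply, hj, h1, map_mul, mul_assoc, RingHom.comp_apply]
  · rw [RingHom.comp_apply, h2, RingHom.comp_apply]
  · rw [RingHom.comp_apply, h3]
  · rw [RingHom.comp_apply, h4]
  · rw [map_mul, mA_CC, mA_mA, map_mul, mul_assoc]

end Pool.Agent.MP_05b4bd_ag.ES.V
end

section
namespace Pool.Agent.MP_05b4bd_ag.ES.V

open PowerSeries LaurentSeries HC

namespace S2c
open Pool.Agent.MP_05b4bd_ag.ES.S2c

section Alg
variable {k L E : Type} [Field k] [Field L] [Field E]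

theorem hol1 (hH : HolStmt) (hG : GenTopStmt) [CharZero k] [IsAlgClosed k] {d : ℕ} (I : Inf k d L)
    {D1 : E →+ E} {i : L →+* E} (hd : 3 ≤ d) (hD : DExt I.D D1 i)
    (ha : ∀ e : E, IsAlgebraic i.fieldRange e) {r : R2 k} (hr : DL (d - 2) r) (c : k) {e η : E}
    (he : e ≠ 0) (h : D1 η = i (evp I.κ (cc I.x0) (cc I.y0) r) + i (I.κ c) * (D1 e / e)) :
    D1 η = 0 := by
  obtain ⟨-, c2, c3, c4, c5⟩ := I.cv
  refine hH k E (i.comp I.κ) D1 hD.1 (fun c => ?_)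
    (alg_E I.κ i (by omega) (hc_hom d I.f) c3 I.gb ha) d (hc d I.f) hd (hc_hom d I.f)
    (hG k d I.f (by omega) I.gen).2.1 1 1 (fun _ => 1) (fun _ => i (cc I.x0))
    (fun _ => i (cc I.y0)) (fun _ => r) (fun _ => c) (fun _ => e) η (fun _ => ⟨?_, ?_, ?_, hr⟩)
    (fun _ => he) ?_
  · rw [RingHom.comp_apply, hD.2, c2, map_zero]
  · rw [← evp_map, c3, map_one]
  · rw [← evp_map, hD.2, c4, one_mul]
  · rw [← evp_map, hD.2, c5, one_mul, map_neg]
  · rw [h, evp_map]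
    simp

end Alg

section Solve
variable {k E : Type} [Field k] [Field E]

variable {κ : k →+* E} {D1 : E →+ E} {p pi : E⟦X⟧} {φ : (Polynomial k)⟦X⟧ →+* E⟦X⟧}

end Solve

section Rec
variable {k E : Type} [Field k] [Field E]

theorem cc_vb {L : Type} [Field L] [CharZero k] {d : ℕ} (I : Inf k d L) (hd : 1 ≤ d) :
    cc I.vb = 0 := by
  have : CharZero L := charZero_of_injective_ringHom I.κ.injective
  have h := congrArg cc I.hv
  rw [map_mul, cc_iT, cc_iT, I.ra, I.rb, map_zero] at h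
  refine (mul_eq_zero.1 h).resolve_left fun h0 => ?_
  have h1 := congrArg (coeff 1) (coeL_inj (h0.trans (map_zero _).symm))
  rw [map_neg, coeff_succ_mul_X, ← map_natCast (C : L →+* L⟦X⟧), coeff_zero_C, map_zero,
    neg_eq_zero] at h1
  exact Nat.cast_ne_zero.2 (by omega) h1

theorem cmp' (hC : CmpStmt) {L : Type} [Field L] [CharZero k] {d : ℕ} (I : Inf k d L)
    {D1 : E →+ E} {i : L →+* E} (hd : 1 ≤ d) (hD : DExt I.D D1 i) {m : ℕ} (h1 : 1 ≤ m)
    (h2 : m ≤ I.n) {S U : TT E} (h : VA D1 (mT i I.vb) S = X ^ m * U) :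
    ∃ η, cwL D1 η = cc U - dh d (cc S) * cc (X ^ (I.n - m) * mT i I.Xi) := by
  have : CharZero E := charZero_of_injective_ringHom (i.comp I.κ).injective
  have e : VT D1 (mT i I.vb) (mT i I.h) = X ^ m * (X ^ (I.n - m) * mT i I.Xi) := by
    have := congrArg (mT i) I.hV
    rw [VT, map_sub, map_mul, map_mul, map_pow] at this
    rw [VT, mT, cw_map' (cwL_mapL hD.2), cw_map' (thL_mapL i), ← mul_assoc, ← pow_add,
      Nat.add_sub_cancel' h2]
    rw [mT, map_X] at this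
    exact this
  obtain ⟨S0, S', -, -, h3⟩ := hC E E D1 D1 (RingHom.id E) d m (mT i I.vb) (mT i I.h) _ S U hd h1
    ⟨hD.1, fun _ => rfl⟩ (fun c _ => ⟨c, rfl⟩) (by rw [mT, cc_map', cc_vb I hd, map_zero])
    (by rw [mT, cc_map', I.rh, mapL_wL]) e (by rw [mT_id]; exact h)
  exact ⟨_, h3⟩

end Rec

end S2c

end Pool.Agent.MP_05b4bd_ag.ES.V
end

section
namespace Pool.Agent.MP_05b4bd_ag.ES.V

open PowerSeries LaurentSeries HC

namespace S2c3
open Pool.Agent.MP_05b4bd_ag.ES.S2c3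

/-- The last step: a non-zero class cannot be a multiple of a common element. -/
theorem fin3 (hG : GenTopStmt) (hE : EvbStmt) (hN : NzcStmt) (hT : TraceStmt) {k L E : Type}
    [Field k] [CharZero k] [Field L] [Field E] {d : ℕ} (I : Inf k d L) {D1 : E →+ E}
    {i : L →+* E} (hd : 3 ≤ d) (hD : DExt I.D D1 i) (ha : ∀ e : E, IsAlgebraic i.fieldRange e)
    (l : E) (hΛ : ∀ (n : ℕ) (r : R2 k), r.IsHomogeneous n → ¬ d ∣ n + 2 →
      ∃ c η, D1 η = i (evp I.κ (cc I.x0) (cc I.y0) r) + i (I.κ c) * l) : False := by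
  have : CharZero L := charZero_of_injective_ringHom I.κ.injective
  obtain ⟨-, g2, g3, g4, -⟩ := hG k d I.f (by omega) I.gen
  obtain ⟨⟨n, r, r1, r2, r3, r4⟩, n2, n3⟩ := hN k d (hc d I.f) hd (hc_hom d I.f) g2
  have hκ : ∀ c, D1 (i (I.κ c)) = 0 := fun c => by rw [hD.2, I.cv.2.1, map_zero]
  have hb : ∀ (s : R2 k) (η : E), D1 η = i (evp I.κ (cc I.x0) (cc I.y0) s) →
      Bt (hc d I.f) s := by
    intro s η h
    obtain ⟨η0, h0⟩ := hT L E I.D D1 i hD η _ (ha η) h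
    exact hE k L I.κ I.D d (hc d I.f) _ _ (by omega) (hc_hom d I.f) g2 g3 g4 I.cv I.gb s η0 h0
  obtain ⟨c1, η1, h1⟩ := hΛ 0 1 (MvPolynomial.isHomogeneous_one _ _) (fun h => by
    have := Nat.le_of_dvd (by omega) h
    omega)
  obtain ⟨c2, η2, h2⟩ := hΛ n r r1 r2
  have hC : ∀ c, evp I.κ (cc I.x0) (cc I.y0) (MvPolynomial.C c) = I.κ c := fun c => by
    simp [evp]
  have h3 := hb (MvPolynomial.C c2 + MvPolynomial.C (-c1) * r)
    (i (I.κ c2) * η1 - i (I.κ c1) * η2) (by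
      rw [map_sub, hD.1.const_mul (hκ c2), hD.1.const_mul (hκ c1), h1, h2]
      simp only [map_add, map_mul, hC, map_neg, map_one]
      ring)
  have h4 := (n3 (-2) _ _ (by
      intro e he
      rw [MvPolynomial.coeff_C] at he
      split_ifs at he with h
      · subst h
        simp
      · exact absurd rfl he) (by
      intro e he
      rw [MvPolynomial.coeff_C_mul] at he
      have h5 : e.degree = n := by
        by_contra h6
        exact right_ne_zero_of_mul he (r1.coeff_eq_zero h6)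
      rw [h5, show (n : ℤ) + -2 + 2 = n by ring]
      exact fun h => r3 (Int.natCast_dvd_natCast.1 h)) h3).2
  by_cases hc1 : c1 = 0
  · rw [hc1, map_zero, map_zero, zero_mul, add_zero] at h1
    exact n2 (hb 1 η1 h1)
  · exact r4 (Bx.bt_of_C (neg_ne_zero.2 hc1) h4)

end S2c3

open Pool.Agent.MP_05b4bd_ag.ES.S2c hiding cc_vb cmp' hol1 in
open Pool.Agent.MP_05b4bd_ag.ES.V.S2c in
theorem s2cS3 (hC : CmpStmt) (hI : IlStmt) (hH : HolStmt) (hG : GenTopStmt) (hE : EvbStmt)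
    (hN : NzcStmt) (hTr : TraceStmt) : S2cStmt3 := by
  intro k L E _ _ _ _ _ d I D1 i W p g0 g1 φ hd hD ha hW hp h1 h2 h3 hg0 hg1 hV
  have : CharZero E := charZero_of_injective_ringHom (i.comp I.κ).injective
  obtain ⟨c1, c2, c3, c4, c5⟩ := I.cv
  obtain ⟨pi, hpi⟩ := hp.exists_right_inv
  have hκ : ∀ c, D1 (i (I.κ c)) = 0 := fun c => by rw [hD.2, c2, map_zero]
  have hp0 : cc p * cc pi = 1 := by rw [← map_mul, hpi, map_one]
  have hp1 : cc p ≠ 0 := left_ne_zero_of_mul_eq_one hp0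
  have hs0 : cc (-(cw D1 p * pi)) = -(D1 (cc p) / cc p) := by
    rw [map_neg, map_mul, cc_cw, eq_inv_of_mul_eq_one_right hp0, div_eq_mul_inv]
  have hch := chain (κ := i.comp I.κ) hD.1 hκ hpi h1 h2 h3
  have hso := fun a u => solve' (κ := i.comp I.κ) (a := a) (u := u) hD.1 hκ hpi h1 h2 h3
  generalize -(cw D1 p * pi) = s at hs0 hch hso
  have hT : φ (C Polynomial.X * X) = X := by rw [map_mul, h2, h3]
  generalize (C Polynomial.X * X : (Polynomial k)⟦X⟧) = T at hT hso hg0 hg1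
  obtain ⟨Wi, hWi⟩ : ∃ Wi, W * Wi = 1 :=
    (isUnit_iff_constantCoeff.2 (by rw [show constantCoeff W = _ from hW]; exact isUnit_wL 1) :
      IsUnit W).exists_right_inv
  have hcW : cc Wi = wL E (-1) := by
    have a := congrArg cc hWi
    rw [map_mul, hW, map_one] at a
    have b : wL E (-1) * wL E 1 = 1 := by rw [← wL_add]; exact wL_zero
    linear_combination wL E (-1) * a - cc Wi * b
  obtain ⟨g0, rfl⟩ := hg0
  obtain ⟨g1, rfl⟩ := hg1
  have hδ : ∀ g, cw D1 (φ (T * g)) = s * φ (T * D0 g) := by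
    intro g
    have := cw_X_pow_mul D1 1 (φ g)
    rw [pow_one] at this
    rw [map_mul φ, map_mul φ, hT, this, hch]
    ring
  obtain ⟨Θ, ρ, u, v, a1, a2, a3, a4, a5⟩ := recur (κ := i.comp I.κ) (vb := mT i I.vb) (W := W)
    (γ0 := T * D0 g0) (γ1 := T * D0 g1) hD.1 hT hso hWi (dvd_mul_right _ _) (dvd_mul_right _ _)
    (by
      rw [← VA_apply, hδ, hδ, map_mul (map (cL E)), map_mul (map (cL E))] at hV
      linear_combination Wi * hV - (VA D1 (mT i I.vb) W - map (cL E) s *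
        map (cL E) (φ (T * D0 g1))) * hWi) (2 * I.n)
  obtain ⟨u, rfl⟩ := (pow_dvd_pow T (show I.n + 1 ≤ _ by omega)).trans a3
  obtain ⟨v, rfl⟩ := (pow_dvd_pow T (show I.n + 1 ≤ _ by omega)).trans a4
  have key : ∀ m, 1 ≤ m → m ≤ I.n → ∀ ρ', ρ = Polynomial.C X ^ m * ρ' → ∃ η, cwL D1 η =
      cL E (cc s) * cc (Psi (i.comp I.κ) Wi ρ') -
        dh d (wL E 1) * cc (X ^ (I.n - m) * mT i I.Xi) := by
    intro m b1 b2 ρ' e
    obtain ⟨j, hj⟩ := Nat.exists_eq_add_of_le b2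
    obtain ⟨η, hη⟩ := cmp' hC I (by omega) hD b1 b2 (S := Θ)
      (U := map (cL E) s * (Psi (i.comp I.κ) Wi ρ' + X * (X ^ j *
        (map (cL E) (φ u) * Wi ^ (2 * I.n) + map (cL E) (φ v) * Wi ^ (2 * I.n + 1))))) (by
      rw [a5, e]
      simp only [map_mul, map_pow, hT, map_X, Psi_CX]
      rw [show I.n + 1 = m + j + 1 by omega]
      ring)
    refine ⟨η, ?_⟩
    rw [hη, a1, hW, map_mul, map_add, map_mul cc X, constantCoeff_X, zero_mul, add_zero, cc_map']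
  by_contra hne
  have hsn : cc s ≠ 0 := by rw [hs0]; exact neg_ne_zero.2 (div_ne_zero hne hp1)
  have step : ∀ m, 1 ≤ m → m ≤ I.n → Polynomial.C X ^ m ∣ ρ := by
    intro m hm
    induction m, hm using Nat.le_induction with
    | base => intro _; simpa using a2
    | succ m hm ih =>
      intro b
      obtain ⟨ρ', e⟩ := ih (by omega)
      obtain ⟨η, hη⟩ := key m hm (by omega) ρ' e
      have e0 : cc (X ^ (I.n - m) * mT i I.Xi) = 0 := by
        rw [map_mul, map_pow, constantCoeff_X, zero_pow (by omega), zero_mul]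
      rw [e0, mul_zero, sub_zero] at hη
      rw [e, pow_succ]
      refine mul_dvd_mul_left _ ((Polynomial.C_dvd_iff_dvd_coeff _ _).2 fun j => ?_)
      have e1 := congrArg (fun f => f.coeff (-(j : ℤ))) hη
      simp only [coeff_cwL, coeff_cL_mul, (coeff_Psi _ hcW ρ').1] at e1
      have e2 := hol1 hH hG I (by omega) hD ha (r := 0) (fun _ _ => rfl) (-cc (ρ'.coeff j)) hp1
        (η := η.coeff (-(j : ℤ))) (by
          rw [e1, hs0]
          simp only [map_zero, map_neg, RingHom.comp_apply]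
          ring)
      rw [e2] at e1
      exact X_dvd_iff.2 ((map_eq_zero (i.comp I.κ)).1
        ((mul_eq_zero.1 e1.symm).resolve_left hsn))
  obtain ⟨ρ', e⟩ := step I.n I.n1 le_rfl
  obtain ⟨η, hη⟩ := key I.n I.n1 le_rfl ρ' e
  rw [Nat.sub_self, pow_zero, one_mul, mT, cc_map'] at hη
  have hd0 : (d : E) ≠ 0 := Nat.cast_ne_zero.2 (by omega)
  let Λ : AddSubgroup L :=
    { carrier := {ξ | ∃ c η, D1 η = i ξ + i (I.κ c) * (D1 (cc p) / cc p)}
      zero_mem' := ⟨0, 0, by simp⟩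
      add_mem' := by
        rintro a b ⟨c, η, h⟩ ⟨c', η', h'⟩
        exact ⟨c + c', η + η', by simp only [map_add, h, h']; ring⟩
      neg_mem' := by
        rintro a ⟨c, η, h⟩
        exact ⟨-c, -η, by simp only [map_neg, h]; ring⟩ }
  have hΛ := hI k L d I Λ (by omega) (by
      rintro c z ⟨c', η, h⟩
      refine ⟨c * c', i (I.κ c) * η, ?_⟩
      rw [hD.1.const_mul (hκ c), h]
      simp only [map_mul]
      ring) (fun η => ⟨0, i η, by rw [hD.2]; simp⟩) (by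
      intro z _
      obtain ⟨r, hr⟩ := (coeff_Psi (i.comp I.κ) hcW ρ').2 (z + 1 + d)
      have e1 := congrArg (fun f => f.coeff (z + 1 + d)) hη
      have e2 : dh d (wL E 1) * mapL i (cc I.Xi) =
          -(cL E (d : E)⁻¹ * (wL E d * (wL E 1 * mapL i (cc I.Xi)))) := by
        rw [dh, thL_wL]
        push_cast
        ring
      simp only [e2, sub_neg_eq_add, coeff_cwL, HahnSeries.coeff_add, coeff_cL_mul, coeff_wL_mul,
        hr, coeff_mapL, add_sub_cancel_right] at e1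
      refine ⟨-(d * r), d * η.coeff (z + 1 + d), ?_⟩
      rw [hD.1.const_mul (hD.1.natCast d), e1, hs0]
      simp only [map_neg, map_mul, map_natCast, RingHom.comp_apply]
      field_simp
      ring)
  exact S2c3.fin3 hG hE hN hTr I hd hD ha (D1 (cc p) / cc p) hΛ

end Pool.Agent.MP_05b4bd_ag.ES.V
end

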