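import Pool.Agent.MP_05b4bd_ag.rr.V0
import Pool.Agent.MP_05b4bd_ag.pc3.Nrm
import Pool.Agent.MP_05b4bd_ag.pc3.Pull
import Pool.Agent.MP_05b4bd_ag.pc3.Van

/-! Blocks of the chain for a Morse polynomial transversal to infinity. -/

section
namespace Pool.Agent.MP_05b4bd_ag.PC3.V

open MvPolynomial HC
open Pool.Agent.MP_05b4bd_ag.ES hiding Gen GenTopStmt GenJacStmt Ob EscStmt3
open Pool.Agent.MP_05b4bd_ag.ES.V
open scoped PowerSeries LaurentSeries

namespace Up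
open Pool.Agent.MP_05b4bd_ag.PC3.Up

section Field
variable {F : Type} [Field F]

variable {e : ℕ} {a b : R2 F}

end Field

variable {k : Type} [Field k]

variable {f : R2 k} {w : Fm k⟦X⟧}

end Up

open Pool.Agent.MP_05b4bd_ag.PC3.Up in
theorem upS (hT : GenTopStmt) (hI : IcStmt) : UpStmt := by
  intro k _ _ _ d f w hd hA hL
  obtain ⟨e, rfl⟩ : ∃ e, d = e + 2 := ⟨d - 2, by omega⟩
  have hw := hA.red
  have hx : DL (e + 2) (pderiv 0 f) := hA.gen.2.1.pderiv 0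
  have hy : DL (e + 2) (pderiv 1 f) := hA.gen.2.1.pderiv 1
  have hC : CI (hc (e + 1) (pderiv 0 f)) (hc (e + 1) (pderiv 1 f)) := by
    rw [hc_pderiv, hc_pderiv]; exact (hT k _ f (by omega) hA.gen).2.1
  have up : ∀ n, Module.finrank k⸨X⸩ (Jd (JK w) (n + (e + 2 - 1))) ≤ n * (n + 1) := fun n => by
    obtain ⟨v, hv, hi⟩ := lattice _ (Jd (JK w) (n + (e + 2 - 1))) le_rfl
    exact card_bound hx hy hC hi (fun i => in_jac hw hL (hv i).1)
      fun i => (DL_of_coe (hv i).2).map _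
  have m1 : map (coeL k) w.1 ∈ JK w := (hL _).2 (Ideal.subset_span (by simp))
  have m2 : map (coeL k) w.2 ∈ JK w := (hL _).2 (Ideal.subset_span (by simp))
  refine ⟨fun u hu hD => ?_, up, fun b1 h1 b2 h2 d1' d2' hi a b ha hb hab => ?_,
    fun g w' hg => ?_, ?_, fun g h g0 hg he u hu => ?_⟩
  · have h0 : Jd (JK w) (0 + (e + 2 - 1)) = ⊥ :=
      Submodule.finrank_eq_zero.1 (Nat.le_zero.1 (up 0))
    have h1 : u ∈ Jd (JK w) (0 + (e + 2 - 1)) := ⟨hu, by rwa [zero_add]⟩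
    rwa [h0] at h1
  · have hr : Module.finrank k⸨X⸩ (Submodule.span k⸨X⸩ (Set.range ![b1, b2])) = 2 :=
      finrank_span_eq_card hi
    have hle : Submodule.span k⸨X⸩ (Set.range ![b1, b2]) ≤ Jd (JK w) (e + 2) :=
      Submodule.span_le.2 (by
        rintro _ ⟨i, rfl⟩
        fin_cases i
        exacts [⟨h1, d1'⟩, ⟨h2, d2'⟩])
    have : Module.Finite k⸨X⸩ (Submodule.span k⸨X⸩ (Set.range ![b1, b2])) :=
      Submodule.finiteDimensional_of_le hle
    obtain ⟨v, hv, hk⟩ := lattice 2 _ hr.ge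
    obtain ⟨c, hc1⟩ := le_span (indK hk) hv hr.le (Submodule.subset_span ⟨0, rfl⟩)
    obtain ⟨c', hc2⟩ := le_span (indK hk) hv hr.le (Submodule.subset_span ⟨1, rfl⟩)
    rw [Fin.sum_univ_two, smul_eq_C_mul, smul_eq_C_mul] at hc1 hc2
    have hc1 : b1 = _ := hc1
    have hc2 : b2 = _ := hc2
    have key : C (c 0) * a + C (c' 0) * b = 0 ∧ C (c 1) * a + C (c' 1) * b = 0 := by
      by_contra hn
      obtain ⟨r, a', b', hr0, ea, eb, hp⟩ := prim2 hn
      have da : DL 2 (map cc a') := DL_red hr0 (ea ▸ (ha.C_mul _).add (hb.C_mul _))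
      have db : DL 2 (map cc b') := DL_red hr0 (eb ▸ (ha.C_mul _).add (hb.C_mul _))
      have z1 : C r * map (coeL k) (a' * v 0 + b' * v 1) = 0 := by
        rw [hc1, hc2] at hab
        rw [map_add, map_mul, map_mul]
        linear_combination hab - map (coeL k) (v 0) * ea - map (coeL k) (v 1) * eb
      have z2 : a' * v 0 + b' * v 1 = 0 := map_injective _ coeL_inj (by
        rw [map_zero]; exact (mul_eq_zero.1 z1).resolve_left fun h0 => hr0 (C_eq_zero.1 h0))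
      have z3 := congrArg (map (cc : k⟦X⟧ →+* k)) z2
      rw [map_add, map_mul, map_mul, map_zero] at z3
      have lin : ∀ i, ∃ s t : k, map cc (v i) = C s * pderiv 0 f + C t * pderiv 1 f := fun i => by
        obtain ⟨U, V, hUV⟩ := Ideal.mem_span_pair.1 (in_jac hw hL (hle (hv i)).1)
        have hD : DL (1 + (e + 1)) (map cc (v i)) :=
          ((DL_of_coe (hle (hv i)).2).map _).mono (by omega)
        obtain ⟨U', V', hU, hV, e'⟩ := kos_top hx hy hC U V (hUV ▸ hD)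
        exact ⟨coeff 0 U', coeff 0 V', by rw [← DL1_eq hU, ← DL1_eq hV, e', hUV]⟩
      obtain ⟨s0, t0, e0⟩ := lin 0
      obtain ⟨s1, t1, e1⟩ := lin 1
      have hk' : LinearIndependent k ![map cc (v 0), map cc (v 1)] := by
        have e' : ![map cc (v 0), map cc (v 1)] = fun i => map (cc : k⟦X⟧ →+* k) (v i) :=
          funext fun i => by fin_cases i <;> rfl
        rw [e']; exact hk
      have z4 := kos_zero hx hy hC (k := 2) (by omega) ((da.C_mul s0).add (db.C_mul s1))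
        ((da.C_mul t0).add (db.C_mul t1)) (by rw [e0, e1] at z3; linear_combination z3)
      exact hp (two_by_two hk' e0 e1 z4.1 z4.2)
    exact two_by_two hi hc1 hc2 key.1 key.2
  · have e1 : map (coeL k) w.1 = g * w'.1 := congrArg Prod.fst hg
    have e2 : map (coeL k) w.2 = g * w'.2 := congrArg Prod.snd hg
    by_cases hn : w'.1 = 0 ∧ w'.2 = 0
    · rw [hn.1, hn.2]; exact ⟨zero_mem _, zero_mem _⟩
    obtain ⟨r', a', b', -, ea, eb, hp⟩ := prim2 hn
    obtain ⟨r, g', rfl, hg'⟩ := prim0 g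
    have e1 : map (coeL k) w.1 = C (r * r') * map (coeL k) (g' * a') := by
      rw [e1, ea, map_mul, map_mul]; ring
    have e2 : map (coeL k) w.2 = C (r * r') * map (coeL k) (g' * b') := by
      rw [e2, eb, map_mul, map_mul]; ring
    obtain ⟨s, hs⟩ : ∃ s, r * r' = coeL k s := by
      rcases not_and_or.1 hp with h0 | h0
      · exact (int_of_prim (by rw [map_mul]; exact mul_ne_zero hg' h0) e1).imp fun _ h => h.1
      · exact (int_of_prim (by rw [map_mul]; exact mul_ne_zero hg' h0) e2).imp fun _ h => h.1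
    have e3 : w.1 = C s * g' * a' := map_injective _ coeL_inj (by
      rw [e1, hs, mul_assoc, map_mul _ (C s), map_C])
    have e4 : w.2 = C s * g' * b' := map_injective _ coeL_inj (by
      rw [e2, hs, mul_assoc, map_mul _ (C s), map_C])
    have hu : IsUnit (map cc (C s * g')) :=
      unit_of_dvd hx hy hC (u := -map cc b') (v := map cc a')
        (by rw [← neg_neg (pderiv 0 f), ← red2 hw, e4, map_mul]; ring)
        (by rw [← red1 hw, e3, map_mul]; ring)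
    rw [ea, eb]
    exact ⟨Ideal.mul_mem_left _ _ (cancel hL hu (e3 ▸ m1)),
      Ideal.mul_mem_left _ _ (cancel hL hu (e4 ▸ m2))⟩
  · have hk : LinearIndependent k fun i => map (cc : k⟦X⟧ →+* k) (![w.1, w.2] i) := by
      have e' : (fun i => map (cc : k⟦X⟧ →+* k) (![w.1, w.2] i)) = ![pderiv 1 f, -pderiv 0 f] :=
        funext fun i => by
          fin_cases i
          exacts [red1 hw, red2 hw]
      rw [e', LinearIndependent.pair_iff]
      intro s t hst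
      rw [smul_eq_C_mul, smul_eq_C_mul] at hst
      have := kos_zero hx hy hC (k := 1) (by omega) (DL_C t).neg (DL_C s)
        (by linear_combination hst)
      exact ⟨C_eq_zero.1 this.2, C_eq_zero.1 (neg_eq_zero.1 this.1)⟩
    have e' : ![(mapF (coeL k) w).1, (mapF (coeL k) w).2] =
        fun i => map (coeL k) (![w.1, w.2] i) := funext fun i => by fin_cases i <;> rfl
    rw [e']; exact indK hk
  · obtain ⟨r, g', hr, rfl, hg'⟩ := prim g0
    obtain ⟨r1, h', rfl, hh'⟩ := prim0 h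
    obtain ⟨r2, u', rfl, -⟩ := prim0 u
    have e1 : map (coeL k) (wg (d1 g') w) = C r1 * map (coeL k) (h' * g') := by
      rw [d1_C_mul, wg_smul, ← mapF_d1, ← map_wg] at he
      refine mul_left_cancel₀ (fun h0 => hr (C_eq_zero.1 h0) : (C r : R2 k⸨X⸩) ≠ 0) ?_
      rw [he, map_mul]; ring
    obtain ⟨s, -, e2⟩ := int_of_prim (by rw [map_mul]; exact mul_ne_zero hh' hg') e1
    have e3 := congrArg (map (cc : k⟦X⟧ →+* k)) e2
    rw [map_wg, mapF_d1, hw, wg_d1_d1, ← mul_assoc, map_mul] at e3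
    have hu1 := unit_of_DL hg' (hI k _ f _ _ hd hA.gen hg' (DL_red hr hg) e3)
    by_cases h2 : r2 = 0
    · rw [h2, map_zero, zero_mul]; exact zero_mem _
    refine Ideal.mul_mem_left _ _ (cancel hL hu1 (of_C_mul (mul_ne_zero hr h2) ?_))
    rw [map_mul, map_mul, mul_mul_mul_comm]
    exact hu

end Pool.Agent.MP_05b4bd_ag.PC3.V
end

section
namespace Pool.Agent.MP_05b4bd_ag.ES.V

open PowerSeries LaurentSeries HC

namespace Two3
open Pool.Agent.MP_05b4bd_ag.ES.Two3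

variable {k : Type} [Field k]

end Two3

theorem wtS (h1 : GlcStmt) : WtStmt := by
  intro k L _ _ _ d I hd
  let : Algebra k L := I.κ.toAlgebra
  have hκ : algebraMap k L = I.κ := rfl
  obtain ⟨-, c, e, BB, hc', he, hB, hG⟩ := h1 k L I.D d I.f I.x0 I.y0 hd I.cv I.fr
  rw [hκ] at hc' he
  obtain ⟨N, hN⟩ := exists_DL I.g
  have key : ∀ (m : ℤ) (v : ℕ), ∃ s : R2 k, c m (hc v I.g) - e s ∈ BB ∧ Cls d m s := by
    intro m v
    by_cases hm : (d : ℤ) - (v + 2) ≤ m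
    · obtain ⟨j, rfl⟩ : ∃ j : ℕ, m = (d : ℤ) - (v + 2) + j := ⟨(m - (d - (v + 2))).toNat, by omega⟩
      exact ⟨_, Esc.c_CR hd I.gen.2.1 I.gen.1 hG j v _ (hc_hom v I.g),
        Two3.cls_CR hd I.gen.1 (hc_hom v I.g) j⟩
    · refine ⟨0, ?_, Two3.cls_zero d m⟩
      rw [hG.low v m _ (DL.of_hom (hc_hom v I.g)) (by omega), map_zero, sub_zero]
      exact zero_mem _
  choose s hs1 hs2 using key
  refine ⟨fun m => ∑ v ∈ Finset.range N, s m v, fun m => ?_,
    fun m => Two3.cls_sum _ fun v _ => hs2 m v⟩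
  have h2 : c m I.g - e (∑ v ∈ Finset.range N, s m v) ∈ BB := by
    have h3 : c m I.g = ∑ v ∈ Finset.range N, c m (hc v I.g) := by
      rw [← map_sum, Esc.sum_hc hN]
    rw [h3, map_sum, ← Finset.sum_sub_distrib]
    exact BB.sum_mem fun v _ => hs1 m v
  obtain ⟨η, hη⟩ := (hB _).1 h2
  refine ⟨η, ?_⟩
  rw [I.rX, ← hc', ← he, ← hη]
  ring

theorem twoS (h3 : EvbStmt) (h5 : IlStmt) (h9 : GenTopStmt) (hN : NzcStmt) : TwoStmt := by
  intro k L _ _ _ _ d I r hd hr hcl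
  obtain ⟨-, hci, c1, c2, -⟩ := h9 k d I.f (by omega) I.gen
  have hev := h3 k L I.κ I.D d _ _ _ (by omega) (hc_hom d I.f) hci c1 c2 I.cv I.gb
  obtain ⟨⟨n, r2, q1, q2, q3, q4⟩, q5, q6⟩ := hN k d _ hd (hc_hom d I.f) hci
  by_contra hno
  obtain ⟨m0, h0⟩ : ∃ m0 : ℤ, ∀ m : ℤ, ¬ (d : ℤ) ∣ m → ¬ (d : ℤ) ∣ m - m0 →
      Bt (hc d I.f) (r m) := by
    by_cases ha : ∀ m : ℤ, ¬ (d : ℤ) ∣ m → Bt (hc d I.f) (r m)
    · exact ⟨0, fun m hm _ => ha m hm⟩
    · obtain ⟨m0, hm0⟩ := not_forall.1 ha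
      obtain ⟨a1, a2⟩ := Classical.not_imp.1 hm0
      exact ⟨m0, fun m hm hm' => by_contra fun c => hno ⟨m, m0, hm, a1, hm', c, a2⟩⟩
  let Λ : AddSubgroup L :=
    { carrier := {z | ∃ η s, Cls d m0 s ∧ z = I.D η + evp I.κ (cc I.x0) (cc I.y0) s}
      zero_mem' := ⟨0, 0, Two3.cls_zero d m0, by simp⟩
      add_mem' := by
        rintro _ _ ⟨a, s, hs, rfl⟩ ⟨b, t, ht, rfl⟩
        exact ⟨a + b, s + t, Two3.cls_add hs ht, by rw [map_add, map_add]; ring⟩
      neg_mem' := by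
        rintro _ ⟨a, s, hs, rfl⟩
        exact ⟨-a, -s, Two3.cls_neg hs, by rw [map_neg, map_neg]; ring⟩ }
  have hΛ := h5 k L d I Λ hd ?_ ?_ ?_
  · have fin : ∀ (n : ℕ) (q : R2 k), q.IsHomogeneous n → ¬ d ∣ n + 2 →
        ¬ (d : ℤ) ∣ n + m0 + 2 → Bt (hc d I.f) q := by
      intro n q hq hn hn'
      obtain ⟨η, s, hs, e⟩ := hΛ n q hq hn
      have b1 := hev (-s + q) η (by rw [map_add, map_neg, e]; ring)
      refine (q6 m0 (-s) q (Two3.cls_neg hs) (fun e he => ?_) b1).2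
      have : e.degree = n := by
        by_contra c
        exact he (hq.coeff_eq_zero c)
      rwa [this]
    by_cases c : (d : ℤ) ∣ (0 : ℕ) + m0 + 2
    · refine q4 (fin n r2 q1 q2 fun c' => q3 ?_)
      have := c'.sub c
      rw [show (n : ℤ) + m0 + 2 - ((0 : ℕ) + m0 + 2) = n by push_cast; ring] at this
      exact Int.natCast_dvd_natCast.1 this
    · refine q5 (fin 0 1 (MvPolynomial.isHomogeneous_one _ _) (fun c' => ?_) c)
      have := Nat.le_of_dvd (by omega) c'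
      omega
  · rintro c _ ⟨a, s, hs, rfl⟩
    refine ⟨I.κ c * a, MvPolynomial.C c * s, Two3.cls_C_mul c hs, ?_⟩
    rw [I.cv.1.const_mul (I.cv.2.1 c), map_mul, evp, MvPolynomial.eval₂Hom_C]
    ring
  · exact fun η => ⟨η, 0, Two3.cls_zero d m0, by simp⟩
  · intro m hm
    obtain ⟨z, hz⟩ := hr m
    by_cases c : (d : ℤ) ∣ m - m0
    · exact ⟨z, _, Two3.cls_shift c (hcl m), hz⟩
    · obtain ⟨w, hw⟩ := Inv.bt_ev I.cv (h0 m hm c)
      exact ⟨z + w, 0, Two3.cls_zero d m0, by rw [hz, hw, map_add, map_zero, add_zero]⟩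

end Pool.Agent.MP_05b4bd_ag.ES.V
end

section
namespace Pool.Agent.MP_05b4bd_ag.PC3.V

open MvPolynomial HC
open Pool.Agent.MP_05b4bd_ag.ES hiding Gen GenTopStmt GenJacStmt Ob EscStmt3
open Pool.Agent.MP_05b4bd_ag.ES.V
open scoped PowerSeries LaurentSeries

namespace Lo
open Pool.Agent.MP_05b4bd_ag.PC3.Lo

variable {k : Type} [Field k]

end Lo

theorem loS (hT : GenTopStmt) (hJ : JredStmt) (hL : LiftStmt) : LoStmt := by
  intro k _ _ d f w hd hA hl
  obtain ⟨e, rfl⟩ : ∃ e, d = e + 2 := ⟨d - 2, by omega⟩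
  have hci : CI (hc (e + 1) (pderiv 0 f)) (hc (e + 1) (pderiv 1 f)) := by
    rw [hc_pderiv, hc_pderiv]; exact (hT k _ f (by omega) hA.gen).2.1
  have hf : DL (e + 3) f := hA.gen.2.1
  obtain ⟨g, hg, hg'⟩ := Lo.fam (hf.pderiv 0) (hf.pderiv 1) hci
  choose u hu using fun i => hL k f w _ hA.red (hJ k e f hf hci) (g i) (hg' i).1 (hg' i).2
  have h1 := card_le (W := Jd (JK w) (2 * e + 1))
    (Lo.ind_lift (u := u) (by simpa only [fun i => (hu i).2.1] using hg))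
    fun i => ⟨(hl _).2 (hu i).2.2, (hu i).1.map _⟩
  rw [Fintype.card_fin] at h1
  rwa [show 2 * (e + 2) - 3 = 2 * e + 1 by omega, show e + 2 - 2 = e by omega,
    show e + 2 - 1 = e + 1 by omega]

end Pool.Agent.MP_05b4bd_ag.PC3.V
end

section
namespace Pool.Agent.MP_05b4bd_ag.ES.V

open PowerSeries LaurentSeries HC

namespace S1b3
open Pool.Agent.MP_05b4bd_ag.ES.S1b3

variable {k L : Type} [Field k] [Field L]

/-- A functional that sees one class only. -/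
theorem func (h4 : EvbStmt) (h6 : GenTopStmt) (hN : NzcStmt) [CharZero k] {d : ℕ} (I : Inf k d L)
    (hd : 3 ≤ d) {m0 : ℤ} {r : R2 k} (hr : Cls d m0 r) (hb : ¬ Bt (hc d I.f) r) :
    ∃ l : L →+ k, (∀ c z, l (I.κ c * z) = c * l z) ∧ (∀ η, l (I.D η) = 0) ∧
      (∀ (m : ℤ) (s : R2 k), Cls d m s → ¬ (d : ℤ) ∣ m - m0 →
        l (evp I.κ (cc I.x0) (cc I.y0) s) = 0) ∧ l (evp I.κ (cc I.x0) (cc I.y0) r) ≠ 0 := by
  obtain ⟨-, hC, hx, hy, -⟩ := h6 k d I.f (by omega) I.gen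
  let _ : Algebra k L := I.κ.toAlgebra
  have hs : ∀ (c : k) (z : L), c • z = I.κ c * z := fun c z => Algebra.smul_def c z
  have hC' : ∀ c, evp I.κ (cc I.x0) (cc I.y0) (MvPolynomial.C c) = I.κ c := fun c =>
    MvPolynomial.eval₂Hom_C _ _ c
  let Λ : Submodule k L :=
    { carrier := {z | ∃ (η : L) (s : R2 k), (∀ e : Fin 2 →₀ ℕ, MvPolynomial.coeff e s ≠ 0 →
        ¬ (d : ℤ) ∣ e.degree + m0 + 2) ∧ z = I.D η + evp I.κ (cc I.x0) (cc I.y0) s}
      zero_mem' := ⟨0, 0, fun e h => absurd (MvPolynomial.coeff_zero e) h, by simp⟩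
      add_mem' := by
        rintro _ _ ⟨η, s, h, rfl⟩ ⟨η', s', h', rfl⟩
        refine ⟨η + η', s + s', fun e he => ?_, by simp only [map_add]; ring⟩
        by_cases h0 : MvPolynomial.coeff e s = 0
        · exact h' e fun h1 => he (by rw [MvPolynomial.coeff_add, h0, h1, add_zero])
        · exact h e h0
      smul_mem' := by
        rintro c _ ⟨η, s, h, rfl⟩
        refine ⟨I.κ c * η, MvPolynomial.C c * s, fun e he => h e fun h1 => he ?_, ?_⟩
        · rw [MvPolynomial.coeff_C_mul, h1, mul_zero]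
        · rw [hs, I.cv.1.const_mul (I.cv.2.1 c), map_mul, hC', mul_add] }
  have hn : evp I.κ (cc I.x0) (cc I.y0) r ∉ Λ := by
    rintro ⟨η, s, h, e⟩
    refine hb ((hN k d _ hd (hc_hom _ _) hC).2.2 m0 r (-s) hr (fun e he => h e fun h1 => he ?_)
      (h4 k L I.κ I.D d _ _ _ (by omega) (hc_hom _ _) hC hx hy I.cv I.gb _ η ?_)).1
    · rw [MvPolynomial.coeff_neg, h1, neg_zero]
    · rw [map_add, map_neg, e, add_neg_cancel_right]
  obtain ⟨l, l1, l2⟩ := Submodule.exists_dual_map_eq_bot_of_notMem hn inferInstance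
  have l3 : ∀ z ∈ Λ, l z = 0 := fun z hz =>
    (Submodule.mem_bot k).1 (l2 ▸ Submodule.mem_map_of_mem hz)
  refine ⟨l.toAddMonoidHom, fun c z => ?_, fun η => l3 _ ?_, fun m s h1 h2 => l3 _ ?_, l1⟩
  · rw [← hs]
    exact l.map_smul c z
  · exact ⟨η, 0, fun e h => absurd (MvPolynomial.coeff_zero e) h, by simp⟩
  · refine ⟨0, s, fun e he h3 => h2 ?_, by simp⟩
    have h5 := dvd_sub (h1 e he) h3
    rwa [show (e.degree : ℤ) + m + 2 - (e.degree + m0 + 2) = m - m0 by ring] at h5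

theorem fin (h4 : EvbStmt) (h6 : GenTopStmt) (hW : WtStmt) (hT : TwoStmt) (hN : NzcStmt)
    [CharZero k] [IsAlgClosed k] {d : ℕ} (I : Inf k d L) (hd : 3 ≤ d) {c : k⸨X⸩} (hc0 : c ≠ 0)
    (v : L) (h : ∀ m, ∃ z, (wL L d * (mapL I.κ c * thL L (cc I.Xi) -
      thL L (mapL I.κ c) * cc I.Xi)).coeff m = I.D z + I.κ (c.coeff m) * v) : False := by
  obtain ⟨r, r1, r2⟩ := hW k L d I (by omega)
  obtain ⟨m1, m2, h1, h2, h12, b1, b2⟩ := hT k L d I r hd r1 r2
  have key : ∀ m0, ¬ Bt (hc d I.f) (r m0) → ∃ (A : k⸨X⸩) (a : k), A ≠ 0 ∧ ES.S1b3.Ex d m0 A ∧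
      wL k d * (c * thL k A - thL k c * A) = cL k a * c := by
    intro m0 hb
    obtain ⟨l, l1, l2, l3, l4⟩ := func h4 h6 hN I hd (r2 m0) hb
    have hA : ∀ m, (cwL l (cc I.Xi)).coeff m = l (evp I.κ (cc I.x0) (cc I.y0) (r m)) := fun m => by
      obtain ⟨η, e⟩ := r1 m
      rw [coeff_cwL, e, map_add, l2, zero_add]
    refine ⟨cwL l (cc I.Xi), l v, fun e => l4 ?_, fun p hp => ?_, ?_⟩
    · rw [← hA, e, HahnSeries.coeff_zero]
    · by_contra hx
      exact hp (by rw [hA, l3 p _ (r2 p) hx])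
    · rw [thL_cwL, ← cwL_mul I.κ l l1, ← cwL_mul I.κ l l1, ← map_sub, ← cwL_wL_mul, ← thL_mapL]
      ext p
      obtain ⟨z, e⟩ := h p
      rw [coeff_cwL, e, map_add, l2, zero_add, l1, coeff_cL_mul, mul_comm]
  obtain ⟨A1, a1, n1, e1, q1⟩ := key m1 b1
  obtain ⟨A2, a2, n2, e2, q2⟩ := key m2 b2
  exact elim h1 h2 h12 hc0 n1 n2 e1 e2 q1 q2

end S1b3

open Pool.Agent.MP_05b4bd_ag.ES.S1b in
theorem s1bS3 (h1 : CmpStmt) (h2 : AmalgStmt) (h4 : EvbStmt) (h6 : GenTopStmt) (hW : WtStmt)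
    (hT : TwoStmt) (hN : NzcStmt) : S1bStmt3 := by
  intro k L U _ _ _ _ _ d I D1 i J0 ν hd hnd hE hc hJ0 hν0 hmax
  have : CharZero L := charZero_of_injective_ringHom I.κ.injective
  have : CharZero U := charZero_of_injective_ringHom i.injective
  have : CharZero L⸨X⸩ := charZero_of_injective_ringHom (cL_inj (R := L))
  have : CharZero U⸨X⸩ := charZero_of_injective_ringHom (cL_inj (R := U))
  have hd0 : d ≠ 0 := by omega
  obtain ⟨e, J, rfl, hr⟩ := exists_tfac hJ0.1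
  rw [← map_pow] at hJ0 hν0
  have hJ := strip hE.1.coefw (by
    rw [← mul_one (X ^ e), cw_X_pow_mul, hE.1.coefw.one, mul_zero]) hJ0
  have hν : OrdIs ν J := ⟨fun h => hν0.1 (by rw [coeff_C_mul, h, mul_zero]), fun j hj => by
    have := hν0.2 j hj
    rw [coeff_C_mul] at this
    exact (mul_eq_zero.1 this).resolve_left (pow_ne_zero _ X_ne_zero)⟩
  have ha0 : cc (mA i I.a) ≠ 0 := by
    intro h
    have h' : cc I.a = 0 := map_injective i i.injective (by rw [map_zero, ← h]; rfl)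
    obtain ⟨a', ha'⟩ := X_dvd_iff.2 h'
    have hra := I.ra
    rw [ha', map_mul, red_X] at hra
    have h7 : red a' = -(d : L⟦X⟧) :=
      mul_left_cancel₀ (X_ne_zero (R := L)) (by linear_combination hra)
    have h8 : IsUnit a' := isUnit_iff_constantCoeff.2 (isUnit_iff_constantCoeff.2 (by
      rw [← c00_apply, ← cc_red, h7, map_neg, map_natCast]
      exact (neg_ne_zero.2 (Nat.cast_ne_zero.2 hd0)).isUnit))
    exact hnd (ha' ▸ mul_dvd_mul_left X h8.dvd)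
  have hA0 : cc (iT I.a) = -((d : L⸨X⸩) * wL L 1) := by
    rw [cc_iT, I.ra, map_neg, map_mul, map_natCast, coeL_X]
  have hA : cc (iT (mA i I.a)) = -((d : U⸨X⸩) * wL U 1) := by
    rw [← mT_iT, cc_mT, hA0, map_neg, map_mul, map_natCast, mapL_wL]
  have hAu : IsUnit (iT (mA i I.a)) := isUnit_iff_constantCoeff.2 (by
    rw [hA]
    exact ((Nat.cast_ne_zero.2 hd0).isUnit.mul (isUnit_wL 1)).neg)
  have hAw : IsUnit (iT (mA i I.a) * C (wL U 1)) := hAu.mul ((isUnit_wL 1).map _)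
  obtain ⟨om, ho⟩ : ∃ om, om * (iT (mA i I.a) * C (wL U 1)) = iT J :=
    (dvd_iff_exists_eq_mul_left.1 hAw.dvd).imp fun _ h => h.symm
  have hv : iT (mA i I.a) * mT i I.vb = iT (mA i I.b) := by
    rw [← mT_iT, ← mT_iT, ← map_mul, I.hv]
  have hvb : cc I.vb = 0 := by
    have h := congrArg cc I.hv
    rw [map_mul, hA0, cc_iT, I.rb, map_zero] at h
    exact (mul_eq_zero.1 h).resolve_left
      (neg_ne_zero.2 (mul_ne_zero (Nat.cast_ne_zero.2 hd0) (isUnit_wL 1).ne_zero))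
  have hV : VT D1 (mT i I.vb) (mT i I.h) = X ^ I.n * mT i I.Xi := by
    rw [← mT_X i, ← map_pow, ← map_mul, ← I.hV]
    simp only [VT, mT, map_sub, map_mul, cw_map' (cwL_mapL hE.2), cw_map' (thL_mapL i)]
  have hS := VS (om_eq hE.1 hJ hAu.ne_zero hv ho) hE.1 hV
  obtain ⟨S0, S', e1, e2, e3⟩ := h1 L U I.D D1 i d I.n I.vb I.h I.Xi _ _ (by omega) I.n1 hE
    (fun c h => (hc c h).elim fun r hr => ⟨I.κ r, hr⟩) hvb I.rh I.hV hS
  obtain ⟨S, hSd⟩ : ∃ S, S = om * cw (thL U) (mT i I.h) := ⟨_, rfl⟩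
  rw [← hSd] at e1 e2 e3
  have c1 : cc S = cc om * (-(d : U⸨X⸩) * wL U (-(d : ℤ))) := by
    rw [hSd, map_mul, cc_cw, cc_mT, I.rh, mapL_wL, thL_wL, Int.cast_neg, Int.cast_natCast]
  have c2 : cc S ≠ 0 := by
    rw [c1]
    refine mul_ne_zero (fun h => hr (coeL_inj ?_))
      (mul_ne_zero (neg_ne_zero.2 (Nat.cast_ne_zero.2 hd0)) (isUnit_wL _).ne_zero)
    rw [← cc_iT, ← ho, map_mul, h, zero_mul, map_zero]
  obtain ⟨ck, hck⟩ := exists_mapL (i.comp I.κ).injective (f := cc S) fun m => hc _ (by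
    rw [← coeff_cwL, e2]; rfl)
  obtain ⟨n0, g0, hg0⟩ := exists_wL_mul ck
  obtain ⟨s, g, hg, rfl⟩ := unit_fac (f := g0) fun h => c2 (by
    rw [hck, hg0, h, map_zero, mul_zero, map_zero])
  rw [map_mul, coeL_X_pow, ← mul_assoc, ← wL_add] at hg0
  generalize -(n0 : ℤ) + s = μ at hg0
  have hg1 : cc g ≠ 0 := (isUnit_iff_constantCoeff.1 hg).ne_zero
  have hμ : ck.coeff μ ≠ 0 := by
    rw [hg0, coeff_wL_mul, sub_self, ← Nat.cast_zero, coeff_coeL, coeff_zero_eq_constantCoeff]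
    exact hg1
  obtain ⟨c0, hc0⟩ : ∃ c0, c0 = wL L μ * coeL L (map I.κ g) := ⟨_, rfl⟩
  have c3 : cc S = mapL i c0 := by
    rw [hck, hg0, hc0, map_mul, map_mul, mapL_wL, mapL_wL, mapL_coeL, mapL_coeL, map_comp]
    rfl
  obtain ⟨Φ, hΦ⟩ : ∃ Φ, Φ = c0 * thL L (cc I.Xi) - thL L c0 * cc I.Xi := ⟨_, rfl⟩
  obtain ⟨Ψ, hΨ⟩ : ∃ Ψ, Ψ = -(wL L d * (cL L (d : L)⁻¹ * Φ)) := ⟨_, rfl⟩
  have c4 : cwL D1 (cc S') = mapL i Ψ := by
    have w1 : wL U d * wL U (-(d : ℤ)) = 1 := wL_mul_neg _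
    have w2 : cL U (d : U)⁻¹ * (d : U⸨X⸩) = 1 := by
      rw [← map_natCast (cL U), ← map_mul, inv_mul_cancel₀ (Nat.cast_ne_zero.2 hd0), map_one]
    rw [e3, map_mul, cc_cw, cc_mT, dh, hΨ, hΦ]
    simp only [map_neg, map_mul, map_sub, mapL_wL, map_inv₀, map_natCast, ← thL_mapL]
    rw [← c3, c1]
    rw [map_inv₀, map_natCast] at w2
    linear_combination (-(cc om * thL U (mapL i (cc I.Xi)))) * w1 -
      (cc om * thL U (mapL i (cc I.Xi)) * wL U d * wL U (-(d : ℤ))) * w2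
  have key : ∀ m, ∃ z, (cc S').coeff m -
      (cc S').coeff μ * i (I.κ (ck.coeff m / ck.coeff μ)) = i z := by
    intro m
    by_contra hx
    obtain ⟨Ω, _, D', τ2, σ, t2, hσ⟩ := h2 L U I.D D1 i hE Unit (fun _ => (cc S').coeff m -
      (cc S').coeff μ * i (I.κ (ck.coeff m / ck.coeff μ))) fun _ z h => hx ⟨z, h⟩
    obtain ⟨t1, ag, ne⟩ := hσ ()
    generalize σ () = τ1 at t1 ag ne
    have ec : τ2.comp i = τ1.comp i := RingHom.ext fun z => (ag z).symm
    have eA : ∀ z, mA τ2 (mA i z) = mA τ1 (mA i z) := fun z => by rw [mA_mA, mA_mA, ec]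
    have eT : ∀ z, mT τ1 (mT i z) = mT τ2 (mT i z) := fun z => by
      ext p q
      simp only [coeff_mT, coeff_mapL, ag]
    obtain ⟨c, hcJ⟩ := prop t1 t2 (eA _) (eA _) hJ hν ha0 fun I' h =>
      hmax Ω D' (τ1.comp i) I' ⟨t1.1, fun z => by
        rw [RingHom.comp_apply, t1.2, hE.2, RingHom.comp_apply]⟩ (by rwa [mA_mA, mA_mA] at h)
    have eo : mT τ1 om = map (cL Ω) c * mT τ2 om := by
      have o1 := congrArg (mT τ1) ho
      have o2 := congrArg (mT τ2) ho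
      have o3 : mT τ1 (iT (mA i I.a) * C (wL U 1)) = mT τ2 (iT (mA i I.a) * C (wL U 1)) := by
        rw [← iT_X, ← mA_X i, ← map_mul, ← map_mul, ← mT_iT, eT]
      rw [map_mul, mT_iT _ J] at o1 o2
      rw [hcJ, map_mul iT, iT_C, o3, ← o2, ← mul_assoc] at o1
      exact (hAw.map (mT τ2)).mul_right_cancel o1
    obtain ⟨γ, hγ⟩ := diff e1 (eT S0) (c := c) (by
      rw [hSd, th_mT, map_mul, map_mul, eo, eT, mul_assoc]) c2
    have g1 := hγ m
    have g2 := hγ μ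
    rw [hck, coeff_mapL, RingHom.comp_apply] at g1 g2
    have g3 : τ2 (i (I.κ (ck.coeff μ))) * τ2 (i (I.κ (ck.coeff m / ck.coeff μ))) =
        τ2 (i (I.κ (ck.coeff m))) := by
      rw [← map_mul, ← map_mul, ← map_mul, mul_div_cancel₀ _ hμ]
    refine ne ?_
    rw [map_sub, map_sub, map_mul, map_mul, ag]
    linear_combination g1 - τ2 (i (I.κ (ck.coeff m / ck.coeff μ))) * g2 - γ * g3
  have k2 : ∀ m, ∃ z, Ψ.coeff m = I.D z + I.κ (ck.coeff m / ck.coeff μ) * Ψ.coeff μ := by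
    intro m
    obtain ⟨z, hz⟩ := key m
    have h := congrArg D1 hz
    rw [map_sub, hE.1, hE.2, hE.2, I.cv.2.1, map_zero, mul_zero, add_zero, ← coeff_cwL, ← coeff_cwL,
      c4, coeff_mapL, coeff_mapL, ← map_mul, ← map_sub] at h
    exact ⟨z, by rw [← i.injective h]; ring⟩
  have c5 : mapL I.κ ck = c0 := by rw [hg0, hc0, map_mul, mapL_wL, mapL_coeL]
  refine S1b3.fin h4 h6 hW hT hN I hd (c := ck) (fun e => hμ (by rw [e, HahnSeries.coeff_zero]))
    (I.κ (-(d : k) / ck.coeff μ) * Ψ.coeff μ) fun p => ?_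
  rw [c5, ← hΦ]
  have h : (wL L d * Φ).coeff p = I.κ (-(d : k)) * Ψ.coeff p := by
    rw [hΨ, HahnSeries.coeff_neg, coeff_wL_mul, coeff_wL_mul, coeff_cL_mul, map_neg,
      map_natCast, neg_mul_neg, ← mul_assoc, mul_inv_cancel₀ (Nat.cast_ne_zero.2 hd0), one_mul]
  obtain ⟨z, hz⟩ := k2 p
  refine ⟨I.κ (-(d : k)) * z, ?_⟩
  rw [h, hz, I.cv.1.const_mul (I.cv.2.1 _), mul_add, ← mul_assoc, ← mul_assoc, ← map_mul,
    ← map_mul, mul_div_assoc', mul_div_assoc', mul_comm (ck.coeff p)]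

end Pool.Agent.MP_05b4bd_ag.ES.V
end

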