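import Pool.Agent.MP_05b4bd_ag.rr.V1
import Pool.Agent.MP_05b4bd_ag.rr.V2
import Pool.Agent.MP_05b4bd_ag.rr.V3
import Pool.Agent.MP_05b4bd_ag.rr.V4
import Pool.Agent.MP_05b4bd_ag.rr.V5
import Pool.Agent.MP_05b4bd_ag.rr.V6
import Pool.Agent.MP_05b4bd_ag.esc.Ann
import Pool.Agent.MP_05b4bd_ag.esc.Wrap2
import Pool.Agent.MP_05b4bd_ag.esc3.Log
import Pool.Agent.MP_05b4bd_ag.um.Icd
import Pool.Agent.MP_05b4bd_ag.um.Seq
import Pool.Agent.MP_05b4bd_ag.um.Ex33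
import Pool.Agent.MP_05b4bd_ag.pc3.Asm

/-! Arcs of centres through `df` without a first integral at infinity lie in the old families. -/

section
namespace Pool.Agent.MP_05b4bd_ag.ES.V

open MvPolynomial HC

theorem ilAbsV (h : UM.IrrStmt) : IlAbsStmt := by
  intro k M _ _ _ _ _ d f c e BB Λ hd H G hB g hg hc0 n r hr hn
  let N : Submodule k (R2 k) := ⨅ (m : ℤ) (_ : ¬ (d : ℤ) ∣ m), Λ.comap (c m)
  have hN : ∀ u, u ∈ N ↔ ∀ m : ℤ, ¬ (d : ℤ) ∣ m → c m u ∈ Λ := fun u => by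
    simp only [N, Submodule.mem_iInf, Submodule.mem_comap]
  have hd0 : (d : k) ≠ 0 := Nat.cast_ne_zero.2 (by omega)
  have up : ∀ (m : ℤ) a b, c (m - d) (a * pderiv 0 f + b * pderiv 1 f) ∈ Λ →
      c m (pderiv 0 a + pderiv 1 b) ∈ Λ := fun m a b h => by
    simpa using sub_mem (hB (G.div m a b)) (Λ.smul_mem (((m : k) - d) / d) h)
  have dn : ∀ (m : ℤ) a b, ¬ (d : ℤ) ∣ m → c (m + d) (pderiv 0 a + pderiv 1 b) ∈ Λ →
      c m (a * pderiv 0 f + b * pderiv 1 f) ∈ Λ := fun m a b hm h => by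
    have h1 := sub_mem (hB (G.div (m + d) a b)) h
    rw [add_sub_cancel_left, add_sub_cancel_right] at h1
    refine (Λ.smul_mem_iff ?_).1 h1
    have : (m : k) ≠ 0 := Int.cast_ne_zero.2 fun e => hm (e ▸ dvd_zero _)
    push_cast
    rw [add_sub_cancel_right]
    exact div_ne_zero this hd0
  have hadd : ∀ m : ℤ, (d : ℤ) ∣ m + d ↔ (d : ℤ) ∣ m := fun m => dvd_add_self_right
  have hsub : ∀ m : ℤ, (d : ℤ) ∣ m - d ↔ (d : ℤ) ∣ m := fun m => dvd_sub_self_right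
  rcases (h k d f (by omega) H.2.2.1).2 N (fun v => (hN _).2 fun m _ => hB (G.ham m v))
    (fun u hu => (hN _).2 fun m hm => by rw [G.mul]; exact (hN _).1 hu _ (mt (hadd m).1 hm))
    (fun a b => ⟨fun h => (hN _).2 fun m hm => up m a b ((hN _).1 h _ (mt (hsub m).1 hm)),
      fun h => (hN _).2 fun m hm => dn m a b hm ((hN _).1 h _ (mt (hadd m).1 hm))⟩) with h1 | h1
  · obtain ⟨v, hv⟩ := h1 g ((hN g).2 hc0)
    exact (hg v hv).elim
  have hr1 := DL.of_hom hr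
  have h7 := (hN r).1 (h1 ▸ Submodule.mem_top) (d - 2 - n) fun h => hn (by
    have := dvd_sub (dvd_refl (d : ℤ)) h
    rw [show (d : ℤ) - (d - 2 - n) = ((n + 2 : ℕ) : ℤ) by omega] at this
    exact_mod_cast this)
  rwa [G.lead n r hr1, hc_self hr] at h7

open Esc in
theorem genJacV (h : UM.IrrStmt) : GenJacStmt := by
  classical
  intro k _ _ _ d f hd H
  have T := H.2.2.1
  obtain ⟨n, p, hp⟩ := T.cr
  have hs : ∀ q, q ∈ Finset.univ.image p ↔ ∃ i, p i = q := fun q => by simp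
  refine ⟨Finset.univ.image p, ?_, fun q => (hs q).trans ⟨?_, UM.Ilj.crit_mem hp⟩, ?_,
    fun u hu => hp.rad u fun i => hu _ ((hs _).2 ⟨i, rfl⟩), fun q hq u hu => ?_⟩
  · by_contra h0
    obtain ⟨e, rfl⟩ : ∃ e, d = e + 2 := ⟨d - 2, by omega⟩
    obtain ⟨a, b, hab⟩ := Ideal.mem_span_pair.1
      (hp.rad 1 fun i => (h0 ⟨p i, (hs _).2 ⟨i, rfl⟩⟩).elim)
    obtain ⟨a', b', ha, hb, h3⟩ := kos_top (n := 0) (T.dl.pderiv 0) (T.dl.pderiv 1) T.top a b
      (by rw [hab]; exact (DL_C 1).mono (by omega))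
    rw [hab, ha.eq_zero, hb.eq_zero] at h3
    simp at h3
  · rintro ⟨i, rfl⟩
    exact hp.crit i
  · intro q hq q' hq' e
    obtain ⟨i, rfl⟩ := (hs q).1 hq
    obtain ⟨j, rfl⟩ := (hs q').1 hq'
    rw [hp.inj e]
  obtain ⟨i, rfl⟩ := (hs q).1 hq
  have l2 : loc f (p i) ∈ mm k ^ 2 := Crit.loc_mm (hp.crit i)
  have ci : CI (hc 1 (pderiv 0 (loc f (p i)))) (hc 1 (pderiv 1 (loc f (p i)))) := by
    rw [pderiv_loc, pderiv_loc, UM.Ilj.hc1_tr, UM.Ilj.hc1_tr]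
    exact CI_lf (by simpa only [br, map_sub, map_mul] using hp.hess i)
  have e1 : ∀ a b : R2 k, tr (p i) (a * pderiv 0 f + b * pderiv 1 f) =
      tr (p i) a * pderiv 0 (loc f (p i)) + tr (p i) b * pderiv 1 (loc f (p i)) := fun a b => by
    simp only [map_add, map_mul, pderiv_loc]
  have e2 : ∀ a b : R2 k, tr (p i) (pderiv 0 a + pderiv 1 b) =
      pderiv 0 (tr (p i) a) + pderiv 1 (tr (p i) b) := fun a b => by
    simp only [map_add, tr_pderiv]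
  rcases (h k d f (by omega) T).2 ((NN (loc f (p i))).comap (tr (p i)).toLinearMap)
    (fun v M => ⟨tr (p i) v, by simp [tr_br]⟩)
    (fun w hw M => by
      obtain ⟨g, hg⟩ := hw M
      refine ⟨tr (p i) f * g, ?_⟩
      have : br (tr (p i) f * g) (loc f (p i)) = tr (p i) f * br g (loc f (p i)) := by
        simp only [br, pderiv_mul, pderiv_loc, tr_pderiv]; ring
      rw [this, AlgHom.toLinearMap_apply, map_mul, ← mul_sub]
      exact Ideal.mul_mem_left _ _ hg)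
    (fun a b => ⟨fun hw M => by
      obtain ⟨g, hg⟩ := hw (M + 2)
      rw [AlgHom.toLinearMap_apply, e1] at hg
      rw [AlgHom.toLinearMap_apply, e2]
      exact ham_down l2 ci hg, fun hw M => by
      obtain ⟨g, hg⟩ := hw M
      rw [AlgHom.toLinearMap_apply, e2] at hg
      rw [AlgHom.toLinearMap_apply, e1]
      exact ham_up hg⟩) with h1 | h1
  · exact h1 u hu
  · obtain ⟨g, hg⟩ := (h1 ▸ Submodule.mem_top :
      (1 : R2 k) ∈ (NN (loc f (p i))).comap (tr (p i)).toLinearMap) 1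
    have := add_mem hg (sub_mem (Ideal.mul_mem_left _ (pderiv 0 g) (mm_pderiv 1 l2))
      (Ideal.mul_mem_left _ (pderiv 1 g) (mm_pderiv 0 l2)))
    rw [br, sub_add_cancel, mem_mm_one] at this
    simp at this

theorem twoV (hIlAbs : IlAbsStmt) : TwoStmt := twoS evbS (ilS glcS hIlAbs) genTopS nzcS

theorem escV (hIlAbs : IlAbsStmt) : EscStmt3 :=
  have hDerAlg : DerAlgStmt := derAlgS
  have hGenTop : GenTopStmt := genTopS
  have hChart : ChartStmt := chartS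
  have hMkinf : MkinfStmt := mkinfS hDerAlg
  have hRat : RatStmt := ratS
  have hObs : ObsStmt := obsS
  have hRefl : ReflStmt := reflS
  have hSym : SymStmt := symS cherS hRefl
  have hDisc : DiscStmt := discS pairAbsS
  have hBase : BaseStmt := baseS hGenTop hDerAlg
  have hCmp : CmpStmt := cmpS
  have hAmalg : AmalgStmt := amalgS
  have hGlc : GlcStmt := glcS
  have hIl : IlStmt := ilS hGlc hIlAbs
  have hEvb : EvbStmt := evbS
  have hTwo : TwoStmt := twoV hIlAbs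
  have hS1b : S1bStmt3 := s1bS3 hCmp hAmalg hEvb hGenTop (wtS hGlc) hTwo nzcS
  have hS1 : S1Stmt3 := s1S3 (dichS commonS) hBase hS1b s1aS3
  have hS2a : S2aStmt3 :=
    s2aS3 (symaS3 hS1 commuteS hDerAlg) (symbS3 hCmp hIl holS hGenTop) hDerAlg
  have hDfin : DfinStmt3 := dfinS3 lienS hObs hSym hRefl hDisc hS2a hGenTop loc0S
  have hPframe : PframeStmt := pframeS hMkinf hRat hObs
  have hAfin : AfinStmt3 :=
    afinS3 (amkS pramS peqS) (a12S a1S) (a3S lowS) abmkS extS hPframe hS1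
  have hPsi : PsiStmt := psiS expS
  have hBmk : BmkStmt := bmkS (bnumS pramS peqS) bendS abmkS hPframe hPsi
  have hLog2 : Log2Stmt3 := log2S3 hDisc (log1S3 holS hDerAlg) hPsi expS
  have hKill : KillStmt3 := killS3 hS1
  have hBlog : BlogStmt3 := blogS3 lienAS hPsi hSym hLog2 hKill hObs
  have hS2b : S2bStmt3 :=
    s2bS3 hKill commuteS hDerAlg (s2cS3 hCmp hIl holS hGenTop hEvb nzcS traceS)
  have hBfin : BfinStmt3 := bfinS3 hBlog hDisc (annS pairAbsS) hS2a hS2b hPsi hObs hGenTop locIS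
  escS3 (case8S3 hChart hMkinf hRat hDfin hGenTop) (pmkS3 hChart hGenTop) hAfin hBmk hBfin

end Pool.Agent.MP_05b4bd_ag.ES.V
end

section
namespace Pool.Agent.MP_05b4bd_ag.RV

open MvPolynomial HC
open ES hiding Gen GenTopStmt GenJacStmt Ob EscStmt3
open ES.V hiding Gen NoF NoFI
open PC3 hiding Arc SeqStmt IcStmt UpStmt LoStmt CenStmt CflStmt
open PC3.V
open UM hiding SeqStmt CoreStmt
open scoped PowerSeries LaurentSeries

namespace Port

variable {k : Type} [Field k] [CharZero k]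

/-- The Hessian does not vanish at a critical point. -/
theorem hess {d : ℕ} {f : R2 k} (H : Gen d f) {q : Fin 2 → k}
    (hq : ∀ i, eval q (pderiv i f) = 0) : eval q (br (pderiv 1 f) (-pderiv 0 f)) ≠ 0 := by
  obtain ⟨n, p, h⟩ := H.2.2.1.cr
  obtain ⟨i, rfl⟩ := cr_mem h hq
  rw [show br (pderiv 1 f) (-pderiv 0 f) = br (pderiv 0 f) (pderiv 1 f) by
    simp only [br, map_neg]; ring]
  exact h.hess i

variable [IsAlgClosed k]

theorem no_ob (hE : EscStmt3) (h3 : GenJacStmt) {d : ℕ} (hd : 3 ≤ d)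
    (o : ES.V.Ob k d) {p : Fin 2 → k⸨X⸩} (h : CenK (o.P, o.Q) p) : False := by
  have : CharZero k⸨X⸩ := charZero_of_injective_ringHom (cL_inj (R := k))
  obtain ⟨mP, mQ, hb, hI⟩ := h
  choose c hc using hE k d hd o p (ES.Core.cab_of_fi p mP mQ hb hI)
  obtain rfl : p = fun i => coeL k (c i) := funext hc
  dsimp only at mP mQ hI
  rw [← map_tr] at mP mQ
  rw [← map_tr, ← map_tr] at hI
  replace mP := mm_of_map _ coeL_inj mP
  replace mQ := mm_of_map _ coeL_inj mQ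
  obtain ⟨q, hq⟩ : ∃ q : Fin 2 → k, q = fun i => cc (c i) := ⟨_, rfl⟩
  have eP : map cc (tr c o.P) = pderiv 1 (tr q o.f) := by rw [map_tr, o.rP, tr_pderiv, hq]
  have eQ : map cc (tr c o.Q) = -pderiv 0 (tr q o.f) := by
    rw [map_tr, o.rQ, tr_pderiv, map_neg, hq]
  have crit : ∀ i, eval q (pderiv i o.f) = 0 := by
    have a := mem_mm_one.1 (mm_map (cc : k⟦X⟧ →+* k) mP)
    have b := mem_mm_one.1 (mm_map (cc : k⟦X⟧ →+* k) mQ)
    rw [eP, tr_pderiv, coeff_zero_tr] at a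
    rw [eQ, tr_pderiv, coeff_neg, coeff_zero_tr, neg_eq_zero] at b
    intro i
    fin_cases i
    exacts [b, a]
  have dg : ∀ i, pderiv i (tr q o.f) = pderiv i (tr q o.f - C (eval q o.f)) := fun i => by
    rw [map_sub, pderiv_C, sub_zero]
  rw [dg] at eP eQ
  have x0 : coeL k (PowerSeries.X ^ o.n) ≠ 0 := fun e =>
    pow_ne_zero _ PowerSeries.X_ne_zero (coeL_inj (e.trans (map_zero _).symm))
  have l1 : cc (HC.co 1 0 (tr c o.P) * HC.co 0 1 (tr c o.Q) -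
      HC.co 0 1 (tr c o.P) * HC.co 1 0 (tr c o.Q)) ≠ 0 := by
    have := hess o.gen crit
    rw [← o.rQ, ← o.rP, ← map_br, hq, ← Fra.cc_eval, br, map_sub, map_mul, map_mul] at this
    rwa [(SeqU.co_tr c o.P).1, (SeqU.co_tr c o.P).2, (SeqU.co_tr c o.Q).1, (SeqU.co_tr c o.Q).2]
  have key := SeqU.star (b := tr c o.gt) mP mQ l1 hI
    fun N => ⟨C (coeL k (PowerSeries.X ^ o.n))⁻¹ * map (coeL k) (tr c o.H), by
      rw [vf_C_mul, ← map_vf, ← tr_vf, o.eq, map_mul, map_mul, algHom_C, algebraMap_eq, map_C,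
        ← mul_assoc, ← map_mul, inv_mul_cancel₀ x0, map_one, one_mul, sub_self]
      exact zero_mem _⟩
  obtain ⟨s, -, hs, -, -, hN⟩ := h3 k d o.f hd o.gen
  obtain ⟨v, hv⟩ := hN q ((hs q).2 crit) (map cc o.gt) (mem_NN.2 fun N => by
    obtain ⟨h, hh⟩ := key N
    have := mm_map (cc : k⟦X⟧ →+* k) hh
    rw [map_sub, map_vf, eP, eQ, map_tr, ← hq] at this
    exact ⟨_, this⟩)
  exact o.ng v hv

theorem seq (hE : EscStmt3) (hJ : GenJacStmt) {d : ℕ} {f : R2 k} {w : Fm k⟦X⟧}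
    {p : Fin 2 → k⸨X⸩} (hd : 3 ≤ d) (A : Arc d f w) (hp : CenK w p)
    (hn : ∀ o : RV.Ob k d, o.f = f → o.P = w.1 → o.Q = w.2 → NoF d f w.1 w.2) : Sq f w := by
  obtain ⟨P, Q⟩ := w
  obtain ⟨hf, ⟨dP, dQ⟩, hr⟩ := A
  have rP : map cc P = pderiv 1 f := congrArg Prod.fst hr
  have rQ : map cc Q = -pderiv 0 f := congrArg Prod.snd hr
  obtain ⟨s, -, hs, -, h3, -⟩ := hJ k d f hd hf
  have hb : map cc (br P Q) = br (pderiv 1 f) (-pderiv 0 f) := by rw [map_br, rP, rQ]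
  have lf : ∀ q ∈ s, ∃ p : Fin 2 → k⟦X⟧, (∀ i, cc (p i) = q i) ∧ eval p P = 0 ∧ eval p Q = 0 := by
    intro q hq
    refine Fra.lift P Q q ?_ ?_ ?_
    · rw [rP]; exact (hs q).1 hq 1
    · rw [rQ, map_neg, (hs q).1 hq 0, neg_zero]
    · rw [hb]
      exact hess hf ((hs q).1 hq)
  have st : ∀ (n : ℕ) (H : R2 k⟦X⟧), map cc H = f ∧ C (PowerSeries.X ^ (n + 1)) ∣ vf P Q H →
      ∃ H' : R2 k⟦X⟧, (map cc H' = f ∧ C (PowerSeries.X ^ (n + 1 + 1)) ∣ vf P Q H') ∧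
        C (PowerSeries.X ^ (n + 1)) ∣ H' - H := by
    rintro n H ⟨r1, g, hg⟩
    have hj : map cc g ∈ Jac f := by
      refine h3 _ fun q hq => ?_
      obtain ⟨p, p1, p2, p3⟩ := lf q hq
      have := Fra.van hg p2 p3
      rwa [funext p1] at this
    by_cases hc : ∃ u, map cc g = br u f
    · obtain ⟨u, hu⟩ := hc
      exact Fra.step rP rQ r1 hg hu
    · exact (no_ob hE hJ hd ⟨P, Q, H, g, f, n + 1, hf, dP, dQ, rP, rQ, r1,
        Nat.le_add_left 1 n, hg, fun u e => hc ⟨u, e⟩, hj, hn ⟨P, Q, H, g, f, n + 1, hf, dP, dQ,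
          rP, rQ, r1, Nat.le_add_left 1 n, hg, fun u e => hc ⟨u, e⟩, hj⟩ rfl rfl rfl⟩ hp).elim
  have s0 : C (PowerSeries.X ^ (0 + 1)) ∣ vf P Q (map (PowerSeries.C : k →+* k⟦X⟧) f) := by
    rw [zero_add, pow_one]
    refine Fra.ker_dvd ((Fra.rv rP rQ f).trans ?_)
    rw [br, mul_comm, sub_self]
  exact Fra.seq _ _ ⟨_, Fra.map_lift f, s0⟩ st

theorem core (ic : IcdStmt) (nc6 : UM.Nc6Stmt) (cen : CenStmt) (cfl : CflStmt) (par : UM.ParStmt)
    {d : ℕ} {f : R2 k} {w : Fm k⟦X⟧} (h3 : 3 ≤ d) (A : Arc d f w) (hs : Sq f w) (Ω : Type)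
    [Field Ω] [CharZero Ω] [IsAlgClosed Ω] (ψ : k⸨X⸩ →+* Ω) :
    Fam d (mapF ψ (mapF (coeL k) w)) := by
  have : CharZero k⸨X⸩ := charZero_of_injective_ringHom (cL_inj (R := k))
  have ic' : PC3.V.IcStmt := fun k _ _ _ d f g h hd hf g0 hg he =>
    ic k d f g h hd hf.2.2.1 g0 (hg.mono hd) he
  obtain ⟨e, rfl⟩ : ∃ e, d = e + 1 + 1 := ⟨d - 2, by omega⟩
  have hT : TM (e + 2) f := A.gen.2.2.1
  have rp : IsRelPrime (pderiv 0 f) (pderiv 1 f) := by
    rintro g ⟨u, hu⟩ ⟨v, hv⟩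
    exact PC3.Up.unit_of_dvd (e := e) (A.gen.2.1.pderiv 0) (A.gen.2.1.pderiv 1) hT.top
      (hu.trans (mul_comm _ _)) (hv.trans (mul_comm _ _))
  obtain ⟨n0, n1, gs⟩ := ts1S k f w rp A.red hs
  obtain ⟨lk, g⟩ := ts2S k w n0 n1 gs
  have LL : Lev (e + 1 + 1) (mapF (coeL k) w) (JK w) :=
    { toLevA := gvS _ _ _ _ _ _ _ _ g
      toLevB := PC3.V.upS ES.V.genTopS ic' k _ f w h3 A lk
      deg := A.deg.map _
      lo := PC3.V.loS ES.V.genTopS jredS PC3.liftS k _ f w h3 A lk }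
  have dg := LL.deg.map ψ
  by_cases hB : dv w = 0
  · obtain ⟨g, h1, h2, h3⟩ := exact_of_div dg.1 dg.2
      (show dv _ = 0 by rw [← map_dv, ← map_dv, hB, map_zero, map_zero])
    exact .inl ⟨g, h1, Prod.ext h2 h3⟩
  have hK : dv (mapF (coeL k) w) ≠ 0 := fun h =>
    hB (map_injective _ coeL_inj (by rw [map_dv, h, map_zero]))
  have o2 : Lim (H2 1 (e + 1 + 1)) (mapF ψ (mapF (coeL k) w)) →
      Fam (e + 1 + 1) (mapF ψ (mapF (coeL k) w)) := fun h => .inr (.inl h)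
  have o3 : Lim (H3 (e + 1 + 1)) (mapF ψ (mapF (coeL k) w)) →
      Fam (e + 1 + 1) (mapF ψ (mapF (coeL k) w)) := fun h => .inr (.inr (.inl h))
  have o4 : Lim (H2 2 (e + 1)) (mapF ψ (mapF (coeL k) w)) →
      Fam (e + 1 + 1) (mapF ψ (mapF (coeL k) w)) := fun h => .inr (.inr (.inr (.inl h)))
  have clo : Clo (mapF (coeL k) w) → Fam (e + 1 + 1) (mapF ψ (mapF (coeL k) w)) := by
    intro h
    rcases clsS commS _ _ _ _ h3 LL hK h with h | h | ⟨m, c0, c1, h, hm⟩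
    · exact o2 (linS Ω _ _ dg (Core3.lin ψ h))
    · exact (affS linS diagS nilS Ω _ _ dg (Core3.aff ψ h)).elim o2 o3
    have oc : TF (e + 1 + 1) (mapF ψ (mapF (coeL k) w)) (map ψ m) (ψ c0) (ψ c1) → _ :=
      fun hf => o4 (cfl Ω _ _ _ _ _ (by omega) (Core3.cn ψ h).1 hf)
    rcases hm with hm | hm
    · exact (cen Ω _ _ _ _ _ h3 dg (Core3.cn ψ h) (Core3.ctr ψ hm)).elim o3 oc
    · exact (par Ω _ _ _ _ _ h3 dg (Core3.cn ψ h) (Core3.pab ψ hm)).elim oc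
        fun hf => .inr (.inr (.inr (.inr hf)))
  by_cases he : e = 1
  · subst he
    exact (det3S ciS commS _ _ _ LL hK).elim clo fun h => o4 (pblS Ω _ _ (Core3.pb ψ h))
  obtain ⟨c1, c2⟩ := (ciS _ _ _ _ h3 LL).2.1 (by omega)
  by_cases hN : Con (mapF (coeL k) w)
  · exact clo (c2 hN)
  obtain rfl | rfl | h6 : e = 2 ∨ e = 3 ∨ 6 ≤ e + 1 + 1 := by omega
  · exact (nc4S kgS pullS _ _ _ LL hK (mt c1 hN) hN).elim
  · exact absurd (nc5S kgS pullS _ _ _ LL hK (mt c1 hN) hN) (PC3.ex33 hT.dl hT.top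
      (fun g h g0 hg he => ic k _ f g h h3 hT g0 (hg.mono (by omega)) he) A.red hB)
  · exact absurd (nc6 _ _ _ _ h6 LL hK (mt c1 hN)) hN

end Port

theorem portS (h1 : UM.IrrStmt) (h2 : IcdStmt) (h3 : UM.Nc6Stmt) (h4 : CenStmt) (h5 : CflStmt)
    (h6 : UM.ParStmt) : PortStmt := by
  intro k _ _ _ d f w p hd g dg hr hc
  by_cases hn : ∀ o : RV.Ob k d, o.f = f → o.P = w.1 → o.Q = w.2 → NoF d f w.1 w.2
  · exact .inl (Port.core h2 h3 h4 h5 h6 hd ⟨g, dg, hr⟩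
      (Port.seq (escV (ilAbsV h1)) (genJacV h1) hd ⟨g, dg, hr⟩ hc hn))
  · push Not at hn
    exact .inr hn

end Pool.Agent.MP_05b4bd_ag.RV
end
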