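import Pool.Agent.MP_05b4bd_ag.rr.Bas

/-! The fibres of a tame Morse polynomial are irreducible. -/

namespace Pool.Agent.MP_05b4bd_ag.RV

open MvPolynomial HC
open ES.U (TM)

namespace Prime

variable {k : Type} [Field k]

/-- The top degrees of two factors add up. -/
theorem top_le {n s t : ℕ} {u v : R2 k} (h : DL n (u * v)) (hu : DL (s + 1) u) (hu0 : hc s u ≠ 0)
    (hv : DL (t + 1) v) (hv0 : hc t v ≠ 0) : s + t < n := by
  refine Esc.lt_of_hc_ne h ?_
  rw [hc_mul_top hu hv]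
  exact mul_ne_zero hu0 hv0

/-- A prime factor of a first integral is invariant. -/
theorem dvd_br [CharZero k] {g f u : R2 k} (g0 : g ≠ 0) (hb : br g f = 0) (hu : Prime u)
    (hd : u ∣ g) : u ∣ br u f := by
  obtain ⟨e, w, hw, rfl⟩ := WfDvdMonoid.max_power_factor g0 hu.irreducible
  rcases e with _ | e
  · rw [pow_zero, one_mul] at hd
    exact absurd hd hw
  rw [Esc.br_mul, Esc.br_pow, Nat.add_sub_cancel] at hb
  have h1 : u ^ e * (((e + 1 : ℕ) : R2 k) * br u f * w + u * br w f) = 0 := by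
    rw [← hb]; ring
  have h2 := (mul_eq_zero.1 h1).resolve_left (pow_ne_zero _ hu.ne_zero)
  have h3 : u ∣ ((e + 1 : ℕ) : R2 k) * br u f * w :=
    ⟨-br w f, by linear_combination h2⟩
  have h4 := (hu.dvd_or_dvd h3).resolve_right hw
  have h5 : IsUnit ((e + 1 : ℕ) : R2 k) := by
    rw [← map_natCast (C : k →+* R2 k)]
    exact (IsUnit.mk0 _ (Nat.cast_ne_zero.2 (Nat.succ_ne_zero e))).map _
  exact (h5.dvd_mul_left).1 h4

end Prime

theorem primeS (h : UM.IcdStmt) : PrimeStmt := by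
  intro k _ _ _ d f c hd hT
  have d0 : d ≠ 0 := by omega
  have top : hc d (f - C c) ≠ 0 := by
    rw [hc_sub, Esc.hc_C_of_ne d0, sub_zero]
    exact Esc.ne_zero_of_ci (hc_hom d f) hT.ci
  have gd : DL (d + 1) (f - C c) := hT.dl.sub ((DL_C c).mono (by omega))
  have g0 : f - C c ≠ 0 := fun z => top (by rw [z]; exact map_zero _)
  have nu : ¬ IsUnit (f - C c) := by
    intro hu
    obtain ⟨v, hv⟩ := hu.exists_right_inv
    have v0 : v ≠ 0 := fun z => by rw [z, mul_zero] at hv; exact zero_ne_one hv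
    obtain ⟨t, ht, ht0⟩ := Esc.exists_top v0
    have one : DL 1 ((f - C c) * v) := by rw [hv, ← C_1]; exact DL_C 1
    have := Prime.top_le one gd top ht ht0
    omega
  obtain ⟨u, hi, hdv⟩ := WfDvdMonoid.exists_irreducible_factor nu g0
  have hu : Prime u := hi.prime
  have hb : br (f - C c) f = 0 := by rw [Esc.br_sub, Esc.br_self, Esc.br_C, sub_zero]
  obtain ⟨z, hz⟩ := Prime.dvd_br g0 hb hu hdv
  have nd : ¬ DL d u := fun hl =>
    hu.not_isUnit (Esc.isUnit_of_DL_one
      (h k d f u z hd hT hu.ne_zero hl (by rw [hz, mul_comm])) hu.ne_zero)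
  obtain ⟨v, hv⟩ := hdv
  have v0 : v ≠ 0 := fun z => g0 (by rw [hv, z, mul_zero])
  obtain ⟨s, hs, hs0⟩ := Esc.exists_top hu.ne_zero
  obtain ⟨t, ht, ht0⟩ := Esc.exists_top v0
  have lt := Prime.top_le (hv ▸ gd) hs hs0 ht ht0
  have sd : d ≤ s := by
    by_contra hn
    exact nd (hs.mono (by omega))
  have t0 : t = 0 := by omega
  subst t0
  have uv : IsUnit v := Esc.isUnit_of_DL_one ht v0
  rw [hv]
  exact (prime_mul_isUnit uv).2 hu

end Pool.Agent.MP_05b4bd_ag.RV
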