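import Pool.Agent.MP_05b4bd_ag.rr.Spec3

/-! The form descends to the quotient by deck transformations that preserve it. -/

namespace Pool.Agent.MP_05b4bd_ag.RV

open PowerSeries LaurentSeries HC
open ES hiding Gen Ob Inf

namespace Quo

variable {L : Type} [Field L]

theorem iT_form (D : L →+ L) {a b : AA L} {vb : TT L} (hv : iT a * vb = iT b) (ρ : AA L) :
    iT (a * cw (cw D) ρ - X * b * dX _ ρ) = iT a * VT D vb (iT ρ) := by
  unfold VT
  rw [cw_iT, th_iT, mul_sub, ← mul_assoc, hv, thP_apply]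
  simp only [map_sub, map_mul]
  ring

theorem ord_one [CharZero L] {d : ℕ} (hd : 1 ≤ d) : OrdIs 1 (-((d : L⟦X⟧) * X)) := by
  have e : -((d : L⟦X⟧) * X) = X ^ 1 * C (-(d : L)) := by
    rw [map_neg, map_natCast]
    ring
  rw [e]
  refine ordIs_X_pow_mul 1 ?_
  rw [constantCoeff_C]
  exact neg_ne_zero.2 (Nat.cast_ne_zero.2 (by omega))

theorem cc_ne [CharZero L] {d : ℕ} (hd : 1 ≤ d) {a b : AA L} (ha : red a = -((d : L⟦X⟧) * X))
    (nd : ¬ a ∣ X * b) : cc a ≠ 0 := by
  intro h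
  obtain ⟨a1, rfl⟩ := X_dvd_iff.2 h
  have e : red a1 = -(d : L⟦X⟧) := by
    rw [map_mul, red_X] at ha
    exact mul_left_cancel₀ X_ne_zero (by rw [ha]; ring)
  have u : IsUnit a1 := by
    rw [isUnit_iff_constantCoeff, isUnit_iff_constantCoeff]
    refine Ne.isUnit ?_
    have e2 := congrArg cc e
    rw [cc_red, c00_apply, map_neg, map_natCast] at e2
    rw [show constantCoeff (constantCoeff a1) = -(d : L) from e2]
    exact neg_ne_zero.2 (Nat.cast_ne_zero.2 (by omega))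
  exact nd (mul_dvd_mul_left X u.dvd)

end Quo

theorem quoS (h : VandStmt) : QuoStmt := by
  intro L ι _ _ _ D a b ρ vb d σ Φ i0 _ hd ha hb nd hv dk h2 hρ hφ
  have oa : OrdIs 1 (red a) := ha ▸ Quo.ord_one hd
  obtain ⟨B, hB⟩ := ((h L ρ).2 ι σ Φ i0 dk).2.2.2.2.2.2 (a * cw (cw D) ρ - X * b * dX _ ρ) a h2 oa
    fun i => by
      obtain ⟨φ, e1, e2⟩ := hφ i
      rw [← e1, Quo.iT_form D hv, map_mul, ← e2, e1, e1, dk.fix]
      ring
  refine ⟨B, dk.c0, dk.ord, ?_, ?_, hB⟩
  · have e := congrArg red hB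
    have e1 : red (cw (cw D) ρ) = 0 := by
      rw [← hρ]
      exact (cw_map' (φ := cc) (D := cw D) (D' := D) (fun u => (cc_cw D u).symm) ρ).symm
    have e2 : red (sb ρ B) = sb (red ρ) (red B) := map_sb dk.c0 cc B
    simp only [map_sub, map_mul, e1, e2, hb, mul_zero, zero_mul, sub_zero] at e
    have n1 : red a ≠ 0 := fun c => oa.1 (by rw [c, map_zero])
    have n2 : red ρ ≠ 0 := fun c => dk.ord.1 (by rw [c, map_zero])
    have c1 : cc (red ρ) = 0 := by rw [cc_red, c00_apply, dk.c0, map_zero]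
    refine red_eq_zero.1 (sb_inj c1 n2 ?_)
    rw [map_zero]
    exact (mul_eq_zero.1 e.symm).resolve_left n1
  · have e := congrArg cc hB
    rw [map_sub, map_mul, map_mul, map_mul, map_mul, cc_cw, dk.c0, map_zero, cc_sb dk.c0,
      constantCoeff_X, mul_zero, zero_mul, zero_mul, sub_zero] at e
    exact (mul_eq_zero.1 e.symm).resolve_left (Quo.cc_ne hd ha nd)

end Pool.Agent.MP_05b4bd_ag.RV
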