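import Pool.Agent.MP_05b4bd_ag.rr.Spec2

/-! The Melnikov function is a combination of the derivatives of `f` with low divergence. -/

namespace Pool.Agent.MP_05b4bd_ag.RV

namespace Red

open MvPolynomial HC Esc
open ES.U (TM)

variable {k : Type} [Field k] [CharZero k]
variable {M : Type} [AddCommGroup M] [Module k M] {d : ℕ} {f : R2 k}
  {c : ℤ → R2 k →ₗ[k] M} {e : R2 k →ₗ[k] M} {BB : Submodule k M}

theorem low (hd : 3 ≤ d) (H : TM d f) (G : ES.GLax d f c e BB)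
    (he : ∀ r, e r ∈ BB → ES.Bt (hc d f) r) {g : R2 k} (hg : g ∈ Jac f)
    (hm : ∀ m : ℤ, m < -d → c m g ∈ BB) : ∃ a b, a * pderiv 0 f + b * pderiv 1 f = g ∧
      DL (d - 1) (pderiv 0 a + pderiv 1 b) := by
  have hci := H.ci
  obtain ⟨a, b, rfl⟩ := Ideal.mem_span_pair.1 hg
  have key : ∀ n a' b', a' * pderiv 0 f + b' * pderiv 1 f = a * pderiv 0 f + b * pderiv 1 f →
      DL (d - 1 + n) (pderiv 0 a' + pderiv 1 b') → ∃ a' b', a' * pderiv 0 f + b' * pderiv 1 f =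
        a * pderiv 0 f + b * pderiv 1 f ∧ DL (d - 1) (pderiv 0 a' + pderiv 1 b') := by
    intro n
    induction n with
    | zero => exact fun a' b' h1 h2 => ⟨a', b', h1, h2⟩
    | succ n ih =>
      intro a' b' h1 h2
      have h3 := G.div ((d : ℤ) - 2 - (d - 1 + n : ℕ)) a' b'
      rw [G.lead (d - 1 + n) _ h2, h1] at h3
      obtain ⟨η, h4, h5⟩ := (nz_full (by omega) (hc_hom d f) hci (hc_hom _ _)
        (he _ ((BB.add_mem_iff_left (BB.smul_mem _ (hm _ (by omega)))).1 h3))).2 (by omega)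
      obtain ⟨e', rfl⟩ : ∃ e', d = e' + 1 := ⟨d - 1, by omega⟩
      rw [show e' + 1 - 1 + n + 2 - (e' + 1) = n + 1 by omega] at h4
      simp only [Nat.add_sub_cancel] at h2 h5 ih ⊢
      refine ih (a' - η * pderiv 1 f) (b' + η * pderiv 0 f) (by rw [← h1]; ring) ?_
      have h6 : pderiv 0 (a' - η * pderiv 1 f) + pderiv 1 (b' + η * pderiv 0 f) =
          pderiv 0 a' + pderiv 1 b' - br η f := by
        simp only [map_sub, map_add, pderiv_mul, HC.pderiv_comm, br]; ring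
      rw [h6]
      refine DL.pred (h2.sub (br_DL (DL.of_hom h4) H.dl)) ?_
      rw [hc_sub, h5, hc_br_top (DL.of_hom h4) H.dl, hc_self h4, sub_self]
  obtain ⟨n, hn⟩ := exists_DL (pderiv 0 a + pderiv 1 b)
  exact key n a b rfl (hn.mono (by omega))

end Red

open PowerSeries LaurentSeries HC
open ES hiding Gen Ob Inf

theorem redS (h1 : ES.GlcStmt) (h2 : ES.EvbStmt) : RedStmt := by
  intro k L _ _ _ d I d3 lo
  let : Algebra k L := I.κ.toAlgebra
  have hκ : algebraMap k L = I.κ := rfl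
  have hT := I.gen.tm
  have hev := h2 k L I.κ I.D d _ _ _ (by omega) (hc_hom d I.f) hT.ci I.gen.2.2.2.2.1
    I.gen.2.2.2.2.2 I.cv I.gb
  obtain ⟨-, c, e, BB, hc', he', hB, hG⟩ := h1 k L I.D d I.f I.x0 I.y0 (by omega) I.cv I.fr
  rw [hκ] at hc' he'
  have hev' : ∀ r, e r ∈ BB → Bt (HC.hc d I.f) r := fun r hr => by
    obtain ⟨z, hz⟩ := (hB _).1 hr
    exact hev r z (by rw [← he', hz])
  have lo' : ∀ m : ℤ, m < -d → c m I.g ∈ BB := fun m hm => by
    rw [hc', ← I.rX]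
    exact (hB _).2 (lo m hm)
  obtain ⟨a, b, eg, dg⟩ := Red.low d3 hT hG hev' I.jac lo'
  refine ⟨a, b, eg.symm, dg, fun h0 => ?_⟩
  obtain ⟨u, hu⟩ := Esc.ham_exact (f := I.f) (a := a) (b := b) (h := 0) (by
    rw [Esc.br_zero]; exact h0)
  exact I.ng u (by rw [← hu, eg])

end Pool.Agent.MP_05b4bd_ag.RV
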