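import Pool.Agent.MP_05b4bd_ag.rr.Spec5

/-! Row REL: conjugation of two normal fields along a branch. -/

namespace Pool.Agent.MP_05b4bd_ag.RV

open PowerSeries LaurentSeries HC
open ES hiding Gen Ob Inf
open ES.U (TM Cr hom)

namespace Rel

variable {k : Type} [Field k]

theorem dA_vr (i l : Fin 2) : dA k i (vr k l) = if i = l then 1 else 0 := by
  have h : cw (dX k) (X : AA k) = 0 := cw_X isDer_dX.one
  fin_cases i <;> fin_cases l <;> simp [dA, vr, cw_C, dX_X, dX_C, h]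

theorem dA_CC (i : Fin 2) (c : k) : dA k i (CC c) = 0 := by
  fin_cases i <;> simp [dA, CC_apply, cw_C, dX_C]

theorem Vn_mul (w z : AA k) (a b : AA k⸨X⸩) : Vn w z (a * b) = Vn w z a * b + a * Vn w z b := by
  simp only [Vn, isDer_thL.coefw.coefw a b, isDer_thP.coefw a b]
  ring

theorem Vn_pi (w z : AA k) : Vn w z (C X) = mA (cL k) z * C X := by
  simp only [Vn, cw_C, cw_X isDer_thL.one, thP_apply, dX_X, map_zero, mul_zero, mul_one, zero_add]

theorem Vn_W (w z : AA k) : Vn w z (CC (wL k 1)) = mA (cL k) w * CC (wL k 1) := by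
  simp only [Vn, CC_apply, cw_C, thL_wL, thP_apply, dX_C, map_zero, mul_zero, add_zero,
    Int.cast_one, one_mul]

/-- The displacement as an automorphism that straightens the field. -/
theorem theta [CharZero k] (h1 : TayStmt) {i : Fin 2} {j : AA k →+* TT k}
    {dT : Fin 2 → TT k →+ TT k} {A δ : Fin 2 → (AA k)⟦X⟧} {lam : (AA k)⟦X⟧} {z : AA k}
    (H : En i j dT) (N : Nf A δ lam z) : ∃ Θ : AA k⸨X⸩ ≃+* AA k⸨X⸩, Θ X = X ∧
      (∀ c, Θ (CC (cL k c)) = CC (cL k c)) ∧ (∀ y, cc (Θ y) = cc y) ∧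
      Θ (C X) = map j ((C (C X) + δ 0) * (C X + δ 1)) ∧
      ∀ y, vS dT (fun l => map j (A l)) (Θ y) = map j lam * Θ (Vn (wv i z) z y) := by
  let _ : Algebra ℚ (TT k) := (((C : k⸨X⸩ →+* TT k).comp (cL k)).comp (algebraMap ℚ k)).toAlgebra
  obtain ⟨t1, -, t3⟩ := h1 (TT k) dT H.cm
  obtain ⟨φ, hφ⟩ := t1 (fun l => map j (δ l)) fun l => by rw [K3.cc_map, N.d0, map_zero]
  obtain ⟨-, b, c, -, e, -⟩ := t3 _ φ hφ
  have dv : ∀ l l', dT l (j (vr k l')) = if l = l' then 1 else 0 := fun l l' => by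
    rw [H.nat, dA_vr]
    split_ifs <;> simp
  have hb : ∀ l, hat φ (C (j (vr k l))) = map j (C (vr k l) + δ l) := fun l => by
    rw [hat_C, b _ fun a a' => by
      rw [dv]
      split_ifs
      exacts [(H.cm.der a).one, map_zero _], dv, dv, map_add, map_C]
    fin_cases l <;> simp
  have hc : ∀ r, hat φ (CC (cL k r)) = CC (cL k r) := fun r => by
    have z0 : ∀ l, dT l (C (cL k r)) = 0 := fun l => by rw [← H.con, H.nat, dA_CC, map_zero]
    rw [CC_apply, hat_C, b _ fun a a' => by rw [z0, map_zero], z0, z0]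
    simp
  have hr : ∀ y, cc (hat φ y) = cc y := fun y => by rw [cc_hat, hφ.red]
  have hp : hat φ (C X) = map j ((C (C X) + δ 0) * (C X + δ 1)) := by
    rw [← H.pi, map_mul j, map_mul C, map_mul, map_mul]
    exact congrArg₂ (· * ·) (hb 0) (hb 1)
  have hz : hat φ (mA (cL k) z) = map j (zv δ z) := by
    have m1 : (C (C X) + δ 0) * (C X + δ 1) ∈ up (up (up (⊥ : Ideal k))) := by
      simp [mem_up, N.d0]
    have m2 : (X : (AA k)⟦X⟧) ∈ up (up (up (⊥ : Ideal k))) := by simp [mem_up]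
    refine DFunLike.congr_fun (homExt2 (up (up ⊥)) (g := (hat φ).comp (mA (cL k)))
      (g' := (map j).comp (zv δ)) (fun r => ?_) ?_ ?_ ?_ ?_) z
    all_goals simp only [RingHom.comp_apply, mA_CC, mA_CX, mA_X, hat_X, zv]
    · rw [hc, ev2_CC _ m1 m2, RingHom.comp_apply, map_C, H.con, CC_apply]
    · rw [hp, ev2_CX _ m1 m2]
    · rw [ev2_X _ m2, map_X]
    · rw [mem_up, hr]
      simp [mem_up]
    · simp [mem_up]
  refine ⟨RingEquiv.ofBijective _ e, hat_X φ, hc, hr, hp, fun y => ?_⟩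
  change vS dT _ (hat φ y) = _ * hat φ _
  have cm : ∀ l a u, dT l (dT a u) = dT a (dT l u) := fun l a u => by
    fin_cases l <;> fin_cases a
    exacts [rfl, H.cm.comm u, (H.cm.comm u).symm, rfl]
  have nv : ∀ u, map j (vS (dA k) A u) =
      map j (A 0) * cw (dT 0) (map j u) + map j (A 1) * cw (dT 1) (map j u) := fun u => by
    simp only [vS, map_add, map_mul, cw_map' (H.nat _)]
  have ea := congrArg (map j) N.ea
  have eb := congrArg (map j) N.eb
  have b0 : hat φ (C (j (C X))) = map j (C (C X) + δ 0) := hb 0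
  have b1 : hat φ (C (j X)) = map j (C X + δ 1) := hb 1
  have d0 : ∀ l, dT l (j (C X)) = if l = 0 then 1 else 0 := fun l => dv l 0
  have d1 : ∀ l, dT l (j X) = if l = 1 then 1 else 0 := fun l => dv l 1
  rw [nv, map_mul] at ea
  rw [nv, map_mul, map_mul, map_sub, ← hz] at eb
  simp only [map_add, map_C, cw_C, d0, d1, if_true, zero_ne_one, one_ne_zero, if_false, map_one,
    map_zero] at ea eb b0 b1
  have key : Vn (wv i z) z y = C (j (C X)) * cw (dT 0) y +
      C (j X) * cw (dT 1) y * (mA (cL k) z - 1) := by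
    have a0 : C (j (vr k i.rev)) * cw (dT i.rev) y = cw (thP _) y := by
      ext1 n
      rw [coeff_C_mul, coeff_cw, coeff_cw, H.th0]
    have a1 : C (j (vr k i)) * cw (dT i) y = cw (cw (thL k)) y + cw (thP _) y := by
      ext1 n
      rw [coeff_C_mul, map_add, coeff_cw, coeff_cw, coeff_cw, H.th1]
    fin_cases i
    · change C (j X) * cw (dT 1) y = _ at a0
      change C (j (C X)) * cw (dT 0) y = _ at a1
      change mA (cL k) 1 * _ + _ = _
      rw [a0, a1, map_one]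
      ring
    · change C (j (C X)) * cw (dT 0) y = _ at a0
      change C (j X) * cw (dT 1) y = _ at a1
      change mA (cL k) (z - 1) * _ + _ = _
      rw [a0, a1, map_sub, map_one]
      ring
  rw [key, vS, c _ (H.cm.der 0) (cm 0), c _ (H.cm.der 1) (cm 1)]
  simp only [map_add, map_mul, map_sub, map_one, b0, b1]
  linear_combination hat φ (cw (dT 0) y) * ea + hat φ (cw (dT 1) y) * eb

end Rel

theorem relS (h1 : TayStmt) (_h2 : TaydStmt) : RelStmt := by
  intro k _ _ i j dT A B δ δ' lam lam' z z' s m ψ μ H hm NA NB hδ p1 p2 p3 p4 p5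
  obtain ⟨Θ, a1, a2, a3, a4, a5⟩ := Rel.theta h1 H NA
  obtain ⟨Θ', b1, b2, b3, b4, b5⟩ := Rel.theta h1 H NB
  obtain ⟨ν, hν⟩ := (NB.unit.map (map j)).exists_left_inv
  let Ψ : AA k⸨X⸩ →+* AA k⸨X⸩ := (Θ'.symm.toRingHom.comp ψ).comp Θ.toRingHom
  have q0 : ∀ y, Θ' (Ψ y) = ψ (Θ y) := fun y => Θ'.apply_symm_apply _
  have q1 : ∀ y, Vn (wv i z') z' (Ψ y) =
      Θ'.symm (ν * μ * ψ (map j lam)) * Ψ (Vn (wv i z) z y) := fun y => Θ'.injective (by
    have e := b5 (Ψ y)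
    rw [q0, p5, a5, map_mul] at e
    rw [map_mul, Θ'.apply_symm_apply, q0]
    linear_combination -ν * e - Θ' (Vn (wv i z') z' (Ψ y)) * hν)
  have c1 : ∀ y, cc (Θ'.symm y) = cc y := fun y => by rw [← b3, Θ'.apply_symm_apply]
  have c2 : ∀ y, cc (ψ y) = cc y := fun y => by
    rw [← sub_eq_zero, ← map_sub, ← X_dvd_iff]
    exact (dvd_pow_self X (by omega)).trans (p3 y)
  have q2 : ∀ y, cc (Ψ y) = cc y := fun y => by rw [← b3, q0, c2, a3]
  have hW : (CC (wL k (-1)) : AA k⸨X⸩) * CC (wL k 1) = 1 := by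
    rw [← map_mul, mul_comm, wL_mul_neg, map_one]
  obtain ⟨ε0, e0⟩ := hδ 0
  obtain ⟨ε1, e1⟩ := hδ 1
  obtain ⟨r, hr⟩ := eq_C_add_X_mul (Θ (C X))
  obtain ⟨r', hr'⟩ := p3 r
  obtain ⟨r'', hr''⟩ := p4
  rw [a3, constantCoeff_C] at hr
  refine ⟨Ψ.comp (mA (cL k)), Ψ (CC (wL k 1)) * CC (wL k (-1)),
    Θ'.symm (C (j s) - map j (ε0 * (C X + δ' 1) + (C (C X) + δ 0) * ε1)),
    Θ'.symm (ν * μ * ψ (map j lam)), fun c => Θ'.injective ?_, Θ'.injective ?_,
    ⟨Θ'.symm (r'' + r'), Θ'.injective ?_⟩, ?_, ?_, ?_, ?_⟩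
  · rw [RingHom.comp_apply, mA_CC, q0, a2, b2, CC_apply, p2]
  · rw [RingHom.comp_apply, mA_X, q0, a1, b1, p1]
  · have e : Θ' (C X) - Θ (C X) = X ^ m * map j (ε0 * (C X + δ' 1) + (C (C X) + δ 0) * ε1) := by
      rw [a4, b4, ← map_sub, ← map_X j, ← map_pow, ← map_mul]
      congr 1
      linear_combination (C X + δ' 1) * e0 + (C (C X) + δ 0) * e1
    have e' := congrArg ψ hr
    rw [map_add, map_mul, p1] at e'
    simp only [RingHom.comp_apply, mA_CX, map_sub, map_mul Θ', map_pow, q0, b1,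
      RingEquiv.apply_symm_apply]
    linear_combination e' + hr'' + X * hr' - e - hr
  · rw [c00_apply, c1, map_sub, constantCoeff_C, K3.cc_map, ← map_sub, H.res]
    simp [c00_apply, NA.d0, NB.d0]
  · rw [map_mul, q2, ← map_mul, mul_comm, hW, map_one]
  · simp only [RingHom.comp_apply, mA_CX]
    rw [q1, Rel.Vn_pi, map_mul Ψ, ← mul_assoc]
  · have e := q1 (CC (wL k 1))
    have e' := Rel.Vn_mul (wv i z') z' (Ψ (CC (wL k 1)) * CC (wL k (-1))) (CC (wL k 1))
    rw [mul_assoc, hW, mul_one, e, Rel.Vn_W, Rel.Vn_W, map_mul Ψ] at e'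
    rw [RingHom.comp_apply]
    linear_combination -CC (wL k (-1)) * e' - (Vn (wv i z') z' (Ψ (CC (wL k 1)) * CC (wL k (-1))) +
      mA (cL k) (wv i z') * (Ψ (CC (wL k 1)) * CC (wL k (-1)))) * hW

end Pool.Agent.MP_05b4bd_ag.RV
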