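import Pool.Agent.MP_05b4bd_ag.rr.Spec2

/-! Restriction of the Hamiltonian derivation to a fibre. -/

namespace Pool.Agent.MP_05b4bd_ag.RV

open MvPolynomial HC
open ES hiding Gen Ob Inf
open ES.U (TM Cr hom)

namespace Resf

variable {k : Type} [Field k]

/-- The bracket with `f`. -/
noncomputable def bf (f : R2 k) : R2 k →+ R2 k where
  toFun u := br u f
  map_zero' := by simp [br]
  map_add' a b := by simp only [br, map_add]; ring

theorem bf_der (f : R2 k) : IsDer (bf f) := fun a b => by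
  change br _ f = br a f * b + a * br b f
  simp only [br, Derivation.leibniz, smul_eq_mul]
  ring

/-- The function field of an invariant curve. -/
theorem exists_res {π f : R2 k} (hp : Prime π) (hb : br π f = 0) :
    ∃ (K : Type) (_ : Field K) (r : R2 k →+* K) (D : K →+ K), IsDer D ∧
      (∀ u, D (r u) = r (br u f)) ∧ (∀ u, r u = 0 ↔ π ∣ u) ∧ ∀ z : K, ∃ u v, z = r u / r v := by
  let I : Ideal (R2 k) := Ideal.span {π}
  have : I.IsPrime := (Ideal.span_singleton_prime hp.ne_zero).2 hp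
  let δ : R2 k ⧸ I →+ R2 k ⧸ I :=
    QuotientAddGroup.map I.toAddSubgroup I.toAddSubgroup (bf f) fun u hu => by
      obtain ⟨s, rfl⟩ := Ideal.mem_span_singleton.1 hu
      refine Ideal.mem_span_singleton.2 ⟨bf f s, ?_⟩
      rw [bf_der, show bf f π = 0 from hb, zero_mul, zero_add]
  have h1 : ∀ u, δ (Ideal.Quotient.mk I u) = Ideal.Quotient.mk I (bf f u) := fun _ => rfl
  have h2 : IsDer δ := fun a b => by
    obtain ⟨a, rfl⟩ := Ideal.Quotient.mk_surjective a
    obtain ⟨b, rfl⟩ := Ideal.Quotient.mk_surjective b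
    rw [← map_mul, h1, h1, h1, bf_der, map_add, map_mul, map_mul]
  obtain ⟨D, d1, d2⟩ := exists_der_loc (T := FractionRing (R2 k ⧸ I)) (nonZeroDivisors _) h2
  refine ⟨FractionRing (R2 k ⧸ I), inferInstance, (algebraMap _ _).comp (Ideal.Quotient.mk I), D,
    d1, fun u => d2 _, fun u => ?_, fun z => ?_⟩
  · rw [RingHom.comp_apply, map_eq_zero_iff _ (IsFractionRing.injective _ _),
      Ideal.Quotient.eq_zero_iff_mem, Ideal.mem_span_singleton]
  · obtain ⟨a, b, -, rfl⟩ := IsFractionRing.div_surjective (A := R2 k ⧸ I) z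
    obtain ⟨a, rfl⟩ := Ideal.Quotient.mk_surjective a
    obtain ⟨b, rfl⟩ := Ideal.Quotient.mk_surjective b
    exact ⟨a, b, rfl⟩

theorem evp_eq {K : Type} [Field K] (r : R2 k →+* K) :
    evp (r.comp C) (r (X 0)) (r (X 1)) = r :=
  ringHom_ext (fun a => by simp [evp]) fun i => by fin_cases i <;> simp [evp]

theorem mem_gf {K : Type} [Field K] (r : R2 k →+* K) (u : R2 k) :
    r u ∈ gf (r.comp C) (r (X 0)) (r (X 1)) := by
  induction u using MvPolynomial.induction_on with
  | C a => exact Subfield.subset_closure (Or.inl ⟨a, rfl⟩)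
  | add a b ha hb => rw [map_add]; exact add_mem ha hb
  | mul_X a i ha =>
    rw [map_mul]
    refine mul_mem ha (Subfield.subset_closure (Or.inr ?_))
    fin_cases i <;> simp

theorem eq_zero {d : ℕ} {f g : R2 k} {c : k} (hd : 1 ≤ d) (H : TM d f) (hg : DL (d - 1) g)
    (h : f - C c ∣ g) : g = 0 := by
  obtain ⟨s, rfl⟩ := h
  by_contra hn
  obtain ⟨m, h1, h2⟩ := Esc.exists_top (right_ne_zero_of_mul hn)
  have h3 := hc_mul_top (H.dl.sub ((DL_C c).mono (by omega))) h1
  rw [hg.hc_eq (by omega), hc_sub, (DL_C c).hc_eq hd, sub_zero] at h3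
  exact mul_ne_zero (Esc.ne_zero_of_ci (hc_hom d f) H.ci) h2 h3.symm

end Resf

open Resf in
theorem resfS (h1 : LogkStmt) (h2 : PrimeStmt) : ResfStmt := by
  rintro k _ _ _ d f g dF c w z hd H hD ⟨u, v, hv, e⟩ ⟨u', v', hv', e'⟩ hg h
  obtain ⟨K, _, r, D, d1, d2, d3, d4⟩ :=
    exists_res (f := f) (h2 k d f c hd H) (by simp [br, mul_comm])
  have inj : Function.Injective (eF k) := IsFractionRing.injective _ _
  have a0 := congrArg (dF 0) e
  have a1 := congrArg (dF 1) e
  rw [hD.der, hD.ext, hD.ext] at a0 a1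
  have key : br u f * v * v' = br v f * u * v' + v ^ 2 * (g * v' + (f - C c) * u') := inj (by
    simp only [br, map_mul, map_add, map_pow, map_sub (eF k) (_ * _), ← e, ← e', ← a0, ← a1]
    rw [D0] at h
    linear_combination (eF k v ^ 2 * eF k v') * h)
  have rp : r (f - C c) = 0 := (d3 _).2 dvd_rfl
  have rv : r v ≠ 0 := fun h0 => hv ((d3 _).1 h0)
  have rv' : r v' ≠ 0 := fun h0 => hv' ((d3 _).1 h0)
  have e1 : r v * (r u / r v) = r u := mul_div_cancel₀ _ rv
  have e2 := congrArg D e1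
  rw [d1, d2, d2] at e2
  have e3 := congrArg r key
  simp only [map_mul, map_add, map_pow, rp, zero_mul, add_zero] at e3
  have e4 : D (r u / r v) = r g := mul_left_cancel₀ (mul_ne_zero (pow_ne_zero 2 rv) rv') (by
    linear_combination (r v * r v') * e2 + e3 - (r (br v f) * r v') * e1)
  have hC : ∀ a, D ((r.comp C) a) = 0 := fun a => by
    rw [RingHom.comp_apply, d2]
    simp [br]
  obtain ⟨a, ha⟩ := h1 k K (r.comp C) D d f g c (r (X 0)) (r (X 1)) (r u / r v) hd H d1 hC
    (eq_top_iff.2 fun t _ => by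
      obtain ⟨p, q, rfl⟩ := d4 t
      exact div_mem (mem_gf r p) (mem_gf r q))
    (by rw [evp_eq, ← sub_eq_zero]; exact (map_sub r _ _).symm.trans rp)
    (by rw [evp_eq, d2]; simp [br]) (by rw [evp_eq, d2]; simp [br]) hg (by rw [evp_eq, e4])
  refine ⟨eq_zero (by omega) H hg ((d3 _).1 (by rw [← e4, ha, hC])), a, ?_⟩
  obtain ⟨s, hs⟩ := (d3 (u - C a * v)).1 (by
    rw [map_sub, map_mul, ← e1, ha, mul_comm]
    exact sub_self _)
  have v0 : eF k v ≠ 0 := (map_ne_zero_iff _ inj).2 fun h0 => hv (h0 ▸ dvd_zero _)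
  refine ⟨eF k s / eF k v, ⟨s, v, hv, mul_div_cancel₀ _ v0⟩, mul_left_cancel₀ v0 ?_⟩
  rw [e, mul_add, mul_left_comm, mul_div_cancel₀ _ v0, ← map_mul, ← map_mul, ← map_add, ← hs]
  congr 1
  ring

end Pool.Agent.MP_05b4bd_ag.RV
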