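import Pool.Agent.MP_05b4bd_ag.rr.Spec5

/-! The passage times of two equivalent normal fields agree up to an exact form. -/

namespace Pool.Agent.MP_05b4bd_ag.RV

open PowerSeries LaurentSeries HC
open ES hiding Gen Ob Inf

namespace Resx

section Abs
variable {S : Type} [CommRing S] [Algebra ℚ S] (J : Ideal S) [IsAdicComplete J S]

/-- The shift along a derivation and the integral over the displacement. -/
theorem shift {dl th : S →+ S} (hd : IsDer dl) (ht : IsDer th) (hc : ∀ y, th (dl y) = dl (th y))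
    {e : S} (he : e ∈ J) : ∃ T : S →+* S, (∀ y, dl y = 0 → T y = y) ∧
      (∀ y, dl y = 1 → T y = y + e) ∧
      ∀ b, th b = 0 → ∃ E, dl E = T b * (1 + dl e) - b ∧ th E = T b * th e := by
  obtain ⟨τ, t0, t1, t2⟩ := exists_tayl hd (RingHom.id S)
  obtain ⟨I, i1, i2, -⟩ := exists_int (R := S)
  have gC : ∀ r, ES.ev (RingHom.id S) e (C r) = r := ES.ev_C J he
  have gX : ES.ev (RingHom.id S) e X = e := ES.ev_X J he
  have com : ∀ δ : S →+ S, IsDer δ → (∀ y, δ (dl y) = dl (δ y)) → ∀ y, cw δ (τ y) = τ (δ y) := by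
    intro δ h1 h2 y
    refine PowerSeries.ext fun n => ?_
    rw [coeff_cw, t2, t2, h1.const_mul (h1.rat _), RingHom.id_apply, RingHom.id_apply]
    exact congrArg _ (Function.Commute.iterate_right h2 n y)
  have ch : ∀ δ : S →+ S, IsDer δ → ∀ f, δ (ES.ev (RingHom.id S) e f) =
      ES.ev (RingHom.id S) e (cw δ f) + ES.ev (RingHom.id S) e (dX S f) * δ e := by
    intro δ h f
    have w := hom_chain J (g := ES.ev (RingHom.id S) e) (by rw [gX]; exact he) h h (a := 1)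
      (fun r => by rw [gC, gC, one_mul]) f
    rwa [one_mul, gX] at w
  have ex : ∀ f g : S⟦X⟧, cc f = cc g → dX S f = dX S g → f = g := fun f g h1 h2 => by
    have w := eq_C_of_dX (f := f - g) (by rw [map_sub, h2, sub_self])
    rwa [map_sub, h1, sub_self, map_zero, sub_eq_zero] at w
  refine ⟨(ES.ev (RingHom.id S) e).comp τ, fun y h => ?_, fun y h => ?_, fun b h => ?_⟩
  · rw [RingHom.comp_apply, ex (τ y) (C y) (by rw [t0, constantCoeff_C]; rfl)
      (by rw [t1, h, map_zero, dX_C]), gC]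
  · rw [RingHom.comp_apply, ex (τ y) (C y + X)
      (by rw [t0, map_add, constantCoeff_C, constantCoeff_X, add_zero]; rfl)
      (by rw [t1, h, map_one, map_add, dX_C, dX_X, zero_add]), map_add, gC, gX]
  · refine ⟨ES.ev (RingHom.id S) e (I (τ b)), ?_, ?_⟩
    · rw [ch _ hd, i1, ex (cw dl (I (τ b))) (τ b - C b)
        (by rw [cc_cw, i2, map_zero, map_sub, t0, constantCoeff_C]; exact (sub_self b).symm)
        (by rw [dX_cw, i1, com _ hd fun _ => rfl, map_sub, dX_C, sub_zero, t1]), map_sub, gC,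
        RingHom.comp_apply]
      ring
    · rw [ch _ ht, i1, ex (cw th (I (τ b))) 0 (by rw [cc_cw, i2, map_zero, map_zero])
        (by rw [dX_cw, i1, com _ ht hc, h, map_zero, map_zero]), map_zero, zero_add,
        RingHom.comp_apply]

/-- The logarithm of an element close to one. -/
theorem logd {u : S} (hu : u - 1 ∈ J) : ∃ L, ∀ δ : S →+ S, IsDer δ → u * δ L = δ u := by
  obtain ⟨I, i1, -, -⟩ := exists_int (R := ℚ)
  obtain ⟨v, hv⟩ : ∃ v : ℚ⟦X⟧, (1 + X) * v = 1 :=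
    IsUnit.exists_right_inv (isUnit_iff_constantCoeff.2 (by simp))
  have gX : ES.ev (algebraMap ℚ S) (u - 1) X = u - 1 := ES.ev_X J hu
  refine ⟨ES.ev (algebraMap ℚ S) (u - 1) (I v), fun δ h => ?_⟩
  have w := hom_chain J (g := ES.ev (algebraMap ℚ S) (u - 1)) (by rw [gX]; exact hu) h
    K1b.isDer_zero (a := 0) (fun r => by rw [ES.ev_C J hu, h.rat, zero_mul]) (I v)
  have w1 := congrArg (ES.ev (algebraMap ℚ S) (u - 1)) hv
  rw [map_mul, map_add, map_one, gX] at w1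
  rw [w, i1, gX, map_sub, h.one]
  linear_combination δ u * w1

end Abs

section Disc
variable {A B : Type} [CommRing A] [CommRing B] {m : ℕ}

theorem cwL_proj {φ : A →+* B} {π : B →+ A} (h : ∀ a b, π (φ a * b) = a * π b) (f : A⸨X⸩)
    (g : B⸨X⸩) : cwL π (mapL φ f * g) = f * cwL π g := by
  obtain ⟨n, f', rfl⟩ := exists_wL_mul f
  obtain ⟨n', g', rfl⟩ := exists_wL_mul g
  rw [map_mul (mapL φ), mapL_wL, mapL_coeL, mul_mul_mul_comm, ← map_mul, mul_assoc, cwL_wL_mul, cwL_wL_mul,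
    cwL_coeL, cw_proj h, cwL_wL_mul, cwL_coeL, map_mul]
  ring

theorem hu (hm : 1 ≤ m) (s : A) :
    (X ^ (2 * m) * (C (cL A (-s)) + X * C (wL A 1)) : TT A) ∈ up (⊥ : Ideal A⸨X⸩) :=
  mem_up_bot.2 (by rw [map_mul, cc_X_pow (by omega), zero_mul])

theorem hz : (X ^ 2 : TT A) ∈ up (⊥ : Ideal A⸨X⸩) := mem_up_bot.2 (cc_X_pow (by omega))

theorem sg_CX (hm : 1 ≤ m) (s : A) :
    sg m s (C X) = X ^ (2 * m) * (C (cL A (-s)) + X * C (wL A 1)) := ev2_CX (up ⊥) (hu hm s) hz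

theorem sg_X (s : A) : sg m s X = X ^ 2 := ev2_X (up ⊥) hz

theorem sg_CC (hm : 1 ≤ m) (s c : A) : sg m s (CC c) = C (cL A c) := ev2_CC (up ⊥) (hu hm s) hz c

theorem mT_X (φ : A →+* B) : mT φ X = X := map_X _

theorem mT_c (φ : A →+* B) (c : A) : mT φ (C (cL A c)) = C (cL B (φ c)) := by
  rw [mT, map_C, mapL_cL]

theorem mT_w (φ : A →+* B) : mT φ (C (wL A 1)) = C (wL B 1) := by
  rw [mT, map_C, mapL_wL]

theorem sg_mA (hm : 1 ≤ m) (φ : A →+* B) (s : A) (y : AA A) :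
    sg m (φ s) (mA φ y) = mT φ (sg m s y) := by
  have e : sg m (φ s) (mA φ (C X)) = X ^ (2 * m) * (C (cL B (-φ s)) + X * C (wL B 1)) := by
    rw [mA_CX, sg_CX hm]
  have e' : sg m (φ s) (mA φ X) = X ^ 2 := by rw [mA_X, sg_X]
  refine RingHom.congr_fun (homExt2 (up ⊥) (g := (sg m (φ s)).comp (mA φ))
    (g' := (mT φ).comp (sg m s)) (fun r => ?_) (e.trans ?_) (e'.trans ?_)
    (e ▸ hu hm _) (e' ▸ hz)) y
  · rw [RingHom.comp_apply, RingHom.comp_apply, mA_CC, sg_CC hm, sg_CC hm, mT_c]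
  · rw [RingHom.comp_apply, sg_CX hm, map_mul, map_add, map_mul, map_pow, mT_X, mT_c, mT_w,
      map_neg φ]
  · rw [RingHom.comp_apply, sg_X, map_pow, mT_X]

theorem dL_c (c : A) : dL A (cL A c) = 0 := by rw [dL_apply, thL_cL, mul_zero]

theorem del_c (c : A) : cw (dL A) (C (cL A c)) = 0 := by rw [cw_C, dL_c, map_zero]

theorem del_w : cw (dL A) (C (wL A 1)) = 1 := by
  rw [cw_C, ← coeL_X, dL_coeL, dX_X, map_one, map_one]

theorem cw_Xm {L : A →+ B} (f : A⟦X⟧) : cw L (X * f) = X * cw L f := by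
  simpa only [pow_one] using cw_X_pow_mul L 1 f

theorem cw_Xp {L : A →+ B} (h : L 1 = 0) (n : ℕ) : cw L (X ^ n) = 0 := by
  rw [← mul_one (X ^ n), cw_X_pow_mul, ← map_one C, cw_C, h, map_zero, mul_zero]

theorem del_sg (hm : 1 ≤ m) (s : A) (y : AA A) :
    cw (dL A) (sg m s y) = X ^ (2 * m + 1) * sg m s (cw (dX A) y) := by
  rw [hom_chain2' (up ⊥) (g := sg m s) (sg_CX hm s ▸ hu hm s) (sg_X (m := m) s ▸ hz)
    isDer_dL.coefw (fun r => by rw [sg_CC hm, del_c]) y, sg_CX hm, sg_X, cw_X_pow_mul, map_add,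
    del_c, cw_Xm, del_w, cw_Xp isDer_dL.one]
  ring

theorem th_sg (hm : 1 ≤ m) {θ : A →+ A} (hθ : IsDer θ) {s : A} (hs : θ s = 0) (y : AA A) :
    cw (cwL θ) (sg m s y) = sg m s (cw (cw θ) y) := by
  rw [hom_chain2 (up ⊥) (g := sg m s) (sg_CX hm s ▸ hu hm s) (sg_X (m := m) s ▸ hz)
    hθ.coefL.coefw hθ (a := 1) (fun r => by rw [sg_CC hm, sg_CC hm, cw_C, cwL_cL, one_mul]) y,
    sg_CX hm, sg_X, cw_X_pow_mul, map_add, cw_C, cwL_cL, map_neg, hs, cw_Xm, cw_C, cwL_wL hθ.one,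
    cw_Xp hθ.coefL.one]
  simp only [neg_zero, map_zero, mul_zero, add_zero, one_mul]

theorem sg_c00 (hm : 1 ≤ m) (s : A) (y : AA A) :
    ∃ r, sg m s y = C (cL A (c00 y)) + X ^ 2 * r := by
  obtain ⟨r, r', h⟩ := ev2_sub_c00 (up ⊥) (φ := (C : A⸨X⸩ →+* TT A).comp (cL A)) (hu hm s) hz y
  obtain ⟨n, rfl⟩ : ∃ n, m = n + 1 := ⟨m - 1, by omega⟩
  refine ⟨X ^ (2 * n) * (C (cL A (-s)) + X * C (wL A 1)) * r + r', h.trans ?_⟩
  rw [RingHom.comp_apply]
  ring

theorem cw_thP (y : AA A) : cw (thP A) y = C X * cw (dX A) y := cw_mulLeft X (dX A) y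

/-- The first displacement is a constant. -/
theorem first [IsDomain A] {θ : A →+ A} {S Y μ W Z P z : AA A}
    (fP : P = C X + X ^ m * S + X ^ (m + 1) * Y) (hW : c00 W ≠ 0)
    (e : W * cw (cw θ) P + Z * cw (thP A) P = μ * (X * z) * P) : θ (c00 S) = 0 := by
  have r1 : red P = X ^ m * (red S + X * red Y) := by
    rw [fP, map_add, map_add, map_mul, map_mul, map_pow, map_pow, red_C, red_X, constantCoeff_X,
      map_zero]
    ring
  have r2 : red (cw (thP A) P) = 0 := red_eq_zero.2 ⟨_, cw_thP P⟩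
  have r3 : red (cw (cw θ) P) = cw θ (red P) := PowerSeries.ext fun n => by
    rw [coeff_red, coeff_cw, cc_cw, coeff_cw, coeff_red]
  have q := congrArg red e
  simp only [map_add, map_mul] at q
  rw [r2, r3, r1, red_X, cw_X_pow_mul] at q
  have q1 : red W * cw θ (red S + X * red Y) = X * (red μ * red z * (red S + X * red Y)) :=
    mul_left_cancel₀ (pow_ne_zero m X_ne_zero) (by linear_combination q)
  have q2 := congrArg cc q1
  rw [map_mul, map_mul, constantCoeff_X, zero_mul, cc_cw, map_add, map_mul, constantCoeff_X,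
    zero_mul, add_zero, cc_red, cc_red] at q2
  exact (mul_eq_zero.1 q2).resolve_left hW

theorem c00_mA (φ : A →+* B) (y : AA A) : c00 (mA φ y) = φ (c00 y) := by
  rw [← cc_red, red_mA, ← coeff_zero_eq_constantCoeff_apply, coeff_map,
    coeff_zero_eq_constantCoeff_apply, cc_red]

end Disc

theorem core {k R : Type} [Field k] [CharZero k] [Field R] (ι : k →+* R) {θ : R →+ R}
    (π : R →+ k) (hθ : IsDer θ) (h1 : ∀ a, θ (ι a) = 0) (h2 : ∀ a b, π (ι a * b) = a * π b)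
    (h3 : ∀ b, π (θ b) = 0) (h4 : π 1 = 1) {m N : ℕ} {s : k} {z w z' w' : AA k} {a β : TT k}
    (hm : 1 ≤ m) (Φ : AA k →+* AA R) {U S Y μ : AA R} (fC : ∀ c, Φ (CC c) = CC (ι c))
    (fX : Φ X = X) (fP : Φ (C X) = C X + X ^ m * S + X ^ (m + 1) * Y) (hS : c00 S = ι s)
    (hU : cc U = 1)
    (e1 : mA ι w' * cw (cw θ) (Φ (C X)) + mA ι z' * cw (thP R) (Φ (C X)) = μ * Φ z * Φ (C X))
    (e2 : mA ι w' * U + (mA ι w' * cw (cw θ) U + mA ι z' * cw (thP R) U) = μ * Φ w * U)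
    (ha : sg m 0 (z * C X) = X ^ N * a) (ua : IsUnit a) (hβ : a * β = sg m 0 w) :
    ∃ G : TT k, sg m s (z' * C X) * (X ^ (2 * m + 1) * β + cw (dL k) G) =
      X ^ (N + (2 * m + 1)) * sg m s w' := by
  let _ : Algebra ℚ (TT R) :=
    (((C : R⸨X⸩ →+* TT R).comp (cL R)).comp (ι.comp (algebraMap ℚ k))).toAlgebra
  have dd : IsDer (cw (dL R)) := isDer_dL.coefw
  have dt : IsDer (cw (cwL θ)) := hθ.coefL.coefw
  obtain ⟨r, hr⟩ : ∃ r, sg m (ι s) (Φ (C X)) = X ^ (2 * m + 1) * (C (wL R 1) + X * r) := by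
    obtain ⟨r, hr⟩ := sg_c00 hm (ι s) S
    refine ⟨r + sg m (ι s) Y, ?_⟩
    rw [fP, map_add, map_add, map_mul, map_mul, map_pow, map_pow, sg_CX hm, sg_X, hr, hS, map_neg,
      map_neg]
    ring
  have mr : X * r ∈ up (⊥ : Ideal R⸨X⸩) :=
    mem_up_bot.2 (by rw [map_mul, constantCoeff_X, zero_mul])
  obtain ⟨T, T0, T1, T2⟩ := shift (up ⊥) dd dt
    (fun y => cw_comm (fun c => (dL_cwL θ c).symm) y) mr
  have TX : T X = X := T0 _ (cw_X isDer_dL.one)
  have sΦ : ∀ y, sg m (ι s) (Φ y) = T (mT ι (sg m 0 y)) := fun y => by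
    have e' : sg m (ι s) (Φ X) = X ^ 2 := by rw [fX, sg_X]
    refine RingHom.congr_fun (homExt2 (up ⊥) (g := (sg m (ι s)).comp Φ)
      (g' := T.comp ((mT ι).comp (sg m 0))) (fun c => ?_) (hr.trans ?_) (e'.trans ?_)
      (hr ▸ mem_up_bot.2 (by rw [map_mul, cc_X_pow (by omega), zero_mul])) (e' ▸ hz)) y
    · simp only [RingHom.comp_apply]
      rw [fC, sg_CC hm, sg_CC hm, mT_c, T0 _ (del_c _)]
    · simp only [RingHom.comp_apply]
      rw [sg_CX hm, neg_zero, map_zero, map_zero, zero_add, ← mul_assoc, ← pow_succ, map_mul,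
        map_pow, mT_X, mT_w, map_mul, map_pow, TX, T1 _ del_w]
    · simp only [RingHom.comp_apply]
      rw [sg_X, map_pow, mT_X, map_pow, TX]
  have tm : ∀ y, cw (cwL θ) (mT ι y) = 0 := fun y => by
    ext n j
    rw [coeff_cw, coeff_cwL, coeff_mT, coeff_mapL, h1, map_zero, HahnSeries.coeff_zero]
  obtain ⟨E, E1, E2⟩ := T2 _ (tm β)
  obtain ⟨U1, hU1⟩ : X ∣ U - 1 := X_dvd_iff.2 (by rw [map_sub, hU, map_one, sub_self])
  have cU : cc (sg m (ι s) U - 1) = 0 := by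
    rw [← map_one (sg m (ι s)), ← map_sub, hU1, map_mul, sg_X, map_mul, cc_X_pow (by omega),
      zero_mul]
  obtain ⟨L, hL⟩ := logd (up (⊥ : Ideal R⸨X⸩)) (u := sg m (ι s) U) (mem_up_bot.2 cU)
  have nU : sg m (ι s) U ≠ 0 := fun g => by simp [g] at cU
  have nT : T (mT ι a) ≠ 0 := ((ua.map _).map _).ne_zero
  have p1 : sg m (ι s) (cw (cw θ) (Φ (C X))) = X ^ (2 * m + 1) * cw (cwL θ) (X * r) := by
    rw [← th_sg hm hθ (h1 s), hr, cw_X_pow_mul, map_add, cw_C, cwL_wL hθ.one, map_zero, zero_add]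
  have p2 : sg m (ι s) (cw (dX R) (Φ (C X))) = 1 + cw (dL R) (X * r) := by
    refine mul_left_cancel₀ (pow_ne_zero (2 * m + 1) X_ne_zero) ?_
    rw [← del_sg hm, hr, cw_X_pow_mul, map_add, del_w]
  have p3 := (hL _ dt).trans (th_sg hm hθ (h1 s) U)
  have p4 := (hL _ dd).trans (del_sg hm (ι s) U)
  have p5 : sg m (ι s) (Φ z) * sg m (ι s) (Φ (C X)) = X ^ N * T (mT ι a) := by
    rw [← map_mul, ← map_mul, sΦ, ha, map_mul, map_mul, map_pow, map_pow, mT_X, TX]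
  have p6 : sg m (ι s) (Φ w) = T (mT ι a) * T (mT ι β) := by
    rw [sΦ, ← hβ, map_mul, map_mul]
  have p7 : sg m (ι s) (mA ι z') * sg m (ι s) (C X) = mT ι (sg m s (z' * C X)) := by
    rw [← sg_mA hm, map_mul, mA_CX, map_mul]
  have q1 := congrArg (sg m (ι s)) e1
  have q2 := congrArg (sg m (ι s)) e2
  rw [cw_thP, ← mul_assoc] at q1 q2
  simp only [map_add, map_mul] at q1 q2
  rw [p7, sg_mA hm, p1, p2, mul_assoc (sg m (ι s) μ), p5] at q1
  rw [p7, sg_mA hm, ← p3, p6] at q2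
  have key : mT ι (X ^ (2 * m + 1)) * (mT ι (X ^ (2 * m + 1) * sg m s w') * cw (cwL θ) E +
      mT ι (sg m s (z' * C X)) * (cw (dL R) E + mT ι β * 1)) =
      mT ι (X ^ N) * (mT ι (X ^ (2 * m + 1) * sg m s w') * (1 + cw (cwL θ) L) +
        mT ι (sg m s (z' * C X)) * cw (dL R) L) := by
    refine mul_left_cancel₀ nU ?_
    rw [E1, E2, map_mul, map_pow, map_pow, mT_X]
    linear_combination X ^ (2 * m + 1) * T (mT ι β) * sg m (ι s) U * q1 -
      X ^ (2 * m + 1) * X ^ N * q2 - X ^ N * mT ι (sg m s (z' * C X)) * p4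
  have pr : ∀ y x, cw (cwL π) (mT ι y * x) = y * cw (cwL π) x := cw_proj (cwL_proj h2)
  have pt : ∀ x, cw (cwL π) (cw (cwL θ) x) = 0 := fun x => by
    ext n j
    rw [coeff_cw, coeff_cw, coeff_cwL, coeff_cwL, h3, map_zero, HahnSeries.coeff_zero]
  have pd : ∀ x, cw (cwL π) (cw (dL R) x) = cw (dL k) (cw (cwL π) x) :=
    cw_comm fun c => (dL_cwL π c).symm
  have po : cw (cwL π) (1 : TT R) = 1 := by
    rw [← map_one C, cw_C, ← map_one (cL R), cwL_cL, h4, map_one, map_one]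
  have fin := congrArg (cw (cwL π)) key
  simp only [pr, map_add, pt, pd, po] at fin
  refine ⟨X ^ (2 * m + 1) * cw (cwL π) E - X ^ N * cw (cwL π) L, ?_⟩
  rw [map_sub, cw_X_pow_mul, cw_X_pow_mul]
  linear_combination fin

end Resx

open Resx in
theorem resxS : ResxStmt := by
  intro k _ _ m N s z w z' w' a β hm z0 w0 ⟨Φ, U, S, μ, fC, fX, ⟨Y, hY⟩, hS, hU, e1, e2⟩ ha ua hβ
  have fP : Φ (C X) = C X + X ^ m * S + X ^ (m + 1) * Y := by linear_combination hY
  obtain ⟨z1, hz1⟩ := X_dvd_iff.2 z0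
  have fz : Φ z = X * Φ z1 := by rw [hz1, map_mul, fX]
  have hs : thL k (c00 S) = 0 := first (W := mA (cL k) w') (Z := mA (cL k) z') fP
    (by rw [c00_mA]; exact (map_ne_zero _).2 w0) (by rw [← fz]; exact e1)
  obtain ⟨s', hs'⟩ := const_thL hs
  rw [hs', coeff_cL, if_pos rfl] at hS
  rw [hS] at hs'
  exact core (cL k) ⟨⟨fun f => f.coeff 0, rfl⟩, fun _ _ => HahnSeries.coeff_add⟩ isDer_thL thL_cL
    (fun c f => coeff_cL_mul c 0 f) (fun f => (coeff_thL f 0).trans (by simp))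
    ((congrArg (fun f : k⸨X⸩ => f.coeff 0) (map_one (cL k)).symm).trans
      ((coeff_cL 1 0).trans (if_pos rfl))) hm Φ fC fX fP hs' hU e1 e2 ha ua hβ

end Pool.Agent.MP_05b4bd_ag.RV
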