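import Pool.Agent.MP_05b4bd_ag.rr.Bas
import Pool.Agent.MP_05b4bd_ag.pc3.Lift

/-! Row RRC: descent and invariance of the limit condition. -/

namespace Pool.Agent.MP_05b4bd_ag.RV

open MvPolynomial HC
open PC3 (Fm fm d1 DF sub2 pb mapF)
open scoped PowerSeries

namespace Rrc

variable {A : Type} [CommRing A]

theorem pb_zero (s t : R2 A) : pb s t 0 = 0 := Prod.ext (by simp [pb, fm]) (by simp [pb, fm])

theorem pb_sum (s t : R2 A) (S : Finset ℕ) (F : ℕ → Fm A) :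
    pb s t (∑ j ∈ S, F j) = ∑ j ∈ S, pb s t (F j) := by
  induction S using Finset.induction_on with
  | empty => simpa using pb_zero s t
  | insert a S ha ih => rw [Finset.sum_insert ha, Finset.sum_insert ha, PC3.pb_add, ih]

theorem pb_rrF (s t : R2 A) (d a b : ℕ) (u v l : R2 A) (p q : ℕ → R2 A) :
    pb s t (rrF d a b u v l p q) =
      rrF d a b (sub2 s t u) (sub2 s t v) (sub2 s t l) p q := by
  rw [rrF, rrF, pb_sum]
  refine Finset.sum_congr rfl fun j _ => ?_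
  simp only [PC3.pb_smul, PC3.pb_sub, PC3.pb_add, PC3.pb_fm, PC3.sub2_sub2, map_pow, map_mul,
    map_add, map_natCast]

theorem hr_pb {d a b : ℕ} {w : Fm A} {s t : R2 A} (hs : DL 2 s) (ht : DL 2 t) (h : HR d a b w) :
    HR d a b (pb s t w) := by
  obtain ⟨u, v, α, β, p, q, hu, hv, hp, rfl⟩ := h
  refine ⟨sub2 s t u, sub2 s t v, α, β, p, q, PC3.sub2_DL hs ht hu, PC3.sub2_DL hs ht hv, hp, ?_⟩
  rw [pb_rrF]
  simp only [map_add, map_mul, map_one, PC3.sub2_C]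

theorem cg_pb {n : ℕ} {w w' : Fm A⟦X⟧} (s t : R2 A⟦X⟧) (h : Cg n w w') :
    Cg n (pb s t w) (pb s t w') := by
  obtain ⟨⟨x, hx⟩, ⟨y, hy⟩⟩ := h
  have e : w - w' = (C (PowerSeries.X ^ n) : R2 A⟦X⟧) • ((x, y) : Fm A⟦X⟧) := Prod.ext hx hy
  have e2 := congrArg (pb s t) e
  rw [PC3.pb_sub, PC3.pb_smul, PC3.sub2_C] at e2
  exact ⟨⟨_, congrArg Prod.fst e2⟩, ⟨_, congrArg Prod.snd e2⟩⟩

theorem rrc_pb {d a b : ℕ} {w : Fm A} {s t : R2 A} (hs : DL 2 s) (ht : DL 2 t) (h : RRc d a b w) :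
    RRc d a b (pb s t w) := by
  obtain ⟨K, _, ι, hι, h⟩ := h
  refine ⟨K, inferInstance, ι, hι, fun n => ?_⟩
  obtain ⟨w', h1, h2⟩ := h n
  refine ⟨pb (map ι s) (map ι t) w', hr_pb (hs.map ι) (ht.map ι) h1, ?_⟩
  rw [PC3.mapF_pb]
  exact cg_pb _ _ h2

theorem sub2_tr (c : Fin 2 → A) (u : R2 A) :
    sub2 (X 0 + C (c 0)) (X 1 + C (c 1)) u = tr c u := by
  rw [sub2, tr]
  congr 2
  funext i
  fin_cases i <;> rfl

theorem trF_eq (c : Fin 2 → A) (w : Fm A) :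
    trF c w = pb (X 0 + C (c 0)) (X 1 + C (c 1)) w :=
  Prod.ext (by simp [trF, pb, fm, sub2_tr]) (by simp [trF, pb, fm, sub2_tr])

theorem trF_trF (c : Fin 2 → A) (w : Fm A) : trF (-c) (trF c w) = w :=
  Prod.ext (tr_tr c w.1) (tr_tr c w.2)

theorem DL_tr (i : Fin 2) (c : A) : DL 2 (X i + C c : R2 A) :=
  (DL_X i).add ((DL_C _).mono (by omega))

end Rrc

theorem rrcS : RrcStmt := by
  intro A _ d a b w
  refine ⟨fun s t hs ht h => Rrc.hr_pb hs ht h, fun s t hs ht h => Rrc.rrc_pb hs ht h,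
    fun c h => ?_, fun c h => ?_, fun A' _ φ hφ h => ?_⟩
  · rw [← Rrc.trF_trF c w, Rrc.trF_eq]
    exact Rrc.rrc_pb (Rrc.DL_tr _ _) (Rrc.DL_tr _ _) h
  · rw [← Rrc.trF_trF c w, Rrc.trF_eq]
    exact Rrc.hr_pb (Rrc.DL_tr _ _) (Rrc.DL_tr _ _) h
  · obtain ⟨K, _, ι, hι, h⟩ := h
    refine ⟨K, inferInstance, ι.comp φ, hι.comp hφ, fun n => ?_⟩
    obtain ⟨w', h1, h2⟩ := h n
    refine ⟨w', h1, ?_⟩
    simpa only [mapF, map_map] using h2

end Pool.Agent.MP_05b4bd_ag.RV
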