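import Pool.Agent.MP_05b4bd_ag.rr.Bas
import Pool.Agent.MP_05b4bd_ag.esc.S2b

/-! From a first integral of least order to a deck transformation and a symmetry. -/

namespace Pool.Agent.MP_05b4bd_ag.RV

open PowerSeries LaurentSeries HC
open ES hiding Gen Ob Inf
open ES.U (TM Cr hom)

namespace Run

variable {k L : Type} [Field k] [Field L]

theorem cst {κ : k →+* L} {D : L →+ L} {a b : AA L} {n α : ℕ} (h : Good κ D a b n α) :
    Cst κ D := by
  obtain ⟨U, _, D1, i, r, hD, hc, -⟩ := h.ex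
  intro c e
  obtain ⟨z, hz⟩ := hc (i c) (by rw [hD.2, e, map_zero])
  exact ⟨z, i.injective hz⟩

theorem red_const {D : L →+ L} {a b ρ B : AA L} {n : ℕ} (h : Rho D a b ρ B n) (ha : red a ≠ 0)
    (hb : red b = 0) : cw D (red ρ) = 0 := by
  have e := congrArg red h.eq
  obtain ⟨B', rfl⟩ := h.tB
  have e1 : cw D (red ρ) = red (cw (cw D) ρ) := by
    ext m
    simp only [red, coeff_cw, coeff_map, cc_cw]
  have e2 : red (sb ρ (C X * B')) = 0 := by
    rw [map_mul, sb_C h.c0, map_mul, red_C, constantCoeff_X, map_zero, zero_mul]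
  rw [map_mul red a (sb ρ _), e2, map_sub, map_mul red a, map_mul red (X * b), map_mul red X, hb,
    mul_zero, zero_mul, sub_zero, mul_zero, ← e1] at e
  exact (mul_eq_zero.1 e).resolve_left ha

end Run

open ES.Deck in
theorem runS (h1 : LowrStmt) (h2 : P0aStmt) (h3 : DeckrStmt) (h4 : InvrStmt) (h5 : ES.CmpStmt) :
    RunStmt := by
  intro k L _ _ _ _ d I n α ω hd hG hω
  have cL' : CharZero L := charZero_of_injective_ringHom I.κ.injective
  have cLL := charL (κ := L)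
  have hd1 : 1 ≤ d := by omega
  obtain ⟨l1, l2⟩ := h1 k L d I n α hd hG
  obtain ⟨hn, ρ, B, hR, hα⟩ := h2 k L I.κ I.D I.a I.b d n α I.cv.1 hd1 I.ra I.rb hG
  have ra : red I.a ≠ 0 := by rw [I.ra]; exact red_ne hd1
  have hc := Run.red_const hR ra I.rb
  obtain ⟨r0, hr0⟩ := exists_map_of_coeff (φ := I.κ) (f := red ρ) fun m => Run.cst hG _ (by
    rw [← coeff_cw, hc, map_zero])
  have hord : OrdIs n r0 := by
    have h := hR.ord
    rw [hr0] at h
    simpa only [OrdIs, coeff_map, ne_eq, _root_.map_eq_zero] using h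
  obtain ⟨σ, s1, s2, s3⟩ := exists_sig (by omega : 1 ≤ n) hord le_rfl (γ := r0)
    (by rwa [mul_one]) (ζ := ω) (by rw [hω.pow_eq_one, mul_one, mul_one])
  have s0 : cc σ = 0 := by
    rw [← coeff_zero_eq_constantCoeff_apply]; exact s1.2 0 one_pos
  have sn : σ ≠ 0 := fun e => s1.1 (by rw [e, map_zero])
  obtain ⟨Φ, φ, hK⟩ := h3 L I.D I.a I.b ρ B I.vb (map I.κ σ) n I.cv.1 ra I.hv (by omega) hR
    (Deck.cc_map I.κ s0) (map_ne I.κ sn) (by
      ext m
      rw [coeff_cw, coeff_map, I.cv.2.1, map_zero]) (by rw [hr0, ← map_sb s0, s3])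
  have v0 : cc I.vb = 0 := by
    have e := congrArg cc I.hv
    rw [map_mul, cc_iT I.b, I.rb, map_zero] at e
    exact (mul_eq_zero.1 e).resolve_left (iT_ne ra)
  obtain ⟨-, S', -, -, w⟩ := h5 L L I.D I.D (RingHom.id L) d I.n I.vb I.h I.Xi (hat φ I.h)
    (hat φ I.Xi) hd1 I.n1 ⟨I.cv.1, fun _ => rfl⟩ (fun c _ => ⟨c, rfl⟩) v0 I.rh I.hV
    (by rw [Deck.mT_id, hK.vt, I.hV, map_mul, map_pow, hat_X])
  rw [cc_hat, cc_hat, I.rh, Deck.mapL_id] at w
  obtain ⟨c0, e1, e2⟩ := h4 k L d I σ (cc.comp φ) (cc S') hd l1 s0 s1.1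
    (by rw [s2]; exact hω.ne_one (by omega)) hK.red w
  rw [s2] at e1 e2
  exact ⟨hn, l2, ρ, B, σ, Φ, φ, c0, hR, hα, s0, s2, hK, e1, e2⟩

end Pool.Agent.MP_05b4bd_ag.RV
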