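import Pool.Agent.MP_05b4bd_ag.rr.Spec4

/-! The reversible families are not contained in the closures of the integrable families. -/

namespace Pool.Agent.MP_05b4bd_ag.RV

open MvPolynomial HC

namespace Sep1

theorem down {p : ℕ → Prop} (N : ℕ) (h0 : ∀ j, N < j → p j) (h : ∀ j, (∀ i, j < i → p i) → p j)
    (j : ℕ) : p j := by
  induction hm : N + 1 - j using Nat.strong_induction_on generalizing j with
  | _ m ih =>
    by_cases k : N < j
    · exact h0 j k
    · exact h j fun i hi => ih _ (by omega) i rfl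

theorem core {g N δ : ℕ} {c : ℕ → ℕ → ℂ} {l : ℕ → ℂ} (hg : 1 ≤ g)
    (hN : ∀ i j, N < i + j → c i j = 0)
    (A : ∀ i j : ℕ, ((g : ℂ) + 1 - j) * c i j = l i * c (i + δ) (j + g) +
      if g + 1 ≤ i then c (i - (g + 1)) (j + g + 1) * (j + g + 1) else 0)
    (B : ∀ i, 0 = l i * c (i + δ) 0 + if g + 1 ≤ i then c (i - (g + 1)) 1 else 0)
    (h1 : ∀ D, g * l (D + (g + 1)) + l D ≠ 0) (h2 : δ = 0 ∨ δ = 1 ∧ l g ≠ 0) (i j : ℕ) :
    c i j = 0 := by
  have g0 : (g : ℂ) ≠ 0 := Nat.cast_ne_zero.2 (by omega)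
  have g1 : (g : ℂ) + 1 ≠ 0 := Nat.cast_add_one_ne_zero g
  have r2 : ∀ j, 2 ≤ j → j ≠ g + 1 → ∀ i, c i j = 0 :=
    down N (fun j h _ _ i => hN i j (by omega)) fun j ih a b i => by
      have e := A i j
      rw [ih (j + g) (by omega) (by omega) (by omega),
        ih (j + g + 1) (by omega) (by omega) (by omega), mul_zero, zero_mul, ite_self, add_zero] at e
      exact (mul_eq_zero.1 e).resolve_left (sub_ne_zero.2 (by exact_mod_cast b.symm))
  have r1 : ∀ i, g * c i 1 = l i * c (i + δ) (g + 1) := fun i => by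
    simpa [r2 (g + 1 + 1) (by omega) (by omega), add_comm 1 g] using A i 1
  have rg : ∀ i, c (i + δ) (g + 1) = 0 → c i g = 0 := fun i h => by
    rcases hg.eq_or_lt with rfl | k
    · simpa [h] using r1 i
    · exact r2 g k (by omega) i
  have re : ∀ i, c i (g + 1) = 0 := down N (fun i h => hN i _ (by omega)) fun D ih => by
    have e : c (D + (g + 1)) 0 = c D (g + 1) := mul_left_cancel₀ g1 (by
      simpa [rg (D + (g + 1) + δ) (ih _ (by omega)), mul_comm] using A (D + (g + 1)) 0)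
    by_cases k : δ ≤ D
    · obtain ⟨D, rfl⟩ := Nat.exists_eq_add_of_le' k
      have b := B (D + (g + 1))
      rw [if_pos (by omega), Nat.add_sub_cancel, add_right_comm, e] at b
      exact (mul_eq_zero.1 (by linear_combination -g * b - r1 D)).resolve_left (h1 D)
    · obtain ⟨rfl, l0⟩ := h2.resolve_left (by omega)
      obtain rfl : D = 0 := by omega
      have b := B g
      rw [if_neg (by omega), add_zero, ← zero_add (g + 1), e] at b
      exact (mul_eq_zero.1 b.symm).resolve_left l0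
  rcases j with _ | _ | j
  · simpa [rg _ (re _), re, g1] using A i 0
  · simpa [re, g0] using r1 i
  · by_cases k : j + 2 = g + 1
    exacts [k ▸ re i, r2 _ (by omega) k i]

theorem inj {k : ℂ} {n : ℕ} {ω : Form} (h : ∀ r : Poly, r.totalDegree ≤ n →
    r * (pderiv 0 ω.1 + pderiv 1 ω.2) = C k * (pderiv 0 r * ω.1 + pderiv 1 r * ω.2) →
      ∀ i j, cf r i j = 0) : Function.Injective (lamI k n ω) := by
  rw [injective_iff_map_eq_zero]
  rintro ⟨r, hr⟩ e
  exact Subtype.ext (cf_ext (h r ((mem_restrictTotalDegree _ _ _).1 hr) (sub_eq_zero.1 e)))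

theorem inj1 {g N δ : ℕ} {l : ℕ → ℂ} {P : Poly} (hg : 1 ≤ g)
    (hP : ∀ r i j, cf (pderiv 0 r * P - r * pderiv 0 P) i j = l i * cf r (i + δ) j)
    (h1 : ∀ D, g * l (D + (g + 1)) + l D ≠ 0) (h2 : δ = 0 ∨ δ = 1 ∧ l g ≠ 0) :
    Function.Injective (lamI 1 N (P, X 0 ^ (g + 1) + X 1 ^ (g + 1))) := inj fun r hr e => by
  have E : X 1 ^ g * (C ((g : ℂ) + 1) * r - X 1 * pderiv 1 r) =
      pderiv 0 r * P - r * pderiv 0 P + X 0 ^ (g + 1) * pderiv 1 r := by
    simp at e ⊢
    linear_combination e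
  refine core (l := l) hg (fun i j => cf_deg hr) (fun i j => ?_) (fun i => ?_) h1 h2
  · have := congrArg (cf · i (j + g)) E
    simp only [cf_X1, cf_X0, cf_add, hP, cf_p1, if_pos (Nat.le_add_left g j), Nat.add_sub_cancel,
      cf_sub _ (X 1 * _), cf_C_mul, cf_e1] at this
    rw [sub_mul, this]
    push_cast
    rfl
  · have := congrArg (cf · i 0) E
    simpa only [cf_X1, cf_X0, cf_add, hP, cf_p1, if_neg (Nat.not_le.2 hg), zero_add, Nat.cast_zero,
      mul_one] using this

theorem inj2 {g m : ℕ} (h : g + 1 ≤ 2 * m) :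
    Function.Injective (lamI ((2 * m + 3) / 2) 2 (0, X 1 ^ (g + 1))) := inj fun r hr e i j => by
  have E : C ((g : ℂ) + 1) * r = C ((2 * m + 3) / 2 : ℂ) * (X 1 * pderiv 1 r) :=
    mul_left_cancel₀ (pow_ne_zero g (X_ne_zero 1)) (by
      generalize ((2 * m + 3) / 2 : ℂ) = k at e
      simp at e
      simp only [map_add, map_natCast, map_one]
      linear_combination e)
  have := congrArg (cf · i j) E
  simp only [cf_C_mul, cf_e1] at this
  by_contra z
  have k : ((2 * (g + 1) : ℕ) : ℂ) = ((2 * m + 3) * j : ℕ) := mul_right_cancel₀ z (by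
    push_cast
    linear_combination 2 * this)
  have k := Nat.cast_injective k
  have : j ≤ 2 := by_contra fun a => z (cf_deg hr (by omega))
  interval_cases j <;> omega

theorem mem {d a b j : ℕ} {P Q : Poly} (hn : a + b ≠ 0) (hj : j ≤ (d - 1) / (a + b))
    (hP : P.IsHomogeneous (d - 1 - j * (a + b))) (hQ : Q.IsHomogeneous (d - 1)) :
    (P, Q) ∈ RR d a b ∧ (P, Q) ∈ V d := by
  have e : ((a + b : ℕ) : Poly) * C ((a + b : ℕ) : ℂ)⁻¹ = 1 := by
    rw [← map_natCast C, ← map_mul, mul_inv_cancel₀ (Nat.cast_ne_zero.2 hn), map_one]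
  have ex : (![X 0, X 1] : Fin 2 → Poly) = X := funext fun i => by fin_cases i <;> rfl
  refine ⟨⟨0, 0, X 0, X 1, 1, fun i => if i = 0 then C (-((a + b : ℕ) : ℂ)⁻¹) * Q else 0,
    fun i => if i = j then C ((a + b : ℕ) : ℂ)⁻¹ * P else 0, by simp, by simp, by simp,
    fun i => ⟨?_, ?_⟩, ?_⟩, hP.totalDegree_le.trans (by omega), hQ.totalDegree_le.trans (by omega)⟩
  · dsimp only
    split_ifs with h
    exacts [by rw [h, zero_mul, Nat.sub_zero]; exact hQ.C_mul _, isHomogeneous_zero _ _ _]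
  · dsimp only
    split_ifs with h
    exacts [h ▸ hP.C_mul _, isHomogeneous_zero _ _ _]
  · generalize ((a + b : ℕ) : Poly) = s at *
    generalize ((a + b : ℕ) : ℂ)⁻¹ = t at *
    rw [ex]
    refine Prod.ext ?_ ?_ <;> simp [Prod.fst_sum, Prod.snd_sum, dform, apply_ite Prod.fst,
      apply_ite Prod.snd, Finset.sum_add_distrib, Nat.lt_succ_of_le hj, ← mul_assoc, e]

end Sep1

open Sep1 in
theorem sep1S (_h : UnivStmt) (h2 : UM.IrpStmt) : Sep1Stmt := by
  intro d a b hd ⟨n2, hA⟩ W hW h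
  obtain ⟨g, rfl⟩ : ∃ g, d = g + 2 := ⟨d - 2, by omega⟩
  have hy : (X 1 ^ (g + 1) : Poly).IsHomogeneous (g + 1) := isHomogeneous_X_pow 1 _
  have hQ := (isHomogeneous_X_pow (R := ℂ) 0 (g + 1)).add hy
  have k : ∀ {s} (δ : Fin s → ℕ), ∑ i, δ i = g + 2 + 1 → ¬ RR (g + 2) a b ⊆ zcl (L δ) := by
    intro s δ hδ h
    rcases hA with ⟨j, e⟩ | ⟨⟨j, e⟩, o⟩
    · have m := mem (d := g + 2) (a := a) (b := b) (P := 1) (j := j) (by omega)
        (by rw [e, Nat.mul_div_cancel_left _ (by omega)])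
        (by rw [e, mul_comm, Nat.sub_self]; exact isHomogeneous_one _ _) hQ
      exact not_mem_zcl _ m.2 (inj1 (δ := 1) (l := fun i => i + 1) (by omega)
        (fun r i j => by simp [cf_p0, mul_comm]) (fun D => by norm_cast)
        (.inr ⟨rfl, Nat.cast_add_one_ne_zero g⟩)) (L_V hδ) (fun _ => L_not_inj hδ) (h m.1)
    · have e : g = (a + b) * j := e
      have g2 : 2 ≤ g := n2.trans (Nat.le_of_dvd (by omega) ⟨j, e⟩)
      have m := mem (d := g + 2) (a := a) (b := b) (P := X 0) (j := j) (by omega)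
        ((Nat.le_div_iff_mul_le (by omega)).2 (by rw [mul_comm]; omega))
        (by rw [mul_comm, ← e, show g + 2 - 1 - g = 1 by omega]; exact isHomogeneous_X _ _) hQ
      refine not_mem_zcl _ m.2 (inj1 (δ := 0) (l := fun i => i - 1) (by omega)
        (fun r i j => by simp [cf_sub, mul_comm (pderiv 0 r) (X 0), cf_e0, sub_mul]) (fun D z => ?_)
        (.inl rfl)) (L_V hδ) (fun _ => L_not_inj hδ) (h m.1)
      have : ((g * (D + g) + D : ℕ) : ℂ) = (1 : ℕ) := by
        push_cast at z ⊢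
        linear_combination z
      have := Nat.cast_injective this
      nlinarith
  rcases hW with rfl | rfl | rfl | rfl | ⟨m, m1, m2, rfl⟩
  · exact k _ (by simp) h
  · exact k _ (by simp; omega) h
  · exact k _ (by simp [Fin.sum_univ_three]; omega) h
  · exact k _ (by simp; omega) h
  · have w := mem (d := g + 2) (a := a) (b := b) (P := 0) (j := 0) (by omega) (Nat.zero_le _)
      (isHomogeneous_zero _ _ _) hy
    have := h2 _ m (by omega) m2
    exact not_mem_zcl _ w.2 (inj2 (by omega)) this.2.1 this.2.2 (h w.1)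

end Pool.Agent.MP_05b4bd_ag.RV
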