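import Pool.Agent.MP_05b4bd_ag.rr.Spec4

/-! Separation of the reversible families by their top parts. -/

namespace Pool.Agent.MP_05b4bd_ag.RV

open MvPolynomial HC
open PC3 (Fm fm d1 DF sub2)

namespace Sep2

/-- A linear function of the top part of a form. -/
noncomputable def T (d a b : ℕ) : Form →ₗ[ℂ] Form where
  toFun w := (C (a : ℂ) * hc d w.1 + C (b : ℂ) * pderiv 1 (X 1 * hc d w.1 - X 0 * hc d w.2),
    C (a : ℂ) * hc d w.2 - C (b : ℂ) * pderiv 0 (X 1 * hc d w.1 - X 0 * hc d w.2))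
  map_add' w w' := Prod.ext (by simp; ring) (by simp; ring)
  map_smul' c w := Prod.ext (by simp [smul_eq_C_mul]; ring) (by simp [smul_eq_C_mul]; ring)

theorem T_apply (d a b : ℕ) (w : Form) : T d a b w =
    (C (a : ℂ) * hc d w.1 + C (b : ℂ) * pderiv 1 (X 1 * hc d w.1 - X 0 * hc d w.2),
    C (a : ℂ) * hc d w.2 - C (b : ℂ) * pderiv 0 (X 1 * hc d w.1 - X 0 * hc d w.2)) := rfl

theorem DL_nat (k : ℕ) : DL 1 (k : Poly) := by
  rw [← map_natCast (C : ℂ →+* Poly)]; exact DL_C _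

theorem aff {u : Poly} (hu : DL 2 u) : ∃ c r s : ℂ, u = C c + C r * X 0 + C s * X 1 :=
  eq_affine (DL_iff.1 hu)

/-- The terms with positive index have degree less than `d`. -/
theorem low {e a b j : ℕ} (ha : 1 ≤ a) (hj : 1 ≤ j) (hje : j * (a + b) ≤ e) {u v l P Q : Poly}
    (hu : DL 2 u) (hv : DL 2 v) (hl : DL 2 l) (hP : DL (e - j * (a + b) + 1) P)
    (hQ : DL (e - j * (a + b) + 1) Q) (i : Fin 2) :
    DL (e + 1) (l ^ (b * j) * ((((a + b : ℕ) : Poly) * l) * (P * pderiv i u + Q * pderiv i v) -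
      ((b : Poly) * (u * P + v * Q)) * pderiv i l)) := by
  set m := e - j * (a + b)
  have h1 : DL (m + 1) (P * pderiv i u + Q * pderiv i v) :=
    (DL.mul' hP (hu.pderiv i)).add (DL.mul' hQ (hv.pderiv i))
  have h2 : DL 2 (((a + b : ℕ) : Poly) * l) := (DL.mul (DL_nat _) hl).mono (by omega)
  have h3 : DL (1 + (m + 1)) (u * P + v * Q) := (DL.mul hu hP).add (DL.mul hv hQ)
  have h4 : DL (1 + (m + 1)) ((b : Poly) * (u * P + v * Q)) :=
    (DL.mul (DL_nat _) h3).mono (by omega)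
  have h5 := (DL.mul h2 h1).sub (DL.mul' (b := 0) h4 (hl.pderiv i))
  refine (DL.mul (hl.pow (b * j)) h5).mono ?_
  have : j * (a + b) = j * a + b * j := by ring
  have : j ≤ j * a := Nat.le_mul_of_pos_right j ha
  omega

theorem top1 {e : ℕ} (c r s : ℂ) {P : Poly} (hP : DL (e + 1) P) :
    hc (e + 1) ((C c + C r * X 0 + C s * X 1) * P) = (C r * X 0 + C s * X 1) * hc e P := by
  have h : (C r * X 0 + C s * X 1 : Poly).IsHomogeneous 1 := lf_hom r s
  have : (C c + C r * X 0 + C s * X 1) * P = C c * P + P * (C r * X 0 + C s * X 1) := by ring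
  rw [this, hc_add, (hP.C_mul c).hc_eq le_rfl, hc_mul_hom e P h]
  ring

/-- The top part of a member of the family. -/
theorem top {e a b : ℕ} (ha : 1 ≤ a) (u0 u1 u2 v0 v1 v2 l0 l1 l2 : ℂ) (p q : ℕ → Poly)
    (h : ∀ j, (p j).IsHomogeneous (e + 1 - 1 - j * (a + b)) ∧
      (q j).IsHomogeneous (e + 1 - 1 - j * (a + b))) {u v l : Poly}
    (hu : u = C u0 + C u1 * X 0 + C u2 * X 1) (hv : v = C v0 + C v1 * X 0 + C v2 * X 1)
    (hl : l = C l0 + C l1 * X 0 + C l2 * X 1) {P Q : Poly} (hP : P = hc e (sub2 u v (p 0)))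
    (hQ : Q = hc e (sub2 u v (q 0))) :
    hc (e + 1) (rrF (e + 1) a b u v l p q).1 =
      C ((a : ℂ) + b) * (C l1 * X 0 + C l2 * X 1) * (C u2 * P + C v2 * Q) -
        C (b : ℂ) * C l2 * ((C u1 * X 0 + C u2 * X 1) * P + (C v1 * X 0 + C v2 * X 1) * Q) ∧
    hc (e + 1) (rrF (e + 1) a b u v l p q).2 =
      -(C ((a : ℂ) + b) * (C l1 * X 0 + C l2 * X 1) * (C u1 * P + C v1 * Q) -
        C (b : ℂ) * C l1 * ((C u1 * X 0 + C u2 * X 1) * P + (C v1 * X 0 + C v2 * X 1) * Q)) := by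
  have dl : ∀ c r s : ℂ, DL 2 (C c + C r * X 0 + C s * X 1 : Poly) := fun c r s =>
    (((DL_C c).mono (by omega)).add ((DL_X 0).C_mul r)).add ((DL_X 1).C_mul s)
  have du : DL 2 u := hu ▸ dl _ _ _
  have dv : DL 2 v := hv ▸ dl _ _ _
  have dl' : DL 2 l := hl ▸ dl _ _ _
  have dp : ∀ j, DL (e - j * (a + b) + 1) (sub2 u v (p j)) := fun j =>
    PC3.sub2_DL du dv (DL.of_hom (h j).1)
  have dq : ∀ j, DL (e - j * (a + b) + 1) (sub2 u v (q j)) := fun j =>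
    PC3.sub2_DL du dv (DL.of_hom (h j).2)
  have key : ∀ (i : Fin 2) (ui vi li : ℂ), pderiv i u = C ui → pderiv i v = C vi →
      pderiv i l = C li → hc (e + 1) (∑ j ∈ Finset.range (e / (a + b) + 1), l ^ (b * j) *
        ((((a + b : ℕ) : Poly) * l) * (sub2 u v (p j) * pderiv i u + sub2 u v (q j) * pderiv i v) -
          ((b : Poly) * (u * sub2 u v (p j) + v * sub2 u v (q j))) * pderiv i l)) =
      C ((a : ℂ) + b) * (C l1 * X 0 + C l2 * X 1) * (C ui * P + C vi * Q) -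
        C (b : ℂ) * C li * ((C u1 * X 0 + C u2 * X 1) * P + (C v1 * X 0 + C v2 * X 1) * Q) := by
    intro i ui vi li e1 e2 e3
    rw [Finset.sum_range_succ', hc_add, (DL.sum _ fun j hj => low ha (Nat.succ_pos j)
      ((Nat.le_div_iff_mul_le (by omega)).1 (Finset.mem_range.1 hj)) du dv dl' (dp _) (dq _)
      i).hc_eq le_rfl, zero_add, e1, e2, e3]
    have p0 : DL (e + 1) (sub2 u v (p 0)) := by simpa using dp 0
    have q0 : DL (e + 1) (sub2 u v (q 0)) := by simpa using dq 0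
    generalize sub2 u v (p 0) = P0 at *
    generalize sub2 u v (q 0) = Q0 at *
    have : l ^ (b * 0) * ((((a + b : ℕ) : Poly) * l) * (P0 * C ui + Q0 * C vi) -
        ((b : Poly) * (u * P0 + v * Q0)) * C li) =
        C (((a : ℂ) + b) * ui) * (l * P0) + C (((a : ℂ) + b) * vi) * (l * Q0) -
          C ((b : ℂ) * li) * (u * P0) - C ((b : ℂ) * li) * (v * Q0) := by
      simp; ring
    rw [this, hc_sub, hc_sub, hc_add, hc_C_mul, hc_C_mul, hc_C_mul, hc_C_mul, hl, hu, hv,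
      top1 _ _ _ p0, top1 _ _ _ q0, top1 _ _ _ p0, top1 _ _ _ q0, ← hP, ← hQ]
    simp only [map_mul]
    ring
  constructor
  · rw [← key 1 u2 v2 l2 (by simp [hu]) (by simp [hv]) (by simp [hl])]
    simp only [rrF, Prod.fst_sum, fm, Prod.smul_fst, Prod.fst_sub, Prod.fst_add, smul_eq_mul,
      Nat.add_sub_cancel]
  · rw [← key 0 u1 v1 l1 (by simp [hu]) (by simp [hv]) (by simp [hl]), ← hc_neg,
      ← Finset.sum_neg_distrib]
    simp only [rrF, Prod.snd_sum, fm, Prod.smul_snd, Prod.snd_sub, Prod.snd_add, smul_eq_mul,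
      Nat.add_sub_cancel]
    refine congrArg _ (Finset.sum_congr rfl fun j _ => ?_)
    ring

theorem not_inj {e : ℕ} {w : Form} (g s t : Poly) (hs : DL (e + 1) s) (ht : DL (e + 1) t)
    (h1 : w.1 = g * s) (h2 : w.2 = g * t) : ¬ Function.Injective (lamFol e w) := fun hi => by
  rw [injective_iff_map_eq_zero] at hi
  have key : ∀ r r' : Poly, DL (e + 1) r → DL (e + 1) r' → r * w.1 = r' * w.2 →
      r = 0 ∧ r' = 0 := fun r r' hr hr' hab => by
    have := hi (⟨r, (mem_restrictTotalDegree _ _ _).2 (DL_iff.1 hr)⟩,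
      ⟨r', (mem_restrictTotalDegree _ _ _).2 (DL_iff.1 hr')⟩) (by simp [lamFol, hab])
    simpa using this
  obtain ⟨t0, s0⟩ := key t s ht hs (by rw [h1, h2]; ring)
  exact one_ne_zero (key 1 0 ((DL_C 1).mono (by omega)) (DL.zero _) (by simp [h1, s0])).1

theorem fam_not_inj {e a b : ℕ} (ha : 1 ≤ a) {w : Form} (hw : HR (e + 1) a b w) :
    ¬ Function.Injective (lamFol e (T (e + 1) a b w)) := by
  obtain ⟨u, v, α, β, p, q, hu, hv, h, rfl⟩ := hw
  obtain ⟨u0, u1, u2, eu⟩ := aff hu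
  obtain ⟨v0, v1, v2, ev⟩ := aff hv
  obtain ⟨h1, h2⟩ := top ha u0 u1 u2 v0 v1 v2 (1 + α * u0 + β * v0) (α * u1 + β * v1)
    (α * u2 + β * v2) p q h eu ev (l := 1 + C α * u + C β * v) (by rw [eu, ev]; simp; ring) rfl rfl
  have dP : DL (e + 1) (hc e (sub2 u v (p 0))) := DL.of_hom (hc_hom _ _)
  have dQ : DL (e + 1) (hc e (sub2 u v (q 0))) := DL.of_hom (hc_hom _ _)
  generalize hc e (sub2 u v (p 0)) = P at *
  generalize hc e (sub2 u v (q 0)) = Q at *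
  generalize α * u1 + β * v1 = l1 at *
  generalize α * u2 + β * v2 = l2 at *
  have dl : ∀ r s : ℂ, DL 2 (C r * X 0 + C s * X 1 : Poly) := fun r s => DL.of_hom (lf_hom r s)
  have ds : DL (e + 1 + 1) ((C u1 * X 0 + C u2 * X 1) * P + (C v1 * X 0 + C v2 * X 1) * Q) :=
    ((DL.mul (dl _ _) dP).add (DL.mul (dl _ _) dQ)).mono (by omega)
  have ec : X 1 * hc (e + 1) (rrF (e + 1) a b u v (1 + C α * u + C β * v) p q).1 -
      X 0 * hc (e + 1) (rrF (e + 1) a b u v (1 + C α * u + C β * v) p q).2 =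
      C (a : ℂ) * ((C l1 * X 0 + C l2 * X 1) *
        ((C u1 * X 0 + C u2 * X 1) * P + (C v1 * X 0 + C v2 * X 1) * Q)) := by
    rw [h1, h2, map_add]; ring
  generalize (C u1 * X 0 + C u2 * X 1) * P + (C v1 * X 0 + C v2 * X 1) * Q = σ at *
  refine not_inj (C (a : ℂ) * (C l1 * X 0 + C l2 * X 1))
    (C ((a : ℂ) + b) * (C u2 * P + C v2 * Q) + C (b : ℂ) * pderiv 1 σ)
    (-(C ((a : ℂ) + b) * (C u1 * P + C v1 * Q) + C (b : ℂ) * pderiv 0 σ))
    ((((dP.C_mul _).add (dQ.C_mul _)).C_mul _).add ((ds.pderiv 1).C_mul _))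
    ((((dP.C_mul _).add (dQ.C_mul _)).C_mul _).add ((ds.pderiv 0).C_mul _)).neg ?_ ?_
  · rw [T_apply, ec, h1]; simp; ring
  · rw [T_apply, ec, h2]; simp; ring

theorem fol {d : ℕ} {P Q : Poly} (hP : P.IsHomogeneous d) (hQ : Q.IsHomogeneous d) (h0 : P ≠ 0)
    (h : ∀ π : Poly, Prime π → π ∣ P → π ∣ Q → π ∣ X 0 ∧ π ∣ X 1) : (P, Q) ∈ Fol d := by
  refine ⟨(UniqueFactorizationMonoid.isRelPrime_iff_no_prime_factors h0).2 fun π h1 h2 hp => ?_, ?_⟩
  · obtain ⟨h3, h4⟩ := h π hp h1 h2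
    exact hp.not_isUnit (relPrime_X01 h3 h4)
  · exact le_antisymm (max_le hP.totalDegree_le hQ.totalDegree_le)
      (le_max_of_le_left (hP.totalDegree h0).ge)

theorem dvd_of {π : Poly} (hp : Prime π) {c : ℂ} (hc : c ≠ 0) {g : Poly} (h : π ∣ C c * g) :
    π ∣ g :=
  (hp.dvd_or_dvd h).resolve_left fun h' => hp.not_isUnit (isUnit_of_dvd_unit h' ((Ne.isUnit hc).map C))

theorem dvd_X {π : Poly} (hp : Prime π) {c : ℂ} (hc : c ≠ 0) {i : Fin 2} {k : ℕ}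
    (h : π ∣ C c * X i ^ k) : π ∣ X i := hp.dvd_of_dvd_pow (dvd_of hp hc h)

theorem hom2 (k : ℕ) (r s : ℂ) : (C r * X 0 ^ k + C s * X 1 ^ k : Poly).IsHomogeneous k :=
  ((isHomogeneous_X_pow 0 k).C_mul r).add ((isHomogeneous_X_pow 1 k).C_mul s)

theorem prod_mem {s : ℕ} {δ : Fin s → ℕ} (f : Fin s → Poly) (hf : ∀ i, (f i).totalDegree ≤ δ i) :
    dform (∏ i, f i) ∈ L δ := by
  have key : ∀ (k : Fin 2) (t : Finset (Fin s)), pderiv k (∏ i ∈ t, f i) =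
      ∑ i ∈ t, (∏ j ∈ t.erase i, f j) * pderiv k (f i) := fun k t => by
    induction t using Finset.induction_on with
    | empty => simp
    | insert i t hi ih =>
      rw [Finset.prod_insert hi, Finset.sum_insert hi, Finset.erase_insert hi, pderiv_mul, ih,
        Finset.mul_sum, mul_comm]
      refine congrArg _ (Finset.sum_congr rfl fun j hj => ?_)
      rw [Finset.erase_insert_of_ne (by rintro rfl; exact hi hj),
        Finset.prod_insert (fun h => hi (Finset.mem_of_mem_erase h)), mul_assoc]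
  refine ⟨f, fun _ => 1, hf, Prod.ext ?_ ?_⟩
  · simp [dform, Prod.fst_sum, key]
  · simp [dform, Prod.snd_sum, key]

/-- The Hamiltonian witness. -/
theorem wit1 {e a b : ℕ} (he : 1 ≤ e) (ha : 1 ≤ a) :
    dform (X 0 * X 1 * (X 0 ^ e + X 1 ^ e)) ∈ V (e + 1) ∧
    T (e + 1) a b (dform (X 0 * X 1 * (X 0 ^ e + X 1 ^ e))) ∈ Fol (e + 1) := by
  have hG : (X 0 * X 1 * (X 0 ^ e + X 1 ^ e) : Poly).IsHomogeneous (e + 1 + 1) := by
    have := ((isHomogeneous_X ℂ (0 : Fin 2)).mul (isHomogeneous_X ℂ 1)).mul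
      ((isHomogeneous_X_pow (R := ℂ) (0 : Fin 2) e).add (isHomogeneous_X_pow 1 e))
    rwa [show 1 + 1 + e = e + 1 + 1 by omega] at this
  have e1 : pderiv 1 (X 0 * X 1 * (X 0 ^ e + X 1 ^ e) : Poly) =
      X 0 * (C 1 * X 0 ^ e + C ((e : ℂ) + 1) * X 1 ^ e) := by
    obtain ⟨e, rfl⟩ := Nat.exists_eq_add_of_le' he
    simp; ring
  have e0 : pderiv 0 (X 0 * X 1 * (X 0 ^ e + X 1 ^ e) : Poly) =
      X 1 * (C ((e : ℂ) + 1) * X 0 ^ e + C 1 * X 1 ^ e) := by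
    obtain ⟨e, rfl⟩ := Nat.exists_eq_add_of_le' he
    simp; ring
  have g1 := hom_pderiv 1 hG
  have g0 := hom_pderiv 0 hG
  have eu := euler hG
  generalize (X 0 * X 1 * (X 0 ^ e + X 1 ^ e) : Poly) = G at *
  refine ⟨⟨g1.totalDegree_le, g0.neg.totalDegree_le⟩, ?_⟩
  have hc0 : ((a : ℂ) + b * (e + 2)) ≠ 0 := by
    have : a + b * (e + 2) ≠ 0 := by omega
    exact_mod_cast this
  have eT : T (e + 1) a b (dform G) = (C ((a : ℂ) + b * (e + 2)) * pderiv 1 G,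
      C (-((a : ℂ) + b * (e + 2))) * pderiv 0 G) := by
    have : X 1 * pderiv 1 G - X 0 * -pderiv 0 G = C ((e : ℂ) + 2) * G := by
      simp only [map_add, map_natCast, map_ofNat]
      push_cast at eu
      linear_combination eu
    rw [T_apply]
    simp only [dform, hc_self g1, hc_self g0.neg, this, pderiv_C_mul]
    exact Prod.ext (by simp; ring) (by simp; ring)
  have hk : ((e : ℂ) + 1) ^ 2 - 1 ≠ 0 := by
    have : ((e : ℂ) + 1) ^ 2 - 1 = ((e * (e + 2) : ℕ) : ℂ) := by push_cast; ring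
    rw [this]
    exact Nat.cast_ne_zero.2 (by positivity)
  rw [eT]
  refine fol (g1.C_mul _) (g0.C_mul _) (mul_ne_zero (C_ne_zero.2 hc0) fun h => ?_)
    fun π hp h1 h2 => ?_
  · have := congrArg (eval ![1, 0]) (e1.symm.trans h)
    simp [show e ≠ 0 by omega] at this
  have h1 := dvd_of hp hc0 h1
  have h2 := dvd_of hp (neg_ne_zero.2 hc0) h2
  rw [e1] at h1
  rw [e0] at h2
  rcases hp.dvd_or_dvd h1 with h1 | h1 <;> rcases hp.dvd_or_dvd h2 with h2 | h2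
  · exact ⟨h1, h2⟩
  · exact ⟨h1, dvd_X hp one_ne_zero ((dvd_add_right
      ((dvd_pow h1 (by omega)).mul_left _)).1 h2)⟩
  · exact ⟨dvd_X hp one_ne_zero ((dvd_add_left ((dvd_pow h2 (by omega)).mul_left _)).1 h1), h2⟩
  · constructor
    · refine dvd_X (k := e) hp hk ?_
      have := dvd_sub (h2.mul_left (C ((e : ℂ) + 1))) h1
      rwa [show C ((e : ℂ) + 1) * (C ((e : ℂ) + 1) * X 0 ^ e + C 1 * X 1 ^ e) -
        (C 1 * X 0 ^ e + C ((e : ℂ) + 1) * X 1 ^ e) =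
        (C (((e : ℂ) + 1) ^ 2 - 1) * X 0 ^ e : Poly) by simp; ring] at this
    · refine dvd_X (k := e) hp hk ?_
      have := dvd_sub (h1.mul_left (C ((e : ℂ) + 1))) h2
      rwa [show C ((e : ℂ) + 1) * (C 1 * X 0 ^ e + C ((e : ℂ) + 1) * X 1 ^ e) -
        (C ((e : ℂ) + 1) * X 0 ^ e + C 1 * X 1 ^ e) =
        (C (((e : ℂ) + 1) ^ 2 - 1) * X 1 ^ e : Poly) by simp; ring] at this

/-- The witness in another family. -/
theorem wit2 {e a b a' b' : ℕ} (ha : 1 ≤ a) (ha' : 1 ≤ a') (hne : a * b' ≠ a' * b) :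
    ∃ w : Form, HR (e + 1) a' b' w ∧ T (e + 1) a b w ∈ Fol (e + 1) := by
  set p : ℕ → Poly := fun j => if j = 0 then X 0 ^ e else 0 with hp
  set q : ℕ → Poly := fun j => if j = 0 then X 1 ^ e else 0 with hq
  have h : ∀ j, (p j).IsHomogeneous (e + 1 - 1 - j * (a' + b')) ∧
      (q j).IsHomogeneous (e + 1 - 1 - j * (a' + b')) := fun j => by
    by_cases hj : j = 0
    · simp [hp, hq, hj, isHomogeneous_X_pow]
    · simp [hp, hq, hj, isHomogeneous_zero]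
  refine ⟨_, ⟨X 0, X 1, 1, 0, p, q, DL_X 0, DL_X 1, h, rfl⟩, ?_⟩
  obtain ⟨h1, h2⟩ := top ha' 0 1 0 0 0 1 1 1 0 p q h (u := X 0) (v := X 1)
    (l := 1 + C 1 * X 0 + C 0 * X 1) (by simp) (by simp) (by simp) (P := X 0 ^ e) (Q := X 1 ^ e)
    (by simp [hp, PC3.sub2_X0, hc_self (isHomogeneous_X_pow _ _)])
    (by simp [hq, PC3.sub2_X1, hc_self (isHomogeneous_X_pow _ _)])
  have c1 : ((a : ℂ) * (a' + b') + a' * b * (e + 1)) ≠ 0 := by
    have : a * (a' + b') + a' * b * (e + 1) ≠ 0 := by positivity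
    exact_mod_cast this
  have c2 : ((a : ℂ) * b' - a' * b) ≠ 0 := sub_ne_zero.2 (by exact_mod_cast hne)
  have c3 : -((a : ℂ) * a' + a' * b * (e + 2)) ≠ 0 := by
    have : a * a' + a' * b * (e + 2) ≠ 0 := by positivity
    exact neg_ne_zero.2 (by exact_mod_cast this)
  have eT : T (e + 1) a b (rrF (e + 1) a' b' (X 0) (X 1) (1 + C 1 * X 0 + C 0 * X 1) p q) =
      (C ((a : ℂ) * (a' + b') + a' * b * (e + 1)) * (X 0 * X 1 ^ e),
        C (-((a : ℂ) * a' + a' * b * (e + 2))) * X 0 ^ (e + 1) +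
          C ((a : ℂ) * b' - a' * b) * X 1 ^ (e + 1)) := by
    have ec : X 1 * hc (e + 1) (rrF (e + 1) a' b' (X 0) (X 1) (1 + C 1 * X 0 + C 0 * X 1) p q).1 -
        X 0 * hc (e + 1) (rrF (e + 1) a' b' (X 0) (X 1) (1 + C 1 * X 0 + C 0 * X 1) p q).2 =
        C (a' : ℂ) * (X 0 ^ (e + 2) + X 0 * X 1 ^ (e + 1)) := by
      rw [h1, h2]; simp; ring
    rw [T_apply, ec, h1, h2]
    exact Prod.ext (by simp; ring) (by simp [map_ofNat]; ring)
  rw [eT]
  have hx : (X 0 * X 1 ^ e : Poly).IsHomogeneous (e + 1) := by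
    have := (isHomogeneous_X ℂ (0 : Fin 2)).mul (isHomogeneous_X_pow (R := ℂ) (1 : Fin 2) e)
    rwa [add_comm] at this
  refine fol (hx.C_mul _) (hom2 _ _ _) (mul_ne_zero (C_ne_zero.2 c1) (by simp))
    fun π hπ h3 h4 => ?_
  rcases hπ.dvd_or_dvd (dvd_of hπ c1 h3) with h3 | h3
  · exact ⟨h3, dvd_X hπ c2 ((dvd_add_right ((dvd_pow h3 (by omega)).mul_left _)).1 h4)⟩
  · have h3 := hπ.dvd_of_dvd_pow h3
    exact ⟨dvd_X hπ c3 ((dvd_add_left ((dvd_pow h3 (by omega)).mul_left _)).1 h4), h3⟩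

theorem wit_mem (e : ℕ) :
    dform (X 0 * X 1 * (X 0 ^ e + X 1 ^ e)) ∈ L ![e + 1 + 1] ∧
    dform (X 0 * X 1 * (X 0 ^ e + X 1 ^ e)) ∈ L ![1, e + 1] ∧
    dform (X 0 * X 1 * (X 0 ^ e + X 1 ^ e)) ∈ L ![1, 1, e] ∧
    dform (X 0 * X 1 * (X 0 ^ e + X 1 ^ e)) ∈ L ![2, e] := by
  have dF : (X 0 ^ e + X 1 ^ e : Poly).totalDegree ≤ e :=
    dg_add (dg_pow (dg_X 0) e (by omega)) (dg_pow (dg_X 1) e (by omega))
  generalize (X 0 ^ e + X 1 ^ e : Poly) = F at *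
  have d0 : (X 0 : Poly).totalDegree ≤ 1 := dg_X 0
  have d1 : (X 1 : Poly).totalDegree ≤ 1 := dg_X 1
  have d2 : (X 0 * X 1 : Poly).totalDegree ≤ 2 := dg_mul d0 d1 le_rfl
  have d3 : (X 1 * F : Poly).totalDegree ≤ e + 1 := dg_mul d1 dF (by omega)
  have d4 : (X 0 * X 1 * F : Poly).totalDegree ≤ e + 1 + 1 := dg_mul d2 dF (by omega)
  refine ⟨?_, ?_, ?_, ?_⟩
  · have := prod_mem (δ := ![e + 1 + 1]) ![X 0 * X 1 * F] (Fin.forall_fin_one.2 d4)
    rwa [Fin.prod_univ_one] at this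
  · have := prod_mem (δ := ![1, e + 1]) ![X 0, X 1 * F] (Fin.forall_fin_two.2 ⟨d0, d3⟩)
    rw [Fin.prod_univ_two] at this
    rw [mul_assoc]
    exact this
  · have := prod_mem (δ := ![1, 1, e]) ![X 0, X 1, F]
      (Fin.forall_fin_succ.2 ⟨d0, Fin.forall_fin_two.2 ⟨d1, dF⟩⟩)
    rwa [Fin.prod_univ_three] at this
  · have := prod_mem (δ := ![2, e]) ![X 0 * X 1, F] (Fin.forall_fin_two.2 ⟨d2, dF⟩)
    rwa [Fin.prod_univ_two] at this

end Sep2

open Sep2 in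
theorem sep2S (h : UnivStmt) : Sep2Stmt := by
  intro d a b hd ha hb
  obtain ⟨e, rfl⟩ : ∃ e, d = e + 1 := ⟨d - 1, by omega⟩
  have hV : ∀ a b (w : Form), HR (e + 1) a b w → w ∈ V (e + 1) := fun a b w hw =>
    have := (h (e + 1) a b).2.2.1 ℂ w (by omega) hw
    ⟨DL_iff.1 this.1, DL_iff.1 this.2⟩
  have sep : ∀ w ∈ V (e + 1), T (e + 1) a b w ∈ Fol (e + 1) → w ∉ zcl (RR (e + 1) a b) := by
    intro w hw hF
    refine not_mem_zcl ((lamFol e).comp (T (e + 1) a b)) hw ?_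
      (fun η hη => hV a b η (((h _ a b).1 η).1 hη)) fun η hη => ?_
    · rw [LinearMap.comp_apply]
      exact inj_of_fol hF
    · rw [LinearMap.comp_apply]
      exact fam_not_inj ha (((h _ a b).1 η).1 hη)
  obtain ⟨w1, w2⟩ := wit1 (e := e) (b := b) (by omega) ha
  have hw := sep _ w1 w2
  obtain ⟨m1, m2, m3, m4⟩ := wit_mem e
  rw [Nat.add_sub_cancel]
  refine ⟨⟨fun hs => hw (hs m1), fun hs => hw (hs m2), fun hs => hw (hs m3),
    fun hs => hw (hs m4)⟩, fun a' b' ha' _ hs => ?_⟩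
  by_contra hne
  obtain ⟨w, hw1, hw2⟩ := wit2 (e := e) ha ha' hne
  exact sep w (hV _ _ w hw1) hw2 (hs (((h _ a' b').1 w).2 hw1))

end Pool.Agent.MP_05b4bd_ag.RV
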