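import Pool.Agent.MP_05b4bd_ag.rr.Spec4

/-! The families with a parabola are not contained in the reversible components. -/

namespace Pool.Agent.MP_05b4bd_ag.RV

open MvPolynomial HC Topology
open PC3 (Fm fm d1 DF sub2 pb mapF Van)

namespace Sep3

/-- The witness. -/
noncomputable def wit (A : Type) [CommRing A] (e n : ℕ) : Fm A :=
  (2 * (X 0 ^ 2 + X 1) * (((e : R2 A) + 2) * X 1 ^ (e + 1)) -
      (2 * (n : R2 A) + 1) * (X 1 ^ (e + 2) + X 0),
    (2 * (n : R2 A) + 1) * (X 1 ^ (e + 2) + X 0) * (2 * X 0) - 2 * (X 0 ^ 2 + X 1))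

theorem map_wit {A B : Type} [CommRing A] [CommRing B] (φ : A →+* B) (e n : ℕ) :
    mapF φ (wit A e n) = wit B e n := by
  simp only [mapF, wit, map_sub, map_mul, map_add, map_pow, map_X, map_natCast, map_ofNat, map_one]

theorem wit_mem (e n : ℕ) : wit ℂ e n ∈ PN (e + 3) n := by
  refine ⟨0, X 0, X 1, X 1 ^ (e + 2) + X 0, X 1 ^ (e + 2) + X 0, (totalDegree_X _).le,
    (totalDegree_X _).le, ?_, by simp, ?_⟩
  · refine (totalDegree_add _ _).trans (max_le ?_ ?_)
    · rw [totalDegree_X_pow]; omega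
    · rw [totalDegree_X]; omega
  · have a1 : pderiv 1 (X 1 ^ (e + 2) + X 0 : Poly) = ((e : Poly) + 2) * X 1 ^ (e + 1) := by
      simp [pderiv_X]
    have a0 : pderiv 0 (X 1 ^ (e + 2) + X 0 : Poly) = 1 := by simp [pderiv_X]
    have b1 : pderiv 1 (X 0 ^ 2 + X 1 : Poly) = 1 := by simp [pderiv_X]
    have b0 : pderiv 0 (X 0 ^ 2 + X 1 : Poly) = 2 * X 0 := by simp [pderiv_X]
    refine Prod.ext ?_ ?_
    · simp only [wit, dform, Prod.fst_sub, Prod.smul_fst, smul_eq_mul, a1, b1]
      ring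
    · simp only [wit, dform, Prod.snd_sub, Prod.smul_snd, smul_eq_mul, a0, b0]
      ring

/-- Exponent vectors. -/
noncomputable def mo (i j : ℕ) : Fin 2 →₀ ℕ := Finsupp.single 0 i + Finsupp.single 1 j

theorem mo_inj {i j i' j' : ℕ} : mo i j = mo i' j' ↔ i = i' ∧ j = j' := by
  refine ⟨fun h => ⟨?_, ?_⟩, fun h => by rw [h.1, h.2]⟩
  · simpa [mo] using DFunLike.congr_fun h 0
  · simpa [mo] using DFunLike.congr_fun h 1

theorem mo_deg (i j : ℕ) : (mo i j).degree = i + j := by
  simp [mo]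

theorem xp {k : Type} [Field k] (c : k) (i j : ℕ) :
    (monomial (mo i j) c : R2 k) = C c * X 0 ^ i * X 1 ^ j := by
  rw [X_pow_eq_monomial, X_pow_eq_monomial, C_mul_monomial, monomial_mul]
  simp [mo]

theorem noLine {k : Type} [Field k] [CharZero k] {e n : ℕ} (hn : e + 3 ≤ 2 * n + 1) :
    ¬ HasLine (e + 3) (wit k e n) := by
  rintro ⟨l0, l1, l2, ε, g, hl, hε, hg, h⟩
  have h : (wit k e n).1 * C l1 + (wit k e n).2 * C l2 = g * (C l0 + C ε * HC.lf l1 l2) := by
    rw [← h]
    simp [vf, HC.lf, pderiv_X]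
  have m0 : (2 * (n : k) + 1) ≠ 0 := by exact_mod_cast (by omega : 2 * n + 1 ≠ 0)
  have e0 : ((e : k) + 2) ≠ 0 := by exact_mod_cast (by omega : e + 2 ≠ 0)
  have n0 : (n : k) ≠ 0 := by exact_mod_cast (by omega : n ≠ 0)
  have o1 : (2 * ((e : k) + 2)) ≠ 2 * (n : k) + 1 := by
    exact_mod_cast (by omega : 2 * (e + 2) ≠ 2 * n + 1)
  have o2 : ((e : k) + 2) ≠ 2 * (n : k) + 1 := by
    exact_mod_cast (by omega : e + 2 ≠ 2 * n + 1)
  by_cases h0 : ε = 0
  · have hd : DL (e + 3) ((wit k e n).1 * C l1 + (wit k e n).2 * C l2) := by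
      rw [h, h0, C_0, zero_mul, add_zero]
      intro m hm
      rw [mul_comm, coeff_C_mul, hg m hm, mul_zero]
    have ex : (wit k e n).1 * C l1 + (wit k e n).2 * C l2 =
        monomial (mo 2 (e + 1)) (2 * ((e : k) + 2) * l1) +
        monomial (mo 1 (e + 2)) (2 * (2 * (n : k) + 1) * l2) +
        monomial (mo 0 (e + 2)) ((2 * ((e : k) + 2) - (2 * n + 1)) * l1) +
        monomial (mo 2 0) (4 * (n : k) * l2) +
        monomial (mo 1 0) (-(2 * (n : k) + 1) * l1) + monomial (mo 0 1) (-2 * l2) := by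
      simp only [xp, wit, map_mul, map_add, map_sub, map_neg, map_natCast, map_ofNat, map_one]
      ring
    rw [ex] at hd
    have c1 := hd (mo 2 (e + 1)) (by rw [mo_deg]; omega)
    have c2 := hd (mo 1 (e + 2)) (by rw [mo_deg]; omega)
    simp [coeff_monomial, mo_inj, m0, e0] at c1 c2
    exact hl.elim (· c1) (· c2)
  by_cases h1 : l1 = 0
  · have h2 : l2 ≠ 0 := hl.resolve_left (· h1)
    obtain ⟨y, hy⟩ : ∃ y : k, l0 + ε * (l2 * y) = 0 := ⟨-l0 / (ε * l2), by field_simp; ring⟩
    have z := congrArg (aeval ![Polynomial.X, Polynomial.C y] : R2 k →ₐ[k] Polynomial k) h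
    have z0 : (aeval ![Polynomial.X, Polynomial.C y] : R2 k →ₐ[k] Polynomial k)
        (C l0 + C ε * HC.lf l1 l2) = 0 := by
      have := congrArg Polynomial.C hy
      simp only [map_add, map_mul, map_zero] at this
      simp [HC.lf, h1]
      linear_combination this
    rw [map_mul, z0, mul_zero, h1] at z
    have ex : Polynomial.C (4 * (n : k) * l2) * Polynomial.X ^ 2 +
        Polynomial.C (2 * (2 * (n : k) + 1) * y ^ (e + 2) * l2) * Polynomial.X +
        Polynomial.C (-2 * y * l2) = 0 := by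
      rw [← z]
      simp only [wit, map_mul, map_add, map_sub, map_neg, map_pow, map_natCast, map_ofNat, map_one,
        map_zero, aeval_X, aeval_C, Polynomial.algebraMap_eq, Matrix.cons_val_zero,
        Matrix.cons_val_one]
      ring
    have c := congrArg (Polynomial.coeff · 2) ex
    simp only [Polynomial.coeff_add, Polynomial.coeff_C_mul, Polynomial.coeff_X_pow,
      Polynomial.coeff_X, Polynomial.coeff_C, Polynomial.coeff_zero] at c
    simp [n0, h2] at c
  · obtain ⟨x, hx⟩ : ∃ x : k, l0 + ε * (l1 * x) = 0 := ⟨-l0 / (ε * l1), by field_simp; ring⟩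
    obtain ⟨r, rfl⟩ : ∃ r : k, l2 = -(r * l1) := ⟨-l2 / l1, by field_simp⟩
    have z := congrArg (aeval ![Polynomial.C x + Polynomial.C r * Polynomial.X, Polynomial.X] :
      R2 k →ₐ[k] Polynomial k) h
    have z0 : (aeval ![Polynomial.C x + Polynomial.C r * Polynomial.X, Polynomial.X] :
        R2 k →ₐ[k] Polynomial k) (C l0 + C ε * HC.lf l1 (-(r * l1))) = 0 := by
      have := congrArg Polynomial.C hx
      simp only [map_add, map_mul, map_zero] at this
      simp [HC.lf]
      linear_combination this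
    rw [map_mul, z0, mul_zero] at z
    have ex : Polynomial.C (2 * ((e : k) + 2 - (2 * n + 1)) * r ^ 2 * l1) * Polynomial.X ^ (e + 3) +
        Polynomial.C ((2 * ((e : k) + 2) - (2 * n + 1) +
          (4 * ((e : k) + 2) - 2 * (2 * n + 1)) * x * r) * l1) * Polynomial.X ^ (e + 2) +
        Polynomial.C (2 * ((e : k) + 2) * x ^ 2 * l1) * Polynomial.X ^ (e + 1) +
        Polynomial.C (-4 * (n : k) * r ^ 3 * l1) * Polynomial.X ^ 2 +
        Polynomial.C ((2 - (2 * n + 1) - 8 * (n : k) * x * r) * r * l1) * Polynomial.X +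
        Polynomial.C ((-(2 * n + 1) - 4 * (n : k) * x * r) * x * l1) = 0 := by
      rw [← z]
      simp only [wit, map_mul, map_add, map_sub, map_neg, map_pow, map_natCast, map_ofNat, map_one,
        aeval_X, aeval_C, Polynomial.algebraMap_eq, Matrix.cons_val_zero, Matrix.cons_val_one]
      ring
    have c := congrArg (Polynomial.coeff · (e + 3)) ex
    simp only [Polynomial.coeff_add, Polynomial.coeff_C_mul, Polynomial.coeff_X_pow,
      Polynomial.coeff_X, Polynomial.coeff_C, Polynomial.coeff_zero] at c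
    have hr : r = 0 := by simpa [h1, sub_eq_zero, o2] using c
    subst hr
    have c := congrArg (Polynomial.coeff · (e + 2)) ex
    simp only [Polynomial.coeff_add, Polynomial.coeff_C_mul, Polynomial.coeff_X_pow,
      Polynomial.coeff_X, Polynomial.coeff_C, Polynomial.coeff_zero] at c
    simp [h1, sub_eq_zero, o1] at c

/-- Evaluation of a polynomial in the coefficients. -/
noncomputable def cv {A : Type} [CommRing A] [Algebra ℂ A] (w : Fm A) : Co →ₐ[ℂ] A :=
  aeval fun k => coeff k.2 (cond k.1 w.1 w.2)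

theorem cv_map {A B : Type} [CommRing A] [Algebra ℂ A] [CommRing B] [Algebra ℂ B] (φ : A →ₐ[ℂ] B)
    (w : Fm A) (R : Co) : φ (cv w R) = cv (mapF (φ : A →+* B) w) R := by
  have : φ.comp (cv w) = cv (mapF (φ : A →+* B) w) := by
    refine algHom_ext fun k => ?_
    obtain ⟨b, m⟩ := k
    cases b <;> simp [cv, mapF, coeff_map]
  exact DFunLike.congr_fun this R

theorem liftO {O K : Type} [CommRing O] [CommRing K] {φ : O →+* K} (hφ : Function.Injective φ)
    (g : R2 K) (t : (Fin 2 →₀ ℕ) → O) (h : ∀ m, φ (t m) = coeff m g) :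
    ∃ g' : R2 O, ∀ m, coeff m g' = t m := by
  classical
  refine ⟨∑ m ∈ g.support, monomial m (t m), fun m => ?_⟩
  simp only [coeff_sum, coeff_monomial, Finset.sum_ite_eq']
  split_ifs with hm
  · rfl
  · exact (hφ (by rw [h, map_zero]; exact notMem_support_iff.1 hm)).symm

end Sep3

open Sep3 in
theorem sep3S (h1 : UnivStmt) (h2 : LineStmt) : Sep3Stmt := by
  intro d a b n hd ha _ hn hs
  obtain ⟨e, rfl⟩ : ∃ e, d = e + 3 := ⟨d - 3, by omega⟩
  obtain ⟨u1, u2, -, u4, σ, U, hU, u5⟩ := h1 (e + 3) a b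
  have hz := mem_zcl.1 (hs (wit_mem e n))
  let K := FractionRing (MvPolynomial σ ℂ)
  let j : MvPolynomial σ ℂ →+* K := algebraMap _ _
  let ψ : Co →+* K := j.comp (cv U : Co →+* MvPolynomial σ ℂ)
  have hk : ∀ R : Co, R ∈ RingHom.ker ψ → (cv (wit ℂ e n) : Co →+* ℂ) R = 0 := fun R hR => by
    have h0 : cv U R = 0 := IsFractionRing.injective (MvPolynomial σ ℂ) K (by
      rw [map_zero]; exact hR)
    refine hz R fun η hη => ?_
    obtain ⟨x, hx⟩ := u5 ℂ η ((u1 η).1 hη)
    have := cv_map (aeval x : MvPolynomial σ ℂ →ₐ[ℂ] ℂ) U R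
    rw [h0, map_zero, ← hx] at this
    exact this.symm
  let χ : (Co ⧸ RingHom.ker ψ) →+* ℂ := Ideal.Quotient.lift _ _ hk
  have := RingHom.ker_isPrime χ
  obtain ⟨O, τ, t1, t2⟩ := exists_val (RingHom.kerLift_injective ψ) (RingHom.ker χ)
  let τ' : Co →+* O := τ.comp (Ideal.Quotient.mk _)
  have s1 : ∀ R, algebraMap O K (τ' R) = j (cv U R) := fun R =>
    (t1 _).trans (RingHom.kerLift_mk ψ R)
  have s2 : ∀ R, cv (wit ℂ e n) R = 0 → IsLocalRing.residue O (τ' R) = 0 := fun R hR =>
    (t2 _).2 hR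
  let i : ℂ →+* IsLocalRing.ResidueField O := (IsLocalRing.residue O).comp (τ'.comp C)
  have : CharZero (IsLocalRing.ResidueField O) := (RingHom.charZero_iff i.injective).1 inferInstance
  have s3 : ∀ k, IsLocalRing.residue O (τ' (X k)) = i (cv (wit ℂ e n) (X k)) := fun k => by
    have := s2 (X k - C (cv (wit ℂ e n) (X k))) (by rw [map_sub, algHom_C]; exact sub_self _)
    rw [map_sub, map_sub, sub_eq_zero] at this
    exact this
  have hO : Function.Injective (algebraMap O K) := Subtype.val_injective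
  obtain ⟨P, hP⟩ := liftO hO (map j U.1) (fun m => τ' (X (true, m))) fun m => by
    rw [s1, coeff_map]; simp [cv]
  obtain ⟨Q, hQ⟩ := liftO hO (map j U.2) (fun m => τ' (X (false, m))) fun m => by
    rw [s1, coeff_map]; simp [cv]
  have e1 : mapF (algebraMap O K) (P, Q) = mapF j U := by
    refine Prod.ext (MvPolynomial.ext _ _ fun m => ?_) (MvPolynomial.ext _ _ fun m => ?_)
    · simp only [mapF, coeff_map, hP, s1]; simp [cv]
    · simp only [mapF, coeff_map, hQ, s1]; simp [cv]
  have e2 : mapF (IsLocalRing.residue O) (P, Q) = mapF i (wit ℂ e n) := by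
    refine Prod.ext (MvPolynomial.ext _ _ fun m => ?_) (MvPolynomial.ext _ _ fun m => ?_)
    · simp only [mapF, coeff_map, hP, s3]; simp [cv]
    · simp only [mapF, coeff_map, hQ, s3]; simp [cv]
  have := h2 K O (e + 3) (P, Q) (by
    rw [e1]; exact u4 K _ (by omega) ha (u2 _ _ j U hU))
  rw [e2, map_wit] at this
  exact noLine hn this

end Pool.Agent.MP_05b4bd_ag.RV
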