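import Pool.Agent.MP_05b4bd_ag.rr.Spec3

/-! The equation on the quotient has a first integral over one extension. -/

namespace Pool.Agent.MP_05b4bd_ag.RV

open PowerSeries LaurentSeries HC
open ES hiding Gen Ob Inf

namespace Solve

theorem cw_C_mul {A B : Type} [CommRing A] [CommRing B] {L : A →+ B} {c : A} {c' : B}
    (h : ∀ a, L (c * a) = c' * L a) (f : A⟦X⟧) : cw L (C c * f) = C c' * cw L f := by
  ext n
  simp only [coeff_cw, coeff_C_mul, h]

theorem exists_psi {L : Type} [CommRing L] [Algebra ℚ L] (B : AA L⟦X⟧) (h1 : C X ∣ B)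
    (h2 : cc B = 0) :
    ∃ Ψ : AA L⟦X⟧, cc Ψ = 0 ∧ red Ψ = X ∧ cw (cw (dX L)) Ψ = -(B * dX _ Ψ) := by
  obtain ⟨J, j1, -, -⟩ := exists_int (R := L)
  obtain ⟨B1, rfl⟩ := h1
  have k : ∀ (n : ℕ) (w : AA L⟦X⟧), cw (cw J) (C X ^ n * w) = C X ^ n * cw (cw J) w := by
    intro n w
    rw [← map_pow]
    exact cw_C_mul (cw_X_pow_mul J n) w
  obtain ⟨Ψ, hΨ, -⟩ := fix_dvd (C X : AA L⟦X⟧) (fun Ψ => X - cw (cw J) (C X * B1 * dX _ Ψ)) (by
    rintro n x y ⟨q, hq⟩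
    have e : dX _ x - dX _ y = C X ^ n * dX _ q := by
      rw [← map_sub, hq, isDer_dX, ← map_pow, dX_C, zero_mul, zero_add]
    have e' : C X * B1 * dX _ y - C X * B1 * dX _ x = C X ^ (n + 1) * -(B1 * dX _ q) := by
      linear_combination (-(C X * B1)) * e
    refine ⟨cw (cw J) (-(B1 * dX _ q)), ?_⟩
    rw [← k, ← e', map_sub]
    ring)
  refine ⟨Ψ, ?_, ?_, ?_⟩
  · rw [← hΨ, map_sub, cc_cw, map_mul, h2, zero_mul, map_zero, sub_zero, constantCoeff_X]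
  · have := k 1 (B1 * dX _ Ψ)
    rw [pow_one, ← mul_assoc] at this
    rw [← hΨ, map_sub, red_X, this, red_eq_zero.2 (dvd_mul_right _ _), sub_zero]
  · have e : ∀ w : AA L⟦X⟧, cw (cw (dX L)) (cw (cw J) w) = w := fun w => by
      ext n m
      rw [coeff_cw, coeff_cw, coeff_cw, coeff_cw, j1]
    conv_lhs => rw [← hΨ]
    rw [map_sub, e, cw_X isDer_dX.coefw.one, zero_sub]

end Solve

theorem solveS : SolveStmt := by
  intro L _ _ D hD
  obtain ⟨τ, -, t2, -⟩ := exists_tayl hD (RingHom.id L)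
  have hi : ∀ c, dL L ((coeL L).comp τ c) = (coeL L).comp τ (D c) := fun c => by
    rw [RingHom.comp_apply, dL_coeL, t2, RingHom.comp_apply]
  refine ⟨L⸨X⸩, inferInstance, dL L, (coeL L).comp τ, ⟨isDer_dL, hi⟩, fun a b ρ B n h => ?_⟩
  obtain ⟨Ψ, p1, p2, p3⟩ := Solve.exists_psi (mA τ B)
    (by simpa only [mA, map_C, map_X] using map_dvd (mA τ) h.tB)
    (by rw [mA, K3.cc_map, h.cB, map_zero])
  have c0 : cc (mA ((coeL L).comp τ) ρ) = 0 := by rw [mA, K3.cc_map, h.c0, map_zero]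
  have e1 : cw (cw (dL L)) (mA (coeL L) Ψ) =
      -(mA ((coeL L).comp τ) B * dX _ (mA (coeL L) Ψ)) := by
    rw [← mA_mA, mA, cw_map' (cw_map' dL_coeL), p3, map_neg, map_mul, dX_map]
  have e2 := congrArg (mA ((coeL L).comp τ)) h.eq
  rw [map_sub, map_mul, map_mul, map_mul, map_mul, mA, map_X, ← cw_map' (cw_map' hi), ← dX_map,
    map_sb h.c0] at e2
  refine ⟨mA (coeL L) Ψ, by rw [mA, K3.cc_map, p1, map_zero], by rw [red_mA, p2, map_X], ?_⟩
  rw [FIe, cw_sb c0 isDer_dL.coefw, dX_sb c0, e1, map_neg, map_mul]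
  simp only [mA]
  linear_combination sb (map (map ((coeL L).comp τ)) ρ) (dX _ (map (map (coeL L)) Ψ)) * e2

end Pool.Agent.MP_05b4bd_ag.RV
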