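import Pool.Agent.MP_05b4bd_ag.rr.Bas

/-! The radial symmetry of the model, applied to a nearby form. -/

namespace Pool.Agent.MP_05b4bd_ag.RV

open PowerSeries LaurentSeries HC
open ES hiding Gen Ob Inf
open ES.U (TM Cr hom)
open PC3 (Fm fm d1 DF sub2 pb mapF Van CenK iS)
open UM.Tor4

namespace Sym

section Ring
variable {S : Type} [CommRing S]

theorem key0 (K x0 x1 m0 m1 P Q k0 k1 L Ke Kn a b : S)
    (h0 : (1 + (m0 * x0 + m1 * x1)) * (a + b + a * K * (m0 * x0 + m1 * x1)) * k0 =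
      b * K * (K - 1) * m0)
    (h1 : (1 + (m0 * x0 + m1 * x1)) * (a + b + a * K * (m0 * x0 + m1 * x1)) * k1 =
      b * K * (K - 1) * m1) :
    (1 + (m0 * x0 + m1 * x1)) * ((a + b + a * K * (m0 * x0 + m1 * x1)) * (K * Ke * Kn) *
      (L * ((a + b) * (1 + (m0 * x0 + m1 * x1)) * P - b * (x1 * P - x0 * Q) * m1) * (k0 * x0 + K) +
        L * ((a + b) * (1 + (m0 * x0 + m1 * x1)) * Q + b * (x1 * P - x0 * Q) * m0) * (k1 * x0))) =
    (1 + (m0 * x0 + m1 * x1)) * ((a + b + a * (m0 * x0 + m1 * x1)) * K ^ 2 * (Kn * L *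
      ((a + b) * (1 + K * (m0 * x0 + m1 * x1)) * (Ke * P) -
        b * (K * x1 * (Ke * P) - K * x0 * (Ke * Q)) * m1))) := by
  linear_combination (K * Ke * Kn) * (L * ((a + b) * (1 + (m0 * x0 + m1 * x1)) * P -
    b * (x1 * P - x0 * Q) * m1)) * x0 * h0 + (K * Ke * Kn) *
    (L * ((a + b) * (1 + (m0 * x0 + m1 * x1)) * Q + b * (x1 * P - x0 * Q) * m0)) * x0 * h1

theorem key1 (K x0 x1 m0 m1 P Q k0 k1 L Ke Kn a b : S)
    (h0 : (1 + (m0 * x0 + m1 * x1)) * (a + b + a * K * (m0 * x0 + m1 * x1)) * k0 =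
      b * K * (K - 1) * m0)
    (h1 : (1 + (m0 * x0 + m1 * x1)) * (a + b + a * K * (m0 * x0 + m1 * x1)) * k1 =
      b * K * (K - 1) * m1) :
    (1 + (m0 * x0 + m1 * x1)) * ((a + b + a * K * (m0 * x0 + m1 * x1)) * (K * Ke * Kn) *
      (L * ((a + b) * (1 + (m0 * x0 + m1 * x1)) * P - b * (x1 * P - x0 * Q) * m1) * (k0 * x1) +
        L * ((a + b) * (1 + (m0 * x0 + m1 * x1)) * Q + b * (x1 * P - x0 * Q) * m0) *
          (k1 * x1 + K))) =
    (1 + (m0 * x0 + m1 * x1)) * ((a + b + a * (m0 * x0 + m1 * x1)) * K ^ 2 * (Kn * L *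
      ((a + b) * (1 + K * (m0 * x0 + m1 * x1)) * (Ke * Q) +
        b * (K * x1 * (Ke * P) - K * x0 * (Ke * Q)) * m0))) := by
  linear_combination (K * Ke * Kn) * (L * ((a + b) * (1 + (m0 * x0 + m1 * x1)) * P -
    b * (x1 * P - x0 * Q) * m1)) * x1 * h0 + (K * Ke * Kn) *
    (L * ((a + b) * (1 + (m0 * x0 + m1 * x1)) * Q + b * (x1 * P - x0 * Q) * m0)) * x1 * h1

/-- The logarithmic derivative of the equation of `K`. -/
theorem logd {D : S →+ S} (hD : IsDer D) {K l : S} {a b : ℕ} (uK : IsUnit K) (ul : IsUnit (1 + l))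
    (h : K ^ (a + b) * (1 + l) ^ b = (1 + K * l) ^ b) :
    (1 + l) * (a + b + a * K * l) * D K = b * K * (K - 1) * D l := by
  have p : ∀ (u : S) (n : ℕ), u * D (u ^ n) = n * u ^ n * D u := fun u n => by
    rw [hD.pow]
    rcases n with _ | n
    · simp
    · rw [Nat.add_sub_cancel, pow_succ]
      ring
  have e := congrArg D h
  rw [hD] at e
  have e1 := p K (a + b)
  have e2 := p (1 + l) b
  have e3 := p (1 + K * l) b
  rw [map_add, hD.one, zero_add] at e2 e3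
  rw [hD] at e3
  refine ((uK.pow (a + b)).mul (ul.pow b)).mul_left_cancel ?_
  push_cast at e1
  linear_combination K * (1 + l) * (1 + K * l) * e - (1 + l) ^ b * (1 + l) * (1 + K * l) * e1 -
    K ^ (a + b) * K * (1 + K * l) * e2 + K * (1 + l) * e3 -
    K * (1 + l) * b * (D K * l + K * D l) * h

end Ring

variable {k : Type} [Field k]

theorem hom_inv {s t : k} (h : s * t = 1) (u : R2 k) : hom s 0 (hom t 0 u) = u := by
  induction u using MvPolynomial.induction_on with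
  | C a => rw [hom_C, hom_C]
  | add a b ha hb => simp only [map_add, ha, hb]
  | mul_X a i ha =>
    simp only [map_mul, ha, hom_X, hom_C, Pi.zero_apply, map_zero, add_zero]
    rw [← mul_assoc (MvPolynomial.C t), ← map_mul, mul_comm t, h, map_one, one_mul]

theorem der_iS (i : Fin 2) (u : R2 k⟦X⟧) :
    cw (pd k i) (iS k u) = iS k (MvPolynomial.pderiv i u) := by
  have hD := (isDer_pd (R := k) i).coefw
  induction u using MvPolynomial.induction_on with
  | C r =>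
    rw [PC3.iS_C, MvPolynomial.pderiv_C, map_zero]
    ext1 n
    rw [coeff_cw, coeff_map, pd_apply, MvPolynomial.pderiv_C, map_zero]
  | add p q hp hq => simp only [map_add, hp, hq]
  | mul_X p j hp =>
    rw [map_mul, hD, hp, PC3.iS_X, cw_C, pd_apply, Derivation.leibniz, smul_eq_mul, smul_eq_mul,
      map_add, map_mul, map_mul, PC3.iS_X, MvPolynomial.pderiv_X, MvPolynomial.pderiv_X]
    by_cases h : i = j
    · subst h
      simp only [Pi.single_eq_same, map_one]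
      ring
    · simp only [Pi.single_eq_of_ne (Ne.symm h), map_zero]
      ring

/-- The substitution `x ↦ K x`. -/
noncomputable def chi (K : (R2 k)⟦X⟧) : (R2 k)⟦X⟧ →+* (R2 k)⟦X⟧ :=
  evS (RingHom.id _) fun l => K * C (MvPolynomial.X l)

variable {K : (R2 k)⟦X⟧}

theorem chi_X : chi K X = X := hat_X _

theorem chi_x (i : Fin 2) : chi K (C (MvPolynomial.X i)) = K * C (MvPolynomial.X i) := by
  rw [chi, evS, hat_C, MvPolynomial.eval₂Hom_X']

theorem chi_c (c : k) : chi K (C (MvPolynomial.C c)) = C (MvPolynomial.C c) := by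
  rw [chi, evS, hat_C, MvPolynomial.eval₂Hom_C]
  rfl

theorem chi_map (c : k⟦X⟧) : chi K (map MvPolynomial.C c) = map MvPolynomial.C c :=
  RingHom.congr_fun (homExt (K3.JX (R2 k)) (g := (chi K).comp (map MvPolynomial.C))
    (g' := map MvPolynomial.C) (fun r => by simp only [RingHom.comp_apply, map_C, chi_c])
    (by simp only [RingHom.comp_apply, map_X, chi_X])
    (by simp only [RingHom.comp_apply, map_X, chi_X]; exact K3.mem_JX dvd_rfl)) c

theorem chi_hom {e : ℕ} {u : R2 k⟦X⟧} (hu : u.IsHomogeneous e) :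
    chi K (iS k u) = K ^ e * iS k u := by
  have e1 : ∀ u, iS k u = MvPolynomial.eval₂ (map MvPolynomial.C)
      ![C (MvPolynomial.X 0), C (MvPolynomial.X 1)] u := fun u => by
    rw [iS, MvPolynomial.coe_eval₂Hom]
    congr 1
    funext i
    fin_cases i <;> rfl
  rw [e1, k4_map, chi_x, chi_x, ← k4_hom _ hu]
  congr 1
  exact RingHom.ext chi_map

theorem cc_chi {s : k} (hK : cc K = MvPolynomial.C s) (u : (R2 k)⟦X⟧) :
    cc (chi K u) = hom s 0 (cc u) := by
  rw [chi, evS, cc_hat]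
  induction cc u using MvPolynomial.induction_on with
  | C a => rw [hom_C, MvPolynomial.eval₂Hom_C]; rfl
  | add a b ha hb => simp only [map_add, ha, hb]
  | mul_X a i ha =>
    rw [map_mul, map_mul, ha, map_mul, hom_X, MvPolynomial.eval₂Hom_X', map_mul, hK]
    simp

theorem chi_bij {s t : k} (h : s * t = 1) (hK : cc K = MvPolynomial.C s) :
    Function.Bijective (chi K) := by
  have b1 := bij_of_dvd (X : (R2 k)⟦X⟧)
    ((chi K).comp (map (hom t 0 : R2 k →ₐ[k] R2 k).toRingHom)).toAddMonoidHom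
    (fun c => by simp [chi_X]) fun c => X_dvd_iff.2 (by
      change cc (chi K (map _ c) - c) = 0
      rw [map_sub, cc_chi hK, sub_eq_zero]
      exact hom_inv h _)
  have b2 := bij_of_dvd (X : (R2 k)⟦X⟧)
    ((map (hom t 0 : R2 k →ₐ[k] R2 k).toRingHom).comp (chi K)).toAddMonoidHom
    (fun c => by simp [chi_X]) fun c => X_dvd_iff.2 (by
      change cc (map (hom t 0 : R2 k →ₐ[k] R2 k).toRingHom (chi K c) - c) = 0
      rw [map_sub, K3.cc_map, cc_chi hK, sub_eq_zero]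
      exact hom_inv ((mul_comm _ _).trans h) _)
  exact ⟨Function.Injective.of_comp (f := map (hom t 0 : R2 k →ₐ[k] R2 k).toRingHom) b2.1,
    Function.Surjective.of_comp (g := map (hom t 0 : R2 k →ₐ[k] R2 k).toRingHom) b1.2⟩

theorem unit_cc {u : (R2 k)⟦X⟧} {c : k} (hc : c ≠ 0) (h : cc u = MvPolynomial.C c) : IsUnit u :=
  isUnit_iff_constantCoeff.2 (h ▸ (IsUnit.mk0 c hc).map MvPolynomial.C)

theorem exists_K [CharZero k] {a b : ℕ} {ζ : k} (hn : 1 ≤ a + b) (hζ : ζ ^ (a + b) = 1)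
    {l : (R2 k)⟦X⟧} (hl : cc l = 0) : ∃ K : (R2 k)⟦X⟧, cc K = MvPolynomial.C ζ⁻¹ ∧
      K ^ (a + b) * (1 + l) ^ b = (1 + K * l) ^ b := by
  have z0 : ζ ≠ 0 := fun h => by
    rw [h, zero_pow (by omega)] at hζ
    exact zero_ne_one hζ
  obtain ⟨z, h1, h2⟩ := hensel (K3.JX (R2 k)) (Polynomial.X ^ (a + b) * Polynomial.C ((1 + l) ^ b) -
    (1 + Polynomial.X * Polynomial.C l) ^ b) (a := C (MvPolynomial.C ζ⁻¹))
    (K3.mem_JX' (by
      simp only [Polynomial.eval_sub, Polynomial.eval_mul, Polynomial.eval_pow, Polynomial.eval_X,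
        Polynomial.eval_C, Polynomial.eval_add, Polynomial.eval_one, map_sub, map_mul, map_pow,
        map_add, map_one, hl, constantCoeff_C, mul_zero, add_zero, one_pow, mul_one]
      rw [← map_pow, inv_pow, hζ, inv_one, map_one, sub_self]))
    (unit_cc (c := ((a + b : ℕ) : k) * ζ⁻¹ ^ (a + b - 1))
      (mul_ne_zero (Nat.cast_ne_zero.2 (by omega)) (pow_ne_zero _ (inv_ne_zero z0))) (by
      simp only [Polynomial.derivative_mul, Polynomial.derivative_pow,
        Polynomial.derivative_C, Polynomial.derivative_X,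
        Polynomial.derivative_one, Polynomial.eval_sub, Polynomial.eval_mul, Polynomial.eval_pow,
        Polynomial.eval_X, Polynomial.eval_C, Polynomial.eval_add, Polynomial.eval_one,
        Polynomial.eval_zero, map_sub, map_mul, map_pow, map_add, map_one, map_zero, hl,
        constantCoeff_C, mul_zero, add_zero, one_pow, mul_one, sub_zero, map_natCast,
        Polynomial.eval_natCast]))
  refine ⟨z, ?_, by simpa [sub_eq_zero, mul_comm l] using h2⟩
  have := X_dvd_iff.1 (Ideal.mem_span_singleton.1 h1)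
  rwa [map_sub, constantCoeff_C, sub_eq_zero] at this

theorem iS_lf (l0 l1 : k⟦X⟧) : iS k (HC.lf l0 l1) =
    map MvPolynomial.C l0 * C (MvPolynomial.X 0) + map MvPolynomial.C l1 * C (MvPolynomial.X 1) := by
  simp only [HC.lf, map_add, map_mul, PC3.iS_C, PC3.iS_X]

theorem pd_lf (l0 l1 : k⟦X⟧) : MvPolynomial.pderiv 0 (HC.lf l0 l1) = MvPolynomial.C l0 ∧
    MvPolynomial.pderiv 1 (HC.lf l0 l1) = MvPolynomial.C l1 := by
  simp [HC.lf]

theorem cw_xi :
    cw (pd k 0) (K * C (MvPolynomial.X 0)) = cw (pd k 0) K * C (MvPolynomial.X 0) + K ∧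
    cw (pd k 1) (K * C (MvPolynomial.X 0)) = cw (pd k 1) K * C (MvPolynomial.X 0) ∧
    cw (pd k 0) (K * C (MvPolynomial.X 1)) = cw (pd k 0) K * C (MvPolynomial.X 1) ∧
    cw (pd k 1) (K * C (MvPolynomial.X 1)) = cw (pd k 1) K * C (MvPolynomial.X 1) + K := by
  refine ⟨?_, ?_, ?_, ?_⟩ <;> rw [(isDer_pd (R := k) _).coefw, cw_C, pd_apply] <;> simp

/-- The model is carried to a multiple of itself. -/
theorem model {d a b : ℕ} (hd : 1 ≤ d) (l0 l1 : k⟦X⟧) (s : Fm k⟦X⟧)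
    (uK : IsUnit K) (ul : IsUnit (1 + iS k (HC.lf l0 l1)))
    (h : K ^ (a + b) * (1 + iS k (HC.lf l0 l1)) ^ b = (1 + K * iS k (HC.lf l0 l1)) ^ b) (i : Fin 2) :
    (a + b + a * K * iS k (HC.lf l0 l1)) * K ^ d *
      vS (pd k) (vfS (mdl d a b (1 + HC.lf l0 l1) s)) (K * C (MvPolynomial.X i)) =
    (a + b + a * iS k (HC.lf l0 l1)) * K ^ 2 * chi K (vfS (mdl d a b (1 + HC.lf l0 l1) s) i) := by
  have h0 := logd (isDer_pd (R := k) 0).coefw uK ul h
  have h1 := logd (isDer_pd (R := k) 1).coefw uK ul h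
  rw [der_iS, (pd_lf l0 l1).1, PC3.iS_C] at h0
  rw [der_iS, (pd_lf l0 l1).2, PC3.iS_C] at h1
  have hl : chi K (iS k (HC.lf l0 l1)) = K * iS k (HC.lf l0 l1) := by
    rw [chi_hom (lf_hom l0 l1), pow_one]
  have T : ∀ t ∈ Finset.range ((d - 1) / (a + b) + 1),
      K ^ d = K * K ^ (d - 1 - t * (a + b)) * K ^ (t * (a + b)) ∧
      (1 + K * iS k (HC.lf l0 l1)) ^ (b * t) =
        K ^ (t * (a + b)) * (1 + iS k (HC.lf l0 l1)) ^ (b * t) := fun t ht => by
    have := (Nat.mul_le_mul_right (a + b) (Nat.lt_succ_iff.1 (Finset.mem_range.1 ht))).trans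
      (Nat.div_mul_le_self _ _)
    refine ⟨?_, by rw [pow_mul, ← h, mul_pow, ← pow_mul, ← pow_mul, mul_comm t]⟩
    rw [← pow_succ', ← pow_add]
    congr 1
    omega
  refine ul.mul_left_cancel ?_
  fin_cases i
  all_goals
    simp only [vS, vfS, mdl, cw_xi.1, cw_xi.2.1, cw_xi.2.2.1, cw_xi.2.2.2, Fin.zero_eta, Fin.mk_one, Matrix.cons_val_zero,
      Matrix.cons_val_one, Prod.fst_sum, Prod.snd_sum, map_sum, Finset.sum_mul, Finset.mul_sum,
      ← Finset.sum_add_distrib]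
    refine Finset.sum_congr rfl fun t ht => ?_
    simp only [Prod.smul_fst, Prod.smul_snd, Prod.fst_sub, Prod.snd_sub, smul_eq_mul, wpt, fm, cE,
      map_mul, map_sub, map_add, map_pow, map_one, map_neg, map_natCast, MvPolynomial.pderiv_one,
      zero_add, (pd_lf l0 l1).1, (pd_lf l0 l1).2, PC3.iS_C, PC3.iS_X, chi_map, chi_x, hl,
      chi_hom (hc_hom _ _), (T t ht).2, Nat.cast_add]
    rw [(T t ht).1]
    generalize (1 + iS k (HC.lf l0 l1)) ^ (b * t) = L
    generalize K ^ (d - 1 - t * (a + b)) = Ke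
    generalize K ^ (t * (a + b)) = Kn
    generalize iS k (hc (d - 1 - t * (a + b)) s.1) = P
    generalize iS k (hc (d - 1 - t * (a + b)) s.2) = Q
    rw [iS_lf] at h0 h1 ⊢
  · linear_combination key0 K _ _ _ _ P Q _ _ L Ke Kn a b h0 h1
  · linear_combination key1 K _ _ _ _ P Q _ _ L Ke Kn a b h0 h1

theorem low_hom {d : ℕ} {f g : R2 k} {ζ c : k} (z0 : ζ ≠ 0) (hc : c ≠ 0)
    (hf : hom ζ 0 f = MvPolynomial.C (ζ ^ d) * f) (h : Low d f g) :
    Low d f (hom ζ 0 (MvPolynomial.C c * g)) := by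
  obtain ⟨p, q, e, h1, h2⟩ := h
  have df : ∀ i, hom ζ 0 (MvPolynomial.pderiv i f) =
      MvPolynomial.C (ζ⁻¹ * ζ ^ d) * MvPolynomial.pderiv i f := fun i => by
    have e := pderiv_hom ζ 0 i f
    rw [hf, MvPolynomial.pderiv_C_mul] at e
    rw [map_mul, mul_assoc, e, ← mul_assoc, ← map_mul, inv_mul_cancel₀ z0, map_one, one_mul]
  have dv : MvPolynomial.pderiv 0 (MvPolynomial.C (c * (ζ⁻¹ * ζ ^ d)) * hom ζ 0 p) +
      MvPolynomial.pderiv 1 (MvPolynomial.C (c * (ζ⁻¹ * ζ ^ d)) * hom ζ 0 q) =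
      MvPolynomial.C (c * (ζ⁻¹ * ζ ^ d) * ζ) *
        hom ζ 0 (MvPolynomial.pderiv 0 p + MvPolynomial.pderiv 1 q) := by
    simp only [MvPolynomial.pderiv_C_mul, pderiv_hom, map_add, map_mul (MvPolynomial.C) _ ζ]
    ring
  refine ⟨_, _, ?_, dv ▸ (hom_DL ζ 0 h1).C_mul _, dv ▸ mul_ne_zero (MvPolynomial.C_ne_zero.2
    (mul_ne_zero (mul_ne_zero hc (mul_ne_zero (inv_ne_zero z0) (pow_ne_zero _ z0))) z0)) fun z =>
      h2 (by rw [← hom_inv (inv_mul_cancel₀ z0) (_ + _), z, map_zero])⟩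
  simp only [e, map_mul, map_add, hom_C, df]
  ring

/-- The field as an additive map. -/
noncomputable def vA (A : Fin 2 → (R2 k)⟦X⟧) : (R2 k)⟦X⟧ →+ (R2 k)⟦X⟧ :=
  (AddMonoidHom.mulLeft (A 0)).comp (cw (pd k 0)) + (AddMonoidHom.mulLeft (A 1)).comp (cw (pd k 1))

theorem vA_apply (A : Fin 2 → (R2 k)⟦X⟧) (u : (R2 k)⟦X⟧) : vA A u = vS (pd k) A u := rfl

theorem vA_der (A : Fin 2 → (R2 k)⟦X⟧) : IsDer (vA A) :=
  ((isDer_pd 0).coefw.mulLeft _).add ((isDer_pd 1).coefw.mulLeft _)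

theorem vA_c (A : Fin 2 → (R2 k)⟦X⟧) (c : k) : vA A (C (MvPolynomial.C c)) = 0 := by
  simp [vA_apply, vS, cw_C, pd_apply]

theorem vA_X (A : Fin 2 → (R2 k)⟦X⟧) : vA A X = 0 := by
  simp [vA_apply, vS, cw_X (isDer_pd (R := k) _).one]

end Sym

open _root_.Pool.Agent.MP_05b4bd_ag.RV.Sym in
theorem symS (h : EvsStmt) : SymStmt := by
  intro k _ _ d a b j f ζ w s r l0 l1 hd hn hζ hf hM hw
  have z0 : ζ ≠ 0 := fun h => by
    rw [h, zero_pow (by omega)] at hζ
    exact zero_ne_one hζ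
  have n0 : ((a + b : ℕ) : k) ≠ 0 := Nat.cast_ne_zero.2 (by omega)
  have hl : cc (iS k (HC.lf l0 l1)) = 0 := by
    simp only [iS_lf, map_add, map_mul, K3.cc_map, hM.c0, hM.c1, map_zero, zero_mul, add_zero]
  obtain ⟨K, cK, hK⟩ := exists_K hn hζ hl
  have uK := unit_cc (inv_ne_zero z0) cK
  have ul : IsUnit (1 + iS k (HC.lf l0 l1)) :=
    unit_cc one_ne_zero (by rw [map_add, hl, add_zero, map_one, map_one])
  have md := model hd l0 l1 s uK ul hK
  have bij := chi_bij (inv_mul_cancel₀ z0) cK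
  have ci : ∀ u, cc u = hom ζ 0 (cc (chi K u)) := fun u => by
    rw [cc_chi cK, hom_inv (mul_inv_cancel₀ z0)]
  set l := iS k (HC.lf l0 l1)
  set M := vfS (mdl d a b (1 + HC.lf l0 l1) s) with hMd
  have c1 : cc ((a + b + a * K * l) * K ^ d : (R2 k)⟦X⟧) =
      MvPolynomial.C (((a + b : ℕ) : k) * ζ⁻¹ ^ d) := by
    simp only [map_mul, map_add, map_pow, map_natCast, hl, cK, mul_zero, add_zero, Nat.cast_add]
  have c2 : cc ((a + b + a * l) * K ^ 2 : (R2 k)⟦X⟧) =
      MvPolynomial.C (((a + b : ℕ) : k) * ζ⁻¹ ^ 2) := by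
    simp only [map_mul, map_add, map_pow, map_natCast, hl, cK, mul_zero, add_zero, Nat.cast_add]
  obtain ⟨i1, hi1⟩ := (unit_cc (mul_ne_zero n0 (pow_ne_zero _ (inv_ne_zero z0))) c1).exists_left_inv
  obtain ⟨i2, hi2⟩ := (unit_cc (mul_ne_zero n0 (pow_ne_zero _ (inv_ne_zero z0))) c2).exists_left_inv
  set μ := i1 * ((a + b + a * l) * K ^ 2) with hμ
  set ν := i2 * ((a + b + a * K * l) * K ^ d) with hν
  have mn : μ * ν = 1 := by
    rw [hμ, hν]
    linear_combination (i2 * ((a + b + a * l) * K ^ 2)) * hi1 + hi2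
  have cν : cc ν = MvPolynomial.C (ζ ^ 2 * ζ⁻¹ ^ d) := by
    have e := congrArg cc hi2
    rw [map_mul, c2, map_one] at e
    have e2 : (a + b : ℕ) * ζ⁻¹ ^ d = ((a + b : ℕ) * ζ⁻¹ ^ 2) * (ζ ^ 2 * ζ⁻¹ ^ d) := by
      field_simp
    rw [hν, map_mul, c1, e2, map_mul, ← mul_assoc, e, one_mul]
  have mM : ∀ i, vS (pd k) M (K * C (MvPolynomial.X i)) = μ * chi K (M i) := fun i => by
    rw [hμ]
    linear_combination i1 * md i - vS (pd k) M (K * C (MvPolynomial.X i)) * hi1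
  have ew : ∀ i, vfS w i = M i + X ^ j * vfS r i := fun i => by
    rw [hMd, hM.eq]
    fin_cases i <;> simp [vfS, PC3.iS_t]
  choose y hy using fun i => bij.2 (ν * vS (pd k) (vfS r) (K * C (MvPolynomial.X i)))
  have main : ∀ i, vS (pd k) (vfS w) (K * C (MvPolynomial.X i)) =
      μ * chi K (M i + X ^ j * y i) := fun i => by
    have e := mM i
    rw [map_add, map_mul, map_pow, chi_X, hy]
    simp only [vS, ew] at e ⊢
    linear_combination e - X ^ j * (vfS r 0 * cw (pd k 0) (K * C (MvPolynomial.X i)) +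
      vfS r 1 * cw (pd k 1) (K * C (MvPolynomial.X i))) * mn
  refine ⟨K, μ, fun i => M i + X ^ j * y i, cK, hK, ⟨fun i => ?_, ?_⟩, fun i => ?_, main⟩
  · have e := hw.1 i
    rw [ew] at e
    simpa only [map_add, map_mul, cc_X_pow hM.j1, zero_mul] using e
  · obtain ⟨H, g, N, N1, cH, eH, lo⟩ := hw.2
    obtain ⟨H', hH⟩ := bij.2 (C (MvPolynomial.C (ζ⁻¹ ^ d)) * H)
    obtain ⟨g', hg⟩ := bij.2 (ν * C (MvPolynomial.C (ζ⁻¹ ^ d)) * g)
    refine ⟨H', g', N, N1, ?_, bij.1 ?_, ?_⟩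
    · rw [ci, hH, map_mul, constantCoeff_C, cH, map_mul, hom_C, hf, ← mul_assoc, ← map_mul,
        ← mul_pow, inv_mul_cancel₀ z0, one_pow, map_one, one_mul]
    · have e := (h k _ (RingHom.id _) fun l => K * C (MvPolynomial.X l)).2.2.2.1 (vA (vfS w))
        (vA_der _) (vA_X _) (vA_c _) H'
      change vA _ (chi K H') = chi K _ * vS _ _ _ + chi K _ * vS _ _ _ at e
      rw [hH, (vA_der _).const_mul (vA_c _ _), vA_apply, eH, main, main] at e
      rw [map_mul, map_pow, chi_X, hg, vS, map_add, map_mul, map_mul]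
      linear_combination -ν * e - (chi K (M 0 + X ^ j * y 0) * chi K (cw (pd k 0) H') +
        chi K (M 1 + X ^ j * y 1) * chi K (cw (pd k 1) H')) * mn
    · rw [ci, hg, map_mul cc, map_mul cc, constantCoeff_C, cν, ← map_mul]
      exact low_hom z0 (mul_ne_zero (mul_ne_zero (pow_ne_zero _ z0)
        (pow_ne_zero _ (inv_ne_zero z0))) (pow_ne_zero _ (inv_ne_zero z0))) hf lo
  · rw [ew, pow_succ, add_sub_add_left_eq_sub, ← mul_sub, ← mul_sub]
    refine mul_dvd_mul_left _ (X_dvd_iff.2 ?_)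
    have e : ζ ^ 2 * ζ⁻¹ ^ d * ζ⁻¹ = ζ * ζ⁻¹ ^ d := by field_simp
    change cc _ = 0
    rw [map_sub, map_sub, constantCoeff_C, ci (y i), hy, map_mul, cν]
    fin_cases i <;>
      simp only [vS, vfS, dif, mapF, cc_cw, map_add, map_mul, cK, constantCoeff_C, pd_apply,
        PC3.cc_iS, MvPolynomial.pderiv_C_mul, MvPolynomial.pderiv_X, Fin.zero_eta, Fin.mk_one,
        Matrix.cons_val_zero, Matrix.cons_val_one, Pi.single_eq_same, hom_C, ← e,
        Pi.single_eq_of_ne (zero_ne_one (α := Fin 2)), Pi.single_eq_of_ne (one_ne_zero (α := Fin 2)),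
        map_one, map_zero] <;>
      ring

end Pool.Agent.MP_05b4bd_ag.RV
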