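import Pool.Agent.MP_05b4bd_ag.rr.Bas

/-! Formal Taylor maps of two commuting derivations. -/

namespace Pool.Agent.MP_05b4bd_ag.RV

open PowerSeries LaurentSeries HC
open ES hiding Gen Ob Inf
open ES.U (TM Cr hom)
open PC3 (Fm fm d1 DF sub2 pb mapF Van CenK iS)

namespace TayR

theorem key {R S : Type} [CommRing R] [CommRing S] (G : R⟦X⟧ → S⟦X⟧) (n : ℕ)
    (h1 : ∀ r a, G (C r + X * a) = G (C r) + X * G a) (h2 : ∀ r, X ^ n ∣ G (C r)) (u : R⟦X⟧) :
    X ^ n ∣ G u := by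
  have k : ∀ m : ℕ, ∃ v, X ^ n ∣ G u - X ^ m * G v := fun m => by
    induction m with
    | zero => exact ⟨u, by simp⟩
    | succ m ih =>
      obtain ⟨v, hv⟩ := ih
      obtain ⟨g, hg⟩ := eq_C_add_X_mul v
      refine ⟨g, ?_⟩
      have e : G u - X ^ (m + 1) * G g = G u - X ^ m * G v + X ^ m * G (C (cc v)) := by
        conv_rhs => rw [hg, h1, ← hg]
        ring
      rw [e]
      exact hv.add ((h2 _).mul_left _)
  obtain ⟨v, hv⟩ := k n
  exact (dvd_sub_left (dvd_mul_right _ _)).1 hv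

theorem key0 {R S : Type} [CommRing R] [CommRing S] (G G' : R⟦X⟧ → S⟦X⟧)
    (h1 : ∀ r a, G (C r + X * a) = G (C r) + X * G a)
    (h1' : ∀ r a, G' (C r + X * a) = G' (C r) + X * G' a) (h2 : ∀ r, G (C r) = G' (C r))
    (u : R⟦X⟧) : G u = G' u := by
  refine sub_eq_zero.1 (PowerSeries.ext fun n => X_pow_dvd_iff.1
    (key (fun u => G u - G' u) (n + 1) (fun r a => ?_) (fun r => ?_) u) n n.lt_succ_self)
  · rw [h1, h1']
    ring
  · rw [h2, sub_self]
    exact dvd_zero _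

variable {E : Type} [CommRing E] {d : Fin 2 → E →+ E} {δ δ' : Fin 2 → E⟦X⟧} {φ φ' : E →+* E⟦X⟧}

theorem cwX (L : E →+ E) (a : E⟦X⟧) : cw L (X * a) = X * cw L a := by
  simpa using cw_X_pow_mul L 1 a

theorem dvd_dX {f : E⟦X⟧} {n : ℕ} (h : X ^ (n + 1) ∣ f) : X ^ n ∣ dX E f := by
  rw [X_pow_dvd_iff] at h ⊢
  intro m hm
  rw [coeff_dX, h _ (by omega), zero_mul]

theorem in_mul {S : Subring E} {a b : E⟦X⟧} {n : ℕ} (h : ∀ i ≤ n, coeff i a ∈ S) (h' : In S b) :
    coeff n (a * b) ∈ S := by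
  rw [coeff_mul]
  exact sum_mem fun p hp => mul_mem
    (h _ (by have := Finset.HasAntidiagonal.mem_antidiagonal.1 hp; omega)) (h' _)

variable [Algebra ℚ E]

theorem ex (H : Cm d) (h : ∀ i, cc (δ i) = 0) : ∃ φ, Tay d δ φ := by
  obtain ⟨τ, a0, a1, -⟩ := exists_tayl (H.der 0) (RingHom.id E)
  obtain ⟨σ, b0, b1, b2⟩ := exists_tayl (H.der 1) τ
  have m := fun i => K3.mem_JX' (h i)
  have e : ∀ u, cw (dX E) (σ u) = σ (d 0 u) := fun u => PowerSeries.ext fun n => by
    rw [coeff_cw, b2, b2, isDer_dX.const_mul (isDer_dX.rat _), a1,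
      (Function.Commute.iterate_right (f := d 0) (g := d 1) H.comm n).eq]
  refine ⟨(ev2 C (δ 0) (δ 1)).comp σ, h, fun u => ?_, fun u => ?_⟩
  · obtain ⟨r, r', k⟩ := ev2_sub_c00 _ (φ := C) (m 0) (m 1) (σ u)
    rw [RingHom.comp_apply, k, c00_apply, b0, a0]
    simp [h]
  · have k := hom_chain2' (K3.JX E) (g := ev2 C (δ 0) (δ 1))
      (by rw [ev2_CX _ (m 0) (m 1)]; exact m 0)
      (by rw [ev2_X _ (m 1)]; exact m 1) isDer_dX
      (fun r => by rw [ev2_CC _ (m 0) (m 1), dX_C]) (σ u)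
    rwa [ev2_CX _ (m 0) (m 1), ev2_X _ (m 1), e, b1] at k

theorem near (T : Tay d δ φ) (T' : Tay d δ' φ') {n : ℕ} (h : ∀ i, X ^ n ∣ δ i - δ' i) (u : E) :
    X ^ n ∣ φ u - φ' u := by
  induction n generalizing u with
  | zero => simp
  | succ n ih =>
    have ih := ih fun i => (pow_dvd_pow _ n.le_succ).trans (h i)
    refine X_pow_dvd_of_dX (by rw [map_sub, T.red, T'.red, sub_self]) ?_
    have := (((ih (d 0 u)).mul_right (dX E (δ 0))).add ((ih (d 1 u)).mul_right (dX E (δ 1)))).add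
      (((dvd_dX (h 0)).mul_left (φ' (d 0 u))).add ((dvd_dX (h 1)).mul_left (φ' (d 1 u))))
    simp only [map_sub, T.dt, T'.dt] at this ⊢
    exact this.trans (dvd_of_eq (by ring))

theorem lin (T : Tay d δ φ) {m : ℕ} (h : ∀ i, X ^ m ∣ δ i) (u : E) :
    X ^ (m + 1) ∣ φ u - C u - (δ 0 * C (d 0 u) + δ 1 * C (d 1 u)) := by
  refine X_pow_dvd_of_dX (by simp [T.red, T.c0]) ?_
  rcases m with _ | m
  · simp
  have k : ∀ v, X ∣ φ v - C v := fun v => X_dvd_iff.2 (by simp [T.red])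
  have := (mul_dvd_mul (dvd_dX (h 0)) (k (d 0 u))).add (mul_dvd_mul (dvd_dX (h 1)) (k (d 1 u)))
  rw [map_sub, map_sub, map_add, isDer_dX, isDer_dX, T.dt, dX_C, dX_C, dX_C, pow_succ]
  exact this.trans (dvd_of_eq (by ring))

theorem aff (T : Tay d δ φ) (u : E) (h : ∀ i l, d i (d l u) = 0) :
    φ u = C u + C (d 0 u) * δ 0 + C (d 1 u) * δ 1 := by
  have k : ∀ l, φ (d l u) = C (d l u) := fun l => by
    rw [eq_C_of_dX (f := φ (d l u)) (by simp [T.dt, h]), T.red]
  have := eq_C_of_dX (f := φ u - (C u + C (d 0 u) * δ 0 + C (d 1 u) * δ 1)) (by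
    rw [map_sub, map_add, map_add, isDer_dX, isDer_dX, T.dt, k, k, dX_C, dX_C, dX_C]
    ring)
  simpa [T.red, T.c0, sub_eq_zero] using this

theorem chain (H : Cm d) (T : Tay d δ φ) {L : E →+ E} (hL : IsDer L)
    (h : ∀ i u, L (d i u) = d i (L u)) (u : E) :
    cw L (φ u) = φ (L u) + φ (d 0 u) * cw L (δ 0) + φ (d 1 u) * cw L (δ 1) := by
  refine sub_eq_zero.1 (K3.ode (fun u => cw L (φ u) -
    (φ (L u) + φ (d 0 u) * cw L (δ 0) + φ (d 1 u) * cw L (δ 1))) (fun u => ?_) (fun n k u => ?_) u)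
  · simp [cc_cw, T.red, T.c0]
  · refine (((k (d 0 u)).mul_right (dX E (δ 0))).add ((k (d 1 u)).mul_right (dX E (δ 1)))).trans
      (dvd_of_eq ?_)
    rw [map_sub, map_add, map_add, isDer_dX, isDer_dX, dX_cw, dX_cw, dX_cw, T.dt, T.dt, T.dt, T.dt,
      map_add, hL.coefw, hL.coefw, h, h, H.comm]
    ring

theorem mem (T : Tay d δ φ) {S : Subring E} (hq : ∀ q : ℚ, algebraMap ℚ E q ∈ S)
    (hd : ∀ i, ∀ u ∈ S, d i u ∈ S) (h : ∀ i, In S (δ i)) (n : ℕ) :
    ∀ u ∈ S, coeff n (φ u) ∈ S := by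
  have k : ∀ i, In S (dX E (δ i)) := fun i n => by
    rw [coeff_dX]
    exact mul_mem (h i _) (add_mem (natCast_mem S n) (one_mem S))
  induction n using Nat.strong_induction_on with
  | _ n ih =>
    intro u hu
    rcases n with _ | n
    · rwa [coeff_zero_eq_constantCoeff_apply, T.red]
    have e : coeff (n + 1) (φ u) = algebraMap ℚ E ((n : ℚ) + 1)⁻¹ * coeff n (dX E (φ u)) := by
      rw [coeff_dX, mul_left_comm, inv_succ_mul, mul_one]
    rw [e, T.dt, map_add]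
    exact mul_mem (hq _) (add_mem (in_mul (fun i hi => ih i (by omega) _ (hd _ _ hu)) (k 0))
      (in_mul (fun i hi => ih i (by omega) _ (hd _ _ hu)) (k 1)))

omit [Algebra ℚ E] in
theorem nat (T : Tay d δ φ) {E' : Type} [CommRing E'] [Algebra ℚ E'] {d' : Fin 2 → E' →+ E'}
    {j : E →+* E'} {ψ : E' →+* E'⟦X⟧} (h : ∀ i u, d' i (j u) = j (d i u))
    (T' : Tay d' (fun i => map j (δ i)) ψ) (u : E) : ψ (j u) = map j (φ u) := by
  refine sub_eq_zero.1 (K3.ode (fun u => ψ (j u) - map j (φ u)) (fun u => ?_) (fun n k u => ?_) u)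
  · rw [map_sub, T'.red, K3.cc_map, T.red, sub_self]
  · refine (((k (d 0 u)).mul_right (map j (dX E (δ 0)))).add
      ((k (d 1 u)).mul_right (map j (dX E (δ 1))))).trans (dvd_of_eq ?_)
    rw [map_sub, T'.dt, dX_map, dX_map, dX_map, T.dt, h, h, map_add, map_mul, map_mul]
    ring

end TayR

open TayR

theorem tayS : TayStmt := by
  intro E _ _ d H
  refine ⟨fun δ => TayR.ex H, fun δ δ' φ φ' n T T' h => key _ n (fun r a => ?_) fun r => ?_,
    fun δ φ T => ⟨fun m h => key _ (m + 1) (fun r a => ?_) fun r => ?_, aff T,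
      fun L hL h => key0 _ _ (fun r a => ?_) (fun r a => ?_) fun r => ?_,
      fun S hq hd h u hu n => ?_,
      bij_of_dvd X (hat φ).toAddMonoidHom (fun c => ?_) fun c => X_dvd_iff.2 ?_,
      fun E' _ _ d' j ψ h T' => key0 _ _ (fun r a => ?_) (fun r a => ?_) fun r => ?_⟩⟩
  · simp only [map_add, map_mul, hat_X]
    ring
  · rw [hat_C, hat_C]
    exact near T T' h r
  · simp only [vS, map_add, map_mul, hat_X, cwX]
    ring
  · rw [hat_C, vS, cw_C, cw_C]
    exact lin T h r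
  · simp only [map_add, map_mul, hat_X, cwX]
  · simp only [map_add, map_mul, hat_X, cwX]
    ring
  · simp only [cw_C, hat_C]
    exact chain H T hL h r
  · induction n generalizing u with
    | zero =>
      rw [coeff_zero_eq_constantCoeff_apply, cc_hat, T.red, ← coeff_zero_eq_constantCoeff_apply]
      exact hu 0
    | succ n ih =>
      rw [K1b.split_X u, map_add, map_mul, hat_C, hat_X, map_add, coeff_succ_X_mul]
      refine add_mem (mem T hq hd h _ _ ?_) (ih _ fun p => ?_)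
      · rw [← coeff_zero_eq_constantCoeff_apply]
        exact hu 0
      · rw [coeff_mk]
        exact hu _
  · change hat φ (X * c) = X * hat φ c
    rw [map_mul, hat_X]
  · change cc (hat φ c - c) = 0
    rw [map_sub, cc_hat, T.red, sub_self]
  · simp only [map_add, map_mul, map_X, hat_X]
  · simp only [map_add, map_mul, map_X, hat_X]
  · rw [map_C, hat_C, hat_C]
    exact nat T h T' r

end Pool.Agent.MP_05b4bd_ag.RV
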