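import Pool.Agent.MP_05b4bd_ag.rr.Bas

/-! The Taylor expansion of a displacement evaluates polynomials at the displaced point. -/

namespace Pool.Agent.MP_05b4bd_ag.RV

open PowerSeries LaurentSeries HC
open ES hiding Gen Ob Inf

theorem taydS (h : TayStmt) : TaydStmt := by
  intro k E _ _ _ e d ξ φ hD hT
  let _ : Algebra ℚ E := ((e.comp MvPolynomial.C).comp (algebraMap ℚ k)).toAlgebra
  obtain ⟨-, -, h3⟩ := h E d hD.toCm
  obtain ⟨-, hb, hc, -⟩ := h3 _ φ hT
  have dC : ∀ i c, d i (e (MvPolynomial.C c)) = 0 := fun i c => by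
    rw [hD.ext, MvPolynomial.pderiv_C, map_zero]
  have d1 : ∀ i, d i 1 = 0 := fun i => by simpa using dC i 1
  have dx : ∀ i l, d i (e (MvPolynomial.X l)) = if l = i then 1 else 0 := fun i l => by
    rw [hD.ext, MvPolynomial.pderiv_X, Pi.single_apply]
    split_ifs <;> simp
  have ddx : ∀ j i l, d i (d l (e (MvPolynomial.X j))) = 0 := fun j i l => by
    rw [dx]
    split_ifs
    exacts [d1 i, map_zero _]
  refine ⟨fun u => ?_, fun B u => ?_⟩
  · have e1 : φ.comp e =
        MvPolynomial.eval₂Hom ((C : E →+* E⟦X⟧).comp (e.comp MvPolynomial.C)) ξ := by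
      refine MvPolynomial.ringHom_ext (fun c => ?_) fun j => ?_
      · rw [RingHom.comp_apply, hb _ fun i l => by rw [dC, map_zero], dC, dC]
        simp
      · rw [RingHom.comp_apply, hb _ (ddx j), dx, dx]
        fin_cases j <;> simp
    have e2 : ((hat φ).comp (map e)) X = X := by rw [RingHom.comp_apply, map_X, hat_X]
    refine RingHom.congr_fun (homExt (K3.JX E) (g := (hat φ).comp (map e)) (g' := evS e ξ)
      (fun r => ?_) (e2.trans (hat_X _).symm) (by rw [e2]; exact K3.mem_JX dvd_rfl)) u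
    rw [RingHom.comp_apply, map_C, hat_C, evS, hat_C, ← e1, RingHom.comp_apply]
  · have cm : ∀ l i u, d l (d i u) = d i (d l u) := fun l i u => by
      fin_cases l <;> fin_cases i
      exacts [rfl, hD.comm u, (hD.comm u).symm, rfl]
    have k0 := hc (d 0) (hD.der 0) (cm 0) u
    have k1 := hc (d 1) (hD.der 1) (cm 1) u
    simp only [map_sub, cw_C, dx] at k0 k1
    simp only [vS]
    rw [k0, k1]
    simp
    ring

end Pool.Agent.MP_05b4bd_ag.RV
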