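import Pool.Agent.MP_05b4bd_ag.rr.Bas

/-! The deck transformation composed with the symmetry of the model is a radial dilation. -/

namespace Pool.Agent.MP_05b4bd_ag.RV

open PowerSeries LaurentSeries HC
open ES hiding Gen Ob Inf
open ES.U (TM Cr hom)
open PC3 (Fm fm d1 DF sub2 pb mapF Van CenK iS)

namespace Theta

theorem pow_exp {S : Type} [CommRing S] (y : S) (n : ℕ) :
    ∃ q, (1 + y) ^ n = 1 + n * y + y ^ 2 * q := by
  induction n with
  | zero => exact ⟨0, by simp⟩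
  | succ n ih =>
    obtain ⟨q, hq⟩ := ih
    exact ⟨n + q + y * q, by rw [pow_succ, hq]; push_cast; ring⟩

/-- The expansion modulo `X ^ (i + 1)`. -/
theorem expand {F : Type} [CommRing F] {α β i : ℕ} {θ A l : F⟦X⟧} {z : F} (hi : 1 ≤ i)
    (hθ : X ^ i ∣ θ - 1) (hl : X ∣ l)
    (e : θ ^ (α + β) * A = C z ^ α * (C z + θ * l) ^ β) :
    X ^ i ∣ A - C z ^ α * (C z + l) ^ β ∧
      coeff i (A - C z ^ α * (C z + l) ^ β) = -(((α + β : ℕ) : F) * z ^ (α + β) * coeff i θ) := by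
  obtain ⟨j, rfl⟩ : ∃ j, i = j + 1 := ⟨i - 1, by omega⟩
  obtain ⟨t, ht⟩ := hθ
  obtain ⟨m, rfl⟩ := hl
  obtain rfl : θ = 1 + X ^ (j + 1) * t := by rw [← ht]; ring
  obtain ⟨q, hq⟩ := pow_exp (X ^ (j + 1) * t) (α + β)
  obtain ⟨u, hu⟩ := sub_dvd_pow_sub_pow (C z + (1 + X ^ (j + 1) * t) * (X * m)) (C z + X * m) β
  have h1 : A - C z ^ α * (C z + X * m) ^ β = X ^ (j + 1) *
      (X * (C z ^ α * t * m * u - X ^ j * t ^ 2 * q * A) - ((α + β : ℕ) : F⟦X⟧) * t * A) := by
    rw [hq] at e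
    linear_combination e + C z ^ α * hu
  have h2 : cc A = z ^ (α + β) := by
    have := congrArg cc h1
    simp only [map_sub, map_mul, map_pow, map_add, constantCoeff_X, constantCoeff_C, zero_mul,
      add_zero, pow_succ, mul_zero] at this
    rw [pow_add, sub_eq_zero.1 this]
  refine ⟨⟨_, h1⟩, ?_⟩
  have c1 : ∀ g : F⟦X⟧, coeff (j + 1) (X ^ (j + 1) * g) = cc g := fun g => by
    have := coeff_X_pow_mul g (j + 1) 0
    rwa [zero_add, coeff_zero_eq_constantCoeff_apply] at this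
  rw [h1, c1, map_add, c1, coeff_one, if_neg (Nat.succ_ne_zero j), zero_add]
  simp only [map_sub, map_mul, constantCoeff_X, zero_mul, map_natCast]
  rw [h2]
  ring

variable {k L : Type} [Field k] [CharZero k] [Field L] {d n : ℕ} (R : Rd k d n L)

theorem z_ne : coeL L R.z ≠ 0 := fun h => by
  have h0 : R.z = 0 := coeL_inj (h.trans (map_zero _).symm)
  have := R.pz
  rw [h0, zero_mul] at this
  exact X_ne_zero this.symm

theorem zeta_ne : R.ζ ≠ 0 := R.prim.ne_zero (by have := R.adm.1; omega)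

theorem rot_z : rescale (R.κ R.ζ⁻¹) R.z = C (R.κ R.ζ⁻¹) * R.z := by
  have h1 : rescale (R.κ R.ζ⁻¹) R.p = R.p := by
    conv_lhs => rw [← R.rot]
    rw [rescale_rescale, ← map_mul, mul_inv_cancel₀ (zeta_ne R), map_one, rescale_one,
      RingHom.id_apply]
  have h2 : R.p ≠ 0 := fun h => by simpa [h] using R.p0
  have h3 := congrArg (rescale (R.κ R.ζ⁻¹)) R.pz
  rw [map_mul, h1, rescale_X, ← R.pz, ← mul_assoc] at h3
  exact mul_right_cancel₀ h2 h3

theorem E_X (i : Fin 2) : R.E (MvPolynomial.X i) * coeL L R.z = cL L (![R.xb, R.yb] i) := by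
  have h : ∀ x : L, coeL L (R.p * C x) * wL L (-1) * coeL L R.z = cL L x := fun x => by
    have e := congrArg (coeL L) R.pz
    rw [map_mul, coeL_X] at e
    rw [map_mul, coeL_C]
    linear_combination (cL L x * wL L (-1)) * e + cL L x * wL_mul_neg (R := L) 1
  fin_cases i
  · simpa [Rd.E, EL, evp] using h R.xb
  · simpa [Rd.E, EL, evp] using h R.yb

theorem E_C (c : k) : R.E (MvPolynomial.C c) = cL L (R.κ c) := by simp [Rd.E, EL, evp]

theorem E_l (l0 l1 : k⟦X⟧) :
    map R.E (iS k (HC.lf l0 l1)) * C (coeL L R.z) = iT (C (R.l l0 l1)) := by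
  have h : ∀ l : k⟦X⟧, map R.E (map MvPolynomial.C l) = map (cL L) (map R.κ l) := fun l => by
    ext1 j
    simp only [coeff_map, E_C]
  have e0 := congrArg (C : L⸨X⸩ →+* TT L) (E_X R 0)
  have e1 := congrArg (C : L⸨X⸩ →+* TT L) (E_X R 1)
  simp only [map_mul, Matrix.cons_val_zero, Matrix.cons_val_one] at e0 e1
  simp only [iT_C, Rd.l, HC.lf, map_add, map_mul, PC3.iS_C, PC3.iS_X, map_C, h]
  linear_combination map (cL L) (map R.κ l0) * e0 + map (cL L) (map R.κ l1) * e1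

end Theta

open Theta in
theorem thetaS : ThetaStmt := by
  intro k L _ _ _ d n R α β vb ρ Φ φ l0 l1 K hn H h0 h1 hK hE
  subst hn
  have : CharZero L⸨X⸩ :=
    (RingHom.charZero_iff ((cL L).comp R.κ).injective).1 inferInstance
  have s0 : cc (C (R.κ R.ζ⁻¹) * X) = 0 := by simp
  have pC : ∀ r, Φ (CC r) = C (cL L r) := fun r => by
    rw [H.out.map_CC, RingHom.comp_apply, sb_C s0, coeL_C]
  have pX : Φ (C X) = X := by simpa using H.out.2
  have pT : ∀ c, Φ (C c) = iT (C c) := fun c =>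
    RingHom.congr_fun (homExt (K3.JX L⸨X⸩) (g := Φ.comp C) (g' := iT.comp C)
      (fun r => (pC r).trans (iT_CC r).symm) (pX.trans iT_CX.symm)
      (by rw [RingHom.comp_apply, pX]; exact K3.mem_JX dvd_rfl)) c
  have fc : ∀ c, φ (coeL L c) = Φ (map C c) := fun c => by rw [← H.ext, iT_mapC, hat_C]
  have fC : ∀ r, φ (cL L r) = C (cL L r) := fun r => by
    rw [← coeL_C, fc, map_C, coeL_C]
    exact pC r
  set Z := Φ (map C R.z) with hZ
  have cZ : cc Z = cL L (R.κ R.ζ⁻¹) * coeL L R.z := by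
    rw [hZ, H.out.ccC, RingHom.comp_apply, ← rescale_eq_sb, rot_z, map_mul, coeL_C]
  have nZ : cc Z ≠ 0 := by
    rw [cZ]
    exact mul_ne_zero ((map_ne_zero _).2 ((map_ne_zero _).2 (inv_ne_zero (zeta_ne R)))) (z_ne R)
  have uZ : IsUnit Z := isUnit_iff_constantCoeff.2 nZ.isUnit
  obtain ⟨V, hV⟩ := uZ.exists_right_inv
  set Kh := hat φ (map R.E K) with hKh
  have cK : cc Kh = cL L (R.κ R.ζ⁻¹) := by
    obtain ⟨K', e⟩ : X ∣ K - C (cc K) := X_dvd_iff.2 (by simp)
    rw [hK, sub_eq_iff_eq_add] at e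
    rw [hKh, e]
    simp only [map_add, map_mul, map_X, map_C, hat_X, hat_C, E_C, fC, constantCoeff_X,
      constantCoeff_C, zero_mul, zero_add]
  obtain ⟨θ, hθ⟩ : ∃ θ, θ * Z = Kh * C (coeL L R.z) :=
    ⟨Kh * C (coeL L R.z) * V, by linear_combination Kh * C (coeL L R.z) * hV⟩
  refine ⟨θ, ?_, fun i => ?_, fun i hi hd => ?_⟩
  · have := congrArg cc hθ
    rw [map_mul, map_mul, cK, constantCoeff_C, ← cZ] at this
    exact mul_right_cancel₀ nZ (this.trans (one_mul _).symm)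
  · have e := congrArg φ (E_X R i)
    rw [map_mul, fc, fC, ← hZ, ← E_X R i, map_mul] at e
    rw [map_mul, map_mul, map_C, hat_C, ← hKh]
    refine uZ.mul_right_cancel ?_
    linear_combination Kh * e - C (R.E (MvPolynomial.X i)) * hθ
  · set lb := iT (C (R.l l0 l1)) with hlb
    set e := hat φ (map R.E (iS k (HC.lf l0 l1))) with he
    have eZ : e * Z = lb := by
      have := congrArg (hat φ) (E_l R l0 l1)
      rwa [map_mul, hat_C, fc, H.ext, pT] at this
    have xl : X ∣ lb := by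
      obtain ⟨m0, e0⟩ := X_dvd_iff.2 h0
      obtain ⟨m1, e1⟩ := X_dvd_iff.2 h1
      rw [hlb, iT_C, Rd.l, e0, e1]
      simp only [map_add, map_mul, map_X, mul_assoc]
      exact (dvd_mul_right _ _).add (dvd_mul_right _ _)
    have hE' := congrArg ((hat φ).comp (map R.E)) hE
    simp only [RingHom.comp_apply, map_mul, map_pow, map_add, map_one, ← hKh, ← he] at hE'
    have a1 : Φ (R.ρ α β l0 l1) = Z ^ α * (Z + lb) ^ β := by
      simp only [Rd.ρ, map_mul, map_pow, map_add, pT, ← hZ, ← hlb]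
    have a2 : iT (R.ρ α β l0 l1) = C (coeL L R.z) ^ α * (C (coeL L R.z) + lb) ^ β := by
      simp only [Rd.ρ, map_mul, map_pow, map_add, iT_mapC, ← hlb]
    rw [a2]
    refine expand hi hd xl ?_
    have b1 : Z + lb = Z * (1 + e) := by rw [← eZ]; ring
    have b2 : C (coeL L R.z) + θ * lb = C (coeL L R.z) * (1 + Kh * e) := by
      rw [← eZ]
      linear_combination e * hθ
    rw [a1, b1, b2, mul_pow, mul_pow, ← hE', ← mul_assoc (Z ^ α), ← pow_add, ← mul_assoc,
      ← mul_pow, hθ, mul_pow]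
    ring

end Pool.Agent.MP_05b4bd_ag.RV
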