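import Pool.Agent.MP_05b4bd_ag.rr.Spec2

/-! From the neighbourhood of infinity to the generic fibre. -/

namespace Pool.Agent.MP_05b4bd_ag.RV

open PowerSeries LaurentSeries HC
open ES hiding Gen Ob Inf
open ES.U (TM Cr hom)
open PC3 (Fm fm d1 DF sub2 pb mapF Van CenK iS)

namespace Tor1

section Ham
variable {k E : Type} [Field k] [CommRing E] {e : R2 k →+* E} {d : Fin 2 → E →+ E}

theorem D0_mul (h : D2 e d) (f : R2 k) (u v : E) :
    D0 e d f (u * v) = D0 e d f u * v + u * D0 e d f v := by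
  simp only [D0, h.der 0 u v, h.der 1 u v]
  ring

theorem D0_e (h : D2 e d) (f v : R2 k) : D0 e d f (e v) = e (br v f) := by
  simp only [D0, h.ext, br, map_sub, map_mul]
  ring

theorem br_pol (f : R2 k) (q : Polynomial k) : br (Polynomial.aeval f q) f = 0 := by
  simp only [br, Derivation.map_aeval, smul_eq_mul]
  ring

theorem D0_pol (h : D2 e d) (f : R2 k) (q : Polynomial k) (u : E) :
    D0 e d f (e (Polynomial.aeval f q) * u) = e (Polynomial.aeval f q) * D0 e d f u := by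
  rw [D0_mul h, D0_e h, br_pol, map_zero, zero_mul, zero_add]

end Ham

variable {k : Type} [Field k]

/-- The ring of fractions whose denominator is a polynomial in `f`. -/
def sH (f : R2 k) : Subring (FF k) where
  carrier := {z | InH f z}
  zero_mem' := ⟨1, 0, one_ne_zero, by simp⟩
  one_mem' := ⟨1, 1, one_ne_zero, by simp⟩
  add_mem' := by
    rintro a b ⟨q, u, h1, h2⟩ ⟨q', u', h1', h2'⟩
    refine ⟨q * q', u * Polynomial.aeval f q' + u' * Polynomial.aeval f q, mul_ne_zero h1 h1', ?_⟩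
    simp only [map_add, map_mul, ← h2, ← h2']
    ring
  mul_mem' := by
    rintro a b ⟨q, u, h1, h2⟩ ⟨q', u', h1', h2'⟩
    refine ⟨q * q', u * u', mul_ne_zero h1 h1', ?_⟩
    simp only [map_mul, ← h2, ← h2']
    ring
  neg_mem' := by
    rintro a ⟨q, u, h1, h2⟩
    exact ⟨q, -u, h1, by rw [map_neg, ← h2, mul_neg]⟩

theorem st {dF : Fin 2 → FF k →+ FF k} (h : D2 (eF k) dF) (f : R2 k) (i : Fin 2) (z : FF k)
    (hz : z ∈ sH f) : dF i z ∈ sH f := by
  obtain ⟨q, u, h1, h2⟩ := hz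
  have h3 := congrArg (dF i) h2
  rw [h.der i, h.ext, h.ext] at h3
  refine ⟨q * q, Polynomial.aeval f q * MvPolynomial.pderiv i u -
    MvPolynomial.pderiv i (Polynomial.aeval f q) * u, mul_ne_zero h1 h1, ?_⟩
  rw [map_sub, map_mul, map_mul, map_mul, map_mul, ← h3, ← h2]
  ring

theorem frac {f : R2 k} {q : Polynomial k} (h : q ≠ 0) (h' : eF k (Polynomial.aeval f q) ≠ 0)
    (u : R2 k) : eF k u / eF k (Polynomial.aeval f q) ∈ sH f :=
  ⟨q, u, h, mul_div_cancel₀ _ h'⟩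

theorem el_pol {L : Type} [Field L] (κ : k →+* L) (x0 y0 : L⟦X⟧) {d : ℕ} {f : R2 k}
    (fr : EL κ x0 y0 f = wL L (-(d : ℤ))) (q : Polynomial k) :
    EL κ x0 y0 (Polynomial.aeval f q) = mapL κ (UM.ae (UM.hW k d) q) := by
  induction q using Polynomial.induction_on with
  | C a =>
    rw [Polynomial.aeval_C, UM.ae_C, mapL_cL]
    exact MvPolynomial.eval₂Hom_C _ _ a
  | add a b ha hb => simp only [map_add, ha, hb]
  | monomial m a h =>
    rw [pow_succ, ← mul_assoc, map_mul, map_mul, h, Polynomial.aeval_X, fr,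
      map_mul _ _ Polynomial.X, UM.ae_X, map_mul (mapL κ), mapL_wL]

theorem jac_pol {f : R2 k} {n : ℕ} {p : Fin n → Fin 2 → k} (h : Cr f p) :
    ∃ (q : Polynomial k) (a b : R2 k), q ≠ 0 ∧
      a * MvPolynomial.pderiv 0 f + b * MvPolynomial.pderiv 1 f = Polynomial.aeval f q := by
  obtain ⟨a, b, e⟩ := Ideal.mem_span_pair.1 (h.rad (Polynomial.aeval f
    (∏ i, (Polynomial.X - Polynomial.C (MvPolynomial.eval (p i) f)))) fun i => by
      rw [map_prod, map_prod]
      exact Finset.prod_eq_zero (Finset.mem_univ i) (by simp))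
  exact ⟨_, a, b, Finset.prod_ne_zero_iff.2 fun i _ => Polynomial.X_sub_C_ne_zero _, e⟩

end Tor1

open Tor1 in
theorem tor1S (h1 : PkgStmt) (h2 : CrdStmt) (h3 : WrStmt) (h4 : UM.CbStmt) (h5 : UM.PilStmt) :
    Tor1Stmt := by
  intro k L _ _ _ _ κ D d f x0 y0 d3 gen cv gb fr cst
  obtain ⟨n, p, G, _, _, B, π, m, e, P, lam, l, hCr, hP, hTD, -, l1, l2, l3⟩ :=
    h1 k L κ D d f x0 y0 d3 gen cv gb fr
  obtain ⟨dF, j, d', ϱ, t1, hj, t2, nat, e1, e2, -, r1, r2, r3⟩ :=
    h2 k L κ D d f x0 y0 d3 gen cv gb fr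
  have je : ∀ u, j (eF k u) = EL κ x0 y0 u := fun u => RingHom.congr_fun hj u
  have n1 : ∀ q, UM.ae (UM.hW k d) q ≠ 0 → eF k (Polynomial.aeval f q) ≠ 0 := fun q hq z =>
    hq (mapL_inj κ.injective (by rw [← el_pol κ x0 y0 fr, ← je, z, map_zero, map_zero]))
  have n2 : ∀ q, q ≠ 0 → eF k (Polynomial.aeval f q) ≠ 0 := fun q hq =>
    n1 q (UM.ah_ne (by omega) hq)
  have l0 : ∀ i u, cwL (l i) (cwL D u) = 0 := fun i u => by
    ext t
    exact l2 i _
  obtain ⟨q0, a0, b0, hq0, hab⟩ := jac_pol hCr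
  have one : eF k a0 / eF k (Polynomial.aeval f q0) * eF k (MvPolynomial.pderiv 0 f) +
      eF k b0 / eF k (Polynomial.aeval f q0) * eF k (MvPolynomial.pderiv 1 f) = 1 := by
    rw [div_mul_eq_mul_div, div_mul_eq_mul_div, ← add_div, ← map_mul, ← map_mul, ← map_add, hab,
      div_self (n2 q0 hq0)]
  refine ⟨dF, sH f, j, d', ![eF k a0 / eF k (Polynomial.aeval f q0),
    eF k b0 / eF k (Polynomial.aeval f q0)], fun _ => Iff.rfl, hj, e1, e2, fun a b dg g0 =>
    ⟨t1, hj ▸ t2, j.injective, nat, fun u => ⟨1, u, one_ne_zero, by simp⟩, st t1 f, fun i => ?_,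
      one, ?_, ?_⟩⟩
  · fin_cases i <;> exact frac hq0 (n2 q0 hq0) _
  · rintro z ⟨q, w, hq, hw⟩ u hu
    rw [hj] at hu
    have k1 : π w = 0 := (h5 k G (Fin m) n d B P e hTD).2 0 _ fun t _ => ⟨0, funext fun i => by
      rw [UM.cv, l3, r2, ← je, ← hw, map_mul j, je, hu, ← D0_pol t2, ← r1, l0]
      simp⟩
    obtain ⟨v, hv⟩ := (hP.ker w).1 k1
    refine ⟨_, frac hq (n2 q hq) v, mul_left_cancel₀ (n2 q hq) ?_⟩
    rw [← D0_pol t1, mul_div_cancel₀ _ (n2 q hq), D0_e t1, hw, hv]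
  · rintro c u z ⟨q, w, hq, hw⟩ hc hu
    rw [hj] at hc hu
    have c0 : cwL D c = 0 := by rw [r1, hc, mul_zero]
    obtain ⟨c', rfl⟩ := exists_mapL κ.injective (f := c) fun t =>
      cst _ (by rw [← coeff_cwL, c0]; rfl)
    have o1 := congrArg j one
    rw [map_add, map_mul, map_mul, je, je, map_one] at o1
    have o2 := congrArg j hw
    rw [map_mul, je, je] at o2
    have o3 := D0_pol t2 f q u
    have o4 := r1 (EL κ x0 y0 (Polynomial.aeval f q) * u)
    simp only [Matrix.cons_val_zero, Matrix.cons_val_one, r3 _ c0, UM.Inv.dh_mapL, je] at hu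
    have k1 : mapL κ (UM.ae (UM.hW k d) q * c') * GLc κ d D x0 y0
        (MvPolynomial.pderiv 0 a + MvPolynomial.pderiv 1 b) -
        mapL κ (UM.ae (UM.hW k d) q * UM.dK k d c') * GLc κ d D x0 y0
          (a * MvPolynomial.pderiv 0 f + b * MvPolynomial.pderiv 1 f) =
        GLc κ d D x0 y0 w + cwL D (EL κ x0 y0 (Polynomial.aeval f q) * u) := by
      rw [o4, o3, r2, r2, r2, ← o2, map_mul (mapL κ), map_mul (mapL κ), ← el_pol κ x0 y0 fr]
      linear_combination ϱ * EL κ x0 y0 (Polynomial.aeval f q) * hu +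
        ϱ * EL κ x0 y0 (Polynomial.aeval f q) * mapL κ (UM.dK k d c') *
          EL κ x0 y0 (a * MvPolynomial.pderiv 0 f + b * MvPolynomial.pderiv 1 f) * o1
    obtain ⟨i0, hi⟩ := (h4 k G d n B f p π _ d3 gen.tm hCr hP dg g0).1
    obtain ⟨r, q', hq', hr⟩ := h3 k G (Fin m) n d B P e
      (π (MvPolynomial.pderiv 0 a + MvPolynomial.pderiv 1 b)) (π w) q c' hTD
      (fun z => hi (by rw [z, map_zero])) hq (funext fun i => by
        have := congrArg (cwL (l i)) k1
        rw [map_sub, map_add, l0, add_zero, UM.Inv.cwL_lin κ _ (l1 i), UM.Inv.cwL_lin κ _ (l1 i),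
          ← l3, ← l3, ← l3, ← hP.th] at this
        simp only [Pi.smul_apply, Pi.sub_apply, smul_eq_mul]
        linear_combination this)
    refine ⟨_, frac (fun z => hq' (by rw [z, map_zero])) (n1 q' hq') (Polynomial.aeval f r), ?_⟩
    rw [map_div₀, je, je, el_pol κ x0 y0 fr, el_pol κ x0 y0 fr, ← hr, map_mul,
      mul_div_cancel_right₀ _ ((map_ne_zero_iff _ (mapL_inj κ.injective)).2 hq')]

end Pool.Agent.MP_05b4bd_ag.RV
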