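import Pool.Agent.MP_05b4bd_ag.rr.Spec2

/-! The local ring of a fibre has no torsion. -/

namespace Pool.Agent.MP_05b4bd_ag.RV

open HC
open ES hiding Gen Ob Inf
open ES.U (TM)

namespace Tor2

variable {k : Type} [Field k]

theorem eF_inj : Function.Injective (eF k) := IsFractionRing.injective (R2 k) (FF k)

/-- The local ring of the fibre. -/
def loc (f : R2 k) (c : k) (hp : Prime (f - MvPolynomial.C c)) : Subring (FF k) where
  carrier := {z | InO f c z}
  mul_mem' := by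
    rintro a b ⟨u, v, hv, h⟩ ⟨u', v', hv', h'⟩
    refine ⟨u * u', v * v', fun hd => (hp.dvd_or_dvd hd).elim hv hv', ?_⟩
    rw [map_mul, map_mul, ← h, ← h']
    ring
  one_mem' := ⟨1, 1, hp.not_dvd_one, mul_one _⟩
  add_mem' := by
    rintro a b ⟨u, v, hv, h⟩ ⟨u', v', hv', h'⟩
    refine ⟨u * v' + u' * v, v * v', fun hd => (hp.dvd_or_dvd hd).elim hv hv', ?_⟩
    rw [map_add, map_mul, map_mul, map_mul, ← h, ← h']
    ring
  zero_mem' := ⟨0, 1, hp.not_dvd_one, by rw [mul_zero, map_zero]⟩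
  neg_mem' := by
    rintro a ⟨u, v, hv, h⟩
    exact ⟨-u, v, hv, by rw [map_neg, ← h, mul_neg]⟩

theorem exists_pow {f : R2 k} {c : k} (hp : Prime (f - MvPolynomial.C c)) (z : FF k) :
    ∃ n : ℕ, InO f c (eF k (f - MvPolynomial.C c) ^ n * z) := by
  obtain ⟨u, v, hv, rfl⟩ := IsFractionRing.div_surjective (A := R2 k) z
  have v0 : v ≠ 0 := nonZeroDivisors.ne_zero hv
  obtain ⟨n, w, hw, rfl⟩ := WfDvdMonoid.max_power_factor v0 hp.irreducible
  refine ⟨n, u, w, hw, ?_⟩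
  have h0 : eF k ((f - MvPolynomial.C c) ^ n * w) ≠ 0 := (map_ne_zero_iff _ eF_inj).2 v0
  change eF k w * (eF k (f - MvPolynomial.C c) ^ n * (eF k u / eF k _)) = eF k u
  rw [← mul_assoc, mul_comm (eF k w), ← map_pow, ← map_mul, mul_div_cancel₀ _ h0]

theorem fx_ne {d : ℕ} {f : R2 k} (hd : 3 ≤ d) (H : TM d f) : MvPolynomial.pderiv 0 f ≠ 0 := by
  intro h
  obtain ⟨n, p, hp⟩ := H.cr
  obtain ⟨i, -, -⟩ := two_crit hd H hp
  apply hp.hess i
  rw [h]
  simp [br]

theorem not_dvd_fx [CharZero k] {d : ℕ} {f : R2 k} (c : k) (hd : 3 ≤ d) (H : TM d f) :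
    ¬ f - MvPolynomial.C c ∣ MvPolynomial.pderiv 0 f := by
  rintro ⟨v, hv⟩
  have d0 : d ≠ 0 := by omega
  have top : hc d (f - MvPolynomial.C c) ≠ 0 := by
    rw [hc_sub, Esc.hc_C_of_ne d0, sub_zero]
    exact Esc.ne_zero_of_ci (hc_hom d f) H.ci
  have gd : DL (d + 1) (f - MvPolynomial.C c) := H.dl.sub ((DL_C c).mono (by omega))
  have v0 : v ≠ 0 := fun z => fx_ne hd H (by rw [hv, z, mul_zero])
  obtain ⟨t, ht, ht0⟩ := Esc.exists_top v0
  have hl : DL d ((f - MvPolynomial.C c) * v) := hv ▸ H.dl.pderiv 0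
  have : d + t < d := by
    refine Esc.lt_of_hc_ne hl ?_
    rw [hc_mul_top gd ht]
    exact mul_ne_zero top ht0
  omega

section Core

variable {E : Type} [Field E]

/-- The Hamiltonian derivation as an additive map. -/
def hamD (d : Fin 2 → E →+ E) (p q : E) : E →+ E :=
  (AddMonoidHom.mulLeft q).comp (d 0) - (AddMonoidHom.mulLeft p).comp (d 1)

theorem hamD_apply (d : Fin 2 → E →+ E) (p q u : E) : hamD d p q u = q * d 0 u - p * d 1 u := rfl

theorem hamD_der {d : Fin 2 → E →+ E} (h : Cm d) (p q : E) : IsDer (hamD d p q) :=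
  ((h.der 0).mulLeft q).sub ((h.der 1).mulLeft p)

/-- Exact elements of `S` have a primitive in `S`. -/
theorem prim {D : E →+ E} (hD : IsDer D) {S : Subring E} {π : E} (π0 : π ≠ 0) (πS : π ∈ S)
    (Dπ : D π = 0) (res : ∀ w ∈ S, ∀ z ∈ S, D w = π * z → ∃ A, D A = 0 ∧ ∃ z' ∈ S, w = A + π * z')
    (n : ℕ) : ∀ u, π ^ n * u ∈ S → D u ∈ S → ∃ v ∈ S, D u = D v := by
  induction n with
  | zero => exact fun u hu _ => ⟨u, by simpa using hu, rfl⟩
  | succ n ih =>
    intro u hu hz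
    have Dp : ∀ m : ℕ, D (π ^ m) = 0 := fun m => by rw [hD.pow, Dπ, mul_zero]
    obtain ⟨A, hA, z', hz', e⟩ := res _ hu (π ^ n * D u) (S.mul_mem (S.pow_mem πS n) hz)
      (by rw [hD.const_mul (Dp _)]; ring)
    have p0 : π ^ (n + 1) ≠ 0 := pow_ne_zero _ π0
    have Di : D (π ^ (n + 1))⁻¹ = 0 := by rw [hD.inv (mul_inv_cancel₀ p0), Dp]; ring
    have e1 : D (u - A * (π ^ (n + 1))⁻¹) = D u := by
      rw [map_sub, hD.const_mul hA, Di, mul_zero, sub_zero]
    have e2 : π ^ n * (u - A * (π ^ (n + 1))⁻¹) = z' := by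
      apply mul_left_cancel₀ π0
      have := mul_inv_cancel₀ p0
      linear_combination e - A * this
    rw [← e1]
    exact ih _ (e2 ▸ hz') (e1 ▸ hz)

end Core

end Tor2

open Tor2 in
theorem tor2S (h1 : ResfStmt) (h2 : PrimeStmt) : Tor2Stmt := by
  intro k _ _ _ d f dF c hd hT h
  have hp := h2 k d f c hd hT
  set S := loc f c hp with hS
  set π := eF k (f - MvPolynomial.C c) with hπ
  set p := eF k (MvPolynomial.pderiv 0 f) with hp0
  set q := eF k (MvPolynomial.pderiv 1 f) with hq0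
  have mem : ∀ u, eF k u ∈ S := fun u => ⟨u, 1, hp.not_dvd_one, by rw [map_one, one_mul]⟩
  have p0 : p ≠ 0 := (map_ne_zero_iff _ eF_inj).2 (fx_ne hd hT)
  have π0 : π ≠ 0 := (map_ne_zero_iff _ eF_inj).2 hp.ne_zero
  have pN : p * p⁻¹ = 1 := mul_inv_cancel₀ p0
  have mN : p⁻¹ ∈ S := ⟨1, _, not_dvd_fx c hd hT, by rw [map_one]; exact pN⟩
  have st : ∀ i, ∀ u ∈ S, dF i u ∈ S := by
    rintro i z ⟨u, v, hv, e⟩
    refine ⟨MvPolynomial.pderiv i u * v - MvPolynomial.pderiv i v * u, v * v,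
      fun hd => (hp.dvd_or_dvd hd).elim hv hv, ?_⟩
    have := congrArg (dF i) e
    rw [h.der i, h.ext, h.ext] at this
    rw [map_sub, map_mul, map_mul, map_mul, ← e]
    linear_combination eF k v * this
  have dC : ∀ i a, dF i (eF k (MvPolynomial.C a)) = 0 := fun i a => by
    rw [h.ext, MvPolynomial.pderiv_C, map_zero]
  have d0π : dF 0 π = p := by rw [hπ, h.ext, map_sub, MvPolynomial.pderiv_C, sub_zero]
  have d1π : dF 1 π = q := by rw [hπ, h.ext, map_sub, MvPolynomial.pderiv_C, sub_zero]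
  set D := hamD dF p q with hD
  have der : IsDer D := hamD_der h.toCm p q
  have Dv : ∀ u, D u = q * dF 0 u - p * dF 1 u := fun u => rfl
  have D0e : ∀ u, D0 (eF k) dF f u = D u := fun u => rfl
  have Dπ : D π = 0 := by rw [Dv, d0π, d1π]; ring
  have DC : ∀ a, D (eF k (MvPolynomial.C a)) = 0 := fun a => by rw [Dv, dC, dC]; ring
  have Dp : ∀ m : ℕ, D (π ^ m) = 0 := fun m => by rw [der.pow, Dπ, mul_zero]
  have dl0 : DL (d - 1) (0 : R2 k) := fun m _ => rfl
  have res : ∀ w ∈ S, ∀ z ∈ S, D w = π * z →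
      ∃ a : k, ∃ z' ∈ S, w = eF k (MvPolynomial.C a) + π * z' := fun w hw z hz e => by
    obtain ⟨-, a, z', hz', e'⟩ := h1 k d f 0 dF c w z hd hT h hw hz dl0
      (by rw [map_zero, zero_add]; exact e)
    exact ⟨a, z', hz', e'⟩
  have i1 : ∀ z ∈ S, ∀ u, z = D u → ∃ v ∈ S, z = D v := fun z hz u e => by
    obtain ⟨n, hn⟩ := exists_pow hp u
    rw [e] at hz ⊢
    refine prim der π0 (mem _) Dπ (fun w hw z hz e => ?_) n u hn hz
    obtain ⟨a, z', hz', e'⟩ := res w hw z hz e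
    exact ⟨_, DC a, z', hz', e'⟩
  refine ⟨S, ![p⁻¹, 0], fun z => Iff.rfl, fun a b dl ne => ⟨h, h, Function.injective_id,
    fun _ _ => rfl, mem, st, ?_, ?_, i1, ?_⟩⟩
  · intro i
    fin_cases i
    exacts [mN, S.zero_mem]
  · change p⁻¹ * p + 0 * q = 1
    rw [zero_mul, add_zero, mul_comm, pN]
  intro c₀ u z hz Dc e
  set g₁ := MvPolynomial.pderiv 0 a + MvPolynomial.pderiv 1 b with hg₁
  change D c₀ = 0 at Dc
  change c₀ * eF k g₁ - (p⁻¹ * dF 0 c₀ + 0 * dF 1 c₀) *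
    eF k (a * MvPolynomial.pderiv 0 f + b * MvPolynomial.pderiv 1 f) = z + D u at e
  rw [map_add (eF k) (a * _), map_mul, map_mul, ← hp0, ← hq0] at e
  set g₀ := eF k a * p + eF k b * q with hg₀
  have g0S : g₀ ∈ S := S.add_mem (S.mul_mem (mem _) (mem _)) (S.mul_mem (mem _) (mem _))
  suffices H : ∀ n : ℕ, π ^ n * c₀ ∈ S → c₀ ∈ S by
    obtain ⟨n, hn⟩ := exists_pow hp c₀
    exact ⟨c₀, H n hn, rfl⟩
  intro n
  induction n with
  | zero => exact fun hu => by simpa using hu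
  | succ n ih =>
    intro hw
    have Dw : D (π ^ (n + 1) * c₀) = 0 := by rw [der.const_mul (Dp _), Dc, mul_zero]
    obtain ⟨α, c₂, c2S, e2⟩ := res _ hw 0 S.zero_mem (by rw [Dw, mul_zero])
    by_cases α0 : α = 0
    · refine ih ?_
      have : π ^ n * c₀ = c₂ := by
        apply mul_left_cancel₀ π0
        rw [α0, map_zero, map_zero, zero_add] at e2
        linear_combination e2
      exact this ▸ c2S
    exfalso
    set A := eF k (MvPolynomial.C α) with hA
    have Dc2 : D c₂ = 0 := by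
      apply mul_left_cancel₀ π0
      rw [e2, map_add, DC, der.const_mul Dπ, zero_add] at Dw
      rw [Dw, mul_zero]
    obtain ⟨β, c₃, c3S, e3⟩ := res _ c2S 0 S.zero_mem (by rw [Dc2, mul_zero])
    set B := eF k (MvPolynomial.C β) with hB
    have dw := congrArg (dF 0) e2
    rw [h.der 0, (h.der 0).pow, d0π, map_add, dC, h.der 0, d0π, Nat.add_sub_cancel] at dw
    set m : FF k := (n : FF k) with hm
    have mS : m ∈ S := natCast_mem S n
    have dm : ∀ i, dF i m = 0 := fun i => (h.der i).natCast n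
    push_cast at dw
    rw [← hm] at dw
    set s := c₂ * eF k g₁ - p⁻¹ * dF 0 c₂ * g₀ - π ^ n * z with hs
    have sS : s ∈ S := S.sub_mem (S.sub_mem (S.mul_mem c2S (mem _))
      (S.mul_mem (S.mul_mem mN (st 0 _ c2S)) g0S)) (S.mul_mem (S.pow_mem (mem _) n) hz)
    set t := A * eF k g₁ + m * c₂ * g₀ + π * s with ht
    have tS : t ∈ S := S.add_mem (S.add_mem (S.mul_mem (mem _) (mem _))
      (S.mul_mem (S.mul_mem mS c2S) g0S)) (S.mul_mem (mem _) sS)
    have E1 : (m + 1) * A * g₀ + π * t = D (π ^ (n + 2) * u) := by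
      rw [der.const_mul (Dp _), ht, hs]
      linear_combination (π ^ (n + 2)) * e - (π * eF k g₁ + (m + 1) * g₀) * e2 +
        (π * p⁻¹ * g₀) * dw + (π * c₂ * g₀ - (m + 1) * π ^ (n + 1) * c₀ * g₀) * pN
    obtain ⟨v, vS, E2⟩ := i1 _ (S.add_mem (S.mul_mem (S.mul_mem (S.add_mem mS S.one_mem) (mem _))
      g0S) (S.mul_mem (mem _) tS)) _ E1
    change (m + 1) * A * g₀ + π * t = D v at E2
    have dN : ∀ i, dF i p⁻¹ = -(p⁻¹ ^ 2 * dF i p) := fun i => (h.der i).inv pN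
    have pq : dF 0 q = dF 1 p := by rw [← d0π, ← d1π, h.comm]
    have dA : ∀ i, dF i A = 0 := fun i => dC i α
    have del1 : dF 0 (D v * p⁻¹) = D (p⁻¹ * dF 0 v) := by
      simp only [Dv, h.der 0 _ _, h.der 1 _ _, map_sub, dN, pq, h.comm]
      linear_combination (q * 0 + (dF 1 v * dF 0 p * p⁻¹ - p⁻¹ * dF 1 p * dF 0 v)) * pN
    have del2 : dF 0 (g₀ * p⁻¹) = eF k g₁ + D (eF k b * p⁻¹) := by
      rw [hg₁, map_add (eF k), ← h.ext, ← h.ext]
      simp only [hg₀, Dv, h.der 0 _ _, h.der 1 _ _, map_add, dN, pq]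
      linear_combination (dF 0 (eF k a) - eF k a * p⁻¹ * dF 0 p + dF 1 (eF k b) -
        eF k b * p⁻¹ * dF 1 p) * pN
    have E3 : ((m + 1) * A) * (eF k g₁ + D (eF k b * p⁻¹)) + t + π * dF 0 (t * p⁻¹) =
        D (p⁻¹ * dF 0 v) := by
      rw [← del1, ← del2, ← E2, add_mul _ (π * t), map_add, mul_assoc _ g₀, mul_assoc π,
        (h.der 0).const_mul (c := (m + 1) * A) (by
          rw [h.der 0, map_add, dm, (h.der 0).one, dA]; ring), h.der 0 π, d0π]
      linear_combination (-t) * pN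
    have DA : D A = 0 := DC α
    have DB : D B = 0 := DC β
    have Dm : D m = 0 := der.natCast n
    have k1 : D ((m + 1) * A) = 0 := by rw [der, map_add, Dm, der.one, DA]; ring
    have k2 : D (m * B) = 0 := by rw [der, Dm, DB]; ring
    have aS : (m + 1) * A ∈ S := S.mul_mem (S.add_mem mS S.one_mem) (mem _)
    have := (h1 k d f (MvPolynomial.C (((n : k) + 1) * ((n : k) + 2) * α ^ 2) * g₁) dF c
      ((m + 1) * A * (p⁻¹ * dF 0 v - (m + 1) * A * (eF k b * p⁻¹)) - m * B * v)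
      ((m + 1) * A * (m * c₃ * g₀ + s + dF 0 (t * p⁻¹)) - m * B * t) hd hT h
      (S.sub_mem (S.mul_mem aS (S.sub_mem (S.mul_mem mN (st 0 _ vS))
        (S.mul_mem aS (S.mul_mem (mem _) mN)))) (S.mul_mem (S.mul_mem mS (mem _)) vS))
      (S.sub_mem (S.mul_mem aS (S.add_mem (S.add_mem (S.mul_mem (S.mul_mem mS c3S) g0S) sS)
        (st 0 _ (S.mul_mem tS mN)))) (S.mul_mem (S.mul_mem mS (mem _)) tS))
      (fun x hx => by rw [MvPolynomial.coeff_C_mul, dl x hx, mul_zero]) (by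
        rw [D0e, map_sub, der.const_mul k1, der.const_mul k2, map_sub, der.const_mul k1, ← E3,
          ← E2, map_mul (eF k), ← hπ]
        simp only [map_mul, map_add, map_pow, map_natCast, map_one, map_ofNat, ← hA, ← hm]
        linear_combination ((m + 1) * A) * ht + ((m + 1) * A * m * g₀) * e3)).1
    refine ne ((mul_eq_zero.1 this).resolve_left ?_)
    rw [MvPolynomial.C_eq_zero]
    have n1 : (n : k) + 1 ≠ 0 := Nat.cast_add_one_ne_zero n
    have n2 : (n : k) + 2 ≠ 0 := by exact_mod_cast (Nat.succ_ne_zero (n + 1))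
    exact mul_ne_zero (mul_ne_zero n1 n2) (pow_ne_zero _ α0)

end Pool.Agent.MP_05b4bd_ag.RV
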