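import Pool.Agent.MP_05b4bd_ag.rr.Spec2
import Pool.Agent.MP_05b4bd_ag.um.Tor3

/-! A substitution acting on the module of a cubic: a centre of symmetry or the exotic case. -/

namespace Pool.Agent.MP_05b4bd_ag.RV

open MvPolynomial HC
open ES.U (TM Cr hom)
open UM.Tor4 UM.Tor3

namespace Tor3r

variable {k : Type} [Field k] [CharZero k]

/-- A cubic whose quadratic part is a derivative of its top part is a translate. -/
theorem split {f : R2 k} (hf : DL 4 f) {α β : k}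
    (h2 : hc 2 f = C α * pderiv 0 (hc 3 f) + C β * pderiv 1 (hc 3 f)) :
    ∃ (l : R2 k) (e : k), l.IsHomogeneous 1 ∧ f = tr ![α, β] (hc 3 f + l + C e) := by
  obtain ⟨e, h0⟩ := hom0 (hc_hom 0 f)
  obtain ⟨l, m, h1⟩ := hom1 (hc_hom 1 f)
  obtain ⟨p, q, r, s, h3⟩ := hom3 (hc_hom 3 f)
  have hx : pderiv 0 (hc 3 f) = 3 * C p * X 0 ^ 2 + 2 * C q * (X 0 * X 1) + C r * X 1 ^ 2 := by
    rw [h3]; simp [pderiv_X]; ring
  have hy : pderiv 1 (hc 3 f) = C q * X 0 ^ 2 + 2 * C r * (X 0 * X 1) + 3 * C s * X 1 ^ 2 := by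
    rw [h3]; simp [pderiv_X]; ring
  have hs := split4 hf
  rw [h2, hx, hy, h0, h1, h3] at hs
  refine ⟨C (l - (3 * p * α ^ 2 + 2 * q * (α * β) + r * β ^ 2)) * X 0 +
      C (m - (q * α ^ 2 + 2 * r * (α * β) + 3 * s * β ^ 2)) * X 1,
    e + 2 * (p * α ^ 3 + q * (α ^ 2 * β) + r * (α * β ^ 2) + s * β ^ 3) - (l * α + m * β),
    ((isHomogeneous_X _ _).C_mul _).add ((isHomogeneous_X _ _).C_mul _), ?_⟩
  rw [h3]
  refine hs.trans ?_
  simp only [tr, map_add, map_mul, map_pow, map_sub, map_ofNat, aeval_C,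
    aeval_X, algebraMap_eq, Matrix.cons_val_zero, Matrix.cons_val_one]
  ring

omit [CharZero k] in
theorem eval_neg {e : ℕ} {u : R2 k} (hu : u.IsHomogeneous e) (x : Fin 2 → k) :
    eval (-x) u = (-1) ^ e * eval x u := by
  have h := eval_hom (-1) 0 x u
  rw [hom_hom hu, map_mul, eval_C] at h
  rw [h]
  exact congrArg (fun y => eval y u) (funext fun j => by simp)

omit [CharZero k] in
theorem hom_neg (γ : Fin 2 → k) (u : R2 k) :
    hom (-1) (fun j => -2 * γ j) (tr γ u) = tr γ (hom (-1) 0 u) := by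
  induction u using MvPolynomial.induction_on with
  | C a => simp only [tr, hom, aeval_C, algebraMap_eq]
  | add a b ha hb => simp only [map_add, ha, hb]
  | mul_X a i ha =>
    simp only [map_mul, ha]
    refine congrArg _ ?_
    simp only [tr, hom, map_add, map_mul, map_neg, map_one, map_zero, map_ofNat, aeval_C,
      aeval_X, algebraMap_eq, Pi.zero_apply]
    ring

section Core
variable {F l f : R2 k} {e : k} {γ : Fin 2 → k} {n : ℕ} {p : Fin n → Fin 2 → k}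

omit [CharZero k] in
theorem crit (hf : f = tr γ (F + l + C e)) (H : Cr f p) (i : Fin n) (j : Fin 2) :
    eval (p i + γ) (pderiv j (F + l)) = 0 := by
  have h := H.crit i j
  rwa [hf, tr_pderiv, eval_tr, map_add (pderiv j) (F + l), pderiv_C, add_zero] at h

omit [CharZero k] in
theorem val (hF : F.IsHomogeneous 3) (hl : l.IsHomogeneous 1) (hf : f = tr γ (F + l + C e))
    (H : Cr f p) (i : Fin n) : 3 * (eval (p i) f - e) = 2 * eval (p i + γ) l := by
  have e3 := congrArg (eval (p i + γ)) (euler hF)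
  have e1 := congrArg (eval (p i + γ)) (euler hl)
  have c0 := crit hf H i 0
  have c1 := crit hf H i 1
  have hv : eval (p i) f = eval (p i + γ) F + eval (p i + γ) l + e := by
    conv_lhs => rw [hf]
    rw [eval_tr, map_add, map_add, eval_C]
  simp only [map_add, map_mul, map_natCast, eval_X] at e3 e1 c0 c1
  push_cast at e3 e1
  rw [hv]
  linear_combination (-1) * e3 - e1 + (p i + γ) 0 * c0 + (p i + γ) 1 * c1

omit [CharZero k] in
theorem sym (hF : F.IsHomogeneous 3) (hl : l.IsHomogeneous 1) (hf : f = tr γ (F + l + C e))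
    (H : Cr f p) (i : Fin n) : ∃ s, p s + γ = -(p i + γ) := by
  obtain ⟨s, hs⟩ := UM.cr_mem H (q := -(p i + γ) - γ) fun j => by
    have c0 := crit hf H i j
    rw [map_add, map_add] at c0
    rw [hf, tr_pderiv, eval_tr, sub_add_cancel, map_add, pderiv_C, add_zero, map_add, map_add,
      eval_neg (hom_pderiv j hF), eval_neg (hom_pderiv j hl)]
    linear_combination c0
  exact ⟨s, by rw [← hs, sub_add_cancel]⟩

theorem linj (hF : F.IsHomogeneous 3) (hl : l.IsHomogeneous 1) (hf : f = tr γ (F + l + C e))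
    (H : Cr f p) {i j : Fin n} (h : eval (p i + γ) l = eval (p j + γ) l) : i = j := by
  refine H.inj ?_
  have h1 := val hF hl hf H i
  have h2 := val hF hl hf H j
  change eval (p i) f = eval (p j) f
  linear_combination (1 / 3) * h1 - (1 / 3) * h2 + (2 / 3) * h

/-- The square of the linear part is not a derivative of the top part. -/
theorem nosq (hF : F.IsHomogeneous 3) (hl : l.IsHomogeneous 1) (hf : f = tr γ (F + l + C e))
    (T : TM 3 f) (H : Cr f p) (a b : k) : l ^ 2 ≠ C a * pderiv 0 F + C b * pderiv 1 F := by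
  intro h
  obtain ⟨a0, h0⟩ := hom0 (hom_pderiv 0 hl)
  obtain ⟨a1, h1⟩ := hom0 (hom_pderiv 1 hl)
  have sq : ∀ i, eval (p i + γ) l ^ 2 = -(a * a0 + b * a1) := fun i => by
    have c0 := crit hf H i 0
    have c1 := crit hf H i 1
    have c2 := congrArg (eval (p i + γ)) h
    rw [map_add, h0, map_add, eval_C] at c0
    rw [map_add, h1, map_add, eval_C] at c1
    simp only [map_add, map_mul, map_pow, eval_C] at c2
    linear_combination c2 + a * c0 + b * c1
  have z : ∀ i, p i 0 + γ 0 = 0 := fun i => by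
    obtain ⟨s, hs⟩ := sym hF hl hf H i
    have pm : ∀ j, p j + γ = p i + γ ∨ p j + γ = -(p i + γ) := fun j => by
      rcases sq_eq_sq_iff_eq_or_eq_neg.1 ((sq j).trans (sq i).symm) with w | w
      · exact Or.inl (by rw [linj hF hl hf H w])
      · refine Or.inr ?_
        rw [← hs, linj hF hl hf H (i := j) (j := s) (by rw [w, hs, eval_neg hl]; ring)]
    have w := jac_low (by omega) T
      (H.rad (tr γ (C ((p i + γ) 1) * X 0 - C ((p i + γ) 0) * X 1)) fun j => by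
        rw [eval_tr]
        rcases pm j with w | w <;> rw [w] <;>
          simp only [map_sub, map_mul, eval_C, eval_X, Pi.neg_apply] <;> ring)
      (tr_DL _ (((DL_X 0).C_mul _).sub ((DL_X 1).C_mul _)))
    have w2 := congrArg (eval (![0, -1] - γ)) w
    rw [eval_tr, sub_add_cancel] at w2
    simpa using w2
  obtain ⟨i, j, hij⟩ := two_crit le_rfl T H
  exact hij (by linear_combination z i - z j)

end Core

section Mod
variable {G : Type} [AddCommGroup G] [Module k G] {n : ℕ} {B : UM.BM k G n} {f : R2 k}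
  {p : Fin n → Fin 2 → k} {π : R2 k →ₗ[k] G} {ζ c0 : k} {S : Module.End k G}

theorem one (T : TM 3 f) (A : UM.Act B 3 f π ζ c0 S) : S (π 1) = ζ • π 1 := by
  have hF := hc_hom 3 f
  obtain ⟨v, hv, e⟩ := A.deg 1 1 (DL_C 1)
  have hb := A.lead 0 1 v (DL_C 1) hv e fun j => by omega
  have h0 := (Esc.nz_full (by omega) hF T.ci
    ((hc_hom 0 v).sub ((hc_hom 0 1).C_mul _)) hb).1 (by omega)
  have h1 : v - hc 0 v = 0 := hv.sub_hc.eq_zero
  have h2 : hc 0 (1 : R2 k) = 1 := hc_self (isHomogeneous_one _ _)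
  have h3 : ((3 : ℕ) : ℤ) - 2 - (0 : ℕ) = 1 := by norm_num
  rw [h2, h3, zpow_one] at h0
  rw [e, ← map_smul, smul_eq_C_mul]
  exact congrArg π (by linear_combination h1 + h0)

/-- The top part of the image of a quadric. -/
theorem top (T : TM 3 f) (A : UM.Act B 3 f π ζ c0 S) {u v : R2 k} (hu : DL 3 u) (hv : DL 3 v)
    (h : S (π u) = π v) : ∃ a b, hc 2 v - C ζ⁻¹ * hc 2 u =
      C a * pderiv 0 (hc 3 f) + C b * pderiv 1 (hc 3 f) := by
  have hb := A.lead 2 u v hu hv h fun j => by omega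
  have h3 : ((3 : ℕ) : ℤ) - 2 - (2 : ℕ) = -1 := by norm_num
  rw [h3, zpow_neg_one] at hb
  obtain ⟨η, hη, he⟩ := (Esc.nz_full (by omega) (hc_hom 3 f) T.ci
    ((hc_hom 2 v).sub ((hc_hom 2 u).C_mul _)) hb).2 (by omega)
  obtain ⟨a, ha⟩ := hom0 (hom_pderiv 0 hη)
  obtain ⟨b, hb'⟩ := hom0 (hom_pderiv 1 hη)
  rw [br, ha, hb'] at he
  exact ⟨-b, a, by rw [he, map_neg]; ring⟩

theorem quad (T : TM 3 f) (P : UM.Pres B f p π) (A : UM.Act B 3 f π ζ c0 S) :
    ∃ α β, hc 2 f = C α * pderiv 0 (hc 3 f) + C β * pderiv 1 (hc 3 f) := by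
  have hF := hc_hom 3 f
  have hz := A.z0
  have s1 := one T A
  obtain ⟨u, hu⟩ : ∃ u : R2 k, u = hc 2 f + C 2 * hc 1 f + C 3 * hc 0 f := ⟨_, rfl⟩
  have hs := split4 T.dl
  have hE : u = C 3 * f - (X 0 * pderiv 0 f + X 1 * pderiv 1 f) := by
    have e0 := euler (hc_hom 0 f)
    have e1 := euler (hc_hom 1 f)
    have e2 := euler (hc_hom 2 f)
    have e3 := euler hF
    have d0 := congrArg (pderiv 0) hs
    have d1 := congrArg (pderiv 1) hs
    simp only [map_add] at d0 d1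
    push_cast at e0 e1 e2 e3
    rw [hu, map_ofNat, map_ofNat]
    linear_combination (-3) * hs + X 0 * d0 + X 1 * d1 + e0 + e1 + e2 + e3
  have hth : B.θ ((2 : k) • π 1) = π (X 0 * pderiv 0 f + X 1 * pderiv 1 f) := by
    rw [← P.th, ← map_smul, smul_eq_C_mul, map_ofNat, pderiv_X_self, pderiv_X_self]
    norm_num
  have hpu : π u = (3 : k) • B.h (π 1) - (2 : k) • B.θ (π 1) := by
    rw [hE, map_sub, ← hth, P.mul, mul_one, ← smul_eq_C_mul, map_smul, map_smul]
  have hS : S (π u) = π (C (ζ⁻¹ ^ 2) * u + C (3 * c0 * ζ)) := by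
    have hc1 : π (C (3 * c0 * ζ)) = (3 * c0 * ζ) • π 1 := by
      rw [← map_smul, smul_eq_C_mul, mul_one]
    have hzz : ζ⁻¹ ^ 3 * ζ = ζ⁻¹ ^ 2 := by field_simp
    rw [map_add, hc1, ← smul_eq_C_mul, map_smul, hpu, map_sub, map_smul, map_smul, A.mul, A.th, s1,
      map_smul, map_smul, smul_smul, smul_smul, smul_smul, smul_smul, ← hzz]
    module
  have hd : DL 3 u := by
    rw [hu]
    exact ((DL.of_hom (hc_hom 2 f)).add (((DL.of_hom (hc_hom 1 f)).mono (by omega)).C_mul _)).add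
      (((DL.of_hom (hc_hom 0 f)).mono (by omega)).C_mul _)
  have hu2 : hc 2 u = hc 2 f := by
    rw [hu, hc_add, hc_add, hc_C_mul, hc_C_mul, hc_self (hc_hom 2 f), hc_ne (hc_hom 1 f) (by omega),
      hc_ne (hc_hom 0 f) (by omega), mul_zero, mul_zero, add_zero, add_zero]
  obtain ⟨a, b, he⟩ := top T A hd ((hd.C_mul _).add ((DL_C _).mono (by omega))) hS
  rw [hc_add, hc_C_mul, hu2, hc_ne (isHomogeneous_C _ _) (by omega), add_zero,
    ← sub_mul, ← map_sub] at he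
  have hw : ζ⁻¹ ^ 2 - ζ⁻¹ ≠ 0 := fun h => by
    have h1 : ζ⁻¹ * (ζ⁻¹ - 1) = 0 := by linear_combination h
    rcases mul_eq_zero.1 h1 with h | h
    · exact inv_ne_zero hz h
    · exact A.z1 (inv_eq_one.1 (sub_eq_zero.1 h))
  have hi : (C (ζ⁻¹ ^ 2 - ζ⁻¹)⁻¹ : R2 k) * C (ζ⁻¹ ^ 2 - ζ⁻¹) = 1 := by
    rw [← map_mul, inv_mul_cancel₀ hw, map_one]
  refine ⟨(ζ⁻¹ ^ 2 - ζ⁻¹)⁻¹ * a, (ζ⁻¹ ^ 2 - ζ⁻¹)⁻¹ * b, ?_⟩
  rw [map_mul, map_mul]
  linear_combination C (ζ⁻¹ ^ 2 - ζ⁻¹)⁻¹ * he - hc 2 f * hi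

/-- The substitution permutes the critical points. -/
theorem perm (T : TM 3 f) (P : UM.Pres B f p π) (A : UM.Act B 3 f π ζ c0 S) (i : Fin n) :
    ∃ q, eval (p q) f = ζ⁻¹ ^ 3 * eval (p i) f + c0 ∧
      ∀ u v, S (π u) = π v → eval (p i) v = ζ * eval (p q) u := by
  have l1 : (B.ev i ∘ₗ S) (π 1) = ζ := by
    rw [LinearMap.comp_apply, one T A, map_smul, P.ev, map_one, smul_eq_mul, mul_one]
  obtain ⟨q, a, -, hq, ha⟩ := B.eig (B.ev i ∘ₗ S) (μ := ζ⁻¹ ^ 3 * B.c i + c0)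
    (fun u => by rw [LinearMap.comp_apply, A.th, map_smul, B.ev_θ, smul_zero])
    (fun u => by
      rw [LinearMap.comp_apply, LinearMap.comp_apply, A.mul, map_add, map_smul, map_smul, B.mul,
        smul_eq_mul, smul_eq_mul]
      ring)
    (fun h => A.z0 (by rw [← l1, h, LinearMap.zero_apply]))
  have ea : a = ζ := by rw [← l1, ha, P.ev, map_one, mul_one]
  refine ⟨q, by rw [← P.val, ← P.val, hq], fun u v h => ?_⟩
  have w := ha (π u)
  rwa [LinearMap.comp_apply, h, P.ev, P.ev, ea] at w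

end Mod

end Tor3r

open Tor3r in
theorem tor3rS (h : ExoStmt) : Tor3rStmt := by
  intro k G _ _ _ _ _ n B f p π ζ c0 S T H P A
  have hF := hc_hom 3 f
  have hz := A.z0
  obtain ⟨α, β, h2⟩ := quad T P A
  obtain ⟨l, e, hl, hf⟩ := split T.dl h2
  generalize (![α, β] : Fin 2 → k) = γ at hf
  choose q hq hev using perm T P A
  choose s hs using sym hF hl hf H
  have hv := val hF hl hf H
  obtain ⟨i1, i2, h12⟩ := two_crit le_rfl T H
  have hz3 : ζ⁻¹ ^ 3 ≠ 0 := pow_ne_zero _ (inv_ne_zero hz)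
  have qi : Function.Bijective q := Finite.injective_iff_bijective.1 fun i j w => H.inj (by
    have w1 := hq i
    rw [w, hq j] at w1
    exact (mul_left_cancel₀ hz3 (add_right_cancel w1)).symm)
  have si : Function.Bijective s := Finite.injective_iff_bijective.1 fun i j w => by
    have w1 := hs i
    rw [w, hs j] at w1
    exact linj hF hl hf H (by rw [neg_inj.1 w1])
  have sum0 : ∑ i, eval (p i + γ) l = 0 := by
    have w := si.sum_comp fun i => eval (p i + γ) l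
    simp only [hs, eval_neg hl, pow_one, neg_one_mul, Finset.sum_neg_distrib] at w
    linear_combination (-1 / 2) * w
  have hc0 : c0 = e * (1 - ζ⁻¹ ^ 3) := by
    have w := qi.sum_comp fun i => eval (p i + γ) l
    have w1 : ∀ i, eval (p (q i) + γ) l =
        ζ⁻¹ ^ 3 * eval (p i + γ) l + 3 / 2 * (c0 - e * (1 - ζ⁻¹ ^ 3)) := fun i => by
      linear_combination (-1 / 2) * hv (q i) + (ζ⁻¹ ^ 3 / 2) * hv i + (3 / 2) * hq i
    simp only [w1, Finset.sum_add_distrib, ← Finset.mul_sum, sum0, Finset.sum_const,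
      Finset.card_univ, Fintype.card_fin, nsmul_eq_mul, mul_zero, zero_add] at w
    have hn : (n : k) ≠ 0 := Nat.cast_ne_zero.2 (Fin.pos i1).ne'
    have w2 : (n : k) * (c0 - e * (1 - ζ⁻¹ ^ 3)) = 0 := by linear_combination (2 / 3) * w
    exact sub_eq_zero.1 ((mul_eq_zero.1 w2).resolve_left hn)
  have lq : ∀ i, eval (p (q i) + γ) l = ζ⁻¹ ^ 3 * eval (p i + γ) l := fun i => by
    linear_combination (-1 / 2) * hv (q i) + (ζ⁻¹ ^ 3 / 2) * hv i + (3 / 2) * hq i + (3 / 2) * hc0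
  have dl : DL 2 l := DL.of_hom hl
  have d2 : DL 3 (l * l) := dl.mul dl
  have dt : DL 3 (tr γ (l * l)) := tr_DL γ d2
  have ht : hc 2 (tr γ (l * l)) = l ^ 2 := by
    rw [hc_tr γ d2, hc_self (hl.mul hl), sq]
  obtain ⟨v, dv, ev⟩ := A.deg 3 _ dt
  obtain ⟨a, b, hab⟩ := top T A dt dv ev
  have z4 : ζ⁻¹ - ζ⁻¹ ^ 5 = 0 := by
    by_contra hw
    obtain ⟨U, V, hU⟩ := Ideal.mem_span_pair.1 (H.rad (v - C (ζ⁻¹ ^ 5) * tr γ (l * l)) fun i => by
      rw [map_sub, hev i _ _ ev]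
      simp only [map_mul, eval_C, eval_tr, lq]
      field_simp
      ring)
    obtain ⟨U', V', u1, u2, u3⟩ := kos_top (e := 1) (n := 1) (T.dl.pderiv 0) (T.dl.pderiv 1)
      (by rw [hc_pderiv, hc_pderiv]; exact T.ci) U V (by rw [hU]; exact dv.sub (dt.C_mul _))
    rw [hU, dl_one u1, dl_one u2] at u3
    have u4 := congrArg (hc 2) u3
    rw [hc_add, hc_C_mul, hc_C_mul, hc_pderiv, hc_pderiv, hc_sub, hc_C_mul, ht] at u4
    rw [ht] at hab
    have hi : (C (ζ⁻¹ - ζ⁻¹ ^ 5)⁻¹ : R2 k) * (C ζ⁻¹ - C (ζ⁻¹ ^ 5)) = 1 := by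
      rw [← map_sub, ← map_mul, inv_mul_cancel₀ hw, map_one]
    refine nosq hF hl hf T H ((ζ⁻¹ - ζ⁻¹ ^ 5)⁻¹ * (coeff 0 U' - a))
      ((ζ⁻¹ - ζ⁻¹ ^ 5)⁻¹ * (coeff 0 V' - b)) ?_
    rw [map_mul, map_mul, map_sub, map_sub]
    linear_combination (-C (ζ⁻¹ - ζ⁻¹ ^ 5)⁻¹) * (u4 + hab) - l ^ 2 * hi
  have z5 : (ζ - 1) * ((ζ + 1) * (ζ ^ 2 + 1)) = 0 := by
    field_simp at z4
    linear_combination z4
  rcases mul_eq_zero.1 ((mul_eq_zero.1 z5).resolve_left (sub_ne_zero.2 A.z1)) with w | w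
  · have w1 : ζ⁻¹ = -1 := by rw [eq_neg_of_add_eq_zero_left w, inv_neg, inv_one]
    refine Or.inl ⟨fun j => -2 * γ j, ?_⟩
    rw [hc0, w1]
    generalize hc 3 f = F at hf hF
    rw [hf, hom_neg]
    simp only [map_add, hom_hom hF, hom_hom hl, UM.Tor4.hom_C]
    simp only [tr, map_mul, map_pow, map_sub, map_neg, map_one, aeval_C, algebraMap_eq]
    ring
  · have w1 : ζ ^ 2 = -1 := eq_neg_of_add_eq_zero_left w
    have w2 : ζ⁻¹ ^ 3 = ζ := by
      field_simp
      linear_combination (1 - ζ ^ 2) * w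
    obtain ⟨i, hi⟩ : ∃ i, eval (p i + γ) l ≠ 0 := by
      by_contra hn
      push Not at hn
      exact h12 (by rw [linj hF hl hf H ((hn i1).trans (hn i2).symm)])
    refine Or.inr ⟨w1, ?_⟩
    rw [hf]
    exact h k _ l ζ e _ _ γ hF hl w1 (crit hf H i) (crit hf H (q i)) hi (by rw [lq, w2])

end Pool.Agent.MP_05b4bd_ag.RV
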