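import Pool.Agent.MP_05b4bd_ag.rr.Bas

/-! A substitution acting on the module comes from a radial symmetry, degree at least four. -/

namespace Pool.Agent.MP_05b4bd_ag.RV

open MvPolynomial HC
open ES.U (TM Cr hom)
open UM.Tor4

theorem tor4rS : Tor4rStmt := by
  intro k G _ _ _ _ d n B f p π ζ c0 S hd hf hcr hP hA
  have z0 := hA.z0
  have low : ∀ (m : ℕ) (u : R2 k), m ≤ 1 → u.IsHomogeneous m → ∃ v, DL (m + 1) v ∧
      S (π u) = π v ∧ hc m v = C (ζ ^ ((d : ℤ) - 2 - m)) * u := by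
    intro m u hm hu
    obtain ⟨v, hv, e⟩ := hA.deg (m + 1) u (DL.of_hom hu)
    have hb := hA.lead m u v (DL.of_hom hu) hv e (fun j hj => by
      have : (0 : ℤ) ≤ d * j := by positivity
      omega)
    have hz := (Esc.nz_full (by omega) (hc_hom d f) hf.ci
      ((hc_hom m v).sub ((hc_hom m u).C_mul _)) hb).1 (by omega)
    exact ⟨v, hv, e, by rw [sub_eq_zero.1 hz, hc_self hu]⟩
  have s1 : S (π 1) = π (C (ζ ^ ((d : ℤ) - 2))) := by
    obtain ⟨v, hv, e, h⟩ := low 0 1 (by omega) (isHomogeneous_one _ _)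
    have := hv.sub_hc.eq_zero
    rw [e, sub_eq_zero.1 this, h]
    simp
  have sX : ∀ j : Fin 2, ∃ c, S (π (X j)) = π (C (ζ ^ ((d : ℤ) - 2 - 1)) * X j + C c) := by
    intro j
    obtain ⟨v, hv, e, h⟩ := low 1 (X j) le_rfl (isHomogeneous_X _ _)
    refine ⟨coeff 0 (v - hc 1 v), ?_⟩
    rw [e, ← dl_one hv.sub_hc, h]
    simp
  choose c hc' using sX
  have zp : ζ ^ ((d : ℤ) - 2) ≠ 0 := zpow_ne_zero _ z0
  have mv : ∀ i, ∃ q, (fun j => ζ⁻¹ * p i j + c j / ζ ^ ((d : ℤ) - 2)) = p q ∧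
      B.c q = ζ⁻¹ ^ d * B.c i + c0 := by
    intro i
    have l1 : (B.ev i ∘ₗ S) (π 1) = ζ ^ ((d : ℤ) - 2) := by
      rw [LinearMap.comp_apply, s1, hP.ev, eval_C]
    obtain ⟨q, a, -, hq, ha⟩ := B.eig (B.ev i ∘ₗ S) (μ := ζ⁻¹ ^ d * B.c i + c0)
      (fun u => by rw [LinearMap.comp_apply, hA.th, map_smul, B.ev_θ, smul_zero])
      (fun u => by
        rw [LinearMap.comp_apply, LinearMap.comp_apply, hA.mul, map_add, map_smul, map_smul, B.mul,
          smul_eq_mul, smul_eq_mul]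
        ring)
      (fun h => zp (by rw [← l1, h, LinearMap.zero_apply]))
    have ea : a = ζ ^ ((d : ℤ) - 2) := by
      rw [← l1, ha, hP.ev, map_one, mul_one]
    refine ⟨q, funext fun j => ?_, hq⟩
    have h := ha (π (X j))
    rw [LinearMap.comp_apply, hc', hP.ev, hP.ev, ea, zpow_sub_one₀ z0] at h
    simp only [map_add, map_mul, eval_C, eval_X] at h
    field_simp
    field_simp at h
    linear_combination h
  set c' : Fin 2 → k := fun j => c j / ζ ^ ((d : ℤ) - 2) with hc''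
  have hg : DL 1 (hom ζ⁻¹ c' f - C (ζ⁻¹ ^ d) * f) := by
    refine const_of fun j => jac_low (by omega) hf (hcr.rad _ fun i => ?_) ?_
    · obtain ⟨q, hq, -⟩ := mv i
      rw [map_sub, pderiv_C_mul, pderiv_hom, map_sub, map_mul, map_mul, eval_hom, hq, hcr.crit,
        hcr.crit, mul_zero, mul_zero, sub_zero]
    · have h := top_hom ζ⁻¹ c' hf.dl
      obtain ⟨e, rfl⟩ : ∃ e, d = e + 1 := ⟨d - 1, by omega⟩
      exact h.pderiv j
  have he := dl_one hg
  obtain ⟨i, -, -⟩ := two_crit (by omega) hf hcr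
  obtain ⟨q, hq, hv⟩ := mv i
  have h := congrArg (eval (p i)) he
  rw [map_sub, eval_hom, hq, map_mul, eval_C, eval_C, ← hP.val, ← hP.val, hv,
    add_sub_cancel_left] at h
  exact ⟨c', by rw [h, ← he]; ring⟩

end Pool.Agent.MP_05b4bd_ag.RV
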