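import Pool.Agent.MP_05b4bd_ag.rr.Spec2

/-! Least first integrals do not depend on the chart at infinity. -/

namespace Pool.Agent.MP_05b4bd_ag.RV

open PowerSeries LaurentSeries HC
open ES hiding Gen Ob Inf
open ES.U (TM Cr hom)
open PC3 (Fm fm d1 DF sub2 pb mapF Van CenK iS)

namespace Trf

variable {U : Type} [Field U]

theorem unit_of {s : AA U} (h : c00 s ≠ 0) : IsUnit s :=
  isUnit_iff_constantCoeff.2 (isUnit_iff_constantCoeff.2 (IsUnit.mk0 _ h))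

theorem c00_X : c00 (X : AA U) = 0 := by rw [c00_apply, constantCoeff_X, map_zero]

theorem c00_cw (D : U →+ U) (s : AA U) : c00 (cw (cw D) s) = D (c00 s) := by
  rw [c00_apply, cc_cw, cc_cw, c00_apply]

theorem ord_iff {R : Type} [CommRing R] (m : ℕ) (f : R⟦X⟧) :
    OrdIs m f ↔ X ^ m ∣ f ∧ ¬ X ^ (m + 1) ∣ f := by
  rw [X_pow_dvd_iff, X_pow_dvd_iff]
  refine ⟨fun h => ⟨h.2, fun h' => h.1 (h' m m.lt_succ_self)⟩, fun h => ⟨fun h0 => h.2 ?_, h.1⟩⟩
  intro j hj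
  rcases Nat.lt_succ_iff_lt_or_eq.1 hj with hj | rfl
  exacts [h.1 j hj, h0]

theorem red_dvd (m : ℕ) (r : AA U) : X ^ m ∣ red r ↔ ∃ s t, r = X ^ m * s + C X * t := by
  constructor
  · rintro ⟨q, hq⟩
    obtain ⟨c, hc⟩ := eq_red_add r
    refine ⟨map C q, c, ?_⟩
    rw [hc, hq, map_mul, map_pow, map_X]
  · rintro ⟨s, t, rfl⟩
    rw [map_add, red_eq_zero.2 (dvd_mul_right (C X) t), add_zero, map_mul, map_pow, red_X]
    exact dvd_mul_right _ _

theorem div {lam a' B' A u e x y w : AA U} (hl : IsUnit lam) (h1 : lam * a' = A * u + A * w * e)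
    (h2 : lam * B' = A * x + A * w * y) (hu : c00 u ≠ 0) (hw : c00 w = 0) : a' ∣ B' := by
  have hv : IsUnit (u + w * e) := unit_of (by rwa [map_add, map_mul, hw, zero_mul, add_zero])
  have hA : a' ∣ A := hv.dvd_mul_right.1 ⟨lam, by linear_combination -h1⟩
  exact hl.dvd_mul_left.1 (hA.trans ⟨x + w * y, by linear_combination h2⟩)

theorem quo {a b w : AA U} (S : Std a b) (h : X * b = a * w) : c00 w = 0 := by
  have e := congrArg (fun s => coeff 1 (red s)) h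
  have e1 : ∀ s : AA U, coeff 1 (red s) = co2 0 1 s := fun s => by
    simp only [red, co2, coeff_map, coeff_zero_eq_constantCoeff]
  simp only [map_mul, red_X, coeff_one_mul, coeff_one_X, constantCoeff_X] at e
  rw [cc_red, cc_red, cc_red, S.1, S.2.2, mul_zero, mul_zero, mul_zero, add_zero, add_zero,
    e1] at e
  exact (mul_eq_zero.1 e.symm).resolve_left S.2.1

variable {D : U →+ U} {η υ lam a b a' b' : AA U} {Θ : AA U →+* AA U}

theorem dvd_iff (H : Chg D η υ Θ) (p r : AA U) : Θ p ∣ Θ r ↔ p ∣ r :=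
  map_dvd_iff (RingEquiv.ofBijective Θ H.bij)

theorem unit_u (H : Chg D η υ Θ) : IsUnit υ := unit_of (by rw [H.u1]; exact one_ne_zero)

theorem pow_iff (H : Chg D η υ Θ) (m : ℕ) (r : AA U) : X ^ m ∣ Θ r ↔ X ^ m ∣ r := by
  rw [← dvd_iff H (X ^ m) r, map_pow, H.w, mul_pow, ((unit_u H).pow m).mul_right_dvd]

theorem red_iff (hD : IsDer D) (H : Chg D η υ Θ) (m : ℕ) (r : AA U) :
    X ^ m ∣ red (Θ r) ↔ X ^ m ∣ red r := by
  have ht : Θ (C X) = C X := H.fix X (cw_X hD.one)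
  rw [red_dvd, red_dvd]
  constructor
  · rintro ⟨s, t, h⟩
    obtain ⟨v, hv⟩ := ((unit_u H).pow m).exists_right_inv
    obtain ⟨s', hs⟩ := H.bij.2 (v * s)
    obtain ⟨t', rfl⟩ := H.bij.2 t
    refine ⟨s', t', H.bij.1 ?_⟩
    rw [h, map_add, map_mul, map_mul, map_pow, H.w, ht, hs]
    linear_combination -(X ^ m * s) * hv
  · rintro ⟨s, t, rfl⟩
    refine ⟨υ ^ m * Θ s, Θ t, ?_⟩
    rw [map_add, map_mul, map_mul, map_pow, H.w, ht]
    ring

theorem c00_u (H : Chg D η υ Θ) : c00 (υ + X * dX _ υ) = 1 := by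
  rw [map_add, map_mul, c00_X, zero_mul, add_zero, H.u1]

theorem c00_y (H : Chg D η υ Θ) : c00 (1 + cw (cw D) η) = 1 := by
  rw [map_add, map_one, c00_cw, H.e0, map_zero, add_zero]

theorem unit_det (H : Chg D η υ Θ) :
    IsUnit ((υ + X * dX _ υ) * (1 + cw (cw D) η) - X * cw (cw D) υ * dX _ η) := unit_of (by
  rw [map_sub, map_mul, c00_u H, c00_y H, map_mul, map_mul, c00_X]
  simp)

theorem fie_iff (H : Chg D η υ Θ) (hl : IsUnit lam)
    (h1 : lam * a' = Θ a * (υ + X * dX _ υ) + Θ (X * b) * dX _ η)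
    (h2 : lam * (X * b') = Θ a * (X * cw (cw D) υ) + Θ (X * b) * (1 + cw (cw D) η)) (r : AA U) :
    FIe (cw D) a' (X * b') (Θ r) ↔ FIe (cw D) a (X * b) r := by
  have e : lam * (a' * cw (cw D) (Θ r) - X * b' * dX _ (Θ r)) =
      ((υ + X * dX _ υ) * (1 + cw (cw D) η) - X * cw (cw D) υ * dX _ η) *
        Θ (a * cw (cw D) r - X * b * dX _ r) := by
    rw [map_sub, map_mul, map_mul _ (X * b), mul_sub, ← mul_assoc, ← mul_assoc, h1, h2, H.ds, H.dw]
    ring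
  unfold FIe
  rw [← sub_eq_zero, ← hl.mul_right_eq_zero, e, (unit_det H).mul_right_eq_zero,
    map_eq_zero_iff Θ H.bij.1, sub_eq_zero]

theorem nd_iff (H : Chg D η υ Θ) (hl : IsUnit lam)
    (h1 : lam * a' = Θ a * (υ + X * dX _ υ) + Θ (X * b) * dX _ η)
    (h2 : lam * (X * b') = Θ a * (X * cw (cw D) υ) + Θ (X * b) * (1 + cw (cw D) η))
    (S : Std a b) (S' : Std a' b') : a ∣ X * b ↔ a' ∣ X * b' := by
  constructor
  · rintro ⟨w, hw⟩
    have h0 := quo S hw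
    rw [hw, map_mul] at h1 h2
    exact div hl h1 h2 (by rw [c00_u H]; exact one_ne_zero) (by rw [H.c0, h0])
  · rintro ⟨w, hw⟩
    have h0 := quo S' hw
    rw [hw] at h2
    rw [← dvd_iff H]
    refine div (a' := Θ a) (A := a') (u := lam * (1 + cw (cw D) η)) (e := -(lam * dX _ η))
      (x := -(lam * (X * cw (cw D) υ))) (y := lam * (υ + X * dX _ υ)) (unit_det H) ?_ ?_ ?_ h0
    · linear_combination dX _ η * h2 - (1 + cw (cw D) η) * h1
    · linear_combination X * cw (cw D) υ * h1 - (υ + X * dX _ υ) * h2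
    · rw [map_mul, c00_y H, mul_one]
      exact (hl.map c00).ne_zero

/-- Transfer over an extension. -/
theorem ext {L : Type} [Field L] {D : L →+ L} {η υ lam a b a' b' : AA L} {Θ : AA L →+* AA L}
    (H : ChgA D η υ Θ) (hl : IsUnit lam)
    (h1 : lam * a' = Θ a * (υ + X * dX _ υ) + Θ (X * b) * dX _ η)
    (h2 : lam * (X * b') = Θ a * (X * cw (cw D) υ) + Θ (X * b) * (1 + cw (cw D) η))
    {D1 : U →+ U} {i : L →+* U} (E : DExt D D1 i) : ∃ T : AA U → AA U, Function.Surjective T ∧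
    ∀ r, (cc (T r) = 0 ↔ cc r = 0) ∧ (FIe (cw D1) (mA i a') (X * mA i b') (T r) ↔
      FIe (cw D1) (mA i a) (X * mA i b) r) ∧ (∀ m, OrdIs m (red (T r)) ↔ OrdIs m (red r)) ∧
      ∀ m, OrdIs m (T r) ↔ OrdIs m r := by
  obtain ⟨T, G, hT⟩ := H.2 U D1 i E
  have k1 : ∀ s, mA i (dX _ s) = dX _ (mA i s) := fun s => (dX_map _ s).symm
  have k2 : ∀ s, mA i (cw (cw D) s) = cw (cw D1) (mA i s) := fun s =>
    (cw_map' (cw_map' E.2) s).symm
  have k3 : T (X * mA i b) = mA i (Θ (X * b)) := by rw [← hT, map_mul (mA i), mA_X]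
  refine ⟨T, G.bij.2, fun r => ⟨?_, fie_iff G (hl.map (mA i)) ?_ ?_ r, fun m => ?_, fun m => ?_⟩⟩
  · rw [← X_dvd_iff, ← X_dvd_iff, ← pow_one X, pow_iff G]
  · have e := congrArg (mA i) h1
    simp only [map_mul (mA i), map_add (mA i), mA_X, k1] at e
    rw [k3, hT, e]
  · have e := congrArg (mA i) h2
    simp only [map_mul (mA i), map_add (mA i), map_one, mA_X, k2] at e
    rw [k3, hT, e]
  · rw [ord_iff, ord_iff, red_iff E.1 G, red_iff E.1 G]
  · rw [ord_iff, ord_iff, pow_iff G, pow_iff G]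

end Trf

theorem trfS : TrfStmt := by
  intro k L _ _ κ D η υ lam a b a' b' Θ n α _ H hl h1 h2 S S'
  have nd := Trf.nd_iff H.1 hl h1 h2 S S'
  have fi : ∀ m, HasFI D a b m ↔ HasFI D a' b' m := fun m => by
    constructor
    · rintro ⟨U, _, D1, i, r, E, p1, p2, p3⟩
      obtain ⟨T, -, hT⟩ := Trf.ext H hl h1 h2 E
      obtain ⟨q1, q2, q3, -⟩ := hT r
      exact ⟨U, _, D1, i, T r, E, q1.2 p1, q2.2 p2, (q3 m).2 p3⟩
    · rintro ⟨U, _, D1, i, r, E, p1, p2, p3⟩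
      obtain ⟨T, hs, hT⟩ := Trf.ext H hl h1 h2 E
      obtain ⟨r, rfl⟩ := hs r
      obtain ⟨q1, q2, q3, -⟩ := hT r
      exact ⟨U, _, D1, i, r, E, q1.1 p1, q2.1 p2, (q3 m).1 p3⟩
  constructor
  · rintro ⟨g1, g2, U, _, D1, i, r, E, p0, p1, p2, p3, p4⟩
    obtain ⟨T, -, hT⟩ := Trf.ext H hl h1 h2 E
    obtain ⟨q1, q2, q3, q4⟩ := hT r
    exact ⟨fun h => g1 (nd.2 h), fun m hm h => g2 m hm ((fi m).2 h), U, _, D1, i, T r, E, p0,
      q1.2 p1, q2.2 p2, (q3 n).2 p3, (q4 α).2 p4⟩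
  · rintro ⟨g1, g2, U, _, D1, i, r, E, p0, p1, p2, p3, p4⟩
    obtain ⟨T, hs, hT⟩ := Trf.ext H hl h1 h2 E
    obtain ⟨r, rfl⟩ := hs r
    obtain ⟨q1, q2, q3, q4⟩ := hT r
    exact ⟨fun h => g1 (nd.1 h), fun m hm h => g2 m hm ((fi m).1 h), U, _, D1, i, r, E, p0,
      q1.1 p1, q2.1 p2, (q3 n).1 p3, (q4 α).1 p4⟩

end Pool.Agent.MP_05b4bd_ag.RV
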