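import Pool.Agent.MP_05b4bd_ag.rr.Spec5

/-! Transport of an equivalence from the local ring of a fibre. -/

namespace Pool.Agent.MP_05b4bd_ag.RV

open PowerSeries LaurentSeries HC
open ES hiding Gen Ob Inf
open ES.U (TM Cr hom)

namespace Trp

variable {k O T : Type} [Field k] [CommRing O] [CommRing T]

theorem map_evS (h : EvsStmt) (e : R2 k →+* O) (g : O →+* T) (ξ : Fin 2 → O⟦X⟧)
    (u : (R2 k)⟦X⟧) : map g (evS e ξ u) = evS (g.comp e) (fun i => map g (ξ i)) u :=
  (h k O e ξ).2.2.2.2 T (g.comp e) (map g) (map_X g) (fun c => by rw [map_C]; rfl) u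

theorem map_vS (e : R2 k →+* O) (g : O →+* T) {dO : Fin 2 → O →+ O} {d : Fin 2 → T →+ T}
    (hn : ∀ i z, d i (g z) = g (dO i z)) (B : Fin 2 → (R2 k)⟦X⟧) (y : O⟦X⟧) :
    map g (vS dO (fun j => map e (B j)) y) = vS d (fun j => map (g.comp e) (B j)) (map g y) := by
  simp only [vS, map_add, map_mul, cw_map' (hn _), PowerSeries.map_comp, RingHom.comp_apply]

theorem push (h : EvsStmt) {e : R2 k →+* O} (g : O →+* T) {dO : Fin 2 → O →+ O}
    {d : Fin 2 → T →+ T} (hn : ∀ i z, d i (g z) = g (dO i z)) {A B : Fin 2 → (R2 k)⟦X⟧} {m : ℕ}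
    {ξ : Fin 2 → O⟦X⟧} {μ : O⟦X⟧} (H : Eqv e dO A B m ξ μ) :
    Eqv (g.comp e) d A B m (fun i => map g (ξ i)) (map g μ) := by
  refine ⟨fun i => ?_, fun i => ?_⟩
  · have := map_dvd (map g) (H.near i)
    rwa [map_pow, map_X, map_sub, map_C] at this
  · rw [← map_vS e g hn, H.eq, map_mul, map_evS h]

theorem pull (h : EvsStmt) {e : R2 k →+* O} {g : O →+* T} (hg : Function.Injective g)
    {dO : Fin 2 → O →+ O} {d : Fin 2 → T →+ T} (hn : ∀ i z, d i (g z) = g (dO i z))
    {A B : Fin 2 → (R2 k)⟦X⟧} {m : ℕ} {ξ : Fin 2 → O⟦X⟧} {μ : O⟦X⟧}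
    (H : Eqv (g.comp e) d A B m (fun i => map g (ξ i)) (map g μ)) : Eqv e dO A B m ξ μ := by
  refine ⟨fun i => ?_, fun i => ?_⟩
  · have := H.near i
    rw [X_pow_dvd_iff] at this ⊢
    intro n hn
    apply hg
    have e1 := this n hn
    rw [RingHom.comp_apply, ← map_C, ← map_sub, coeff_map] at e1
    rw [e1, map_zero]
  · apply PowerSeries.map_injective g hg
    rw [map_vS e g hn, H.eq, map_mul, map_evS h]

/-- The polynomials not divisible by a prime. -/
def sm {R : Type} [CommRing R] {p : R} (hp : Prime p) : Submonoid R where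
  carrier := {v | ¬ p ∣ v}
  one_mem' := hp.not_dvd_one
  mul_mem' := fun ha hb h => (hp.dvd_or_dvd h).elim ha hb

theorem nat {R : Type} [CommRing R] (M : Submonoid R) [Algebra R O] [IsLocalization M O]
    (g : O →+* T) {dO : O →+ O} {d : T →+ T} (h1 : IsDer dO) (h2 : IsDer d)
    (hn : ∀ u, d (g (algebraMap R O u)) = g (dO (algebraMap R O u))) (z : O) :
    d (g z) = g (dO z) := by
  obtain ⟨⟨u, v⟩, huv⟩ := IsLocalization.surj M z
  have hu : IsUnit (g (algebraMap R O v)) := (IsLocalization.map_units O v).map g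
  have a1 := hn u
  have a2 := hn v
  rw [← huv, h1, map_mul, h2, map_add, map_mul, map_mul, a2] at a1
  exact hu.mul_right_cancel (add_right_cancel a1)

end Trp

open Trp in
theorem trpS (h : EvsStmt) : TrpStmt := by
  intro k T _ _ e d dF f S c A B m ξ μ hd hF hp hu hξ hμ _ H hS
  have inj : Function.Injective (eF k) := IsFractionRing.injective (R2 k) (FF k)
  have uF : ∀ v : sm hp, IsUnit (eF k v) := fun v => by
    refine IsUnit.mk0 _ fun z => v.2 ?_
    rw [inj (z.trans (map_zero _).symm)]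
    exact dvd_zero _
  have uT : ∀ v : sm hp, IsUnit (e v) := fun v => hu v v.2
  let O := Localization (sm hp)
  let eO : R2 k →+* O := algebraMap _ _
  let ι : O →+* FF k := IsLocalization.lift uF
  let j : O →+* T := IsLocalization.lift uT
  have hι : ι.comp eO = eF k := IsLocalization.lift_comp uF
  have hj : j.comp eO = e := IsLocalization.lift_comp uT
  have hι' : ∀ u, ι (eO u) = eF k u := fun u => IsLocalization.lift_eq uF u
  have hj' : ∀ u, j (eO u) = e u := fun u => IsLocalization.lift_eq uT u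
  have iι : Function.Injective ι := by
    rw [IsLocalization.lift_injective_iff]
    intro x y
    exact ⟨fun z => by rw [← hι', ← hι']; exact congrArg ι z, fun z => by rw [inj z]⟩
  choose dO d1 d2 using fun i : Fin 2 => exists_der_loc (T := O) (sm hp) (isDer_pd (R := k) i)
  have nι : ∀ i z, dF i (ι z) = ι (dO i z) := fun i =>
    nat (sm hp) ι (d1 i) (hF.der i) fun u => by
      rw [d2]
      exact (congrArg (dF i) (hι' u)).trans ((hF.ext i u).trans (hι' _).symm)
  have nj : ∀ i z, d i (j z) = j (dO i z) := fun i =>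
    nat (sm hp) j (d1 i) (hd.der i) fun u => by
      rw [d2]
      exact (congrArg (d i) (hj' u)).trans ((hd.ext i u).trans (hj' _).symm)
  have sur : ∀ z, InO f c z → ∃ y, ι y = z := by
    rintro z ⟨u, v, hv, huv⟩
    refine ⟨IsLocalization.mk' O u (⟨v, hv⟩ : sm hp), (uF ⟨v, hv⟩).mul_left_cancel ?_⟩
    rw [huv, ← hι', ← hι', ← map_mul]
    exact congrArg ι (IsLocalization.mk'_spec' O u (⟨v, hv⟩ : sm hp))
  have surS : ∀ z : (FF k)⟦X⟧, (∀ n, InO f c (coeff n z)) → ∃ y, map ι y = z := fun z hz => by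
    choose y hy using fun n => sur _ (hz n)
    exact ⟨PowerSeries.mk y, PowerSeries.ext fun n => by rw [coeff_map, coeff_mk, hy]⟩
  choose ξO hξO using fun i => surS _ (hξ i)
  obtain ⟨μO, rfl⟩ := surS _ hμ
  obtain rfl : ξ = fun i => map ι (ξO i) := funext fun i => (hξO i).symm
  rw [← hι] at H hS
  have H1 := push h j nj (pull h iι nι H)
  rw [hj] at H1
  refine ⟨_, _, H1, ?_⟩
  rw [← map_evS h, coeff_map, RingHom.comp_apply] at hS
  rw [← hj, ← map_evS h, coeff_map, iι hS, RingHom.comp_apply]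

end Pool.Agent.MP_05b4bd_ag.RV
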