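import Pool.Agent.MP_05b4bd_ag.rr.Spec3
import Mathlib.RingTheory.RootsOfUnity.AlgebraicallyClosed

/-! Two quotient coordinates of the same order differ by a substitution. -/

namespace Pool.Agent.MP_05b4bd_ag.RV

open PowerSeries LaurentSeries HC
open ES hiding Gen Ob Inf

namespace Unir

theorem cc_mA {L U : Type} [Field L] [Field U] (i : L →+* U) {r : AA L} (h : cc r = 0) :
    cc (mA i r) = 0 := by
  have e : cc (mA i r) = map i (cc r) := by
    rw [mA, ← coeff_zero_eq_constantCoeff_apply, coeff_map, coeff_zero_eq_constantCoeff_apply]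
  rw [e, h, map_zero]

theorem cc_red {L : Type} [Field L] {r : AA L} (h : cc r = 0) : cc (red r) = 0 := by
  rw [← coeff_zero_eq_constantCoeff_apply, coeff_red, coeff_zero_eq_constantCoeff_apply, h,
    map_zero]

theorem ord_map {L U : Type} [Field L] [Field U] (i : L →+* U) {n : ℕ} {f : L⟦X⟧}
    (h : OrdIs n f) : OrdIs n (map i f) :=
  ⟨by rw [coeff_map]; exact (map_ne_zero i).2 h.1,
    fun j hj => by rw [coeff_map, h.2 j hj, map_zero]⟩

theorem red_sb {U : Type} [Field U] {s Ψ : AA U} (hs : cc s = 0) (h : red Ψ = X) :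
    red (sb s Ψ) = red s := by
  have e : red (sb s Ψ) = sb (red s) (red Ψ) := map_sb hs cc Ψ
  rw [e, h, sb_X (cc_red hs)]

theorem unit_one {U : Type} [Field U] {Ψ : AA U} (h : red Ψ = X) : IsUnit (coeff 1 Ψ) := by
  rw [isUnit_iff_constantCoeff, isUnit_iff_ne_zero]
  have e := coeff_red Ψ 1
  rw [h, coeff_one_X] at e
  intro c
  exact one_ne_zero (e.trans c)

end Unir

open Unir in
theorem unirS (h1 : NprStmt) (h2 : SolveStmt) (h3 : DescStmt) : UnirStmt := by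
  intro k L _ _ _ _ κ D a b ρ B ρ' B' d n α hD hd ha hb hG hρ hρ'
  have : CharZero L := charZero_of_injective_ringHom κ.injective
  obtain ⟨U, _, D1, i, hE, hS⟩ := h2 L D hD
  have : CharZero U := charZero_of_injective_ringHom i.injective
  obtain ⟨Ψ, p0, p1, p2⟩ := hS a b ρ B n hρ
  obtain ⟨Ψ', q0, q1, q2⟩ := hS a b ρ' B' n hρ'
  have hn : n ≠ 0 := by
    rintro rfl
    exact hρ.ord.1 (by rw [coeff_zero_eq_constantCoeff_apply]; exact cc_red hρ.c0)
  have : NeZero (n : k) := ⟨Nat.cast_ne_zero.2 hn⟩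
  obtain ⟨ω, hω⟩ := HasEnoughRootsOfUnity.exists_primitiveRoot k n
  have c1 := cc_mA i hρ.c0
  have c2 := cc_mA i hρ'.c0
  have hmin : ∀ m < n, ¬ HasFI D1 (mA i a) (mA i b) m := by
    rintro m hm ⟨V, _, D2, j, r, e1, e2, e3, e4⟩
    refine hG.min m hm ⟨V, inferInstance, D2, j.comp i, r, ⟨e1.1, fun c => ?_⟩, e2, ?_, e4⟩
    · rw [RingHom.comp_apply, e1.2, hE.2, RingHom.comp_apply]
    · rwa [mA_mA, mA_mA] at e3
  obtain ⟨-, hall, -⟩ := h1 U D1 (mA i a) (mA i b) (sb (mA i ρ) Ψ) d n (i (κ ω)) hE.1 hd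
    (by rw [red_mA, ha]; simp) (by rw [red_mA, hb, map_zero]) (fun c => hG.nd ((nd_map i).1 c))
    hmin (by rw [cc_sb c1, p0]) p2 (by rw [red_sb c1 p1, red_mA]; exact ord_map i hρ.ord)
    ((hω.map_of_injective κ.injective).map_of_injective i.injective)
  obtain ⟨G, hG1⟩ := hall _ q2
  have r0 : cc (sb (mA i ρ) Ψ) = 0 := by rw [cc_sb c1, p0]
  have g0 : cc G = 0 := by rw [← cc_sb r0, ← hG1, cc_sb c2, q0]
  obtain ⟨e, e0, -, -, e3⟩ := exists_inv q0 (unit_one q1)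
  have s0 : cc (sb Ψ G) = 0 := by rw [cc_sb p0, g0]
  have key : mA i ρ' = mA i 1 * sb (mA i ρ) (sb (sb Ψ G) e) := by
    rw [map_one, one_mul, sb_sb c1 s0, sb_sb c1 p0, ← hG1, ← sb_sb c2 q0, e3, sb_X c2]
  obtain ⟨G0, a1, a2, -⟩ := h3 L U i ρ ρ' 1 _ hρ.c0 key
  exact ⟨G0, a2 (by rw [cc_sb s0, e0]), by rw [a1, one_mul]⟩

end Pool.Agent.MP_05b4bd_ag.RV
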