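import Pool.Agent.MP_05b4bd_ag.rr.Spec3
import Pool.Agent.MP_05b4bd_ag.rr.Deckr
import Pool.Agent.MP_05b4bd_ag.esc.Ann
import Mathlib.LinearAlgebra.Vandermonde

/-! Full systems of deck transformations: existence and Vandermonde arguments. -/

namespace Pool.Agent.MP_05b4bd_ag.RV

open PowerSeries LaurentSeries HC
open ES hiding Gen Ob Inf
open ES.Deck

namespace Vand

variable {L ι : Type} [Field L] [CharZero L] [Fintype ι] {ρ : AA L} {σ : ι → L⟦X⟧}
  {Φ : ι → AA L →+* TT L} {i0 : ι}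

omit [CharZero L] in
theorem sn (h : Dks ρ σ Φ i0) (i : ι) : σ i ≠ 0 := fun e => h.s1 i (by rw [e, map_zero])

theorem ccv (h : Dks ρ σ Φ i0) (i : ι) (c : AA L) : cc (Φ i c) = coeL L (sb (σ i) (red c)) := by
  have := charL (κ := L)
  exact (h.out i).cc_eq (K3.ne0 (h.s0 i) (sn h i)) c

theorem fixs (h : Dks ρ σ Φ i0) (i : ι) (G : AA L) : Φ i (sb ρ G) = iT (sb ρ G) :=
  Deckr.fix_sb h.c0 (h.s0 i) (sn h i) (coeL_inj (by rw [← ccv h, h.fix, cc_iT])) (h.out i)
    (h.fix i) G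

theorem ccX (h : Dks ρ σ Φ i0) (i : ι) : cc (Φ i X) = coeL L (σ i) := by
  rw [ccv h, red_X, sb_X (h.s0 i)]

theorem injX (h : Dks ρ σ Φ i0) : Function.Injective fun i => Φ i X := fun i j e =>
  h.inj (congrArg (coeff 1) (coeL_inj ((ccX h i).symm.trans ((congrArg cc e).trans (ccX h j)))))

theorem inj (h : Dks ρ σ Φ i0) (i : ι) : Function.Injective (Φ i) := by
  refine (injective_iff_map_eq_zero _).2 fun c e => by_contra fun n => ?_
  obtain ⟨m, c', rfl, r⟩ := exists_tfac n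
  have t : Φ i (C X) = X := by simpa using (h.out i).2
  rw [map_mul, map_pow, t] at e
  have z := ccv h i c'
  rw [(mul_eq_zero.1 e).resolve_left (pow_ne_zero _ X_ne_zero), map_zero] at z
  exact p0_ne (h.s0 i) (sn h i) r z.symm

omit [CharZero L] in
theorem gen {n : ℕ} (h : cc ρ = 0) (hy : OrdIs n (red ρ)) (c : AA L) :
    ∃ G : Fin n → AA L, c = ∑ j, sb ρ (G j) * X ^ (j : ℕ) := by
  have t0 : tA L 0 = C X := by rw [tA, pow_zero, mul_one]
  have k := Disc.gens (t := tA L 0) (y := ρ) (tA_mem 0) (by rw [c00_apply, h, map_zero])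
    (fun i : Fin n => X ^ (i : ℕ)) (fun a => by
      obtain ⟨s, hs⟩ := Disc.divide hy (red a)
      refine ⟨fun i => coeff i (red a), map C s, ?_⟩
      rw [t0, ← red_eq_zero, map_sub, map_sub, map_mul, red_mapC, map_sum, sub_sub, sub_eq_zero]
      simpa only [map_mul, map_pow, red_X, CC_apply, red_C, constantCoeff_C] using hs) c
  simpa only [Deckr.sb_eq h] using k

/-- Proportional images give proportional coordinates. -/
theorem van (h : Dks ρ σ Φ i0) {c e : AA L} {G H : Fin (Fintype.card ι) → AA L}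
    (hc : c = ∑ j, sb ρ (G j) * X ^ (j : ℕ)) (he : e = ∑ j, sb ρ (H j) * X ^ (j : ℕ))
    (k : ∀ i, Φ i c * iT e = iT c * Φ i e) (j) : sb ρ (G j) * e = c * sb ρ (H j) := by
  have z := Matrix.eq_zero_of_forall_index_sum_mul_pow_eq_zero
    (f := fun l => Φ ((Fintype.equivFin ι).symm l) X)
    (v := fun j => iT (sb ρ (G j) * e - c * sb ρ (H j)))
    ((injX h).comp (Fintype.equivFin ι).symm.injective) fun l => by
      have w : ∀ G : Fin (Fintype.card ι) → AA L, ∀ i, Φ i (∑ j, sb ρ (G j) * X ^ (j : ℕ)) =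
          ∑ j, iT (sb ρ (G j)) * Φ i X ^ (j : ℕ) := fun G i => by
        simp only [map_sum, map_mul, map_pow, fixs h]
      have k1 := k ((Fintype.equivFin ι).symm l)
      rw [congrArg (Φ _) hc, congrArg (Φ _) he, w, w, Finset.sum_mul, Finset.mul_sum,
        ← sub_eq_zero, ← Finset.sum_sub_distrib] at k1
      refine (Finset.sum_congr rfl fun j _ => ?_).trans k1
      rw [map_sub, map_mul, map_mul]
      ring
  exact sub_eq_zero.1 (iT_inj ((congrFun z j).trans (map_zero _).symm))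

omit [CharZero L] in
theorem unit1 {n : ℕ} (hn : 2 ≤ n) (h : cc ρ = 0) (hy : OrdIs n (red ρ)) {H : Fin n → AA L}
    (he : OrdIs 1 (red (∑ j, sb ρ (H j) * X ^ (j : ℕ)))) : IsUnit (H ⟨1, hn⟩) := by
  have r0 : cc (red ρ) = 0 := Disc.cc_eq_zero (by omega) hy
  have r2 : X ^ 2 ∣ red ρ := X_pow_dvd_iff.2 fun m hm => hy.2 m (by omega)
  have a : ∀ g : AA L, X ^ 2 ∣ red (sb ρ g) - C (c00 g) := fun g => by
    obtain ⟨u, hu⟩ : X ∣ red g - C (c00 g) := by
      rw [X_dvd_iff, map_sub, constantCoeff_C, cc_red, sub_self]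
    have e : red (sb ρ g) = sb (red ρ) (red g) := map_sb h _ g
    rw [e, ← sb_C r0, ← map_sub, hu, map_mul, sb_X r0]
    exact r2.mul_right _
  have b : X ^ 2 ∣ red (∑ j, sb ρ (H j) * X ^ (j : ℕ)) - ∑ j, C (c00 (H j)) * X ^ (j : ℕ) := by
    rw [map_sum, ← Finset.sum_sub_distrib]
    refine Finset.dvd_sum fun j _ => ?_
    rw [map_mul, map_pow, red_X, ← sub_mul]
    exact (a _).mul_right _
  have c := X_pow_dvd_iff.1 b 1 (by omega)
  rw [map_sub, map_sum (coeff 1), sub_eq_zero, eq_comm, Finset.sum_eq_single ⟨1, hn⟩] at c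
  · rw [isUnit_iff_constantCoeff, isUnit_iff_constantCoeff, isUnit_iff_ne_zero]
    refine fun z => he.1 (c.symm.trans ?_)
    rw [c00_apply, z, map_zero, zero_mul, map_zero]
  · intro i _ hi
    rw [coeff_C_mul, coeff_X_pow, if_neg fun c => hi (Fin.ext c.symm), mul_zero]
  · simp

end Vand

open Vand in
theorem vandS : VandStmt := by
  intro L _ _ ρ
  refine ⟨fun n hn ω hω h hy => ?_, fun ι _ σ Φ i0 h => ⟨gen h.c0 h.ord, fixs h, inj h, injX h,
    ccX h, fun c k => ?_, fun c e hn he k => ?_⟩⟩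
  · obtain ⟨σ, Φ, e0, p⟩ := Disc.outer 0 hn hω hy
    refine ⟨σ, Φ, ⟨h, by rwa [Fintype.card_fin], fun i => (p i).1,
      fun i => (p i).2.1.trans_ne (pow_ne_zero _ (hω.ne_zero hn.ne')), fun i j e => ?_,
      fun i => (p i).2.2.2.1, fun i => ?_, e0.trans out_zero⟩, fun i => (p i).2.1⟩
    · exact Fin.ext (hω.pow_inj i.2 j.2 ((p i).2.1.symm.trans (e.trans (p j).2.1)))
    · have := (p i).2.2.2.2.2.2 X
      rwa [Deckr.sb_eq h, sb_X h, out_zero] at this
  · obtain ⟨G, hG⟩ := gen h.c0 h.ord c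
    have n0 : 0 < Fintype.card ι := Fintype.card_pos_iff.2 ⟨i0⟩
    have z := van h (e := 1) (H := Pi.single ⟨0, n0⟩ 1) hG
      (by rw [Finset.sum_eq_single ⟨0, n0⟩ (fun j _ hj => by simp [hj]) (by simp)]; simp)
      (fun i => by rw [k, map_one, map_one]) ⟨0, n0⟩
    exact ⟨G ⟨0, n0⟩, by simpa using z.symm⟩
  · obtain ⟨G, hG⟩ := gen h.c0 h.ord c
    obtain ⟨H, hH⟩ := gen h.c0 h.ord e
    obtain ⟨v, hv⟩ := (unit1 hn h.c0 h.ord (hH ▸ he)).exists_right_inv
    have z := van h hG hH k ⟨1, hn⟩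
    have w := congrArg (sb ρ) hv
    rw [map_mul, map_one] at w
    exact ⟨G ⟨1, hn⟩ * v, by rw [map_mul]; linear_combination -c * w - sb ρ v * z⟩

end Pool.Agent.MP_05b4bd_ag.RV
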