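import Pool.Agent.MP_05b4bd_ag.rr.Spec4
import Pool.Agent.MP_05b4bd_ag.pc3.Van

/-! Limits of members of the reversible family satisfy the equations of the family. -/

namespace Pool.Agent.MP_05b4bd_ag.RV

open MvPolynomial HC
open PC3 (Fm fm d1 DF sub2 pb mapF Van)
open PC3.VanR (pv_map pv_ev)

namespace VanrS

variable {B : Type} [CommRing B] [Algebra ℂ B]

theorem van (h : UnivStmt) {d a b : ℕ} {w : Fm B} (hw : HR d a b w) : Van (RR d a b) w := by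
  intro R hR
  obtain ⟨h1, h2, -, -, σ, U, hU, h5⟩ := h d a b
  obtain ⟨x, rfl⟩ := h5 B w hw
  have : pev U.1 U.2 0 (rename Sum.inl R) = 0 := MvPolynomial.funext fun t => by
    rw [map_zero, ← coe_aeval_eq_eval]
    exact (pv_map (aeval t) U _).trans ((pv_ev _ R).trans (hR _ ((h1 _).2 (h2 _ _ _ U hU))))
  rw [← pv_map, this, map_zero]

theorem cong {t : B} {u v : Fm B} (h1 : C t ∣ u.1 - v.1) (h2 : C t ∣ u.2 - v.2) (R : PCo) :
    t ∣ pev u.1 u.2 0 R - pev v.1 v.2 0 R := by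
  let φ := Ideal.Quotient.mkₐ ℂ (Ideal.span {t})
  have z : (φ : B →+* B ⧸ Ideal.span {t}) t = 0 :=
    Ideal.Quotient.eq_zero_iff_mem.2 (Ideal.mem_span_singleton_self t)
  have k : ∀ p q : R2 B, C t ∣ p - q →
      map (φ : B →+* B ⧸ Ideal.span {t}) p = map (φ : B →+* B ⧸ Ideal.span {t}) q := by
    rintro p q ⟨c, hc⟩
    rw [← sub_eq_zero, ← map_sub, hc, map_mul, map_C, z, C_0, zero_mul]
  have e : mapF (φ : B →+* B ⧸ Ideal.span {t}) u = mapF (φ : B →+* B ⧸ Ideal.span {t}) v :=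
    Prod.ext (k _ _ h1) (k _ _ h2)
  refine Ideal.mem_span_singleton.1 (Ideal.Quotient.eq.1 ?_)
  exact (pv_map φ u R).trans (e ▸ (pv_map φ v R).symm)

theorem lim (h : UnivStmt) {A S : Type} [CommRing A] [Algebra ℂ A] [CommRing S] (ι : A →+* S)
    (t : S) {d a b : ℕ} {w : Fm A} {R : Co}
    (hR : ∀ ω ∈ RR d a b, Pool.Agent.MP_05b4bd_ag.ev R ω = 0) {w' : Fm S} (hw : HR d a b w')
    (h1 : C t ∣ (mapF ι w).1 - w'.1) (h2 : C t ∣ (mapF ι w).2 - w'.2) :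
    t ∣ ι (pev w.1 w.2 0 (rename Sum.inl R)) := by
  let _ : Algebra ℂ S := (ι.comp (algebraMap ℂ A)).toAlgebra
  let φ : A →ₐ[ℂ] S := { ι with commutes' := fun _ => rfl }
  have k := cong h1 h2 (rename Sum.inl R)
  rw [van h hw R hR, sub_zero] at k
  exact k.trans (dvd_of_eq (pv_map φ w _).symm)

end VanrS

theorem vanrS (h : UnivStmt) : VanrStmt := by
  rintro A _ _ d a b w ⟨K, _, ι, hι, hn⟩ R hR
  refine hι ?_
  rw [map_zero]
  ext n
  obtain ⟨w', hw, h1, h2⟩ := hn (n + 1)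
  rw [map_zero]
  exact PowerSeries.X_pow_dvd_iff.1 (VanrS.lim h ι _ hR hw h1 h2) n n.lt_succ_self

end Pool.Agent.MP_05b4bd_ag.RV
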