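import Pool.Agent.MP_05b4bd_ag.rr.Bas

/-! The top part of the remainder: a multiple of the top Hamiltonian form plus an exact form. -/

namespace Pool.Agent.MP_05b4bd_ag.RV

open MvPolynomial HC
open ES.U (TM Cr hom)
open PC3 (Fm fm d1 DF)

namespace Wd1

variable {k : Type} [Field k]

theorem hom0 {u : R2 k} (hu : u.IsHomogeneous 0) : ∃ a, u = C a :=
  ⟨coeff 0 u, by rw [← hc_self hu]; exact (homogeneousComponent_zero u).trans (by rw [hc_self hu])⟩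

theorem hom1 {u : R2 k} (hu : u.IsHomogeneous 1) : ∃ a b, u = HC.lf a b := by
  obtain ⟨a, ha⟩ := hom0 (hom_pderiv 0 hu)
  obtain ⟨b, hb⟩ := hom0 (hom_pderiv 1 hu)
  have h := euler hu
  rw [ha, hb] at h
  exact ⟨a, b, by rw [HC.lf]; push_cast at h; linear_combination -h⟩

theorem dl_dif (c ζ : k) {n : ℕ} {u : R2 k} (hu : DL n u) : DL n (C c * hom ζ 0 u - u) :=
  ((UM.Tor4.hom_DL ζ 0 hu).C_mul c).sub hu

theorem hc_dif {ζ : k} (h0 : ζ ≠ 0) (d : ℕ) (u : R2 k) :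
    hc d (C (ζ * ζ⁻¹ ^ d) * hom ζ 0 u - u) = C (ζ - 1) * hc d u := by
  have e : ζ * ζ⁻¹ ^ d * ζ ^ d = ζ := by
    rw [mul_assoc, ← mul_pow, inv_mul_cancel₀ h0, one_pow, mul_one]
  rw [hc_sub, hc_C_mul, hc_homz, ← mul_assoc, ← C_mul, e, C_sub, C_1]
  ring

end Wd1

theorem wd1S (h : UM.GrStmt) : Wd1Stmt := by
  intro k _ _ d f S ζ r hd H h0 h1 hr hS
  obtain ⟨e, rfl⟩ : ∃ e, d = e + 2 := ⟨d - 2, by omega⟩
  have hP : DL (e + 2 + 1) (dif (e + 2) ζ r).1 := Wd1.dl_dif _ ζ hr.1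
  have hQ : DL (e + 2 + 1) (dif (e + 2) ζ r).2 := Wd1.dl_dif _ ζ hr.2
  have hf : DL (e + 1 + 2) f := H.dl
  have hR : DL (e + 2 + (e + 2)) (br S f) := by
    rw [hS]
    exact (hP.mul (H.dl.pderiv 0)).add (hQ.mul (H.dl.pderiv 1))
  obtain ⟨S', hS', e1⟩ := (h k (e + 2) f (by omega) H).1 _ S hR
  have hT : DL (e + 2 + 2) S' := hS'.mono (by omega)
  have t1 := hc_vf_top hP hQ hf
  have t2 := hc_vf_top (a := e + 1) (H.dl.pderiv 1) (H.dl.pderiv 0).neg hT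
  rw [← br_eq_vf, e1, hS, show e + 1 + (e + 2) = e + 2 + (e + 1) by omega, t1, hc_neg, hc_pderiv,
    hc_pderiv] at t2
  have p1 : hc (e + 2) (dif (e + 2) ζ r).1 = C (ζ - 1) * hc (e + 2) r.1 := Wd1.hc_dif h0 _ _
  have p2 : hc (e + 2) (dif (e + 2) ζ r).2 = C (ζ - 1) * hc (e + 2) r.2 := Wd1.hc_dif h0 _ _
  rw [p1, p2, vf, vf] at t2
  have hu : (C (ζ - 1)⁻¹ * C (ζ - 1) : R2 k) = 1 := by
    rw [← C_mul, inv_mul_cancel₀ (sub_ne_zero.2 h1), C_1]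
  set F := hc (e + 2) f with hF
  set T := hc (e + 2 + 1) S' with hT'
  have hA : (C (ζ - 1)⁻¹ * T).IsHomogeneous (e + 2 + 1) := (hc_hom _ S').C_mul _
  have dA : ∀ i, pderiv i (C (ζ - 1)⁻¹ * T) = C (ζ - 1)⁻¹ * pderiv i T := fun i =>
    pderiv_C_mul
  have hz : (hc (e + 2) r.1 + pderiv 1 (C (ζ - 1)⁻¹ * T)) * pderiv 0 F +
      (hc (e + 2) r.2 - pderiv 0 (C (ζ - 1)⁻¹ * T)) * pderiv 1 F = 0 := by
    rw [dA, dA]
    linear_combination C (ζ - 1)⁻¹ * t2 -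
      (hc (e + 2) r.1 * pderiv 0 F + hc (e + 2) r.2 * pderiv 1 F) * hu
  have hFh : F.IsHomogeneous (e + 1 + 1) := hc_hom _ f
  rcases kos_hom H.ci (hom_pderiv 0 hFh) (hom_pderiv 1 hFh)
    ((hc_hom _ r.1).add (hom_pderiv 1 hA)) ((hc_hom _ r.2).sub (hom_pderiv 0 hA)) hz with
    ⟨z1, z2⟩ | ⟨j, ν, hj, hν, z1, z2⟩
  · refine ⟨0, 0, -(C (ζ - 1)⁻¹ * T), hA.neg, Prod.ext ?_ ?_⟩
    · simp only [wpt, fm, d1, HC.lf, Prod.fst_add, map_neg, C_0]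
      linear_combination z1
    · simp only [wpt, fm, d1, HC.lf, Prod.snd_add, map_neg, C_0]
      linear_combination z2
  · obtain rfl : j = 1 := by omega
    obtain ⟨a, b, rfl⟩ := Wd1.hom1 hν
    refine ⟨a, b, -(C (ζ - 1)⁻¹ * T), hA.neg, Prod.ext ?_ ?_⟩
    · simp only [wpt, fm, d1, Prod.fst_add, map_neg]
      linear_combination z1
    · simp only [wpt, fm, d1, Prod.snd_add, map_neg]
      linear_combination z2

end Pool.Agent.MP_05b4bd_ag.RV
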