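import Pool.Agent.MP_05b4bd_ag.rr.Bas

/-! A form of degree less than `d` whose defect is Hamiltonian is a model plus a translation. -/

namespace Pool.Agent.MP_05b4bd_ag.RV

open MvPolynomial HC
open ES.U (TM Cr hom)
open PC3 (Fm fm d1 DF)
open UM.Tor4

namespace Wd2

variable {k : Type} [Field k]

/-- Syzygies of degree less than `d` of the gradient. -/
theorem syz {e : ℕ} {f U V : R2 k} (hf : TM (e + 2) f) (hU : DL (e + 2) U) (hV : DL (e + 2) V)
    (hz : U * pderiv 0 f + V * pderiv 1 f = 0) :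
    ∃ c : k, U = C c * pderiv 1 f ∧ V = -(C c * pderiv 0 f) := by
  have ha := hf.dl.pderiv 0
  have hb := hf.dl.pderiv 1
  have ci : CI (hc (e + 1) (pderiv 0 f)) (hc (e + 1) (pderiv 1 f)) := by
    rw [hc_pderiv, hc_pderiv]; exact hf.ci
  have hz' : hc ((e + 1) + (e + 1)) (U * pderiv 0 f + V * pderiv 1 f) = 0 := by
    rw [hz]; exact map_zero _
  rw [hc_add, hc_mul_top hU ha, hc_mul_top hV hb] at hz'
  obtain ⟨c, e1, e2⟩ : ∃ c : k, hc (e + 1) U = C c * hc (e + 1) (pderiv 1 f) ∧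
      hc (e + 1) V = -(C c * hc (e + 1) (pderiv 0 f)) := by
    rcases kos_hom ci (hc_hom _ _) (hc_hom _ _) (hc_hom _ _) (hc_hom _ _) hz' with
      ⟨e1, e2⟩ | ⟨j, ν, hj, hν, e1, e2⟩
    · exact ⟨0, by simp [e1], by simp [e2]⟩
    · obtain rfl : j = 0 := by omega
      have : ν = C (coeff 0 ν) := by
        rw [← hc_self hν]
        simp only [homogeneousComponent_zero, coeff_zero_C]
      exact ⟨coeff 0 ν, by rw [← this]; exact e1, by rw [← this]; exact e2⟩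
  obtain ⟨z1, z2⟩ := kos_zero (k := e + 1) (U := U - C c * pderiv 1 f)
    (V := V + C c * pderiv 0 f) ha hb ci le_rfl
    ((hU.sub (hb.C_mul c)).pred (by rw [hc_sub, hc_C_mul, e1, sub_self]))
    ((hV.add (ha.C_mul c)).pred (by rw [hc_add, hc_C_mul, e2, neg_add_cancel]))
    (by linear_combination hz)
  exact ⟨c, sub_eq_zero.1 z1, eq_neg_of_add_eq_zero_left z2⟩

/-- The components that survive. -/
theorem comp {d n m : ℕ} {ζ : k} (hζ : IsPrimitiveRoot ζ n) (z0 : ζ ≠ 0) {w g : R2 k}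
    (h1 : C (ζ * ζ⁻¹ ^ d) * hom ζ 0 w - w = g) (h2 : C (ζ * ζ⁻¹ ^ d) * hom ζ 0 g = g)
    (hm : m < d) (hn : ¬ n ∣ d - 1 - m) : hc m w = 0 := by
  have e1 := congrArg (hc m) h1
  have e2 := congrArg (hc m) h2
  rw [hc_sub, hc_C_mul, hc_homz] at e1
  rw [hc_C_mul, hc_homz] at e2
  have ne : (C (ζ * ζ⁻¹ ^ d * ζ ^ m - 1) : R2 k) ≠ 0 := by
    rw [Ne, C_eq_zero, sub_eq_zero]
    intro e
    apply hn
    rw [← hζ.pow_eq_one_iff_dvd]
    obtain ⟨t, rfl⟩ : ∃ t, d = t + 1 + m := ⟨d - 1 - m, by omega⟩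
    rw [show t + 1 + m - 1 - m = t by omega]
    have : ζ ^ t * (ζ * ζ⁻¹ ^ (t + 1 + m) * ζ ^ m) = 1 := by
      rw [inv_pow]
      field_simp
      ring
    rwa [e, mul_one] at this
  refine mul_left_cancel₀ ne (mul_left_cancel₀ ne ?_)
  simp only [map_sub, map_mul, map_one, mul_zero] at e1 e2 ⊢
  linear_combination (C ζ * C (ζ⁻¹ ^ d) * C (ζ ^ m) - 1) * e1 + e2

theorem sum_comp {d n : ℕ} (hd : 1 ≤ d) (hn : 1 ≤ n) {w : R2 k} (hw : DL d w)
    (h : ∀ m < d, ¬ n ∣ d - 1 - m → hc m w = 0) :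
    ∑ j ∈ Finset.range ((d - 1) / n + 1), hc (d - 1 - j * n) w = w := by
  have le : ∀ j ∈ Finset.range ((d - 1) / n + 1), j * n ≤ d - 1 := fun j hj =>
    (Nat.le_div_iff_mul_le hn).1 (Nat.lt_succ_iff.1 (Finset.mem_range.1 hj))
  conv_rhs => rw [← Esc.sum_hc hw]
  rw [← Finset.sum_image (s := Finset.range ((d - 1) / n + 1)) (g := fun j => d - 1 - j * n)
    (f := fun m => hc m w)]
  · refine Finset.sum_subset (fun m hm => ?_) fun m hm hm' => h m (Finset.mem_range.1 hm) ?_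
    · obtain ⟨j, -, rfl⟩ := Finset.mem_image.1 hm
      exact Finset.mem_range.2 (by omega)
    · rintro ⟨j, hj⟩
      have hm := Finset.mem_range.1 hm
      rw [mul_comm] at hj
      exact hm' (Finset.mem_image.2 ⟨j, Finset.mem_range.2 (Nat.lt_succ_iff.2
        ((Nat.le_div_iff_mul_le hn).2 (by omega))), by omega⟩)
  · intro i hi j hj e
    have a1 := le i hi
    have a2 := le j hj
    have e : d - 1 - i * n = d - 1 - j * n := e
    exact Nat.eq_of_mul_eq_mul_right hn (by omega)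

theorem mdl_one [CharZero k] {d a b : ℕ} (hn : 1 ≤ a + b) (w : Fm k) :
    mdl d a b 1 (C ((a + b : ℕ) : k)⁻¹ * w.1, C ((a + b : ℕ) : k)⁻¹ * w.2) =
      (∑ j ∈ Finset.range ((d - 1) / (a + b) + 1), hc (d - 1 - j * (a + b)) w.1,
        ∑ j ∈ Finset.range ((d - 1) / (a + b) + 1), hc (d - 1 - j * (a + b)) w.2) := by
  have e : ((a + b : ℕ) : R2 k) * C ((a + b : ℕ) : k)⁻¹ = 1 := by
    rw [← map_natCast (C : k →+* R2 k), ← map_mul,
      mul_inv_cancel₀ (Nat.cast_ne_zero.2 (by omega)), map_one]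
  refine Prod.ext ?_ ?_
  · simp only [mdl, Prod.fst_sum, one_pow, one_smul, mul_one, Prod.fst_sub, Prod.smul_fst, wpt, fm,
      hc_C_mul, smul_eq_mul, pderiv_one, mul_zero, sub_zero, ← mul_assoc, e, one_mul]
  · simp only [mdl, Prod.snd_sum, one_pow, one_smul, mul_one, Prod.snd_sub, Prod.smul_snd, wpt, fm,
      hc_C_mul, smul_eq_mul, pderiv_one, mul_zero, neg_zero, sub_zero, ← mul_assoc, e, one_mul]

/-- The action on a derivative. -/
theorem act {d : ℕ} {ζ : k} (z0 : ζ ≠ 0) {g : R2 k} {c : k}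
    (h : hom ζ 0 g = C (ζ ^ d * c) * g) (i : Fin 2) :
    C (ζ * ζ⁻¹ ^ d) * hom ζ 0 (pderiv i g) = C c * pderiv i g := by
  have e := pderiv_hom ζ 0 i g
  rw [h, pderiv_C_mul] at e
  have u : (C (ζ⁻¹ ^ d) : R2 k) * C (ζ ^ d) = 1 := by
    rw [← map_mul, ← mul_pow, inv_mul_cancel₀ z0, one_pow, map_one]
  simp only [map_mul] at e ⊢
  linear_combination (-C (ζ⁻¹ ^ d)) * e + C c * pderiv i g * u

theorem two_split {U : R2 k} (h : DL 2 U) : U = C (coeff 0 U) + hc 1 U := by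
  conv_lhs => rw [← Esc.sum_hc h]
  simp [Finset.sum_range_succ]

end Wd2

open Wd2 in
theorem wd2S (h1 : UM.GrStmt) (h2 : Ker0Stmt) : Wd2Stmt := by
  intro k _ _ d a b f S ζ r hd hf hζ hA hs hr hS hl hb
  obtain ⟨e, rfl⟩ : ∃ e, d = e + 2 := ⟨d - 2, by omega⟩
  have n2 : 2 ≤ a + b := hA.1
  have z0 : ζ ≠ 0 := hζ.ne_zero (by omega)
  have z1 : (1 : k) - ζ⁻¹ ≠ 0 := fun c => hζ.ne_one (by omega)
    (inv_eq_one.1 (sub_eq_zero.1 c).symm)
  have fx := hf.dl.pderiv 0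
  have fy := hf.dl.pderiv 1
  have D1 : DL (e + 2) (dif (e + 2) ζ r).1 := ((hom_DL ζ 0 hr.1).C_mul _).sub hr.1
  have D2 : DL (e + 2) (dif (e + 2) ζ r).2 := ((hom_DL ζ 0 hr.2).C_mul _).sub hr.2
  obtain ⟨S', s1, s2⟩ := (h1 k (e + 2) f (by omega) hf).1 ((e + 1) + (e + 2)) S
    (by rw [hb]; exact vf_DL D1 D2 hf.dl)
  rw [show e + 1 + (e + 2) + 2 - (e + 2) = e + 3 by omega] at s1
  obtain ⟨⟨α, β, s3⟩, -⟩ := h2 k (e + 2) f (S - S') hd hf (hl.sub (s1.mono (by omega)))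
    (by simp only [br, map_sub] at s2 ⊢; linear_combination -s2)
  have sl : DL (e + 3) S := by
    rw [show S = S' + (C α + C β * f) by rw [← s3]; ring]
    exact s1.add (((DL_C α).mono (by omega)).add (hf.dl.C_mul β))
  obtain ⟨U₀, V₀, rfl⟩ := Ideal.mem_span_pair.1 hS
  obtain ⟨U, V, u2, v2, s4⟩ := kos_top (e := e) (n := 2) fx fy
    (by rw [hc_pderiv, hc_pderiv]; exact hf.ci) U₀ V₀ (sl.mono (by omega))
  rw [← s4] at hb sl
  clear s4 s3 s2 hl hS
  generalize hS : U * pderiv 0 f + V * pderiv 1 f = S at hb sl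
  obtain ⟨ν, e1, e2⟩ := syz (U := (dif (e + 2) ζ r).1 + pderiv 1 S)
    (V := (dif (e + 2) ζ r).2 - pderiv 0 S) hf (D1.add (sl.pderiv 1)) (D2.sub (sl.pderiv 0))
    (by simp only [br, vf] at hb; linear_combination -hb)
  -- the translation part and the invariant part
  set c0 := coeff 0 U * (1 - ζ⁻¹)⁻¹ with hc0
  set c1 := coeff 0 V * (1 - ζ⁻¹)⁻¹ with hc1
  have gr : ∀ i, C ζ * hom ζ 0 (pderiv i f) = C (ζ ^ (e + 2)) * pderiv i f := fun i => by
    rw [← pderiv_hom, hs, pderiv_C_mul]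
  have iv : (C ζ⁻¹ : R2 k) * C ζ = 1 := by rw [← map_mul, inv_mul_cancel₀ z0, map_one]
  have hh : hom ζ 0 (C c0 * pderiv 0 f + C c1 * pderiv 1 f) =
      C (ζ ^ (e + 2) * ζ⁻¹) * (C c0 * pderiv 0 f + C c1 * pderiv 1 f) := by
    simp only [map_add, map_mul, UM.Tor4.hom_C]
    linear_combination (C c0 * C ζ⁻¹) * gr 0 + (C c1 * C ζ⁻¹) * gr 1 -
      (C c0 * hom ζ 0 (pderiv 0 f) + C c1 * hom ζ 0 (pderiv 1 f)) * iv
  have hG : hom ζ 0 (C ν * f - (hc 1 U * pderiv 0 f + hc 1 V * pderiv 1 f)) =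
      C (ζ ^ (e + 2) * 1) * (C ν * f - (hc 1 U * pderiv 0 f + hc 1 V * pderiv 1 f)) := by
    simp only [map_add, map_sub, map_mul (hom ζ 0), UM.Tor4.hom_C, hs, hom_hom (hc_hom 1 _),
      pow_one, mul_one]
    linear_combination (-hc 1 U) * gr 0 - hc 1 V * gr 1
  have sp : S = C (1 - ζ⁻¹) * (C c0 * pderiv 0 f + C c1 * pderiv 1 f) +
      (hc 1 U * pderiv 0 f + hc 1 V * pderiv 1 f) := by
    have k0 : (C (1 - ζ⁻¹) : R2 k) * C c0 = C (coeff 0 U) := by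
      rw [← map_mul, hc0, mul_comm, mul_assoc, inv_mul_cancel₀ z1, mul_one]
    have k1 : (C (1 - ζ⁻¹) : R2 k) * C c1 = C (coeff 0 V) := by
      rw [← map_mul, hc1, mul_comm, mul_assoc, inv_mul_cancel₀ z1, mul_one]
    linear_combination -hS + pderiv 0 f * two_split u2 + pderiv 1 f * two_split v2 -
      pderiv 0 f * k0 - pderiv 1 f * k1
  have hd' : DL (e + 2) (C c0 * pderiv 0 f + C c1 * pderiv 1 f) :=
    (fx.C_mul c0).add (fy.C_mul c1)
  generalize hH : C c0 * pderiv 0 f + C c1 * pderiv 1 f = H at hh sp hd'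
  generalize hc 1 U * pderiv 0 f + hc 1 V * pderiv 1 f = J at hG sp
  have a0 := act z0 hh 0
  have a1 := act z0 hh 1
  have b0 := act z0 hG 0
  have b1 := act z0 hG 1
  rw [map_one, one_mul] at b0 b1
  have p0 := congrArg (pderiv 0) sp
  have p1 := congrArg (pderiv 1) sp
  rw [map_add, pderiv_C_mul, map_sub, map_one] at p0 p1
  have w1 : DL (e + 2) (r - d1 H).1 := hr.1.sub ((hd'.pderiv 1).mono (by omega))
  have w2 : DL (e + 2) (r - d1 H).2 := hr.2.sub ((hd'.pderiv 0).mono (by omega)).neg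
  have t1 : C (ζ * ζ⁻¹ ^ (e + 2)) * hom ζ 0 (r - d1 H).1 - (r - d1 H).1 =
      pderiv 1 (C ν * f - J) := by
    simp only [dif] at e1
    simp only [Prod.fst_sub, d1, map_sub, pderiv_C_mul]
    linear_combination e1 - a1 - p1
  have t2 : C (ζ * ζ⁻¹ ^ (e + 2)) * hom ζ 0 (r - d1 H).2 - (r - d1 H).2 =
      -pderiv 0 (C ν * f - J) := by
    simp only [dif] at e2
    simp only [Prod.snd_sub, d1, map_sub, map_neg, pderiv_C_mul]
    linear_combination e2 + a0 + p0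
  refine ⟨c0, c1, (C ((a + b : ℕ) : k)⁻¹ * (r - d1 H).1, C ((a + b : ℕ) : k)⁻¹ * (r - d1 H).2), ?_⟩
  rw [hH, mdl_one (by omega),
    sum_comp (by omega) (by omega) w1 fun m hm hn => comp hζ z0 t1 b1 hm hn,
    sum_comp (by omega) (by omega) w2 fun m hm hn =>
      comp hζ z0 t2 (by rw [map_neg, mul_neg, b0]) hm hn]
  exact (sub_add_cancel r (d1 H)).symm

end Pool.Agent.MP_05b4bd_ag.RV
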