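import Pool.Agent.MP_05b4bd_ag.rr.Spec2

/-! A Wronskian of rational type has a rational factor. -/

namespace Pool.Agent.MP_05b4bd_ag.RV

open PowerSeries LaurentSeries HC
open ES hiding Gen Ob Inf
open ES.U (TM Cr hom)
open PC3 (Fm fm d1 DF sub2 pb mapF Van CenK iS)

namespace Wr

/-- A vector proportional to its derivative has a constant direction. -/
theorem dir {k ι : Type} [Field k] [CharZero k] {d : ℕ} (hd : 1 ≤ d) (x : ι → k⸨X⸩) (l : k⸨X⸩)
    (h : ∀ i, UM.dK k d (x i) = l * x i) : ∃ (v0 : ι → k) (w : k⸨X⸩), ∀ i, x i = cL k (v0 i) * w := by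
  by_cases h0 : ∃ i0, x i0 ≠ 0
  · obtain ⟨i0, hi⟩ := h0
    have : ∀ i, ∃ a : k, x i / x i0 = cL k a := fun i => by
      refine UM.const_dK hd ((mul_eq_zero.1 (?_ : _ * x i0 = 0)).resolve_right hi)
      have e1 : x i / x i0 * x i0 = x i := div_mul_cancel₀ _ hi
      have e2 := UM.dK_mul d (x i / x i0) (x i0)
      rw [e1, h i, h i0] at e2
      linear_combination -e2 - l * e1
    choose v0 hv using this
    exact ⟨v0, x i0, fun i => by rw [← hv i, div_mul_cancel₀ _ hi]⟩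
  · refine ⟨0, 0, fun i => ?_⟩
    rw [mul_zero]
    by_contra hi
    exact h0 ⟨i, hi⟩

end Wr

theorem wrS (h : UM.PilStmt) : WrStmt := by
  intro k G ι _ _ _ _ _ _ n d B P e g v q c T hg hq hv
  have hd := T.d1
  obtain ⟨ξ, hξ⟩ := UM.Size.co T (B.θ g)
  obtain ⟨η, hη⟩ := UM.Size.co T g
  obtain ⟨ρ, hρ⟩ := UM.Size.co T v
  have hNu : IsUnit (Matrix.of fun i j => P (e j) i)⁻¹ :=
    Matrix.isUnit_nonsing_inv_iff.2 ((Matrix.isUnit_iff_isUnit_det _).2 T.det.isUnit)
  generalize (Matrix.of fun i j => P (e j) i)⁻¹ = N at hξ hη hρ hNu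
  have hinj := Matrix.mulVec_injective_iff_isUnit.2 hNu
  have E : ∀ i, UM.ae (UM.hW k d) q * (c * UM.ae (UM.hW k d) (η i)
      - UM.dK k d c * UM.ae (UM.hW k d) (ξ i)) = UM.ae (UM.hW k d) (ρ i) := fun i => by
    have := congrArg N.mulVec hv
    rw [Matrix.mulVec_smul, Matrix.mulVec_sub, Matrix.mulVec_smul, Matrix.mulVec_smul, hξ, hη,
      hρ] at this
    exact congrFun this i
  by_cases hm : ∃ i j, η i * ξ j - η j * ξ i ≠ 0
  · obtain ⟨i, j, hij⟩ := hm
    refine ⟨ρ i * ξ j - ρ j * ξ i, q * (η i * ξ j - η j * ξ i),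
      UM.ah_ne hd (mul_ne_zero hq hij), ?_⟩
    simp only [map_mul, map_sub, ← E]
    ring
  · exfalso
    have hm' : ∀ i j, η i * ξ j = η j * ξ i := fun i j => by
      by_contra hij
      exact hm ⟨i, j, sub_ne_zero.2 hij⟩
    have hl : ∃ l : k⸨X⸩, P g = l • P (B.θ g) := by
      by_cases h0 : ∃ j, ξ j ≠ 0
      · obtain ⟨j, hj⟩ := h0
        have hj' := UM.ah_ne hd hj
        refine ⟨UM.ae (UM.hW k d) (η j) / UM.ae (UM.hW k d) (ξ j), hinj ?_⟩
        rw [Matrix.mulVec_smul, hξ, hη]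
        funext i
        have := congrArg (UM.ae (UM.hW k d)) (hm' i j)
        rw [map_mul, map_mul] at this
        rw [Pi.smul_apply, smul_eq_mul, div_mul_eq_mul_div, eq_div_iff hj', this]
      · have hx : P (B.θ g) = 0 := hinj (by
          rw [hξ, Matrix.mulVec_zero]
          funext j
          have : ξ j = 0 := by
            by_contra hj
            exact h0 ⟨j, hj⟩
          rw [this, map_zero, Pi.zero_apply])
        exact ⟨0, by rw [← T.Pθ g, hx, map_zero, smul_zero]⟩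
    obtain ⟨l, hl⟩ := hl
    obtain ⟨v0, w, hw⟩ := Wr.dir hd (P (B.θ g)) l fun i => by
      rw [← UM.dV_apply, T.Pθ, hl, Pi.smul_apply, smul_eq_mul]
    refine hg (B.inj ?_)
    rw [map_zero]
    refine (h k G ι n d B P e T).2 v0 _ fun m _ => ⟨w.coeff m, funext fun i => ?_⟩
    rw [UM.cv, hw, coeff_cL_mul, Pi.smul_apply, smul_eq_mul, mul_comm]

end Pool.Agent.MP_05b4bd_ag.RV
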