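import Pool.Agent.MP_05b4bd_ag.rr.Adm
import Pool.Agent.MP_05b4bd_ag.rr.Baser
import Pool.Agent.MP_05b4bd_ag.rr.Cena
import Pool.Agent.MP_05b4bd_ag.rr.Cenr
import Pool.Agent.MP_05b4bd_ag.rr.Chga
import Pool.Agent.MP_05b4bd_ag.rr.Chgb
import Pool.Agent.MP_05b4bd_ag.rr.Cmpa
import Pool.Agent.MP_05b4bd_ag.rr.Conj
import Pool.Agent.MP_05b4bd_ag.rr.Copr
import Pool.Agent.MP_05b4bd_ag.rr.Crd
import Pool.Agent.MP_05b4bd_ag.rr.Cv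
import Pool.Agent.MP_05b4bd_ag.rr.Deckr
import Pool.Agent.MP_05b4bd_ag.rr.Desc
import Pool.Agent.MP_05b4bd_ag.rr.Dict
import Pool.Agent.MP_05b4bd_ag.rr.En
import Pool.Agent.MP_05b4bd_ag.rr.Enx
import Pool.Agent.MP_05b4bd_ag.rr.Eta
import Pool.Agent.MP_05b4bd_ag.rr.Evs
import Pool.Agent.MP_05b4bd_ag.rr.Exo
import Pool.Agent.MP_05b4bd_ag.rr.F1
import Pool.Agent.MP_05b4bd_ag.rr.F2a
import Pool.Agent.MP_05b4bd_ag.rr.F2b
import Pool.Agent.MP_05b4bd_ag.rr.F2s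
import Pool.Agent.MP_05b4bd_ag.rr.Fac
import Pool.Agent.MP_05b4bd_ag.rr.Flow
import Pool.Agent.MP_05b4bd_ag.rr.Flowa
import Pool.Agent.MP_05b4bd_ag.rr.Fo
import Pool.Agent.MP_05b4bd_ag.rr.Frame
import Pool.Agent.MP_05b4bd_ag.rr.Hom
import Pool.Agent.MP_05b4bd_ag.rr.Ideal
import Pool.Agent.MP_05b4bd_ag.rr.Ind
import Pool.Agent.MP_05b4bd_ag.rr.Invr
import Pool.Agent.MP_05b4bd_ag.rr.Irrr
import Pool.Agent.MP_05b4bd_ag.rr.Iter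
import Pool.Agent.MP_05b4bd_ag.rr.Ker0
import Pool.Agent.MP_05b4bd_ag.rr.Key
import Pool.Agent.MP_05b4bd_ag.rr.Line
import Pool.Agent.MP_05b4bd_ag.rr.Logk
import Pool.Agent.MP_05b4bd_ag.rr.Logv
import Pool.Agent.MP_05b4bd_ag.rr.Lowr
import Pool.Agent.MP_05b4bd_ag.rr.Mc
import Pool.Agent.MP_05b4bd_ag.rr.Mdl0
import Pool.Agent.MP_05b4bd_ag.rr.Mdl1
import Pool.Agent.MP_05b4bd_ag.rr.Mdl2
import Pool.Agent.MP_05b4bd_ag.rr.Memr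
import Pool.Agent.MP_05b4bd_ag.rr.Minq
import Pool.Agent.MP_05b4bd_ag.rr.Mki
import Pool.Agent.MP_05b4bd_ag.rr.Neck
import Pool.Agent.MP_05b4bd_ag.rr.Nf
import Pool.Agent.MP_05b4bd_ag.rr.Norm
import Pool.Agent.MP_05b4bd_ag.rr.Npr
import Pool.Agent.MP_05b4bd_ag.rr.Nrf
import Pool.Agent.MP_05b4bd_ag.rr.Nzz
import Pool.Agent.MP_05b4bd_ag.rr.Obs
import Pool.Agent.MP_05b4bd_ag.rr.One
import Pool.Agent.MP_05b4bd_ag.rr.Ord
import Pool.Agent.MP_05b4bd_ag.rr.P0a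
import Pool.Agent.MP_05b4bd_ag.rr.P0b
import Pool.Agent.MP_05b4bd_ag.rr.Per
import Pool.Agent.MP_05b4bd_ag.rr.Pk
import Pool.Agent.MP_05b4bd_ag.rr.Pkg
import Pool.Agent.MP_05b4bd_ag.rr.Poly
import Pool.Agent.MP_05b4bd_ag.rr.Prime
import Pool.Agent.MP_05b4bd_ag.rr.Quo
import Pool.Agent.MP_05b4bd_ag.rr.Red
import Pool.Agent.MP_05b4bd_ag.rr.Rel
import Pool.Agent.MP_05b4bd_ag.rr.Resf
import Pool.Agent.MP_05b4bd_ag.rr.Resn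
import Pool.Agent.MP_05b4bd_ag.rr.Resx
import Pool.Agent.MP_05b4bd_ag.rr.Rig
import Pool.Agent.MP_05b4bd_ag.rr.Rrc
import Pool.Agent.MP_05b4bd_ag.rr.Run
import Pool.Agent.MP_05b4bd_ag.rr.Sep1
import Pool.Agent.MP_05b4bd_ag.rr.Sep2
import Pool.Agent.MP_05b4bd_ag.rr.Sep3
import Pool.Agent.MP_05b4bd_ag.rr.Solve
import Pool.Agent.MP_05b4bd_ag.rr.Step
import Pool.Agent.MP_05b4bd_ag.rr.Sym
import Pool.Agent.MP_05b4bd_ag.rr.Symd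
import Pool.Agent.MP_05b4bd_ag.rr.Tay
import Pool.Agent.MP_05b4bd_ag.rr.Tayd
import Pool.Agent.MP_05b4bd_ag.rr.Theta
import Pool.Agent.MP_05b4bd_ag.rr.Tor1
import Pool.Agent.MP_05b4bd_ag.rr.Tor2
import Pool.Agent.MP_05b4bd_ag.rr.Tor3r
import Pool.Agent.MP_05b4bd_ag.rr.Tor4r
import Pool.Agent.MP_05b4bd_ag.rr.Trf
import Pool.Agent.MP_05b4bd_ag.rr.Trp
import Pool.Agent.MP_05b4bd_ag.rr.Unir
import Pool.Agent.MP_05b4bd_ag.rr.Univ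
import Pool.Agent.MP_05b4bd_ag.rr.Vand
import Pool.Agent.MP_05b4bd_ag.rr.Vanr
import Pool.Agent.MP_05b4bd_ag.rr.Wd1
import Pool.Agent.MP_05b4bd_ag.rr.Wd2
import Pool.Agent.MP_05b4bd_ag.rr.Wr
import Pool.Agent.MP_05b4bd_ag.rr.Port
import Pool.Agent.MP_05b4bd_ag.rr.AsmB
import Pool.Agent.MP_05b4bd_ag.rr.Cors
import Pool.Agent.MP_05b4bd_ag.rr.Main
import Pool.Agent.MP_05b4bd_ag.um.Vanf
import Pool.Agent.MP_05b4bd_ag.um.Cen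
import Pool.Agent.MP_05b4bd_ag.um.Sep
import Pool.Agent.MP_05b4bd_ag.um.Par
import Pool.Agent.MP_05b4bd_ag.um.Meml
import Pool.Agent.MP_05b4bd_ag.um.Nc6

/-! The components through `df` for every Morse polynomial transversal to infinity. -/

namespace Pool.Agent.MP_05b4bd_ag.RV

open MvPolynomial HC

theorem pkgA : PkgStmt :=
  pkgS ES.glcS ES.evbS (UM.gmS UM.copS) UM.irrA UM.basS (UM.pmaS UM.indS) (UM.pmbS ES.nzcS)

theorem nprA : NprStmt :=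
  nprS (ES.evenS ES.reflS) (ES.discS ES.pairAbsS) deckrS vandS normS (quoS vandS) solveS

theorem runA : RunStmt :=
  runS (lowrS ES.cmpS ES.amalgS (redS ES.glcS ES.evbS)) (p0aS nprA ES.amalgS descS vandS) deckrS
    (invrS pkgA (redS ES.glcS ES.evbS) (UM.cbS UM.grS) UM.phiS UM.uniA (UM.actS UM.pilS)
      (UM.degS UM.grS) (tor3rS exoS) tor4rS) ES.cmpS

theorem neckA : NeckStmt :=
  neckS mcS (nfS homS) (nzzS (perS homS UM.irrA) tayS (taydS tayS)) enS enxS (trpS evsS)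
    (conjS tayS (taydS tayS)) (relS tayS (taydS tayS)) (resnS resxS) (primeS UM.icdS) evsS

theorem cvA : CvStmt :=
  cvS (tor1S pkgA crdS (wrS UM.pilS) (UM.cbS UM.grS) UM.pilS)
    (tor2S (resfS (logkS logvS) (primeS UM.icdS)) (primeS UM.icdS))
    (iterS (oneS tayS (taydS tayS) (stepS tayS (taydS tayS) cmpaS) flowS evsS) evsS) polyS
    (primeS UM.icdS) neckA (foS evsS)

theorem p0bA : P0bStmt := p0bS (unirS nprA solveS descS) idealS facS (coprS solveS)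

theorem rigA : RigStmt :=
  rigS obsS (baserS ES.derAlgS obsS) mkiS runA admS nrfS (frameS chgaS chgbS trfS)
    (indS (pkS mkiS runA admS p0bA etaS obsS) obsS (frameS chgaS chgbS trfS)
      (keyS (symS evsS) (dictS ordS) thetaS f1S cvA ordS ker0S evsS) (wd1S UM.grS)
      (wd2S UM.grS ker0S) mdl0S (mdl1S mdl0S) (mdl2S mdl0S) (f2aS f2sS) (f2bS ordS) rrcS) rrcS

theorem portA : PortStmt :=
  portS UM.irrA UM.icdS (UM.nc6S PC3.kgS) (UM.cenU PC3.diagS) UM.cflU UM.parU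

theorem memA : UM.MemStmt := UM.memU PC3.irrS.1 UM.memqS UM.memlS UM.irpS

theorem main_rr (d : ℕ) (hd : 3 ≤ d) (f : Poly) (hf : f.totalDegree = d)
    (hs : Squarefree (homogeneousComponent d f)) (hM : Morse f) (hE : d = 3 → ¬ Exo f)
    (Z : Set Form) :
    IsComponent (M d) Z ∧ dform f ∈ Z ↔ Z = zcl (L ![d + 1]) ∨ Z = zcl (L ![1, d]) ∨
      (∃ a b, 1 ≤ a ∧ 1 ≤ b ∧ a.Coprime b ∧ Rad d (a + b) f ∧ Z = zcl (RR d a b)) ∨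
      dform f ∈ Z ∧ (Z = zcl (L ![1, 1, d - 1]) ∨ Z = zcl (L ![2, d - 1]) ∨
        ∃ n, d ≤ 2 * n + 1 ∧ n < d ∧ Z = zcl (PN d n)) := by
  have t := UM.morS d f hd (DL_iff.2 hf.le) (UM.sqfS ℂ d _ (by omega) (hc_hom d f) hs) hM
  have key := fun hZ => mainR (minqS (ES.arcS ES.npS) ES.derAlgS (corsS portA rigA rrcS) UM.vanfS
    (vanrS univS) symdS) memA (UM.sepU memA UM.irpS UM.witS) (memrS (cenrS flowaS cenaS) univS)
    (irrrS univS) (sep1S univS UM.irpS) (sep2S univS) (sep3S univS lineS) admS symdS hd t hE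
    (Z := Z) hZ
  constructor
  · rintro ⟨h, hZ⟩
    obtain ⟨W, (rfl | rfl | rfl | rfl | ⟨n, h1, h2, rfl⟩) | ⟨a, b, h1, h2, h3, h4, rfl⟩, e⟩ :=
      (key hZ).1 h
    exacts [.inl e, .inr (.inl e), .inr (.inr (.inr ⟨hZ, .inl e⟩)),
      .inr (.inr (.inr ⟨hZ, .inr (.inl e)⟩)),
      .inr (.inr (.inr ⟨hZ, .inr (.inr ⟨n, h1, h2, e⟩)⟩)),
      .inr (.inr (.inl ⟨a, b, h1, h2, h3, h4, e⟩))]
  · rintro (e | e | ⟨a, b, h1, h2, h3, h4, e⟩ | ⟨hZ, e | e | ⟨n, h1, h2, e⟩⟩)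
    · have hZ : dform f ∈ Z := e ▸ subset_zcl _ (dform_mem_L (i := 0) (Nat.le_succ d) hf.le)
      exact ⟨(key hZ).2 ⟨_, .inl (.inl rfl), e⟩, hZ⟩
    · have hZ : dform f ∈ Z := e ▸ subset_zcl _ (dform_mem_L (i := 1) le_rfl hf.le)
      exact ⟨(key hZ).2 ⟨_, .inl (.inr (.inl rfl)), e⟩, hZ⟩
    · have hZ : dform f ∈ Z := e ▸ subset_zcl _ (memD admS univS rrcS hd t h1 h2 h4)
      exact ⟨(key hZ).2 ⟨_, .inr ⟨a, b, h1, h2, h3, h4, rfl⟩, e⟩, hZ⟩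
    · exact ⟨(key hZ).2 ⟨_, .inl (.inr (.inr (.inl rfl))), e⟩, hZ⟩
    · exact ⟨(key hZ).2 ⟨_, .inl (.inr (.inr (.inr (.inl rfl)))), e⟩, hZ⟩
    · exact ⟨(key hZ).2 ⟨_, .inl (.inr (.inr (.inr (.inr ⟨n, h1, h2, rfl⟩)))), e⟩, hZ⟩

end Pool.Agent.MP_05b4bd_ag.RV
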