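import Pool.Agent.MP_05b4bd_ag.rr.Spec2

/-! The descent from the large ring to the small ring: recursion and limit. -/

namespace Pool.Agent.MP_05b4bd_ag.RV

open PowerSeries LaurentSeries HC
open ES hiding Gen Ob Inf
open ES.U (TM Cr hom)
open PC3 (Fm fm d1 DF sub2 pb mapF Van CenK iS)

namespace Iter

theorem seq {σ : Type} (P : ℕ → σ → Prop) (R : ℕ → σ → σ → Prop) (s0 : σ) (h0 : P 0 s0)
    (step : ∀ i s, P i s → ∃ s', P (i + 1) s' ∧ R i s s') :
    ∃ u : ℕ → σ, u 0 = s0 ∧ ∀ i, P i (u i) ∧ R i (u i) (u (i + 1)) := by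
  choose nx hnx using step
  let v : ∀ i, {s // P i s} := fun i =>
    Nat.rec ⟨s0, h0⟩ (fun i s => ⟨nx i s.1 s.2, (hnx i s.1 s.2).1⟩) i
  exact ⟨fun i => (v i).1, rfl, fun i => ⟨(v i).2, (hnx i (v i).1 (v i).2).2⟩⟩

variable {F : Type} [CommRing F]

theorem lim (m : ℕ) (u : ℕ → F⟦X⟧) (h : ∀ i, X ^ (m + i) ∣ u (i + 1) - u i) :
    ∃ v, ∀ i, X ^ (m + i) ∣ v - u i := by
  have h1 : ∀ i l, X ^ (m + i) ∣ u (i + l) - u i := by
    intro i l
    induction l with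
    | zero => simp
    | succ l ih =>
      have := dvd_add ((pow_dvd_pow X (by omega : m + i ≤ m + (i + l))).trans (h (i + l))) ih
      rwa [sub_add_sub_cancel] at this
  refine ⟨PowerSeries.mk fun n => coeff n (u (n + 1)), fun i => X_pow_dvd_iff.2 fun n hn => ?_⟩
  rw [map_sub, coeff_mk, ← map_sub]
  rcases le_total i (n + 1) with hi | hi
  · obtain ⟨l, hl⟩ := Nat.exists_eq_add_of_le hi
    rw [hl]
    exact X_pow_dvd_iff.1 (h1 i l) n hn
  · obtain ⟨l, rfl⟩ := Nat.exists_eq_add_of_le hi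
    rw [← neg_sub, map_neg, X_pow_dvd_iff.1 (h1 (n + 1) l) n (by omega), neg_zero]

theorem zero_of {m : ℕ} {x : F⟦X⟧} (h : ∀ i, X ^ (m + i) ∣ x) : x = 0 := by
  ext n
  exact X_pow_dvd_iff.1 (h (n + 1)) n (by omega)

theorem in_lim {S : Subring F} {m : ℕ} {u : ℕ → F⟦X⟧} {v : F⟦X⟧} (hu : ∀ i, In S (u i))
    (h : ∀ i, X ^ (m + i) ∣ v - u i) : In S v := fun n => by
  have := X_pow_dvd_iff.1 (h (n + 1)) n (by omega)
  rw [map_sub, sub_eq_zero] at this
  rw [this]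
  exact hu _ _

theorem in_mul {S : Subring F} {u v : F⟦X⟧} (hu : In S u) (hv : In S v) : In S (u * v) :=
  fun n => by
    rw [coeff_mul]
    exact S.sum_mem fun p _ => S.mul_mem (hu _) (hv _)

theorem in_C {S : Subring F} {v : F} (hv : v ∈ S) : In S (C v) := fun n => by
  rw [coeff_C]
  split_ifs
  exacts [hv, S.zero_mem]

theorem vS_cong (d : Fin 2 → F →+ F) {A B : Fin 2 → F⟦X⟧} {u v : F⟦X⟧} {n : ℕ}
    (hA : ∀ i, X ^ n ∣ A i - B i) (hu : X ^ n ∣ u - v) : X ^ n ∣ vS d A u - vS d B v := by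
  obtain ⟨w, hw⟩ := hu
  obtain ⟨a0, h0⟩ := hA 0
  obtain ⟨a1, h1⟩ := hA 1
  rw [sub_eq_iff_eq_add] at hw h0 h1
  refine ⟨a0 * cw (d 0) u + a1 * cw (d 1) u + vS d B w, ?_⟩
  unfold vS
  rw [h0, h1]
  have e : ∀ i, cw (d i) u = X ^ n * cw (d i) w + cw (d i) v := fun i => by
    rw [hw, map_add, cw_X_pow_mul]
  linear_combination B 0 * e 0 + B 1 * e 1

theorem vS_X {k : Type} [Field k] {e : R2 k →+* F} {d : Fin 2 → F →+ F} (hd : D2 e d)
    (B : Fin 2 → F⟦X⟧) (i : Fin 2) : vS d B (C (e (MvPolynomial.X i))) = B i := by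
  unfold vS
  rw [cw_C, cw_C, hd.ext, hd.ext]
  fin_cases i <;> simp

theorem coeff_pow_mul (m : ℕ) (u : F⟦X⟧) : coeff m (X ^ m * u) = cc u := by
  have := coeff_X_pow_mul u m 0
  rw [zero_add] at this
  rw [this, coeff_zero_eq_constantCoeff_apply]

end Iter

open Iter in
theorem iterS (h1 : OneStmt) (h2 : EvsStmt) : IterStmt := by
  intro k F E _ _ _ _ e d S j d' f a b N A B H g n m ξ μ T hn hm hA hH hV hg hAB hE
  let σ := (Fin 2 → F⟦X⟧) × (Fin 2 → E⟦X⟧) × E⟦X⟧ × (Fin 2 → F⟦X⟧) × F⟦X⟧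
  let P : ℕ → σ → Prop := fun i s => St e S j d' A (m + i) s.1 s.2.1 s.2.2.1 ∧
    (∀ l, In S (s.2.2.2.1 l)) ∧ In S s.2.2.2.2 ∧
    ∀ l, vS d s.1 (s.2.2.2.1 l) = s.2.2.2.2 * evS e s.2.2.2.1 (B l)
  let R : ℕ → σ → σ → Prop := fun i s s' => ∃ r χ ν,
    j r = coeff (m + i) (evS (j.comp e) s.2.1 (C f)) ∧ Mv e d S N (m + i) r s.1 s'.1 χ ν ∧
    (s'.2.2.2.1 = fun l => χ (s.2.2.2.1 l)) ∧ s'.2.2.2.2 = ν * χ s.2.2.2.2
  have h0 : P 0 (fun l => map e (B l), ξ, μ, fun l => C (e (MvPolynomial.X l)), 1) := by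
    refine ⟨⟨fun i n => ?_, fun i => ?_, hE.near, fun i => ?_⟩, fun l => in_C (T.mem _),
      in_C (v := 1) S.one_mem, fun l => ?_⟩
    · rw [coeff_map]
      exact T.mem _
    · rw [← map_sub]
      have := map_dvd (map e) (hAB i)
      rwa [map_pow, map_X] at this
    · have := hE.eq i
      simp only [map_comp, RingHom.comp_apply] at this
      exact this
    · rw [vS_X T.two, (h2 k F e fun l => C (e (MvPolynomial.X l))).1, one_mul]
  have step : ∀ i s, P i s → ∃ s', P (i + 1) s' ∧ R i s s' := by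
    rintro i ⟨B1, ξ1, μ1, ξ2, μ2⟩ ⟨p1, p2, p3, p4⟩
    obtain ⟨r, -, hr, B', ξ', μ', χ, ν, q1, q2⟩ :=
      h1 k F E e d S j d' f a b N A H g n (m + i) B1 ξ1 μ1 T hn (by omega) hA hH hV hg p1
    refine ⟨(B', ξ', μ', fun l => χ (ξ2 l), ν * χ μ2), ⟨q1, fun l => q2.mem _ (p2 l),
      in_mul q2.mν (q2.mem _ p3), fun l => ?_⟩, r, χ, ν, hr, q2, rfl, rfl⟩
    change vS d B' (χ (ξ2 l)) = ν * χ μ2 * evS e (fun l => χ (ξ2 l)) (B l)
    rw [q2.eq, p4 l, map_mul, (h2 k F e ξ2).2.2.2.2 F e χ q2.fx q2.fc, mul_assoc]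
  obtain ⟨u, u0, hu⟩ := seq P R _ h0 step
  have c1 : ∀ l i, X ^ (m + i) ∣ (u (i + 1)).2.2.2.1 l - (u i).2.2.2.1 l := fun l i => by
    obtain ⟨r, χ, ν, -, q, e1, -⟩ := (hu i).2
    rw [e1]
    exact q.near _
  have c2 : ∀ i, X ^ (m + i) ∣ (u (i + 1)).2.2.2.2 - (u i).2.2.2.2 := fun i => by
    obtain ⟨r, χ, ν, -, q, -, e1⟩ := (hu i).2
    have := dvd_add (q.one.mul_right (χ (u i).2.2.2.2)) (q.near (u i).2.2.2.2)
    rw [e1]
    convert this using 1
    ring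
  choose ξ' hξ' using fun l => lim m (fun i => (u i).2.2.2.1 l) (c1 l)
  obtain ⟨μ', hμ'⟩ := lim m (fun i => (u i).2.2.2.2) c2
  have near : ∀ l, X ^ m ∣ ξ' l - C (e (MvPolynomial.X l)) := fun l => by
    have := hξ' l 0
    rw [u0] at this
    exact this
  refine ⟨ξ', μ', fun l => in_lim (fun i => (hu i).1.2.1 l) (hξ' l),
    in_lim (fun i => (hu i).1.2.2.1) hμ', ⟨near, fun l => ?_⟩, ?_⟩
  · rw [← sub_eq_zero]
    refine zero_of (m := m) fun i => ?_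
    have a1 := vS_cong d (hu i).1.1.cong (hξ' l i)
    have a2 := (h2 k F e ξ').2.1 _ _ (fun l => hξ' l i) (B l)
    rw [(hu i).1.2.2.2 l] at a1
    have := dvd_sub (dvd_sub a1 (a2.mul_left μ'))
      ((hμ' i).mul_right (evS e (u i).2.2.2.1 (B l)))
    convert this using 1
    ring
  · obtain ⟨r, χ, ν, hr, q, e1, -⟩ := (hu 0).2
    rw [u0] at hr e1
    change j r = coeff m (evS (j.comp e) ξ (C f)) at hr
    have a1 : ∀ l, X ^ (m + 1) ∣ ξ' l - C (e (MvPolynomial.X l)) + X ^ m * C (r * N l) := fun l => by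
      have b1 := hξ' l 1
      rw [show (1 : ℕ) = 0 + 1 from rfl, e1] at b1
      have := dvd_add b1 (q.fst l)
      convert this using 1
      simp only [add_zero]
      ring
    have a2 := (h2 k F e ξ').2.2.1 m hm near (C f)
    rw [cw_C, cw_C, map_C, map_C, map_C, pd_apply, pd_apply] at a2
    have a3 := dvd_add (dvd_add a2 ((a1 0).mul_left (C (e (MvPolynomial.pderiv 0 f)))))
      ((a1 1).mul_left (C (e (MvPolynomial.pderiv 1 f))))
    have a4 : X ^ (m + 1) ∣ evS e ξ' (C f) - C (e f) + X ^ m * C r := by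
      convert a3 using 1
      have := congrArg (C (R := F)) T.one
      simp only [map_add, map_mul, map_one] at this ⊢
      linear_combination (-(X ^ m * C r)) * this
    have a5 := X_pow_dvd_iff.1 a4 m (by omega)
    rw [map_add, map_sub, coeff_pow_mul, coeff_C, if_neg (by omega), constantCoeff_C] at a5
    rw [← hr, ← map_neg]
    congr 1
    linear_combination a5

end Pool.Agent.MP_05b4bd_ag.RV
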