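import Pool.Agent.MP_05b4bd_ag.rr.Spec3
import Pool.Agent.MP_05b4bd_ag.esc.S2b

/-! The norm of the coordinate is defined over the function field. -/

namespace Pool.Agent.MP_05b4bd_ag.RV

open PowerSeries LaurentSeries HC
open ES hiding Gen Ob Inf
open ES.Deck

namespace P0a

variable {U Ω : Type} [Field U] [Field Ω]

theorem fixr [CharZero U] {σ : U⟦X⟧} (h : cc σ = 0) (h' : coeff 1 σ ≠ 0) {Φ : AA U →+* TT U}
    (o : IsOut 0 Φ (p0 σ)) {r : AA U} (e : Φ r = iT r) : sb σ (red r) = red r := by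
  have := charL (κ := U)
  exact coeL_inj ((o.cc_eq (p0_ne h (fun z => h' (by rw [z, map_zero])) X_ne_zero) r).symm.trans
    (e ▸ cc_iT r))

theorem nat [CharZero U] [CharZero Ω] (τ : U →+* Ω) {σ : U⟦X⟧} {σ' : Ω⟦X⟧} (h : cc σ = 0)
    (h' : cc σ' = 0) (h1 : coeff 1 σ ≠ 0) (e1 : coeff 1 σ' = τ (coeff 1 σ)) {n : ℕ} (hn : 1 ≤ n)
    {r : AA U} (hr : OrdIs n (red r)) {Φ : AA U →+* TT U} {Φ' : AA Ω →+* TT Ω}
    (o : IsOut 0 Φ (p0 σ)) (o' : IsOut 0 Φ' (p0 σ')) (e : Φ r = iT r)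
    (e' : Φ' (mA τ r) = iT (mA τ r)) : Φ' X = mT τ (Φ X) := by
  have h1' : coeff 1 σ' ≠ 0 := e1 ▸ (map_ne_zero τ).2 h1
  have k : σ' = map τ σ := sig_unique hn (ord_map τ hr) h' (cc_map τ h) h1'
    (e1.trans (coeff_map _ _ _).symm) (by
      rw [← map_sb h, fixr h h1 o e, ← red_mA, fixr h' h1' o' e'])
  exact nat_deck τ h (fun z => h1 (by rw [z, map_zero])) hn hr o (k ▸ o') e e'

theorem up {D : U →+ U} {D' : Ω →+ Ω} {τ : U →+* Ω} (h : DExt D D' τ) {a b : AA U} {m : ℕ}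
    (H : HasFI D' (mA τ a) (mA τ b) m) : HasFI D a b m := by
  obtain ⟨E, _, D1, i, r, e, c, f, o⟩ := H
  rw [mA_mA, mA_mA] at f
  exact ⟨E, _, D1, i.comp τ, r, ⟨e.1, fun c => by
    rw [RingHom.comp_apply, e.2, h.2, RingHom.comp_apply]⟩, c, f, o⟩

theorem red_b (τ : U →+* Ω) {b : AA U} (h : red b = 0) : red (mA τ b) = 0 := by
  rw [red_mA, h, map_zero]

end P0a

open P0a in
theorem p0aS (h1 : NprStmt) (h2 : ES.AmalgStmt) (h3 : DescStmt) (h4 : VandStmt) : P0aStmt := by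
  intro k L _ _ _ _ κ D a b d n α hD hd ra rb ⟨nd, mn, U, _, D1, i, r, hx, _, c0, fi, o, oα⟩
  have cL' : CharZero L := charZero_of_injective_ringHom κ.injective
  have cU : CharZero U := charZero_of_injective_ringHom i.injective
  have hn : 1 ≤ n := Nat.pos_of_ne_zero fun z => o.1 (by
    rw [z, coeff_zero_eq_constantCoeff_apply, cc_red, c00_apply, c0, map_zero])
  have : NeZero (n : k) := ⟨Nat.cast_ne_zero.2 (by omega)⟩
  have : NeZero n := ⟨by omega⟩
  obtain ⟨ω, hω⟩ := HasEnoughRootsOfUnity.exists_primitiveRoot k n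
  have hω' := (hω.map_of_injective κ.injective).map_of_injective i.injective
  obtain ⟨n2, -, σ, Φ, i0, ρ, u, B, dk, s1, eρ, hu, eu, rho⟩ := h1 U D1 _ _ r d n _ hx.1 hd
    (red_a i ra) (red_b i rb) (by rwa [nd_map]) (fun m hm H => mn m hm (up hx H)) c0 fi o hω'
  have key : ∀ j, ∃ s, Φ j X = mT i s := fun j => exists_mT i.injective fun p q => by
    by_contra hq
    obtain ⟨Ω, _, D', τ, s, hτ, hs⟩ := h2 L U D D1 i hx Unit
      (fun _ => (coeff p (Φ j X)).coeff q) fun _ e z => hq ⟨e, z⟩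
    obtain ⟨x1, x2, x3⟩ := hs ()
    have cΩ : CharZero Ω := charZero_of_injective_ringHom τ.injective
    have o' : OrdIs n (red (mA τ r)) := by rw [red_mA]; exact ord_map τ o
    obtain ⟨-, all, σ', Φ', i0', -, -, -, dk', s1', -⟩ := h1 Ω D' _ _ (mA τ r) d n _ hτ.1 hd
      (red_a τ (red_a i ra)) (red_b τ (red_b i rb)) (by rwa [nd_map, nd_map])
      (fun m hm H => mn m hm (up hx (up hτ H))) (S1a.cc_mA τ c0) (fi_push τ hτ.2 fi) o'
      (hω'.map_of_injective τ.injective)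
    obtain ⟨G, hG⟩ := all (mA (s ()) r) (by
      have k := fi_push (s ()) x1.2 fi
      rwa [mA_mA, mA_mA, show (s ()).comp i = τ.comp i from RingHom.ext x2, ← mA_mA,
        ← mA_mA] at k)
    have n1 := nat τ (dk.s0 j) (dk'.s0 j) (dk.s1 j) (by rw [s1, s1', map_pow]) hn o (dk.out j)
      (dk'.out j) (dk.fix j) (dk'.fix j)
    have n2 := nat (s ()) (dk.s0 j) (dk'.s0 j) (dk.s1 j) (by rw [s1, s1', map_pow, x2]) hn o
      (dk.out j) (dk'.out j) (dk.fix j) (hG ▸ ((h4 Ω _).2 _ _ _ _ dk').2.1 j G)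
    have n3 := congrArg (fun z : TT Ω => (coeff p z).coeff q) (n2.symm.trans n1)
    simp only [mT, coeff_map, coeff_mapL] at n3
    exact x3 n3
  choose s hs using key
  obtain ⟨ρ0, rfl⟩ : ∃ ρ0, ρ = mA i ρ0 := exists_mA fun p q => by
    have := congrArg (fun z : TT U => (coeff p z).coeff (q : ℤ)) eρ
    simp only [hs, ← map_prod] at this
    rw [coeff_iT, coeff_coeL, mT, coeff_map, coeff_mapL] at this
    exact ⟨_, Eq.trans (by simp [swap, co2]) this⟩
  have mi := map_injective i i.injective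
  have r0 : cc ρ0 = 0 := mi (by
    have := rho.c0
    rw [← coeff_zero_eq_constantCoeff_apply] at this ⊢
    rw [map_zero, ← this, mA, coeff_map])
  obtain ⟨B0, b1, b2, b3⟩ := h3 L U i ρ0 (a * cw (cw D) ρ0 - X * b * dX _ ρ0) a B r0 (by
    rw [← rho.eq, map_sub, map_mul, map_mul, map_mul, mA_X, mA, cw_map' (cw_map' hx.2), dX_map])
  refine ⟨n2, ρ0, B0, ⟨r0, S1a.ord_map.1 (red_mA i ρ0 ▸ rho.ord), b3 rho.tB, b2 rho.cB, b1⟩, ?_⟩
  have ou : OrdIs 0 u := ⟨by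
    rw [coeff_zero_eq_constantCoeff_apply]; exact (hu.map cc).ne_zero, fun j hj => by omega⟩
  have := (ou.mul oα).1
  rw [← eu, zero_add] at this
  simpa only [OrdIs, mA, coeff_map, ne_eq, map_eq_zero_iff _ mi] using this

end Pool.Agent.MP_05b4bd_ag.RV
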