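import Pool.Agent.MP_05b4bd_ag.rr.Spec5

/-! The residue of the passage time forces the first displacement to vanish. -/

namespace Pool.Agent.MP_05b4bd_ag.RV

open PowerSeries LaurentSeries HC
open ES hiding Gen Ob Inf

namespace Resn

variable {k : Type} [Field k] {m : ℕ}

theorem hu (hm : 1 ≤ m) (s : k) :
    (X ^ (2 * m) * (C (cL k (-s)) + X * C (wL k 1)) : TT k) ∈ up (⊥ : Ideal k⸨X⸩) :=
  mem_up_bot.2 (by rw [map_mul, cc_X_pow (by omega), zero_mul])

theorem hz : (X ^ 2 : TT k) ∈ up (⊥ : Ideal k⸨X⸩) := mem_up_bot.2 (cc_X_pow (by omega))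

theorem sg_CX (hm : 1 ≤ m) (s : k) :
    sg m s (C X) = X ^ (2 * m) * (C (cL k (-s)) + X * C (wL k 1)) := ev2_CX (up ⊥) (hu hm s) hz

theorem sg_CX0 (hm : 1 ≤ m) : sg m (0 : k) (C X) = X ^ (2 * m + 1) * C (wL k 1) := by
  rw [sg_CX hm, neg_zero, map_zero, map_zero, zero_add, pow_succ, mul_assoc]

theorem inj (hm : 1 ≤ m) : Function.Injective (sg m (0 : k)) := by
  refine winj (τ := X) (p := C (wL k 1)) (q := 1) (a := 2 * m + 1) (b := 2) (by omega) (by omega)
    (mem_nonZeroDivisors_of_ne_zero X_ne_zero) cc constantCoeff_X (sg_CX0 hm)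
    ((ev2_X (up ⊥) hz).trans (mul_one _).symm) fun w s r hs h n hn => ?_
  have e : ∀ c : k, cc (sg m (0 : k) (CC c)) = cL k c := fun c =>
    (congrArg cc (ev2_CC (up ⊥) (hu hm 0) hz c)).trans (constantCoeff_C _)
  simp only [e, constantCoeff_C, map_one, one_pow, mul_one, wL_pow] at h
  have := congrArg (fun f : k⸨X⸩ => f.coeff n.1) h
  simp only [HahnSeries.coeff_sum, coeff_cL_mul, coeff_wL, HahnSeries.coeff_zero] at this
  rw [Finset.sum_eq_single n, if_pos rfl, mul_one] at this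
  · exact this
  · intro l hl hne
    rw [if_neg, mul_zero]
    intro g
    have g1 : n.1 = l.1 := by exact_mod_cast g
    have g2 := hs l hl
    rw [← hs n hn, g1] at g2
    exact hne (Prod.ext g1.symm (by omega))
  · exact fun g => absurd hn g

end Resn

open Resn in
theorem resnS (h : ResxStmt) : ResnStmt := by
  intro k _ _ m s z z' hm z0 z0' zn hR
  have n0 : sg m (0 : k) (z * C X) ≠ 0 := (map_ne_zero_iff _ (inj hm)).2
    (mul_ne_zero zn ((map_ne_zero_iff _ C_injective).2 X_ne_zero))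
  obtain ⟨N, hN⟩ := exists_ordIs n0
  obtain ⟨a, ha, ca⟩ := hN.fac
  have ua : IsUnit a := isUnit_iff_constantCoeff.2 (IsUnit.mk0 _ (ca ▸ hN.1))
  obtain ⟨β, hβ⟩ := ua.exists_right_inv
  obtain ⟨G0, e0⟩ := h k m N s z 1 z' 1 a β hm z0 (by rw [map_one]; exact one_ne_zero) (hR 0) ha ua
    (by rw [map_one, hβ])
  obtain ⟨G1, e1⟩ := h k m N s z (z - 1) z' (z' - 1) a (β * sg m 0 (z - 1)) hm z0
    (by rw [map_sub, map_one, c00_apply, z0', map_zero, zero_sub]; exact neg_ne_zero.2 one_ne_zero)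
    (hR 1) ha ua (by rw [← mul_assoc, hβ, one_mul])
  have w1 : (C (wL k 1) * C (wL k (-1)) : TT k) = 1 := by rw [← map_mul, wL_mul_neg, map_one]
  rw [map_mul, sg_CX0 hm] at ha
  rw [map_one, mul_one, map_mul] at e0
  rw [map_sub, map_sub, map_one, map_one, map_mul] at e1
  have n1 : sg m s z' ≠ 0 := fun g => by
    rw [g, zero_mul, zero_mul] at e0
    exact pow_ne_zero _ X_ne_zero e0.symm
  have e2 : (C (cL k (-s)) + X * C (wL k 1)) * (X ^ N * C (wL k (-1)) + cw (dL k) (G0 + G1)) =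
      X ^ (N + 1) := by
    refine mul_left_cancel₀ (mul_ne_zero n1 (pow_ne_zero (2 * m) X_ne_zero)) ?_
    have e3 : X ^ (2 * m + 1) * β * sg m 0 z = X ^ N * C (wL k (-1)) := by
      linear_combination β * C (wL k (-1)) * ha + X ^ N * C (wL k (-1)) * hβ -
        X ^ (2 * m + 1) * β * sg m 0 z * w1
    rw [sg_CX hm] at e0 e1
    rw [map_add, ← e3]
    linear_combination e0 + e1
  by_contra hs
  have u : IsUnit (C (cL k (-s)) + X * C (wL k 1) : TT k) := by
    rw [isUnit_iff_constantCoeff, map_add, map_mul, constantCoeff_X, zero_mul, add_zero,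
      constantCoeff_C]
    exact (IsUnit.mk0 _ (neg_ne_zero.2 hs)).map _
  have e4 := X_pow_dvd_iff.1 (u.dvd_mul_left.1 e2.symm.dvd) N (Nat.lt_succ_self N)
  rw [map_add, coeff_X_pow_mul_self, constantCoeff_C, coeff_cw] at e4
  have e5 := congrArg (fun f : k⸨X⸩ => f.coeff (-1)) e4
  simp [coeff_wL, coeff_dL] at e5

end Pool.Agent.MP_05b4bd_ag.RV
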