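import Pool.Agent.MP_05b4bd_ag.rr.Defs
import Pool.Agent.MP_05b4bd_ag.um.Tr
import Pool.Agent.MP_05b4bd_ag.um.Cfl
import Pool.Agent.MP_05b4bd_ag.esc.Symb

/-! Radially symmetric Morse polynomials: definitions and block statements. -/

section
namespace Pool.Agent.MP_05b4bd_ag.RV

open MvPolynomial HC
open ES.U (TM Cr hom)
open PC3 (Fm fm d1 DF sub2 pb mapF Van CenK iS)
open scoped PowerSeries LaurentSeries

noncomputable section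

section Forms
variable {A : Type} [CommRing A]

/-- The reversible family over any ring. -/
def rrF (d a b : ℕ) (u v l : R2 A) (p q : ℕ → R2 A) : Fm A :=
  ∑ j ∈ Finset.range ((d - 1) / (a + b) + 1), l ^ (b * j) •
    ((((a + b : ℕ) : R2 A) * l) • (fm (sub2 u v (p j)) u + fm (sub2 u v (q j)) v) -
      fm ((b : R2 A) * (u * sub2 u v (p j) + v * sub2 u v (q j))) l)

def HR (d a b : ℕ) (w : Fm A) : Prop := ∃ (u v : R2 A) (α β : A) (p q : ℕ → R2 A),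
  DL 2 u ∧ DL 2 v ∧
  (∀ j, (p j).IsHomogeneous (d - 1 - j * (a + b)) ∧ (q j).IsHomogeneous (d - 1 - j * (a + b))) ∧
  w = rrF d a b u v (1 + C α * u + C β * v) p q

/-- The part of a form whose coefficients have degree `e`. -/
def wpt (e : ℕ) (w : Fm A) : Fm A := (hc e w.1, hc e w.2)

/-- Contraction with the radial field. -/
def cE (w : Fm A) : R2 A := X 1 * w.1 - X 0 * w.2

/-- The member of the family with centre `0`, line `l` and symmetric form `w`. -/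
def mdl (d a b : ℕ) (l : R2 A) (w : Fm A) : Fm A :=
  ∑ j ∈ Finset.range ((d - 1) / (a + b) + 1), l ^ (b * j) •
    ((((a + b : ℕ) : R2 A) * l) • wpt (d - 1 - j * (a + b)) w -
      fm ((b : R2 A) * cE (wpt (d - 1 - j * (a + b)) w)) l)

/-- Translation of a form. -/
def trF (c : Fin 2 → A) (w : Fm A) : Fm A := (tr c w.1, tr c w.2)

/-- Congruence of forms modulo `t ^ n`. -/
def Cg (n : ℕ) (w w' : Fm A⟦X⟧) : Prop :=
  C (PowerSeries.X ^ n) ∣ w.1 - w'.1 ∧ C (PowerSeries.X ^ n) ∣ w.2 - w'.2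

/-- `w` is a limit of members of the family, after an extension of the ring. -/
def RRc (d a b : ℕ) (w : Fm A) : Prop := ∃ (K : Type) (_ : Field K) (ι : A →+* K⟦X⟧),
  Function.Injective ι ∧ ∀ n, ∃ w', HR d a b w' ∧ Cg n (mapF ι w) w'

end Forms

section Fields
variable {k : Type} [Field k]

/-- A radial symmetry of order `n` over an extension field. -/
def SymK (d n : ℕ) (f : R2 k) : Prop := ∃ (K : Type) (_ : Field K) (j : k →+* K) (ζ e : K)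
  (c : Fin 2 → K), IsPrimitiveRoot ζ n ∧ hom ζ c (map j f) = C (ζ ^ d) * map j f + C e

/-- The exceptional cubic over an extension field. -/
def ExoK (f : R2 k) : Prop := ∃ (K : Type) (_ : Field K) (j : k →+* K) (a e : K) (u v : R2 K),
  DL 2 u ∧ DL 2 v ∧ map j f = C a * (u ^ 3 + u * v ^ 2 + v) + C e

/-- The orders of the symmetries that occur. -/
def Adm (d n : ℕ) : Prop := 2 ≤ n ∧ (n ∣ d - 1 ∨ n ∣ d - 2 ∧ Odd n)

/-- The reversible case. -/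
def Rv (d : ℕ) (f : R2 k) (w : Fm k⟦X⟧) : Prop :=
  (∃ a b, 1 ≤ a ∧ 1 ≤ b ∧ a.Coprime b ∧ SymK d (a + b) f ∧ RRc d a b w) ∨ d = 3 ∧ ExoK f

/-- The standing hypothesis on `f`. -/
def Gen [CharZero k] (d : ℕ) (f : R2 k) : Prop :=
  coeff 0 f = 0 ∧ DL (d + 1) f ∧ TM d f ∧ True ∧ HC.co d 0 (hc d f) ≠ 0 ∧ HC.co 0 d (hc d f) ≠ 0

/-- The Hamiltonian field. -/
def ham (f : R2 k) : Fin 2 → R2 k := ![pderiv 1 f, -pderiv 0 f]

/-- `g = a f_x + b f_y` with a non-zero divergence of degree at most `d - 2`. -/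
def Low (d : ℕ) (f g : R2 k) : Prop := ∃ a b, g = a * pderiv 0 f + b * pderiv 1 f ∧
  DL (d - 1) (pderiv 0 a + pderiv 1 b) ∧ pderiv 0 a + pderiv 1 b ≠ 0

/-- The rotated form minus the form. -/
def dif (d : ℕ) (ζ : k) (w : Fm k) : Fm k :=
  (C (ζ * ζ⁻¹ ^ d) * hom ζ 0 w.1 - w.1, C (ζ * ζ⁻¹ ^ d) * hom ζ 0 w.2 - w.2)

/-- `w` agrees with a member of the family modulo `t ^ j`. -/
structure Md (d a b : ℕ) (f : R2 k) (j : ℕ) (w : Fm k⟦X⟧) (l0 l1 : k⟦X⟧) (s r : Fm k⟦X⟧) :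
    Prop where
  j1 : 1 ≤ j
  c0 : ES.cc l0 = 0
  c1 : ES.cc l1 = 0
  red : ((a + b : ℕ) : R2 k) • mapF ES.cc s = d1 f
  deg : DF (d + 1) r
  eq : w = mdl d a b (1 + HC.lf l0 l1) s + (C (PowerSeries.X ^ j) : R2 k⟦X⟧) • r

/-- A field of forms as a field over series with polynomial coefficients. -/
def vfS (w : Fm k⟦X⟧) : Fin 2 → (R2 k)⟦X⟧ := ![iS k w.1, iS k w.2]

end Fields

end

end Pool.Agent.MP_05b4bd_ag.RV
end

section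
namespace Pool.Agent.MP_05b4bd_ag.RV

open PowerSeries LaurentSeries HC
open ES hiding Gen Ob Inf
open ES.U (TM Cr hom)
open PC3 (Fm fm d1 DF sub2 pb mapF Van CenK iS)

noncomputable section

/-! ### Arcs, frames and first integrals -/

/-- A deformation of `df` with a non-zero higher Melnikov function. -/
structure Ob (k : Type) [Field k] [CharZero k] (d : ℕ) where
  P : R2 k⟦X⟧
  Q : R2 k⟦X⟧
  H : R2 k⟦X⟧
  gt : R2 k⟦X⟧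
  f : R2 k
  n : ℕ
  gen : Gen d f
  dP : DL (d + 1) P
  dQ : DL (d + 1) Q
  rP : MvPolynomial.map cc P = MvPolynomial.pderiv 1 f
  rQ : MvPolynomial.map cc Q = -MvPolynomial.pderiv 0 f
  rH : MvPolynomial.map cc H = f
  n1 : 1 ≤ n
  eq : vf P Q H = MvPolynomial.C (X ^ n) * gt
  ng : ∀ u, MvPolynomial.map cc gt ≠ br u f
  jac : MvPolynomial.map cc gt ∈ Jac f

/-- The data at infinity over the function field of `F = 1`: the form is `a dW + W b ds`. -/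
structure Inf (k : Type) [Field k] [CharZero k] (d : ℕ) (L : Type) [Field L] where
  κ : k →+* L
  D : L →+ L
  f : R2 k
  g : R2 k
  x0 : L⟦X⟧
  y0 : L⟦X⟧
  a : AA L
  b : AA L
  vb : TT L
  h : TT L
  Xi : TT L
  n : ℕ
  gen : Gen d f
  ng : ∀ u, g ≠ br u f
  jac : g ∈ Jac f
  cv : Curve κ D (hc d f) (cc x0) (cc y0)
  gb : gf κ (cc x0) (cc y0) = ⊤
  fr : EL κ x0 y0 f = wL L (-(d : ℤ))
  ra : red a = -((d : L⟦X⟧) * X)
  rb : red b = 0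
  hv : iT a * vb = iT b
  n1 : 1 ≤ n
  rh : cc h = wL L (-(d : ℤ))
  hV : VT D vb h = X ^ n * Xi
  rX : cc Xi = GLc κ d D x0 y0 g

section Frames
variable {k L : Type} [Field k] [Field L]

/-- A frame `(x / W, y / W)` at infinity in which `f = W ^ (-d)` at `t = 0`. -/
structure Frm (κ : k →+* L) (D : L →+ L) (d : ℕ) (f : R2 k) (x y : AA L) : Prop where
  cv : Curve κ D (hc d f) (c00 x) (c00 y)
  gb : gf κ (c00 x) (c00 y) = ⊤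
  pu : hev ((C : L →+* L⟦X⟧).comp κ) d f (red x) (red y) X = 1

/-- The `dW` coefficient of the form in a frame. -/
def fa (κ : k →+* L) (d : ℕ) (P Q : R2 k⟦X⟧) (x y : AA L) : AA L :=
  aF ((C : L⟦X⟧ →+* AA L).comp (map κ)) d P Q x y

/-- The `ds` coefficient, divided by `W`. -/
def fb (κ : k →+* L) (D : L →+ L) (d : ℕ) (P Q : R2 k⟦X⟧) (x y : AA L) : AA L :=
  bF ((C : L⟦X⟧ →+* AA L).comp (map κ)) d P Q (cw D) x y

/-- No first integral over any differential extension. -/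
def NoFI (D : L →+ L) (a b : AA L) : Prop := ¬ a ∣ X * b → ∀ (U : Type) [Field U] (D1 : U →+ U)
  (i : L →+* U) (r : AA U), DExt D D1 i → r ≠ 0 → cc r = 0 →
  ¬ FIe (cw D1) (mA i a) (X * mA i b) r

/-- No first integral in any frame, after any ramification. -/
def NoF (d : ℕ) (f : R2 k) (P Q : R2 k⟦X⟧) : Prop := ∀ M, 1 ≤ M → ∀ (L : Type) [Field L]
  (κ : k →+* L) (D : L →+ L) (x y : AA L), Frm κ D d f x y →
  NoFI D (fa κ d (MvPolynomial.map (ram k M) P) (MvPolynomial.map (ram k M) Q) x y)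
    (fb κ D d (MvPolynomial.map (ram k M) P) (MvPolynomial.map (ram k M) Q) x y)

/-- A first integral whose reduction has order `m`. -/
def HasFI (D : L →+ L) (a b : AA L) (m : ℕ) : Prop := ∃ (U : Type) (_ : Field U) (D1 : U →+ U)
  (i : L →+* U) (r : AA U), DExt D D1 i ∧ cc r = 0 ∧ FIe (cw D1) (mA i a) (X * mA i b) r ∧
  OrdIs m (red r)

/-- A first integral of least order `n`, of order `α` in `W`. -/
structure Good (κ : k →+* L) (D : L →+ L) (a b : AA L) (n α : ℕ) : Prop where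
  nd : ¬ a ∣ X * b
  min : ∀ m < n, ¬ HasFI D a b m
  ex : ∃ (U : Type) (_ : Field U) (D1 : U →+ U) (i : L →+* U) (r : AA U), DExt D D1 i ∧
    Cst (i.comp κ) D1 ∧ cc r = 0 ∧ FIe (cw D1) (mA i a) (X * mA i b) r ∧ OrdIs n (red r) ∧
    OrdIs α r

/-- The form is the pull-back of `d ρ = B (ρ) ds`. -/
structure Rho (D : L →+ L) (a b ρ B : AA L) (n : ℕ) : Prop where
  c0 : cc ρ = 0
  ord : OrdIs n (red ρ)
  tB : C X ∣ B
  cB : cc B = 0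
  eq : a * cw (cw D) ρ - X * b * dX _ ρ = a * sb ρ B

/-- A deck transformation of `ρ` over `σ`. -/
structure Dk (D : L →+ L) (vb : TT L) (σ : L⟦X⟧) (ρ : AA L) (Φ : AA L →+* TT L)
    (φ : L⸨X⸩ →+* TT L) : Prop where
  out : IsOut 0 Φ ((coeL L).comp (sb σ))
  fix : Φ ρ = iT ρ
  ext : ∀ c, hat φ (iT c) = Φ c
  red : ∀ c, cc (φ (coeL L c)) = coeL L (sb σ c)
  der : ∀ c, cwL D (cc (φ c)) = cc (φ (cwL D c))
  vt : ∀ z, VT D vb (hat φ z) = hat φ (VT D vb z)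

/-- `ρ = u W ^ α (W - w) ^ β`. -/
structure Fac (ρ u : AA L) (w : L⟦X⟧) (α β : ℕ) : Prop where
  a1 : 1 ≤ α
  b1 : 1 ≤ β
  cop : α.Coprime β
  unit : IsUnit u
  w0 : cc w = 0
  wn : w ≠ 0
  eq : ρ = u * X ^ α * (X - C w) ^ β

/-- The radial `dz` coefficient at a point `z`. -/
def aR (κ : k →+* L) (d : ℕ) (w : Fm k⟦X⟧) (x y : L) (z : L⟦X⟧) : L⟦X⟧ :=
  hev (map κ) d w.1 (C x) (C y) z * C y - hev (map κ) d w.2 (C x) (C y) z * C x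

/-- The radial `ds` coefficient at a point `z`, divided by `z`. -/
def bR (κ : k →+* L) (D : L →+ L) (d : ℕ) (w : Fm k⟦X⟧) (x y : L) (z : L⟦X⟧) : L⟦X⟧ :=
  hev (map κ) d w.1 (C x) (C y) z * C (D y) - hev (map κ) d w.2 (C x) (C y) z * C (D x)

end Frames

/-- A symmetric polynomial with its normalised radial frame. -/
structure Rd (k : Type) [Field k] [CharZero k] (d n : ℕ) (L : Type) [Field L] where
  f : R2 k
  ζ : k
  κ : k →+* L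
  D : L →+ L
  xb : L
  yb : L
  p : L⟦X⟧
  z : L⟦X⟧
  d3 : 3 ≤ d
  gen : Gen d f
  adm : Adm d n
  prim : IsPrimitiveRoot ζ n
  sym : hom ζ 0 f = MvPolynomial.C (ζ ^ d) * f
  cv : Curve κ D (hc d f) xb yb
  gb : gf κ xb yb = ⊤
  cst : Cst κ D
  p0 : cc p = 1
  pu : hev ((C : L →+* L⟦X⟧).comp κ) d f (p * C xb) (p * C yb) X = 1
  pz : z * p = X
  rot : rescale (κ ζ) p = p

namespace Rd
variable {k L : Type} [Field k] [CharZero k] [Field L] {d n : ℕ} (R : Rd k d n L)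

def x : AA L := map C (R.p * C R.xb)
def y : AA L := map C (R.p * C R.yb)
def a (w : Fm k⟦X⟧) : AA L := fa R.κ d w.1 w.2 R.x R.y
def b (w : Fm k⟦X⟧) : AA L := fb R.κ R.D d w.1 w.2 R.x R.y
def E : R2 k →+* L⸨X⸩ := EL R.κ (R.p * C R.xb) (R.p * C R.yb)

/-- The linear form at the generic point. -/
def l (l0 l1 : k⟦X⟧) : L⟦X⟧ := map R.κ l0 * C R.xb + map R.κ l1 * C R.yb

/-- The model function `z ^ α (z + l) ^ β`. -/
def ρ (α β : ℕ) (l0 l1 : k⟦X⟧) : AA L := map C R.z ^ α * (map C R.z + C (R.l l0 l1)) ^ β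

/-- What the first integral gives in the normalised radial frame. -/
structure Pk (w : Fm k⟦X⟧) (α β : ℕ) (ρ B u : AA L) (w1 : L⟦X⟧) (vb : TT L) (Φ : AA L →+* TT L)
    (φ : L⸨X⸩ →+* TT L) : Prop where
  sum : α + β = n
  nd : ¬ R.a w ∣ X * R.b w
  ra : red (R.a w) = -((d : L⟦X⟧) * X)
  rb : red (R.b w) = 0
  rho : Rho R.D (R.a w) (R.b w) ρ B n
  fac : Fac ρ u w1 α β
  hv : iT (R.a w) * vb = iT (R.b w)
  dk : Dk R.D vb (C (R.κ R.ζ⁻¹) * X) ρ Φ φ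

end Rd

/-! ### Rings with two derivations -/

section Two
variable {E F : Type} [CommRing E] [CommRing F]

/-- Two commuting derivations. -/
structure Cm (d : Fin 2 → E →+ E) : Prop where
  der : ∀ i, IsDer (d i)
  comm : ∀ u, d 0 (d 1 u) = d 1 (d 0 u)

/-- The vector field with components `A`. -/
def vS (d : Fin 2 → E →+ E) (A : Fin 2 → E⟦X⟧) (u : E⟦X⟧) : E⟦X⟧ :=
  A 0 * cw (d 0) u + A 1 * cw (d 1) u

/-- `φ` is the Taylor expansion of the displacement `δ`. -/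
structure Tay (d : Fin 2 → E →+ E) (δ : Fin 2 → E⟦X⟧) (φ : E →+* E⟦X⟧) : Prop where
  c0 : ∀ i, cc (δ i) = 0
  red : ∀ u, cc (φ u) = u
  dt : ∀ u, dX E (φ u) = φ (d 0 u) * dX E (δ 0) + φ (d 1 u) * dX E (δ 1)

/-- All coefficients lie in `S`. -/
def In (S : Subring E) (u : E⟦X⟧) : Prop := ∀ n, coeff n u ∈ S

variable {k : Type} [Field k]

/-- Evaluation of a series with polynomial coefficients at the point `ξ`. -/
def evS (e : R2 k →+* E) (ξ : Fin 2 → E⟦X⟧) : (R2 k)⟦X⟧ →+* E⟦X⟧ :=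
  hat (MvPolynomial.eval₂Hom ((C : E →+* E⟦X⟧).comp (e.comp MvPolynomial.C)) ξ)

/-- The derivations extend those of polynomials. -/
structure D2 (e : R2 k →+* E) (d : Fin 2 → E →+ E) : Prop extends Cm d where
  ext : ∀ i u, d i (e u) = e (MvPolynomial.pderiv i u)

/-- The Hamiltonian derivation. -/
def D0 (e : R2 k →+* E) (d : Fin 2 → E →+ E) (f : R2 k) (u : E) : E :=
  e (MvPolynomial.pderiv 1 f) * d 0 u - e (MvPolynomial.pderiv 0 f) * d 1 u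

/-- The point `ξ` carries the field `B` to a multiple of the field `A`. -/
structure Eqv (e : R2 k →+* E) (d : Fin 2 → E →+ E) (A B : Fin 2 → (R2 k)⟦X⟧) (m : ℕ)
    (ξ : Fin 2 → E⟦X⟧) (μ : E⟦X⟧) : Prop where
  near : ∀ i, X ^ m ∣ ξ i - C (e (MvPolynomial.X i))
  eq : ∀ i, vS d (fun j => map e (B j)) (ξ i) = μ * evS e ξ (A i)

/-- A deformation of the Hamiltonian field with a Melnikov function of low degree. -/
def Mel (d : ℕ) (f : R2 k) (A : Fin 2 → (R2 k)⟦X⟧) : Prop := (∀ i, cc (A i) = ham f i) ∧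
  ∃ (H g : (R2 k)⟦X⟧) (n : ℕ), 1 ≤ n ∧ cc H = f ∧ vS (pd k) A H = X ^ n * g ∧ Low d f (cc g)

/-- The pair of a subring `S` of `F` and an overring `E` of `F` has no torsion for `f` and `g`. -/
structure Tf (e : R2 k →+* F) (d : Fin 2 → F →+ F) (S : Subring F) (j : F →+* E)
    (d' : Fin 2 → E →+ E) (f a b : R2 k) (N : Fin 2 → F) : Prop where
  two : D2 e d
  two' : D2 (j.comp e) d'
  inj : Function.Injective j
  nat : ∀ i u, d' i (j u) = j (d i u)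
  mem : ∀ u, e u ∈ S
  st : ∀ i, ∀ u ∈ S, d i u ∈ S
  mN : ∀ i, N i ∈ S
  one : N 0 * e (MvPolynomial.pderiv 0 f) + N 1 * e (MvPolynomial.pderiv 1 f) = 1
  i1 : ∀ z ∈ S, ∀ u, j z = D0 (j.comp e) d' f u → ∃ v ∈ S, z = D0 e d f v
  i2 : ∀ c u, ∀ z ∈ S, D0 (j.comp e) d' f c = 0 →
    c * j (e (MvPolynomial.pderiv 0 a + MvPolynomial.pderiv 1 b)) -
      (j (N 0) * d' 0 c + j (N 1) * d' 1 c) *
        j (e (a * MvPolynomial.pderiv 0 f + b * MvPolynomial.pderiv 1 f)) =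
      j z + D0 (j.comp e) d' f u → ∃ r ∈ S, c = j r

end Two

/-- The field of rational functions. -/
abbrev FF (k : Type) [Field k] := FractionRing (R2 k)

section Loc
variable {k : Type} [Field k]

/-- The inclusion of the polynomials. -/
def eF (k : Type) [Field k] : R2 k →+* FF k := algebraMap _ _

/-- Fractions whose denominator is a polynomial in `f`. -/
def InH (f : R2 k) (z : FF k) : Prop :=
  ∃ (q : Polynomial k) (u : R2 k), q ≠ 0 ∧ eF k (Polynomial.aeval f q) * z = eF k u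

/-- Fractions whose denominator is not divisible by `f - c`. -/
def InO (f : R2 k) (c : k) (z : FF k) : Prop :=
  ∃ u v : R2 k, ¬ f - MvPolynomial.C c ∣ v ∧ eF k v * z = eF k u

end Loc

end

end Pool.Agent.MP_05b4bd_ag.RV
end

section
namespace Pool.Agent.MP_05b4bd_ag.RV

open PowerSeries LaurentSeries HC
open ES hiding Gen Ob Inf
open ES.U (TM Cr hom)
open PC3 (Fm fm d1 DF sub2 pb mapF Van CenK iS)

/-! ### Statements: tools -/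

def TayStmt : Prop := ∀ (E : Type) [CommRing E] [Algebra ℚ E] (d : Fin 2 → E →+ E), Cm d →
  (∀ δ, (∀ i, cc (δ i) = 0) → ∃ φ, Tay d δ φ) ∧
  (∀ δ δ' φ φ' (n : ℕ), Tay d δ φ → Tay d δ' φ' → (∀ i, X ^ n ∣ δ i - δ' i) →
    ∀ u, X ^ n ∣ hat φ u - hat φ' u) ∧
  ∀ δ φ, Tay d δ φ →
    (∀ m : ℕ, (∀ i, X ^ m ∣ δ i) → ∀ u, X ^ (m + 1) ∣ hat φ u - u - vS d δ u) ∧
    (∀ u, (∀ i l, d i (d l u) = 0) → φ u = C u + C (d 0 u) * δ 0 + C (d 1 u) * δ 1) ∧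
    (∀ L : E →+ E, IsDer L → (∀ i u, L (d i u) = d i (L u)) → ∀ u, cw L (hat φ u) =
      hat φ (cw L u) + hat φ (cw (d 0) u) * cw L (δ 0) + hat φ (cw (d 1) u) * cw L (δ 1)) ∧
    (∀ S : Subring E, (∀ q : ℚ, algebraMap ℚ E q ∈ S) → (∀ i, ∀ u ∈ S, d i u ∈ S) →
      (∀ i, In S (δ i)) → ∀ u, In S u → In S (hat φ u)) ∧
    Function.Bijective (hat φ) ∧
    ∀ (E' : Type) [CommRing E'] [Algebra ℚ E'] (d' : Fin 2 → E' →+ E') (j : E →+* E')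
      (φ' : E' →+* E'⟦X⟧), (∀ i u, d' i (j u) = j (d i u)) → Tay d' (fun i => map j (δ i)) φ' →
      ∀ u, hat φ' (map j u) = map j (hat φ u)

def EvsStmt : Prop := ∀ (k E : Type) [Field k] [CommRing E] (e : R2 k →+* E) (ξ : Fin 2 → E⟦X⟧),
  (∀ u, evS e (fun i => C (e (MvPolynomial.X i))) u = map e u) ∧
  (∀ ξ' (n : ℕ), (∀ i, X ^ n ∣ ξ i - ξ' i) → ∀ u, X ^ n ∣ evS e ξ u - evS e ξ' u) ∧
  (∀ m : ℕ, 1 ≤ m → (∀ i, X ^ m ∣ ξ i - C (e (MvPolynomial.X i))) → ∀ u, X ^ (m + 1) ∣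
    evS e ξ u - map e u - (map e (cw (pd k 0) u) * (ξ 0 - C (e (MvPolynomial.X 0))) +
      map e (cw (pd k 1) u) * (ξ 1 - C (e (MvPolynomial.X 1))))) ∧
  (∀ V : E⟦X⟧ →+ E⟦X⟧, IsDer V → V X = 0 → (∀ c, V (C (e (MvPolynomial.C c))) = 0) → ∀ u,
    V (evS e ξ u) = evS e ξ (cw (pd k 0) u) * V (ξ 0) + evS e ξ (cw (pd k 1) u) * V (ξ 1)) ∧
  ∀ (E' : Type) [CommRing E'] (e' : R2 k →+* E') (g : E⟦X⟧ →+* E'⟦X⟧), g X = X →
    (∀ c, g (C (e (MvPolynomial.C c))) = C (e' (MvPolynomial.C c))) →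
    ∀ u, g (evS e ξ u) = evS e' (fun i => g (ξ i)) u

def TaydStmt : Prop := ∀ (k E : Type) [Field k] [CharZero k] [CommRing E] (e : R2 k →+* E)
  (d : Fin 2 → E →+ E) (ξ : Fin 2 → E⟦X⟧) (φ : E →+* E⟦X⟧), D2 e d →
  Tay d (fun i => ξ i - C (e (MvPolynomial.X i))) φ → (∀ u, hat φ (map e u) = evS e ξ u) ∧
  ∀ B u, vS d B (hat φ u) =
    hat φ (cw (d 0) u) * vS d B (ξ 0) + hat φ (cw (d 1) u) * vS d B (ξ 1)

def FlowStmt : Prop := ∀ (E : Type) [CommRing E] [Algebra ℚ E] (V : E⟦X⟧ →+ E⟦X⟧) (T : E⟦X⟧),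
  IsDer V → X ∣ T → ∃ Φ : E⟦X⟧ →+* E⟦X⟧, (∀ u, V (Φ u) = (1 + V T) * Φ (V u)) ∧
    (∀ u, T ^ 2 ∣ Φ u - u - T * V u) ∧ ∀ u, V u = 0 → Φ u = u

/-! ### Statements: the critical values are rigid -/

/-- Comparison of approximate first integrals. -/
def CmpaStmt : Prop := ∀ (k E : Type) [Field k] [CharZero k] [CommRing E] (e : R2 k →+* E)
  (d : Fin 2 → E →+ E) (f : R2 k) (N : Fin 2 → E) (B : Fin 2 → E⟦X⟧) (h Ξ S U : E⟦X⟧) (p : ℕ),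
  D2 e d → N 0 * e (MvPolynomial.pderiv 0 f) + N 1 * e (MvPolynomial.pderiv 1 f) = 1 →
  (∀ i, cc (B i) = e (ham f i)) → 1 ≤ p → cc h = e f → vS d B h = X ^ p * Ξ →
  vS d B S = X ^ p * U → D0 e d f (cc S) = 0 ∧
    ∃ u, D0 e d f u = cc U - (N 0 * d 0 (cc S) + N 1 * d 1 (cc S)) * cc Ξ

/-- The first displacement of `f` lies in the small ring. -/
def StepStmt : Prop := ∀ (k F E : Type) [Field k] [CharZero k] [CommRing F] [CommRing E]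
  (e : R2 k →+* F) (d : Fin 2 → F →+ F) (S : Subring F) (j : F →+* E) (d' : Fin 2 → E →+ E)
  (f a b : R2 k) (N : Fin 2 → F) (A B : Fin 2 → F⟦X⟧) (H g : F⟦X⟧) (n m : ℕ) (δ : Fin 2 → E⟦X⟧)
  (φ : E →+* E⟦X⟧) (μ : E⟦X⟧), Tf e d S j d' f a b N → (∀ i, In S (A i)) → (∀ i, In S (B i)) →
  In S H → In S g → 1 ≤ n → 1 ≤ m → (∀ i, cc (A i) = e (ham f i)) → cc H = e f →
  vS d A H = X ^ n * g →
  cc g = e (a * MvPolynomial.pderiv 0 f + b * MvPolynomial.pderiv 1 f) →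
  (∀ i, X ^ m ∣ A i - B i) → Tay d' δ φ → (∀ i, X ^ m ∣ δ i) →
  (∀ i, vS d' (fun l => map j (B l)) (C (j (e (MvPolynomial.X i))) + δ i) =
    μ * hat φ (map j (A i))) →
  ∃ s ∈ S, coeff m (δ 0) * j (e (MvPolynomial.pderiv 0 f)) +
    coeff m (δ 1) * j (e (MvPolynomial.pderiv 1 f)) = j s

/-- An equivalence over the large ring gives one over the small ring. -/
def IterStmt : Prop := ∀ (k F E : Type) [Field k] [CharZero k] [CommRing F] [CommRing E]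
  (e : R2 k →+* F) (d : Fin 2 → F →+ F) (S : Subring F) (j : F →+* E) (d' : Fin 2 → E →+ E)
  (f a b : R2 k) (N : Fin 2 → F) (A B : Fin 2 → (R2 k)⟦X⟧) (H g : (R2 k)⟦X⟧) (n m : ℕ)
  (ξ : Fin 2 → E⟦X⟧) (μ : E⟦X⟧), Tf e d S j d' f a b N → 1 ≤ n → 1 ≤ m →
  (∀ i, cc (A i) = ham f i) → cc H = f → vS (pd k) A H = X ^ n * g →
  cc g = a * MvPolynomial.pderiv 0 f + b * MvPolynomial.pderiv 1 f →
  (∀ i, X ^ m ∣ A i - B i) → Eqv (j.comp e) d' A B m ξ μ →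
  ∃ ξ' μ', (∀ i, In S (ξ' i)) ∧ In S μ' ∧ Eqv e d B A m ξ' μ' ∧
    j (coeff m (evS e ξ' (C f))) = -coeff m (evS (j.comp e) ξ (C f))

/-- The equation of the first order. -/
def FoStmt : Prop := ∀ (k E : Type) [Field k] [Field E] (e : R2 k →+* E) (d : Fin 2 → E →+ E)
  (f : R2 k) (A B : Fin 2 → (R2 k)⟦X⟧) (m : ℕ) (ξ : Fin 2 → E⟦X⟧) (μ : E⟦X⟧), D2 e d →
  e (MvPolynomial.pderiv 0 f) ≠ 0 → 1 ≤ m → (∀ i, cc (A i) = ham f i) → (∀ i, X ^ m ∣ A i - B i) →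
  Eqv e d A B m ξ μ → D0 e d f (coeff m (evS e ξ (C f))) =
    e (coeff m (A 0 - B 0) * MvPolynomial.pderiv 0 f + coeff m (A 1 - B 1) * MvPolynomial.pderiv 1 f)

/-- From the neighbourhood of infinity to the generic fibre. -/
def Tor1Stmt : Prop := ∀ (k L : Type) [Field k] [CharZero k] [IsAlgClosed k] [Field L]
  (κ : k →+* L) (D : L →+ L) (d : ℕ) (f : R2 k) (x0 y0 : L⟦X⟧), 3 ≤ d → Gen d f →
  Curve κ D (hc d f) (cc x0) (cc y0) → gf κ (cc x0) (cc y0) = ⊤ →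
  EL κ x0 y0 f = wL L (-(d : ℤ)) → Cst κ D →
  ∃ (dF : Fin 2 → FF k →+ FF k) (S : Subring (FF k)) (j : FF k →+* L⸨X⸩)
    (d' : Fin 2 → L⸨X⸩ →+ L⸨X⸩) (N : Fin 2 → FF k), (∀ z, z ∈ S ↔ InH f z) ∧
    j.comp (eF k) = EL κ x0 y0 ∧
    (∀ u, thL L u = thL L (EL κ x0 y0 (MvPolynomial.X 0)) * d' 0 u +
      thL L (EL κ x0 y0 (MvPolynomial.X 1)) * d' 1 u) ∧
    (∀ u, cwL D u = cwL D (EL κ x0 y0 (MvPolynomial.X 0)) * d' 0 u +
      cwL D (EL κ x0 y0 (MvPolynomial.X 1)) * d' 1 u) ∧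
    ∀ a b, DL (d - 1) (MvPolynomial.pderiv 0 a + MvPolynomial.pderiv 1 b) →
      MvPolynomial.pderiv 0 a + MvPolynomial.pderiv 1 b ≠ 0 → Tf (eF k) dF S j d' f a b N

def PrimeStmt : Prop := ∀ (k : Type) [Field k] [CharZero k] [IsAlgClosed k] (d : ℕ) (f : R2 k)
  (c : k), 3 ≤ d → TM d f → Prime (f - MvPolynomial.C c)

/-- An exact logarithmic form on a fibre is zero. -/
def LogkStmt : Prop := ∀ (k K : Type) [Field k] [CharZero k] [IsAlgClosed k] [Field K]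
  (κ : k →+* K) (D : K →+ K) (d : ℕ) (f g : R2 k) (c : k) (x y u : K), 3 ≤ d → TM d f → IsDer D →
  (∀ a, D (κ a) = 0) → gf κ x y = ⊤ → evp κ x y f = κ c →
  D x = evp κ x y (MvPolynomial.pderiv 1 f) → D y = -evp κ x y (MvPolynomial.pderiv 0 f) →
  DL (d - 1) g → D u = evp κ x y g → ∃ a, u = κ a

/-- From the generic fibre to a special fibre. -/
def Tor2Stmt : Prop := ∀ (k : Type) [Field k] [CharZero k] [IsAlgClosed k] (d : ℕ) (f : R2 k)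
  (dF : Fin 2 → FF k →+ FF k) (c : k), 3 ≤ d → TM d f → D2 (eF k) dF →
  ∃ (S : Subring (FF k)) (N : Fin 2 → FF k), (∀ z, z ∈ S ↔ InO f c z) ∧
    ∀ a b, DL (d - 1) (MvPolynomial.pderiv 0 a + MvPolynomial.pderiv 1 b) →
      MvPolynomial.pderiv 0 a + MvPolynomial.pderiv 1 b ≠ 0 →
      Tf (eF k) dF S (RingHom.id _) dF f a b N

def PolyStmt : Prop := ∀ (k : Type) [Field k] [IsAlgClosed k] (f : R2 k) (z : FF k),
  (∀ c, Prime (f - MvPolynomial.C c)) → InH f z → (∀ c, InO f c z) → ∃ u, z = eF k u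

/-- The displacement vanishes at the critical points. -/
def NeckStmt : Prop := ∀ (k : Type) [Field k] [CharZero k] [IsAlgClosed k] (d : ℕ) (f S : R2 k)
  (dF : Fin 2 → FF k →+ FF k) (p : Fin 2 → k) (A B : Fin 2 → (R2 k)⟦X⟧) (m : ℕ)
  (ξ : Fin 2 → (FF k)⟦X⟧) (μ : (FF k)⟦X⟧), 3 ≤ d → TM d f → D2 (eF k) dF →
  (∀ i, MvPolynomial.eval p (MvPolynomial.pderiv i f) = 0) → Mel d f A → 1 ≤ m →
  (∀ i, X ^ m ∣ A i - B i) → (∀ i n, InO f (MvPolynomial.eval p f) (coeff n (ξ i))) →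
  (∀ n, InO f (MvPolynomial.eval p f) (coeff n μ)) → Eqv (eF k) dF A B m ξ μ →
  coeff m (evS (eF k) ξ (C f)) = eF k S → MvPolynomial.eval p S = 0

/-- An equivalence at infinity moves `f` by an element of the Jacobian ideal. -/
def CvStmt : Prop := ∀ (k L : Type) [Field k] [CharZero k] [IsAlgClosed k] [Field L]
  (κ : k →+* L) (D : L →+ L) (d : ℕ) (f : R2 k) (x0 y0 : L⟦X⟧) (A B : Fin 2 → (R2 k)⟦X⟧) (m : ℕ)
  (vb ϰ μ : TT L) (ξ : Fin 2 → TT L), 3 ≤ d → Gen d f →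
  Curve κ D (hc d f) (cc x0) (cc y0) → gf κ (cc x0) (cc y0) = ⊤ →
  EL κ x0 y0 f = wL L (-(d : ℤ)) → Cst κ D → Mel d f A → Mel d f B → 1 ≤ m →
  (∀ i, X ^ m ∣ A i - B i) → IsUnit ϰ →
  (∀ i, VT D vb (C (EL κ x0 y0 (MvPolynomial.X i))) = ϰ * map (EL κ x0 y0) (B i)) →
  (∀ i, X ^ m ∣ ξ i - C (EL κ x0 y0 (MvPolynomial.X i))) →
  (∀ i, VT D vb (ξ i) = μ * evS (EL κ x0 y0) ξ (A i)) →
  ∃ S ∈ Jac f, coeff m (evS (EL κ x0 y0) ξ (C f)) = EL κ x0 y0 S ∧ br S f =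
    coeff m (A 0 - B 0) * MvPolynomial.pderiv 0 f + coeff m (A 1 - B 1) * MvPolynomial.pderiv 1 f

/-! ### Statements: the quotient at infinity -/

def P0aStmt : Prop := ∀ (k L : Type) [Field k] [CharZero k] [IsAlgClosed k] [Field L]
  (κ : k →+* L) (D : L →+ L) (a b : AA L) (d n α : ℕ), IsDer D → 1 ≤ d →
  red a = -((d : L⟦X⟧) * X) → red b = 0 → Good κ D a b n α →
  2 ≤ n ∧ ∃ ρ B, Rho D a b ρ B n ∧ OrdIs α ρ

def UnirStmt : Prop := ∀ (k L : Type) [Field k] [CharZero k] [IsAlgClosed k] [Field L]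
  (κ : k →+* L) (D : L →+ L) (a b ρ B ρ' B' : AA L) (d n α : ℕ), IsDer D → 1 ≤ d →
  red a = -((d : L⟦X⟧) * X) → red b = 0 → Good κ D a b n α → Rho D a b ρ B n →
  Rho D a b ρ' B' n → ∃ Ψ, cc Ψ = 0 ∧ ρ' = sb ρ Ψ

def P0bStmt : Prop := ∀ (k L : Type) [Field k] [CharZero k] [IsAlgClosed k] [Field L]
  (κ : k →+* L) (D : L →+ L) (a b ρ B : AA L) (d n α : ℕ) (η : L →+* L) (ξ : k), IsDer D → 1 ≤ d →
  red a = -((d : L⟦X⟧) * X) → red b = 0 → Good κ D a b n α → Rho D a b ρ B n → OrdIs α ρ →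
  IsPrimitiveRoot ξ d → (∀ c, η (κ c) = κ c) → (∀ c, D (η c) = κ ξ ^ 2 * η (D c)) →
  rescale (C (κ ξ)) (mA η a) = CC (κ ξ) * a → CC (κ ξ) * rescale (C (κ ξ)) (mA η b) = b →
  n.Coprime d → n ≤ d + 1 → ∃ β u w, α + β = n ∧ Fac ρ u w α β

def DeckrStmt : Prop := ∀ (L : Type) [Field L] [CharZero L] (D : L →+ L) (a b ρ B : AA L)
  (vb : TT L) (σ : L⟦X⟧) (n : ℕ), IsDer D → red a ≠ 0 → iT a * vb = iT b → 1 ≤ n →
  Rho D a b ρ B n → cc σ = 0 → σ ≠ 0 → cw D σ = 0 → sb σ (red ρ) = red ρ →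
  ∃ Φ φ, Dk D vb σ ρ Φ φ

/-! ### Statements: frames -/

def FrameStmt : Prop := ∀ (k L : Type) [Field k] [CharZero k] [Field L] (d : ℕ) (o : Ob k d)
  (κ : k →+* L) (D : L →+ L) (x y x' y' : AA L) (c : Fin 2 → k⟦X⟧) (n α : ℕ), 1 ≤ d →
  Curve κ D (hc d o.f) (c00 x) (c00 y) → c00 x' = c00 x → c00 y' = c00 y →
  Good κ D (fa κ d o.P o.Q x y) (fb κ D d o.P o.Q x y) n α →
  Good κ D (fa κ d (tr c o.P) (tr c o.Q) x' y') (fb κ D d (tr c o.P) (tr c o.Q) x' y') n α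

def NrfStmt : Prop := ∀ (k L : Type) [Field k] [CharZero k] [Field L] (d n : ℕ) (f : R2 k) (ζ : k)
  (κ : k →+* L) (D : L →+ L) (x y : L), 3 ≤ d → Gen d f → Adm d n → IsPrimitiveRoot ζ n →
  hom ζ 0 f = MvPolynomial.C (ζ ^ d) * f → Curve κ D (hc d f) x y → gf κ x y = ⊤ → Cst κ D →
  ∃ R : Rd k d n L, R.f = f ∧ R.ζ = ζ ∧ R.κ = κ ∧ R.D = D ∧ R.xb = x ∧ R.yb = y

def EtaStmt : Prop := ∀ (k L : Type) [Field k] [CharZero k] [IsAlgClosed k] [Field L] (d n : ℕ)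
  (R : Rd k d n L) (ξ : k), ξ ^ d = 1 → ∃ η : L →+* L, (∀ c, η (R.κ c) = R.κ c) ∧
    (∀ c, R.D (η c) = R.κ ξ ^ 2 * η (R.D c)) ∧
    ∀ w, rescale (C (R.κ ξ)) (mA η (R.a w)) = CC (R.κ ξ) * R.a w ∧
      CC (R.κ ξ) * rescale (C (R.κ ξ)) (mA η (R.b w)) = R.b w

def ObsStmt : Prop := ∀ (k : Type) [Field k] [CharZero k] (d : ℕ) (o : Ob k d), 2 ≤ d →
  (∀ c : Fin 2 → k⟦X⟧, ∃ o' : Ob k d, o'.P = tr c o.P ∧ o'.Q = tr c o.Q ∧
    o'.f = tr (fun i => cc (c i)) o.f -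
      MvPolynomial.C (MvPolynomial.eval (fun i => cc (c i)) o.f)) ∧
  (∀ M, 1 ≤ M → ∃ o' : Ob k d, o'.P = MvPolynomial.map (ram k M) o.P ∧
    o'.Q = MvPolynomial.map (ram k M) o.Q ∧ o'.f = o.f) ∧
  (Low d o.f (MvPolynomial.map cc o.gt) → Mel d o.f (vfS (o.P, o.Q))) ∧
  ∀ (k' : Type) [Field k'] [CharZero k'] (j : k →+* k'), ∃ o' : Ob k' d,
    o'.P = MvPolynomial.map (map j) o.P ∧ o'.Q = MvPolynomial.map (map j) o.Q ∧
    o'.f = MvPolynomial.map j o.f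

def MkiStmt : Prop := ∀ (k L : Type) [Field k] [CharZero k] [Field L] (d : ℕ) (o : Ob k d)
  (κ : k →+* L) (D : L →+ L) (x y : AA L), 1 ≤ d → Frm κ D d o.f x y →
  ∃ I : Inf k d L, I.κ = κ ∧ I.D = D ∧ I.f = o.f ∧ I.g = MvPolynomial.map cc o.gt ∧
    I.x0 = red x ∧ I.y0 = red y ∧ I.a = fa κ d o.P o.Q x y ∧ I.b = fb κ D d o.P o.Q x y

def BaserStmt : Prop := ∀ (k L : Type) [Field k] [CharZero k] [Field L] (d : ℕ) (o : Ob k d)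
  (κ : k →+* L) (D : L →+ L) (x y : AA L), 2 ≤ d → Frm κ D d o.f x y →
  ¬ NoFI D (fa κ d o.P o.Q x y) (fb κ D d o.P o.Q x y) →
  ∃ (k' L' : Type) (_ : Field k') (_ : CharZero k') (_ : IsAlgClosed k') (_ : Field L')
    (j : k →+* k') (o' : Ob k' d) (κ' : k' →+* L') (D' : L' →+ L') (x' y' : AA L') (n α : ℕ),
    o'.P = MvPolynomial.map (map j) o.P ∧ o'.Q = MvPolynomial.map (map j) o.Q ∧
    o'.f = MvPolynomial.map j o.f ∧ Frm κ' D' d o'.f x' y' ∧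
    Good κ' D' (fa κ' d o'.P o'.Q x' y') (fb κ' D' d o'.P o'.Q x' y') n α

/-- The Melnikov function has low degree. -/
def LowrStmt : Prop := ∀ (k L : Type) [Field k] [CharZero k] [Field L] (d : ℕ) (I : Inf k d L)
  (n α : ℕ), 3 ≤ d → Good I.κ I.D I.a I.b n α →
  (∀ m : ℤ, m < -d → ∃ z, (cc I.Xi).coeff m = I.D z) ∧ Low d I.f I.g

def Tor4rStmt : Prop := ∀ (k G : Type) [Field k] [CharZero k] [AddCommGroup G] [Module k G]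
  (d n : ℕ) (B : UM.BM k G n) (f : R2 k) (p : Fin n → Fin 2 → k) (π : R2 k →ₗ[k] G) (ζ c0 : k)
  (S : Module.End k G), 4 ≤ d → TM d f → Cr f p → UM.Pres B f p π → UM.Act B d f π ζ c0 S →
  ∃ c, hom ζ⁻¹ c f = MvPolynomial.C (ζ⁻¹ ^ d) * f + MvPolynomial.C c0

def Tor3rStmt : Prop := ∀ (k G : Type) [Field k] [CharZero k] [IsAlgClosed k] [AddCommGroup G]
  [Module k G] (n : ℕ) (B : UM.BM k G n) (f : R2 k) (p : Fin n → Fin 2 → k) (π : R2 k →ₗ[k] G)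
  (ζ c0 : k) (S : Module.End k G), TM 3 f → Cr f p → UM.Pres B f p π → UM.Act B 3 f π ζ c0 S →
  (∃ c, hom ζ⁻¹ c f = MvPolynomial.C (ζ⁻¹ ^ 3) * f + MvPolynomial.C c0) ∨ ζ ^ 2 = -1 ∧ ExoK f

/-- A deck transformation at infinity comes from a symmetry of `f`. -/
def InvrStmt : Prop := ∀ (k L : Type) [Field k] [CharZero k] [IsAlgClosed k] [Field L] (d : ℕ)
  (I : Inf k d L) (σ : k⟦X⟧) (φ : L⸨X⸩ →+* L⸨X⸩) (η : L⸨X⸩), 3 ≤ d →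
  (∀ m : ℤ, m < -d → ∃ z, (cc I.Xi).coeff m = I.D z) → cc σ = 0 → coeff 1 σ ≠ 0 →
  coeff 1 σ ≠ 1 → (∀ c, φ (coeL L c) = coeL L (sb (map I.κ σ) c)) →
  cwL I.D η = φ (cc I.Xi) - dh d (φ (wL L (-(d : ℤ)))) * cc I.Xi →
  ∃ c0 : k, φ (wL L (-(d : ℤ))) =
      cL L (I.κ ((coeff 1 σ)⁻¹ ^ d)) * wL L (-(d : ℤ)) + cL L (I.κ c0) ∧
    ((∃ c, hom (coeff 1 σ)⁻¹ c I.f =
      MvPolynomial.C ((coeff 1 σ)⁻¹ ^ d) * I.f + MvPolynomial.C c0) ∨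
      d = 3 ∧ coeff 1 σ ^ 2 = -1 ∧ ExoK I.f)

def RunStmt : Prop := ∀ (k L : Type) [Field k] [CharZero k] [IsAlgClosed k] [Field L] (d : ℕ)
  (I : Inf k d L) (n α : ℕ) (ω : k), 3 ≤ d → Good I.κ I.D I.a I.b n α → IsPrimitiveRoot ω n →
  2 ≤ n ∧ Low d I.f I.g ∧ ∃ (ρ B : AA L) (σ : k⟦X⟧) (Φ : AA L →+* TT L) (φ : L⸨X⸩ →+* TT L)
    (c0 : k), Rho I.D I.a I.b ρ B n ∧ OrdIs α ρ ∧ cc σ = 0 ∧ coeff 1 σ = ω ∧
    Dk I.D I.vb (map I.κ σ) ρ Φ φ ∧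
    cc (φ (wL L (-(d : ℤ)))) = cL L (I.κ (ω⁻¹ ^ d)) * wL L (-(d : ℤ)) + cL L (I.κ c0) ∧
    ((∃ c, hom ω⁻¹ c I.f = MvPolynomial.C (ω⁻¹ ^ d) * I.f + MvPolynomial.C c0) ∨
      d = 3 ∧ ω ^ 2 = -1 ∧ ExoK I.f)

/-- Elementary facts on symmetries. -/
def AdmStmt : Prop := ∀ (k : Type) [Field k] [CharZero k] (d : ℕ) (f : R2 k), 3 ≤ d → TM d f →
  (∀ n, 2 ≤ n → SymK d n f → Adm d n) ∧
  (∀ (ζ e : k) (c : Fin 2 → k), ζ ≠ 1 →
    hom ζ c f = MvPolynomial.C (ζ ^ d) * f + MvPolynomial.C e → ∃ p : Fin 2 → k,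
      hom ζ 0 (tr p f - MvPolynomial.C (MvPolynomial.eval p f)) =
        MvPolynomial.C (ζ ^ d) * (tr p f - MvPolynomial.C (MvPolynomial.eval p f))) ∧
  ∀ (ζ e : k) (c : Fin 2 → k), ζ ≠ 0 → hom ζ 0 f = MvPolynomial.C (ζ ^ d) * f →
    hom ζ c f = MvPolynomial.C (ζ ^ d) * f + MvPolynomial.C e → c = 0 ∧ e = 0

def PkStmt : Prop := ∀ (k L : Type) [Field k] [CharZero k] [IsAlgClosed k] [Field L] (d n α : ℕ)
  (R : Rd k d n L) (o : Ob k d), o.f = R.f →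
  Good R.κ R.D (R.a (o.P, o.Q)) (R.b (o.P, o.Q)) n α →
  Mel d R.f (vfS (o.P, o.Q)) ∧ ∃ β ρ B u w1 vb Φ φ, R.Pk (o.P, o.Q) α β ρ B u w1 vb Φ φ

/-! ### Statements: the induction -/

/-- The symmetry of the model, applied to the form. -/
def SymStmt : Prop := ∀ (k : Type) [Field k] [CharZero k] (d a b j : ℕ) (f : R2 k) (ζ : k)
  (w s r : Fm k⟦X⟧) (l0 l1 : k⟦X⟧), 1 ≤ d → 1 ≤ a + b → ζ ^ (a + b) = 1 →
  hom ζ 0 f = MvPolynomial.C (ζ ^ d) * f → Md d a b f j w l0 l1 s r → Mel d f (vfS w) →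
  ∃ (K μ : (R2 k)⟦X⟧) (Y : Fin 2 → (R2 k)⟦X⟧), cc K = MvPolynomial.C ζ⁻¹ ∧
    K ^ (a + b) * (1 + iS k (HC.lf l0 l1)) ^ b = (1 + K * iS k (HC.lf l0 l1)) ^ b ∧ Mel d f Y ∧
    (∀ i, X ^ (j + 1) ∣ Y i - vfS w i -
      X ^ j * C (![(dif d ζ (mapF cc r)).1, (dif d ζ (mapF cc r)).2] i)) ∧
    ∀ i, vS (pd k) (vfS w) (K * C (MvPolynomial.X i)) =
      μ * evS (RingHom.id _) (fun l => K * C (MvPolynomial.X l)) (Y i)

def DictStmt : Prop := ∀ (k L : Type) [Field k] [CharZero k] [Field L] (d n : ℕ) (R : Rd k d n L)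
  (w : Fm k⟦X⟧) (vb : TT L), DF (d + 1) w → red (R.a w) = -((d : L⟦X⟧) * X) →
  iT (R.a w) * vb = iT (R.b w) →
  ∃ ϰ, IsUnit ϰ ∧ ∀ u, VT R.D vb (map R.E u) = ϰ * map R.E (vS (pd k) (vfS w) u)

def F1Stmt : Prop := ∀ (L : Type) [Field L] [CharZero L] (ω : L) (n i : ℕ) (ρ ρ' : AA L)
  (Φ : AA L →+* TT L), 1 ≤ n → IsPrimitiveRoot ω n →
  IsOut 0 Φ ((coeL L).comp (sb (C ω * X))) → Φ ρ = iT ρ → OrdIs n (red ρ) → cc ρ = 0 →
  cc ρ' = 0 → X ^ i ∣ Φ ρ' - iT ρ' → (∃ Ψ γ : AA L, cc Ψ = 0 ∧ ρ' = sb ρ Ψ + C X ^ i * γ) ∧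
    ∀ m ≤ 0, (coeff i (Φ ρ' - iT ρ')).coeff m = 0

def ThetaStmt : Prop := ∀ (k L : Type) [Field k] [CharZero k] [Field L] (d n : ℕ) (R : Rd k d n L)
  (α β : ℕ) (vb : TT L) (ρ : AA L) (Φ : AA L →+* TT L) (φ : L⸨X⸩ →+* TT L) (l0 l1 : k⟦X⟧)
  (K : (R2 k)⟦X⟧), α + β = n → Dk R.D vb (C (R.κ R.ζ⁻¹) * X) ρ Φ φ → cc l0 = 0 → cc l1 = 0 →
  cc K = MvPolynomial.C R.ζ⁻¹ →
  K ^ n * (1 + iS k (HC.lf l0 l1)) ^ β = (1 + K * iS k (HC.lf l0 l1)) ^ β →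
  ∃ θ : TT L, cc θ = 1 ∧
    (∀ i, hat φ (map R.E (K * C (MvPolynomial.X i))) = θ * C (R.E (MvPolynomial.X i))) ∧
    ∀ i, 1 ≤ i → X ^ i ∣ θ - 1 → X ^ i ∣ Φ (R.ρ α β l0 l1) - iT (R.ρ α β l0 l1) ∧
      coeff i (Φ (R.ρ α β l0 l1) - iT (R.ρ α β l0 l1)) = -(n * coeL L R.z ^ n * coeff i θ)

def OrdStmt : Prop := ∀ (k L : Type) [Field k] [CharZero k] [Field L] (d n : ℕ) (R : Rd k d n L),
  R.E R.f = wL L (-(d : ℤ)) ∧ Function.Injective R.E ∧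
  (∀ (S : R2 k) (N : ℕ), (∀ m : ℤ, m < -N → (R.E S).coeff m = 0) ↔ DL (N + 1) S) ∧
  ∀ (A : R2 k) (N : ℕ), A.IsHomogeneous N → evp R.κ R.xb R.yb A = 0 → A = 0

def Ker0Stmt : Prop := ∀ (k : Type) [Field k] [CharZero k] (d : ℕ) (f S : R2 k), 3 ≤ d → TM d f →
  DL (2 * d) S → br S f = 0 →
  (∃ a b : k, S = MvPolynomial.C a + MvPolynomial.C b * f) ∧ (S ∈ Jac f → S = 0)

def KeyStmt : Prop := ∀ (k L : Type) [Field k] [CharZero k] [IsAlgClosed k] [Field L] (d n : ℕ)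
  (R : Rd k d n L) (w s r : Fm k⟦X⟧) (α β j : ℕ) (ρ B u : AA L) (w1 : L⟦X⟧) (vb : TT L)
  (Φ : AA L →+* TT L) (φ : L⸨X⸩ →+* TT L) (l0 l1 : k⟦X⟧), R.Pk w α β ρ B u w1 vb Φ φ →
  Md d α β R.f j w l0 l1 s r → DF (d + 1) w → Mel d R.f (vfS w) →
  (∃ S ∈ Jac R.f, DL (d + n) S ∧
    br S R.f = vf (dif d R.ζ (mapF cc r)).1 (dif d R.ζ (mapF cc r)).2 R.f) ∧
  ∃ Ψ γ : AA L, cc Ψ = 0 ∧ R.ρ α β l0 l1 = sb ρ Ψ + C X ^ j * γ

def Wd1Stmt : Prop := ∀ (k : Type) [Field k] [CharZero k] (d : ℕ) (f S : R2 k) (ζ : k) (r : Fm k),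
  3 ≤ d → TM d f → ζ ≠ 0 → ζ ≠ 1 → DF (d + 1) r → br S f = vf (dif d ζ r).1 (dif d ζ r).2 f →
  ∃ (m0 m1 : k) (A : R2 k), A.IsHomogeneous (d + 1) ∧
    wpt d r = fm (HC.lf m0 m1) (hc d f) + d1 A

def Wd2Stmt : Prop := ∀ (k : Type) [Field k] [CharZero k] (d a b : ℕ) (f S : R2 k) (ζ : k)
  (r : Fm k), 3 ≤ d → TM d f → IsPrimitiveRoot ζ (a + b) → Adm d (a + b) →
  hom ζ 0 f = MvPolynomial.C (ζ ^ d) * f → DF d r → S ∈ Jac f → DL (2 * d) S →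
  br S f = vf (dif d ζ r).1 (dif d ζ r).2 f → ∃ (c0 c1 : k) (s : Fm k), r = mdl d a b 1 s +
    d1 (MvPolynomial.C c0 * MvPolynomial.pderiv 0 f + MvPolynomial.C c1 * MvPolynomial.pderiv 1 f)

/-- The model lies in the family, and the first step. -/
def Mdl0Stmt : Prop :=
  (∀ (A : Type) [CommRing A] (d a b : ℕ) (l0 l1 : A) (s : Fm A), 1 ≤ d →
    HR d a b (mdl d a b (1 + HC.lf l0 l1) s) ∧ DF (d + 1) (mdl d a b (1 + HC.lf l0 l1) s)) ∧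
  ∀ (k : Type) [Field k] [CharZero k] (d a b : ℕ) (f : R2 k) (ζ : k) (w : Fm k⟦X⟧), 1 ≤ d →
    1 ≤ a + b → DL (d + 1) f → IsPrimitiveRoot ζ (a + b) →
    hom ζ 0 f = MvPolynomial.C (ζ ^ d) * f → DF (d + 1) w → mapF cc w = d1 f →
    ∃ s r, Md d a b f 1 w 0 0 s r

/-- Change of the line. -/
def Mdl1Stmt : Prop := ∀ (k : Type) [Field k] [CharZero k] (d a b j : ℕ) (f : R2 k)
  (w s r : Fm k⟦X⟧) (l0 l1 : k⟦X⟧) (m0 m1 : k) (A : R2 k), 1 ≤ d → 1 ≤ a + b →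
  Md d a b f j w l0 l1 s r → A.IsHomogeneous (d + 1) →
  wpt d (mapF cc r) = fm (HC.lf m0 m1) (hc d f) + d1 A →
  ∃ (l0' l1' : k⟦X⟧) (r' : Fm k⟦X⟧) (A' : R2 k), Md d a b f j w l0' l1' s r' ∧
    A'.IsHomogeneous (d + 1) ∧ wpt d (mapF cc r') = d1 A'

/-- Change of the centre and of the symmetric form. -/
def Mdl2Stmt : Prop := ∀ (k : Type) [Field k] [CharZero k] (d a b j : ℕ) (f : R2 k)
  (w s r : Fm k⟦X⟧) (l0 l1 : k⟦X⟧) (c0 c1 : k) (s0 : Fm k), 1 ≤ d →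
  Md d a b f j w l0 l1 s r → DF (d + 1) w → mapF cc w = d1 f → mapF cc r = mdl d a b 1 s0 +
    d1 (MvPolynomial.C c0 * MvPolynomial.pderiv 0 f + MvPolynomial.C c1 * MvPolynomial.pderiv 1 f) →
  ∃ (c : Fin 2 → k⟦X⟧) (s' r' : Fm k⟦X⟧), (∀ i, cc (c i) = 0) ∧
    Md d a b f (j + 1) (trF c w) l0 l1 s' r'

def F2sStmt : Prop := ∀ (L : Type) [Field L] [CharZero L] (u : AA L) (l z0 z1 : L⟦X⟧) (α β j : ℕ),
  1 ≤ α → 1 ≤ β → IsUnit u → cc l = 0 → cc z0 = 0 → cc z1 = 0 → z0 ≠ 0 → z0 ≠ z1 →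
  C X ^ j ∣ X ^ α * (X + C l) ^ β - u * X ^ α * (X - C z1) ^ β →
  X - C z0 ∣ dX _ (u * X ^ α * (X - C z1) ^ β) →
  X ^ j ∣ z1 + l ∧ X ^ (j + 1) ∣ ((α + β : ℕ) : L⟦X⟧) * z0 - (α : L⟦X⟧) * z1

/-- The fold and the invariant curve in the radial coordinate. -/
def F2aStmt : Prop := ∀ (k L : Type) [Field k] [CharZero k] [Field L] (d n : ℕ)
  (R : Rd k d n L) (w : Fm k⟦X⟧) (α β j : ℕ) (ρ B u Ψ γ : AA L) (w1 : L⟦X⟧) (vb : TT L)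
  (Φ : AA L →+* TT L) (φ : L⸨X⸩ →+* TT L) (l0 l1 : k⟦X⟧), R.Pk w α β ρ B u w1 vb Φ φ → 1 ≤ j →
  cc l0 = 0 → cc l1 = 0 → cc Ψ = 0 → R.ρ α β l0 l1 = sb ρ Ψ + C X ^ j * γ →
  ∃ z0 z1 : L⟦X⟧, cc z0 = 0 ∧ cc z1 = 0 ∧ z1 ≠ 0 ∧ X ^ j ∣ z1 + R.l l0 l1 ∧
    X ^ (j + 1) ∣ (n : L⟦X⟧) * z0 - (α : L⟦X⟧) * z1 ∧ aR R.κ d w R.xb R.yb z0 = 0 ∧
    aR R.κ d w R.xb R.yb z1 * cw R.D z1 = z1 * bR R.κ R.D d w R.xb R.yb z1

def F2bStmt : Prop := ∀ (k L : Type) [Field k] [CharZero k] [Field L] (d n : ℕ)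
  (R : Rd k d n L) (w s r : Fm k⟦X⟧) (α β j : ℕ) (l0 l1 : k⟦X⟧) (z0 z1 : L⟦X⟧) (A : R2 k),
  1 ≤ α → α + β = n → Md d α β R.f j w l0 l1 s r → A.IsHomogeneous (d + 1) →
  wpt d (mapF cc r) = d1 A → cc z0 = 0 → cc z1 = 0 → z1 ≠ 0 → X ^ j ∣ z1 + R.l l0 l1 →
  X ^ (j + 1) ∣ (n : L⟦X⟧) * z0 - (α : L⟦X⟧) * z1 → aR R.κ d w R.xb R.yb z0 = 0 →
  aR R.κ d w R.xb R.yb z1 * cw R.D z1 = z1 * bR R.κ R.D d w R.xb R.yb z1 → A = 0

/-- Descent and invariance of the limit condition. -/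
def RrcStmt : Prop := ∀ (A : Type) [CommRing A] (d a b : ℕ) (w : Fm A),
  (∀ s t, DL 2 s → DL 2 t → HR d a b w → HR d a b (pb s t w)) ∧
  (∀ s t, DL 2 s → DL 2 t → RRc d a b w → RRc d a b (pb s t w)) ∧
  (∀ c, RRc d a b (trF c w) → RRc d a b w) ∧
  (∀ c, HR d a b (trF c w) → HR d a b w) ∧
  ∀ (A' : Type) [CommRing A'] (φ : A →+* A'), Function.Injective φ →
    RRc d a b (mapF φ w) → RRc d a b w

def IndStmt : Prop := ∀ (k L : Type) [Field k] [CharZero k] [IsAlgClosed k] [Field L] (d n α : ℕ)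
  (R : Rd k d n L) (o : Ob k d), o.f = R.f →
  Good R.κ R.D (R.a (o.P, o.Q)) (R.b (o.P, o.Q)) n α →
  ∃ β, 1 ≤ α ∧ 1 ≤ β ∧ α + β = n ∧ α.Coprime β ∧ RRc d α β (o.P, o.Q)

/-- A first integral at infinity forces the reversible case. -/
def RigStmt : Prop := ∀ (k : Type) [Field k] [CharZero k] (d : ℕ) (o : Ob k d), 3 ≤ d →
  ¬ NoF d o.f o.P o.Q → Rv d o.f (o.P, o.Q)

/-! ### Statements: from arcs to components -/

def PortStmt : Prop := ∀ (k : Type) [Field k] [CharZero k] [IsAlgClosed k] (d : ℕ) (f : R2 k)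
  (w : Fm k⟦X⟧) (p : Fin 2 → k⸨X⸩), 3 ≤ d → Gen d f → DF (d + 1) w → mapF cc w = d1 f →
  CenK w p → (∀ (Ω : Type) [Field Ω] [CharZero Ω] [IsAlgClosed Ω] (ψ : k⸨X⸩ →+* Ω),
    UM.Fam d (mapF ψ (mapF (coeL k) w))) ∨
    ∃ o : Ob k d, o.f = f ∧ o.P = w.1 ∧ o.Q = w.2 ∧ ¬ NoF d f w.1 w.2

def CorsStmt : Prop := ∀ (k : Type) [Field k] [CharZero k] [IsAlgClosed k] (d : ℕ) (f : R2 k)
  (w : Fm k⟦X⟧) (p : Fin 2 → k⸨X⸩), 3 ≤ d → TM d f → DF (d + 1) w → mapF cc w = d1 f →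
  CenK w p → (∀ (Ω : Type) [Field Ω] [CharZero Ω] [IsAlgClosed Ω] (ψ : k⸨X⸩ →+* Ω),
    UM.Fam d (mapF ψ (mapF (coeL k) w))) ∨ Rv d f w

def VanrStmt : Prop := ∀ (A : Type) [CommRing A] [Algebra ℂ A] (d a b : ℕ) (w : Fm A),
  RRc d a b w → Van (RR d a b) w

/-- Descent of the symmetries to the complex numbers. -/
def SymdStmt : Prop := ∀ (d : ℕ) (f : Poly), 3 ≤ d → TM d f →
  (∀ n, 2 ≤ n → (SymK d n f ↔ Rad d n f)) ∧ (d = 3 → ExoK f → Exo f)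

/-- The enlarged list of families. -/
def Wr (d : ℕ) (f : Poly) : Set (Set Form) := {W | W ∈ UM.Wl d ∨
  ∃ a b, 1 ≤ a ∧ 1 ≤ b ∧ a.Coprime b ∧ Rad d (a + b) f ∧ W = RR d a b}

def MinqStmt : Prop := ∀ (d : ℕ) (f : Poly), 3 ≤ d → TM d f → (d = 3 → ¬ Exo f) →
  ∀ q ∈ (II (Cen d)).minimalPrimes,
    (∀ R : Co, MvPolynomial.rename Sum.inl R ∈ q → Pool.Agent.MP_05b4bd_ag.ev R (dform f) = 0) →
    ∃ W ∈ Wr d f, ∀ R : Co, (∀ ω ∈ W, Pool.Agent.MP_05b4bd_ag.ev R ω = 0) →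
      MvPolynomial.rename Sum.inl R ∈ q

def MemrStmt : Prop := ∀ d a b, 3 ≤ d → 1 ≤ a → 1 ≤ b → RR d a b ⊆ M d

def IrrrStmt : Prop := ∀ d a b, Irred (RR d a b)

def Sep1Stmt : Prop := ∀ d a b, 3 ≤ d → Adm d (a + b) → ∀ W ∈ UM.Wl d, ¬ RR d a b ⊆ zcl W

def Sep2Stmt : Prop := ∀ d a b, 3 ≤ d → 1 ≤ a → 1 ≤ b →
  (¬ L ![d + 1] ⊆ zcl (RR d a b) ∧ ¬ L ![1, d] ⊆ zcl (RR d a b) ∧
    ¬ L ![1, 1, d - 1] ⊆ zcl (RR d a b) ∧ ¬ L ![2, d - 1] ⊆ zcl (RR d a b)) ∧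
  ∀ a' b', 1 ≤ a' → 1 ≤ b' → RR d a' b' ⊆ zcl (RR d a b) → a * b' = a' * b

def Sep3Stmt : Prop := ∀ d a b n, 3 ≤ d → 1 ≤ a → 1 ≤ b → d ≤ 2 * n + 1 →
  ¬ PN d n ⊆ zcl (RR d a b)

end Pool.Agent.MP_05b4bd_ag.RV
end
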