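import Pool.Agent.MP_05b4bd_ag.rr.Bas
import Mathlib.RingTheory.PowerSeries.Ideal
import Mathlib.RingTheory.IntegralClosure.IntegrallyClosed

/-! Radially symmetric Morse polynomials: statements on the quotient at infinity. -/

namespace Pool.Agent.MP_05b4bd_ag.RV

open PowerSeries LaurentSeries HC
open ES hiding Gen Ob Inf

/-- A full system of deck transformations of `ρ`. -/
structure Dks {L ι : Type} [Field L] [Fintype ι] (ρ : AA L) (σ : ι → L⟦X⟧)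
    (Φ : ι → AA L →+* TT L) (i0 : ι) : Prop where
  c0 : cc ρ = 0
  ord : OrdIs (Fintype.card ι) (red ρ)
  s0 : ∀ i, cc (σ i) = 0
  s1 : ∀ i, coeff 1 (σ i) ≠ 0
  inj : Function.Injective fun i => coeff 1 (σ i)
  out : ∀ i, IsOut 0 (Φ i) ((coeL L).comp (sb (σ i)))
  fix : ∀ i, Φ i ρ = iT ρ
  id : Φ i0 = iT

/-- Existence of the system, and Vandermonde arguments. -/
def VandStmt : Prop := ∀ (L : Type) [Field L] [CharZero L] (ρ : AA L),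
  (∀ (n : ℕ) (hn : 0 < n) (ω : L), IsPrimitiveRoot ω n → cc ρ = 0 → OrdIs n (red ρ) →
    ∃ (σ : Fin n → L⟦X⟧) (Φ : Fin n → AA L →+* TT L), Dks ρ σ Φ ⟨0, hn⟩ ∧
      ∀ i, coeff 1 (σ i) = ω ^ (i : ℕ)) ∧
  ∀ (ι : Type) [Fintype ι] (σ : ι → L⟦X⟧) (Φ : ι → AA L →+* TT L) (i0 : ι), Dks ρ σ Φ i0 →
    (∀ c, ∃ G : Fin (Fintype.card ι) → AA L, c = ∑ j, sb ρ (G j) * X ^ (j : ℕ)) ∧
    (∀ i G, Φ i (sb ρ G) = iT (sb ρ G)) ∧ (∀ i, Function.Injective (Φ i)) ∧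
    (Function.Injective fun i => Φ i X) ∧ (∀ i, cc (Φ i X) = coeL L (σ i)) ∧
    (∀ c, (∀ i, Φ i c = iT c) → ∃ G, c = sb ρ G) ∧
    ∀ c e, 2 ≤ Fintype.card ι → OrdIs 1 (red e) → (∀ i, Φ i c * iT e = iT c * Φ i e) →
      ∃ B, c = e * sb ρ B

/-- The norm over the subring fixed by the maps that fix a set. -/
def NormStmt : Prop := ∀ (B A Ω ι : Type) [CommRing B] [CommRing A] [IsDomain A]
  [IsIntegrallyClosed A] [CommRing Ω] [IsDomain Ω] [Fintype ι] (g : B →+* A) (w : A)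
  (φ : ι → A →+* Ω) (i0 : ι) (T : Set A) (Γ : Finset ι),
  (∀ c, ∃ G : Fin (Fintype.card ι) → B, c = ∑ j, g (G j) * w ^ (j : ℕ)) →
  (∀ i b, φ i (g b) = φ i0 (g b)) → (∀ i, Function.Injective (φ i)) →
  (Function.Injective fun i => φ i w) → (∀ i, i ∈ Γ ↔ ∀ c ∈ T, φ i c = φ i0 c) →
  ∃ q, φ i0 (w * q) = ∏ i ∈ Γ, φ i w ∧ ∀ i ∈ Γ, φ i (w * q) = φ i0 (w * q)

/-- The form descends to the quotient by deck transformations that preserve it. -/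
def QuoStmt : Prop := ∀ (L ι : Type) [Field L] [CharZero L] [Fintype ι] (D : L →+ L)
  (a b ρ : AA L) (vb : TT L) (d : ℕ) (σ : ι → L⟦X⟧) (Φ : ι → AA L →+* TT L) (i0 : ι), IsDer D →
  1 ≤ d → red a = -((d : L⟦X⟧) * X) → red b = 0 → ¬ a ∣ X * b → iT a * vb = iT b →
  Dks ρ σ Φ i0 → 2 ≤ Fintype.card ι → cw D (red ρ) = 0 →
  (∀ i, ∃ φ : L⸨X⸩ →+* TT L, (∀ c, hat φ (iT c) = Φ i c) ∧
    ∀ z, VT D vb (hat φ z) = hat φ (VT D vb z)) → ∃ B, Rho D a b ρ B (Fintype.card ι)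

/-- The equation on the quotient has a first integral over one extension. -/
def SolveStmt : Prop := ∀ (L : Type) [Field L] [CharZero L] (D : L →+ L), IsDer D →
  ∃ (U : Type) (_ : Field U) (D1 : U →+ U) (i : L →+* U), DExt D D1 i ∧
    ∀ (a b ρ B : AA L) (n : ℕ), Rho D a b ρ B n → ∃ Ψ : AA U, cc Ψ = 0 ∧ red Ψ = X ∧
      FIe (cw D1) (mA i a) (X * mA i b) (sb (mA i ρ) Ψ)

def DescStmt : Prop := ∀ (L U : Type) [Field L] [Field U] (i : L →+* U) (ρ c e : AA L) (G : AA U),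
  cc ρ = 0 → mA i c = mA i e * sb (mA i ρ) G →
  ∃ G0, c = e * sb ρ G0 ∧ (cc G = 0 → cc G0 = 0) ∧ (C X ∣ G → C X ∣ G0)

/-- All deck transformations of a least first integral fix all first integrals. -/
def NprStmt : Prop := ∀ (U : Type) [Field U] [CharZero U] (D : U →+ U) (a b r : AA U) (d n : ℕ)
  (ω : U), IsDer D → 1 ≤ d → red a = -((d : U⟦X⟧) * X) → red b = 0 → ¬ a ∣ X * b →
  (∀ m < n, ¬ HasFI D a b m) → cc r = 0 → FIe (cw D) a (X * b) r → OrdIs n (red r) →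
  IsPrimitiveRoot ω n → 2 ≤ n ∧ (∀ r', FIe (cw D) a (X * b) r' → ∃ G, r' = sb r G) ∧
    ∃ (σ : Fin n → U⟦X⟧) (Φ : Fin n → AA U →+* TT U) (i0 : Fin n) (ρ u B : AA U), Dks r σ Φ i0 ∧
      (∀ i, coeff 1 (σ i) = ω ^ (i : ℕ)) ∧ iT ρ = ∏ i, Φ i X ∧ IsUnit u ∧ ρ = u * r ∧
      Rho D a b ρ B n

/-- An invariant ideal on the quotient is a power of the coordinate. -/
def IdealStmt : Prop := ∀ (L : Type) [Field L] [CharZero L] (D : L →+ L) (η : L →+* L)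
  (ρ μ B Ψ : AA L) (m : ℕ), IsDer D → cc ρ = 0 → OrdIs m (red μ) → C X ∣ B → cc B = 0 →
  cc Ψ = 0 → co2 0 1 Ψ ≠ 0 → (∀ e, 1 ≤ e → e ≤ m → co2 0 1 Ψ ^ e ≠ 1) →
  (∀ c, D c = 0 → η c = c) → (∀ G, μ ∣ sb ρ G → μ ∣ sb ρ (cw (cw D) G + B * dX _ G)) →
  (∀ G, μ ∣ sb ρ G → μ ∣ sb ρ (sb Ψ (mA η G))) → ∃ e, μ ∣ ρ ^ e

/-- A function with one fold has two branches. -/
def FacStmt : Prop := ∀ (L : Type) [Field L] [CharZero L] (ρ a μ : AA L) (n α e : ℕ), cc ρ = 0 →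
  OrdIs n (red ρ) → OrdIs α ρ → OrdIs 1 (red a) → cc a ≠ 0 → dX _ ρ = a * μ → μ ∣ ρ ^ e →
  ∃ (β : ℕ) (u : AA L) (w : L⟦X⟧), α + β = n ∧ 1 ≤ α ∧ 1 ≤ β ∧ IsUnit u ∧ cc w = 0 ∧ w ≠ 0 ∧
    ρ = u * X ^ α * (X - C w) ^ β

def CoprStmt : Prop := ∀ (L : Type) [Field L] [CharZero L] (D : L →+ L) (a b ρ B u : AA L)
  (w : L⟦X⟧) (d n α β : ℕ), IsDer D → 1 ≤ d → red a = -((d : L⟦X⟧) * X) → red b = 0 →
  (∀ m < n, ¬ HasFI D a b m) → Rho D a b ρ B n → α + β = n → 1 ≤ α → IsUnit u → cc w = 0 →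
  ρ = u * X ^ α * (X - C w) ^ β → α.Coprime β

theorem ufdA (L : Type) [Field L] : UniqueFactorizationMonoid (AA L) := inferInstance

theorem icA (L : Type) [Field L] : IsIntegrallyClosed (AA L) := inferInstance

end Pool.Agent.MP_05b4bd_ag.RV
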