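import Pool.Agent.MP_05b4bd_ag.rr.Bas

/-! Radially symmetric Morse polynomials: statements on the passage near a critical point. -/

namespace Pool.Agent.MP_05b4bd_ag.RV

open PowerSeries LaurentSeries HC
open ES hiding Gen Ob Inf
open ES.U (TM Cr hom)

noncomputable section

section Neck
variable {k : Type} [Field k]

/-- The two derivatives of `k[[u]][[v]]`. -/
def dA (k : Type) [Field k] : Fin 2 → AA k →+ AA k := ![cw (dX k), dX k⟦X⟧]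

/-- The two variables `u`, `v`. -/
def vr (k : Type) [Field k] : Fin 2 → AA k := ![C X, X]

/-- Series in `u v`. -/
def dg (k : Type) [Field k] : k⟦X⟧ →+* AA k := ES.ev CC (C X * X)

/-- The operator `u d/du - v d/dv`. -/
def Lh (y : AA k) : AA k := C X * cw (dX k) y - X * dX k⟦X⟧ y

/-- The Jacobian of `u`, `v`. -/
def jM (d : Fin 2 → AA k →+ AA k) : AA k := d 0 (C X) * d 1 X - d 1 (C X) * d 0 X

/-- A formal Morse chart at the point `p`. -/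
structure Mc (f : R2 k) (p : Fin 2 → k) (e : R2 k →+* AA k) (d : Fin 2 → AA k →+ AA k) : Prop where
  two : D2 e d
  con : ∀ c, e (MvPolynomial.C c) = CC c
  val : ∀ g, c00 (e g) = MvPolynomial.eval p g
  nf : e (f - MvPolynomial.C (MvPolynomial.eval p f)) = C X * X
  ch1 : ∀ i y, dA k i y =
    dA k i (e (MvPolynomial.X 0)) * d 0 y + dA k i (e (MvPolynomial.X 1)) * d 1 y
  ch2 : ∀ i y, d i y = d i (C X) * dA k 0 y + d i X * dA k 1 y
  unit : IsUnit (jM d)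

/-- The components of a field in the chart. -/
def fA (e : R2 k →+* AA k) (d : Fin 2 → AA k →+ AA k) (A : Fin 2 → (R2 k)⟦X⟧) :
    Fin 2 → (AA k)⟦X⟧ := fun i => vS d (fun l => map e (A l)) (C (vr k i))

/-- Substitution of the product of the displaced variables. -/
def zv (δ : Fin 2 → (AA k)⟦X⟧) : AA k →+* (AA k)⟦X⟧ :=
  ev2 ((C : AA k →+* (AA k)⟦X⟧).comp CC) ((C (C X) + δ 0) * (C X + δ 1)) X

/-- The normal form modulo `t ^ n`. -/
structure Nfa (n : ℕ) (A δ : Fin 2 → (AA k)⟦X⟧) (lam : (AA k)⟦X⟧) (z : AA k) : Prop where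
  d0 : ∀ i, cc (δ i) = 0
  unit : IsUnit lam
  z0 : cc z = 0
  ea : X ^ n ∣ vS (dA k) A (C (C X) + δ 0) - lam * (C (C X) + δ 0)
  eb : X ^ n ∣ vS (dA k) A (C X + δ 1) - lam * (C X + δ 1) * (zv δ z - 1)

/-- The normal form. -/
structure Nf (A δ : Fin 2 → (AA k)⟦X⟧) (lam : (AA k)⟦X⟧) (z : AA k) : Prop where
  d0 : ∀ i, cc (δ i) = 0
  unit : IsUnit lam
  z0 : cc z = 0
  ea : vS (dA k) A (C (C X) + δ 0) = lam * (C (C X) + δ 0)
  eb : vS (dA k) A (C X + δ 1) = lam * (C X + δ 1) * (zv δ z - 1)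

/-- The neighbourhood of the branch number `i` of `u v = 0`. -/
structure En (i : Fin 2) (j : AA k →+* TT k) (dT : Fin 2 → TT k →+ TT k) : Prop where
  cm : Cm dT
  nat : ∀ l y, dT l (j y) = j (dA k l y)
  con : ∀ c, j (CC c) = C (cL k c)
  pi : j (C X * X) = X
  var : j (vr k i) = C (wL k 1)
  th0 : ∀ y, j (vr k i.rev) * dT i.rev y = thP _ y
  th1 : ∀ y, j (vr k i) * dT i y = cw (thL k) y + thP _ y
  res : ∀ y, (cc (j y)).coeff 0 = c00 y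

/-- The normal field along a branch. -/
def Vn (w z : AA k) (y : AA k⸨X⸩) : AA k⸨X⸩ :=
  mA (cL k) w * cw (cw (thL k)) y + mA (cL k) z * cw (thP _) y

/-- The speed along the branch. -/
def wv (i : Fin 2) (z : AA k) : AA k := ![1, z - 1] i

/-- Two normal fields are equivalent along a branch, with first displacement `s`. -/
def Rel (m : ℕ) (s : k) (z w z' w' : AA k) : Prop :=
  ∃ (Φ : AA k →+* AA k⸨X⸩) (U S μ : AA k⸨X⸩), (∀ c, Φ (CC c) = CC (cL k c)) ∧ Φ X = X ∧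
    X ^ (m + 1) ∣ Φ (C X) - C X - X ^ m * S ∧ (c00 S).coeff 0 = s ∧ cc U = 1 ∧
    Vn w' z' (Φ (C X)) = μ * Φ z * Φ (C X) ∧ mA (cL k) w' * U + Vn w' z' U = μ * Φ w * U

/-- The disc of radius `t ^ (m + 1 / 2)` around `-s t ^ m`. -/
def sg {R : Type} [CommRing R] (m : ℕ) (s : R) : AA R →+* TT R :=
  ev2 ((C : R⸨X⸩ →+* TT R).comp (cL R)) (X ^ (2 * m) * (C (cL R (-s)) + X * C (wL R 1))) (X ^ 2)

end Neck

end

def McStmt : Prop := ∀ (k : Type) [Field k] [CharZero k] [IsAlgClosed k] (f : R2 k)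
  (p : Fin 2 → k), (∀ i, MvPolynomial.eval p (MvPolynomial.pderiv i f) = 0) →
  MvPolynomial.eval p (br (MvPolynomial.pderiv 0 f) (MvPolynomial.pderiv 1 f)) ≠ 0 →
  ∃ e d, Mc f p e d

/-- The homological equations. -/
def HomStmt : Prop := ∀ (k : Type) [Field k] [CharZero k],
  (∀ g : AA k, (∃ y, Lh y = g) ↔ ∀ n, co2 n n g = 0) ∧
  (∀ a : AA k, ∃ ε l, Lh ε - ε - dg k l * C X = a) ∧
  ∀ b : AA k, ∃ ε l, Lh ε + ε + dg k l * X = b

def NfStmt : Prop := ∀ (k : Type) [Field k] [CharZero k] (n : ℕ) (A δ : Fin 2 → (AA k)⟦X⟧)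
  (lam : (AA k)⟦X⟧) (z : AA k), Nfa (n + 1) A δ lam z →
  ∃ δ' lam' z', Nf A δ' lam' z' ∧ ∀ i, X ^ (n + 1) ∣ δ' i - δ i

/-- A function of low type is not a local bracket. -/
def PerStmt : Prop := ∀ (k : Type) [Field k] [CharZero k] (d : ℕ) (f g : R2 k) (p : Fin 2 → k)
  (e : R2 k →+* AA k) (dd : Fin 2 → AA k →+ AA k), 3 ≤ d → TM d f → Mc f p e dd → Low d f g →
  (∀ y, D0 e dd f y = jM dd * Lh y) ∧ ∀ y, e g ≠ D0 e dd f y

def NzzStmt : Prop := ∀ (k : Type) [Field k] [CharZero k] (d : ℕ) (f : R2 k) (p : Fin 2 → k)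
  (e : R2 k →+* AA k) (dd : Fin 2 → AA k →+ AA k) (A : Fin 2 → (R2 k)⟦X⟧)
  (δ : Fin 2 → (AA k)⟦X⟧) (lam : (AA k)⟦X⟧) (z : AA k), 3 ≤ d → TM d f → Mc f p e dd →
  Mel d f A → Nf (fA e dd A) δ lam z → z ≠ 0

def EnStmt : Prop := ∀ (k : Type) [Field k] (i : Fin 2), ∃ j dT, En (k := k) i j dT

/-- The coordinates of the plane along a branch. -/
def EnxStmt : Prop := ∀ (k : Type) [Field k] [CharZero k] [IsAlgClosed k] (f : R2 k)
  (p : Fin 2 → k) (e : R2 k →+* AA k) (d : Fin 2 → AA k →+ AA k) (i : Fin 2) (j : AA k →+* TT k)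
  (dT : Fin 2 → TT k →+ TT k), Mc f p e d → En i j dT →
  Prime (f - MvPolynomial.C (MvPolynomial.eval p f)) →
  (∀ v, ¬ f - MvPolynomial.C (MvPolynomial.eval p f) ∣ v → IsUnit (j (e v))) ∧
  ∃ d', D2 (j.comp e) d' ∧ ∀ A y,
    vS d' (fun l => map (j.comp e) (A l)) y = vS dT (fun l => map j (fA e d A l)) y

/-- Transport of an equivalence from the local ring of a fibre. -/
def TrpStmt : Prop := ∀ (k T : Type) [Field k] [CommRing T] (e : R2 k →+* T)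
  (d : Fin 2 → T →+ T) (dF : Fin 2 → FF k →+ FF k) (f S : R2 k) (c : k)
  (A B : Fin 2 → (R2 k)⟦X⟧) (m : ℕ) (ξ : Fin 2 → (FF k)⟦X⟧) (μ : (FF k)⟦X⟧), D2 e d →
  D2 (eF k) dF → Prime (f - MvPolynomial.C c) →
  (∀ v, ¬ f - MvPolynomial.C c ∣ v → IsUnit (e v)) → (∀ i n, InO f c (coeff n (ξ i))) →
  (∀ n, InO f c (coeff n μ)) → 1 ≤ m → Eqv (eF k) dF A B m ξ μ →
  coeff m (evS (eF k) ξ (C f)) = eF k S →
  ∃ ξ' μ', Eqv e d A B m ξ' μ' ∧ coeff m (evS e ξ' (C f)) = e S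

/-- An equivalence as an automorphism. -/
def ConjStmt : Prop := ∀ (k T : Type) [Field k] [CharZero k] [CommRing T] (e : R2 k →+* T)
  (d : Fin 2 → T →+ T) (f : R2 k) (A B : Fin 2 → (R2 k)⟦X⟧) (m : ℕ) (ξ : Fin 2 → T⟦X⟧) (μ : T⟦X⟧),
  D2 e d → 1 ≤ m → Eqv e d A B m ξ μ → ∃ ψ : T⟦X⟧ →+* T⟦X⟧, ψ X = X ∧
    (∀ c, ψ (C (e (MvPolynomial.C c))) = C (e (MvPolynomial.C c))) ∧ (∀ y, X ^ m ∣ ψ y - y) ∧
    ψ (C (e f)) = evS e ξ (C f) ∧
    ∀ y, vS d (fun l => map e (B l)) (ψ y) = μ * ψ (vS d (fun l => map e (A l)) y)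

def RelStmt : Prop := ∀ (k : Type) [Field k] [CharZero k] (i : Fin 2) (j : AA k →+* TT k)
  (dT : Fin 2 → TT k →+ TT k) (A B δ δ' : Fin 2 → (AA k)⟦X⟧) (lam lam' : (AA k)⟦X⟧)
  (z z' s : AA k) (m : ℕ) (ψ : (TT k)⟦X⟧ →+* (TT k)⟦X⟧) (μ : (TT k)⟦X⟧), En i j dT → 1 ≤ m →
  Nf A δ lam z → Nf B δ' lam' z' → (∀ l, X ^ m ∣ δ' l - δ l) → ψ X = X →
  (∀ c, ψ (C (C (cL k c))) = C (C (cL k c))) → (∀ y, X ^ m ∣ ψ y - y) →
  X ^ (m + 1) ∣ ψ (C X) - C X - X ^ m * C (j s) →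
  (∀ y, vS dT (fun l => map j (B l)) (ψ y) = μ * ψ (vS dT (fun l => map j (A l)) y)) →
  Rel m (c00 s) z (wv i z) z' (wv i z')

/-- The passage times agree up to an exact form on the disc. -/
def ResxStmt : Prop := ∀ (k : Type) [Field k] [CharZero k] (m N : ℕ) (s : k) (z w z' w' : AA k)
  (a β : TT k), 1 ≤ m → cc z = 0 → c00 w' ≠ 0 → Rel m s z w z' w' →
  sg m 0 (z * C X) = X ^ N * a → IsUnit a → a * β = sg m 0 w →
  ∃ G : TT k, sg m s (z' * C X) * (X ^ (2 * m + 1) * β + cw (dL k) G) =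
    X ^ (N + (2 * m + 1)) * sg m s w'

def ResnStmt : Prop := ∀ (k : Type) [Field k] [CharZero k] (m : ℕ) (s : k) (z z' : AA k), 1 ≤ m →
  cc z = 0 → cc z' = 0 → z ≠ 0 → (∀ i, Rel m s z (wv i z) z' (wv i z')) → s = 0

end Pool.Agent.MP_05b4bd_ag.RV
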