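import Pool.Agent.MP_05b4bd_ag.rr.Bas
import Mathlib.RingTheory.Nullstellensatz
import Mathlib.RingTheory.RootsOfUnity.Complex
import Mathlib.Analysis.Complex.Polynomial.Basic

/-! Descent of the symmetries from an extension field to the complex numbers. -/

namespace Pool.Agent.MP_05b4bd_ag.RV

open MvPolynomial HC
open ES.U (TM Cr hom)

namespace Symd

variable {K : Type} [Field K]

/-- A point over an extension field specialises to a complex point. -/
theorem nul {σ : Type} [Finite σ] (j : ℂ →+* K) (x : σ → K) : ∃ y : σ → ℂ,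
    ∀ G G' : R2 (MvPolynomial σ ℂ), map (eval₂Hom j x) G = map (eval₂Hom j x) G' →
      map (eval y) G = map (eval y) G' := by
  obtain ⟨M, hM, hle⟩ := Ideal.exists_le_maximal (RingHom.ker (eval₂Hom j x)) (RingHom.ker_ne_top _)
  obtain ⟨y, rfl⟩ := isMaximal_iff_eq_vanishingIdeal_singleton.1 hM
  refine ⟨y, fun G G' h => ?_⟩
  ext m
  have h1 := congrArg (coeff m) h
  rw [coeff_map, coeff_map, ← sub_eq_zero, ← map_sub] at h1
  have h2 := (mem_vanishingIdeal_singleton_iff y _).1 (hle h1)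
  rw [coeff_map, coeff_map, ← sub_eq_zero, ← map_sub]
  exact h2

theorem map_ae {A B : Type} [CommRing A] [CommRing B] (φ : A →+* B) (g : Fin 2 → R2 A) (u : R2 A) :
    map φ (aeval g u) = aeval (fun i => map φ (g i)) (map φ u) := by
  rw [aeval_eq_bind₁, aeval_eq_bind₁, map_bind₁]

theorem mc1 {σ : Type} (j : ℂ →+* K) (x : σ → K) (f : Poly) :
    map (eval₂Hom j x) (map (C : ℂ →+* MvPolynomial σ ℂ) f) = map j f := by
  rw [map_map]
  congr 2
  ext z
  simp

theorem mc2 {σ : Type} (y : σ → ℂ) (f : Poly) :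
    map (eval y) (map (C : ℂ →+* MvPolynomial σ ℂ) f) = f := by
  rw [map_map]
  have : (eval y).comp (C : ℂ →+* MvPolynomial σ ℂ) = RingHom.id ℂ := by
    ext z
    simp
  rw [this, map_id]

theorem root (j : ℂ →+* K) {n : ℕ} (hn : n ≠ 0) {ζ : K} (h : IsPrimitiveRoot ζ n) :
    ∃ z : ℂ, IsPrimitiveRoot z n ∧ ζ = j z := by
  have : NeZero n := ⟨hn⟩
  have h1 := (Complex.isPrimitiveRoot_exp n hn).map_of_injective j.injective
  obtain ⟨i, -, hi⟩ := h1.eq_pow_of_pow_eq_one h.pow_eq_one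
  rw [← map_pow] at hi
  exact ⟨_, IsPrimitiveRoot.of_map_of_injective (hi ▸ h) j.injective, hi.symm⟩

theorem rad {d n : ℕ} {f : Poly} (hn : n ≠ 0) (h : SymK d n f) : Rad d n f := by
  obtain ⟨K, _, j, ζ, e, c, hζ, h⟩ := h
  obtain ⟨z, hz, rfl⟩ := root j hn hζ
  obtain ⟨y, hy⟩ := nul j (fun o : Option (Fin 2) => o.elim e c)
  refine ⟨z, y none, fun i => y (some i), hz, ?_⟩
  have h1 := hy (aeval (fun i => C (C z) * X i + C (X (some i))) (map C f))
    (C (C (z ^ d)) * map C f + C (X none)) (by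
      rw [map_ae, map_add, map_mul, mc1]
      simpa [hom] using h)
  rw [map_ae, map_add, map_mul, mc2] at h1
  simpa using h1

theorem lin {u : R2 K} (hu : DL 2 u) : ∃ p a b : K, u = C p + C a * X 0 + C b * X 1 :=
  ⟨_, _, _, by rw [add_assoc]; exact PC3.DL2_eq hu⟩

theorem deg (p a b : ℂ) : (C p + C a * X 0 + C b * X 1 : Poly).totalDegree ≤ 1 :=
  dg_add (dg_add (dg_C _ _) (dg_Cmul _ (dg_X 0))) (dg_Cmul _ (dg_X 1))

theorem exo {f : Poly} (h : ExoK f) : Exo f := by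
  obtain ⟨K, _, j, a, e, u, v, hu, hv, h⟩ := h
  obtain ⟨u0, u1, u2, rfl⟩ := lin hu
  obtain ⟨v0, v1, v2, rfl⟩ := lin hv
  obtain ⟨y, hy⟩ := nul j ![a, e, u0, u1, u2, v0, v1, v2]
  refine ⟨y 0, y 1, _, _, deg (y 2) (y 3) (y 4), deg (y 5) (y 6) (y 7), ?_⟩
  have h1 := hy (map C f) (C (X 0) * ((C (X 2) + C (X 3) * X 0 + C (X 4) * X 1) ^ 3 +
    (C (X 2) + C (X 3) * X 0 + C (X 4) * X 1) * (C (X 5) + C (X 6) * X 0 + C (X 7) * X 1) ^ 2 +
    (C (X 5) + C (X 6) * X 0 + C (X 7) * X 1)) + C (X 1)) (by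
      rw [mc1, h]
      simp only [map_add, map_mul, map_pow, map_C, map_X, coe_eval₂Hom, eval₂_X]
      rfl)
  rw [mc2] at h1
  simpa only [map_add, map_mul, map_pow, map_C, map_X, eval_X] using h1

end Symd

theorem symdS : SymdStmt := by
  intro d f _ _
  refine ⟨fun n hn => ⟨Symd.rad (by omega), ?_⟩, fun _ => Symd.exo⟩
  rintro ⟨ζ, e, c, hζ, h⟩
  exact ⟨ℂ, inferInstance, RingHom.id ℂ, ζ, e, c, hζ, by rw [map_id]; exact h⟩

end Pool.Agent.MP_05b4bd_ag.RV
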