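import Pool.Agent.MP_05b4bd_ag.rr.Bas

/-! The structures and block statements of the chain when there is no first integral at infinity. -/

section
namespace Pool.Agent.MP_05b4bd_ag.ES.V

open PowerSeries LaurentSeries HC

noncomputable section

export Pool.Agent.MP_05b4bd_ag.ES.U (Cr hom TM)
export Pool.Agent.MP_05b4bd_ag.RV (Gen NoF NoFI)

/-- A deformation of `df` with a non-zero higher Melnikov function. -/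
structure Ob (k : Type) [Field k] [CharZero k] (d : ℕ) where
  P : R2 k⟦X⟧
  Q : R2 k⟦X⟧
  H : R2 k⟦X⟧
  gt : R2 k⟦X⟧
  f : R2 k
  n : ℕ
  gen : Gen d f
  dP : DL (d + 1) P
  dQ : DL (d + 1) Q
  rP : MvPolynomial.map cc P = MvPolynomial.pderiv 1 f
  rQ : MvPolynomial.map cc Q = -MvPolynomial.pderiv 0 f
  rH : MvPolynomial.map cc H = f
  n1 : 1 ≤ n
  eq : vf P Q H = MvPolynomial.C (X ^ n) * gt
  ng : ∀ u, MvPolynomial.map cc gt ≠ br u f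
  jac : MvPolynomial.map cc gt ∈ Jac f
  nf : NoF d f P Q

/-- The data at infinity over the function field of `F = 1`: the form is `a dW + W b ds`. -/
structure Inf (k : Type) [Field k] [CharZero k] (d : ℕ) (L : Type) [Field L] where
  κ : k →+* L
  D : L →+ L
  f : R2 k
  g : R2 k
  x0 : L⟦X⟧
  y0 : L⟦X⟧
  a : AA L
  b : AA L
  vb : TT L
  h : TT L
  Xi : TT L
  n : ℕ
  gen : Gen d f
  ng : ∀ u, g ≠ br u f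
  jac : g ∈ Jac f
  cv : Curve κ D (hc d f) (cc x0) (cc y0)
  gb : gf κ (cc x0) (cc y0) = ⊤
  fr : EL κ x0 y0 f = wL L (-(d : ℤ))
  ra : red a = -((d : L⟦X⟧) * X)
  rb : red b = 0
  hv : iT a * vb = iT b
  n1 : 1 ≤ n
  rh : cc h = wL L (-(d : ℤ))
  hV : VT D vb h = X ^ n * Xi
  rX : cc Xi = GLc κ d D x0 y0 g
  nfi : NoFI D a b

/-- The form `a dW + W b ds` over `U` comes from data at infinity. -/
def Obs (k : Type) [Field k] [CharZero k] (d : ℕ) {U : Type} [Field U] (κ : k →+* U) (D : U →+ U)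
    (x y : U) (a b : AA U) : Prop :=
  IsDer D ∧ ∃ (L : Type) (_ : Field L) (I : Inf k d L) (ι : L →+* U) (θ : U), θ ≠ 0 ∧
    (∀ c, D (ι c) = θ * ι (I.D c)) ∧ (∀ c, ι (I.κ c) = κ c) ∧ ι (cc I.x0) = x ∧ ι (cc I.y0) = y ∧
    a = mA ι I.a ∧ b = CC θ * mA ι I.b

/-- Chart at a point at infinity of `f = 0`: `x = 1 / z`, `y = u / z`, `U = z ^ d f + c (z)`. -/
structure PD (k : Type) [Field k] [CharZero k] (d : ℕ) extends Ob k d where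
  u : AA k⟦X⟧
  b : AA k⟦X⟧
  e : AA k⟦X⟧
  c : AA k
  Us : k⟦X⟧
  zs : k⟦X⟧
  tc : C X ∣ c
  eu : hev (CC.comp C) d f 1 u X + map C c = C X
  su : evp (RingHom.id k) 1 (cc (c00 u)) (MvPolynomial.pderiv 1 (hc d f)) ≠ 0
  eb : hev CC d P 1 u X * cw (dX k⟦X⟧) u = X - b
  ee : hev CC d P 1 u X * (X * dX _ u - u) + hev CC d Q 1 u X = fB d e
  tb : CC X ∣ b
  te : CC X ∣ e
  ne : ∀ j, 1 ≤ j → j ≤ d → co2 0 j e = 0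
  U0 : cc Us = 0
  z0 : cc zs = 0
  zn : zs ≠ 0
  cen : CenN (coeL k) (X * (X - b)) (fB d e) Us zs

/-- `a dW + W b ds` is the form of the chart, read on the annulus `v = q ^ N`. -/
def ABrel {k : Type} [Field k] [CharZero k] {d : ℕ} (o : PD k d) (ε N : ℕ) (a b : (AA k)⟦X⟧) : Prop :=
  C (X ^ (N * (d + 1))) * a = thA k ε N d (fB d o.e) ∧
    C (X ^ (N * (d + 1))) * b =
      (N : (AA k)⟦X⟧) * thA k ε N d ((d : AA k⟦X⟧) * C X * (X - o.b) + fB d o.e) ∧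
    C (tA k ε) ∣ a + (d : (AA k)⟦X⟧) * X ∧ C (tA k ε) ∣ b ∧ (∀ j, SS ε N (coeff j a)) ∧ (∀ j, SS ε N (coeff j b)) ∧
    Supp ε (-N) (d * N) (cc a) ∧ Supp ε (-N) (d * N) (cc b)

/-- The large case: the form on the disc (`ε = 0`) or annulus (`ε = 1`) that contains the centre. -/
structure BD {k : Type} [Field k] [CharZero k] (d ε N e : ℕ) (a b : (AA k)⟦X⟧) (a0 b0 : AA k)
    (y : k⸨X⸩) (n : ℕ) (ps qs W : k⟦X⟧) : Prop where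
  e1 : ε ≤ 1
  N1 : 1 ≤ N
  ee : 1 ≤ e
  obs : Obs k d (cL k) (thL k) (wL k (-(N : ℤ))) y (map (out ε) a) (map (out ε) b)
  ta : C (tA k ε) ∣ a + (d : (AA k)⟦X⟧) * X
  tb : C (tA k ε) ∣ b
  sa : ∀ j, SS ε N (coeff j a)
  sb : ∀ j, SS ε N (coeff j b)
  ha : cc a = tA k ε ^ e * a0
  hb : cc b = tA k ε ^ e * b0
  pa : Supp ε (-N) (d * N) a0
  pb : Supp ε (-N) (d * N) b0
  outer : red a0 ≠ 0 ∨ red b0 ≠ 0
  inner : ε = 1 → cc a0 ≠ 0 ∨ cc b0 ≠ 0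
  n1 : 1 ≤ n
  p0 : cc ps = 0
  q0 : cc qs = 0
  qn : qs ≠ 0
  pq : ps * qs ^ ε = X ^ n
  W0 : cc W = 0
  cen : CenN (coeL k) (X * map (psi0 ε ps qs) b) (map (psi0 ε ps qs) a) 0 W

end

end Pool.Agent.MP_05b4bd_ag.ES.V
end
section
namespace Pool.Agent.MP_05b4bd_ag.ES.V

open PowerSeries LaurentSeries HC

def GenTopStmt : Prop := ∀ (k : Type) [Field k] [CharZero k] (d : ℕ) (f : R2 k), 2 ≤ d → Gen d f →
  True ∧ CI (MvPolynomial.pderiv 0 (hc d f)) (MvPolynomial.pderiv 1 (hc d f)) ∧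
  HC.co d 0 (hc d f) ≠ 0 ∧ HC.co 0 d (hc d f) ≠ 0 ∧
  ∀ (k' : Type) [Field k'] [CharZero k'] (j : k →+* k'), Gen d (MvPolynomial.map j f)

def GenJacStmt : Prop := ∀ (k : Type) [Field k] [CharZero k] [IsAlgClosed k] (d : ℕ) (f : R2 k),
  3 ≤ d → Gen d f → ∃ s : Finset (Fin 2 → k), s.Nonempty ∧
    (∀ p, p ∈ s ↔ ∀ i, MvPolynomial.eval p (MvPolynomial.pderiv i f) = 0) ∧
    (∀ p ∈ s, ∀ q ∈ s, MvPolynomial.eval p f = MvPolynomial.eval q f → p = q) ∧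
    (∀ u, (∀ p ∈ s, MvPolynomial.eval p u = 0) → u ∈ Jac f) ∧
    ∀ p ∈ s, ∀ u, tr p u ∈ NN (tr p f - MvPolynomial.C (MvPolynomial.eval p f)) → ∃ v, u = br v f

def IlAbsStmt : Prop := ∀ (k M : Type) [Field k] [CharZero k] [IsAlgClosed k] [AddCommGroup M]
  [Module k M] (d : ℕ) (f : R2 k) (c : ℤ → R2 k →ₗ[k] M) (e : R2 k →ₗ[k] M)
  (BB Λ : Submodule k M), 3 ≤ d → Gen d f → GLax d f c e BB → BB ≤ Λ → ∀ g, (∀ u, g ≠ br u f) →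
  (∀ m : ℤ, ¬ (d : ℤ) ∣ m → c m g ∈ Λ) →
  ∀ (n : ℕ) (r : R2 k), r.IsHomogeneous n → ¬ d ∣ n + 2 → e r ∈ Λ

/-- The form used by the other blocks: `Λ` is a predicate on the function field. -/
def IlStmt : Prop := ∀ (k L : Type) [Field k] [CharZero k] [IsAlgClosed k] [Field L] (d : ℕ)
  (I : Inf k d L) (Λ : AddSubgroup L), 3 ≤ d → (∀ c, ∀ z ∈ Λ, I.κ c * z ∈ Λ) → (∀ η, I.D η ∈ Λ) →
  (∀ m : ℤ, ¬ (d : ℤ) ∣ m → (cc I.Xi).coeff m ∈ Λ) →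
  ∀ (n : ℕ) (r : R2 k), r.IsHomogeneous n → ¬ d ∣ n + 2 → evp I.κ (cc I.x0) (cc I.y0) r ∈ Λ

/-- Data at infinity from a frame. -/
def MkinfStmt : Prop := ∀ (k : Type) [Field k] [CharZero k] (d : ℕ) (o : Ob k d) (U : Type) [Field U]
  (κ : k →+* U) (D : U →+ U) (x y : AA U), 2 ≤ d → IsDer D → (∀ c, D (κ c) = 0) →
  (∀ i j, co2 i j x ∈ gf κ (c00 x) (c00 y) ∧ co2 i j y ∈ gf κ (c00 x) (c00 y)) →
  hev ((C : U →+* U⟦X⟧).comp κ) d o.f (red x) (red y) X = 1 →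
  c00 y * D (c00 x) - c00 x * D (c00 y) ≠ 0 →
  Obs k d κ D (c00 x) (c00 y) (aF ((C : U⟦X⟧ →+* AA U).comp (map κ)) d o.P o.Q x y)
    (bF ((C : U⟦X⟧ →+* AA U).comp (map κ)) d o.P o.Q (cw D) x y)

/-- Elementary properties of `Obs`. -/
def ObsStmt : Prop := ∀ (k : Type) [Field k] [CharZero k] (d : ℕ) (U : Type) [Field U] (κ : k →+* U)
  (D : U →+ U) (x y : U) (a b : AA U), Obs k d κ D x y a b →
  red a = -((d : U⟦X⟧) * X) ∧ red b = 0 ∧ (∀ c, D (κ c) = 0) ∧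
  ∀ (U' : Type) [Field U'] (D' : U' →+ U') (j : U →+* U') (θ : U'), θ ≠ 0 → IsDer D' →
    (∀ c, D' (j c) = θ * j (D c)) →
    Obs k d (j.comp κ) D' (j x) (j y) (mA j a) (CC θ * mA j b)

def BaseStmt : Prop := ∀ (k L U : Type) [Field k] [CharZero k] [Field L] [Field U] (d : ℕ)
  (I : Inf k d L) (D1 : U →+ U) (i : L →+* U), 2 ≤ d → DExt I.D D1 i →
  ∃ (k' L' U' : Type) (_ : Field k') (_ : CharZero k') (_ : IsAlgClosed k') (_ : Field L')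
    (_ : Field U') (I' : Inf k' d L') (D2 : U' →+ U') (i' : L' →+* U') (jl : L →+* L')
    (j : U →+* U'), DExt I'.D D2 i' ∧ DExt I.D I'.D jl ∧ DExt D1 D2 j ∧
    (∀ c, i' (jl c) = j (i c)) ∧ I'.a = mA jl I.a ∧ I'.b = mA jl I.b ∧ Cst (i'.comp I'.κ) D2

def PramStmt : Prop := ∀ (k : Type) [Field k] [CharZero k] (d M : ℕ) (o : PD k d), 1 ≤ M →
  ∃ o' : PD k d, o'.b = mA (ram k M) o.b ∧ o'.e = mA (ram k M) o.e ∧ o'.Us = ram k M o.Us ∧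
    o'.zs = ram k M o.zs

/-- The equations at the centre. -/
def PeqStmt : Prop := ∀ (k : Type) [Field k] [CharZero k] (d : ℕ) (o : PD k d), 1 ≤ d →
  ∃ (r1 r2 r3 r4 : k⟦X⟧) (b1 e2 : AA k), cc o.b = C (co2 0 0 o.b) + X * b1 ∧
    cc o.e = C (co2 0 0 o.e) + C (co2 1 0 o.e) * X + X ^ 2 * e2 ∧
    co2 0 0 o.b + o.Us * ev (RingHom.id _) o.Us b1 = o.zs * (1 + X * r1) ∧
    co2 1 0 o.e + o.Us * ev (RingHom.id _) o.Us (2 * e2 + X * dX _ e2) =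
      -(o.zs * ((d : k⟦X⟧) + 1 + X * r2)) ∧
    co2 0 0 o.e + co2 1 0 o.e * o.Us + o.Us ^ 2 * ev (RingHom.id _) o.Us e2 =
      o.zs * (o.Us * r3 + X * o.zs ^ d * r4)

def PframeStmt : Prop := ∀ (k : Type) [Field k] [CharZero k] (d N : ℕ) (o : PD k d)
  (a b : AA k⸨X⸩), 2 ≤ d → 1 ≤ N →
  CC (wL k (N * (d + 1))) * a = thU k N d (fB d o.e) →
  CC (wL k (N * (d + 1))) * b =
    (N : AA k⸨X⸩) * thU k N d ((d : AA k⟦X⟧) * C X * (X - o.b) + fB d o.e) →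
  (∃ y, Obs k d (cL k) (thL k) (wL k (-(N : ℤ))) y a b) ∧ (cc o.e ≠ 0 → ¬ a ∣ X * b)

def AbmkStmt : Prop := ∀ (k : Type) [Field k] [CharZero k] (d ε N : ℕ) (o : PD k d), 2 ≤ d →
  ε ≤ 1 → 1 ≤ N → X ^ (N + 1) ∣ co2 0 0 o.b → X ^ (N + 1) ∣ co2 1 0 o.e →
  X ^ ((d + 1) * N + 1) ∣ co2 0 0 o.e →
  (ε = 0 → co2 0 0 o.b = 0 ∧ co2 1 0 o.e = 0 ∧ co2 0 0 o.e = 0) → ∃ a b, ABrel o ε N a b

/-- Rescaling in the small case. -/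
def AmkStmt : Prop := ∀ (k : Type) [Field k] [CharZero k] (d : ℕ) (o : PD k d), 2 ≤ d →
  (∀ i, 1 ≤ i → X * o.zs ∣ co2 i 0 o.b * o.Us) → (∀ i, 2 ≤ i → X * o.zs ∣ co2 i 0 o.e * o.Us) →
  ∃ (o' : PD k d) (R : ℕ) (b e : AA k⟦X⟧) (β V : k⟦X⟧), 1 ≤ R ∧ AD d b e β V ∧
    CC (X ^ R) * b = rescale (C (X ^ R)) (map (rescale (X ^ (R * d))) o'.b) ∧
    CC (X ^ (R * (d + 1))) * e = rescale (C (X ^ R)) (map (rescale (X ^ (R * d))) o'.e) ∧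
    co2 1 0 o'.e ≠ 0 ∧ X ^ (R + 2) ∣ co2 0 0 o'.b ∧ X ^ (R + 2) ∣ co2 1 0 o'.e ∧
    X ^ ((d + 1) * (R + 1) + 1) ∣ co2 0 0 o'.e

/-- The orders in the large case. -/
def BnumStmt : Prop := ∀ (k : Type) [Field k] [CharZero k] (d : ℕ) (o : PD k d),
  2 ≤ d → ((∃ i, 1 ≤ i ∧ co2 i 0 o.b * o.Us ∣ o.zs) ∨ ∃ i, 2 ≤ i ∧ co2 i 0 o.e * o.Us ∣ o.zs) →
  ∃ (o' : PD k d) (ε N e ω : ℕ) (v : k⟦X⟧), ε ≤ 1 ∧ 1 ≤ N ∧ 1 ≤ e ∧ 1 ≤ ω ∧ (ε = 1 → ω < d * N) ∧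
    IsUnit v ∧ o'.Us = X ^ ω * v ∧ X ^ (e + ω) ∣ o'.zs ∧ X ^ (e + N) ∣ co2 0 0 o'.b ∧
    X ^ (e + N) ∣ co2 1 0 o'.e ∧ X ^ (e + (d + 1) * N) ∣ co2 0 0 o'.e ∧
    (ε = 0 → co2 0 0 o'.b = 0 ∧ co2 1 0 o'.e = 0 ∧ co2 0 0 o'.e = 0) ∧
    (ε = 1 → ¬ (X ^ (e + N + 1) ∣ co2 0 0 o'.b ∧ X ^ (e + N + 1) ∣ co2 1 0 o'.e ∧
      X ^ (e + (d + 1) * N + 1) ∣ co2 0 0 o'.e)) ∧
    (∀ i, 1 ≤ i → X ^ e ∣ co2 i 0 o'.b) ∧ (∀ i, 2 ≤ i → X ^ e ∣ co2 i 0 o'.e) ∧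
    ¬ ((∀ i, 1 ≤ i → X ^ (e + 1) ∣ co2 i 0 o'.b) ∧ ∀ i, 2 ≤ i → X ^ (e + 1) ∣ co2 i 0 o'.e)

/-- The two ends of the annulus. -/
def BendStmt : Prop := ∀ (k : Type) [Field k] [CharZero k] (d ε N e : ℕ) (o : PD k d)
  (a b : (AA k)⟦X⟧), 2 ≤ d → ε ≤ 1 → 1 ≤ N → ABrel o ε N a b → X ^ (e + N) ∣ co2 0 0 o.b →
  X ^ (e + N) ∣ co2 1 0 o.e → X ^ (e + (d + 1) * N) ∣ co2 0 0 o.e →
  (ε = 0 → co2 0 0 o.b = 0 ∧ co2 1 0 o.e = 0 ∧ co2 0 0 o.e = 0) →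
  (ε = 1 → ¬ (X ^ (e + N + 1) ∣ co2 0 0 o.b ∧ X ^ (e + N + 1) ∣ co2 1 0 o.e ∧
    X ^ (e + (d + 1) * N + 1) ∣ co2 0 0 o.e)) →
  (∀ i, 1 ≤ i → X ^ e ∣ co2 i 0 o.b) → (∀ i, 2 ≤ i → X ^ e ∣ co2 i 0 o.e) →
  ¬ ((∀ i, 1 ≤ i → X ^ (e + 1) ∣ co2 i 0 o.b) ∧ ∀ i, 2 ≤ i → X ^ (e + 1) ∣ co2 i 0 o.e) →
  ∃ a0 b0, cc a = tA k ε ^ e * a0 ∧ cc b = tA k ε ^ e * b0 ∧ Supp ε (-N) (d * N) a0 ∧
    Supp ε (-N) (d * N) b0 ∧ (red a0 ≠ 0 ∨ red b0 ≠ 0) ∧ (ε = 1 → cc a0 ≠ 0 ∨ cc b0 ≠ 0)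

def BmkStmt : Prop := ∀ (k : Type) [Field k] [CharZero k] [IsAlgClosed k] (d : ℕ) (o : PD k d),
  2 ≤ d → ((∃ i, 1 ≤ i ∧ co2 i 0 o.b * o.Us ∣ o.zs) ∨ ∃ i, 2 ≤ i ∧ co2 i 0 o.e * o.Us ∣ o.zs) →
  ∃ ε N e a b a0 b0 y n ps qs W, BD (k := k) d ε N e a b a0 b0 y n ps qs W

end Pool.Agent.MP_05b4bd_ag.ES.V
end
section
namespace Pool.Agent.MP_05b4bd_ag.ES.V

open PowerSeries LaurentSeries HC

def EscStmt3 : Prop := ∀ (k : Type) [Field k] [CharZero k] [IsAlgClosed k] (d : ℕ), 3 ≤ d →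
  ∀ (o : Ob k d) (p : Fin 2 → k⸨X⸩), CenP o.P o.Q p → ∀ i, ∃ c, p i = coeL k c

def S1bStmt3 : Prop := ∀ (k L U : Type) [Field k] [CharZero k] [IsAlgClosed k] [Field L] [Field U]
  (d : ℕ) (I : Inf k d L) (D1 : U →+ U) (i : L →+* U) (J : AA U) (ν : ℕ), 3 ≤ d →
  ¬ I.a ∣ X * I.b → DExt I.D D1 i → Cst (i.comp I.κ) D1 →
  IIF (cw D1) (mA i I.a) (X * mA i I.b) J → OrdIs ν J →
  (∀ (U' : Type) [Field U'] (D2 : U' →+ U') (i' : L →+* U') (I' : AA U'), DExt I.D D2 i' →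
    IIF (cw D2) (mA i' I.a) (X * mA i' I.b) I' → ∃ j ≤ ν, coeff j I' ≠ 0) → False

def S1aStmt3 : Prop := ∀ (k L U : Type) [Field k] [CharZero k] [Field L] [Field U]
  (d : ℕ) (I : Inf k d L) (D1 : U →+ U) (i : L →+* U) (r : AA U), 3 ≤ d → ¬ I.a ∣ X * I.b →
  DExt I.D D1 i → r ≠ 0 → cc r = 0 → FIe (cw D1) (mA i I.a) (X * mA i I.b) r → False

def S1Stmt3 : Prop := ∀ (k U : Type) [Field k] [CharZero k] [Field U] (d : ℕ) (κ : k →+* U)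
  (D : U →+ U) (x y : U) (a b I : AA U), 3 ≤ d → Obs k d κ D x y a b → ¬ a ∣ X * b →
  ¬ IIF (cw D) a (X * b) I

def KillStmt3 : Prop := ∀ (k U : Type) [Field k] [CharZero k] [Field U] (d : ℕ) (κ : k →+* U)
  (D δ : U →+ U) (x y : U) (a b Wt lam : AA U) (G0 G1 : U⟦X⟧), 3 ≤ d → Obs k d κ D x y a b →
  LD X (cw D) a b Wt lam G0 G1 → cw D G0 ≠ 0 → IsDer δ → (∀ c, D (δ c) = δ (D c)) →
  cw (cw δ) a = 0 → cw (cw δ) b = 0 → cw δ G0 * cw D G1 = cw δ G1 * cw D G0 →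
  cw δ G0 = 0 ∧ cw δ G1 = 0 ∧ cw (cw δ) Wt = 0

def SymaStmt3 : Prop := ∀ (k L U : Type) [Field k] [CharZero k] [Field L] [Field U]
  (d : ℕ) (I : Inf k d L) (D1 : U →+ U) (i : L →+* U) (φ : L →+* U⟦X⟧) (s : U⟦X⟧) (W l : AA U),
  3 ≤ d → ¬ I.a ∣ X * I.b → DExt I.D D1 i → (∀ c, φ (I.κ c) = C (i (I.κ c))) →
  (∀ c, cw D1 (φ c) = s * φ (I.D c)) → C X ∣ W - X → IsUnit l →
  ev ((C : U⟦X⟧ →+* AA U).comp (hat φ)) W I.a * dX _ W = l * mA i I.a →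
  ev ((C : U⟦X⟧ →+* AA U).comp (hat φ)) W I.a * cw (cw D1) W +
    C s * ev ((C : U⟦X⟧ →+* AA U).comp (hat φ)) W (X * I.b) = l * (X * mA i I.b) →
  ∀ δ : U →+ U, IsDer δ → (∀ c, δ (i c) = 0) →
    cw (cw δ) W = 0 ∧ cw δ s = 0 ∧ ∀ c, cw δ (φ c) = 0

def SymbStmt3 : Prop := ∀ (k L E : Type) [Field k] [CharZero k] [IsAlgClosed k] [Field L] [Field E]
  (d : ℕ) (I : Inf k d L) (D1 : E →+ E) (i : L →+* E) (φ : L →+* E⟦X⟧) (s : E⟦X⟧) (W : AA E),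
  3 ≤ d → DExt I.D D1 i → (∀ e : E, IsAlgebraic i.fieldRange e) → (∀ c, φ (I.κ c) = C (i (I.κ c))) →
  (∀ c, cw D1 (φ c) = s * φ (I.D c)) → C X ∣ W - X →
  mA i I.a * (ev ((C : E⟦X⟧ →+* AA E).comp (hat φ)) W I.a * cw (cw D1) W +
    C s * ev ((C : E⟦X⟧ →+* AA E).comp (hat φ)) W (X * I.b)) =
    ev ((C : E⟦X⟧ →+* AA E).comp (hat φ)) W I.a * dX _ W * (X * mA i I.b) →
  cc s = 1 ∧ (4 ≤ d → cc (φ (cc I.x0)) = i (cc I.x0) ∧ cc (φ (cc I.y0)) = i (cc I.y0))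

def S2aStmt3 : Prop := ∀ (k U : Type) [Field k] [CharZero k] [IsAlgClosed k] [Field U] (d : ℕ)
  (κ : k →+* U) (D : U →+ U) (x y : U) (a b Wt lam : AA U) (G0 G1 : U⟦X⟧) (φ : U →+* U⟦X⟧)
  (s : U⟦X⟧), 3 ≤ d → Obs k d κ D x y a b → LD X (cw D) a b Wt lam G0 G1 → cw D G0 ≠ 0 →
  (∀ c, φ (κ c) = C (κ c)) → (∀ c, cw D (φ c) = s * φ (D c)) → hat φ G0 = G0 → hat φ G1 = G1 →
  cc (φ y) * D (cc (φ x)) - cc (φ x) * D (cc (φ y)) = y * D x - x * D y ∧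
    (4 ≤ d → cc (φ x) = x ∧ cc (φ y) = y)

def S2bStmt3 : Prop := ∀ (k U : Type) [Field k] [CharZero k] [IsAlgClosed k] [Field U] (d : ℕ)
  (κ : k →+* U) (D : U →+ U) (x y : U) (a b Wt lam : AA U) (g0 g1 : AA k) (Φ : AA k →+* U⟦X⟧),
  3 ≤ d → Obs k d κ D x y a b → LD X (cw D) a b Wt lam (Φ g0) (Φ g1) → cw D (Φ g0) ≠ 0 →
  PolyP g0 → PolyP g1 → tA k 1 ∣ g0 → tA k 1 ∣ g1 → (∀ r, Φ (CC r) = C (κ r)) →
  IsUnit (Φ (C X)) → Φ (C X) * Φ X = X → D (cc (Φ (C X))) = 0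

def S2cStmt3 : Prop := ∀ (k L E : Type) [Field k] [CharZero k] [IsAlgClosed k] [Field L] [Field E]
  (d : ℕ) (I : Inf k d L) (D1 : E →+ E) (i : L →+* E) (W : TT E) (p : E⟦X⟧) (g0 g1 : (Polynomial k)⟦X⟧)
  (φ : (Polynomial k)⟦X⟧ →+* E⟦X⟧), 3 ≤ d → DExt I.D D1 i → (∀ e : E, IsAlgebraic i.fieldRange e) →
  cc W = wL E 1 → IsUnit p → (∀ r, φ (C (Polynomial.C r)) = C (i (I.κ r))) →
  φ (C Polynomial.X) = p → p * φ X = X → C Polynomial.X * X ∣ g0 → C Polynomial.X * X ∣ g1 →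
  W * VT D1 (mT i I.vb) W = map (cL E) (cw D1 (φ g0)) + W * map (cL E) (cw D1 (φ g1)) →
  D1 (cc p) = 0

def Case8Stmt3 : Prop := ∀ (k : Type) [Field k] [CharZero k] [IsAlgClosed k] (d : ℕ), 3 ≤ d →
  ∀ (o : Ob k d) (r : ℕ) (x y : k⟦X⟧), 1 ≤ r →
  CenP o.P o.Q ![wL k (-(r : ℤ)) * coeL k x, wL k (-(r : ℤ)) * coeL k y] →
  evp (RingHom.id k) (cc x) (cc y) (hc d o.f) = 0

def DfinStmt3 : Prop := ∀ (k : Type) [Field k] [CharZero k] [IsAlgClosed k] (d : ℕ), 3 ≤ d →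
  ∀ (x y : k⟦X⟧) (a b : AA k⟦X⟧) (u W : k⟦X⟧),
  Obs k d (cL k) (dL k) (coeL k x) (coeL k y) (map iT a) (map iT b) → cc u = 0 → cc W = 0 →
  CenN (coeL k) (X * b) a u W → ∃ σ, cc σ = 0 ∧ coeff 1 σ ≠ 0 ∧ σ ≠ X ∧ sb σ x = x ∧ sb σ y = y

def PmkStmt3 : Prop := ∀ (k : Type) [Field k] [CharZero k] [IsAlgClosed k] (d : ℕ), 3 ≤ d →
  ∀ (o : Ob k d) (r : ℕ) (x y : k⟦X⟧), 1 ≤ r → (cc x ≠ 0 ∨ cc y ≠ 0) →
  CenP o.P o.Q ![wL k (-(r : ℤ)) * coeL k x, wL k (-(r : ℤ)) * coeL k y] →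
  evp (RingHom.id k) (cc x) (cc y) (hc d o.f) = 0 → Nonempty (PD k d)

def AfinStmt3 : Prop := ∀ (k : Type) [Field k] [CharZero k] (d : ℕ) (o : PD k d), 3 ≤ d →
  (∀ i, 1 ≤ i → X * o.zs ∣ co2 i 0 o.b * o.Us) → (∀ i, 2 ≤ i → X * o.zs ∣ co2 i 0 o.e * o.Us) → False

def BlogStmt3 : Prop := ∀ (k : Type) [Field k] [CharZero k] [IsAlgClosed k] (d ε N e : ℕ)
  (a b : (AA k)⟦X⟧) (a0 b0 : AA k) (y : k⸨X⸩) (n : ℕ) (ps qs W : k⟦X⟧), 3 ≤ d →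
  BD d ε N e a b a0 b0 y n ps qs W → ∃ Wt lam G0 G1, LD (tA k ε) (DA k ε) a b Wt lam G0 G1 ∧
    Lead (-(d : AA k)) (tA k ε) (DA k ε) (cc a) (cc b) G0 G1 ∧ SS ε N G0 ∧ SS ε N G1 ∧
    tA k ε ^ (2 * e) ∣ G0 ∧ tA k ε ^ e ∣ G1 ∧ DA k ε G0 ≠ 0 ∧
    ∃ (S : Type) (_ : CommRing S) (_ : IsDomain S) (ψ1 ψ2 : AA k →+* S), Refl ψ1 ψ2 ∧
      (∀ v, coeff 1 v ≠ 0 → ψ1 v ≠ ψ2 v) ∧ ψ1 (psi0 ε ps qs G0) = ψ2 (psi0 ε ps qs G0) ∧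
      ψ1 (psi0 ε ps qs G1) = ψ2 (psi0 ε ps qs G1)

def BfinStmt3 : Prop := ∀ (k : Type) [Field k] [CharZero k] [IsAlgClosed k] (d ε N e : ℕ)
  (a b : (AA k)⟦X⟧) (a0 b0 : AA k) (y : k⸨X⸩) (n : ℕ) (ps qs W : k⟦X⟧), 3 ≤ d →
  BD d ε N e a b a0 b0 y n ps qs W → False

/-- Two different non-zero classes occur. -/
def TwoStmt : Prop := ∀ (k L : Type) [Field k] [CharZero k] [IsAlgClosed k] [Field L] (d : ℕ)
  (I : Inf k d L) (r : ℤ → R2 k), 3 ≤ d →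
  (∀ m, ∃ η, (cc I.Xi).coeff m = I.D η + evp I.κ (cc I.x0) (cc I.y0) (r m)) →
  (∀ m, Cls d m (r m)) → ∃ m1 m2 : ℤ, ¬ (d : ℤ) ∣ m1 ∧ ¬ (d : ℤ) ∣ m2 ∧ ¬ (d : ℤ) ∣ m1 - m2 ∧
    ¬ Bt (hc d I.f) (r m1) ∧ ¬ Bt (hc d I.f) (r m2)

/-- The coefficients of the Gelfand-Leray form are pure. -/
def WtStmt : Prop := ∀ (k L : Type) [Field k] [CharZero k] [Field L] (d : ℕ) (I : Inf k d L),
  1 ≤ d → ∃ r : ℤ → R2 k,
    (∀ m, ∃ η, (cc I.Xi).coeff m = I.D η + evp I.κ (cc I.x0) (cc I.y0) (r m)) ∧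
    ∀ m, Cls d m (r m)

end Pool.Agent.MP_05b4bd_ag.ES.V
end
section
namespace Pool.Agent.MP_05b4bd_ag.ES.V

open MvPolynomial HC

variable {k : Type} [Field k]

theorem genTopS : GenTopStmt := fun _ _ _ _ _ _ H =>
  ⟨trivial, H.2.2.1.ci, H.2.2.2.2.1, H.2.2.2.2.2, fun _ _ _ j => H.map j⟩

end Pool.Agent.MP_05b4bd_ag.ES.V
end

section
namespace Pool.Agent.MP_05b4bd_ag.PC3.V

open MvPolynomial HC
open Pool.Agent.MP_05b4bd_ag.ES hiding Gen GenTopStmt GenJacStmt Ob EscStmt3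
open Pool.Agent.MP_05b4bd_ag.ES.V
open scoped PowerSeries LaurentSeries

section Arc
variable {k : Type} [Field k]

/-- An arc of forms of degree at most `d` through `df`. -/
structure Arc [CharZero k] (d : ℕ) (f : R2 k) (w : Fm k⟦X⟧) : Prop where
  gen : Gen d f
  deg : DF (d + 1) w
  red : mapF cc w = d1 f

end Arc

/-- The polynomial has no invariant line or conic. -/
def IcStmt : Prop := ∀ (k : Type) [Field k] [CharZero k] [IsAlgClosed k] (d : ℕ) (f g h : R2 k),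
  3 ≤ d → Gen d f → g ≠ 0 → DL 3 g → br g f = h * g → DL 1 g

def UpStmt : Prop := ∀ (k : Type) [Field k] [CharZero k] [IsAlgClosed k] (d : ℕ) (f : R2 k)
  (w : Fm k⟦X⟧), 3 ≤ d → Arc d f w → Link w → LevB d (mapF (coeL k) w) (JK w)

def LoStmt : Prop := ∀ (k : Type) [Field k] [CharZero k] (d : ℕ) (f : R2 k) (w : Fm k⟦X⟧), 3 ≤ d →
  Arc d f w → Link w → (d - 2) * (d - 1) ≤ Module.finrank k⸨X⸩ (Jd (JK w) (2 * d - 3))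

end Pool.Agent.MP_05b4bd_ag.PC3.V
end
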